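import Mathlib
import Pool.Agent.Lib.MP_ae5b4e_an_hopf.Plane

/-!
# MP_ae5b4e_an, algebraic tables: a closed convex curve on a conic is an ellipse
-/

set_option autoImplicit false
noncomputable section
namespace Pool.Agent.MP_ae5b4e_an_ALG
open Filter Topology Set Metric Complex Polynomial
open scoped Real

namespace AHaux
open Pool.Agent.MP_ae5b4e_an_hopf

/-- a continuous periodic function has a maximum -/
theorem exists_max {f : ℝ → ℝ} {T : ℝ} (hT : 0 < T) (hc : Continuous f)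
    (hp : ∀ t, f (t + T) = f t) : ∃ t₁, ∀ t, f t ≤ f t₁ := by
  obtain ⟨t₁, -, h1⟩ := isCompact_Icc.exists_isMaxOn (nonempty_Icc.2 hT.le) hc.continuousOn
  refine ⟨t₁, fun t => ?_⟩
  obtain ⟨y, hy, hty⟩ := Function.Periodic.exists_mem_Ico₀ (f := f) (c := T) hp hT t
  rw [hty]
  exact h1 (Ico_subset_Icc_self hy)

theorem not_const (γ : ConvexCurve) {x₀ y₀ : ℝ} (h : ∀ t, γ.x t = x₀ ∧ γ.y t = y₀) : False := by
  have h1 : γ.x = fun _ => x₀ := funext fun t => (h t).1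
  have h2 : γ.y = fun _ => y₀ := funext fun t => (h t).2
  have h3 := γ.curved 0
  rw [h1, h2] at h3
  simp at h3

/-- a definite form -/
theorem form_eq_zero {a b c p q : ℝ} (ha : 0 < a) (hb : b ^ 2 < a * c)
    (h : a * p ^ 2 + 2 * b * p * q + c * q ^ 2 = 0) : p = 0 ∧ q = 0 := by
  have h1 : (a * p + b * q) ^ 2 + (a * c - b ^ 2) * q ^ 2 = 0 := by
    have : a * (a * p ^ 2 + 2 * b * p * q + c * q ^ 2) = 0 := by rw [h, mul_zero]
    linear_combination this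
  have h2 : 0 ≤ (a * p + b * q) ^ 2 := sq_nonneg _
  have h3 : 0 ≤ (a * c - b ^ 2) * q ^ 2 := mul_nonneg (by linarith) (sq_nonneg _)
  have h4 : (a * c - b ^ 2) * q ^ 2 = 0 := by linarith
  have hq : q = 0 := by
    rcases mul_eq_zero.1 h4 with h5 | h5
    · linarith
    · exact pow_eq_zero_iff (two_ne_zero) |>.1 h5
  subst hq
  have h5 : a * p ^ 2 = 0 := by linear_combination h
  rcases mul_eq_zero.1 h5 with h6 | h6
  · linarith
  · exact ⟨pow_eq_zero_iff (two_ne_zero) |>.1 h6, rfl⟩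

section
variable (γ : ConvexCurve) {A B C D E F : ℝ}
    (h : ∀ t, A * γ.x t ^ 2 + B * γ.x t * γ.y t + C * γ.y t ^ 2 + D * γ.x t + E * γ.y t + F = 0)
include h

theorem first_deriv (t : ℝ) : (2 * A * γ.x t + B * γ.y t + D) * deriv γ.x t +
    (B * γ.x t + 2 * C * γ.y t + E) * deriv γ.y t = 0 := by
  have hx := γ.hd_x t
  have hy := γ.hd_y t
  have h1 : HasDerivAt (fun t => A * γ.x t ^ 2 + B * γ.x t * γ.y t + C * γ.y t ^ 2 + D * γ.x t +
      E * γ.y t + F) 0 t := by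
    have h2 : (fun t => A * γ.x t ^ 2 + B * γ.x t * γ.y t + C * γ.y t ^ 2 + D * γ.x t +
      E * γ.y t + F) = fun _ => (0 : ℝ) := funext h
    rw [h2]
    exact hasDerivAt_const t 0
  have h3 := ((((((hx.pow 2).const_mul A).add ((hx.const_mul B).mul hy)).add
    ((hy.pow 2).const_mul C)).add (hx.const_mul D)).add (hy.const_mul E)).add_const F
  have h4 := h1.unique h3
  simp only [Nat.cast_ofNat, Nat.add_one_sub_one, pow_one] at h4
  linear_combination -h4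

theorem second_deriv (t : ℝ) : 2 * (A * deriv γ.x t ^ 2 + B * deriv γ.x t * deriv γ.y t +
    C * deriv γ.y t ^ 2) + ((2 * A * γ.x t + B * γ.y t + D) * deriv (deriv γ.x) t +
    (B * γ.x t + 2 * C * γ.y t + E) * deriv (deriv γ.y) t) = 0 := by
  have hx := γ.hd_x t
  have hy := γ.hd_y t
  have hx' := γ.hd_x' t
  have hy' := γ.hd_y' t
  have h1 : HasDerivAt (fun t => (2 * A * γ.x t + B * γ.y t + D) * deriv γ.x t +
    (B * γ.x t + 2 * C * γ.y t + E) * deriv γ.y t) 0 t := by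
    have h2 : (fun t => (2 * A * γ.x t + B * γ.y t + D) * deriv γ.x t +
      (B * γ.x t + 2 * C * γ.y t + E) * deriv γ.y t) = fun _ => (0 : ℝ) :=
      funext (first_deriv γ h)
    rw [h2]
    exact hasDerivAt_const t 0
  have h3 := ((((hx.const_mul (2 * A)).add (hy.const_mul B)).add_const D).mul hx').add
    ((((hx.const_mul B).add (hy.const_mul (2 * C))).add_const E).mul hy')
  have h4 := h1.unique h3
  simp only [Pi.add_apply] at h4
  linear_combination -h4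

/-- at a point with isotropic tangent vector the gradient is zero -/
theorem grad_zero {v₁ v₂ : ℝ} (hv : v₁ ≠ 0 ∨ v₂ ≠ 0)
    (hQ : A * v₁ ^ 2 + B * v₁ * v₂ + C * v₂ ^ 2 = 0) {t : ℝ}
    (ht : v₂ * deriv γ.x t - v₁ * deriv γ.y t = 0) :
    2 * A * γ.x t + B * γ.y t + D = 0 ∧ B * γ.x t + 2 * C * γ.y t + E = 0 := by
  have h1 := first_deriv γ h t
  have h2 := second_deriv γ h t
  have hW := γ.curved t
  set x' := deriv γ.x t
  set y' := deriv γ.y t
  set x'' := deriv (deriv γ.x) t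
  set y'' := deriv (deriv γ.y) t
  set G := 2 * A * γ.x t + B * γ.y t + D
  set H := B * γ.x t + 2 * C * γ.y t + E
  have h3 : A * x' ^ 2 + B * x' * y' + C * y' ^ 2 = 0 := by
    rcases hv with hv | hv
    · have h4 : v₁ ^ 2 * (A * x' ^ 2 + B * x' * y' + C * y' ^ 2) = 0 := by
        have h5 : v₁ * y' = v₂ * x' := by linarith
        calc v₁ ^ 2 * (A * x' ^ 2 + B * x' * y' + C * y' ^ 2)
            = A * v₁ ^ 2 * x' ^ 2 + B * v₁ * x' * (v₁ * y') + C * (v₁ * y') ^ 2 := by ring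
          _ = x' ^ 2 * (A * v₁ ^ 2 + B * v₁ * v₂ + C * v₂ ^ 2) := by rw [h5]; ring
          _ = 0 := by rw [hQ, mul_zero]
      rcases mul_eq_zero.1 h4 with h5 | h5
      · exact absurd (pow_eq_zero_iff two_ne_zero |>.1 h5) hv
      · exact h5
    · have h4 : v₂ ^ 2 * (A * x' ^ 2 + B * x' * y' + C * y' ^ 2) = 0 := by
        have h5 : v₂ * x' = v₁ * y' := by linarith
        calc v₂ ^ 2 * (A * x' ^ 2 + B * x' * y' + C * y' ^ 2)
            = A * (v₂ * x') ^ 2 + B * v₂ * y' * (v₂ * x') + C * v₂ ^ 2 * y' ^ 2 := by ring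
          _ = y' ^ 2 * (A * v₁ ^ 2 + B * v₁ * v₂ + C * v₂ ^ 2) := by rw [h5]; ring
          _ = 0 := by rw [hQ, mul_zero]
      rcases mul_eq_zero.1 h4 with h5 | h5
      · exact absurd (pow_eq_zero_iff two_ne_zero |>.1 h5) hv
      · exact h5
  rw [h3, mul_zero, zero_add] at h2
  have h4 : G * (x' * y'' - y' * x'') = 0 := by linear_combination y'' * h1 - y' * h2
  have h5 : H * (x' * y'' - y' * x'') = 0 := by linear_combination x' * h2 - x'' * h1
  exact ⟨(mul_eq_zero.1 h4).resolve_right hW.ne', (mul_eq_zero.1 h5).resolve_right hW.ne'⟩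

theorem disc_pos (hne : (A, B, C, D, E, F) ≠ (0, 0, 0, 0, 0, 0)) : B ^ 2 < 4 * A * C := by
  by_contra hle
  push Not at hle
  obtain ⟨v₁, v₂, hv, hQ⟩ : ∃ v₁ v₂ : ℝ, (v₁ ≠ 0 ∨ v₂ ≠ 0) ∧
      A * v₁ ^ 2 + B * v₁ * v₂ + C * v₂ ^ 2 = 0 := by
    by_cases hA : A = 0
    · exact ⟨1, 0, Or.inl one_ne_zero, by rw [hA]; ring⟩
    · refine ⟨-B + Real.sqrt (B ^ 2 - 4 * A * C), 2 * A, Or.inr (by simpa using hA), ?_⟩
      have hs := Real.sq_sqrt (show 0 ≤ B ^ 2 - 4 * A * C by linarith)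
      linear_combination A * hs
  have hcx : Continuous γ.x := γ.smooth_x.continuous
  have hcy : Continuous γ.y := γ.smooth_y.continuous
  obtain ⟨t₁, h1⟩ := exists_max γ.T_pos (f := fun t => v₂ * γ.x t - v₁ * γ.y t) (by fun_prop)
    (fun t => by simp only [γ.per_x, γ.per_y])
  obtain ⟨t₂, h2⟩ := exists_max γ.T_pos (f := fun t => -(v₂ * γ.x t - v₁ * γ.y t)) (by fun_prop)
    (fun t => by simp only [γ.per_x, γ.per_y])
  have hd : ∀ t, HasDerivAt (fun t => v₂ * γ.x t - v₁ * γ.y t)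
      (v₂ * deriv γ.x t - v₁ * deriv γ.y t) t := fun t =>
    ((γ.hd_x t).const_mul v₂).sub ((γ.hd_y t).const_mul v₁)
  have hd1 : v₂ * deriv γ.x t₁ - v₁ * deriv γ.y t₁ = 0 :=
    IsLocalMax.hasDerivAt_eq_zero (Filter.Eventually.of_forall h1) (hd t₁)
  have hd2 : v₂ * deriv γ.x t₂ - v₁ * deriv γ.y t₂ = 0 := by
    have h3 := IsLocalMax.hasDerivAt_eq_zero (Filter.Eventually.of_forall h2) (hd t₂).neg
    linarith
  obtain ⟨g1, g1'⟩ := grad_zero γ h hv hQ hd1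
  obtain ⟨g2, g2'⟩ := grad_zero γ h hv hQ hd2
  -- ℓ is not constant
  have hlt : v₂ * γ.x t₁ - v₁ * γ.y t₁ ≠ v₂ * γ.x t₂ - v₁ * γ.y t₂ := by
    intro heq
    have hconst : ∀ t, v₂ * γ.x t - v₁ * γ.y t = v₂ * γ.x t₁ - v₁ * γ.y t₁ := by
      intro t
      have h3 := h1 t
      have h4 := h2 t
      beta_reduce at h3 h4
      linarith
    have hz : ∀ t, v₂ * deriv γ.x t - v₁ * deriv γ.y t = 0 := by
      intro t
      have h3 : (fun t => v₂ * γ.x t - v₁ * γ.y t) = fun _ => v₂ * γ.x t₁ - v₁ * γ.y t₁ :=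
        funext hconst
      have h4 := hd t
      rw [h3] at h4
      exact h4.unique (hasDerivAt_const t _)
    have hz' : v₂ * deriv (deriv γ.x) 0 - v₁ * deriv (deriv γ.y) 0 = 0 := by
      have h3 : (fun t => v₂ * deriv γ.x t - v₁ * deriv γ.y t) = fun _ => (0 : ℝ) := funext hz
      have h4 := ((γ.hd_x' 0).const_mul v₂).sub ((γ.hd_y' 0).const_mul v₁)
      rw [show ((fun y => v₂ * deriv γ.x y) - fun y => v₁ * deriv γ.y y) =
        (fun t => v₂ * deriv γ.x t - v₁ * deriv γ.y t) from rfl, h3] at h4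
      exact h4.unique (hasDerivAt_const 0 _)
    have hW := γ.curved 0
    have h0 := hz 0
    rcases hv with hv | hv
    · have h5 : v₁ * (deriv γ.x 0 * deriv (deriv γ.y) 0 - deriv γ.y 0 * deriv (deriv γ.x) 0) =
          0 := by
        linear_combination deriv (deriv γ.x) 0 * h0 - deriv γ.x 0 * hz'
      exact hv ((mul_eq_zero.1 h5).resolve_right hW.ne')
    · have h5 : v₂ * (deriv γ.x 0 * deriv (deriv γ.y) 0 - deriv γ.y 0 * deriv (deriv γ.x) 0) =
          0 := by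
        linear_combination deriv (deriv γ.y) 0 * h0 - deriv γ.y 0 * hz'
      exact hv ((mul_eq_zero.1 h5).resolve_right hW.ne')
  set u₁ := γ.x t₁ - γ.x t₂ with hu₁
  set u₂ := γ.y t₁ - γ.y t₂ with hu₂
  have hδ : v₂ * u₁ - v₁ * u₂ ≠ 0 := by
    intro h3
    apply hlt
    rw [hu₁, hu₂] at h3
    linear_combination h3
  have e1 : 2 * A * u₁ + B * u₂ = 0 := by
    rw [hu₁, hu₂]
    linear_combination g1 - g2
  have e2 : B * u₁ + 2 * C * u₂ = 0 := by
    rw [hu₁, hu₂]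
    linear_combination g1' - g2'
  have hδ2 : (v₂ * u₁ - v₁ * u₂) ^ 2 ≠ 0 := pow_ne_zero 2 hδ
  have hA : A = 0 := by
    have h3 : A * (v₂ * u₁ - v₁ * u₂) ^ 2 = 0 := by
      linear_combination (v₂ ^ 2 * u₁ / 2 - v₂ * u₂ * v₁) * e1 +
        (v₂ ^ 2 * u₂ / 2 - v₂ * u₂ * v₂) * e2 + u₂ ^ 2 * hQ
    exact (mul_eq_zero.1 h3).resolve_right hδ2
  have hC : C = 0 := by
    have h3 : C * (v₂ * u₁ - v₁ * u₂) ^ 2 = 0 := by
      linear_combination (v₁ ^ 2 * u₁ / 2 - v₁ * u₁ * v₁) * e1 +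
        (v₁ ^ 2 * u₂ / 2 - v₁ * u₁ * v₂) * e2 + u₁ ^ 2 * hQ
    exact (mul_eq_zero.1 h3).resolve_right hδ2
  have hB : B = 0 := by
    have h3 : B * (v₂ * u₁ - v₁ * u₂) ^ 2 = 0 := by
      linear_combination (-(v₁ * v₂ * u₁) + (v₂ * u₁ + u₂ * v₁) * v₁) * e1 +
        (-(v₁ * v₂ * u₂) + (v₂ * u₁ + u₂ * v₁) * v₂) * e2 - 2 * u₁ * u₂ * hQ
    exact (mul_eq_zero.1 h3).resolve_right hδ2
  have hD : D = 0 := by
    rw [hA, hB] at g1
    linear_combination g1
  have hE : E = 0 := by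
    rw [hC, hB] at g1'
    linear_combination g1'
  have hF : F = 0 := by
    have h3 := h 0
    rw [hA, hB, hC, hD, hE] at h3
    linear_combination h3
  apply hne
  rw [hA, hB, hC, hD, hE, hF]

end

end AHaux

section AH
open Pool.Agent.MP_ae5b4e_an_hopf
open AHaux

/-- a closed convex curve on a conic is an ellipse -/
theorem ellipse_of_conic (γ : ConvexCurve) {A B C D E F : ℝ}
    (hne : (A, B, C, D, E, F) ≠ (0, 0, 0, 0, 0, 0))
    (h : ∀ t, A * γ.x t ^ 2 + B * γ.x t * γ.y t + C * γ.y t ^ 2 + D * γ.x t + E * γ.y t + F = 0) :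
    ∃ x₀ y₀ a b c : ℝ, 0 < a ∧ b ^ 2 < a * c ∧
      (∀ t, a * (γ.x t - x₀) ^ 2 + 2 * b * (γ.x t - x₀) * (γ.y t - y₀) + c * (γ.y t - y₀) ^ 2 = 1) ∧
      ∀ x y : ℝ, a * (x - x₀) ^ 2 + 2 * b * (x - x₀) * (y - y₀) + c * (y - y₀) ^ 2 = 1 →
        ∃ t, γ.x t = x ∧ γ.y t = y := by
  have hdisc := disc_pos γ h hne
  have hΔ : 4 * A * C - B ^ 2 ≠ 0 := by
    intro h0
    linarith
  obtain ⟨x₀, y₀, hx0, hy0⟩ : ∃ x₀ y₀ : ℝ, 2 * A * x₀ + B * y₀ + D = 0 ∧
      B * x₀ + 2 * C * y₀ + E = 0 := by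
    obtain ⟨Δ, hΔd⟩ : ∃ Δ : ℝ, Δ = 4 * A * C - B ^ 2 := ⟨_, rfl⟩
    rw [← hΔd] at hΔ
    refine ⟨(B * E - 2 * C * D) / Δ, (B * D - 2 * A * E) / Δ, ?_, ?_⟩
    · have h1 : 2 * A * ((B * E - 2 * C * D) / Δ) + B * ((B * D - 2 * A * E) / Δ) + D =
          (2 * A * (B * E - 2 * C * D) + B * (B * D - 2 * A * E) + D * Δ) / Δ := by
        field_simp
      rw [h1, hΔd, div_eq_zero_iff]
      left
      ring
    · have h1 : B * ((B * E - 2 * C * D) / Δ) + 2 * C * ((B * D - 2 * A * E) / Δ) + E =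
          (B * (B * E - 2 * C * D) + 2 * C * (B * D - 2 * A * E) + E * Δ) / Δ := by
        field_simp
      rw [h1, hΔd, div_eq_zero_iff]
      left
      ring
  set κ : ℝ := -(A * x₀ ^ 2 + B * x₀ * y₀ + C * y₀ ^ 2 + D * x₀ + E * y₀ + F) with hκ
  have hQ : ∀ t, A * (γ.x t - x₀) ^ 2 + B * (γ.x t - x₀) * (γ.y t - y₀) +
      C * (γ.y t - y₀) ^ 2 = κ := by
    intro t
    rw [hκ]
    linear_combination h t - (γ.x t - x₀) * hx0 - (γ.y t - y₀) * hy0
  have hsq : ∀ t, 4 * A * κ = (2 * A * (γ.x t - x₀) + B * (γ.y t - y₀)) ^ 2 +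
      (4 * A * C - B ^ 2) * (γ.y t - y₀) ^ 2 := by
    intro t
    rw [← hQ t]
    ring
  have hA : A ≠ 0 := by
    rintro rfl
    nlinarith [sq_nonneg B]
  have hAκ0 : 0 ≤ A * κ := by
    have h1 := hsq 0
    have h2 : 0 ≤ (2 * A * (γ.x 0 - x₀) + B * (γ.y 0 - y₀)) ^ 2 := sq_nonneg _
    have h3 : 0 ≤ (4 * A * C - B ^ 2) * (γ.y 0 - y₀) ^ 2 :=
      mul_nonneg (by linarith) (sq_nonneg _)
    linarith
  have hAκ : 0 < A * κ := by
    refine lt_of_le_of_ne hAκ0 fun h0 => ?_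
    refine not_const γ (x₀ := x₀) (y₀ := y₀) fun t => ?_
    have h1 := hsq t
    have h2 : 0 ≤ (2 * A * (γ.x t - x₀) + B * (γ.y t - y₀)) ^ 2 := sq_nonneg _
    have h3 : 0 ≤ (4 * A * C - B ^ 2) * (γ.y t - y₀) ^ 2 :=
      mul_nonneg (by linarith) (sq_nonneg _)
    have h4 : (4 * A * C - B ^ 2) * (γ.y t - y₀) ^ 2 = 0 := by linarith
    have h5 : (2 * A * (γ.x t - x₀) + B * (γ.y t - y₀)) ^ 2 = 0 := by linarith
    have h6 : γ.y t - y₀ = 0 := by
      rcases mul_eq_zero.1 h4 with h7 | h7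
      · exact absurd h7 hΔ
      · exact pow_eq_zero_iff two_ne_zero |>.1 h7
    have h7 := pow_eq_zero_iff two_ne_zero |>.1 h5
    rw [h6, mul_zero, add_zero] at h7
    have h8 : γ.x t - x₀ = 0 := by
      rcases mul_eq_zero.1 h7 with h9 | h9
      · exact absurd h9 (mul_ne_zero two_ne_zero hA)
      · exact h9
    exact ⟨by linarith, by linarith⟩
  have hκ0 : κ ≠ 0 := by
    intro h0
    rw [h0, mul_zero] at hAκ
    exact lt_irrefl _ hAκ
  have hκ2 : 0 < κ ^ 2 := by positivity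
  have ha : 0 < A / κ := by
    have h1 : A / κ = A * κ / κ ^ 2 := by field_simp
    rw [h1]
    exact div_pos hAκ hκ2
  have hb : (B / (2 * κ)) ^ 2 < A / κ * (C / κ) := by
    have h1 : (B / (2 * κ)) ^ 2 = B ^ 2 / (4 * κ ^ 2) := by field_simp; ring
    have h2 : A / κ * (C / κ) = 4 * A * C / (4 * κ ^ 2) := by field_simp
    rw [h1, h2]
    exact div_lt_div_of_pos_right hdisc (by positivity)
  set a := A / κ with hadef
  set b := B / (2 * κ) with hbdef
  set c := C / κ with hcdef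
  have hA' : A = a * κ := by rw [hadef]; field_simp
  have hB' : B = 2 * b * κ := by rw [hbdef]; field_simp
  have hC' : C = c * κ := by rw [hcdef]; field_simp
  have hE1 : ∀ t, a * (γ.x t - x₀) ^ 2 + 2 * b * (γ.x t - x₀) * (γ.y t - y₀) +
      c * (γ.y t - y₀) ^ 2 = 1 := by
    intro t
    have h1 := hQ t
    have h2 : κ * (a * (γ.x t - x₀) ^ 2 + 2 * b * (γ.x t - x₀) * (γ.y t - y₀) +
      c * (γ.y t - y₀) ^ 2) = κ * 1 := by
      rw [mul_one]
      nth_rewrite 2 [← h1]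
      rw [hA', hB', hC']
      ring
    exact mul_left_cancel₀ hκ0 h2
  refine ⟨x₀, y₀, a, b, c, ha, hb, hE1, fun X Y hXY => ?_⟩
  set p := X - x₀ with hp
  set q := Y - y₀ with hq
  have hcx : Continuous γ.x := γ.smooth_x.continuous
  have hcy : Continuous γ.y := γ.smooth_y.continuous
  obtain ⟨t₁, h1⟩ := exists_max γ.T_pos
    (f := fun t => (a * p + b * q) * (γ.x t - x₀) + (b * p + c * q) * (γ.y t - y₀)) (by fun_prop)
    (fun t => by simp only [γ.per_x, γ.per_y])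
  have hd : HasDerivAt (fun t => (a * p + b * q) * (γ.x t - x₀) + (b * p + c * q) * (γ.y t - y₀))
      ((a * p + b * q) * deriv γ.x t₁ + (b * p + c * q) * deriv γ.y t₁) t₁ :=
    (((γ.hd_x t₁).sub_const x₀).const_mul _).add (((γ.hd_y t₁).sub_const y₀).const_mul _)
  have hd1 : (a * p + b * q) * deriv γ.x t₁ + (b * p + c * q) * deriv γ.y t₁ = 0 :=
    IsLocalMax.hasDerivAt_eq_zero (Filter.Eventually.of_forall h1) hd
  have hd2 : (a * (γ.x t₁ - x₀) + b * (γ.y t₁ - y₀)) * deriv γ.x t₁ +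
      (b * (γ.x t₁ - x₀) + c * (γ.y t₁ - y₀)) * deriv γ.y t₁ = 0 := by
    have h3 := first_deriv γ h t₁
    have h4 : 2 * A * γ.x t₁ + B * γ.y t₁ + D =
        κ * (2 * (a * (γ.x t₁ - x₀) + b * (γ.y t₁ - y₀))) := by
      have : 2 * A * γ.x t₁ + B * γ.y t₁ + D = 2 * A * (γ.x t₁ - x₀) + B * (γ.y t₁ - y₀) := by
        linear_combination hx0
      rw [this, hA', hB']
      ring
    have h5 : B * γ.x t₁ + 2 * C * γ.y t₁ + E =
        κ * (2 * (b * (γ.x t₁ - x₀) + c * (γ.y t₁ - y₀))) := by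
      have : B * γ.x t₁ + 2 * C * γ.y t₁ + E = B * (γ.x t₁ - x₀) + 2 * C * (γ.y t₁ - y₀) := by
        linear_combination hy0
      rw [this, hB', hC']
      ring
    rw [h4, h5] at h3
    have h6 : (2 * κ) * ((a * (γ.x t₁ - x₀) + b * (γ.y t₁ - y₀)) * deriv γ.x t₁ +
      (b * (γ.x t₁ - x₀) + c * (γ.y t₁ - y₀)) * deriv γ.y t₁) = 0 := by
      linear_combination h3
    exact (mul_eq_zero.1 h6).resolve_left (mul_ne_zero two_ne_zero hκ0)
  set g := γ.x t₁ - x₀ with hg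
  set k := γ.y t₁ - y₀ with hk
  have hne' : deriv γ.x t₁ ≠ 0 ∨ deriv γ.y t₁ ≠ 0 := by
    by_contra h3
    push Not at h3
    have h4 := γ.curved t₁
    rw [h3.1, h3.2] at h4
    simp at h4
  have hdet : (a * c - b ^ 2) * (p * k - q * g) = 0 := by
    rcases hne' with h3 | h3
    · have h4 : deriv γ.x t₁ * ((a * c - b ^ 2) * (p * k - q * g)) = 0 := by
        linear_combination (b * g + c * k) * hd1 - (b * p + c * q) * hd2
      exact (mul_eq_zero.1 h4).resolve_left h3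
    · have h4 : deriv γ.y t₁ * ((a * c - b ^ 2) * (p * k - q * g)) = 0 := by
        linear_combination -(a * g + b * k) * hd1 + (a * p + b * q) * hd2
      exact (mul_eq_zero.1 h4).resolve_left h3
  have hpar : p * k - q * g = 0 := (mul_eq_zero.1 hdet).resolve_left (by
    intro h0
    linarith)
  have hg1 : a * g ^ 2 + 2 * b * g * k + c * k ^ 2 = 1 := hE1 t₁
  have hβ : ((a * p + b * q) * g + (b * p + c * q) * k) ^ 2 = 1 := by
    linear_combination (a * g ^ 2 + 2 * b * g * k + c * k ^ 2) * hXY + hg1 -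
      (a * c - b ^ 2) * (p * k - q * g) * hpar
  have hβ' : ((a * p + b * q) * g + (b * p + c * q) * k - 1) *
      ((a * p + b * q) * g + (b * p + c * q) * k + 1) = 0 := by linear_combination hβ
  rcases mul_eq_zero.1 hβ' with h3 | h3
  · have h4 : a * (p - g) ^ 2 + 2 * b * (p - g) * (q - k) + c * (q - k) ^ 2 = 0 := by
      linear_combination hXY + hg1 - 2 * h3
    obtain ⟨h5, h6⟩ := form_eq_zero ha hb h4
    exact ⟨t₁, by linarith, by linarith⟩
  · exfalso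
    refine not_const γ (x₀ := x₀ - p) (y₀ := y₀ - q) fun t => ?_
    have h4 := h1 t
    beta_reduce at h4
    have h5 : 0 ≤ a * (p + (γ.x t - x₀)) ^ 2 + 2 * b * (p + (γ.x t - x₀)) * (q + (γ.y t - y₀)) +
        c * (q + (γ.y t - y₀)) ^ 2 := by
      have h6 : 0 ≤ a * (a * (p + (γ.x t - x₀)) ^ 2 +
          2 * b * (p + (γ.x t - x₀)) * (q + (γ.y t - y₀)) + c * (q + (γ.y t - y₀)) ^ 2) := by
        have h7 : a * (a * (p + (γ.x t - x₀)) ^ 2 +
            2 * b * (p + (γ.x t - x₀)) * (q + (γ.y t - y₀)) + c * (q + (γ.y t - y₀)) ^ 2) =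
            (a * (p + (γ.x t - x₀)) + b * (q + (γ.y t - y₀))) ^ 2 +
            (a * c - b ^ 2) * (q + (γ.y t - y₀)) ^ 2 := by ring
        rw [h7]
        exact add_nonneg (sq_nonneg _) (mul_nonneg (by linarith) (sq_nonneg _))
      exact nonneg_of_mul_nonneg_right h6 ha
    have h6 := hE1 t
    have h7 : a * (p + (γ.x t - x₀)) ^ 2 + 2 * b * (p + (γ.x t - x₀)) * (q + (γ.y t - y₀)) +
        c * (q + (γ.y t - y₀)) ^ 2 = 2 + 2 * ((a * p + b * q) * (γ.x t - x₀) +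
          (b * p + c * q) * (γ.y t - y₀)) := by
      linear_combination hXY + h6
    have h8 : a * (p + (γ.x t - x₀)) ^ 2 + 2 * b * (p + (γ.x t - x₀)) * (q + (γ.y t - y₀)) +
        c * (q + (γ.y t - y₀)) ^ 2 = 0 := by linarith
    obtain ⟨h9, h10⟩ := form_eq_zero ha hb h8
    exact ⟨by linarith, by linarith⟩

end AH

end Pool.Agent.MP_ae5b4e_an_ALG
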