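import Mathlib
import Pool.Agent.Lib.MP_ae5b4e_an_hopf.Plane

set_option autoImplicit false

/-!
# MP_ae5b4e_an, project ALG, module AI: the invariant curves of the outer billiard of an ellipse
-/

noncomputable section

namespace Pool.Agent.MP_ae5b4e_an_ALG

open Filter Topology Set Metric
open scoped Real
open Pool.Agent.MP_ae5b4e_an_hopf

namespace Leaves

/-- a monotone function of period `2π` is constant -/
theorem const_of_mono {α : ℝ → ℝ} (hm : Monotone α) (hp : ∀ θ, α (θ + 2 * π) = α θ) (x y : ℝ) :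
    α x = α y := by
  have key : ∀ x y, α x ≤ α y := by
    intro x y
    have hπ := Real.two_pi_pos
    obtain ⟨n, hn⟩ := exists_nat_ge ((x - y) / (2 * π))
    rw [div_le_iff₀ hπ] at hn
    have h1 : ∀ n : ℕ, α (y + n * (2 * π)) = α y := by
      intro n
      induction n with
      | zero => simp
      | succ n ih =>
        rw [← ih, ← hp (y + n * (2 * π))]
        congr 1
        push_cast
        ring
    rw [← h1 n]
    exact hm (by linarith)
  exact le_antisymm (key x y) (key y x)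

/-- step 1: the unit circle -/
theorem circle_const {S : ℝ → ℝ} (hS : Continuous S) (hpos : ∀ θ, 0 < S θ)
    (hper : ∀ θ, S (θ + 2 * π) = S θ)
    (h : ∀ θ r r' θ₁ θ₂ : ℝ, r ≠ r' →
      Real.cos θ - r * Real.sin θ = Real.cos θ₁ - S θ₁ * Real.sin θ₁ →
      Real.sin θ + r * Real.cos θ = Real.sin θ₁ + S θ₁ * Real.cos θ₁ →
      Real.cos θ - r' * Real.sin θ = Real.cos θ₂ - S θ₂ * Real.sin θ₂ →
      Real.sin θ + r' * Real.cos θ = Real.sin θ₂ + S θ₂ * Real.cos θ₂ → r + r' = 0) (x y : ℝ) :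
    S x = S y := by
  set α : ℝ → ℝ := fun θ => Real.arctan (S θ) with hα
  have hαS : ∀ θ, Real.tan (α θ) = S θ := fun θ => Real.tan_arctan _
  have hcos : ∀ θ, 0 < Real.cos (α θ) := fun θ => Real.cos_arctan_pos _
  have hαc : Continuous α := Real.continuous_arctan.comp hS
  have hsin : ∀ θ, S θ * Real.cos (α θ) = Real.sin (α θ) := by
    intro θ
    rw [← hαS θ, Real.tan_mul_cos (hcos θ).ne']
  set F : ℝ → ℝ := fun θ => θ + 2 * α θ with hF
  have e1 : ∀ θ, Real.cos θ - S θ * Real.sin θ =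
      Real.cos (F θ) - -(S θ) * Real.sin (F θ) := by
    intro θ
    apply mul_right_cancel₀ (hcos θ).ne'
    have h1 : (Real.cos θ - S θ * Real.sin θ) * Real.cos (α θ) = Real.cos (θ + α θ) := by
      rw [Real.cos_add]
      linear_combination (-Real.sin θ) * hsin θ
    have h2 : (Real.cos (F θ) - -(S θ) * Real.sin (F θ)) * Real.cos (α θ) =
        Real.cos (F θ - α θ) := by
      rw [Real.cos_sub]
      linear_combination (Real.sin (F θ)) * hsin θ
    rw [h1, h2]
    congr 1
    simp only [hF]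
    ring
  have e2 : ∀ θ, Real.sin θ + S θ * Real.cos θ =
      Real.sin (F θ) + -(S θ) * Real.cos (F θ) := by
    intro θ
    apply mul_right_cancel₀ (hcos θ).ne'
    have h1 : (Real.sin θ + S θ * Real.cos θ) * Real.cos (α θ) = Real.sin (θ + α θ) := by
      rw [Real.sin_add]
      linear_combination (Real.cos θ) * hsin θ
    have h2 : (Real.sin (F θ) + -(S θ) * Real.cos (F θ)) * Real.cos (α θ) =
        Real.sin (F θ - α θ) := by
      rw [Real.sin_sub]
      linear_combination (-Real.cos (F θ)) * hsin θ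
    rw [h1, h2]
    congr 1
    simp only [hF]
    ring
  have hSF : ∀ θ, S (F θ) = S θ := by
    intro θ
    have h1 := h (F θ) (-(S θ)) (S (F θ)) θ (F θ)
      (by have := hpos θ; have := hpos (F θ); intro h2; linarith)
      (e1 θ).symm (e2 θ).symm rfl rfl
    linarith
  have hαF : ∀ θ, α (F θ) = α θ := by
    intro θ
    simp only [hα, hSF]
  have hFc : Continuous F := by
    simp only [hF]
    fun_prop
  have hinj : Function.Injective F := by
    intro θ₁ θ₂ h12
    have h1 : α θ₁ = α θ₂ := by rw [← hαF θ₁, ← hαF θ₂, h12]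
    simp only [hF, h1] at h12
    linarith
  have hmono : StrictMono F := by
    rcases hFc.strictMono_of_inj hinj with h1 | h1
    · exact h1
    · exfalso
      have hπ := Real.two_pi_pos
      have h2 := h1 (show (0:ℝ) < 0 + 2 * π by linarith)
      simp only [hF, hα, hper] at h2
      linarith
  have hiter : ∀ n : ℕ, ∀ θ, F^[n] θ = θ + 2 * n * α θ := by
    intro n
    induction n with
    | zero => intro θ; simp
    | succ n ih =>
      intro θ
      rw [Function.iterate_succ_apply, ih, hαF]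
      simp only [hF]
      push_cast
      ring
  have hαm : Monotone α := by
    rw [monotone_iff_forall_lt]
    intro θ₁ θ₂ h12
    by_contra hlt
    push Not at hlt
    have hd : 0 < α θ₁ - α θ₂ := by linarith
    obtain ⟨n, hn⟩ := exists_nat_ge ((θ₂ - θ₁) / (α θ₁ - α θ₂))
    rw [div_le_iff₀ hd] at hn
    have h3 := (hmono.iterate n) h12
    rw [hiter, hiter] at h3
    have h4 : (0:ℝ) ≤ (n : ℝ) * (α θ₁ - α θ₂) := by positivity
    nlinarith
  have hαp : ∀ θ, α (θ + 2 * π) = α θ := by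
    intro θ
    simp only [hα, hper]
  have h5 := const_of_mono hαm hαp x y
  rw [← hαS x, ← hαS y, h5]

/-- the unit circle -/
theorem exists_ang {c s : ℝ} (h : c ^ 2 + s ^ 2 = 1) : ∃ θ, Real.cos θ = c ∧ Real.sin θ = s := by
  set z : ℂ := ⟨c, s⟩ with hz
  have hn : ‖z‖ = 1 := by
    rw [Complex.norm_eq_sqrt_sq_add_sq, hz]
    simp only
    rw [h, Real.sqrt_one]
  have hz0 : z ≠ 0 := by
    intro h0
    rw [h0, norm_zero] at hn
    exact zero_ne_one hn
  refine ⟨Complex.arg z, ?_, ?_⟩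
  · rw [Complex.cos_arg hz0, hn, div_one]
  · rw [Complex.sin_arg, hn, div_one]

/-- the angle function -/
theorem exists_angle {u v u' v' : ℝ → ℝ} (hu : ∀ t, HasDerivAt u (u' t) t)
    (hv : ∀ t, HasDerivAt v (v' t) t) (hu' : Continuous u') (hv' : Continuous v')
    (h1 : ∀ t, u t ^ 2 + v t ^ 2 = 1) :
    ∃ θ : ℝ → ℝ, ∀ t, HasDerivAt θ (u t * v' t - v t * u' t) t ∧
      Real.cos (θ t) = u t ∧ Real.sin (θ t) = v t := by
  have huc : Continuous u := continuous_iff_continuousAt.2 fun t => (hu t).continuousAt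
  have hvc : Continuous v := continuous_iff_continuousAt.2 fun t => (hv t).continuousAt
  have hωc : Continuous fun t => u t * v' t - v t * u' t := by fun_prop
  obtain ⟨θ₀, hc0, hs0⟩ := exists_ang (h1 0)
  set θ : ℝ → ℝ := fun t => θ₀ + ∫ x in (0:ℝ)..t, (u x * v' x - v x * u' x) with hθ
  have hd : ∀ t, HasDerivAt θ (u t * v' t - v t * u' t) t := by
    intro t
    exact ((hωc.integral_hasStrictDerivAt 0 t).hasDerivAt).const_add θ₀
  have hθ0 : θ 0 = θ₀ := by simp [hθ]
  have horth : ∀ t, u t * u' t + v t * v' t = 0 := by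
    intro t
    have h2 : HasDerivAt (fun t => u t ^ 2 + v t ^ 2)
        (2 * u t ^ 1 * u' t + 2 * v t ^ 1 * v' t) t := ((hu t).pow 2).add ((hv t).pow 2)
    have h3 : (fun t => u t ^ 2 + v t ^ 2) = fun _ => 1 := funext h1
    rw [h3] at h2
    have h4 := h2.unique (hasDerivAt_const t (1:ℝ))
    linarith
  have hA : ∀ t, u t * Real.cos (θ t) + v t * Real.sin (θ t) = 1 := by
    have hdA : ∀ t, HasDerivAt (fun t => u t * Real.cos (θ t) + v t * Real.sin (θ t)) 0 t := by
      intro t
      have h2 := ((hu t).mul (hd t).cos).add ((hv t).mul (hd t).sin)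
      refine h2.congr_deriv ?_
      have e1 := horth t
      have e2 := h1 t
      linear_combination (-(Real.cos (θ t) * (u' t) + Real.sin (θ t) * v' t)) * e2 +
        (Real.cos (θ t) * u t + Real.sin (θ t) * v t) * e1
    intro t
    have h2 := is_const_of_deriv_eq_zero (fun x => (hdA x).differentiableAt)
      (fun x => (hdA x).deriv) t 0
    rw [h2, hθ0, hc0, hs0]
    linarith [h1 0]
  have hB : ∀ t, v t * Real.cos (θ t) - u t * Real.sin (θ t) = 0 := by
    have hdB : ∀ t, HasDerivAt (fun t => v t * Real.cos (θ t) - u t * Real.sin (θ t)) 0 t := by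
      intro t
      have h2 := ((hv t).mul (hd t).cos).sub ((hu t).mul (hd t).sin)
      refine h2.congr_deriv ?_
      have e1 := horth t
      have e2 := h1 t
      linear_combination (-(Real.cos (θ t) * (v' t) - Real.sin (θ t) * u' t)) * e2 +
        (Real.cos (θ t) * v t - Real.sin (θ t) * u t) * e1
    intro t
    have h2 := is_const_of_deriv_eq_zero (fun x => (hdB x).differentiableAt)
      (fun x => (hdB x).deriv) t 0
    rw [h2, hθ0, hc0, hs0]
    ring
  refine ⟨θ, fun t => ⟨hd t, ?_, ?_⟩⟩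
  · have e1 := hA t
    have e2 := hB t
    have e3 := Real.cos_sq_add_sin_sq (θ t)
    linear_combination (-Real.cos (θ t)) * e1 + Real.sin (θ t) * e2 + u t * e3
  · have e1 := hA t
    have e2 := hB t
    have e3 := Real.cos_sq_add_sin_sq (θ t)
    linear_combination (-Real.sin (θ t)) * e1 - Real.cos (θ t) * e2 + v t * e3

end Leaves

open Leaves in
/-- outer billiards of an ellipse: every invariant curve is a homothetic ellipse -/
theorem leaf_of_ellipse (γ : ConvexCurve) {x₀ y₀ a b c : ℝ} (ha : 0 < a) (hb : b ^ 2 < a * c)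
    (hγ : ∀ t, a * (γ.x t - x₀) ^ 2 + 2 * b * (γ.x t - x₀) * (γ.y t - y₀) +
      c * (γ.y t - y₀) ^ 2 = 1)
    (hon : ∀ x y : ℝ, a * (x - x₀) ^ 2 + 2 * b * (x - x₀) * (y - y₀) + c * (y - y₀) ^ 2 = 1 →
        ∃ t, γ.x t = x ∧ γ.y t = y)
    {s : ℝ → ℝ} (hs : Continuous s) (hpos : ∀ t, 0 < s t) (hper : ∀ t, s (t + γ.T) = s t)
    (hproj : ∀ t r r' t₁ t₂, r ≠ r' →
      γ.x t + r * deriv γ.x t = γ.x t₁ + s t₁ * deriv γ.x t₁ →
      γ.y t + r * deriv γ.y t = γ.y t₁ + s t₁ * deriv γ.y t₁ →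
      γ.x t + r' * deriv γ.x t = γ.x t₂ + s t₂ * deriv γ.x t₂ →
      γ.y t + r' * deriv γ.y t = γ.y t₂ + s t₂ * deriv γ.y t₂ → r + r' = 0) :
    ∃ ρ : ℝ, 1 < ρ ∧ ∀ x y : ℝ,
      (a * (x - x₀) ^ 2 + 2 * b * (x - x₀) * (y - y₀) + c * (y - y₀) ^ 2 = ρ ↔
        ∃ t, γ.x t + s t * deriv γ.x t = x ∧ γ.y t + s t * deriv γ.y t = y) := by
  have _ := hon
  set p : ℝ := Real.sqrt a with hp
  have hp0 : 0 < p := Real.sqrt_pos.2 ha
  have hp2 : p ^ 2 = a := Real.sq_sqrt ha.le
  set q : ℝ := b / p with hq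
  have hpq : p * q = b := by
    rw [hq]
    field_simp
  have hm1 : 0 < (a * c - b ^ 2) / a := div_pos (by linarith) ha
  set m : ℝ := Real.sqrt ((a * c - b ^ 2) / a) with hm
  have hm0 : 0 < m := Real.sqrt_pos.2 hm1
  have hm2 : m ^ 2 = (a * c - b ^ 2) / a := Real.sq_sqrt hm1.le
  have hqm : q ^ 2 + m ^ 2 = c := by
    rw [hm2, hq, div_pow, hp2]
    field_simp
    ring
  -- the coordinates
  have hform : ∀ X Y : ℝ, (p * X + q * Y) ^ 2 + (m * Y) ^ 2 =
      a * X ^ 2 + 2 * b * X * Y + c * Y ^ 2 := by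
    intro X Y
    linear_combination X ^ 2 * hp2 + 2 * X * Y * hpq + Y ^ 2 * hqm
  have hinj : ∀ X Y X' Y' : ℝ, p * X + q * Y = p * X' + q * Y' → m * Y = m * Y' →
      X = X' ∧ Y = Y' := by
    intro X Y X' Y' h1 h2
    have h3 : Y = Y' := mul_left_cancel₀ hm0.ne' h2
    rw [h3] at h1
    have h4 : p * X = p * X' := by linarith
    exact ⟨mul_left_cancel₀ hp0.ne' h4, h3⟩
  set u : ℝ → ℝ := fun t => p * (γ.x t - x₀) + q * (γ.y t - y₀) with hu
  set v : ℝ → ℝ := fun t => m * (γ.y t - y₀) with hv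
  set u' : ℝ → ℝ := fun t => p * deriv γ.x t + q * deriv γ.y t with hu'
  set v' : ℝ → ℝ := fun t => m * deriv γ.y t with hv'
  have hdu : ∀ t, HasDerivAt u (u' t) t := fun t =>
    (((γ.hd_x t).sub_const x₀).const_mul p).add (((γ.hd_y t).sub_const y₀).const_mul q)
  have hdv : ∀ t, HasDerivAt v (v' t) t := fun t => ((γ.hd_y t).sub_const y₀).const_mul m
  have hcx : Continuous (deriv γ.x) :=
    continuous_iff_continuousAt.2 fun t => (γ.hd_x' t).continuousAt
  have hcy : Continuous (deriv γ.y) :=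
    continuous_iff_continuousAt.2 fun t => (γ.hd_y' t).continuousAt
  have hu'c : Continuous u' := by
    simp only [hu']
    fun_prop
  have hv'c : Continuous v' := by
    simp only [hv']
    fun_prop
  have h1 : ∀ t, u t ^ 2 + v t ^ 2 = 1 := by
    intro t
    rw [← hγ t, ← hform]
  obtain ⟨θ, hθ⟩ := exists_angle hdu hdv hu'c hv'c h1
  set ω : ℝ → ℝ := fun t => u t * v' t - v t * u' t with hω
  have horth : ∀ t, u t * u' t + v t * v' t = 0 := by
    intro t
    have h2 : HasDerivAt (fun t => u t ^ 2 + v t ^ 2)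
        (2 * u t ^ 1 * u' t + 2 * v t ^ 1 * v' t) t := ((hdu t).pow 2).add ((hdv t).pow 2)
    have h3 : (fun t => u t ^ 2 + v t ^ 2) = fun _ => 1 := funext h1
    rw [h3] at h2
    have h4 := h2.unique (hasDerivAt_const t (1:ℝ))
    linarith
  have eu' : ∀ t, u' t = -(ω t * v t) := by
    intro t
    simp only [hω]
    linear_combination (-u' t) * h1 t + u t * horth t
  have ev' : ∀ t, v' t = ω t * u t := by
    intro t
    simp only [hω]
    linear_combination (-v' t) * h1 t + v t * horth t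
  have hdθ : ∀ t, HasDerivAt θ (ω t) t := fun t => (hθ t).1
  have hcos : ∀ t, Real.cos (θ t) = u t := fun t => (hθ t).2.1
  have hsin : ∀ t, Real.sin (θ t) = v t := fun t => (hθ t).2.2
  have hθc : Continuous θ := continuous_iff_continuousAt.2 fun t => (hdθ t).continuousAt
  -- convexity
  have hconv : ∀ t r, t < r → r < t + γ.T → 0 < ω t * (1 - Real.cos (θ r - θ t)) := by
    intro t r h2 h3
    have h4 := γ.convex t r h2 h3
    have h5 : ω t * (1 - Real.cos (θ r - θ t)) =
        p * m * (deriv γ.x t * (γ.y r - γ.y t) - deriv γ.y t * (γ.x r - γ.x t)) := by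
      have h6 : p * m * (deriv γ.x t * (γ.y r - γ.y t) - deriv γ.y t * (γ.x r - γ.x t)) =
          u' t * (v r - v t) - v' t * (u r - u t) := by
        simp only [hu, hv, hu', hv']
        ring
      rw [h6, eu', ev', Real.cos_sub, hcos, hcos, hsin, hsin]
      linear_combination (-ω t) * h1 t
    rw [h5]
    positivity
  have hωpos : ∀ t, 0 < ω t := by
    intro t
    have h2 := hconv t (t + γ.T / 2) (by linarith [γ.T_pos]) (by linarith [γ.T_pos])
    by_contra h3
    push Not at h3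
    have h4 : 0 ≤ 1 - Real.cos (θ (t + γ.T / 2) - θ t) := by
      linarith [Real.cos_le_one (θ (t + γ.T / 2) - θ t)]
    have := mul_nonpos_of_nonpos_of_nonneg h3 h4
    linarith
  have hmono : StrictMono θ := strictMono_of_deriv_pos fun t => by
    rw [(hdθ t).deriv]
    exact hωpos t
  have hup : ∀ t, u (t + γ.T) = u t := by
    intro t
    simp only [hu, γ.per_x, γ.per_y]
  have hvp : ∀ t, v (t + γ.T) = v t := by
    intro t
    simp only [hv, γ.per_y]
  have hθp : ∀ t, θ (t + γ.T) = θ t + 2 * π := by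
    intro t
    have hT := γ.T_pos
    have hlt : θ t < θ (t + γ.T) := hmono (by linarith)
    have hcos1 : Real.cos (θ (t + γ.T) - θ t) = 1 := by
      rw [Real.cos_sub, hcos, hcos, hsin, hsin, hup, hvp]
      linarith [h1 t]
    obtain ⟨k, hk⟩ := (Real.cos_eq_one_iff _).1 hcos1
    have hπ := Real.two_pi_pos
    have hk0 : 0 < k := by
      by_contra h2
      push Not at h2
      have h3 : (k : ℝ) ≤ 0 := by exact_mod_cast h2
      have h4 := mul_nonpos_of_nonpos_of_nonneg h3 hπ.le
      linarith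
    have hk1 : k ≤ 1 := by
      by_contra h2
      push Not at h2
      have h3 : (2 : ℝ) ≤ k := by exact_mod_cast h2
      have h4 : 2 * (2 * π) ≤ k * (2 * π) := by gcongr
      have h5 : θ t + 2 * π ∈ Icc (θ t) (θ (t + γ.T)) := ⟨by linarith, by linarith⟩
      obtain ⟨r, hr, hr2⟩ := intermediate_value_Icc (by linarith : t ≤ t + γ.T)
        hθc.continuousOn h5
      have h6 : t < r := by
        rcases eq_or_lt_of_le hr.1 with h7 | h7
        · rw [← h7] at hr2
          linarith
        · exact h7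
      have h7 : r < t + γ.T := by
        rcases eq_or_lt_of_le hr.2 with h8 | h8
        · rw [h8] at hr2
          linarith
        · exact h8
      have h8 := hconv t r h6 h7
      rw [hr2, add_sub_cancel_left, Real.cos_two_pi, sub_self, mul_zero] at h8
      exact lt_irrefl _ h8
    have hk2 : k = 1 := by omega
    rw [hk2] at hk
    push_cast at hk
    linarith
  have hsurj : Function.Surjective θ := by
    intro ψ
    have hπ := Real.two_pi_pos
    have hT := γ.T_pos
    have hn : ∀ n : ℕ, θ (n * γ.T) = θ 0 + n * (2 * π) := by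
      intro n
      induction n with
      | zero => simp
      | succ n ih =>
        have h2 : ((n + 1 : ℕ) : ℝ) * γ.T = n * γ.T + γ.T := by
          push_cast
          ring
        rw [h2, hθp, ih]
        push_cast
        ring
    have hn' : ∀ n : ℕ, θ (-(n * γ.T)) = θ 0 - n * (2 * π) := by
      intro n
      induction n with
      | zero => simp
      | succ n ih =>
        have h2 : -(n * γ.T) = -(((n + 1 : ℕ) : ℝ) * γ.T) + γ.T := by
          push_cast
          ring
        rw [h2, hθp] at ih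
        push_cast at ih ⊢
        linarith
    obtain ⟨n, hn1⟩ := exists_nat_ge ((ψ - θ 0) / (2 * π))
    obtain ⟨n', hn2⟩ := exists_nat_ge ((θ 0 - ψ) / (2 * π))
    rw [div_le_iff₀ hπ] at hn1 hn2
    have h2 : -(n' * γ.T) ≤ n * γ.T := by
      have h3 : (0:ℝ) ≤ n' * γ.T := by positivity
      have h4 : (0:ℝ) ≤ n * γ.T := by positivity
      linarith
    obtain ⟨r, _, hr2⟩ := intermediate_value_Icc h2 hθc.continuousOn
      (show ψ ∈ Icc (θ (-(n' * γ.T))) (θ (n * γ.T)) by
        rw [hn, hn']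
        exact ⟨by linarith, by linarith⟩)
    exact ⟨r, hr2⟩
  set e := hmono.orderIsoOfSurjective θ hsurj with he
  have he1 : ∀ t, e t = θ t := fun t => rfl
  set τ : ℝ → ℝ := fun ψ => e.symm ψ with hτ
  have hτc : Continuous τ := e.symm.continuous
  have hθτ : ∀ ψ, θ (τ ψ) = ψ := by
    intro ψ
    rw [← he1]
    exact e.apply_symm_apply ψ
  have hτθ : ∀ t, τ (θ t) = t := by
    intro t
    rw [← he1]
    exact e.symm_apply_apply t
  have hτp : ∀ ψ, τ (ψ + 2 * π) = τ ψ + γ.T := by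
    intro ψ
    apply hmono.injective
    rw [hθτ, hθp, hθτ]
  have hωc : Continuous ω := by
    have huc : Continuous u := continuous_iff_continuousAt.2 fun t => (hdu t).continuousAt
    have hvc : Continuous v := continuous_iff_continuousAt.2 fun t => (hdv t).continuousAt
    simp only [hω]
    fun_prop
  have hωp : ∀ t, ω (t + γ.T) = ω t := by
    intro t
    have h2 : HasDerivAt (fun t => θ (t + γ.T)) (ω (t + γ.T)) t :=
      (hdθ (t + γ.T)).comp_add_const t γ.T
    have h3 : HasDerivAt (fun t => θ t + 2 * π) (ω t) t := (hdθ t).add_const _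
    have h4 : (fun t => θ (t + γ.T)) = fun t => θ t + 2 * π := funext hθp
    rw [h4] at h2
    exact h2.unique h3
  set S : ℝ → ℝ := fun ψ => s (τ ψ) * ω (τ ψ) with hS
  have hSc : Continuous S := by
    simp only [hS]
    exact (hs.comp hτc).mul (hωc.comp hτc)
  have hSpos : ∀ ψ, 0 < S ψ := fun ψ => mul_pos (hpos _) (hωpos _)
  have hSper : ∀ ψ, S (ψ + 2 * π) = S ψ := by
    intro ψ
    simp only [hS, hτp, hper, hωp]
  -- the points
  have hU : ∀ t r, p * (γ.x t + r * deriv γ.x t - x₀) + q * (γ.y t + r * deriv γ.y t - y₀) =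
      Real.cos (θ t) - r * ω t * Real.sin (θ t) := by
    intro t r
    have h2 : p * (γ.x t + r * deriv γ.x t - x₀) + q * (γ.y t + r * deriv γ.y t - y₀) =
        u t + r * u' t := by
      simp only [hu, hu']
      ring
    rw [h2, eu', hcos, hsin]
    ring
  have hV : ∀ t r, m * (γ.y t + r * deriv γ.y t - y₀) =
      Real.sin (θ t) + r * ω t * Real.cos (θ t) := by
    intro t r
    have h2 : m * (γ.y t + r * deriv γ.y t - y₀) = v t + r * v' t := by
      simp only [hv, hv']
      ring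
    rw [h2, ev', hcos, hsin]
    ring
  have hconst : ∀ ψ ψ', S ψ = S ψ' := by
    refine circle_const hSc hSpos hSper ?_
    intro ψ r r' ψ₁ ψ₂ hne k1 k2 k3 k4
    have hω0 : ω (τ ψ) ≠ 0 := (hωpos _).ne'
    have key : ∀ r ψ₁ : ℝ, Real.cos ψ - r * Real.sin ψ = Real.cos ψ₁ - S ψ₁ * Real.sin ψ₁ →
        Real.sin ψ + r * Real.cos ψ = Real.sin ψ₁ + S ψ₁ * Real.cos ψ₁ →
        γ.x (τ ψ) + r / ω (τ ψ) * deriv γ.x (τ ψ) =
          γ.x (τ ψ₁) + s (τ ψ₁) * deriv γ.x (τ ψ₁) ∧
        γ.y (τ ψ) + r / ω (τ ψ) * deriv γ.y (τ ψ) =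
          γ.y (τ ψ₁) + s (τ ψ₁) * deriv γ.y (τ ψ₁) := by
      intro r ψ₁ g1 g2
      have g3 := hU (τ ψ) (r / ω (τ ψ))
      have g4 := hV (τ ψ) (r / ω (τ ψ))
      have g5 := hU (τ ψ₁) (s (τ ψ₁))
      have g6 := hV (τ ψ₁) (s (τ ψ₁))
      rw [hθτ, div_mul_cancel₀ _ hω0] at g3 g4
      rw [hθτ] at g5 g6
      have g7 := hinj _ _ _ _ (g3.trans (g1.trans g5.symm)) (g4.trans (g2.trans g6.symm))
      exact ⟨by linarith [g7.1], by linarith [g7.2]⟩
    have g1 := key r ψ₁ k1 k2
    have g2 := key r' ψ₂ k3 k4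
    have g3 := hproj (τ ψ) (r / ω (τ ψ)) (r' / ω (τ ψ)) (τ ψ₁) (τ ψ₂)
      (fun h2 => hne ((div_left_inj' hω0).1 h2)) g1.1 g1.2 g2.1 g2.2
    rw [← add_div, div_eq_zero_iff] at g3
    rcases g3 with g3 | g3
    · exact g3
    · exact absurd g3 hω0
  set S₀ : ℝ := S 0 with hS₀
  have hS₀pos : 0 < S₀ := hSpos 0
  have hsω : ∀ t, s t * ω t = S₀ := by
    intro t
    have h2 := hconst (θ t) 0
    simp only [hS, hτθ] at h2
    exact h2
  refine ⟨1 + S₀ ^ 2, by linarith [pow_pos hS₀pos 2], fun x y => ⟨fun hxy => ?_, ?_⟩⟩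
  · rw [← hform] at hxy
    set U := p * (x - x₀) + q * (y - y₀) with hUdef
    set V := m * (y - y₀) with hVdef
    have hden : (1 + S₀ ^ 2) ≠ 0 := by positivity
    obtain ⟨ψ, hψ1, hψ2⟩ := exists_ang (c := (U + S₀ * V) / (1 + S₀ ^ 2))
      (s := (V - S₀ * U) / (1 + S₀ ^ 2)) (by
        rw [div_pow, div_pow, ← add_div, div_eq_one_iff_eq (pow_ne_zero 2 hden)]
        linear_combination (1 + S₀ ^ 2) * hxy)
    refine ⟨τ ψ, ?_⟩
    have g5 := hU (τ ψ) (s (τ ψ))
    have g6 := hV (τ ψ) (s (τ ψ))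
    rw [hsω, hθτ, hψ1, hψ2] at g5 g6
    have g5' : p * (γ.x (τ ψ) + s (τ ψ) * deriv γ.x (τ ψ) - x₀) +
        q * (γ.y (τ ψ) + s (τ ψ) * deriv γ.y (τ ψ) - y₀) = U := by
      rw [g5]
      field_simp
      ring
    have g6' : m * (γ.y (τ ψ) + s (τ ψ) * deriv γ.y (τ ψ) - y₀) = V := by
      rw [g6]
      field_simp
      ring
    have g7 := hinj _ _ _ _ g5' g6'
    exact ⟨by linarith [g7.1], by linarith [g7.2]⟩
  · rintro ⟨t, rfl, rfl⟩
    rw [← hform, hU, hV, hsω]
    linear_combination (1 + S₀ ^ 2) * Real.cos_sq_add_sin_sq (θ t)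

end Pool.Agent.MP_ae5b4e_an_ALG
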