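import Mathlib

/-!
# MP_ae5b4e_an, algebraic tables: definitions (one variable part)

`V` is a projective coordinate on a tangent line; `-p`, `0`, `r` are its special points, `0 < p`,
`0 < r`.  The function `Hf p r` is invariant under one involution, `V ↦ -V - 2 c` is the other one.
-/

noncomputable section

namespace Pool.Agent.MP_ae5b4e_an_ALG

open Filter Topology

/-- the upper half plane, as a set of complex numbers -/
def UP : Set ℂ := {z | 0 < z.im}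

/-- the plane without the real segment `[-p, r]` -/
def Dm (p r : ℝ) : Set ℂ := {V | V.im ≠ 0 ∨ V.re < -p ∨ r < V.re}

/-- `H(V) = p log (1 - r / V) + r log (1 + p / V)` -/
def Hf (p r : ℝ) (V : ℂ) : ℂ :=
  (p : ℂ) * Complex.log (1 - r / V) + (r : ℂ) * Complex.log (1 + p / V)

/-- the boundary values of `Hf p r` from the upper half plane -/
def Hb (p r : ℝ) (V : ℂ) : ℂ :=
  (p : ℂ) * Complex.log (1 - r / V) +
    (r : ℂ) * (starRingEnd ℂ) (Complex.log ((starRingEnd ℂ) (1 + p / V)))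

/-- `P(V) = V (V + p) (V - r)` -/
def Pf (p r : ℝ) (V : ℂ) : ℂ := V * (V + p) * (V - r)

/-- the image of the upper half plane: the strip `-r π < Im < p π` without `(-∞, 0]` -/
def Xs (p r : ℝ) : Set ℂ :=
  {z | -(r * Real.pi) < z.im ∧ z.im < p * Real.pi ∧ (z.im = 0 → 0 < z.re)}

/-- the inverse of `Hf p r` on the upper half plane -/
def Gf (p r : ℝ) : ℂ → ℂ := Function.invFunOn (Hf p r) UP

/-- The uniformizing function near infinity: `V t = D t - c + o(1)`, `U = V + c` is odd and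
`H(V(ε - t)) = H(V t)`. -/
structure SHM (p r c D ε R : ℝ) (V : ℂ → ℂ) : Prop where
  R_pos : 0 < R
  diff : ∀ t : ℂ, R < ‖t‖ → DifferentiableAt ℂ V t
  odd : ∀ t : ℂ, R < ‖t‖ → V (-t) = -V t - 2 * c
  real : ∀ t : ℂ, R < ‖t‖ → V ((starRingEnd ℂ) t) = (starRingEnd ℂ) (V t)
  asym : Tendsto (fun t : ℂ => V t - D * t) (Bornology.cobounded ℂ) (𝓝 (-(c : ℂ)))
  sym : ∀ t : ℂ, R < ‖t‖ → Hf p r (V (ε - t)) = Hf p r (V t)

/-- an extension of `V` to the half plane `h < Im t` -/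
structure PExt (p r : ℝ) (V : ℂ → ℂ) (h : ℝ) (W : ℂ → ℂ) : Prop where
  diff : DifferentiableOn ℂ W {t | h < t.im}
  up : ∀ t : ℂ, h < t.im → W t ∈ UP
  strip : ∀ t : ℂ, h < t.im → |(Hf p r (W t)).im| < p * Real.pi
  far : ∃ R : ℝ, ∀ t : ℂ, h < t.im → R < ‖t‖ → W t = V t

/-- The extension of `V` to the upper half plane, with its symmetries. -/
structure Ext (p r c ε : ℝ) (V W : ℂ → ℂ) : Prop where
  diff : DifferentiableOn ℂ W UP
  up : ∀ t ∈ UP, W t ∈ UP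
  strip : ∀ t ∈ UP, |(Hf p r (W t)).im| < p * Real.pi
  far : ∃ R : ℝ, ∀ t ∈ UP, R < ‖t‖ → W t = V t
  s0 : ∀ t ∈ UP, W (-(starRingEnd ℂ) t) = -(starRingEnd ℂ) (W t) - 2 * c
  step : ∀ t ∈ UP, Hf p r (W (t + ε)) = Hf p r (-W t - 2 * c)

/-- `W` has at the real point `a` the real value `y`, with an analytic real increasing germ `Vr` -/
def RealAt (W : ℂ → ℂ) (a y : ℝ) (Vr : ℂ → ℂ) : Prop :=
  AnalyticAt ℂ Vr a ∧ Vr a = y ∧ (∀ᶠ t in 𝓝 (a : ℂ), Vr ((starRingEnd ℂ) t) =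
    (starRingEnd ℂ) (Vr t)) ∧ (∃ m : ℝ, 0 < m ∧ deriv Vr a = m) ∧
    ∀ᶠ t in 𝓝[UP] (a : ℂ), W t = Vr t

/-- local coordinate `exp (Hf / r)` near `-p` -/
def Ef (p r : ℝ) (V : ℂ) : ℂ :=
  (1 + p / V) * Complex.exp (((p / r : ℝ) : ℂ) * Complex.log (1 - r / V))

/-- The behaviour of `W` near the point `t0`, where `W = -p` (case `c = 0`): `φ` is the inverse of
`Ef p r` and `W (t0 + τ) = φ (y τ ^ (p / r))`; at `t0 - 1` the value is `-r`. -/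
structure XD (p r : ℝ) (W : ℂ → ℂ) (t0 : ℝ) (y φ : ℂ → ℂ) : Prop where
  y_ana : AnalyticAt ℂ y 0
  y_zero : y 0 = 0
  y_der : ∃ κ : ℝ, 0 < κ ∧ deriv y 0 = -κ
  y_real : ∀ᶠ τ in 𝓝 (0:ℂ), y ((starRingEnd ℂ) τ) = (starRingEnd ℂ) (y τ)
  φ_ana : AnalyticAt ℂ φ 0
  φ_zero : φ 0 = -p
  φ_der : ∃ m : ℝ, 0 < m ∧ deriv φ 0 = -m
  φ_real : ∀ᶠ η in 𝓝 (0:ℂ), φ ((starRingEnd ℂ) η) = (starRingEnd ℂ) (φ η)
  φ_eq : ∀ᶠ η in 𝓝 (0:ℂ), Ef p r (φ η) = η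
  eq : ∀ᶠ τ in 𝓝[UP] (0:ℂ), (y τ).im < 0 ∧ W (t0 + τ) = φ (y τ ^ ((p / r : ℝ) : ℂ))
  right : ∃ Vr, RealAt W (1 - t0) r Vr

/-- The chain of the values `z k` of `W` at the points `t0 + k`. -/
structure Chain (p r : ℝ) (W : ℂ → ℂ) (t0 : ℝ) (n : ℕ) (z : ℕ → ℂ) : Prop where
  two : 2 ≤ n
  zero : z 0 = -p
  last : z n = p
  up : ∀ k, 0 < k → k < n → z k ∈ UP
  lim : ∀ k, k ≤ n → Tendsto (fun τ => W (t0 + k + τ)) (𝓝[UP] 0) (𝓝 (z k))
  t0_eq : t0 = -(n / 2 : ℝ)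
  sym : ∀ k, k ≤ n → z (n - k) = -(starRingEnd ℂ) (z k)
  first : Hf p r (z 1) = (starRingEnd ℂ) (Hb p r p)

end Pool.Agent.MP_ae5b4e_an_ALG
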