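import Mathlib
import Pool.Agent.Lib.MP_ae5b4e_an_ALG.Defs
import Pool.Agent.Lib.MP_ae5b4e_an_FLEX.Defs

/-!
# MP_ae5b4e_an, algebraic tables: definitions (places of the curve)
-/

noncomputable section

namespace Pool.Agent.MP_ae5b4e_an_ALG

open Filter Topology
open Pool.Agent.MP_ae5b4e_an_FLEX (Wr Wr2)

/-! ### the homogeneous model of a place of type `(a, b)`, `0 < a < b` -/

/-- `(b - a) s ^ b - b s ^ (b - a) + a`, `s = 1 + η` -/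
def Dh (a b : ℕ) (η : ℂ) : ℂ := ((b : ℂ) - a) * (1 + η) ^ b - b * (1 + η) ^ (b - a) + a

/-- The coordinate `V` of the point of the tangent lines at the parameters `1` and `1 + η` of the
curve `(w ^ a, w ^ b)`. -/
def Vh (a b : ℕ) (η : ℂ) : ℂ := -(a * ((b : ℂ) - a) * ((1 + η) ^ b - 1)) / Dh a b η

/-- `1 / (V + c)` -/
def zet (a b : ℕ) (c : ℝ) (η : ℂ) : ℂ :=
  Dh a b η / (c * Dh a b η - a * ((b : ℂ) - a) * ((1 + η) ^ b - 1))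

/-! ### ramified places -/

/-- the right hand side of the difference equation, `la = μ - 2` -/
def rhsR (la : ℝ) (ξ : ℂ) : ℂ :=
  (la + 2) * (la + 1) / 2 * ((1 + ξ) ^ (la : ℂ) + 2 + (1 - ξ) ^ (la : ℂ)) -
    (la + 2) * ((1 + ξ) ^ ((la + 1 : ℝ) : ℂ) - (1 - ξ) ^ ((la + 1 : ℝ) : ℂ)) / ξ

/-- `φ'(1 + ξ) + φ'(1) - 2 (φ(1 + ξ) - φ(1)) / ξ` for `φ = x ^ μ` -/
def EE (μ : ℝ) (ξ : ℂ) : ℂ :=
  μ * (1 + ξ) ^ ((μ - 1 : ℝ) : ℂ) + μ - 2 * ((1 + ξ) ^ (μ : ℂ) - 1) / ξ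

/-! ### Monge's invariant -/

/-- the derivative with respect to `X` -/
def DX (X f : ℂ → ℂ) (w : ℂ) : ℂ := deriv f w / deriv X w

/-- Monge's invariant of the curve `(X, Y)` -/
def MD (X Y : ℂ → ℂ) (w : ℂ) : ℂ :=
  (9 * DX X (DX X Y) w ^ 2 * DX X (DX X (DX X (DX X (DX X Y)))) w -
    45 * DX X (DX X Y) w * DX X (DX X (DX X Y)) w * DX X (DX X (DX X (DX X Y))) w +
    40 * DX X (DX X (DX X Y)) w ^ 3) / (27 * DX X (DX X Y) w ^ 4)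

/-- the same by brackets -/
def Nt (X Y : ℂ → ℂ) (w : ℂ) : ℂ :=
  9 * Wr X Y w * Wr2 X Y w + 3 * Wr X Y w * deriv (deriv (Wr X Y)) w -
    5 * deriv (Wr X Y) w ^ 2

/-- Monge's invariant in any parameter -/
def Mt (X Y : ℂ → ℂ) (w : ℂ) : ℂ :=
  (3 * Wr X Y w * deriv (Nt X Y) w - 8 * deriv (Wr X Y) w * Nt X Y w) / (27 * Wr X Y w ^ 4)

end Pool.Agent.MP_ae5b4e_an_ALG
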