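import Mathlib
import Pool.Agent.Lib.MP_ae5b4e_an_ALG.DefsB
import Pool.Agent.Lib.MP_ae5b4e_an_FLEX.GeoK

/-!
# MP_ae5b4e_an, algebraic tables: transformations of the curve (module GB, helper81)
-/

set_option autoImplicit false

noncomputable section

namespace Pool.Agent.MP_ae5b4e_an_ALG

open Filter Topology Set Metric Complex Polynomial
open scoped Real
open Pool.Agent.MP_ae5b4e_an_ND (Dx Dy Reg)
open Pool.Agent.MP_ae5b4e_an_FLEX

namespace Trans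

lemma tendsto_fst' (t : ℂ) : Tendsto (fun p : ℂ × ℂ => p.1) (𝓝 ((t, 0) : ℂ × ℂ)) (𝓝 t) :=
  continuous_fst.tendsto (t, (0:ℂ))

lemma tendsto_add' (t : ℂ) : Tendsto (fun p : ℂ × ℂ => p.1 + p.2) (𝓝 ((t, 0) : ℂ × ℂ)) (𝓝 t) := by
  have h : Continuous fun p : ℂ × ℂ => p.1 + p.2 := by fun_prop
  simpa using h.tendsto ((t, 0) : ℂ × ℂ)

lemma tendsto_sub' {Yf : ℂ × ℂ → ℂ} {t : ℂ} (h : Kick Yf t) :
    Tendsto (fun p : ℂ × ℂ => p.1 - Yf p) (𝓝 ((t, 0) : ℂ × ℂ)) (𝓝 t) := by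
  have h4 : ContinuousAt (fun p : ℂ × ℂ => p.1 - Yf p) (t, 0) :=
    continuousAt_fst.sub h.ana.continuousAt
  have h5 := h4.tendsto
  simpa [GeoK.Kick.zero_self h] using h5

lemma kick_ev {Yf : ℂ × ℂ → ℂ} {t : ℂ} (h : Kick Yf t) {P : ℂ → Prop} (hP : ∀ᶠ s in 𝓝 t, P s) :
    ∀ᶠ p in 𝓝 ((t, 0) : ℂ × ℂ), P p.1 ∧ P (p.1 + p.2) ∧ P (p.1 - Yf p) := by
  filter_upwards [(tendsto_fst' t).eventually hP, (tendsto_add' t).eventually hP,
    (tendsto_sub' h).eventually hP] with p a b c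
  exact ⟨a, b, c⟩

end Trans

open Pool.Agent.MP_ae5b4e_an_ALG.Trans

section GB
variable {X Y K : ℂ → ℂ} {t : ℂ}

theorem goodG_congr {X' Y' K' : ℂ → ℂ} (h : GoodG X Y K t) (hX : X =ᶠ[𝓝 t] X')
    (hY : Y =ᶠ[𝓝 t] Y') (hK : K =ᶠ[𝓝 t] K') : GoodG X' Y' K' t := by
  obtain ⟨⟨hXa, hYa, hKa, hW⟩, Yf, ⟨hk, hrel⟩, hg⟩ := h
  have hX1 : deriv X =ᶠ[𝓝 t] deriv X' := hX.deriv
  have hY1 : deriv Y =ᶠ[𝓝 t] deriv Y' := hY.deriv
  have hX2 : deriv (deriv X) =ᶠ[𝓝 t] deriv (deriv X') := hX1.deriv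
  have hY2 : deriv (deriv Y) =ᶠ[𝓝 t] deriv (deriv Y') := hY1.deriv
  refine ⟨⟨hXa.congr hX, hYa.congr hY, hKa.congr hK, ?_⟩, Yf, ⟨hk, ?_⟩, hg⟩
  · unfold Wr at hW ⊢
    rwa [← hX1.self_of_nhds, ← hY1.self_of_nhds, ← hX2.self_of_nhds, ← hY2.self_of_nhds]
  · filter_upwards [hrel, kick_ev hk hX, kick_ev hk hY, kick_ev hk hX1, kick_ev hk hY1,
      kick_ev hk hK] with p h0 hx hy hx1 hy1 hk1
    simp only [brN, brD] at h0 ⊢
    rw [← hx.1, ← hx.2.1, ← hx.2.2, ← hy.1, ← hy.2.1, ← hy.2.2, ← hx1.1, ← hx1.2.1, ← hx1.2.2,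
      ← hy1.1, ← hy1.2.1, ← hy1.2.2, ← hk1.1]
    exact h0

namespace Trans

lemma deriv_affine_ev {α β γ : ℂ} (hX : AnalyticAt ℂ X t) (hY : AnalyticAt ℂ Y t) :
    deriv (fun s => α * X s + β * Y s + γ) =ᶠ[𝓝 t] fun s => α * deriv X s + β * deriv Y s := by
  filter_upwards [hX.eventually_analyticAt, hY.eventually_analyticAt] with s h1 h2
  have h3 := ((h1.differentiableAt.hasDerivAt.const_mul α).add
    (h2.differentiableAt.hasDerivAt.const_mul β)).add_const γ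
  exact h3.deriv

lemma deriv_affine_two {α β γ : ℂ} (hX : AnalyticAt ℂ X t) (hY : AnalyticAt ℂ Y t) :
    deriv (deriv (fun s => α * X s + β * Y s + γ)) t =
      α * deriv (deriv X) t + β * deriv (deriv Y) t := by
  rw [(deriv_affine_ev hX hY).deriv_eq]
  have h3 := (hX.deriv.differentiableAt.hasDerivAt.const_mul α).add
    (hY.deriv.differentiableAt.hasDerivAt.const_mul β)
  exact h3.deriv

end Trans

theorem goodG_affine (h : GoodG X Y K t) {α β γ α' β' γ' : ℂ} (hd : α * β' - β * α' ≠ 0) :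
    GoodG (fun s => α * X s + β * Y s + γ) (fun s => α' * X s + β' * Y s + γ') K t := by
  obtain ⟨⟨hXa, hYa, hKa, hW⟩, Yf, ⟨hk, hrel⟩, hg⟩ := h
  have d1 := deriv_affine_ev (α := α) (β := β) (γ := γ) hXa hYa
  have d2 := deriv_affine_ev (α := α') (β := β') (γ := γ') hXa hYa
  refine ⟨⟨?_, ?_, hKa, ?_⟩, Yf, ⟨hk, ?_⟩, hg⟩
  · exact ((analyticAt_const.mul hXa).add (analyticAt_const.mul hYa)).add analyticAt_const
  · exact ((analyticAt_const.mul hXa).add (analyticAt_const.mul hYa)).add analyticAt_const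
  · have h1 : Wr (fun s => α * X s + β * Y s + γ) (fun s => α' * X s + β' * Y s + γ') t =
        (α * β' - β * α') * Wr X Y t := by
      unfold Wr
      rw [deriv_affine_two hXa hYa, deriv_affine_two hXa hYa, d1.self_of_nhds, d2.self_of_nhds]
      ring
    rw [h1]
    exact mul_ne_zero hd hW
  · filter_upwards [hrel, kick_ev hk d1, kick_ev hk d2] with p h0 e1 e2
    simp only [brN, brD] at h0 ⊢
    rw [e1.1, e1.2.1, e1.2.2, e2.1, e2.2.1, e2.2.2]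
    linear_combination (α * β' - β * α') ^ 2 * h0

namespace Trans

lemma deriv_inv_ev (hX : AnalyticAt ℂ X t) (h0 : X t ≠ 0) :
    deriv (fun s => (X s)⁻¹) =ᶠ[𝓝 t] fun s => -deriv X s / X s ^ 2 := by
  filter_upwards [hX.eventually_analyticAt, hX.continuousAt.eventually_ne h0] with s h1 h2
  exact (h1.differentiableAt.hasDerivAt.inv h2).deriv

lemma deriv_div_ev (hX : AnalyticAt ℂ X t) (hY : AnalyticAt ℂ Y t) (h0 : X t ≠ 0) :
    deriv (fun s => Y s / X s) =ᶠ[𝓝 t]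
      fun s => (deriv Y s * X s - Y s * deriv X s) / X s ^ 2 := by
  filter_upwards [hX.eventually_analyticAt, hY.eventually_analyticAt,
    hX.continuousAt.eventually_ne h0] with s h1 h2 h3
  exact (h2.differentiableAt.hasDerivAt.div h1.differentiableAt.hasDerivAt h3).deriv

lemma deriv_inv_two (hX : AnalyticAt ℂ X t) (h0 : X t ≠ 0) :
    deriv (deriv (fun s => (X s)⁻¹)) t =
      (-deriv (deriv X) t * X t ^ 2 - -deriv X t * (2 * X t * deriv X t)) / (X t ^ 2) ^ 2 := by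
  rw [(deriv_inv_ev hX h0).deriv_eq]
  have h1 := hX.differentiableAt.hasDerivAt
  have h2 := hX.deriv.differentiableAt.hasDerivAt
  have h5 : HasDerivAt (fun s => X s ^ 2) (2 * X t * deriv X t) t := by
    have := h1.fun_pow 2
    simpa using this
  have h3 : HasDerivAt (fun s => -deriv X s / X s ^ 2)
      ((-deriv (deriv X) t * X t ^ 2 - -deriv X t * (2 * X t * deriv X t)) / (X t ^ 2) ^ 2) t :=
    h2.neg.div h5 (pow_ne_zero 2 h0)
  exact h3.deriv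

lemma deriv_div_two (hX : AnalyticAt ℂ X t) (hY : AnalyticAt ℂ Y t) (h0 : X t ≠ 0) :
    deriv (deriv (fun s => Y s / X s)) t =
      ((deriv (deriv Y) t * X t - Y t * deriv (deriv X) t) * X t ^ 2 -
        (deriv Y t * X t - Y t * deriv X t) * (2 * X t * deriv X t)) / (X t ^ 2) ^ 2 := by
  rw [(deriv_div_ev hX hY h0).deriv_eq]
  have h1 := hX.differentiableAt.hasDerivAt
  have h2 := hX.deriv.differentiableAt.hasDerivAt
  have h3 := hY.differentiableAt.hasDerivAt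
  have h4 := hY.deriv.differentiableAt.hasDerivAt
  have h5 : HasDerivAt (fun s => X s ^ 2) (2 * X t * deriv X t) t := by
    have := h1.fun_pow 2
    simpa using this
  have h7 : HasDerivAt (fun s => deriv Y s * X s - Y s * deriv X s)
      (deriv (deriv Y) t * X t - Y t * deriv (deriv X) t) t := by
    have h8 : HasDerivAt (fun s => deriv Y s * X s - Y s * deriv X s)
      (deriv (deriv Y) t * X t + deriv Y t * deriv X t -
        (deriv Y t * deriv X t + Y t * deriv (deriv X) t)) t := (h4.mul h1).sub (h3.mul h2)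
    convert h8 using 1
    ring
  have h6 : HasDerivAt (fun s => (deriv Y s * X s - Y s * deriv X s) / X s ^ 2)
      (((deriv (deriv Y) t * X t - Y t * deriv (deriv X) t) * X t ^ 2 -
        (deriv Y t * X t - Y t * deriv X t) * (2 * X t * deriv X t)) / (X t ^ 2) ^ 2) t :=
    h7.div h5 (pow_ne_zero 2 h0)
  exact h6.deriv

lemma proj_N {x1 x2 y1 y2 a2 b2 : ℂ} (h1 : x1 ≠ 0) (h2 : x2 ≠ 0) :
    (x2⁻¹ - x1⁻¹) * ((b2 * x2 - y2 * a2) / x2 ^ 2) - (y2 / x2 - y1 / x1) * (-a2 / x2 ^ 2) =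
      -(x1⁻¹ * x2⁻¹ ^ 2) * ((x2 - x1) * b2 - (y2 - y1) * a2) := by
  field_simp
  ring

lemma proj_D {x1 x2 y1 y2 a1 b1 a2 b2 : ℂ} (h1 : x1 ≠ 0) (h2 : x2 ≠ 0) :
    (-a1 / x1 ^ 2) * ((b2 * x2 - y2 * a2) / x2 ^ 2) - (b1 * x1 - y1 * a1) / x1 ^ 2 *
      (-a2 / x2 ^ 2) =
      x2⁻¹ ^ 2 * (-(a1 * x1⁻¹ ^ 2) * ((x2 - x1) * b2 - (y2 - y1) * a2) -
        x1⁻¹ * (a1 * b2 - b1 * a2)) := by
  field_simp
  ring

end Trans

theorem goodG_proj (h : GoodG X Y K t) (hX : X t ≠ 0) :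
    GoodG (fun s => (X s)⁻¹) (fun s => Y s / X s) (fun s => K s + 2 * deriv X s / X s) t := by
  obtain ⟨⟨hXa, hYa, hKa, hW⟩, Yf, ⟨hk, hrel⟩, hg⟩ := h
  have d1 := deriv_inv_ev hXa hX
  have d2 := deriv_div_ev hXa hYa hX
  refine ⟨⟨hXa.inv hX, hYa.div hXa hX, ?_, ?_⟩, Yf, ⟨hk, ?_⟩, hg⟩
  · exact hKa.add ((analyticAt_const.mul hXa.deriv).div hXa hX)
  · have h1 : Wr (fun s => (X s)⁻¹) (fun s => Y s / X s) t = -(X t)⁻¹ ^ 3 * Wr X Y t := by
      unfold Wr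
      rw [deriv_inv_two hXa hX, deriv_div_two hXa hYa hX, d1.self_of_nhds, d2.self_of_nhds]
      field_simp
      ring
    rw [h1]
    exact mul_ne_zero (neg_ne_zero.2 (pow_ne_zero 3 (inv_ne_zero hX))) hW
  · filter_upwards [hrel, kick_ev hk d1, kick_ev hk d2,
      kick_ev hk (hXa.continuousAt.eventually_ne hX)] with p h0 e1 e2 e3
    obtain ⟨n1, n2, n3⟩ := e3
    simp only [brN, brD] at h0 ⊢
    rw [e1.1, e1.2.1, e1.2.2, e2.1, e2.2.1, e2.2.2]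
    rw [proj_N n1 n2, proj_N n1 n3, proj_D n1 n2, proj_D n1 n3, div_eq_mul_inv]
    linear_combination ((X p.1)⁻¹ ^ 2 * (X (p.1 + p.2))⁻¹ ^ 2 * (X (p.1 - Yf p))⁻¹ ^ 2) * h0

namespace Trans

/-- the map of pairs -/
def Ph (φ : ℂ → ℂ) (p : ℂ × ℂ) : ℂ × ℂ := (φ p.1, φ (p.1 + p.2) - φ p.1)

/-- the new kick -/
def Yn (φ ψ : ℂ → ℂ) (Yf : ℂ × ℂ → ℂ) (p : ℂ × ℂ) : ℂ := p.1 - ψ (φ p.1 - Yf (Ph φ p))

variable {φ ψ : ℂ → ℂ} {s : ℂ} {Yf : ℂ × ℂ → ℂ}

lemma Ph_zero (x : ℂ) : Ph φ (x, 0) = (φ x, 0) := by simp [Ph]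

lemma Ph_ana (hφ : AnalyticAt ℂ φ s) : AnalyticAt ℂ (Ph φ) (s, 0) := by
  have h1 : AnalyticAt ℂ (fun p : ℂ × ℂ => φ p.1) (s, 0) :=
    AnalyticAt.comp (g := φ) (f := fun p : ℂ × ℂ => p.1) (by simpa using hφ) analyticAt_fst
  have h2 : AnalyticAt ℂ (fun p : ℂ × ℂ => φ (p.1 + p.2)) (s, 0) :=
    AnalyticAt.comp (g := φ) (f := fun p : ℂ × ℂ => p.1 + p.2) (by simpa using hφ)
      (analyticAt_fst.add analyticAt_snd)
  exact h1.prod (h2.sub h1)

lemma Ph_tendsto (hφ : AnalyticAt ℂ φ s) :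
    Tendsto (Ph φ) (𝓝 ((s, 0) : ℂ × ℂ)) (𝓝 (φ s, 0)) := by
  have h := (Ph_ana hφ).continuousAt.tendsto
  rwa [Ph_zero] at h

/-- the argument of `ψ` is near `φ s` -/
lemma arg_ana (hφ : AnalyticAt ℂ φ s) (hk : Kick Yf (φ s)) :
    AnalyticAt ℂ (fun p => φ p.1 - Yf (Ph φ p)) (s, 0) ∧
      Tendsto (fun p => φ p.1 - Yf (Ph φ p)) (𝓝 ((s, 0) : ℂ × ℂ)) (𝓝 (φ s)) := by
  have h1 : AnalyticAt ℂ (fun p : ℂ × ℂ => φ p.1) (s, 0) :=
    AnalyticAt.comp (g := φ) (f := fun p : ℂ × ℂ => p.1) (by simpa using hφ) analyticAt_fst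
  have h2 : AnalyticAt ℂ (fun p : ℂ × ℂ => Yf (Ph φ p)) (s, 0) :=
    AnalyticAt.comp (g := Yf) (f := Ph φ) (by rw [Ph_zero]; exact hk.ana) (Ph_ana hφ)
  refine ⟨h1.sub h2, ?_⟩
  have h3 : Tendsto (fun p : ℂ × ℂ => φ p.1 - Yf (Ph φ p)) (𝓝 ((s, 0) : ℂ × ℂ))
      (𝓝 (φ s - Yf (Ph φ (s, 0)))) := (h1.sub h2).continuousAt.tendsto
  rwa [Ph_zero, GeoK.Kick.zero_self hk, sub_zero] at h3

/-- the points of the new curve -/
lemma key (hφ : AnalyticAt ℂ φ s) (hk : Kick Yf (φ s)) (hr : ∀ᶠ y in 𝓝 (φ s), φ (ψ y) = y) :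
    ∀ᶠ p in 𝓝 ((s, 0) : ℂ × ℂ), φ (p.1 - Yn φ ψ Yf p) = φ p.1 - Yf (Ph φ p) := by
  filter_upwards [(arg_ana hφ hk).2.eventually hr] with p h
  unfold Yn
  rw [sub_sub_cancel]
  exact h

lemma kick_new (hφ : AnalyticAt ℂ φ s) (hk : Kick Yf (φ s)) (hψ : AnalyticAt ℂ ψ (φ s))
    (hl : ∀ᶠ x in 𝓝 s, ψ (φ x) = x) (hr : ∀ᶠ y in 𝓝 (φ s), φ (ψ y) = y) :
    Kick (Yn φ ψ Yf) s where
  ana := by
    have h1 := arg_ana hφ hk
    have h2 : AnalyticAt ℂ (fun p => ψ (φ p.1 - Yf (Ph φ p))) (s, 0) := by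
      refine AnalyticAt.comp (g := ψ) (f := fun p => φ p.1 - Yf (Ph φ p)) ?_ h1.1
      simp only [Ph_zero]
      rwa [GeoK.Kick.zero_self hk, sub_zero]
    exact analyticAt_fst.sub h2
  zero := by
    filter_upwards [hl, hφ.continuousAt.eventually hk.zero] with x h1 h2
    simp only [Yn, Ph_zero]
    rw [h2, sub_zero, h1, sub_self]
  der := by
    filter_upwards [hφ.continuousAt.eventually hk.zero, hφ.continuousAt.eventually hk.der,
      hφ.eventually_analyticAt, hφ.continuousAt.eventually hψ.eventually_analyticAt,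
      hl.eventually_nhds] with x h1 h2 h3 h4 h5
    have d1 : HasDerivAt (fun y => φ (x + y) - φ x) (deriv φ x) 0 := by
      have h6 : HasDerivAt φ (deriv φ x) (x + 0) := by
        rw [add_zero]
        exact h3.differentiableAt.hasDerivAt
      have h7 : HasDerivAt (fun y => φ (x + y)) (deriv φ x) 0 := h6.comp_const_add x 0
      exact h7.sub_const _
    have d2 : HasDerivAt (fun y => Yf (φ x, y)) 1 0 := by
      have h6 : DifferentiableAt ℂ (fun y => Yf (φ x, y)) 0 :=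
        differentiableAt_of_deriv_ne_zero (by rw [h2]; exact one_ne_zero)
      rw [← h2]
      exact h6.hasDerivAt
    have d3 : HasDerivAt (fun y => Yf (φ x, φ (x + y) - φ x)) (1 * deriv φ x) 0 := by
      refine HasDerivAt.comp (h₂ := fun y => Yf (φ x, y)) (h := fun y => φ (x + y) - φ x)
        (0 : ℂ) ?_ d1
      simpa using d2
    have d4 : HasDerivAt (fun y => φ x - Yf (φ x, φ (x + y) - φ x)) (-(1 * deriv φ x)) 0 :=
      d3.const_sub _
    have d5 : HasDerivAt ψ (deriv ψ (φ x)) (φ x) := h4.differentiableAt.hasDerivAt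
    have d6 : HasDerivAt (fun y => ψ (φ x - Yf (φ x, φ (x + y) - φ x)))
        (deriv ψ (φ x) * -(1 * deriv φ x)) 0 := by
      refine HasDerivAt.comp (h₂ := ψ) (h := fun y => φ x - Yf (φ x, φ (x + y) - φ x))
        (0 : ℂ) ?_ d4
      simp only [add_zero, sub_self]
      rwa [h1, sub_zero]
    have d7 : deriv ψ (φ x) * deriv φ x = 1 := by
      have h6 : HasDerivAt (fun y => ψ (φ y)) (deriv ψ (φ x) * deriv φ x) x :=
        HasDerivAt.comp (h₂ := ψ) (h := φ) x d5 h3.differentiableAt.hasDerivAt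
      have h7 : deriv (fun y => ψ (φ y)) x = deriv (fun y => y) x :=
        Filter.EventuallyEq.deriv_eq h5
      rw [h6.deriv] at h7
      rw [h7]
      simp
    have d8 := (d6.const_sub x).deriv
    simp only [Yn, Ph]
    rw [d8]
    linear_combination d7
  rev := by
    filter_upwards [key hφ hk hr, (Ph_tendsto hφ).eventually hk.rev,
      (tendsto_add' s).eventually hl] with p h1 h2 h3
    have h4 : Ph φ (p.1, -Yn φ ψ Yf p) = ((Ph φ p).1, -Yf (Ph φ p)) := by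
      unfold Ph
      simp only
      rw [← sub_eq_add_neg, h1]
      simp only [Ph]
      rw [sub_sub_cancel_left]
    have h5 : Yn φ ψ Yf (p.1, -Yn φ ψ Yf p) = p.1 - ψ (φ p.1 - Yf (Ph φ (p.1, -Yn φ ψ Yf p))) :=
      rfl
    rw [h5, h4, h2]
    simp only [Ph]
    rw [sub_neg_eq_add, add_sub_cancel, h3]
    ring

lemma deriv_comp_ev {X : ℂ → ℂ} (hφ : AnalyticAt ℂ φ s) (hX : AnalyticAt ℂ X (φ s)) :
    deriv (X ∘ φ) =ᶠ[𝓝 s] fun x => deriv X (φ x) * deriv φ x := by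
  filter_upwards [hφ.eventually_analyticAt, hφ.continuousAt.eventually hX.eventually_analyticAt]
    with x h1 h2
  exact (HasDerivAt.comp (h₂ := X) (h := φ) x h2.differentiableAt.hasDerivAt
    h1.differentiableAt.hasDerivAt).deriv

lemma deriv_comp_two {X : ℂ → ℂ} (hφ : AnalyticAt ℂ φ s) (hX : AnalyticAt ℂ X (φ s)) :
    deriv (deriv (X ∘ φ)) s =
      deriv (deriv X) (φ s) * deriv φ s * deriv φ s + deriv X (φ s) * deriv (deriv φ) s := by
  rw [(deriv_comp_ev hφ hX).deriv_eq]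
  have h1 : HasDerivAt (fun x => deriv X (φ x)) (deriv (deriv X) (φ s) * deriv φ s) s :=
    HasDerivAt.comp (h₂ := deriv X) (h := φ) s hX.deriv.differentiableAt.hasDerivAt
      hφ.differentiableAt.hasDerivAt
  exact (h1.mul hφ.deriv.differentiableAt.hasDerivAt).deriv

end Trans

theorem goodG_comp {φ : ℂ → ℂ} {s : ℂ} (hφ : AnalyticAt ℂ φ s) (hφ' : deriv φ s ≠ 0)
    (h : GoodG X Y K (φ s)) :
    GoodG (X ∘ φ) (Y ∘ φ) (fun t => deriv φ t * K (φ t)) s := by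
  obtain ⟨⟨hXa, hYa, hKa, hW⟩, Yf, ⟨hk, hrel⟩, -, S, hS, hS0, hS1, hinv⟩ := h
  -- the local inverse
  obtain ⟨ψ, hψ, hl, hr⟩ : ∃ ψ : ℂ → ℂ, AnalyticAt ℂ ψ (φ s) ∧ (∀ᶠ x in 𝓝 s, ψ (φ x) = x) ∧
      ∀ᶠ y in 𝓝 (φ s), φ (ψ y) = y :=
    ⟨hφ.hasStrictDerivAt.localInverse _ _ _ hφ', hφ.analyticAt_localInverse hφ',
      hφ.hasStrictDerivAt.eventually_left_inverse hφ',
      hφ.hasStrictDerivAt.eventually_right_inverse hφ'⟩
  have hkn : Kick (Yn φ ψ Yf) s := kick_new hφ hk hψ hl hr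
  have hkey := key (ψ := ψ) hφ hk hr
  have dX := deriv_comp_ev hφ hXa
  have dY := deriv_comp_ev hφ hYa
  refine ⟨⟨?_, ?_, ?_, ?_⟩, Yn φ ψ Yf, ⟨hkn, ?_⟩, hkn, fun p => S (Ph φ p), ?_, ?_, ?_, ?_⟩
  · exact hXa.comp hφ
  · exact hYa.comp hφ
  · exact hφ.deriv.mul (AnalyticAt.comp (g := K) (f := φ) hKa hφ)
  · have h1 : Wr (X ∘ φ) (Y ∘ φ) s = deriv φ s ^ 3 * Wr X Y (φ s) := by
      unfold Wr
      rw [deriv_comp_two hφ hXa, deriv_comp_two hφ hYa, dX.self_of_nhds, dY.self_of_nhds]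
      ring
    rw [h1]
    exact mul_ne_zero (pow_ne_zero 3 hφ') hW
  · filter_upwards [(Ph_tendsto hφ).eventually hrel, hkey, kick_ev hkn dX, kick_ev hkn dY]
      with p h0 h1 e1 e2
    have h2 : (Ph φ p).1 - Yf (Ph φ p) = φ (p.1 - Yn φ ψ Yf p) := by rw [h1]; rfl
    have h3 : (Ph φ p).1 + (Ph φ p).2 = φ (p.1 + p.2) := by
      simp only [Ph]
      ring
    have h4 : (Ph φ p).1 = φ p.1 := rfl
    rw [h2, h3, h4] at h0
    simp only [brN, brD] at h0 ⊢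
    rw [e1.1, e1.2.1, e1.2.2, e2.1, e2.2.1, e2.2.2]
    simp only [Function.comp_apply]
    linear_combination (deriv φ p.1 * deriv φ (p.1 + p.2) * deriv φ (p.1 - Yn φ ψ Yf p)) * h0
  · exact AnalyticAt.comp (g := S) (f := Ph φ) (by rw [Ph_zero]; exact hS) (Ph_ana hφ)
  · filter_upwards [hφ.continuousAt.eventually hS0] with x h1
    rw [Ph_zero, h1]
  · have d1 : HasDerivAt (fun y => φ (s + y) - φ s) (deriv φ s) 0 := by
      have h6 : HasDerivAt φ (deriv φ s) (s + 0) := by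
        rw [add_zero]
        exact hφ.differentiableAt.hasDerivAt
      have h7 : HasDerivAt (fun y => φ (s + y)) (deriv φ s) 0 := h6.comp_const_add s 0
      exact h7.sub_const _
    have d2 : HasDerivAt (fun y => S (φ s, y)) (deriv (fun y => S (φ s, y)) 0) 0 :=
      (differentiableAt_of_deriv_ne_zero hS1).hasDerivAt
    have d3 : HasDerivAt (fun y => S (φ s, φ (s + y) - φ s))
        (deriv (fun y => S (φ s, y)) 0 * deriv φ s) 0 := by
      refine HasDerivAt.comp (h₂ := fun y => S (φ s, y)) (h := fun y => φ (s + y) - φ s)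
        (0 : ℂ) ?_ d1
      simpa using d2
    have d4 := d3.deriv
    simp only [Ph]
    rw [d4]
    exact mul_ne_zero hS1 hφ'
  · filter_upwards [(Ph_tendsto hφ).eventually hinv, hkey] with p h0 h1
    have h2 : Ph φ (TY (Yn φ ψ Yf) p) = TY Yf (Ph φ p) := by
      simp only [TY, Ph]
      rw [sub_add_cancel, h1]
      simp only [Ph]
      rw [sub_sub_cancel]
    rw [h2, h0]

end GB

end Pool.Agent.MP_ae5b4e_an_ALG
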