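import Mathlib
import Pool.Agent.Lib.MP_ae5b4e_an_ALG.DefsB
import Pool.Agent.Lib.MP_ae5b4e_an_FLEX.GeoProp
import Pool.Agent.Lib.MP_ae5b4e_an_LAT.NDAll
import Pool.Agent.Lib.MP_ae5b4e_an_ALG.Trans

/-! Project ALG (MP_ae5b4e_an), module AD: all branches and all places are good. -/

set_option autoImplicit false

noncomputable section

namespace Pool.Agent.MP_ae5b4e_an_ALG

open Filter Topology Set Metric Complex Polynomial
open scoped Real
open Pool.Agent.MP_ae5b4e_an_ND (Dx Dy Reg)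
open Pool.Agent.MP_ae5b4e_an_FLEX

namespace Branches

variable {m : ℂ[X][X]}

/-- the branch through `(x, t)` is good at the points near `x` -/
def GPt (m : ℂ[X][X]) (x t : ℂ) : Prop :=
  ∃ b : ℂ → ℂ, AnalyticAt ℂ b x ∧ b x = t ∧ (∀ᶠ z in 𝓝 x, evalEval z (b z) m = 0) ∧
    ∀ᶠ s in 𝓝[≠] x, GoodG id b (fun _ => 0) s

theorem good_congr {b b' : ℂ → ℂ} {x : ℂ} (h : ∀ᶠ z in 𝓝 x, b z = b' z)
    (hg : ∀ᶠ s in 𝓝[≠] x, GoodG id b (fun _ => 0) s) :
    ∀ᶠ s in 𝓝[≠] x, GoodG id b' (fun _ => 0) s := by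
  filter_upwards [hg, nhdsWithin_le_nhds h.eventually_nhds] with s h1 h2
  exact goodG_congr h1 (EventuallyEq.refl _ _) h2 (EventuallyEq.refl _ _)

theorem gpt_iff {x : ℂ} (hx : Reg m x) {b : ℂ → ℂ} (hb : AnalyticAt ℂ b x)
    (hb' : ∀ᶠ z in 𝓝 x, evalEval z (b z) m = 0) :
    GPt m x (b x) ↔ ∀ᶠ s in 𝓝[≠] x, GoodG id b (fun _ => 0) s := by
  constructor
  · rintro ⟨b1, hb1, h0, hm1, hg⟩
    exact good_congr (Pool.Agent.MP_ae5b4e_an_ND.branch_unique hb1.continuousAt hb.continuousAt h0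
      (hx.2 _ hm1.self_of_nhds) hm1 hb') hg
  · intro h
    exact ⟨b, hb, rfl, hb', h⟩

/-- goodness propagates on a ball where `b` is analytic -/
theorem good_ball {b : ℂ → ℂ} {x₀ : ℂ} {ε : ℝ}
    (han : ∀ x ∈ ball x₀ ε, AnalyticAt ℂ b x) {x : ℂ} (hx : x ∈ ball x₀ ε)
    (h : ∀ᶠ s in 𝓝[≠] x, GoodG id b (fun _ => 0) s) :
    ∀ y ∈ ball x₀ ε, ∀ᶠ s in 𝓝[≠] y, GoodG id b (fun _ => 0) s := by
  have h1 : ∀ᶠ s in 𝓝[≠] x, s ∈ ball x₀ ε := nhdsWithin_le_nhds (isOpen_ball.mem_nhds hx)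
  obtain ⟨s, hs1, hs2⟩ := (h.and h1).exists
  exact goodG_all isOpen_ball (convex_ball x₀ ε).isPreconnected
    differentiable_id.differentiableOn
    (fun y hy => (han y hy).differentiableAt.differentiableWithinAt)
    (differentiable_const _).differentiableOn hs2 hs1

theorem gpt_loc (hirr : Irreducible (m.map (algebraMap ℂ[X] (RatFunc ℂ)))) {x₀ : ℂ}
    (hx₀ : Reg m x₀) {b : ℂ → ℂ} (hb : AnalyticAt ℂ b x₀)
    (hb' : ∀ᶠ x in 𝓝 x₀, evalEval x (b x) m = 0) :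
    ∀ᶠ x in 𝓝 x₀, (GPt m x (b x) ↔ GPt m x₀ (b x₀)) := by
  obtain ⟨ε, hε, hball⟩ := Metric.eventually_nhds_iff_ball.1
    (hb.eventually_analyticAt.and (hb'.eventually_nhds.and
      (Pool.Agent.MP_ae5b4e_an_ND.Reg.eventually hirr hx₀)))
  have han : ∀ x ∈ ball x₀ ε, AnalyticAt ℂ b x := fun x hx => (hball x hx).1
  filter_upwards [Metric.ball_mem_nhds x₀ hε] with x hx
  rw [gpt_iff (hball x hx).2.2 (hball x hx).1 (hball x hx).2.1, gpt_iff hx₀ hb hb']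
  exact ⟨fun h => good_ball han hx h x₀ (mem_ball_self hε),
    fun h => good_ball han (mem_ball_self hε) h x hx⟩

theorem reg_punct (hirr : Irreducible (m.map (algebraMap ℂ[X] (RatFunc ℂ)))) (x₀ : ℂ) :
    ∀ᶠ z in 𝓝[≠] x₀, Reg m z := by
  have h2 : ({x : ℂ | ¬ Reg m x} \ {x₀})ᶜ ∈ 𝓝 x₀ :=
    (((Pool.Agent.MP_ae5b4e_an_ND.reg_finite hirr).subset
      Set.sdiff_subset).isClosed.isOpen_compl).mem_nhds (by simp)
  filter_upwards [nhdsWithin_le_nhds h2, self_mem_nhdsWithin] with z hz hz'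
  by_contra hcon
  exact hz ⟨hcon, hz'⟩

theorem root_punct {d : ℂ[X]} (hd : d ≠ 0) (x₀ : ℂ) : ∀ᶠ z in 𝓝[≠] x₀, d.eval z ≠ 0 := by
  have h2 : ({x : ℂ | d.IsRoot x} \ {x₀})ᶜ ∈ 𝓝 x₀ :=
    (((Polynomial.finite_setOfPred_isRoot hd).subset
      Set.sdiff_subset).isClosed.isOpen_compl).mem_nhds (by simp)
  filter_upwards [nhdsWithin_le_nhds h2, self_mem_nhdsWithin] with z hz hz'
  intro hcon
  exact hz ⟨hcon, hz'⟩

/-- local condition outside `0` -/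
theorem punct_nhds {p : ℂ → Prop} (h : ∀ᶠ w in 𝓝[≠] (0 : ℂ), p w) :
    ∀ᶠ w in 𝓝[≠] (0 : ℂ), ∀ᶠ z in 𝓝 w, p z := by
  filter_upwards [eventually_eventually_nhdsWithin.2 h, self_mem_nhdsWithin] with w hw hw0
  rwa [IsOpen.nhdsWithin_eq isOpen_compl_singleton hw0] at hw

end Branches

section AD
variable {m : ℂ[X][X]}

open Branches in
/-- all branches are good -/
theorem branch_good (hirr : Irreducible (m.map (algebraMap ℂ[X] (RatFunc ℂ)))) {g : ℂ → ℂ}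
    {x₀ : ℂ} (hg : GoodG id g (fun _ => 0) x₀) (hm : ∀ᶠ x in 𝓝 x₀, evalEval x (g x) m = 0)
    {b : ℂ → ℂ} {x₁ : ℂ} (hx₁ : Reg m x₁) (hb : AnalyticAt ℂ b x₁)
    (hbm : ∀ᶠ x in 𝓝 x₁, evalEval x (b x) m = 0) :
    ∀ᶠ s in 𝓝[≠] x₁, GoodG id b (fun _ => 0) s := by
  have hga : AnalyticAt ℂ g x₀ := hg.1.2.1
  obtain ⟨ε, hε, hball⟩ := Metric.eventually_nhds_iff_ball.1
    (hga.eventually_analyticAt.and hm.eventually_nhds)
  have h1 : ∀ᶠ z in 𝓝[≠] x₀, z ∈ ball x₀ ε := nhdsWithin_le_nhds (ball_mem_nhds x₀ hε)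
  obtain ⟨z, hz1, hz2⟩ := ((reg_punct hirr x₀).and h1).exists
  have h2 : ∀ᶠ s in 𝓝[≠] z, GoodG id g (fun _ => 0) s :=
    goodG_all isOpen_ball (convex_ball x₀ ε).isPreconnected
      differentiable_id.differentiableOn
      (fun y hy => (hball y hy).1.differentiableAt.differentiableWithinAt)
      (differentiable_const _).differentiableOn (mem_ball_self hε) hg z hz2
  rw [← gpt_iff hx₁ hb hbm]
  exact Pool.Agent.MP_ae5b4e_an_ND.all_good hirr (GPt m)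
    (fun y hy b hb hb' => gpt_loc hirr hy hb hb') hz1 (hball z hz2).2.self_of_nhds
    ⟨g, (hball z hz2).1, rfl, (hball z hz2).2, h2⟩ hx₁ hbm.self_of_nhds

open Branches in
/-- all places are good -/
theorem place_good (hirr : Irreducible (m.map (algebraMap ℂ[X] (RatFunc ℂ)))) {g : ℂ → ℂ}
    {x₀ : ℂ} (hg : GoodG id g (fun _ => 0) x₀) (hm : ∀ᶠ x in 𝓝 x₀, evalEval x (g x) m = 0)
    {X Y : ℂ → ℂ} (hX : MeromorphicAt X 0) (hY : MeromorphicAt Y 0)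
    (hXY : ∀ᶠ w in 𝓝[≠] (0:ℂ), AnalyticAt ℂ X w ∧ AnalyticAt ℂ Y w ∧ deriv X w ≠ 0 ∧
      Reg m (X w) ∧ evalEval (X w) (Y w) m = 0) :
    ∀ᶠ s in 𝓝[≠] (0:ℂ), GoodG X Y (fun _ => 0) s := by
  -- good points near every point outside `0`
  have hstep : ∀ᶠ w in 𝓝[≠] (0:ℂ), ∀ᶠ w' in 𝓝[≠] w, GoodG X Y (fun _ => 0) w' := by
    filter_upwards [hXY, punct_nhds hXY] with w hw hw'
    obtain ⟨hXw, hYw, hdw, hreg, h0⟩ := hw
    obtain ⟨b, hb1, hb2, hb3⟩ := Pool.Agent.MP_ae5b4e_an_ND.branch h0 (hreg.2 _ h0)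
    have hb4 := Pool.Agent.MP_ae5b4e_an_ND.branch_eq hb1.continuousAt hb2 hb3
    have hgood := branch_good hirr hg hm hreg hb1 hb4
    have htend : Tendsto X (𝓝[≠] w) (𝓝[≠] (X w)) :=
      hXw.differentiableAt.hasDerivAt.tendsto_nhdsNE hdw
    -- the branch is `Y`
    have hpair : Tendsto (fun z => (X z, Y z)) (𝓝 w) (𝓝 (X w, Y w)) := by
      rw [nhds_prod_eq]
      exact hXw.continuousAt.tendsto.prodMk hYw.continuousAt.tendsto
    have hbY : ∀ᶠ z in 𝓝 w, b (X z) = Y z := by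
      filter_upwards [hpair.eventually hb3, hw'] with z hz1 hz2
      exact hz1.1 hz2.2.2.2.2
    filter_upwards [htend.eventually hgood, nhdsWithin_le_nhds hbY.eventually_nhds,
      nhdsWithin_le_nhds hw'] with w' h1 h2 h3
    have h4 := goodG_comp h3.1 h3.2.2.1 h1
    refine goodG_congr h4 (EventuallyEq.refl _ _) ?_ ?_
    · exact h2
    · exact Eventually.of_forall fun z => by simp
  -- the Wronskian
  have hWm : MeromorphicAt (Wr X Y) 0 :=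
    (hX.deriv.mul hY.deriv.deriv).sub (hY.deriv.mul hX.deriv.deriv)
  have hW : ∀ᶠ w in 𝓝[≠] (0:ℂ), Wr X Y w ≠ 0 := by
    refine hWm.eventually_eq_zero_or_eventually_ne_zero.resolve_left fun h0 => ?_
    obtain ⟨w, hw1, hw2⟩ := (hstep.and (punct_nhds h0)).exists
    obtain ⟨w', h1, h2⟩ := (hw1.and (nhdsWithin_le_nhds hw2)).exists
    exact h1.1.2.2.2 h2
  have hall : ∀ᶠ w in 𝓝[≠] (0:ℂ), RegG X Y (fun _ => 0) w ∧
      ∀ᶠ w' in 𝓝[≠] w, GoodG X Y (fun _ => 0) w' := by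
    filter_upwards [hXY, hW, hstep] with w h1 h2 h3
    exact ⟨⟨h1.1, h1.2.1, analyticAt_const, h2⟩, h3⟩
  rw [eventually_nhdsWithin_iff] at hall
  obtain ⟨r, hr, hball⟩ := Metric.eventually_nhds_iff_ball.1 hall
  have hO : IsOpen (ball (0:ℂ) r \ {0}) := isOpen_ball.sdiff isClosed_singleton
  have hOm : ∀ᶠ w in 𝓝[≠] (0:ℂ), w ∈ ball (0:ℂ) r \ {0} := by
    filter_upwards [nhdsWithin_le_nhds (ball_mem_nhds (0:ℂ) hr), self_mem_nhdsWithin] with w h1 h2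
    exact ⟨h1, h2⟩
  obtain ⟨w, hw⟩ := hOm.exists
  have h1 : ∀ᶠ w' in 𝓝[≠] w, w' ∈ ball (0:ℂ) r \ {0} := nhdsWithin_le_nhds (hO.mem_nhds hw)
  obtain ⟨w', hw'1, hw'2⟩ := (((hball w hw.1) hw.2).2.and h1).exists
  have h2 := goodG_conn hO (GeoProp.punct_preconn 0 hr)
    (fun t ht => ((hball t ht.1) ht.2).1) hw'2 hw'1
  filter_upwards [hOm] with s hs
  exact h2 s hs

open Branches in
/-- a relation that holds for one branch holds for all branches -/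
theorem branch_rel (hirr : Irreducible (m.map (algebraMap ℂ[X] (RatFunc ℂ)))) {g : ℂ → ℂ}
    {x₀ : ℂ} (hg : AnalyticAt ℂ g x₀) (hm : ∀ᶠ x in 𝓝 x₀, evalEval x (g x) m = 0)
    {P : ℂ[X][X]} (hP : ∀ᶠ x in 𝓝 x₀, evalEval x (g x) P = 0) {x : ℂ} (hx : Reg m x) {t : ℂ}
    (ht : evalEval x t m = 0) : evalEval x t P = 0 := by
  by_cases hdvd : m.map (algebraMap ℂ[X] (RatFunc ℂ)) ∣ P.map (algebraMap ℂ[X] (RatFunc ℂ))
  · obtain ⟨d, hd, H, hH⟩ := Pool.Agent.MP_ae5b4e_an_ND.clear_dvd hdvd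
    obtain ⟨b, hb1, hb2, hb3⟩ := Pool.Agent.MP_ae5b4e_an_ND.branch ht (hx.2 _ ht)
    have hb4 := Pool.Agent.MP_ae5b4e_an_ND.branch_eq hb1.continuousAt hb2 hb3
    have h1 : ∀ᶠ z in 𝓝[≠] x, evalEval z (b z) P = 0 := by
      filter_upwards [root_punct hd x, nhdsWithin_le_nhds hb4] with z h2 h3
      have h4 := congrArg (evalEval z (b z)) hH
      rw [evalEval_mul, evalEval_mul, evalEval_C, h3, mul_zero] at h4
      exact (mul_eq_zero.1 h4).resolve_left h2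
    have hcont : ContinuousAt (fun z => evalEval z (b z) P) x := by
      have h5 := (Pool.Agent.MP_ae5b4e_an_ND.analyticAt_evalEval P (x, b x)).continuousAt
      have h6 : ContinuousAt (fun z : ℂ => (z, b z)) x := continuousAt_id.prodMk hb1.continuousAt
      exact ContinuousAt.comp (f := fun z : ℂ => (z, b z))
        (g := fun q : ℂ × ℂ => evalEval q.1 q.2 P) h5 h6
    have h7 : Tendsto (fun z => evalEval z (b z) P) (𝓝[≠] x) (𝓝 (evalEval x (b x) P)) :=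
      hcont.tendsto.mono_left nhdsWithin_le_nhds
    have h8 : Tendsto (fun z => evalEval z (b z) P) (𝓝[≠] x) (𝓝 0) :=
      (tendsto_const_nhds).congr' (h1.mono fun z hz => hz.symm)
    have h9 := tendsto_nhds_unique h7 h8
    rwa [hb2] at h9
  · exfalso
    have hco := (hirr.coprime_iff_not_dvd).2 hdvd
    obtain ⟨d, hd, A, B, hAB⟩ := Pool.Agent.MP_ae5b4e_an_ND.clear_coprime hco
    obtain ⟨z, h1, h2, h3⟩ := ((root_punct hd x₀).and
      ((hm.filter_mono nhdsWithin_le_nhds).and (hP.filter_mono nhdsWithin_le_nhds))).exists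
    apply h1
    have h4 := congrArg (evalEval z (g z)) hAB
    rw [evalEval_add, evalEval_mul, evalEval_mul, h2, h3, evalEval_C] at h4
    simpa using h4.symm

end AD

end Pool.Agent.MP_ae5b4e_an_ALG
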