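import Mathlib

set_option autoImplicit false

/-! # Types of places and root coordinates -/

noncomputable section

namespace Pool.Agent.MP_ae5b4e_an_ALG

open Filter Topology Set Metric Complex Polynomial
open scoped Real

/-- the type of a place -/
theorem place_type {N : ℕ} (hN : 0 < N) {h : ℂ → ℂ} (hh : AnalyticAt ℂ h 0)
    (hne : ¬ ∃ c0 c1 : ℂ, ∀ᶠ w in 𝓝 (0:ℂ), h w = c0 + c1 * w ^ N) :
    ∃ (c0 c1 : ℂ) (j : ℕ) (f : ℂ → ℂ), 0 < j ∧ j ≠ N ∧ AnalyticAt ℂ f 0 ∧ f 0 ≠ 0 ∧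
      ∀ᶠ w in 𝓝 (0:ℂ), h w = c0 + c1 * w ^ N + w ^ j * f w := by
  have key : ∀ F : ℂ → ℂ, AnalyticAt ℂ F 0 → F 0 = 0 → (¬ ∀ᶠ w in 𝓝 (0:ℂ), F w = 0) →
      ∃ (j : ℕ) (f : ℂ → ℂ), 0 < j ∧ AnalyticAt ℂ f 0 ∧ f 0 ≠ 0 ∧
        ∀ᶠ w in 𝓝 (0:ℂ), F w = w ^ j * f w := by
    intro F hF hF0 hFn
    obtain ⟨j, f, hf, hf0, hfe⟩ := hF.exists_eventuallyEq_pow_smul_nonzero_iff.mpr hFn
    refine ⟨j, f, ?_, hf, hf0, ?_⟩
    · rcases Nat.eq_zero_or_pos j with hj | hj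
      · exfalso
        have h1 := hfe.self_of_nhds
        rw [hF0, hj, pow_zero, one_smul] at h1
        exact hf0 h1.symm
      · exact hj
    · filter_upwards [hfe] with w hw
      rw [hw, sub_zero, smul_eq_mul]
  have h1 : ¬ ∀ᶠ w in 𝓝 (0:ℂ), h w - h 0 = 0 := by
    intro h2
    refine hne ⟨h 0, 0, ?_⟩
    filter_upwards [h2] with w hw
    linear_combination hw
  obtain ⟨j, f, hj, hf, hf0, hfe⟩ := key (fun w => h w - h 0) (hh.sub analyticAt_const)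
    (sub_self _) h1
  by_cases hjN : j = N
  · have h2 : ¬ ∀ᶠ w in 𝓝 (0:ℂ), f w - f 0 = 0 := by
      intro h3
      refine hne ⟨h 0, f 0, ?_⟩
      filter_upwards [h3, hfe] with w hw hw'
      rw [hjN] at hw'
      linear_combination hw' + w ^ N * hw
    obtain ⟨i, f1, hi, hf1, hf10, hf1e⟩ := key (fun w => f w - f 0) (hf.sub analyticAt_const)
      (sub_self _) h2
    refine ⟨h 0, f 0, N + i, f1, by omega, by omega, hf1, hf10, ?_⟩
    filter_upwards [hfe, hf1e] with w hw hw'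
    rw [hjN] at hw
    rw [pow_add]
    linear_combination hw + w ^ N * hw'
  · refine ⟨h 0, 0, j, f, hj, hjN, hf, hf0, ?_⟩
    filter_upwards [hfe] with w hw
    linear_combination hw

/-- a local coordinate in which the first function is a power -/
theorem exists_root_coord {k : ℕ} (hk : 0 < k) {f : ℂ → ℂ} (hf : AnalyticAt ℂ f 0) (hf0 : f 0 ≠ 0) :
    ∃ ψ : ℂ → ℂ, AnalyticAt ℂ ψ 0 ∧ ψ 0 = 0 ∧ deriv ψ 0 ≠ 0 ∧
      ∀ᶠ z in 𝓝 (0:ℂ), ψ z ^ k * f (ψ z) = z ^ k := by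
  obtain ⟨r0, hr0⟩ := IsAlgClosed.exists_pow_nat_eq (f 0) hk
  have hr : r0 ≠ 0 := by
    rintro rfl
    rw [zero_pow hk.ne'] at hr0
    exact hf0 hr0.symm
  have hkc : (k : ℂ) ≠ 0 := by exact_mod_cast hk.ne'
  let g : ℂ → ℂ := fun w => r0 * Complex.exp (Complex.log (f w / f 0) / k)
  have hq : AnalyticAt ℂ (fun w => f w / f 0) 0 := hf.div analyticAt_const hf0
  have hg : AnalyticAt ℂ g 0 := by
    refine analyticAt_const.mul ((((hq.clog ?_)).div analyticAt_const hkc).cexp)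
    rw [div_self hf0]
    exact one_mem_slitPlane
  have hg0 : g 0 = r0 := by
    simp only [g]
    rw [div_self hf0, Complex.log_one, zero_div, Complex.exp_zero, mul_one]
  have hgk : ∀ᶠ w in 𝓝 (0:ℂ), g w ^ k = f w := by
    filter_upwards [hf.continuousAt.eventually_ne hf0] with w hw
    simp only [g]
    rw [mul_pow, hr0, ← Complex.exp_nat_mul, mul_div_cancel₀ _ hkc,
      Complex.exp_log (div_ne_zero hw hf0), mul_div_cancel₀ _ hf0]
  let u : ℂ → ℂ := fun w => w * g w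
  have hu : AnalyticAt ℂ u 0 := analyticAt_id.mul hg
  have hu0 : u 0 = 0 := zero_mul _
  have hud : deriv u 0 = r0 := by
    have h1 : HasDerivAt u (1 * g 0 + 0 * deriv g 0) 0 :=
      (hasDerivAt_id (0:ℂ)).mul hg.differentiableAt.hasDerivAt
    rw [h1.deriv, hg0]
    ring
  have hud0 : deriv u 0 ≠ 0 := by rw [hud]; exact hr
  let ψ : ℂ → ℂ := hu.hasStrictDerivAt.localInverse _ _ _ hud0
  have hψa : AnalyticAt ℂ ψ 0 := by
    have := hu.analyticAt_localInverse hud0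
    rwa [hu0] at this
  have hψ0 : ψ 0 = 0 := by
    have : ψ (u 0) = 0 := HasStrictFDerivAt.localInverse_apply_image ..
    rwa [hu0] at this
  have hψu : ∀ᶠ z in 𝓝 (0:ℂ), u (ψ z) = z := by
    have := hu.hasStrictDerivAt.eventually_right_inverse hud0
    rwa [hu0] at this
  have hψd : deriv ψ 0 ≠ 0 := by
    have h1 : HasStrictDerivAt ψ (deriv u 0)⁻¹ (u 0) := hu.hasStrictDerivAt.to_localInverse hud0
    rw [hu0] at h1
    rw [h1.hasDerivAt.deriv]
    exact inv_ne_zero hud0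
  have hψt : Tendsto ψ (𝓝 0) (𝓝 0) := by
    have := hψa.continuousAt.tendsto
    rwa [hψ0] at this
  refine ⟨ψ, hψa, hψ0, hψd, ?_⟩
  filter_upwards [hψu, hψt.eventually hgk] with z h1 h2
  rw [← h2, ← mul_pow]
  exact congrArg (· ^ k) h1

end Pool.Agent.MP_ae5b4e_an_ALG
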