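import Mathlib
import Pool.Agent.Lib.MP_ae5b4e_an_LAT.NDC
import Pool.Agent.Lib.MP_ae5b4e_an_LAT.NDMob
import Pool.Agent.Lib.MP_ae5b4e_an_LAT.NDMain

set_option autoImplicit false

/-!
# MP_ae5b4e_an, algebraic tables: all roots near a point of the line

`cover_fin`, `cover_inf`: near a finite point or near infinity all roots of an irreducible
polynomial are given by Laurent series in a root of the local coordinate.
-/

noncomputable section

namespace Pool.Agent.MP_ae5b4e_an_ALG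

open Filter Topology Set Metric Complex Polynomial
open scoped Real
open Pool.Agent.MP_ae5b4e_an_ND (Reg)

namespace Cover

open Pool.Agent.MP_ae5b4e_an_ND Pool.Agent.LAT.RH
open Pool.Agent.Lib.Puiseux (subst puiseux)

/-- a shifted series -/
lemma hasPS_shift {r : LaurentSeries ℂ} {K₀ K : ℕ} (hK : K₀ ≤ K) {h : ℂ → ℂ} {δ : ℝ} (hδ : 0 < δ)
    (hs : ∀ w : ℂ, ‖w‖ < δ → HasSum (fun n : ℕ => r.coeff ((n : ℤ) - K₀) * w ^ n) (h w))
    (h0 : ∀ j < -(K₀ : ℤ), r.coeff j = 0) :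
    HasPS (fun w => w ^ (K - K₀) * h w) (PowerSeries.mk fun n => r.coeff ((n : ℤ) - K)) := by
  unfold HasPS
  filter_upwards [Metric.ball_mem_nhds (0:ℂ) hδ] with w hw
  rw [mem_ball_zero_iff] at hw
  simp only [PowerSeries.coeff_mk]
  have h1 := (hs w hw).mul_left (w ^ (K - K₀))
  have h2 : HasSum (fun n : ℕ => r.coeff (((n + (K - K₀) : ℕ) : ℤ) - K) * w ^ (n + (K - K₀)))
      (w ^ (K - K₀) * h w) := by
    have h5 : (fun n : ℕ => r.coeff (((n + (K - K₀) : ℕ) : ℤ) - K) * w ^ (n + (K - K₀))) =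
        fun n : ℕ => w ^ (K - K₀) * (r.coeff ((n : ℤ) - K₀) * w ^ n) := by
      funext n
      have e1 : (((n + (K - K₀) : ℕ) : ℤ) - K) = (n : ℤ) - K₀ := by
        push_cast [Nat.cast_sub hK]
        ring
      rw [e1, pow_add]
      ring
    rw [h5]
    exact h1
  have h3 := (hasSum_nat_add_iff (f := fun n : ℕ => r.coeff ((n : ℤ) - K) * w ^ n)
    (K - K₀)).1 h2
  have h4 : ∑ i ∈ Finset.range (K - K₀), r.coeff ((i : ℤ) - K) * w ^ i = 0 := by
    refine Finset.sum_eq_zero fun i hi => ?_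
    rw [Finset.mem_range] at hi
    rw [h0 _ (by omega), zero_mul]
  rwa [h4, add_zero] at h3

/-- different series give different functions -/
lemma ne_of_ne {r r' : LaurentSeries ℂ} {K : ℕ} {H H' : ℂ → ℂ}
    (hH : HasPS H (PowerSeries.mk fun n => r.coeff ((n : ℤ) - K)))
    (hH' : HasPS H' (PowerSeries.mk fun n => r'.coeff ((n : ℤ) - K)))
    (h0 : ∀ j < -(K : ℤ), r.coeff j = 0) (h0' : ∀ j < -(K : ℤ), r'.coeff j = 0) (hne : r ≠ r') :
    ∀ᶠ w in 𝓝[≠] (0:ℂ), H w ≠ H' w := by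
  have ha := hH.analyticAt.sub hH'.analyticAt
  rcases ha.eventually_eq_zero_or_eventually_ne_zero with h | h
  · exfalso
    apply hne
    have h1 := (hH.congr (h.mono fun w hw => sub_eq_zero.1 hw)).unique hH'
    ext j
    by_cases hj : j < -(K : ℤ)
    · rw [h0 j hj, h0' j hj]
    · obtain ⟨n, hn⟩ := Int.eq_ofNat_of_zero_le (show 0 ≤ j + K by omega)
      have h2 := congrArg (PowerSeries.coeff n) h1
      rw [PowerSeries.coeff_mk, PowerSeries.coeff_mk] at h2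
      have h3 : (n : ℤ) - K = j := by omega
      rwa [h3] at h2
  · exact h.mono fun w hw => sub_ne_zero.1 hw

/-- the polynomial in the coordinate `1 / x` -/
theorem irreducible_minv {m : ℂ[X][X]}
    (hirr : Irreducible (m.map (algebraMap ℂ[X] (RatFunc ℂ)))) (a : ℂ) :
    Irreducible ((Mob.minv a m).map (algebraMap ℂ[X] (RatFunc ℂ))) ∧
      (Mob.minv a m).natDegree = m.natDegree := by
  set ψ : ℂ[X] →+* RatFunc ℂ := algebraMap ℂ[X] (RatFunc ℂ) with hψ
  set σ : RatFunc ℂ ≃+* RatFunc ℂ :=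
    RingEquiv.ofBijective (Mob.sig a : RatFunc ℂ →+* RatFunc ℂ) (Mob.sig_bijective a) with hσ
  set χ : ℂ[X] →+* RatFunc ℂ := (σ : RatFunc ℂ →+* RatFunc ℂ).comp ψ with hχ
  have hψX : ψ X = RatFunc.X := RatFunc.algebraMap_X
  have h0 : ψ X ≠ 0 := by
    rw [hψX]
    exact RatFunc.X_ne_zero
  have hC : ∀ c, χ (C c) = ψ (C c) := by
    intro c
    change Mob.sig a (algebraMap ℂ[X] (RatFunc ℂ) (C c)) = algebraMap ℂ[X] (RatFunc ℂ) (C c)
    rw [Mob.sig_algebraMap, aeval_C]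
    rfl
  have hX : χ X = ψ (C a) + (ψ X)⁻¹ := by
    change Mob.sig a (algebraMap ℂ[X] (RatFunc ℂ) X) = _
    rw [Mob.sig_algebraMap, aeval_X, hψX]
    rfl
  have hmap := Mob.map_minv ψ χ hC h0 hX m
  have hmχ : m.map χ = mapEquiv σ (m.map ψ) := by
    rw [hχ, ← Polynomial.map_map]
    rfl
  have hirrχ : Irreducible (m.map χ) := by
    rw [hmχ, MulEquiv.irreducible_iff]
    exact hirr
  have hu : IsUnit (C (ψ X ^ Mob.bd m) : (RatFunc ℂ)[X]) :=
    isUnit_C.2 (IsUnit.mk0 _ (pow_ne_zero _ h0))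
  constructor
  · rw [hmap, irreducible_isUnit_mul hu]
    exact hirrχ
  · have hinj : Function.Injective ψ := IsFractionRing.injective ℂ[X] (RatFunc ℂ)
    rw [← natDegree_map_eq_of_injective hinj (Mob.minv a m), hmap,
      natDegree_C_mul (pow_ne_zero _ h0), hχ,
      natDegree_map_eq_of_injective (σ.injective.comp hinj)]

lemma map_ev_minv (m : ℂ[X][X]) {y : ℂ} (hy : y ≠ 0) :
    (Mob.minv 0 m).map (evalRingHom y) = C (y ^ Mob.bd m) * m.map (evalRingHom y⁻¹) := by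
  have h := Mob.map_minv (evalRingHom y) (evalRingHom y⁻¹) (fun c => by simp)
    (by simpa using hy) (a := 0) (by simp) m
  simpa using h

lemma evalEval_minv (m : ℂ[X][X]) {y : ℂ} (hy : y ≠ 0) (t : ℂ) :
    evalEval y t (Mob.minv 0 m) = y ^ Mob.bd m * evalEval y⁻¹ t m := by
  rw [evalEval_eq_eval_map, evalEval_eq_eval_map, map_ev_minv m hy, eval_mul, eval_C]

lemma evalEval_der_minv (m : ℂ[X][X]) {y : ℂ} (hy : y ≠ 0) (t : ℂ) :
    evalEval y t (derivative (Mob.minv 0 m)) = y ^ Mob.bd m * evalEval y⁻¹ t (derivative m) := by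
  rw [evalEval_eq_eval_map, evalEval_eq_eval_map, ← derivative_map, map_ev_minv m hy,
    derivative_C_mul, eval_mul, eval_C, derivative_map]

lemma reg_minv {m : ℂ[X][X]} (hirr : Irreducible (m.map (algebraMap ℂ[X] (RatFunc ℂ)))) {y : ℂ}
    (hy : y ≠ 0) (h : Reg (Mob.minv 0 m) y) : Reg m y⁻¹ := by
  have hpow : y ^ Mob.bd m ≠ 0 := pow_ne_zero _ hy
  constructor
  · have h1 := congrArg (fun p => p.coeff m.natDegree) (map_ev_minv m hy)
    simp only [coeff_map, coeff_C_mul, coeff_natDegree] at h1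
    intro h2
    apply h.1
    rw [leadingCoeff, (irreducible_minv hirr 0).2]
    change (evalRingHom y) ((Mob.minv 0 m).coeff m.natDegree) = 0
    rw [h1]
    change y ^ Mob.bd m * m.leadingCoeff.eval y⁻¹ = 0
    rw [h2, mul_zero]
  · intro t ht hd
    refine h.2 t ?_ ?_
    · rw [evalEval_minv m hy, ht, mul_zero]
    · rw [evalEval_der_minv m hy, hd, mul_zero]

end Cover

open Cover in
/-- the roots near a finite point -/
theorem cover_fin {m : ℂ[X][X]} (hirr : Irreducible (m.map (algebraMap ℂ[X] (RatFunc ℂ)))) (e : ℂ) :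
    ∃ (N : ℕ) (δ : ℝ) (K : ℕ) (h : Fin m.natDegree → ℂ → ℂ), 0 < N ∧ 0 < δ ∧
      (∀ i, DifferentiableOn ℂ (h i) (ball 0 δ)) ∧
      ∀ w : ℂ, w ≠ 0 → ‖w‖ < δ → Reg m (e + w ^ N) ∧
        (∀ i, evalEval (e + w ^ N) (h i w / w ^ K) m = 0) ∧
        ∀ t, evalEval (e + w ^ N) t m = 0 → ∃ i, t = h i w / w ^ K := by
  classical
  have hfact : Fact (Irreducible (Pool.Agent.LAT.RH.pF m)) := ⟨hirr⟩
  have hnpos : 0 < m.natDegree := Pool.Agent.LAT.RH.natDegree_pos (m := m)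
  obtain ⟨N, hN⟩ := Pool.Agent.Lib.Puiseux.puiseux
    (m.map (aeval (Pool.Agent.LAT.RH.zfin e 1) : ℂ[X] →ₐ[ℂ] Pool.Agent.LAT.RH.Lau).toRingHom)
  rw [Polynomial.map_map, Pool.Agent.LAT.RH.aeval_subst] at hN
  obtain ⟨p, hp, _⟩ := Pool.Agent.LAT.RH.exists_pt (Pool.Agent.LAT.RH.inj_zfin N.pos) hN
  have hr : ∀ i, (m.map ((aeval (HahnSeries.C e + HahnSeries.single ((N : ℕ) : ℤ) (1:ℂ)) :
        ℂ[X] →ₐ[ℂ] LaurentSeries ℂ) : ℂ[X] →+* LaurentSeries ℂ)).eval (p.r i) = 0 := by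
    intro i
    have h := p.root i
    rw [hp] at h
    exact h
  have hpl := fun i => Pool.Agent.MP_ae5b4e_an_ND.exists_place' hirr e N.pos (hr i)
  choose δ hδ K h hd hs h0 hw using hpl
  set K' : ℕ := Finset.univ.sup K with hK'
  have hKi : ∀ i, K i ≤ K' := fun i => Finset.le_sup (Finset.mem_univ i)
  set i₀ : Fin m.natDegree := ⟨0, hnpos⟩
  have hne0 : (Finset.univ : Finset (Fin m.natDegree)).Nonempty := ⟨i₀, Finset.mem_univ _⟩
  set δ₁ : ℝ := Finset.univ.inf' hne0 δ with hδ₁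
  have hδ₁i : ∀ i, δ₁ ≤ δ i := fun i => Finset.inf'_le _ (Finset.mem_univ i)
  have hδ₁0 : 0 < δ₁ := by
    rw [hδ₁, Finset.lt_inf'_iff]
    exact fun i _ => hδ i
  set H : Fin m.natDegree → ℂ → ℂ := fun i w => w ^ (K' - K i) * h i w with hH
  have hPS : ∀ i, Pool.Agent.MP_ae5b4e_an_ND.HasPS (H i)
      (PowerSeries.mk fun n => (p.r i).coeff ((n : ℤ) - K')) := fun i =>
    hasPS_shift (hKi i) (hδ i) (hs i) (h0 i)
  have h0' : ∀ i, ∀ j < -(K' : ℤ), (p.r i).coeff j = 0 := fun i j hj =>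
    h0 i j (by have := hKi i; omega)
  have hne : ∀ᶠ w in 𝓝[≠] (0:ℂ), ∀ i j, i ≠ j → H i w ≠ H j w := by
    refine eventually_all.2 fun i => eventually_all.2 fun j => ?_
    by_cases hij : i = j
    · exact Eventually.of_forall fun w h => absurd hij h
    · filter_upwards [ne_of_ne (hPS i) (hPS j) (h0' i) (h0' j) fun h => hij (p.rinj h)]
        with w hw _
      exact hw
  rw [eventually_nhdsWithin_iff, Metric.eventually_nhds_iff] at hne
  obtain ⟨ε, hε, hne⟩ := hne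
  have hdiv : ∀ i w, w ≠ 0 → H i w / w ^ K' = h i w / w ^ K i := by
    intro i w hw0
    have h1 : w ^ K' = w ^ (K' - K i) * w ^ K i := by
      rw [← pow_add, Nat.sub_add_cancel (hKi i)]
    simp only [hH]
    rw [h1, mul_div_mul_left _ _ (pow_ne_zero _ hw0)]
  refine ⟨N, min δ₁ ε, K', H, N.pos, lt_min hδ₁0 hε, fun i => ?_, fun w hw0 hwδ => ?_⟩
  · refine DifferentiableOn.mul (by fun_prop) ((hd i).mono (ball_subset_ball ?_))
    exact (min_le_left _ _).trans (hδ₁i i)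
  have hwi : ∀ i, ‖w‖ < δ i := fun i => hwδ.trans_le ((min_le_left _ _).trans (hδ₁i i))
  have hReg : Reg m (e + w ^ (N : ℕ)) := (hw i₀ w hw0 (hwi i₀)).1
  have heq : ∀ i, evalEval (e + w ^ (N : ℕ)) (H i w / w ^ K') m = 0 := by
    intro i
    rw [hdiv i w hw0]
    exact (hw i w hw0 (hwi i)).2
  refine ⟨hReg, heq, fun t ht => ?_⟩
  have hinj : Function.Injective fun i => H i w / w ^ K' := by
    intro i j hij
    by_contra hcon
    refine hne (y := w) ?_ hw0 i j hcon ?_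
    · rw [dist_zero_right]
      exact hwδ.trans_le (min_le_right _ _)
    · exact (div_left_inj' (pow_ne_zero _ hw0)).1 hij
  have hsub : (Finset.univ.image fun i => H i w / w ^ K') ⊆
      Pool.Agent.MP_ae5b4e_an_ND.rts m (e + w ^ (N : ℕ)) := by
    intro s hs'
    obtain ⟨i, _, rfl⟩ := Finset.mem_image.1 hs'
    exact (Pool.Agent.MP_ae5b4e_an_ND.mem_rts hReg.1).2 (heq i)
  have hcard : (Pool.Agent.MP_ae5b4e_an_ND.rts m (e + w ^ (N : ℕ))).card ≤
      (Finset.univ.image fun i => H i w / w ^ K').card := by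
    rw [Finset.card_image_of_injective _ hinj, Finset.card_univ, Fintype.card_fin]
    exact Pool.Agent.MP_ae5b4e_an_ND.card_rts_le
  have hall := Finset.eq_of_subset_of_card_le hsub hcard
  have h1 : t ∈ Pool.Agent.MP_ae5b4e_an_ND.rts m (e + w ^ (N : ℕ)) :=
    (Pool.Agent.MP_ae5b4e_an_ND.mem_rts hReg.1).2 ht
  rw [← hall] at h1
  obtain ⟨i, _, hi⟩ := Finset.mem_image.1 h1
  exact ⟨i, hi.symm⟩

open Cover in
/-- the roots near infinity -/
theorem cover_inf {m : ℂ[X][X]} (hirr : Irreducible (m.map (algebraMap ℂ[X] (RatFunc ℂ)))) :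
    ∃ (N : ℕ) (δ : ℝ) (K : ℕ) (h : Fin m.natDegree → ℂ → ℂ), 0 < N ∧ 0 < δ ∧
      (∀ i, DifferentiableOn ℂ (h i) (ball 0 δ)) ∧
      ∀ w : ℂ, w ≠ 0 → ‖w‖ < δ → Reg m ((w ^ N)⁻¹) ∧
        (∀ i, evalEval ((w ^ N)⁻¹) (h i w / w ^ K) m = 0) ∧
        ∀ t, evalEval ((w ^ N)⁻¹) t m = 0 → ∃ i, t = h i w / w ^ K := by
  obtain ⟨hi, hdeg⟩ := irreducible_minv hirr 0
  obtain ⟨N, δ, K, h, hN, hδ, hd, hw⟩ := cover_fin hi 0
  set σ : Fin m.natDegree ≃ Fin (Pool.Agent.MP_ae5b4e_an_ND.Mob.minv 0 m).natDegree :=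
    finCongr hdeg.symm
  refine ⟨N, δ, K, fun i => h (σ i), hN, hδ, fun i => hd _, fun w hw0 hwδ => ?_⟩
  have hy : w ^ N ≠ 0 := pow_ne_zero _ hw0
  have hp : (w ^ N) ^ Pool.Agent.MP_ae5b4e_an_ND.Mob.bd m ≠ 0 := pow_ne_zero _ hy
  obtain ⟨h1, h2, h3⟩ := hw w hw0 hwδ
  rw [zero_add] at h1
  refine ⟨reg_minv hirr hy h1, fun i => ?_, fun t ht => ?_⟩
  · have h4 := h2 (σ i)
    rw [zero_add, evalEval_minv m hy] at h4
    exact (mul_eq_zero.1 h4).resolve_left hp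
  · obtain ⟨j, hj⟩ := h3 t (by rw [zero_add, evalEval_minv m hy, ht, mul_zero])
    refine ⟨σ.symm j, ?_⟩
    change t = h (σ (σ.symm j)) w / w ^ K
    rw [Equiv.apply_symm_apply]
    exact hj

end Pool.Agent.MP_ae5b4e_an_ALG
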