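import Mathlib
import Pool.Agent.Lib.MP_ae5b4e_an_FLEX.Zero

/-!
# MP_ae5b4e_an, project ALG: reduction to a primitive parametrization
-/

set_option autoImplicit false

noncomputable section

namespace Pool.Agent.MP_ae5b4e_an_ALG

open Filter Topology Set Metric Complex Polynomial
open scoped Real
open Pool.Agent.MP_ae5b4e_an_FLEX

theorem Prim.dec {n : ℕ} (hn : 0 < n) {om : ℂ} (hprim : IsPrimitiveRoot om n) {h : ℂ → ℂ}
    (hh : AnalyticAt ℂ h 0) (hom : ∀ᶠ w in 𝓝 (0:ℂ), h (om * w) = h w) :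
    ∃ h1 : ℂ → ℂ, AnalyticAt ℂ h1 0 ∧ ∀ᶠ w in 𝓝 (0:ℂ), h w = h1 (w ^ n) := by
  obtain ⟨p, hp⟩ := hh
  have h0 := hasFPowerSeriesAt_iff.1 hp
  have hc : ∀ i, om ^ i * p.coeff i = p.coeff i := by
    have hp' : HasFPowerSeriesAt h
        (FormalMultilinearSeries.ofScalars ℂ (fun i => om ^ i * p.coeff i)) 0 := by
      rw [hasFPowerSeriesAt_iff]
      have ht : Tendsto (fun z : ℂ => om * z) (𝓝 0) (𝓝 0) := by
        have := (continuous_const_mul om).tendsto 0
        rwa [mul_zero] at this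
      filter_upwards [ht.eventually h0, hom] with z hz1 hz2
      rw [zero_add] at hz1 ⊢
      rw [← hz2]
      convert hz1 using 2 with i
      rw [FormalMultilinearSeries.coeff_ofScalars, smul_eq_mul, smul_eq_mul, mul_pow]
      ring
    intro i
    have h1 := hp.eq_formalMultilinearSeries hp'
    have h2 : p.coeff i = (FormalMultilinearSeries.ofScalars ℂ
        (fun i => om ^ i * p.coeff i)).coeff i := by rw [← h1]
    rw [FormalMultilinearSeries.coeff_ofScalars] at h2
    exact h2.symm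
  have hc0 : ∀ i, ¬ n ∣ i → p.coeff i = 0 := by
    intro i hi
    have h1 : om ^ i ≠ 1 := fun h => hi ((hprim.pow_eq_one_iff_dvd i).1 h)
    have h2 : (om ^ i - 1) * p.coeff i = 0 := by rw [sub_mul, one_mul, hc, sub_self]
    rcases mul_eq_zero.1 h2 with h3 | h3
    · exact absurd (sub_eq_zero.1 h3) h1
    · exact h3
  obtain ⟨C, r, hC, hr, hb⟩ := p.le_mul_pow_of_radius_pos hp.radius_pos
  have hb' : ∀ i, ‖p.coeff i‖ ≤ C * r ^ i := fun i => by
    rw [← p.norm_apply_eq_norm_coef]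
    exact hb i
  have hD : 0 < C + r ^ n := by positivity
  have hbD : ∀ j, ‖p.coeff (n * j)‖ ≤ (C + r ^ n) * (C + r ^ n) ^ j := by
    intro j
    refine (hb' (n * j)).trans ?_
    rw [pow_mul]
    exact mul_le_mul (by linarith [pow_pos hr n]) (pow_le_pow_left₀ (by positivity)
      (by linarith) j) (by positivity) hD.le
  refine ⟨fun z => ∑' j, p.coeff (n * j) * z ^ j,
    (Zero.ser_diff (c := fun j => p.coeff (n * j)) hD hbD).analyticAt
      (ball_mem_nhds _ (by positivity)), ?_⟩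
  filter_upwards [h0] with w hw
  rw [zero_add] at hw
  have hinj : Function.Injective fun j : ℕ => n * j := fun a b hab =>
    Nat.eq_of_mul_eq_mul_left hn hab
  have h1 := (hinj.hasSum_iff (f := fun i => w ^ i • p.coeff i) (a := h w) (by
    intro i hi
    have h2 : ¬ n ∣ i := by
      rintro ⟨j, rfl⟩
      exact hi ⟨j, rfl⟩
    rw [hc0 i h2, smul_zero])).2 hw
  have h2 : HasSum (fun j => p.coeff (n * j) * (w ^ n) ^ j) (h w) := by
    convert h1 using 2 with j
    simp only [Function.comp_apply, smul_eq_mul, pow_mul]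
    ring
  exact h2.tsum_eq.symm

section AB

/-- reduction to a primitive parametrization -/
theorem exists_prim {N : ℕ} (hN : 0 < N) {h : ℂ → ℂ} (hh : AnalyticAt ℂ h 0) :
    ∃ (M d : ℕ) (h' : ℂ → ℂ), 0 < M ∧ 0 < d ∧ N = d * M ∧ AnalyticAt ℂ h' 0 ∧
      (∀ᶠ w in 𝓝 (0:ℂ), h w = h' (w ^ d)) ∧
      ∀ om : ℂ, om ^ M = 1 → (∀ᶠ w in 𝓝 (0:ℂ), h' (om * w) = h' w) → om = 1 := by
  induction N using Nat.strong_induction_on generalizing h with
  | _ N ih =>
    by_cases hP : ∀ om : ℂ, om ^ N = 1 → (∀ᶠ w in 𝓝 (0:ℂ), h (om * w) = h w) → om = 1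
    · exact ⟨N, 1, h, hN, one_pos, by rw [one_mul], hh, by simp, hP⟩
    · push Not at hP
      obtain ⟨om, h1, h2, h3⟩ := hP
      have hfin : 0 < orderOf om :=
        orderOf_pos_iff.2 (isOfFinOrder_iff_pow_eq_one.2 ⟨N, hN, h1⟩)
      have hne : orderOf om ≠ 1 := fun h => h3 (orderOf_eq_one_iff.1 h)
      obtain ⟨N1, hN1⟩ := orderOf_dvd_of_pow_eq_one h1
      have hN1p : 0 < N1 := by
        rcases Nat.eq_zero_or_pos N1 with h4 | h4
        · rw [h4, mul_zero] at hN1
          omega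
        · exact h4
      have hlt : N1 < N := by
        rw [hN1]
        have h4 : 2 ≤ orderOf om := by omega
        nlinarith
      obtain ⟨g, hg, hgw⟩ := Prim.dec hfin (IsPrimitiveRoot.orderOf om) hh h2
      obtain ⟨M, d, h', hM, hd, hNM, hh', he, hp⟩ := ih N1 hlt hN1p hg
      refine ⟨M, orderOf om * d, h', hM, Nat.mul_pos hfin hd, ?_, hh', ?_, hp⟩
      · conv_lhs => rw [hN1, hNM]
        ring
      · have ht : Tendsto (fun w : ℂ => w ^ orderOf om) (𝓝 0) (𝓝 0) := by
          have := (continuous_pow (M := ℂ) (orderOf om)).tendsto 0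
          rwa [zero_pow hfin.ne'] at this
        filter_upwards [hgw, ht.eventually he] with w hw1 hw2
        rw [hw1, hw2, pow_mul]
end AB

end Pool.Agent.MP_ae5b4e_an_ALG
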