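import Mathlib
import Pool.Agent.Lib.MP_ae5b4e_an_ALG.Defs

/-!
# MP_ae5b4e_an, algebraic tables: first properties of `Hf`
-/

set_option autoImplicit false

noncomputable section

namespace Pool.Agent.MP_ae5b4e_an_ALG

open Filter Topology Set Metric Complex
open scoped Real

section VA
variable {p r : ℝ}

namespace HfA

theorem ne_zero (hp : 0 < p) (hr : 0 < r) {V : ℂ} (hV : V ∈ Dm p r) : V ≠ 0 := by
  rintro rfl
  rcases hV with h | h | h
  · exact h rfl
  · simp only [Complex.zero_re] at h; linarith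
  · simp only [Complex.zero_re] at h; linarith

theorem normSq_pos (hp : 0 < p) (hr : 0 < r) {V : ℂ} (hV : V ∈ Dm p r) :
    0 < Complex.normSq V :=
  Complex.normSq_pos.2 (ne_zero hp hr hV)

theorem im_div (s : ℝ) (V : ℂ) : ((s : ℂ) / V).im = -(s * V.im / Complex.normSq V) := by
  rw [Complex.div_im]
  simp

theorem re_div (s : ℝ) (V : ℂ) : ((s : ℂ) / V).re = s * V.re / Complex.normSq V := by
  rw [Complex.div_re]
  simp

theorem im_one_sub (s : ℝ) (V : ℂ) : (1 - (s : ℂ) / V).im = s * V.im / Complex.normSq V := by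
  rw [Complex.sub_im, im_div]
  simp

theorem im_one_add (s : ℝ) (V : ℂ) : (1 + (s : ℂ) / V).im = -(s * V.im / Complex.normSq V) := by
  rw [Complex.add_im, im_div]
  simp

/-- for real `V` outside `[-p, r]` both arguments of the logarithms are positive -/
theorem slit (hp : 0 < p) (hr : 0 < r) {V : ℂ} (hV : V ∈ Dm p r) :
    (1 - (r : ℂ) / V) ∈ Complex.slitPlane ∧ (1 + (p : ℂ) / V) ∈ Complex.slitPlane := by
  have hV0 := ne_zero hp hr hV
  have hn := normSq_pos hp hr hV
  by_cases him : V.im = 0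
  · have hV' : V = (V.re : ℂ) := by
      apply Complex.ext <;> simp [him]
    have hre : V.re < -p ∨ r < V.re := by
      rcases hV with h | h | h
      · exact absurd him h
      · exact Or.inl h
      · exact Or.inr h
    have e1 : (1 - (r : ℂ) / V) = ((1 - r / V.re : ℝ) : ℂ) := by
      conv_lhs => rw [hV']
      push_cast
      rfl
    have e2 : (1 + (p : ℂ) / V) = ((1 + p / V.re : ℝ) : ℂ) := by
      conv_lhs => rw [hV']
      push_cast
      rfl
    rw [e1, e2]
    constructor
    · rw [Complex.mem_slitPlane_iff]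
      left
      rw [Complex.ofReal_re]
      rcases hre with h | h
      · have : r / V.re < 0 := div_neg_of_pos_of_neg hr (by linarith)
        linarith
      · have h0 : 0 < V.re := by linarith
        have : r / V.re < 1 := by rw [div_lt_one h0]; exact h
        linarith
    · rw [Complex.mem_slitPlane_iff]
      left
      rw [Complex.ofReal_re]
      rcases hre with h | h
      · have h0 : V.re < 0 := by linarith
        have : -1 < p / V.re := by
          rw [lt_div_iff_of_neg h0]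
          linarith
        linarith
      · have h0 : 0 < V.re := by linarith
        have : 0 < p / V.re := div_pos hp h0
        linarith
  · constructor
    · rw [Complex.mem_slitPlane_iff]
      right
      rw [im_one_sub]
      exact div_ne_zero (mul_ne_zero hr.ne' him) hn.ne'
    · rw [Complex.mem_slitPlane_iff]
      right
      rw [im_one_add]
      exact neg_ne_zero.2 (div_ne_zero (mul_ne_zero hp.ne' him) hn.ne')

end HfA

theorem Dm_open (hp : 0 < p) (hr : 0 < r) : IsOpen (Dm p r) := by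
  have h1 : IsOpen {V : ℂ | V.im ≠ 0} := isOpen_ne_fun Complex.continuous_im continuous_const
  have h2 : IsOpen {V : ℂ | V.re < -p} := isOpen_lt Complex.continuous_re continuous_const
  have h3 : IsOpen {V : ℂ | r < V.re} := isOpen_lt continuous_const Complex.continuous_re
  have he : Dm p r = {V : ℂ | V.im ≠ 0} ∪ ({V : ℂ | V.re < -p} ∪ {V : ℂ | r < V.re}) := by
    ext V
    simp [Dm]
  rw [he]
  exact h1.union (h2.union h3)

theorem UP_subset_Dm : UP ⊆ Dm p r := by
  intro V hV
  left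
  have : 0 < V.im := hV
  exact this.ne'

theorem Pf_ne (hp : 0 < p) (hr : 0 < r) {V : ℂ} (hV : V ∈ Dm p r) : Pf p r V ≠ 0 := by
  have h0 := HfA.ne_zero hp hr hV
  have h1 : V + (p : ℂ) ≠ 0 := by
    intro h
    have hVp : V = ((-p : ℝ) : ℂ) := by
      push_cast
      linear_combination h
    rw [hVp] at hV
    rcases hV with h | h | h
    · exact h (Complex.ofReal_im _)
    · rw [Complex.ofReal_re] at h; exact lt_irrefl _ h
    · rw [Complex.ofReal_re] at h; linarith
  have h2 : V - (r : ℂ) ≠ 0 := by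
    intro h
    have hVp : V = ((r : ℝ) : ℂ) := by
      linear_combination h
    rw [hVp] at hV
    rcases hV with h | h | h
    · exact h (Complex.ofReal_im _)
    · rw [Complex.ofReal_re] at h; linarith
    · rw [Complex.ofReal_re] at h; exact lt_irrefl _ h
  exact mul_ne_zero (mul_ne_zero h0 h1) h2

theorem Hf_deriv (hp : 0 < p) (hr : 0 < r) {V : ℂ} (hV : V ∈ Dm p r) :
    HasDerivAt (Hf p r) (p * r * (p + r) / Pf p r V) V := by
  have h0 := HfA.ne_zero hp hr hV
  obtain ⟨hs1, hs2⟩ := HfA.slit hp hr hV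
  have hP := Pf_ne hp hr hV
  have hinv : HasDerivAt (fun V : ℂ => V⁻¹) (-(V ^ 2)⁻¹) V := hasDerivAt_inv h0
  have d1 : HasDerivAt (fun V : ℂ => 1 - (r : ℂ) / V) ((r : ℂ) / V ^ 2) V := by
    have := (hinv.const_mul (r : ℂ)).const_sub 1
    have e : (fun V : ℂ => 1 - (r : ℂ) / V) = fun V : ℂ => 1 - (r : ℂ) * V⁻¹ := by
      funext V; rw [div_eq_mul_inv]
    have e' : (r : ℂ) / V ^ 2 = -((r : ℂ) * -(V ^ 2)⁻¹) := by
      rw [div_eq_mul_inv]
      ring
    rw [e, e']
    exact this
  have d2 : HasDerivAt (fun V : ℂ => 1 + (p : ℂ) / V) (-(p : ℂ) / V ^ 2) V := by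
    have := (hinv.const_mul (p : ℂ)).const_add 1
    have e : (fun V : ℂ => 1 + (p : ℂ) / V) = fun V : ℂ => 1 + (p : ℂ) * V⁻¹ := by
      funext V; rw [div_eq_mul_inv]
    have e' : -(p : ℂ) / V ^ 2 = (p : ℂ) * -(V ^ 2)⁻¹ := by
      rw [div_eq_mul_inv]
      ring
    rw [e, e']
    exact this
  have c1 := (d1.clog hs1).const_mul (p : ℂ)
  have c2 := (d2.clog hs2).const_mul (r : ℂ)
  have c := c1.add c2
  have hV1 : V + (p : ℂ) ≠ 0 := fun h => hP (by simp [Pf, h])
  have hV2 : V - (r : ℂ) ≠ 0 := fun h => hP (by simp [Pf, h])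
  have hq1 : (1 - (r : ℂ) / V) = (V - r) / V := by field_simp
  have hq2 : (1 + (p : ℂ) / V) = (V + p) / V := by field_simp
  have hfin : (p : ℂ) * r * (p + r) / Pf p r V =
      (p : ℂ) * ((r : ℂ) / V ^ 2 / (1 - (r : ℂ) / V)) +
        (r : ℂ) * (-(p : ℂ) / V ^ 2 / (1 + (p : ℂ) / V)) := by
    rw [hq1, hq2]
    unfold Pf
    field_simp
    ring
  rw [hfin]
  exact c

theorem Hf_conj (hp : 0 < p) (hr : 0 < r) {V : ℂ} (hV : V ∈ Dm p r) :
    Hf p r ((starRingEnd ℂ) V) = (starRingEnd ℂ) (Hf p r V) := by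
  obtain ⟨hs1, hs2⟩ := HfA.slit hp hr hV
  have e1 : (1 - (r : ℂ) / (starRingEnd ℂ) V) = (starRingEnd ℂ) (1 - (r : ℂ) / V) := by
    simp
  have e2 : (1 + (p : ℂ) / (starRingEnd ℂ) V) = (starRingEnd ℂ) (1 + (p : ℂ) / V) := by
    simp
  have l1 := Complex.log_conj (1 - (r : ℂ) / V) (Complex.slitPlane_arg_ne_pi hs1)
  have l2 := Complex.log_conj (1 + (p : ℂ) / V) (Complex.slitPlane_arg_ne_pi hs2)
  unfold Hf
  rw [e1, e2, l1, l2]
  simp

theorem Hf_strip (hp : 0 < p) (hr : 0 < r) {V : ℂ} (hV : V ∈ UP) :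
    -(r * π) < (Hf p r V).im ∧ (Hf p r V).im < p * π := by
  have hVD : V ∈ Dm p r := UP_subset_Dm hV
  have him : 0 < V.im := hV
  have hn := HfA.normSq_pos hp hr hVD
  obtain ⟨hs1, hs2⟩ := HfA.slit hp hr hVD
  have i1 : 0 < (1 - (r : ℂ) / V).im := by
    rw [HfA.im_one_sub]
    positivity
  have i2 : (1 + (p : ℂ) / V).im < 0 := by
    rw [HfA.im_one_add]
    have : 0 < p * V.im / Complex.normSq V := by positivity
    linarith
  have hH : (Hf p r V).im = p * Complex.arg (1 - (r : ℂ) / V) +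
      r * Complex.arg (1 + (p : ℂ) / V) := by
    unfold Hf
    rw [Complex.add_im, Complex.im_ofReal_mul, Complex.im_ofReal_mul, Complex.log_im,
      Complex.log_im]
  have a1 : 0 < Complex.arg (1 - (r : ℂ) / V) := by
    have h := Complex.arg_nonneg_iff.2 i1.le
    rcases h.lt_or_eq with h | h
    · exact h
    · exfalso
      have := Complex.arg_eq_zero_iff.1 h.symm
      linarith [this.2]
  have a1' : Complex.arg (1 - (r : ℂ) / V) < π :=
    Complex.arg_lt_pi_iff.2 (Or.inr i1.ne')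
  have a2 : Complex.arg (1 + (p : ℂ) / V) < 0 := Complex.arg_neg_iff.2 i2
  have a2' : -π < Complex.arg (1 + (p : ℂ) / V) := Complex.neg_pi_lt_arg _
  rw [hH]
  constructor
  · nlinarith [mul_pos hp a1, mul_pos hr (sub_pos.2 a2')]
  · nlinarith [mul_pos hp (sub_pos.2 a1'), mul_pos hr (neg_pos.2 a2)]

theorem Hb_eq (hp : 0 < p) (hr : 0 < r) {V : ℂ} (hV : V ∈ Dm p r) : Hb p r V = Hf p r V := by
  obtain ⟨hs1, hs2⟩ := HfA.slit hp hr hV
  have l2 := Complex.log_conj (1 + (p : ℂ) / V) (Complex.slitPlane_arg_ne_pi hs2)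
  unfold Hb Hf
  rw [l2, Complex.conj_conj]

end VA

end Pool.Agent.MP_ae5b4e_an_ALG
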