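import Mathlib
import Pool.Agent.Lib.MP_ae5b4e_an_ALG.Defs

/-!
# MP_ae5b4e_an, algebraic tables: the function `kap`

`kap p r z = (z + p) (z - r) / ((z - p) (z + r))`, its symmetry and its boundary values.
-/

set_option autoImplicit false

noncomputable section

namespace Pool.Agent.MP_ae5b4e_an_ALG

open Filter Topology Set Metric Complex
open scoped Real

section XJ
variable {p r : ℝ}

/-- `(z + p)(z - r) / ((z - p)(z + r))` -/
def kap (p r : ℝ) (z : ℂ) : ℂ := (z + p) * (z - r) / ((z - p) * (z + r))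

namespace Kap

lemma den_ne {z : ℂ} (hz : z ∈ UP) : (z - p) * (z + r) ≠ 0 := by
  have hz' : 0 < z.im := hz
  refine mul_ne_zero ?_ ?_
  · intro h
    have := congrArg Complex.im h
    simp at this
    exact hz'.ne' this
  · intro h
    have := congrArg Complex.im h
    simp at this
    exact hz'.ne' this

lemma kap_cont_at {z : ℂ} (h : (z - p) * (z + r) ≠ 0) : ContinuousAt (kap p r) z := by
  unfold kap
  refine ContinuousAt.div ?_ ?_ h
  · fun_prop
  · fun_prop

end Kap

theorem kap_up (hp : 0 < p) (hpr : p < r) {z : ℂ} (hz : z ∈ UP) : kap p r z ∈ UP := by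
  have hz' : 0 < z.im := hz
  have hd := Kap.den_ne (p := p) (r := r) hz
  show 0 < (kap p r z).im
  unfold kap
  rw [Complex.div_im, ← sub_div]
  refine div_pos ?_ (Complex.normSq_pos.mpr hd)
  simp only [Complex.mul_im, Complex.mul_re, Complex.add_im, Complex.add_re, Complex.sub_im,
    Complex.sub_re, Complex.ofReal_im, Complex.ofReal_re, add_zero, sub_zero]
  have h1 : 0 < r - p := by linarith
  have h2 : 0 < z.re ^ 2 + z.im ^ 2 + p * r := by
    have : 0 < r := by linarith
    positivity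
  have h3 : 0 < 2 * (r - p) * z.im * (z.re ^ 2 + z.im ^ 2 + p * r) := by positivity
  nlinarith [h3]

theorem kap_refl (hp : 0 < p) (hpr : p < r) {z : ℂ} (hz : z ∈ UP) :
    kap p r (-(starRingEnd ℂ) z) = ((starRingEnd ℂ) (kap p r z))⁻¹ := by
  unfold kap
  simp only [map_div₀, map_mul, map_add, map_sub, Complex.conj_ofReal, inv_div]
  congr 1 <;> ring

theorem kap_arg_refl (hp : 0 < p) (hpr : p < r) {z : ℂ} (hz : z ∈ UP) :
    arg (kap p r (-(starRingEnd ℂ) z)) = arg (kap p r z) := by
  have h := kap_up hp hpr hz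
  have h' : 0 < (kap p r z).im := h
  rw [kap_refl hp hpr hz, ← map_inv₀, Complex.arg_conj, Complex.arg_inv]
  have h1 : arg (kap p r z) ≠ π := by
    intro h2
    rw [Complex.arg_eq_pi_iff] at h2
    exact h'.ne' h2.2
  have h2 : -arg (kap p r z) ≠ π := by
    intro h3
    have h4 : 0 ≤ arg (kap p r z) := Complex.arg_nonneg_iff.mpr h'.le
    have := Real.pi_pos
    linarith
  simp [h1, h2]

/-- real points between `p` and `r` -/
theorem kap_real (hp : 0 < p) (hpr : p < r) {x : ℝ} (h0 : p < |x|) (h1 : |x| < r) :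
    Tendsto (fun z => arg (kap p r z)) (𝓝[UP] (x : ℂ)) (𝓝 π) := by
  have hx2 : 0 < x ^ 2 - p ^ 2 := by
    have := sq_lt_sq' (by linarith [abs_nonneg x]) h0
    rw [sq_abs] at this
    linarith
  have hx3 : x ^ 2 - r ^ 2 < 0 := by
    have := sq_lt_sq' (by linarith [abs_nonneg x]) h1
    rw [sq_abs] at this
    linarith
  have hxp : x - p ≠ 0 := by
    intro h
    have : x = p := by linarith
    rw [this] at hx2
    simp at hx2
  have hxr : x + r ≠ 0 := by
    intro h
    have : x = -r := by linarith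
    rw [this] at hx3
    simp at hx3
  have hval : kap p r (x : ℂ) = (((x + p) * (x - r) / ((x - p) * (x + r)) : ℝ) : ℂ) := by
    unfold kap
    push_cast
    rfl
  have hneg : (x + p) * (x - r) / ((x - p) * (x + r)) < 0 := by
    have e : (x + p) * (x - r) / ((x - p) * (x + r)) =
        (x ^ 2 - p ^ 2) * (x ^ 2 - r ^ 2) / ((x - p) * (x + r)) ^ 2 := by
      field_simp
      ring
    rw [e]
    refine div_neg_of_neg_of_pos (mul_neg_of_pos_of_neg hx2 hx3) ?_
    positivity
  have hden : ((x : ℂ) - p) * ((x : ℂ) + r) ≠ 0 := by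
    have h : ((x - p) * (x + r) : ℝ) ≠ 0 := mul_ne_zero hxp hxr
    exact_mod_cast h
  have hc : ContinuousAt (kap p r) (x : ℂ) := Kap.kap_cont_at hden
  have harg : arg (kap p r (x : ℂ)) = π := by
    rw [hval]
    exact Complex.arg_ofReal_of_neg hneg
  have hA : ContinuousWithinAt arg {z : ℂ | 0 ≤ z.im} (kap p r (x : ℂ)) := by
    refine Complex.continuousWithinAt_arg_of_re_neg_of_im_zero ?_ ?_
    · rw [hval, Complex.ofReal_re]
      exact hneg
    · rw [hval, Complex.ofReal_im]
  have hT : Tendsto (kap p r) (𝓝[UP] (x : ℂ)) (𝓝[{z : ℂ | 0 ≤ z.im}] (kap p r (x : ℂ))) := by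
    refine tendsto_nhdsWithin_iff.mpr ⟨hc.tendsto.mono_left nhdsWithin_le_nhds, ?_⟩
    filter_upwards [self_mem_nhdsWithin] with z hz
    exact (show 0 < (kap p r z).im from kap_up hp hpr hz).le
  have := hA.tendsto.comp hT
  rw [harg] at this
  exact this

theorem kap_arg_cont (hp : 0 < p) (hpr : p < r) {z : ℂ} (hz : z ∈ UP) :
    Tendsto (fun z => arg (kap p r z)) (𝓝 z) (𝓝 (arg (kap p r z))) := by
  have h : 0 < (kap p r z).im := kap_up hp hpr hz
  have hc : ContinuousAt (kap p r) z := Kap.kap_cont_at (Kap.den_ne hz)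
  have hA : ContinuousAt arg (kap p r z) :=
    Complex.continuousAt_arg (Complex.mem_slitPlane_iff.mpr (Or.inr h.ne'))
  exact (hA.comp hc).tendsto

end XJ

end Pool.Agent.MP_ae5b4e_an_ALG
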