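import Mathlib
import Pool.Agent.Lib.MP_ae5b4e_an_ALG.Kap
import Pool.Agent.Lib.MP_ae5b4e_an_ALG.HfA

/-!
# MP_ae5b4e_an, algebraic tables, module XK: the bound for the sum of the angles
-/

set_option autoImplicit false

noncomputable section

namespace Pool.Agent.MP_ae5b4e_an_ALG

open Filter Topology Set Metric Complex
open scoped Real

namespace Angle

/-- `W' / P(W)` -/
def g (p r : ℝ) (W : ℂ → ℂ) (t : ℂ) : ℂ := deriv W t / Pf p r (W t)

/-- `D ^ 2 t ^ 3 W' / P(W)` -/
def cc (p r D : ℝ) (W : ℂ → ℂ) (t : ℂ) : ℂ := (D : ℂ) ^ 2 * t ^ 3 * g p r W t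

theorem isOpen_UP : IsOpen UP := isOpen_lt continuous_const Complex.continuous_im

theorem add_mem {t : ℂ} (ht : t ∈ UP) (x : ℝ) : t + x ∈ UP := by
  have : 0 < t.im := ht
  simpa [UP] using this

theorem addn_mem {t : ℂ} (ht : t ∈ UP) (n : ℕ) : t + n ∈ UP := by
  have := add_mem ht (n : ℝ)
  simpa using this

theorem kap_infty (p r : ℝ) : Tendsto (kap p r) (Bornology.cobounded ℂ) (𝓝 1) := by
  have hi : Tendsto (fun z : ℂ => z⁻¹) (Bornology.cobounded ℂ) (𝓝 0) := tendsto_inv₀_cobounded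
  have h1 : Tendsto (fun z : ℂ => (1 + p * z⁻¹) * (1 - r * z⁻¹) /
      ((1 - p * z⁻¹) * (1 + r * z⁻¹))) (Bornology.cobounded ℂ)
      (𝓝 ((1 + p * 0) * (1 - r * 0) / ((1 - p * 0) * (1 + r * 0)))) := by
    refine Tendsto.div ?_ ?_ (by simp)
    · exact (tendsto_const_nhds.add (tendsto_const_nhds.mul hi)).mul
        (tendsto_const_nhds.sub (tendsto_const_nhds.mul hi))
    · exact (tendsto_const_nhds.sub (tendsto_const_nhds.mul hi)).mul
        (tendsto_const_nhds.add (tendsto_const_nhds.mul hi))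
  have h2 : ((1 + (p:ℂ) * 0) * (1 - r * 0) / ((1 - p * 0) * (1 + r * 0))) = 1 := by simp
  rw [h2] at h1
  refine h1.congr' ?_
  have hev : ∀ᶠ z : ℂ in Bornology.cobounded ℂ, z ≠ 0 := by
    filter_upwards [tendsto_norm_cobounded_atTop.eventually (eventually_gt_atTop 0)] with z hz h0
    rw [h0] at hz; simp at hz
  filter_upwards [hev] with z hz
  have e1 : (1 + (p:ℂ) * z⁻¹) = (z + p) * z⁻¹ := by field_simp
  have e2 : (1 - (r:ℂ) * z⁻¹) = (z - r) * z⁻¹ := by field_simp
  have e3 : (1 - (p:ℂ) * z⁻¹) = (z - p) * z⁻¹ := by field_simp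
  have e4 : (1 + (r:ℂ) * z⁻¹) = (z + r) * z⁻¹ := by field_simp
  rw [e1, e2, e3, e4, kap]
  have hz' : z⁻¹ * z⁻¹ ≠ 0 := mul_ne_zero (inv_ne_zero hz) (inv_ne_zero hz)
  rw [show (z + (p:ℂ)) * z⁻¹ * ((z - r) * z⁻¹) = ((z + p) * (z - r)) * (z⁻¹ * z⁻¹) by ring,
    show (z - (p:ℂ)) * z⁻¹ * ((z + r) * z⁻¹) = ((z - p) * (z + r)) * (z⁻¹ * z⁻¹) by ring]
  exact mul_div_mul_right _ _ hz'

/-- the recursion of `g` -/
theorem gstep {p r : ℝ} (hp : 0 < p) (hpr : p < r) {V W : ℂ → ℂ} (hW : Ext p r 0 1 V W) {t : ℂ}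
    (ht : t ∈ UP) : g p r W (t + 1) = kap p r (W t) * g p r W t := by
  have hr : 0 < r := hp.trans hpr
  have ht1 : t + 1 ∈ UP := by simpa using addn_mem ht 1
  have hWt : W t ∈ UP := hW.up t ht
  have hWt1 : W (t + 1) ∈ UP := hW.up _ ht1
  have hd : HasDerivAt W (deriv W t) t :=
    ((hW.diff t ht).differentiableAt (isOpen_UP.mem_nhds ht)).hasDerivAt
  have hd1 : HasDerivAt W (deriv W (t + 1)) (t + 1) :=
    ((hW.diff _ ht1).differentiableAt (isOpen_UP.mem_nhds ht1)).hasDerivAt
  have hL : HasDerivAt (fun s => Hf p r (W (s + 1)))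
      (p * r * (p + r) / Pf p r (W (t + 1)) * (deriv W (t + 1) * 1)) t := by
    have h1 : HasDerivAt (fun s : ℂ => s + 1) 1 t := (hasDerivAt_id t).add_const 1
    have h2 : HasDerivAt (fun s : ℂ => W (s + 1)) (deriv W (t + 1) * 1) t :=
      HasDerivAt.comp t hd1 h1
    exact HasDerivAt.comp t (Hf_deriv hp hr (UP_subset_Dm hWt1)) h2
  have hneg : -W t ∈ Dm p r := by
    left
    have : 0 < (W t).im := hWt
    simp only [neg_im]
    linarith
  have hR : HasDerivAt (fun s => Hf p r (-W s))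
      (p * r * (p + r) / Pf p r (-W t) * (-deriv W t)) t :=
    HasDerivAt.comp t (Hf_deriv hp hr hneg) hd.neg
  have hEq : (fun s => Hf p r (W (s + 1))) =ᶠ[𝓝 t] (fun s => Hf p r (-W s)) := by
    filter_upwards [isOpen_UP.mem_nhds ht] with s hs
    have := hW.step s hs
    simpa using this
  have hE := (hL.congr_of_eventuallyEq hEq.symm).unique hR
  have him : (W t).im ≠ 0 := ne_of_gt hWt
  have n0 : W t ≠ 0 := fun h => him (by rw [h]; simp)
  have n1 : W t + p ≠ 0 := fun h => him (by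
    have := congrArg Complex.im h
    simpa using this)
  have n2 : W t - r ≠ 0 := fun h => him (by
    have := congrArg Complex.im h
    simpa using this)
  have n3 : W t - p ≠ 0 := fun h => him (by
    have := congrArg Complex.im h
    simpa using this)
  have n4 : W t + r ≠ 0 := fun h => him (by
    have := congrArg Complex.im h
    simpa using this)
  have hK : ((p:ℂ) * r * (p + r)) ≠ 0 := by
    have h1 : (p : ℂ) ≠ 0 := by exact_mod_cast hp.ne'
    have h2 : (r : ℂ) ≠ 0 := by exact_mod_cast hr.ne'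
    have h3 : ((p : ℂ) + r) ≠ 0 := by exact_mod_cast (by positivity : p + r ≠ 0)
    exact mul_ne_zero (mul_ne_zero h1 h2) h3
  have hPn : Pf p r (-W t) = -(W t * (W t - p) * (W t + r)) := by
    unfold Pf; ring
  have hmul : ((p:ℂ) * r * (p + r)) * g p r W (t + 1) =
      ((p:ℂ) * r * (p + r)) * (kap p r (W t) * g p r W t) := by
    have e1 : ((p:ℂ) * r * (p + r)) * g p r W (t + 1) =
        p * r * (p + r) / Pf p r (W (t + 1)) * (deriv W (t + 1) * 1) := by
      unfold g; ring
    rw [e1, hE, hPn]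
    unfold g kap Pf
    field_simp
  exact mul_left_cancel₀ hK hmul

theorem gprod {p r : ℝ} (hp : 0 < p) (hpr : p < r) {V W : ℂ → ℂ} (hW : Ext p r 0 1 V W) {t : ℂ}
    (ht : t ∈ UP) (n : ℕ) :
    g p r W (t + n) = (∏ j ∈ Finset.range n, kap p r (W (t + j))) * g p r W t := by
  induction n with
  | zero => simp
  | succ n ih =>
    rw [Finset.prod_range_succ, Nat.cast_succ, ← add_assoc, gstep hp hpr hW (addn_mem ht n), ih]
    ring

/-- the limit of `cc` -/
theorem far_c {p r D R : ℝ} {V W : ℂ → ℂ} (hD : 0 < D) (hV : SHM p r 0 D 1 R V)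
    (hW : Ext p r 0 1 V W) :
    Tendsto (cc p r D W) (Bornology.cobounded ℂ ⊓ 𝓟 UP) (𝓝 1) := by
  obtain ⟨R', hR'⟩ := hW.far
  have hDc : (D : ℂ) ≠ 0 := by exact_mod_cast hD.ne'
  have hcob : ∀ M : ℝ, ∀ᶠ t : ℂ in Bornology.cobounded ℂ, M < ‖t‖ := by
    intro M
    exact tendsto_norm_cobounded_atTop.eventually (eventually_gt_atTop M)
  have hasym : Tendsto (fun t : ℂ => V t - D * t) (Bornology.cobounded ℂ) (𝓝 0) := by
    have := hV.asym
    simpa using this
  have hasymF : Tendsto (fun t : ℂ => V t - D * t) (Bornology.cobounded ℂ ⊓ 𝓟 UP) (𝓝 0) :=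
    hasym.mono_left inf_le_left
  have hUP : ∀ᶠ t in Bornology.cobounded ℂ ⊓ 𝓟 UP, t ∈ UP :=
    mem_inf_of_right (mem_principal_self UP)
  have hWV : ∀ᶠ t in Bornology.cobounded ℂ ⊓ 𝓟 UP, W t = V t := by
    filter_upwards [(hcob R').filter_mono inf_le_left, hUP] with t h1 h2
    exact hR' t h2 h1
  have hi : Tendsto (fun z : ℂ => z⁻¹) (Bornology.cobounded ℂ ⊓ 𝓟 UP) (𝓝 0) :=
    tendsto_inv₀_cobounded.mono_left inf_le_left
  have hne : ∀ᶠ t : ℂ in Bornology.cobounded ℂ ⊓ 𝓟 UP, t ≠ 0 := by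
    filter_upwards [(hcob 0).filter_mono inf_le_left] with t h1 h2
    rw [h2] at h1; simp at h1
  -- the quotient
  have hq : ∀ b : ℂ, Tendsto (fun t : ℂ => (W t + b) / t) (Bornology.cobounded ℂ ⊓ 𝓟 UP)
      (𝓝 D) := by
    intro b
    have h1 : Tendsto (fun t : ℂ => (D : ℂ) + (V t - D * t) * t⁻¹ + b * t⁻¹)
        (Bornology.cobounded ℂ ⊓ 𝓟 UP) (𝓝 ((D : ℂ) + 0 * 0 + b * 0)) :=
      (tendsto_const_nhds.add (hasymF.mul hi)).add (tendsto_const_nhds.mul hi)
    have h2 : (D : ℂ) + 0 * 0 + b * 0 = D := by simp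
    rw [h2] at h1
    refine h1.congr' ?_
    filter_upwards [hWV, hne] with t h3 h4
    rw [h3]
    field_simp
    ring
  -- the derivative
  have hder : Tendsto (fun t : ℂ => deriv V t) (Bornology.cobounded ℂ) (𝓝 D) := by
    rw [Metric.tendsto_nhds]
    intro e he
    have h1 : ∀ᶠ t in Bornology.cobounded ℂ, ‖V t - D * t‖ < e / 2 := by
      have := (Metric.tendsto_nhds.1 hasym) (e / 2) (by positivity)
      simpa [dist_eq_norm] using this
    have h2 : ∃ R1 : ℝ, ∀ t : ℂ, R1 < ‖t‖ → ‖V t - D * t‖ < e / 2 := by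
      have h3 := h1
      rw [← comap_norm_atTop, eventually_comap] at h3
      obtain ⟨R1, hR1⟩ := eventually_atTop.1 h3
      exact ⟨R1, fun t ht => hR1 _ ht.le t rfl⟩
    obtain ⟨R1, hR1⟩ := h2
    filter_upwards [hcob (max R1 R + 1)] with t ht
    have hball : ∀ z ∈ closedBall t 1, max R1 R < ‖z‖ := by
      intro z hz
      have h4 : ‖z - t‖ ≤ 1 := by simpa [dist_eq_norm] using hz
      have h5 : ‖t‖ ≤ ‖z‖ + ‖z - t‖ := by
        have : t = z - (z - t) := by ring
        calc ‖t‖ = ‖z - (z - t)‖ := by rw [← this]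
          _ ≤ ‖z‖ + ‖z - t‖ := norm_sub_le _ _
      linarith
    have hdV : ∀ z ∈ closedBall t 1, DifferentiableAt ℂ V z := fun z hz =>
      hV.diff z (lt_of_le_of_lt (le_max_right _ _) (hball z hz))
    have hdf : ∀ z ∈ closedBall t 1, DifferentiableAt ℂ (fun u : ℂ => V u - D * u) z :=
      fun z hz => (hdV z hz).sub ((differentiableAt_id).const_mul (D : ℂ))
    have hdc : DiffContOnCl ℂ (fun u : ℂ => V u - D * u) (ball t 1) := by
      refine DifferentiableOn.diffContOnCl ?_
      rw [closure_ball t one_ne_zero]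
      exact fun z hz => (hdf z hz).differentiableWithinAt
    have hb := Complex.norm_deriv_le_of_forall_mem_sphere_norm_le (c := t) (R := 1) (C := e / 2)
      one_pos hdc (fun z hz => (hR1 z (lt_of_le_of_lt (le_max_left _ _)
        (hball z (sphere_subset_closedBall hz)))).le)
    have hdt : deriv (fun u : ℂ => V u - D * u) t = deriv V t - D := by
      have h6 : HasDerivAt (fun u : ℂ => V u - D * u) (deriv V t - D * 1) t :=
        ((hdV t (mem_closedBall_self zero_le_one)).hasDerivAt).sub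
          ((hasDerivAt_id t).const_mul (D : ℂ))
      rw [h6.deriv]; ring
    rw [hdt] at hb
    rw [dist_eq_norm]
    linarith
  have hderW : Tendsto (fun t : ℂ => deriv W t) (Bornology.cobounded ℂ ⊓ 𝓟 UP) (𝓝 D) := by
    refine (hder.mono_left inf_le_left).congr' ?_
    filter_upwards [(hcob R').filter_mono inf_le_left, hUP] with t h1 h2
    have h3 : V =ᶠ[𝓝 t] W := by
      have hop : IsOpen {u : ℂ | R' < ‖u‖} := isOpen_lt continuous_const continuous_norm
      filter_upwards [isOpen_UP.mem_nhds h2, hop.mem_nhds h1] with u h4 h5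
      exact (hR' u h4 h5).symm
    exact h3.deriv_eq
  have hfin : Tendsto (fun t : ℂ => (D : ℂ) ^ 2 * deriv W t /
      ((W t + 0) / t * ((W t + p) / t) * ((W t + (-r : ℂ)) / t)))
      (Bornology.cobounded ℂ ⊓ 𝓟 UP) (𝓝 ((D : ℂ) ^ 2 * D / (D * D * D))) :=
    (tendsto_const_nhds.mul hderW).div (((hq 0).mul (hq p)).mul (hq (-r)))
      (mul_ne_zero (mul_ne_zero hDc hDc) hDc)
  have h1 : (D : ℂ) ^ 2 * D / (D * D * D) = 1 := by field_simp
  rw [h1] at hfin
  refine hfin.congr' ?_
  filter_upwards [hne, hUP] with t h2 h3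
  have hWt : W t ∈ UP := hW.up t h3
  have him : (W t).im ≠ 0 := ne_of_gt hWt
  have n0 : W t ≠ 0 := fun h => him (by rw [h]; simp)
  have n1 : W t + p ≠ 0 := fun h => him (by
    have := congrArg Complex.im h
    simpa using this)
  have n2 : W t - r ≠ 0 := fun h => him (by
    have := congrArg Complex.im h
    simpa using this)
  unfold cc g Pf
  rw [add_zero, ← sub_eq_add_neg]
  field_simp

/-- a continuous function on `[0, ∞)` with `exp f = 1` and limit `0` vanishes at `0` -/
theorem zero_of_exp {f : ℝ → ℂ} (hf : ContinuousOn f (Ici 0)) (he : ∀ y, 0 ≤ y → exp (f y) = 1)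
    (hl : Tendsto f atTop (𝓝 0)) : f 0 = 0 := by
  have hint : ∀ y, 0 ≤ y → ∃ n : ℤ, f y = n * (2 * π * I) := fun y hy =>
    Complex.exp_eq_one_iff.1 (he y hy)
  have hg : ContinuousOn (fun y => (f y).im / (2 * π)) (Ici 0) :=
    (Complex.continuous_im.comp_continuousOn hf).div_const _
  have hpi : (0:ℝ) < 2 * π := by positivity
  have hval : ∀ y, 0 ≤ y → ∃ n : ℤ, (f y).im / (2 * π) = n ∧ f y = n * (2 * π * I) := by
    intro y hy
    obtain ⟨n, hn⟩ := hint y hy
    refine ⟨n, ?_, hn⟩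
    rw [hn]
    have : ((n : ℂ) * (2 * π * I)).im = n * (2 * π) := by
      simp
    rw [this]
    field_simp
  obtain ⟨n0, h1, h2⟩ := hval 0 le_rfl
  have hlim : Tendsto (fun y => (f y).im / (2 * π)) atTop (𝓝 0) := by
    have := ((Complex.continuous_im.tendsto _).comp hl).div_const (2 * π)
    simpa using this
  by_cases hn0 : n0 = 0
  · rw [h2, hn0]; simp
  exfalso
  obtain ⟨Y, hY⟩ := (((Metric.tendsto_nhds.1 hlim) (1/2) (by norm_num)).and
    (eventually_ge_atTop 0)).exists
  obtain ⟨hY1, hY0⟩ := hY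
  obtain ⟨nY, h3, h4⟩ := hval Y hY0
  have hnY : nY = 0 := by
    rw [h3, Real.dist_eq, sub_zero] at hY1
    have h5 : |nY| < 1 := by
      have : (|nY| : ℝ) < 1 := by linarith
      exact_mod_cast this
    exact Int.abs_lt_one_iff.1 h5
  -- intermediate value
  have hcont : ContinuousOn (fun y => (f y).im / (2 * π)) (uIcc 0 Y) := by
    rw [uIcc_of_le hY0]
    exact hg.mono Icc_subset_Ici_self
  have hiv := intermediate_value_uIcc hcont
  have hmid : ((n0 : ℝ) / (2 * |(n0 : ℝ)|)) ∈ uIcc ((fun y => (f y).im / (2 * π)) 0)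
      ((fun y => (f y).im / (2 * π)) Y) := by
    simp only [h1, h3, hnY, Int.cast_zero]
    rcases lt_or_gt_of_ne hn0 with h | h
    · have h5 : (n0 : ℝ) ≤ -1 := by exact_mod_cast (by omega : n0 ≤ -1)
      have h6 : |(n0 : ℝ)| = -n0 := abs_of_neg (by linarith)
      rw [h6, uIcc_of_le (by linarith)]
      have h7 : (n0 : ℝ) / (2 * -n0) = -1/2 := by
        have : (n0 : ℝ) ≠ 0 := by intro h; linarith
        field_simp
      rw [h7]
      constructor <;> linarith
    · have h5 : (1:ℝ) ≤ n0 := by exact_mod_cast (by omega : 1 ≤ n0)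
      have h6 : |(n0 : ℝ)| = n0 := abs_of_pos (by linarith)
      rw [h6, uIcc_of_ge (by linarith)]
      have h7 : (n0 : ℝ) / (2 * n0) = 1/2 := by
        have : (n0 : ℝ) ≠ 0 := by intro h; linarith
        field_simp
      rw [h7]
      constructor <;> linarith
  obtain ⟨y, hy, hyv⟩ := hiv hmid
  rw [uIcc_of_le hY0] at hy
  obtain ⟨m, h8, h9⟩ := hval y hy.1
  simp only [h8] at hyv
  rcases lt_or_gt_of_ne hn0 with h | h
  · have h5 : (n0 : ℝ) < 0 := by exact_mod_cast h
    rw [abs_of_neg h5] at hyv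
    have h7 : (n0 : ℝ) / (2 * -n0) = -1/2 := by
      field_simp
    rw [h7] at hyv
    have h10 : (2 * m : ℝ) = -1 := by rw [hyv]; ring
    have h11 : 2 * m = -1 := by exact_mod_cast h10
    omega
  · have h5 : (0:ℝ) < n0 := by exact_mod_cast h
    rw [abs_of_pos h5] at hyv
    have h7 : (n0 : ℝ) / (2 * n0) = 1/2 := by
      field_simp
    rw [h7] at hyv
    have h10 : (2 * m : ℝ) = 1 := by rw [hyv]; ring
    have h11 : 2 * m = 1 := by exact_mod_cast h10
    omega

theorem ray_cobounded {s : ℂ} (hs : s ∈ UP) :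
    Tendsto (fun y : ℝ => s + y * I) atTop (Bornology.cobounded ℂ ⊓ 𝓟 UP) := by
  refine tendsto_inf.2 ⟨?_, tendsto_principal.2 ?_⟩
  · rw [← tendsto_norm_atTop_iff_cobounded]
    refine tendsto_atTop_mono (fun y => ?_) (tendsto_atTop_add_const_left atTop (s.im) tendsto_id)
    have h1 : |(s + y * I).im| ≤ ‖s + y * I‖ := Complex.abs_im_le_norm _
    have h2 : (s + y * I).im = s.im + y := by simp
    rw [h2] at h1
    exact (le_abs_self _).trans h1
  · filter_upwards [eventually_ge_atTop 0] with y hy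
    have : 0 < s.im := hs
    simp [UP]
    linarith

theorem ray_mem {s : ℂ} (hs : s ∈ UP) {y : ℝ} (hy : 0 ≤ y) : s + y * I ∈ UP := by
  have : 0 < s.im := hs
  simp [UP]
  linarith

theorem kap_cont {p r : ℝ} {z : ℂ} (hz : z ∈ UP) : ContinuousAt (kap p r) z := by
  have him : z.im ≠ 0 := ne_of_gt hz
  have n3 : z - p ≠ 0 := fun h => him (by
    have := congrArg Complex.im h
    simpa using this)
  have n4 : z + r ≠ 0 := fun h => him (by
    have := congrArg Complex.im h
    simpa using this)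
  have hc : Continuous (fun z : ℂ => (z + p) * (z - r)) := by fun_prop
  have hc' : Continuous (fun z : ℂ => (z - p) * (z + r)) := by fun_prop
  exact hc.continuousAt.div hc'.continuousAt (mul_ne_zero n3 n4)

theorem UP_slit {z : ℂ} (hz : z ∈ UP) : z ∈ slitPlane := Or.inr (ne_of_gt hz)

theorem g_cont {p r : ℝ} (hp : 0 < p) (hpr : p < r) {V W : ℂ → ℂ} (hW : Ext p r 0 1 V W) :
    ContinuousOn (g p r W) UP := by
  have hr : 0 < r := hp.trans hpr
  have h1 : ContinuousOn (deriv W) UP := (hW.diff.deriv isOpen_UP).continuousOn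
  have h2 : ContinuousOn (fun t => Pf p r (W t)) UP := by
    have hP : Continuous (Pf p r) := by unfold Pf; fun_prop
    exact hP.comp_continuousOn hW.diff.continuousOn
  exact h1.div h2 fun t ht => Pf_ne hp hr (UP_subset_Dm (hW.up t ht))

/-- the exact sum on a long segment -/
theorem long_sum {p r D R : ℝ} (hp : 0 < p) (hpr : p < r) {V W : ℂ → ℂ} (hD : 0 < D)
    (hV : SHM p r 0 D 1 R V) (hW : Ext p r 0 1 V W) {s : ℂ} (hs : s ∈ UP) (N : ℕ)
    (h0 : ∀ y : ℝ, 0 ≤ y → ‖cc p r D W (s + y * I) - 1‖ < 1 / 4)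
    (h1 : ∀ y : ℝ, 0 ≤ y → ‖cc p r D W (s + y * I + N) - 1‖ < 1 / 4) :
    ∑ j ∈ Finset.range N, log (kap p r (W (s + j))) + 3 * log (1 + N / s) -
      log (cc p r D W (s + N) / cc p r D W s) = 0 := by
  have hDc : (D : ℂ) ≠ 0 := by exact_mod_cast hD.ne'
  set f : ℝ → ℂ := fun y => ∑ j ∈ Finset.range N, log (kap p r (W (s + y * I + j))) +
    3 * log (1 + N / (s + y * I)) -
      log (cc p r D W (s + y * I + N) / cc p r D W (s + y * I)) with hf
  have hray : ∀ y : ℝ, 0 ≤ y → s + y * I ∈ UP := fun y hy => ray_mem hs hy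
  have hne : ∀ y : ℝ, 0 ≤ y → s + y * I ≠ 0 := by
    intro y hy h
    have := hray y hy
    rw [h] at this
    simp [UP] at this
  have hslit : ∀ y : ℝ, 0 ≤ y → (1 + N / (s + y * I)) ∈ slitPlane := by
    intro y hy
    by_cases hN : N = 0
    · rw [hN]; simp
    right
    have h2 : 0 < (s + y * I).im := hray y hy
    have h3 : (1 + (N : ℂ) / (s + y * I)).im = -(N * (s + y * I).im / normSq (s + y * I)) := by
      rw [add_im, div_im]
      simp
    rw [h3]
    have h4 : 0 < normSq (s + y * I) := normSq_pos.2 (hne y hy)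
    have h5 : (0:ℝ) < N := by exact_mod_cast Nat.pos_of_ne_zero hN
    have h6 : 0 < N * (s + y * I).im / normSq (s + y * I) := by positivity
    linarith
  have hcc : ∀ y : ℝ, 0 ≤ y → cc p r D W (s + y * I) ≠ 0 := by
    intro y hy h
    have := h0 y hy
    rw [h] at this
    simp at this
    norm_num at this
  have hcc1 : ∀ y : ℝ, 0 ≤ y → cc p r D W (s + y * I + N) ≠ 0 := by
    intro y hy h
    have := h1 y hy
    rw [h] at this
    simp at this
    norm_num at this
  have hslit2 : ∀ y : ℝ, 0 ≤ y →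
      cc p r D W (s + y * I + N) / cc p r D W (s + y * I) ∈ slitPlane := by
    intro y hy
    left
    set a := cc p r D W (s + y * I + N) with ha
    set b := cc p r D W (s + y * I) with hb
    have ha1 : ‖a - 1‖ < 1 / 4 := h1 y hy
    have hb1 : ‖b - 1‖ < 1 / 4 := h0 y hy
    have hb0 : b ≠ 0 := hcc y hy
    have hbn : 3 / 4 < ‖b‖ := by
      have : ‖(1:ℂ)‖ ≤ ‖b‖ + ‖b - 1‖ := by
        calc ‖(1:ℂ)‖ = ‖b - (b - 1)‖ := by congr 1; ring
          _ ≤ ‖b‖ + ‖b - 1‖ := norm_sub_le _ _
      rw [norm_one] at this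
      linarith
    have hab : ‖a - b‖ < 1 / 2 := by
      calc ‖a - b‖ = ‖(a - 1) - (b - 1)‖ := by congr 1; ring
        _ ≤ ‖a - 1‖ + ‖b - 1‖ := norm_sub_le _ _
        _ < 1 / 2 := by linarith
    have h2 : ‖a / b - 1‖ < 1 := by
      have : a / b - 1 = (a - b) / b := by field_simp
      rw [this, norm_div, div_lt_one (by linarith)]
      linarith
    have h3 : |(a / b - 1).re| < 1 := (Complex.abs_re_le_norm _).trans_lt h2
    have h4 : (a / b - 1).re = (a / b).re - 1 := by simp
    rw [h4, abs_lt] at h3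
    linarith [h3.1]
  have hcont : ContinuousOn f (Ici 0) := by
    have hl : ∀ j : ℕ, ContinuousOn (fun y : ℝ => s + y * I + j) (Ici 0) := by
      intro j; fun_prop
    have hm : ∀ j : ℕ, MapsTo (fun y : ℝ => s + y * I + j) (Ici 0) UP := fun j y hy =>
      addn_mem (hray y hy) j
    have hgc := g_cont hp hpr hW
    have hccc : ContinuousOn (cc p r D W) UP := by
      unfold cc
      have : Continuous (fun t : ℂ => (D : ℂ) ^ 2 * t ^ 3) := by fun_prop
      exact this.continuousOn.mul hgc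
    refine ContinuousOn.sub (ContinuousOn.add ?_ ?_) ?_
    · refine continuousOn_finsetSum _ fun j _ => ?_
      intro y hy
      have h2 : ContinuousWithinAt (fun y : ℝ => W (s + y * I + j)) (Ici 0) y :=
        (hW.diff.continuousOn.comp (hl j) (hm j)) y hy
      have h3 : W (s + y * I + j) ∈ UP := hW.up _ (hm j hy)
      have h4 : ContinuousAt (fun z => log (kap p r z)) (W (s + y * I + j)) :=
        (continuousAt_clog (UP_slit (kap_up hp hpr h3))).comp (kap_cont h3)
      exact ContinuousAt.comp_continuousWithinAt (f := fun y : ℝ => W (s + y * I + j)) h4 h2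
    · refine ContinuousOn.mul continuousOn_const ?_
      intro y hy
      refine ContinuousWithinAt.clog ?_ (hslit y hy)
      have h2 : ContinuousWithinAt (fun y : ℝ => s + y * I) (Ici 0) y := by
        fun_prop
      exact continuousWithinAt_const.add (continuousWithinAt_const.div h2 (hne y hy))
    · intro y hy
      refine ContinuousWithinAt.clog ?_ (hslit2 y hy)
      have h2 : ContinuousWithinAt (fun y : ℝ => cc p r D W (s + y * I + N)) (Ici 0) y :=
        (hccc.comp (hl N) (hm N)) y hy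
      have h3 : ContinuousWithinAt (fun y : ℝ => cc p r D W (s + y * I)) (Ici 0) y := by
        have h4 : ContinuousOn (fun y : ℝ => s + y * I) (Ici 0) := by fun_prop
        have h5 : MapsTo (fun y : ℝ => s + y * I) (Ici 0) UP := fun y hy => hray y hy
        exact (hccc.comp h4 h5) y hy
      exact h2.div h3 (hcc y hy)
  have hexp : ∀ y, 0 ≤ y → exp (f y) = 1 := by
    intro y hy
    have hsy := hray y hy
    simp only [hf]
    rw [exp_sub, exp_add, exp_log (slitPlane_ne_zero (hslit2 y hy)), exp_sum]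
    have e1 : exp (3 * log (1 + N / (s + y * I))) = (1 + N / (s + y * I)) ^ 3 := by
      rw [show (3:ℂ) * log (1 + N / (s + y * I)) = ((3:ℕ):ℂ) * log (1 + N / (s + y * I)) by
        norm_num, exp_nat_mul, exp_log (slitPlane_ne_zero (hslit y hy))]
    have e2 : ∀ j ∈ Finset.range N, exp (log (kap p r (W (s + y * I + j)))) =
        kap p r (W (s + y * I + j)) := fun j _ =>
      exp_log (slitPlane_ne_zero (UP_slit (kap_up hp hpr (hW.up _ (addn_mem hsy j)))))
    rw [e1, Finset.prod_congr rfl e2]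
    have e3 := gprod hp hpr hW hsy N
    have hg0 : g p r W (s + y * I) ≠ 0 := by
      intro h
      apply hcc y hy
      unfold cc; rw [h]; simp
    have e4 : (∏ j ∈ Finset.range N, kap p r (W (s + y * I + j))) =
        g p r W (s + y * I + N) / g p r W (s + y * I) := by
      rw [e3]; field_simp
    have hg1 : g p r W (s + y * I + N) ≠ 0 := by
      intro h
      apply hcc1 y hy
      unfold cc; rw [h]; simp
    have hsN : s + y * I + N ≠ 0 := by
      intro h
      have := addn_mem hsy N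
      rw [h] at this
      simp [UP] at this
    have hsne := hne y hy
    rw [e4]
    unfold cc
    have e5 : (1 + (N:ℂ) / (s + y * I)) = (s + y * I + N) / (s + y * I) := by
      field_simp
    rw [e5, div_pow]
    generalize s + y * I + N = u at *
    generalize s + y * I = v at *
    field_simp
  have hlim : Tendsto f atTop (𝓝 0) := by
    have hrayN : ∀ j : ℕ, Tendsto (fun y : ℝ => s + y * I + j) atTop
        (Bornology.cobounded ℂ ⊓ 𝓟 UP) := by
      intro j
      have := ray_cobounded (addn_mem hs j)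
      refine this.congr fun y => ?_
      ring
    have hWinf : Tendsto W (Bornology.cobounded ℂ ⊓ 𝓟 UP) (Bornology.cobounded ℂ) := by
      obtain ⟨R', hR'⟩ := hW.far
      have hasym : Tendsto (fun t : ℂ => V t - D * t) (Bornology.cobounded ℂ) (𝓝 0) := by
        have := hV.asym
        simpa using this
      have hbd : ∀ᶠ t in Bornology.cobounded ℂ, ‖V t - D * t‖ < 1 := by
        have := (Metric.tendsto_nhds.1 hasym) 1 one_pos
        simpa [dist_eq_norm] using this
      rw [← tendsto_norm_atTop_iff_cobounded]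
      have h2 : Tendsto (fun t : ℂ => D * ‖t‖ + (-1)) (Bornology.cobounded ℂ ⊓ 𝓟 UP) atTop :=
        tendsto_atTop_add_const_right _ _
          ((tendsto_norm_cobounded_atTop.mono_left inf_le_left).const_mul_atTop hD)
      refine tendsto_atTop_mono' _ ?_ h2
      filter_upwards [hbd.filter_mono inf_le_left,
        (tendsto_norm_cobounded_atTop.eventually (eventually_gt_atTop R')).filter_mono inf_le_left,
        mem_inf_of_right (mem_principal_self UP)] with t h3 h4 h5
      rw [hR' t h5 h4]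
      have h6 : ‖(D : ℂ) * t‖ ≤ ‖V t‖ + ‖V t - D * t‖ := by
        calc ‖(D : ℂ) * t‖ = ‖V t - (V t - D * t)‖ := by congr 1; ring
          _ ≤ ‖V t‖ + ‖V t - D * t‖ := norm_sub_le _ _
      rw [norm_mul, Complex.norm_real, Real.norm_of_nonneg hD.le] at h6
      linarith
    have h2 : ∀ j : ℕ, Tendsto (fun y : ℝ => log (kap p r (W (s + y * I + j)))) atTop
        (𝓝 0) := by
      intro j
      have h3 : Tendsto (fun y : ℝ => kap p r (W (s + y * I + j))) atTop (𝓝 1) :=
        (kap_infty p r).comp (hWinf.comp (hrayN j))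
      have h4 := h3.clog (by simp)
      simpa using h4
    have h3 : Tendsto (fun y : ℝ => log (1 + N / (s + y * I))) atTop (𝓝 0) := by
      have h4 : Tendsto (fun y : ℝ => (s + y * I)⁻¹) atTop (𝓝 0) :=
        tendsto_inv₀_cobounded.comp ((ray_cobounded hs).mono_right inf_le_left)
      have h5 : Tendsto (fun y : ℝ => 1 + (N:ℂ) * (s + y * I)⁻¹) atTop (𝓝 (1 + (N:ℂ) * 0)) :=
        tendsto_const_nhds.add (tendsto_const_nhds.mul h4)
      have h6 := h5.clog (by simp)
      simpa [div_eq_mul_inv] using h6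
    have h4 : Tendsto (fun y : ℝ => log (cc p r D W (s + y * I + N) /
        cc p r D W (s + y * I))) atTop (𝓝 0) := by
      have h5 := (far_c hD hV hW).comp (hrayN N)
      have h6 := (far_c hD hV hW).comp (ray_cobounded hs)
      have h7 := (h5.div h6 one_ne_zero).clog (by simp)
      simpa using h7
    have h5 : Tendsto (fun y : ℝ => ∑ j ∈ Finset.range N, log (kap p r (W (s + y * I + j))))
        atTop (𝓝 0) := by
      have := tendsto_finsetSum (Finset.range N) (fun j _ => h2 j)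
      simpa using this
    have h6 := (h5.add (h3.const_mul 3)).sub h4
    simpa [hf] using h6
  have h2 := zero_of_exp hcont hexp hlim
  simpa [hf] using h2

theorem nat_cobounded {t : ℂ} (ht : t ∈ UP) :
    Tendsto (fun M : ℕ => t + M) atTop (Bornology.cobounded ℂ ⊓ 𝓟 UP) := by
  refine tendsto_inf.2 ⟨?_, tendsto_principal.2 (Eventually.of_forall fun M => addn_mem ht M)⟩
  rw [← tendsto_norm_atTop_iff_cobounded]
  refine tendsto_atTop_mono (fun M => ?_)
    (tendsto_atTop_add_const_right atTop (-‖t‖) tendsto_natCast_atTop_atTop)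
  have h1 : ‖(M : ℂ)‖ ≤ ‖t + M‖ + ‖t‖ := by
    calc ‖(M : ℂ)‖ = ‖(t + M) - t‖ := by congr 1; ring
      _ ≤ ‖t + M‖ + ‖t‖ := norm_sub_le _ _
  have h2 : ‖(M : ℂ)‖ = (M : ℝ) := by simp
  rw [h2] at h1
  linarith

theorem subn_mem {t : ℂ} (ht : t ∈ UP) (n : ℕ) : t - n ∈ UP := by
  have : 0 < t.im := ht
  simpa [UP] using this

theorem nat_cobounded' {t : ℂ} (ht : t ∈ UP) :
    Tendsto (fun M : ℕ => t - M) atTop (Bornology.cobounded ℂ ⊓ 𝓟 UP) := by
  refine tendsto_inf.2 ⟨?_, tendsto_principal.2 (Eventually.of_forall fun M => subn_mem ht M)⟩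
  rw [← tendsto_norm_atTop_iff_cobounded]
  refine tendsto_atTop_mono (fun M => ?_)
    (tendsto_atTop_add_const_right atTop (-‖t‖) tendsto_natCast_atTop_atTop)
  have h1 : ‖(M : ℂ)‖ ≤ ‖t - M‖ + ‖t‖ := by
    calc ‖(M : ℂ)‖ = ‖(M - t) + t‖ := by congr 1; ring
      _ ≤ ‖M - t‖ + ‖t‖ := norm_add_le _ _
      _ = ‖t - M‖ + ‖t‖ := by rw [norm_sub_rev]
  have h2 : ‖(M : ℂ)‖ = (M : ℝ) := by simp
  rw [h2] at h1
  linarith

end Angle

section XK
variable {p r D R : ℝ} {V W : ℂ → ℂ}

open Angle in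
theorem angle_bound (hp : 0 < p) (hpr : p < r) (hD : 0 < D) (hV : SHM p r 0 D 1 R V)
    (hW : Ext p r 0 1 V W) {t : ℂ} (ht : t ∈ UP) (n : ℕ) :
    ∑ j ∈ Finset.range n, arg (kap p r (W (t + j))) ≤ 3 * π := by
  have hfar := far_c hD hV hW
  -- the threshold
  obtain ⟨R0, hR0⟩ : ∃ R0 : ℝ, ∀ u ∈ UP, R0 < ‖u‖ → ‖cc p r D W u - 1‖ < 1 / 4 := by
    have h1 := (Metric.tendsto_nhds.1 hfar) (1 / 4) (by norm_num)
    rw [eventually_inf_principal, ← comap_norm_atTop, eventually_comap] at h1
    obtain ⟨R1, hR1⟩ := eventually_atTop.1 h1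
    refine ⟨R1, fun u hu hn => ?_⟩
    have := hR1 _ hn.le u rfl hu
    rwa [dist_eq_norm] at this
  have hlim : Tendsto (fun M : ℕ => 3 * π + arg (cc p r D W (t + M) / cc p r D W (t - M)))
      atTop (𝓝 (3 * π)) := by
    have h1 := (hfar.comp (nat_cobounded ht)).div (hfar.comp (nat_cobounded' ht)) one_ne_zero
    rw [div_one] at h1
    have h2 : ContinuousAt arg (1:ℂ) := continuousAt_arg (by simp)
    have h3 := h2.tendsto.comp h1
    rw [arg_one] at h3
    have h4 := h3.const_add (3 * π)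
    rw [add_zero] at h4
    exact h4
  refine ge_of_tendsto hlim ?_
  obtain ⟨M0, hM0⟩ := exists_nat_gt (|t.re| + R0)
  filter_upwards [eventually_ge_atTop (max M0 n)] with M hM
  have hM1 : |t.re| + R0 < M := by
    have : (M0 : ℝ) ≤ M := by exact_mod_cast (le_max_left _ _).trans hM
    linarith
  have hMn : n ≤ M := (le_max_right _ _).trans hM
  have hs : t - M ∈ UP := subn_mem ht M
  have hkey : ∀ x : ℝ, (x = M ∨ x = -M) → ∀ y : ℝ, 0 ≤ y →
      ‖cc p r D W (t + x + y * I) - 1‖ < 1 / 4 := by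
    intro x hx y hy
    apply hR0
    · exact ray_mem (add_mem ht x) hy
    · have h1 : |(t + x + y * I).re| ≤ ‖t + x + y * I‖ := Complex.abs_re_le_norm _
      have h2 : (t + x + y * I).re = t.re + x := by simp
      rw [h2] at h1
      refine lt_of_lt_of_le ?_ h1
      have hM2 : (0:ℝ) ≤ M := Nat.cast_nonneg M
      have h3 : |x| = M := by
        rcases hx with h | h
        · rw [h, abs_of_nonneg hM2]
        · rw [h, abs_neg, abs_of_nonneg hM2]
      have h4 : |x| ≤ |t.re + x| + |t.re| := by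
        calc |x| = |(t.re + x) - t.re| := by congr 1; ring
          _ ≤ |t.re + x| + |t.re| := abs_sub _ _
      linarith
  have hls := long_sum hp hpr hD hV hW hs (2 * M)
    (fun y hy => by
      have := hkey (-M) (Or.inr rfl) y hy
      have e : t + ((-M : ℝ) : ℂ) + y * I = t - M + y * I := by push_cast; ring
      rwa [e] at this)
    (fun y hy => by
      have := hkey M (Or.inl rfl) y hy
      have e : t + ((M : ℝ) : ℂ) + y * I = t - M + y * I + ((2 * M : ℕ) : ℂ) := by
        push_cast; ring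
      rwa [e] at this)
  have him := congrArg Complex.im hls
  have e1 : t - (M : ℂ) + ((2 * M : ℕ) : ℂ) = t + M := by push_cast; ring
  rw [e1] at him
  simp only [sub_im, add_im, im_sum, log_im, zero_im] at him
  have e2 : (3 * log (1 + ((2 * M : ℕ) : ℂ) / (t - M))).im =
      3 * arg (1 + ((2 * M : ℕ) : ℂ) / (t - M)) := by
    rw [mul_im, log_im]
    simp
  rw [e2] at him
  have h1 : -π < arg (1 + ((2 * M : ℕ) : ℂ) / (t - M)) := neg_pi_lt_arg _
  have hpos : ∀ j : ℕ, 0 ≤ arg (kap p r (W (t - M + j))) := fun j =>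
    arg_nonneg_iff.2 (le_of_lt (kap_up hp hpr (hW.up _ (addn_mem hs j))))
  have h2 : ∑ j ∈ Finset.range n, arg (kap p r (W (t + j))) ≤
      ∑ j ∈ Finset.range (2 * M), arg (kap p r (W (t - M + j))) := by
    have h3 : ∑ j ∈ Finset.range n, arg (kap p r (W (t + j))) =
        ∑ j ∈ Finset.Ico M (M + n), arg (kap p r (W (t - M + j))) := by
      rw [Finset.sum_Ico_eq_sum_range]
      simp only [add_tsub_cancel_left]
      refine Finset.sum_congr rfl fun j _ => ?_
      have e3 : t - (M : ℂ) + ((M + j : ℕ) : ℂ) = t + j := by push_cast; ring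
      rw [e3]
    rw [h3]
    refine Finset.sum_le_sum_of_subset_of_nonneg ?_ fun j _ _ => hpos j
    intro j hj
    rw [Finset.mem_Ico] at hj
    rw [Finset.mem_range]
    omega
  linarith

end XK

end Pool.Agent.MP_ae5b4e_an_ALG
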