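import Mathlib
import Pool.Agent.Lib.MP_ae5b4e_an_ALG.Kap

/-!
# MP_ae5b4e_an, algebraic tables: the exact angle sum

The bound of the angle sums is applied at points close to `t0 - δ`: the terms at the two ends are
then close to `π`.
-/

set_option autoImplicit false

noncomputable section

namespace Pool.Agent.MP_ae5b4e_an_ALG

open Filter Topology Set Metric Complex
open scoped Real

namespace AngleSum

theorem isOpen_UP : IsOpen UP := isOpen_lt continuous_const Complex.continuous_im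

/-- a function with positive derivative is smaller on the left and larger on the right -/
theorem lt_of_deriv {f : ℝ → ℝ} {a m : ℝ} (h : HasDerivAt f m a) (hm : 0 < m) :
    (∀ᶠ x in 𝓝[<] a, f x < f a) ∧ (∀ᶠ x in 𝓝[>] a, f a < f x) := by
  have h1 := hasDerivAt_iff_tendsto_slope.1 h
  have h2 : ∀ᶠ x in 𝓝[≠] a, 0 < slope f a x := h1.eventually (lt_mem_nhds hm)
  constructor
  · have h3 : ∀ᶠ x in 𝓝[<] a, 0 < slope f a x :=
      h2.filter_mono (nhdsWithin_mono a fun x hx => ne_of_lt hx)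
    filter_upwards [h3, self_mem_nhdsWithin] with x hx hxa
    rw [slope_def_field] at hx
    have hxa' : x - a < 0 := sub_neg.2 hxa
    by_contra hc
    push Not at hc
    have := div_nonpos_of_nonneg_of_nonpos (sub_nonneg.2 hc) hxa'.le
    linarith
  · have h3 : ∀ᶠ x in 𝓝[>] a, 0 < slope f a x :=
      h2.filter_mono (nhdsWithin_mono a fun x hx => ne_of_gt hx)
    filter_upwards [h3, self_mem_nhdsWithin] with x hx hxa
    rw [slope_def_field] at hx
    have hxa' : 0 < x - a := sub_pos.2 hxa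
    by_contra hc
    push Not at hc
    have := div_nonpos_of_nonpos_of_nonneg (sub_nonpos.2 hc) hxa'.le
    linarith

/-- the real function of a germ which is real on the real axis -/
theorem real_germ {F : ℂ → ℂ} {a b m : ℝ} (hF : AnalyticAt ℂ F a) (hb : F a = b)
    (hr : ∀ᶠ t in 𝓝 (a : ℂ), F ((starRingEnd ℂ) t) = (starRingEnd ℂ) (F t))
    (hm : deriv F a = m) :
    ∃ f : ℝ → ℝ, HasDerivAt f m a ∧ f a = b ∧
      ∀ᶠ x : ℝ in 𝓝 a, F (x : ℂ) = f x ∧ ContinuousAt F (x : ℂ) := by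
  refine ⟨fun x => (F x).re, ?_, ?_, ?_⟩
  · have h1 : HasDerivAt F (m : ℂ) (a : ℂ) := by
      rw [← hm]
      exact hF.differentiableAt.hasDerivAt
    have h2 := h1.real_of_complex
    simpa using h2
  · simp only [hb, ofReal_re]
  · have h1 : ∀ᶠ t in 𝓝 (a : ℂ), F ((starRingEnd ℂ) t) = (starRingEnd ℂ) (F t) ∧
        ContinuousAt F t := by
      filter_upwards [hr, hF.eventually_analyticAt] with t ht ht2
      exact ⟨ht, ht2.continuousAt⟩
    have h2 : Tendsto (fun x : ℝ => (x : ℂ)) (𝓝 a) (𝓝 (a : ℂ)) :=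
      Complex.continuous_ofReal.continuousAt
    filter_upwards [h2.eventually h1] with x hx
    refine ⟨?_, hx.2⟩
    have h3 := hx.1
    rw [conj_ofReal] at h3
    exact ((conj_eq_iff_re.1 h3.symm)).symm

/-- points of a ball around a real point, seen from a close real point -/
theorem ev_shift {P : ℂ → Prop} (h : ∀ᶠ τ in 𝓝[UP] (0 : ℂ), P τ) :
    ∀ᶠ δ : ℝ in 𝓝[>] (0 : ℝ), ∀ᶠ τ in 𝓝[UP] (-(δ : ℂ)), P τ := by
  obtain ⟨ρ, hρ, hP⟩ := Metric.mem_nhdsWithin_iff.1 h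
  have h1 : ∀ᶠ δ : ℝ in 𝓝[>] (0 : ℝ), δ < ρ := by
    filter_upwards [Ioo_mem_nhdsGT hρ] with δ hδ using hδ.2
  filter_upwards [h1, self_mem_nhdsWithin] with δ hδ hδ0
  have h2 : -(δ : ℂ) ∈ ball (0 : ℂ) ρ := by
    rw [mem_ball_zero_iff, norm_neg, norm_real, Real.norm_eq_abs, abs_of_pos hδ0]
    exact hδ
  have h3 : ball (0 : ℂ) ρ ∩ UP ∈ 𝓝[UP] (-(δ : ℂ)) :=
    inter_mem (mem_nhdsWithin_of_mem_nhds (isOpen_ball.mem_nhds h2)) self_mem_nhdsWithin
  filter_upwards [h3] with τ hτ using hP hτ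

theorem neBot_UP (x : ℝ) : NeBot (𝓝[UP] (x : ℂ)) := by
  rw [← mem_closure_iff_nhdsWithin_neBot]
  have h1 : Tendsto (fun s : ℝ => (x : ℂ) + s * I) (𝓝[>] 0) (𝓝 (x : ℂ)) := by
    have : ContinuousAt (fun s : ℝ => (x : ℂ) + s * I) 0 := by fun_prop
    have h2 := this.tendsto
    simp only [ofReal_zero, zero_mul, add_zero] at h2
    exact h2.mono_left nhdsWithin_le_nhds
  refine mem_closure_of_tendsto h1 ?_
  filter_upwards [self_mem_nhdsWithin] with s hs
  have hs' : 0 < s := hs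
  simpa [UP] using hs'

variable {p r D R : ℝ} {V W : ℂ → ℂ}

/-- the argument at a real boundary value -/
theorem arg_lim (hp : 0 < p) (hpr : p < r) (hup : ∀ t ∈ UP, W t ∈ UP) {a x : ℝ} {b : ℂ}
    (h0 : p < |x|) (h1 : |x| < r) (hb : ∀ τ ∈ UP, (a : ℂ) + τ ∈ UP)
    (h : Tendsto (fun τ => W (a + τ)) (𝓝[UP] b) (𝓝 (x : ℂ))) :
    Tendsto (fun τ => arg (kap p r (W (a + τ)))) (𝓝[UP] b) (𝓝 π) := by
  have h2 : Tendsto (fun τ => W (a + τ)) (𝓝[UP] b) (𝓝[UP] (x : ℂ)) := by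
    refine tendsto_nhdsWithin_iff.2 ⟨h, ?_⟩
    filter_upwards [self_mem_nhdsWithin] with τ hτ using hup _ (hb τ hτ)
  exact (kap_real hp hpr h0 h1).comp h2

theorem add_UP (a : ℝ) {τ : ℂ} (h : τ ∈ UP) : (a : ℂ) + τ ∈ UP := by
  have h' : 0 < τ.im := h
  show 0 < ((a : ℂ) + τ).im
  simpa using h'

/-- the left end -/
theorem left_lim (hp : 0 < p) (hpr : p < r) (hup : ∀ t ∈ UP, W t ∈ UP) {t0 : ℝ} {y φ : ℂ → ℂ}
    (h : XD p r W t0 y φ) :
    ∀ᶠ δ : ℝ in 𝓝[>] (0 : ℝ),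
      Tendsto (fun τ => arg (kap p r (W (t0 + τ)))) (𝓝[UP] (-(δ : ℂ))) (𝓝 π) := by
  obtain ⟨κ, hκ, hκ'⟩ := h.y_der
  obtain ⟨m, hm, hm'⟩ := h.φ_der
  obtain ⟨f, hf1, hf2, hf3⟩ := real_germ (F := y) (a := 0) (b := 0) (m := -κ)
    (by simpa using h.y_ana) (by simpa using h.y_zero) (by simpa using h.y_real)
    (by simpa using hκ')
  obtain ⟨g, hg1, hg2, hg3⟩ := real_germ (F := φ) (a := 0) (b := -p) (m := -m)
    (by simpa using h.φ_ana) (by simpa using h.φ_zero) (by simpa using h.φ_real)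
    (by simpa using hm')
  have hpr0 : 0 < p / r := div_pos hp (hp.trans hpr)
  -- the value `y (-δ)`
  have hneg : Tendsto (fun δ : ℝ => -δ) (𝓝[>] 0) (𝓝[<] 0) := by
    refine tendsto_nhdsWithin_iff.2 ⟨?_, ?_⟩
    · have : ContinuousAt (fun δ : ℝ => -δ) 0 := by fun_prop
      have h2 := this.tendsto
      rw [neg_zero] at h2
      exact h2.mono_left nhdsWithin_le_nhds
    · filter_upwards [self_mem_nhdsWithin] with δ hδ
      exact neg_neg_of_pos (show (0 : ℝ) < δ from hδ)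
  have hfpos : ∀ᶠ δ : ℝ in 𝓝[>] (0 : ℝ), 0 < f (-δ) := by
    have h1 := (lt_of_deriv (f := fun x => -f x) (a := 0) (m := κ)
      (by have h0 := hf1.neg; rw [neg_neg] at h0; exact h0) hκ).1
    filter_upwards [hneg.eventually h1] with δ hδ
    rw [hf2] at hδ
    linarith
  have hf0 : Tendsto (fun δ : ℝ => f (-δ)) (𝓝[>] 0) (𝓝 0) := by
    have h1 : Tendsto f (𝓝 0) (𝓝 0) := by
      have := hf1.continuousAt.tendsto
      rwa [hf2] at this
    exact h1.comp (hneg.mono_right nhdsWithin_le_nhds)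
  have hfev : ∀ᶠ δ : ℝ in 𝓝[>] (0 : ℝ), y (-(δ : ℂ)) = f (-δ) ∧ ContinuousAt y (-(δ : ℂ)) := by
    have h1 := (hneg.mono_right nhdsWithin_le_nhds).eventually hf3
    filter_upwards [h1] with δ hδ
    simpa using hδ
  -- the power
  have hs0 : Tendsto (fun δ : ℝ => f (-δ) ^ (p / r)) (𝓝[>] 0) (𝓝[>] 0) := by
    refine tendsto_nhdsWithin_iff.2 ⟨?_, ?_⟩
    · have h1 : ContinuousAt (fun x : ℝ => x ^ (p / r)) 0 :=
        Real.continuousAt_rpow_const 0 (p / r) (Or.inr hpr0.le)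
      have h2 := h1.tendsto
      rw [Real.zero_rpow hpr0.ne'] at h2
      exact h2.comp hf0
    · filter_upwards [hfpos] with δ hδ
      exact Real.rpow_pos_of_pos hδ _
  have hg_lt : ∀ᶠ s : ℝ in 𝓝[>] (0 : ℝ), g s < -p := by
    have h1 := (lt_of_deriv (f := fun x => -g x) (a := 0) (m := m)
      (by have h0 := hg1.neg; rw [neg_neg] at h0; exact h0) hm).2
    filter_upwards [h1] with s hs
    rw [hg2] at hs
    linarith
  have hg_gt : ∀ᶠ s : ℝ in 𝓝[>] (0 : ℝ), -r < g s := by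
    have h1 : Tendsto g (𝓝 0) (𝓝 (-p)) := by
      have := hg1.continuousAt.tendsto
      rwa [hg2] at this
    exact (h1.mono_left nhdsWithin_le_nhds).eventually (lt_mem_nhds (by linarith))
  have hgev : ∀ᶠ s : ℝ in 𝓝[>] (0 : ℝ), φ (s : ℂ) = g s ∧ ContinuousAt φ (s : ℂ) :=
    hg3.filter_mono nhdsWithin_le_nhds
  filter_upwards [hfpos, hfev, hs0.eventually hg_lt, hs0.eventually hg_gt, hs0.eventually hgev,
    ev_shift h.eq] with δ h1 h2 h3 h4 h5 h6
  have hlim : Tendsto (fun τ => W (t0 + τ)) (𝓝[UP] (-(δ : ℂ)))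
      (𝓝 ((g (f (-δ) ^ (p / r)) : ℝ) : ℂ)) := by
    have hy : y (-(δ : ℂ)) ∈ slitPlane := by
      rw [h2.1]
      exact Or.inl (by simpa using h1)
    have hpow : ContinuousAt (fun τ => y τ ^ ((p / r : ℝ) : ℂ)) (-(δ : ℂ)) :=
      (continuousAt_cpow_const hy).comp h2.2
    have hval : y (-(δ : ℂ)) ^ ((p / r : ℝ) : ℂ) = ((f (-δ) ^ (p / r) : ℝ) : ℂ) := by
      rw [h2.1, Complex.ofReal_cpow h1.le]
    have hφ : ContinuousAt (fun τ => φ (y τ ^ ((p / r : ℝ) : ℂ))) (-(δ : ℂ)) := by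
      have hφ' : ContinuousAt φ (y (-(δ : ℂ)) ^ ((p / r : ℝ) : ℂ)) := by
        rw [hval]
        exact h5.2
      exact ContinuousAt.comp (g := φ) (f := fun τ => y τ ^ ((p / r : ℝ) : ℂ)) hφ' hpow
    have h7 := hφ.tendsto
    rw [hval, h5.1] at h7
    refine (h7.mono_left nhdsWithin_le_nhds).congr' ?_
    filter_upwards [h6] with τ hτ using hτ.2.symm
  have hneg' : g (f (-δ) ^ (p / r)) < 0 := by linarith
  exact arg_lim hp hpr hup (by rw [abs_of_neg hneg']; linarith)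
    (by rw [abs_of_neg hneg']; linarith) (fun τ hτ => add_UP t0 hτ) hlim

/-- the right end -/
theorem right_lim (hp : 0 < p) (hpr : p < r) (hup : ∀ t ∈ UP, W t ∈ UP) {a : ℝ} {Vr : ℂ → ℂ}
    (h : RealAt W a r Vr) :
    ∀ᶠ δ : ℝ in 𝓝[>] (0 : ℝ),
      Tendsto (fun τ => arg (kap p r (W (a + τ)))) (𝓝[UP] (-(δ : ℂ))) (𝓝 π) := by
  obtain ⟨hana, hval, hreal, ⟨m, hm, hm'⟩, heq⟩ := h
  obtain ⟨f, hf1, hf2, hf3⟩ := real_germ hana hval hreal hm'
  have hsh : Tendsto (fun δ : ℝ => a - δ) (𝓝[>] 0) (𝓝[<] a) := by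
    refine tendsto_nhdsWithin_iff.2 ⟨?_, ?_⟩
    · have : ContinuousAt (fun δ : ℝ => a - δ) 0 := by fun_prop
      have h2 := this.tendsto
      rw [sub_zero] at h2
      exact h2.mono_left nhdsWithin_le_nhds
    · filter_upwards [self_mem_nhdsWithin] with δ hδ
      exact sub_lt_self a hδ
  have hlt : ∀ᶠ δ : ℝ in 𝓝[>] (0 : ℝ), f (a - δ) < r := by
    filter_upwards [hsh.eventually (lt_of_deriv hf1 hm).1] with δ hδ
    rwa [hf2] at hδ
  have hgt : ∀ᶠ δ : ℝ in 𝓝[>] (0 : ℝ), p < f (a - δ) := by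
    have h1 : Tendsto f (𝓝 a) (𝓝 r) := by
      have := hf1.continuousAt.tendsto
      rwa [hf2] at this
    exact ((h1.comp (hsh.mono_right nhdsWithin_le_nhds))).eventually (lt_mem_nhds hpr)
  have hev : ∀ᶠ δ : ℝ in 𝓝[>] (0 : ℝ), Vr ((a - δ : ℝ) : ℂ) = f (a - δ) ∧
      ContinuousAt Vr ((a - δ : ℝ) : ℂ) :=
    (hsh.mono_right nhdsWithin_le_nhds).eventually hf3
  have heq' : ∀ᶠ τ in 𝓝[UP] (0 : ℂ), W (a + τ) = Vr (a + τ) := by
    have h1 : Tendsto (fun τ : ℂ => (a : ℂ) + τ) (𝓝[UP] 0) (𝓝[UP] (a : ℂ)) := by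
      refine tendsto_nhdsWithin_iff.2 ⟨?_, ?_⟩
      · have : ContinuousAt (fun τ : ℂ => (a : ℂ) + τ) 0 := by fun_prop
        have h2 := this.tendsto
        rw [add_zero] at h2
        exact h2.mono_left nhdsWithin_le_nhds
      · filter_upwards [self_mem_nhdsWithin] with τ hτ using add_UP a hτ
    exact h1.eventually heq
  filter_upwards [hlt, hgt, hev, ev_shift heq'] with δ h1 h2 h3 h4
  have hlim : Tendsto (fun τ => W (a + τ)) (𝓝[UP] (-(δ : ℂ))) (𝓝 ((f (a - δ) : ℝ) : ℂ)) := by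
    have hc : ContinuousAt (fun τ : ℂ => Vr (a + τ)) (-(δ : ℂ)) := by
      have hc1 : ContinuousAt Vr ((a : ℂ) + -(δ : ℂ)) := by
        have := h3.2
        rwa [ofReal_sub, sub_eq_add_neg] at this
      exact ContinuousAt.comp (g := Vr) (f := fun τ : ℂ => (a : ℂ) + τ) hc1 (by fun_prop)
    have h5 := hc.tendsto
    have h6 : Vr ((a : ℂ) + -(δ : ℂ)) = ((f (a - δ) : ℝ) : ℂ) := by
      have := h3.1
      rwa [ofReal_sub, sub_eq_add_neg] at this
    rw [h6] at h5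
    refine (h5.mono_left nhdsWithin_le_nhds).congr' ?_
    filter_upwards [h4] with τ hτ using hτ.symm
  have hpos : 0 < f (a - δ) := by linarith
  exact arg_lim hp hpr hup (by rw [abs_of_pos hpos]; linarith)
    (by rw [abs_of_pos hpos]; linarith) (fun τ hτ => add_UP a hτ) hlim

end AngleSum

section XL
variable {p r D R : ℝ} {V W : ℂ → ℂ}

/-- the exact sum -/
theorem angle_sum (hp : 0 < p) (hpr : p < r) (hW : Ext p r 0 1 V W)
    (hb : ∀ t ∈ UP, ∀ n : ℕ, ∑ j ∈ Finset.range n, arg (kap p r (W (t + j))) ≤ 3 * π)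
    {t0 : ℝ} {y φ : ℂ → ℂ} (h : XD p r W t0 y φ) {n : ℕ} {z : ℕ → ℂ}
    (hz : Chain p r W t0 n z) :
    ∑ j ∈ Finset.Ico 1 n, arg (kap p r (z j)) ≤ π := by
  obtain ⟨Vr, hVr⟩ := h.right
  have hn : 1 ≤ n := le_trans (by norm_num) hz.two
  -- it is enough to bound up to `(n + 1) e`
  have key : ∀ e : ℝ, 0 < e → ∑ j ∈ Finset.Ico 1 n, arg (kap p r (z j)) ≤ π + (n + 1) * e := by
    intro e he
    -- the middle terms
    have hmid : ∀ᶠ τ in 𝓝[UP] (0 : ℂ), ∀ j ∈ Finset.Ico 1 n,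
        arg (kap p r (z j)) - e < arg (kap p r (W (t0 + j + τ))) := by
      rw [Finset.eventually_all]
      intro j hj
      rw [Finset.mem_Ico] at hj
      have h1 := (kap_arg_cont hp hpr (hz.up j hj.1 hj.2)).comp (hz.lim j hj.2.le)
      exact h1.eventually (lt_mem_nhds (by linarith))
    have hr' : (1 : ℝ) - t0 = t0 + (n + 1) := by
      rw [hz.t0_eq]
      ring
    obtain ⟨δ, h1, h2, h3⟩ := ((AngleSum.left_lim hp hpr hW.up h).and
      ((AngleSum.right_lim hp hpr hW.up hVr).and (AngleSum.ev_shift hmid))).exists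
    have : NeBot (𝓝[UP] (-(δ : ℂ))) := by
      have := AngleSum.neBot_UP (-δ)
      rwa [ofReal_neg] at this
    have h1' := h1.eventually (lt_mem_nhds (show π - e < π by linarith))
    have h2' := h2.eventually (lt_mem_nhds (show π - e < π by linarith))
    have h4 : ∀ᶠ τ in 𝓝[UP] (-(δ : ℂ)), τ ∈ UP := self_mem_nhdsWithin
    obtain ⟨τ, k1, k2, k3, hτ⟩ := (h1'.and (h2'.and (h3.and h4))).exists
    have hsum := hb (t0 + τ) (AngleSum.add_UP t0 hτ) (n + 2)
    rw [Finset.sum_range_succ, Finset.sum_range_succ, Finset.range_eq_Ico,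
      Finset.sum_eq_sum_Ico_succ_bot (show 0 < n by omega)] at hsum
    have e0 : (t0 : ℂ) + τ + ((0 : ℕ) : ℂ) = t0 + τ := by
      push_cast
      ring
    have en : (t0 : ℂ) + τ + ((n + 1 : ℕ) : ℂ) = ((1 - t0 : ℝ) : ℂ) + τ := by
      rw [hr']
      push_cast
      ring
    rw [e0, en] at hsum
    have hpos : 0 < arg (kap p r (W (t0 + τ + (n : ℂ)))) := by
      have hm : kap p r (W (t0 + τ + (n : ℂ))) ∈ UP := by
        refine kap_up hp hpr (hW.up _ ?_)
        have hτ' : 0 < τ.im := hτ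
        show 0 < ((t0 : ℂ) + τ + (n : ℂ)).im
        simpa using hτ'
      have hm' : 0 < (kap p r (W (t0 + τ + (n : ℂ)))).im := hm
      have h5 : 0 ≤ arg (kap p r (W (t0 + τ + (n : ℂ)))) := arg_nonneg_iff.2 hm'.le
      refine lt_of_le_of_ne h5 fun h6 => ?_
      have h7 := (arg_eq_zero_iff.1 h6.symm).2
      rw [h7] at hm'
      exact lt_irrefl _ hm'
    have hmids : ∑ j ∈ Finset.Ico 1 n, (arg (kap p r (z j)) - e) ≤
        ∑ j ∈ Finset.Ico (0 + 1) n, arg (kap p r (W (t0 + τ + (j : ℂ)))) := by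
      refine Finset.sum_le_sum fun j hj => ?_
      have h5 := k3 j hj
      have h6 : (t0 : ℂ) + τ + (j : ℂ) = t0 + j + τ := by ring
      rw [h6]
      exact h5.le
    rw [Finset.sum_sub_distrib, Finset.sum_const, Nat.card_Ico, nsmul_eq_mul,
      Nat.cast_sub hn, Nat.cast_one] at hmids
    nlinarith [hmids, hsum, k1, k2, hpos]
  refine le_of_forall_pos_le_add fun ε hε => ?_
  have hn1 : (0 : ℝ) < n + 1 := by positivity
  have h5 := key (ε / (n + 1)) (div_pos hε hn1)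
  rwa [mul_div_cancel₀ _ hn1.ne'] at h5
end XL

end Pool.Agent.MP_ae5b4e_an_ALG
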