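import Mathlib
import Pool.Agent.Lib.MP_ae5b4e_an_ALG.HfA

/-!
# MP_ae5b4e_an, algebraic tables: the boundary values of `Hf`
-/

set_option autoImplicit false

noncomputable section

namespace Pool.Agent.MP_ae5b4e_an_ALG

open Filter Topology Set Metric Complex
open scoped Real

section VC
variable {p r : ℝ}

namespace Bdry

/-- the logarithm is continuous on the closed upper half plane without zero -/
theorem log_contOn : ContinuousOn Complex.log {z : ℂ | 0 ≤ z.im ∧ z ≠ 0} := by
  intro z hz
  obtain ⟨h0, h1⟩ := hz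
  by_cases him : z.im = 0
  · rcases lt_trichotomy z.re 0 with hre | hre | hre
    · have := Complex.continuousWithinAt_log_of_re_neg_of_im_zero hre him
      exact this.mono (fun w hw => hw.1)
    · exact absurd (Complex.ext hre him) h1
    · exact (continuousAt_clog (Or.inl hre)).continuousWithinAt
  · exact (continuousAt_clog (Or.inr him)).continuousWithinAt

theorem ne1 {r : ℝ} {V : ℂ} (h0 : V ≠ 0) (h1 : V ≠ r) : (1 - (r : ℂ) / V) ≠ 0 := by
  intro h
  apply h1
  field_simp at h
  linear_combination h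

theorem ne2 {p : ℝ} {V : ℂ} (h0 : V ≠ 0) (h1 : V ≠ -p) : (1 + (p : ℂ) / V) ≠ 0 := by
  intro h
  apply h1
  field_simp at h
  linear_combination h

theorem ofReal1 (r x : ℝ) : (1 - (r : ℂ) / (x : ℂ)) = ((1 - r / x : ℝ) : ℂ) := by
  push_cast; ring

theorem ofReal2 (p x : ℝ) : (1 + (p : ℂ) / (x : ℂ)) = ((1 + p / x : ℝ) : ℂ) := by
  push_cast; ring

theorem im_eq (p r x : ℝ) :
    (Hb p r x).im = p * Complex.arg ((1 - r / x : ℝ) : ℂ) -
      r * Complex.arg ((1 + p / x : ℝ) : ℂ) := by
  unfold Hb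
  rw [ofReal1, ofReal2, Complex.conj_ofReal, Complex.add_im, Complex.im_ofReal_mul,
    Complex.im_ofReal_mul, Complex.conj_im, Complex.log_im, Complex.log_im]
  ring

end Bdry

open Bdry

theorem Hb_contOn (hp : 0 < p) (hr : 0 < r) :
    ContinuousOn (Hb p r) {V : ℂ | 0 ≤ V.im ∧ V ≠ 0 ∧ V ≠ -p ∧ V ≠ r} := by
  unfold Hb
  apply ContinuousOn.add
  · apply ContinuousOn.mul continuousOn_const
    apply log_contOn.comp (t := {z : ℂ | 0 ≤ z.im ∧ z ≠ 0})
    · exact continuousOn_const.sub (continuousOn_const.div continuousOn_id fun V hV => hV.2.1)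
    · rintro V ⟨h0, h1, h2, h3⟩
      refine ⟨?_, ne1 h1 h3⟩
      rw [HfA.im_one_sub]
      exact div_nonneg (mul_nonneg hr.le h0) (Complex.normSq_nonneg _)
  · apply ContinuousOn.mul continuousOn_const
    apply Complex.continuous_conj.comp_continuousOn
    apply log_contOn.comp (t := {z : ℂ | 0 ≤ z.im ∧ z ≠ 0})
    · apply Complex.continuous_conj.comp_continuousOn
      exact continuousOn_const.add (continuousOn_const.div continuousOn_id fun V hV => hV.2.1)
    · rintro V ⟨h0, h1, h2, h3⟩
      refine ⟨?_, ?_⟩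
      · rw [Complex.conj_im, HfA.im_one_add, neg_neg]
        exact div_nonneg (mul_nonneg hp.le h0) (Complex.normSq_nonneg _)
      · rw [Ne, map_eq_zero]
        exact ne2 h1 h2

theorem Hb_re (p r x : ℝ) :
    (Hb p r x).re = p * Real.log |1 - r / x| + r * Real.log |1 + p / x| := by
  unfold Hb
  rw [ofReal1, ofReal2, Complex.conj_ofReal, Complex.add_re, Complex.re_ofReal_mul,
    Complex.re_ofReal_mul, Complex.conj_re, Complex.log_re, Complex.log_re, Complex.norm_real,
    Complex.norm_real]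
  rfl

theorem Hb_I3 (hp : 0 < p) (hr : 0 < r) {x : ℝ} (h0 : 0 < x) (h1 : x < r) :
    (Hb p r x).im = p * π := by
  rw [im_eq, Complex.arg_ofReal_of_neg, Complex.arg_ofReal_of_nonneg]
  · ring
  · positivity
  · have : 1 < r / x := (one_lt_div h0).2 h1
    linarith

theorem Hb_I2 (hp : 0 < p) (hr : 0 < r) {x : ℝ} (h0 : -p < x) (h1 : x < 0) :
    (Hb p r x).im = -(r * π) := by
  rw [im_eq, Complex.arg_ofReal_of_nonneg, Complex.arg_ofReal_of_neg]
  · ring
  · have : 1 < p / (-x) := (one_lt_div (by linarith)).2 (by linarith)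
    rw [div_neg] at this
    linarith
  · have : r / x ≤ 0 := div_nonpos_of_nonneg_of_nonpos hr.le h1.le
    linarith

theorem Hb_I14 (hp : 0 < p) (hr : 0 < r) {x : ℝ} (h : x < -p ∨ r < x) :
    (Hb p r x).im = 0 ∧ (Hb p r x).re < 0 := by
  have hx : x ≠ 0 := by rintro rfl; rcases h with h | h <;> linarith
  have h1 : 0 < 1 - r / x := by
    rcases h with h | h
    · have : r / x ≤ 0 := div_nonpos_of_nonneg_of_nonpos hr.le (by linarith)
      linarith
    · have : r / x < 1 := (div_lt_one (by linarith)).2 h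
      linarith
  have h2 : 0 < 1 + p / x := by
    rcases h with h | h
    · have : p / (-x) < 1 := (div_lt_one (by linarith)).2 (by linarith)
      rw [div_neg] at this
      linarith
    · have : 0 < p / x := div_pos hp (by linarith)
      linarith
  constructor
  · rw [im_eq, Complex.arg_ofReal_of_nonneg h1.le, Complex.arg_ofReal_of_nonneg h2.le]
    ring
  · rw [Hb_re, abs_of_pos h1, abs_of_pos h2]
    have e1 : Real.log (1 - r / x) < (1 - r / x) - 1 := by
      apply Real.log_lt_sub_one_of_pos h1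
      intro h
      have : r / x = 0 := by linarith
      rw [div_eq_zero_iff] at this
      rcases this with h | h
      · exact hr.ne' h
      · exact hx h
    have e2 : Real.log (1 + p / x) ≤ (1 + p / x) - 1 := Real.log_le_sub_one_of_pos h2
    have e3 := mul_lt_mul_of_pos_left e1 hp
    have e4 := mul_le_mul_of_nonneg_left e2 hr.le
    have e5 : p * (1 - r / x - 1) + r * (1 + p / x - 1) = 0 := by ring
    linarith

namespace Bdry

theorem hasDeriv (p r : ℝ) {x : ℝ} (h0 : x ≠ 0) (h1 : x ≠ -p) (h2 : x ≠ r) :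
    HasDerivAt (fun x : ℝ => (Hb p r x).re) (p * r * (p + r) / (x * (x + p) * (x - r))) x := by
  have hfun : (fun x : ℝ => (Hb p r x).re) =
      fun x : ℝ => p * Real.log (1 - r / x) + r * Real.log (1 + p / x) := by
    funext x
    rw [Hb_re, Real.log_abs, Real.log_abs]
  rw [hfun]
  have a1 : (1 - r / x) ≠ 0 := by
    intro h; apply h2; field_simp at h; linarith
  have a2 : (1 + p / x) ≠ 0 := by
    intro h; apply h1; field_simp at h; linarith
  have a3 : x + p ≠ 0 := by intro h; apply h1; linarith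
  have a4 : x - r ≠ 0 := by intro h; apply h2; linarith
  have d1 : HasDerivAt (fun x : ℝ => 1 - r / x) (r / x ^ 2) x := by
    have := ((hasDerivAt_const x r).div (hasDerivAt_id x) h0).const_sub 1
    refine this.congr_deriv ?_
    simp; ring
  have d2 : HasDerivAt (fun x : ℝ => 1 + p / x) (-(p / x ^ 2)) x := by
    have := ((hasDerivAt_const x p).div (hasDerivAt_id x) h0).const_add 1
    refine this.congr_deriv ?_
    simp; ring
  have := ((d1.log a1).const_mul p).add ((d2.log a2).const_mul r)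
  refine this.congr_deriv ?_
  have b1 : (1 - r / x) = (x - r) / x := by field_simp
  have b2 : (1 + p / x) = (x + p) / x := by field_simp
  rw [b1, b2]
  field_simp
  ring

theorem anti {s : Set ℝ} (hs : Convex ℝ s) (ho : IsOpen s) (p r : ℝ)
    (h : ∀ x ∈ s, x ≠ 0 ∧ x ≠ -p ∧ x ≠ r ∧ p * r * (p + r) / (x * (x + p) * (x - r)) < 0) :
    StrictAntiOn (fun x : ℝ => (Hb p r x).re) s := by
  apply strictAntiOn_of_deriv_neg hs
  · intro x hx
    obtain ⟨h0, h1, h2, h3⟩ := h x hx
    exact (hasDeriv p r h0 h1 h2).continuousAt.continuousWithinAt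
  · intro x hx
    rw [ho.interior_eq] at hx
    obtain ⟨h0, h1, h2, h3⟩ := h x hx
    rw [(hasDeriv p r h0 h1 h2).deriv]
    exact h3

theorem mono {s : Set ℝ} (hs : Convex ℝ s) (ho : IsOpen s) (p r : ℝ)
    (h : ∀ x ∈ s, x ≠ 0 ∧ x ≠ -p ∧ x ≠ r ∧ 0 < p * r * (p + r) / (x * (x + p) * (x - r))) :
    StrictMonoOn (fun x : ℝ => (Hb p r x).re) s := by
  apply strictMonoOn_of_deriv_pos hs
  · intro x hx
    obtain ⟨h0, h1, h2, h3⟩ := h x hx
    exact (hasDeriv p r h0 h1 h2).continuousAt.continuousWithinAt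
  · intro x hx
    rw [ho.interior_eq] at hx
    obtain ⟨h0, h1, h2, h3⟩ := h x hx
    rw [(hasDeriv p r h0 h1 h2).deriv]
    exact h3

end Bdry

theorem Hb_mono1 (hp : 0 < p) (hr : 0 < r) :
    StrictAntiOn (fun x : ℝ => (Hb p r x).re) (Iio (-p)) := by
  apply anti (convex_Iio _) isOpen_Iio
  intro x hx
  rw [mem_Iio] at hx
  refine ⟨by linarith, by linarith, by linarith, ?_⟩
  apply div_neg_of_pos_of_neg (by positivity)
  have : 0 < (x) * (x + p) := mul_pos_of_neg_of_neg (by linarith) (by linarith)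
  exact mul_neg_of_pos_of_neg this (by linarith)

theorem Hb_mono2 (hp : 0 < p) (hr : 0 < r) :
    StrictMonoOn (fun x : ℝ => (Hb p r x).re) (Ioo (-p) 0) := by
  apply mono (convex_Ioo _ _) isOpen_Ioo
  rintro x ⟨hx, hx'⟩
  refine ⟨by linarith, by linarith, by linarith, ?_⟩
  apply div_pos (by positivity)
  have : (x) * (x + p) < 0 := mul_neg_of_neg_of_pos (by linarith) (by linarith)
  exact mul_pos_of_neg_of_neg this (by linarith)

theorem Hb_mono3 (hp : 0 < p) (hr : 0 < r) :
    StrictAntiOn (fun x : ℝ => (Hb p r x).re) (Ioo 0 r) := by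
  apply anti (convex_Ioo _ _) isOpen_Ioo
  rintro x ⟨hx, hx'⟩
  refine ⟨by linarith, by linarith, by linarith, ?_⟩
  apply div_neg_of_pos_of_neg (by positivity)
  have : 0 < (x) * (x + p) := mul_pos (by linarith) (by linarith)
  exact mul_neg_of_pos_of_neg this (by linarith)

theorem Hb_mono4 (hp : 0 < p) (hr : 0 < r) :
    StrictMonoOn (fun x : ℝ => (Hb p r x).re) (Ioi r) := by
  apply mono (convex_Ioi _) isOpen_Ioi
  intro x hx
  rw [mem_Ioi] at hx
  refine ⟨by linarith, by linarith, by linarith, ?_⟩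
  apply div_pos (by positivity)
  have : 0 < (x) * (x + p) := mul_pos (by linarith) (by linarith)
  exact mul_pos this (by linarith)

end VC

end Pool.Agent.MP_ae5b4e_an_ALG
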