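import Pool.Agent.Lib.MP_ae5b4e_an_ALG.Bdry
set_option autoImplicit false
noncomputable section
namespace Pool.Agent.MP_ae5b4e_an_ALG
open Filter Topology Set Metric Complex
open scoped Real

section VD
variable {p r : ℝ}

namespace BdryB

theorem re_eq (p r : ℝ) (V : ℂ) :
    (Hf p r V).re = p * Real.log ‖1 - r / V‖ + r * Real.log ‖1 + p / V‖ := by
  rw [Hf, add_re, re_ofReal_mul, re_ofReal_mul, log_re, log_re]

theorem re_eq' (p r : ℝ) (V : ℂ) : (Hb p r V).re = (Hf p r V).re := by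
  rw [Hb, Hf, add_re, add_re, re_ofReal_mul, re_ofReal_mul, re_ofReal_mul, conj_re, log_re,
    log_re, log_re, norm_conj]

theorem tendsto_one_sub (a : ℝ) {b : ℂ} (hb : b ≠ 0) :
    Tendsto (fun V : ℂ => ‖1 + a / V‖) (𝓝[≠] b) (𝓝 ‖1 + a / b‖) := by
  have h : ContinuousAt (fun V : ℂ => ‖1 + a / V‖) b :=
    (continuousAt_const.add (continuousAt_const.div continuousAt_id hb)).norm
  exact h.tendsto.mono_left nhdsWithin_le_nhds

theorem log_const (a : ℝ) {b : ℂ} (hb : b ≠ 0) (h : 1 + a / b ≠ 0) :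
    Tendsto (fun V : ℂ => Real.log ‖1 + a / V‖) (𝓝[≠] b) (𝓝 (Real.log ‖1 + a / b‖)) :=
  (Real.continuousAt_log (norm_ne_zero_iff.2 h)).tendsto.comp (tendsto_one_sub a hb)

theorem log_bot (a : ℝ) {b : ℂ} (hb : b ≠ 0) (h : 1 + a / b = 0) :
    Tendsto (fun V : ℂ => Real.log ‖1 + a / V‖) (𝓝[≠] b) atBot := by
  refine Real.tendsto_log_nhdsNE_zero.comp (tendsto_nhdsWithin_iff.2 ⟨?_, ?_⟩)
  · have := tendsto_one_sub a hb
    rwa [h, norm_zero] at this
  · have h0 : ∀ᶠ V : ℂ in 𝓝[≠] b, V ≠ 0 := nhdsWithin_le_nhds (isOpen_ne.mem_nhds hb)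
    filter_upwards [h0, self_mem_nhdsWithin] with V hV hVb
    have hab : (a : ℂ) = -b := by
      field_simp at h
      linear_combination h
    simp only [mem_compl_iff, mem_singleton_iff, norm_eq_zero]
    intro h1
    apply hVb
    rw [hab] at h1
    field_simp at h1
    simp only [mem_singleton_iff]
    linear_combination h1

theorem log_top (a : ℝ) (ha : a ≠ 0) :
    Tendsto (fun V : ℂ => Real.log ‖1 + a / V‖) (𝓝[≠] 0) atTop := by
  apply Real.tendsto_log_atTop.comp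
  have h1 : Tendsto (fun V : ℂ => |a| * ‖V⁻¹‖ - 1) (𝓝[≠] 0) atTop :=
    tendsto_atTop_add_const_right _ _
      (tendsto_norm_inv_nhdsNE_zero_atTop.const_mul_atTop (abs_pos.2 ha))
  refine tendsto_atTop_mono (fun V => ?_) h1
  have h2 := norm_sub_norm_le ((a : ℂ) / V) (-1)
  rw [norm_neg, norm_one, sub_neg_eq_add, add_comm ((a : ℂ) / V) 1, norm_div, norm_real,
    Real.norm_eq_abs] at h2
  rw [norm_inv, ← div_eq_mul_inv]
  exact h2

theorem re_eq2 (p r : ℝ) :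
    (fun V => (Hf p r V).re) = fun V : ℂ =>
      p * Real.log ‖1 + ((-r : ℝ) : ℂ) / V‖ + r * Real.log ‖1 + (p : ℂ) / V‖ := by
  funext V
  rw [re_eq, ofReal_neg, neg_div, sub_eq_add_neg]

end BdryB

theorem Hf_tendsto_inf (p r : ℝ) : Tendsto (Hf p r) (Bornology.cobounded ℂ) (𝓝 0) := by
  have hV : Tendsto (fun V : ℂ => V⁻¹) (Bornology.cobounded ℂ) (𝓝 0) := tendsto_inv₀_cobounded
  have h1 : Tendsto (fun V : ℂ => (1 : ℂ) - r / V) (Bornology.cobounded ℂ) (𝓝 1) := by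
    have := (tendsto_const_nhds (x := (1 : ℂ))).sub (hV.const_mul (r : ℂ))
    simpa [div_eq_mul_inv] using this
  have h2 : Tendsto (fun V : ℂ => (1 : ℂ) + p / V) (Bornology.cobounded ℂ) (𝓝 1) := by
    have := (tendsto_const_nhds (x := (1 : ℂ))).add (hV.const_mul (p : ℂ))
    simpa [div_eq_mul_inv] using this
  have hl : ContinuousAt Complex.log 1 := continuousAt_clog one_mem_slitPlane
  have h3 := (hl.tendsto.comp h1).const_mul (p : ℂ)
  have h4 := (hl.tendsto.comp h2).const_mul (r : ℂ)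
  have h5 := h3.add h4
  rw [Complex.log_one, mul_zero, mul_zero, add_zero] at h5
  exact h5

theorem Hf_re_r (hp : 0 < p) (hr : 0 < r) :
    Tendsto (fun V => (Hf p r V).re) (𝓝[≠] (r : ℂ)) atBot := by
  have hr0 : (r : ℂ) ≠ 0 := ofReal_ne_zero.2 hr.ne'
  rw [BdryB.re_eq2]
  refine Tendsto.atBot_add ((BdryB.log_bot (-r) hr0 ?_).const_mul_atBot hp)
    ((BdryB.log_const p hr0 ?_).const_mul r)
  · rw [ofReal_neg, neg_div, div_self hr0, add_neg_cancel]
  · rw [← ofReal_div, ← ofReal_one, ← ofReal_add, Ne, ofReal_eq_zero]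
    positivity

theorem Hf_re_mp (hp : 0 < p) (hr : 0 < r) :
    Tendsto (fun V => (Hf p r V).re) (𝓝[≠] (-p : ℂ)) atBot := by
  have hp0 : (-p : ℂ) ≠ 0 := neg_ne_zero.2 (ofReal_ne_zero.2 hp.ne')
  rw [BdryB.re_eq2]
  refine Tendsto.add_atBot ((BdryB.log_const (-r) hp0 ?_).const_mul p)
    ((BdryB.log_bot p hp0 ?_).const_mul_atBot hr)
  · rw [ofReal_neg, neg_div_neg_eq, ← ofReal_div, ← ofReal_one, ← ofReal_add, Ne, ofReal_eq_zero]
    positivity
  · rw [div_neg, div_self (ofReal_ne_zero.2 hp.ne'), add_neg_cancel]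

theorem Hf_re_zero (hp : 0 < p) (hr : 0 < r) :
    Tendsto (fun V => (Hf p r V).re) (𝓝[≠] (0 : ℂ)) atTop := by
  rw [BdryB.re_eq2]
  exact ((BdryB.log_top (-r) (neg_ne_zero.2 hr.ne')).const_mul_atTop hp).atTop_add_atTop
    ((BdryB.log_top p hp.ne').const_mul_atTop hr)

namespace BdryB

theorem ne_iff (p r : ℝ) {x : ℝ} (h0 : x ≠ 0) (h : x ≠ -p) : (1 : ℂ) + p / x ≠ 0 := by
  rw [← ofReal_div, ← ofReal_one, ← ofReal_add, Ne, ofReal_eq_zero]
  intro h1
  field_simp at h1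
  exact h (by linarith)

theorem contOn (p r : ℝ) {s : Set ℝ} (hs : ∀ x ∈ s, x ≠ 0 ∧ x ≠ -p ∧ x ≠ r) :
    ContinuousOn (fun x : ℝ => (Hb p r x).re) s := by
  intro x hx
  obtain ⟨h0, h1, h2⟩ := hs x hx
  have hx0 : (x : ℂ) ≠ 0 := ofReal_ne_zero.2 h0
  have e : (fun x : ℝ => (Hb p r x).re) = fun x : ℝ =>
      p * Real.log ‖1 + ((-r : ℝ) : ℂ) / (x : ℂ)‖ + r * Real.log ‖1 + (p : ℂ) / (x : ℂ)‖ := by
    funext x
    rw [re_eq', congrFun (re_eq2 p r) (x : ℂ)]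
  rw [e]
  have hc : ∀ a : ℝ, x ≠ -a → ContinuousAt (fun x : ℝ => Real.log ‖1 + (a : ℂ) / (x : ℂ)‖) x := by
    intro a ha
    have h3 : ContinuousAt (fun x : ℝ => ‖1 + (a : ℂ) / (x : ℂ)‖) x :=
      (continuousAt_const.add (continuousAt_const.div continuous_ofReal.continuousAt hx0)).norm
    exact h3.log (norm_ne_zero_iff.2 (ne_iff a r h0 ha))
  have h4 := hc (-r) (by rwa [neg_neg])
  have h5 := hc p h1
  exact ((h4.const_mul p).add (h5.const_mul r)).continuousWithinAt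

theorem real_lim {f : Filter ℝ} {l : Filter ℝ} {a : ℝ} (hf : f ≤ 𝓝[≠] a)
    (h : Tendsto (fun V => (Hf p r V).re) (𝓝[≠] (a : ℂ)) l) :
    Tendsto (fun x : ℝ => (Hb p r x).re) f l := by
  have h1 : Tendsto (fun x : ℝ => (x : ℂ)) f (𝓝[≠] (a : ℂ)) := by
    refine tendsto_nhdsWithin_iff.2 ⟨?_, ?_⟩
    · exact (continuous_ofReal.continuousAt.tendsto.mono_left nhdsWithin_le_nhds).mono_left hf
    · filter_upwards [hf self_mem_nhdsWithin] with x hx
      simpa using hx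
  have h2 := h.comp h1
  refine h2.congr fun x => ?_
  rw [Function.comp_apply, re_eq']

theorem real_inf {f : Filter ℝ} (hf : Tendsto (fun x : ℝ => |x|) f atTop) :
    Tendsto (fun x : ℝ => (Hb p r x).re) f (𝓝 0) := by
  have h1 : Tendsto (fun x : ℝ => (x : ℂ)) f (Bornology.cobounded ℂ) := by
    rw [← tendsto_norm_atTop_iff_cobounded]
    simpa using hf
  have h2 := (continuous_re.tendsto 0).comp ((Hf_tendsto_inf p r).comp h1)
  rw [zero_re] at h2
  refine h2.congr fun x => ?_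
  rw [Function.comp_apply, Function.comp_apply, re_eq']

end BdryB

theorem Hb_surj1 (hp : 0 < p) (hr : 0 < r) {z : ℂ} (h0 : z.im = 0) (h1 : z.re < 0) :
    ∃ x : ℝ, x < -p ∧ Hb p r x = z := by
  have hc := BdryB.contOn p r (s := Iio (-p)) fun x hx => by
    have hx' : x < -p := hx
    exact ⟨by linarith, by linarith, by linarith⟩
  have hm := Hf_re_mp hp hr
  rw [← ofReal_neg] at hm
  have h2 := isPreconnected_Iio.intermediate_value_Iio (l₁ := 𝓝[<] (-p)) (l₂ := atBot)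
    (le_principal_iff.2 self_mem_nhdsWithin) (le_principal_iff.2 (Iio_mem_atBot _)) hc
    (BdryB.real_lim (nhdsWithin_mono _ fun x hx => ne_of_lt hx) hm)
    (BdryB.real_inf tendsto_abs_atBot_atTop)
  obtain ⟨x, hx, hxz⟩ := h2 h1
  exact ⟨x, hx, Complex.ext hxz ((Hb_I14 hp hr (Or.inl hx)).1.trans h0.symm)⟩

theorem Hb_surj4 (hp : 0 < p) (hr : 0 < r) {z : ℂ} (h0 : z.im = 0) (h1 : z.re < 0) :
    ∃ x : ℝ, r < x ∧ Hb p r x = z := by
  have hc := BdryB.contOn p r (s := Ioi r) fun x hx => by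
    have hx' : r < x := hx
    exact ⟨by linarith, by linarith, by linarith⟩
  have h2 := isPreconnected_Ioi.intermediate_value_Iio (l₁ := 𝓝[>] r) (l₂ := atTop)
    (le_principal_iff.2 self_mem_nhdsWithin) (le_principal_iff.2 (Ioi_mem_atTop _)) hc
    (BdryB.real_lim (nhdsWithin_mono _ fun x hx => ne_of_gt hx) (Hf_re_r hp hr))
    (BdryB.real_inf tendsto_abs_atTop_atTop)
  obtain ⟨x, hx, hxz⟩ := h2 h1
  exact ⟨x, hx, Complex.ext hxz ((Hb_I14 hp hr (Or.inr hx)).1.trans h0.symm)⟩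

theorem Hb_surj3 (hp : 0 < p) (hr : 0 < r) {z : ℂ} (h0 : z.im = p * π) :
    ∃ x : ℝ, 0 < x ∧ x < r ∧ Hb p r x = z := by
  have hc := BdryB.contOn p r (s := Ioo 0 r) fun x hx => by
    obtain ⟨hx1, hx2⟩ := hx
    exact ⟨by linarith, by linarith, by linarith⟩
  have hz := Hf_re_zero hp hr
  rw [← ofReal_zero] at hz
  have : NeBot (𝓝[<] r) := inferInstance
  have h2 := isPreconnected_Ioo.intermediate_value_Iii (l₁ := 𝓝[<] r) (l₂ := 𝓝[>] 0)
    (le_principal_iff.2 (Ioo_mem_nhdsLT hr)) (le_principal_iff.2 (Ioo_mem_nhdsGT hr)) hc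
    (BdryB.real_lim (nhdsWithin_mono _ fun x hx => ne_of_lt hx) (Hf_re_r hp hr))
    (BdryB.real_lim (nhdsWithin_mono _ fun x hx => ne_of_gt hx) hz)
  obtain ⟨x, hx, hxz⟩ := h2 (mem_univ z.re)
  exact ⟨x, hx.1, hx.2, Complex.ext hxz ((Hb_I3 hp hr hx.1 hx.2).trans h0.symm)⟩

theorem Hb_surj2 (hp : 0 < p) (hr : 0 < r) {z : ℂ} (h0 : z.im = -(r * π)) :
    ∃ x : ℝ, -p < x ∧ x < 0 ∧ Hb p r x = z := by
  have hp' : -p < 0 := by linarith
  have hc := BdryB.contOn p r (s := Ioo (-p) 0) fun x hx => by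
    obtain ⟨hx1, hx2⟩ := hx
    exact ⟨by linarith, by linarith, by linarith⟩
  have hz := Hf_re_zero hp hr
  rw [← ofReal_zero] at hz
  have hm := Hf_re_mp hp hr
  rw [← ofReal_neg] at hm
  have h2 := isPreconnected_Ioo.intermediate_value_Iii (l₁ := 𝓝[>] (-p)) (l₂ := 𝓝[<] 0)
    (le_principal_iff.2 (Ioo_mem_nhdsGT hp')) (le_principal_iff.2 (Ioo_mem_nhdsLT hp')) hc
    (BdryB.real_lim (nhdsWithin_mono _ fun x hx => ne_of_gt hx) hm)
    (BdryB.real_lim (nhdsWithin_mono _ fun x hx => ne_of_lt hx) hz)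
  obtain ⟨x, hx, hxz⟩ := h2 (mem_univ z.re)
  exact ⟨x, hx.1, hx.2, Complex.ext hxz ((Hb_I2 hp hr hx.1 hx.2).trans h0.symm)⟩
end VD

end Pool.Agent.MP_ae5b4e_an_ALG
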