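import Mathlib
import Pool.Agent.Lib.MP_ae5b4e_an_ALG.HfA

set_option autoImplicit false

/-!
# MP_ae5b4e_an, algebraic tables: analytic continuation across the real line (module VF)
-/

noncomputable section

namespace Pool.Agent.MP_ae5b4e_an_ALG

open Filter Topology Set Metric Complex
open scoped Real

namespace Branch

variable {p r : ℝ}

lemma log_up {u : ℂ} (hu : 0 < u.im) : Complex.log u = Complex.log (-1 * u) + π * I := by
  have h1 : (-1 * u) = -u := by ring
  rw [h1]
  apply Complex.ext
  · simp [Complex.log_re]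
  · simp [Complex.log_im, Complex.arg_neg_eq_arg_sub_pi_of_im_pos hu]

lemma log_down {u : ℂ} (hu : u.im < 0) : Complex.log u = Complex.log (-1 * u) + -(π * I) := by
  have h1 : (-1 * u) = -u := by ring
  rw [h1]
  apply Complex.ext
  · simp [Complex.log_re]
  · simp [Complex.log_im, Complex.arg_neg_eq_arg_add_pi_of_im_neg hu]

lemma log_neg_real {y : ℝ} (hy : y < 0) : Complex.log (y : ℂ) = Complex.log (-1 * y) + π * I := by
  have h1 : (-1 * (y : ℂ)) = ((-y : ℝ) : ℂ) := by push_cast; ring
  rw [h1]
  apply Complex.ext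
  · simp [Complex.log_re]
  · simp [Complex.log_im, Complex.arg_ofReal_of_neg hy]
    rw [← Complex.ofReal_neg, Complex.arg_ofReal_of_nonneg (by linarith : (0:ℝ) ≤ -y)]

lemma im_A {w : ℂ} (hr : 0 < r) (hw : 0 < w.im) : 0 < (1 - r / w).im := by
  have hw0 : w ≠ 0 := by rintro rfl; simp at hw
  have : (1 - r / w).im = r * w.im / Complex.normSq w := by
    simp [Complex.div_im]
  rw [this]
  have := Complex.normSq_pos.2 hw0
  positivity

lemma im_B {w : ℂ} (hp : 0 < p) (hw : 0 < w.im) : (1 + p / w).im < 0 := by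
  have hw0 : w ≠ 0 := by rintro rfl; simp at hw
  have : (1 + p / w).im = -(p * w.im / Complex.normSq w) := by
    simp [Complex.div_im]
  rw [this]
  have := Complex.normSq_pos.2 hw0
  have : 0 < p * w.im / Complex.normSq w := by positivity
  linarith

lemma core {v : ℂ} (h1 : v ≠ 0) (sA sB cA cB : ℂ) (hsA : sA ≠ 0) (hsB : sB ≠ 0)
    (hp : 0 < p) (hr : 0 < r)
    (hA : sA * (1 - r / v) ∈ slitPlane) (hB : sB * (1 + p / v) ∈ slitPlane)
    (hAw : ∀ u : ℂ, 0 < u.im → Complex.log u = Complex.log (sA * u) + cA)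
    (hBw : ∀ u : ℂ, u.im < 0 → Complex.log u = Complex.log (sB * u) + cB)
    (hAv : Complex.log (1 - r / v) = Complex.log (sA * (1 - r / v)) + cA)
    (hBv : (starRingEnd ℂ) (Complex.log ((starRingEnd ℂ) (1 + p / v))) =
      Complex.log (sB * (1 + p / v)) + cB) :
    ∃ T : ℂ → ℂ, AnalyticAt ℂ T v ∧ T v = Hb p r v ∧
      (∀ᶠ w in 𝓝 v, HasDerivAt T (p * r * (p + r) / Pf p r w) w) ∧
      (∀ᶠ w in 𝓝[UP] v, Hf p r w = T w) := by
  set T : ℂ → ℂ := fun w => (p : ℂ) * (Complex.log (sA * (1 - r / w)) + cA) +
    (r : ℂ) * (Complex.log (sB * (1 + p / w)) + cB) with hT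
  have hcA : ContinuousAt (fun w : ℂ => sA * (1 - r / w)) v := by
    refine ContinuousAt.mul continuousAt_const (ContinuousAt.sub continuousAt_const ?_)
    exact ContinuousAt.div continuousAt_const continuousAt_id h1
  have hcB : ContinuousAt (fun w : ℂ => sB * (1 + p / w)) v := by
    refine ContinuousAt.mul continuousAt_const (ContinuousAt.add continuousAt_const ?_)
    exact ContinuousAt.div continuousAt_const continuousAt_id h1
  have hder : ∀ᶠ w in 𝓝 v, HasDerivAt T (p * r * (p + r) / Pf p r w) w := by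
    filter_upwards [hcA.eventually (isOpen_slitPlane.mem_nhds hA),
      hcB.eventually (isOpen_slitPlane.mem_nhds hB), isOpen_ne.mem_nhds h1] with w hw1 hw2 hw3
    have hw0 : w ≠ 0 := hw3
    have hA0 : (1 : ℂ) - r / w ≠ 0 := by
      intro h
      rw [h, mul_zero] at hw1
      exact (Complex.mem_slitPlane_iff.1 hw1).elim (fun h => by simp at h) (fun h => by simp at h)
    have hB0 : (1 : ℂ) + p / w ≠ 0 := by
      intro h
      rw [h, mul_zero] at hw2
      exact (Complex.mem_slitPlane_iff.1 hw2).elim (fun h => by simp at h) (fun h => by simp at h)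
    have hwr : w - r ≠ 0 := by
      intro h
      apply hA0
      have : w = r := sub_eq_zero.1 h
      rw [← this, div_self hw0, sub_self]
    have hwp : w + p ≠ 0 := by
      intro h
      apply hB0
      have : w = -p := eq_neg_of_add_eq_zero_left h
      rw [this]
      have hp0 : (p : ℂ) ≠ 0 := by exact_mod_cast hp.ne'
      rw [div_neg, div_self hp0]
      ring
    have e1 : HasDerivAt (fun w : ℂ => sA * (1 - r / w)) (sA * (r / w ^ 2)) w := by
      have h := ((hasDerivAt_inv hw0).const_mul (r : ℂ)).const_sub 1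
      have h2 := h.const_mul sA
      refine HasDerivAt.congr_deriv (h2.congr_of_eventuallyEq ?_) ?_
      · exact Eventually.of_forall fun z => by simp [div_eq_mul_inv]
      · field_simp
    have e2 : HasDerivAt (fun w : ℂ => sB * (1 + p / w)) (sB * (-(p / w ^ 2))) w := by
      have h := ((hasDerivAt_inv hw0).const_mul (p : ℂ)).const_add 1
      have h2 := h.const_mul sB
      refine HasDerivAt.congr_deriv (h2.congr_of_eventuallyEq ?_) ?_
      · exact Eventually.of_forall fun z => by simp [div_eq_mul_inv]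
      · field_simp
    have f1 := e1.clog hw1
    have f2 := e2.clog hw2
    have g := ((f1.add_const cA).const_mul (p : ℂ)).add ((f2.add_const cB).const_mul (r : ℂ))
    refine g.congr_deriv ?_
    have hA' : w * (1 - r / w) = w - r := by field_simp
    have hB' : w * (1 + p / w) = w + p := by field_simp
    have k1 : sA * (r / w ^ 2) / (sA * (1 - r / w)) = r / (w * (w - r)) := by
      rw [← hA', mul_div_mul_left _ _ hsA]
      field_simp
    have k2 : sB * (-(p / w ^ 2)) / (sB * (1 + p / w)) = -(p / (w * (w + p))) := by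
      rw [← hB', mul_div_mul_left _ _ hsB]
      field_simp
    rw [k1, k2]
    unfold Pf
    field_simp
    ring
  refine ⟨T, ?_, ?_, hder, ?_⟩
  · rw [Complex.analyticAt_iff_eventually_differentiableAt]
    filter_upwards [hder] with w hw
    exact hw.differentiableAt
  · simp only [hT, Hb]
    rw [hAv, hBv]
  · filter_upwards [self_mem_nhdsWithin] with w hw
    have hw' : 0 < w.im := hw
    simp only [hT, Hf]
    rw [hAw _ (im_A hr hw'), hBw _ (im_B hp hw')]

end Branch

section VF
variable {p r : ℝ}

/-- analytic continuation from above -/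
theorem exists_branch (hp : 0 < p) (hr : 0 < r) {v : ℂ} (h0 : 0 ≤ v.im) (h1 : v ≠ 0)
    (h2 : v ≠ -p) (h3 : v ≠ r) :
    ∃ T : ℂ → ℂ, AnalyticAt ℂ T v ∧ T v = Hb p r v ∧
      (∀ᶠ w in 𝓝 v, HasDerivAt T (p * r * (p + r) / Pf p r w) w) ∧
      (∀ᶠ w in 𝓝[UP] v, Hf p r w = T w) := by
  rcases h0.lt_or_eq with h | h
  · -- the upper half plane
    have hA := Branch.im_A (r := r) hr h
    have hB := Branch.im_B (p := p) hp h
    refine Branch.core h1 1 1 0 0 one_ne_zero one_ne_zero hp hr ?_ ?_ (by simp) (by simp)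
      (by simp) ?_
    · rw [one_mul]; exact Complex.mem_slitPlane_iff.2 (Or.inr hA.ne')
    · rw [one_mul]; exact Complex.mem_slitPlane_iff.2 (Or.inr hB.ne)
    · rw [Complex.log_conj, Complex.conj_conj, one_mul, add_zero]
      intro h4
      rw [Complex.arg_eq_pi_iff] at h4
      exact hB.ne h4.2
  · -- real points
    set x : ℝ := v.re with hx
    have hv : v = (x : ℂ) := Complex.ext (by simp [hx]) (by simp [← h])
    have hx0 : x ≠ 0 := by rintro h4; apply h1; rw [hv, h4]; simp
    have hxp : x ≠ -p := by rintro h4; apply h2; rw [hv, h4]; simp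
    have hxr : x ≠ r := by rintro h4; apply h3; rw [hv, h4]
    have eA : (1 : ℂ) - r / v = ((1 - r / x : ℝ) : ℂ) := by rw [hv]; push_cast; rfl
    have eB : (1 : ℂ) + p / v = ((1 + p / x : ℝ) : ℂ) := by rw [hv]; push_cast; rfl
    have posA : ¬ (0 < x ∧ x < r) → 0 < 1 - r / x := by
      intro h4
      rcases lt_trichotomy x 0 with h5 | h5 | h5
      · have : r / x < 0 := div_neg_of_pos_of_neg hr h5
        linarith
      · exact absurd h5 hx0
      · have h6 : r < x := lt_of_le_of_ne (not_lt.1 fun h7 => h4 ⟨h5, h7⟩) (Ne.symm hxr)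
        have : r / x < 1 := (div_lt_one h5).2 h6
        linarith
    have posB : ¬ (-p < x ∧ x < 0) → 0 < 1 + p / x := by
      intro h4
      rcases lt_trichotomy x 0 with h5 | h5 | h5
      · have h6 : x < -p := lt_of_le_of_ne (not_lt.1 fun h7 => h4 ⟨h7, h5⟩) hxp
        have : -1 < p / x := by
          rw [lt_div_iff_of_neg h5]
          linarith
        linarith
      · exact absurd h5 hx0
      · have : 0 < p / x := div_pos hp h5
        linarith
    have conjpos : ∀ y : ℝ, 0 < y → (starRingEnd ℂ) (Complex.log ((starRingEnd ℂ) (y : ℂ))) =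
        Complex.log (1 * (y : ℂ)) + 0 := by
      intro y hy
      rw [Complex.conj_ofReal, one_mul, add_zero, ← Complex.ofReal_log hy.le, Complex.conj_ofReal]
    by_cases hI3 : 0 < x ∧ x < r
    · have hAneg : 1 - r / x < 0 := by
        have : 1 < r / x := (one_lt_div hI3.1).2 hI3.2
        linarith
      have hBpos := posB fun h4 => by linarith [h4.2, hI3.1]
      refine Branch.core h1 (-1) 1 (π * I) 0 (by norm_num) one_ne_zero hp hr ?_ ?_
        (fun u hu => Branch.log_up hu) (by simp) ?_ ?_
      · rw [eA]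
        have : (-1 : ℂ) * ((1 - r / x : ℝ) : ℂ) = ((-(1 - r / x) : ℝ) : ℂ) := by push_cast; ring
        rw [this]
        exact Complex.ofReal_mem_slitPlane.2 (by linarith)
      · rw [eB, one_mul]
        exact Complex.ofReal_mem_slitPlane.2 hBpos
      · rw [eA]; exact Branch.log_neg_real hAneg
      · rw [eB]; exact conjpos _ hBpos
    · have hApos := posA hI3
      by_cases hI2 : -p < x ∧ x < 0
      · have hBneg : 1 + p / x < 0 := by
          have : p / x < -1 := by
            rw [div_lt_iff_of_neg hI2.2]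
            linarith
          linarith
        refine Branch.core h1 1 (-1) 0 (-(π * I)) one_ne_zero (by norm_num) hp hr ?_ ?_
          (by simp) (fun u hu => Branch.log_down hu) (by simp) ?_
        · rw [eA, one_mul]
          exact Complex.ofReal_mem_slitPlane.2 hApos
        · rw [eB]
          have : (-1 : ℂ) * ((1 + p / x : ℝ) : ℂ) = ((-(1 + p / x) : ℝ) : ℂ) := by push_cast; ring
          rw [this]
          exact Complex.ofReal_mem_slitPlane.2 (by linarith)
        · rw [eB, Complex.conj_ofReal, Branch.log_neg_real hBneg]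
          have h5 : (-1 : ℂ) * ((1 + p / x : ℝ) : ℂ) = ((-(1 + p / x) : ℝ) : ℂ) := by
            push_cast; ring
          rw [h5, ← Complex.ofReal_log (by linarith), map_add, Complex.conj_ofReal, map_mul,
            Complex.conj_ofReal, Complex.conj_I]
          ring
      · have hBpos := posB hI2
        refine Branch.core h1 1 1 0 0 one_ne_zero one_ne_zero hp hr ?_ ?_ (by simp) (by simp)
          (by simp) ?_
        · rw [eA, one_mul]; exact Complex.ofReal_mem_slitPlane.2 hApos
        · rw [eB, one_mul]; exact Complex.ofReal_mem_slitPlane.2 hBpos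
        · rw [eB]; exact conjpos _ hBpos

/-- analytic continuation from below -/
theorem exists_branch' (hp : 0 < p) (hr : 0 < r) {v : ℂ} (h0 : v.im ≤ 0) (h1 : v ≠ 0)
    (h2 : v ≠ -p) (h3 : v ≠ r) :
    ∃ T : ℂ → ℂ, AnalyticAt ℂ T v ∧
      T v = (starRingEnd ℂ) (Hb p r ((starRingEnd ℂ) v)) ∧
      (∀ᶠ w in 𝓝 v, HasDerivAt T (p * r * (p + r) / Pf p r w) w) ∧
      (∀ᶠ w in 𝓝[{w : ℂ | w.im < 0}] v, Hf p r w = T w) := by
  have c0 : 0 ≤ ((starRingEnd ℂ) v).im := by rw [Complex.conj_im]; linarith
  have c1 : (starRingEnd ℂ) v ≠ 0 := by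
    intro h
    exact h1 ((map_eq_zero _).1 h)
  have c2 : (starRingEnd ℂ) v ≠ -p := by
    intro h
    apply h2
    have := congrArg (starRingEnd ℂ) h
    simpa using this
  have c3 : (starRingEnd ℂ) v ≠ r := by
    intro h
    apply h3
    have := congrArg (starRingEnd ℂ) h
    simpa using this
  obtain ⟨T, -, hTv, hTd, hTe⟩ := exists_branch hp hr c0 c1 c2 c3
  have hct : Tendsto (starRingEnd ℂ) (𝓝 v) (𝓝 ((starRingEnd ℂ) v)) :=
    Complex.continuous_conj.continuousAt
  have hder : ∀ᶠ w in 𝓝 v, HasDerivAt (fun w => (starRingEnd ℂ) (T ((starRingEnd ℂ) w)))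
      (p * r * (p + r) / Pf p r w) w := by
    filter_upwards [hct.eventually hTd] with w hw
    have h := hw.conj_conj
    rw [Complex.conj_conj] at h
    refine h.congr_deriv ?_
    simp [Pf]
  refine ⟨fun w => (starRingEnd ℂ) (T ((starRingEnd ℂ) w)), ?_, ?_, hder, ?_⟩
  · rw [Complex.analyticAt_iff_eventually_differentiableAt]
    filter_upwards [hder] with w hw
    exact hw.differentiableAt
  · simp only [hTv]
  · have hct' : Tendsto (starRingEnd ℂ) (𝓝[{w : ℂ | w.im < 0}] v)
        (𝓝[UP] ((starRingEnd ℂ) v)) := by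
      refine tendsto_nhdsWithin_iff.2 ⟨hct.mono_left nhdsWithin_le_nhds, ?_⟩
      filter_upwards [self_mem_nhdsWithin] with w hw
      show 0 < ((starRingEnd ℂ) w).im
      rw [Complex.conj_im]
      have : w.im < 0 := hw
      linarith
    filter_upwards [hct'.eventually hTe, self_mem_nhdsWithin] with w hw hw2
    have hw3 : w.im < 0 := hw2
    have hD : (starRingEnd ℂ) w ∈ Dm p r := by
      left
      rw [Complex.conj_im]
      linarith
    rw [← hw, ← Hf_conj hp hr hD, Complex.conj_conj]
end VF

end Pool.Agent.MP_ae5b4e_an_ALG
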