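import Pool.Agent.Lib.MP_ae5b4e_an_ALG.HfA

/-!
Module VB of the project ALG (MP_ae5b4e_an): the function `Hf` is injective on the upper half
plane and maps it to `Xs`.
-/

set_option autoImplicit false

noncomputable section

namespace Pool.Agent.MP_ae5b4e_an_ALG

open Filter Topology Set Metric Complex

open scoped Real

section VB
variable {p r : ℝ}

namespace VB

theorem ne_zero {V : ℂ} (hV : V ∈ UP) : V ≠ 0 := by
  rintro rfl
  exact lt_irrefl (0 : ℝ) hV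

theorem neg_inv_mem {V : ℂ} (hV : V ∈ UP) : -V⁻¹ ∈ UP := by
  have h0 := ne_zero hV
  have h1 : 0 < V.im := hV
  change 0 < (-V⁻¹).im
  rw [neg_im, inv_im, neg_div, neg_neg]
  exact div_pos h1 (normSq_pos.2 h0)

theorem im_neg (hp : 0 < p) (hr : 0 < r) {V : ℂ} (hV : V ∈ UP) :
    ((p * r * (p + r) / Pf p r V) * V ^ 2 : ℂ).im < 0 := by
  have h0 := ne_zero hV
  have h1 : 0 < V.im := hV
  have hP : Pf p r V ≠ 0 := Pf_ne hp hr (UP_subset_Dm hV)
  have hP' : V * (V + p) * (V - r) ≠ 0 := hP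
  have h2 : V + p ≠ 0 := fun h => hP' (by rw [h]; ring)
  have h3 : V - r ≠ 0 := fun h => hP' (by rw [h]; ring)
  set F : ℂ := V + (p - r) - (r * p : ℝ) * V⁻¹ with hF
  have hF1 : F = (V - r) * (V + p) / V := by
    rw [hF]
    push_cast
    field_simp
    ring
  have hF0 : F ≠ 0 := by
    rw [hF1]
    exact div_ne_zero (mul_ne_zero h3 h2) h0
  have hF2 : 0 < F.im := by
    have e : F.im = V.im + r * p * (V.im / normSq V) := by
      rw [hF, sub_im, add_im, sub_im, ofReal_im, ofReal_im, im_ofReal_mul, inv_im]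
      ring
    rw [e]
    have := div_pos h1 (normSq_pos.2 h0)
    positivity
  have e : (p * r * (p + r) / Pf p r V) * V ^ 2 = ((p * r * (p + r) : ℝ) : ℂ) * F⁻¹ := by
    rw [hF1]
    unfold Pf
    push_cast
    field_simp
  rw [e, im_ofReal_mul, inv_im]
  have h4 : 0 < F.im / normSq F := div_pos hF2 (normSq_pos.2 hF0)
  have h5 : 0 < p * r * (p + r) := by positivity
  rw [neg_div]
  nlinarith [mul_pos h5 h4]

theorem arg_bounds {V : ℂ} (hV : V ∈ UP) : 0 ≤ arg V ∧ arg V < π := by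
  have h1 : 0 < V.im := hV
  exact ⟨arg_nonneg_iff.2 h1.le, arg_lt_pi_iff.2 (Or.inr h1.ne')⟩

theorem log_quot {V W : ℂ} (hV : V ∈ UP) (hW : W ∈ UP) : log (W / V) = log W - log V := by
  obtain ⟨a1, a2⟩ := arg_bounds hV
  obtain ⟨b1, b2⟩ := arg_bounds hW
  rw [div_eq_mul_inv, log_mul (ne_zero hW) (inv_ne_zero (ne_zero hV)), log_inv _ a2.ne,
    sub_eq_add_neg]
  rw [arg_inv, if_neg a2.ne]
  exact ⟨by linarith, by linarith⟩

theorem Hf_eq {V : ℂ} (hV : V ∈ UP) : Hf p r V =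
    (p : ℂ) * (log (V - r) - log V) + (r : ℂ) * (log (V + p) - log V) := by
  have h0 := ne_zero hV
  have h1 : 0 < V.im := hV
  have hr' : V - r ∈ UP := by
    change 0 < (V - r).im
    simpa using h1
  have hp' : V + p ∈ UP := by
    change 0 < (V + p).im
    simpa using h1
  unfold Hf
  rw [← log_quot hV hr', ← log_quot hV hp']
  congr 3
  · field_simp
  · field_simp

theorem norm_eq {V : ℂ} (hV : V ∈ UP) : 0 < Real.sin (arg V) ∧
    Real.log ‖V‖ = Real.log V.im - Real.log (Real.sin (arg V)) := by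
  have h0 := ne_zero hV
  have h1 : 0 < V.im := hV
  have h2 : 0 < ‖V‖ := norm_pos_iff.2 h0
  rw [sin_arg]
  refine ⟨div_pos h1 h2, ?_⟩
  rw [Real.log_div h1.ne' h2.ne']
  ring

theorem re_pos (hp : 0 < p) (hr : 0 < r) {V : ℂ} (hV : V ∈ UP) (him : (Hf p r V).im = 0) :
    0 < (Hf p r V).re := by
  have h1 : 0 < V.im := hV
  have hr' : V - r ∈ UP := by
    change 0 < (V - r).im
    simpa using h1
  have hp' : V + p ∈ UP := by
    change 0 < (V + p).im
    simpa using h1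
  obtain ⟨s0, n0⟩ := norm_eq hV
  obtain ⟨s1, n1⟩ := norm_eq hr'
  obtain ⟨s2, n2⟩ := norm_eq hp'
  obtain ⟨a0, b0⟩ := arg_bounds hV
  obtain ⟨a1, b1⟩ := arg_bounds hr'
  obtain ⟨a2, b2⟩ := arg_bounds hp'
  have i1 : (V - r).im = V.im := by simp
  have i2 : (V + p).im = V.im := by simp
  rw [i1] at n1
  rw [i2] at n2
  rw [Hf_eq hV] at him ⊢
  rw [add_im, im_ofReal_mul, im_ofReal_mul, sub_im, sub_im, log_im, log_im, log_im] at him
  rw [add_re, re_ofReal_mul, re_ofReal_mul, sub_re, sub_re, log_re, log_re, log_re, n0, n1, n2]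
  have hne : arg (V - r) ≠ arg (V + p) := by
    intro h
    have h5 : ‖V - r‖ = ‖V + p‖ := by
      have e1 := sin_arg (V - r)
      have e2 := sin_arg (V + p)
      rw [h, e2, i1, i2] at e1
      have h6 : 0 < ‖V - r‖ := norm_pos_iff.2 (ne_zero hr')
      have h7 : 0 < ‖V + p‖ := norm_pos_iff.2 (ne_zero hp')
      rw [div_eq_div_iff h7.ne' h6.ne'] at e1
      exact mul_left_cancel₀ h1.ne' e1
    have h8 := congrArg re (ext_norm_arg h5 h)
    simp at h8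
    linarith
  have hpr : 0 < p + r := by linarith
  have w1 : 0 < p / (p + r) := div_pos hp hpr
  have w2 : 0 < r / (p + r) := div_pos hr hpr
  have w3 : p / (p + r) + r / (p + r) = 1 := by field_simp
  have J1 := strictConcaveOn_sin_Icc.2 ⟨a1, b1.le⟩ ⟨a2, b2.le⟩ hne w1 w2 w3
  have J2 := strictConcaveOn_log_Ioi.concaveOn.2 (x := Real.sin (arg (V - r))) s1
    (y := Real.sin (arg (V + p))) s2 w1.le w2.le w3
  simp only [smul_eq_mul] at J1 J2
  have e3 : p / (p + r) * arg (V - r) + r / (p + r) * arg (V + p) = arg V := by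
    field_simp
    linarith
  rw [e3] at J1
  have J3 := J2.trans_lt (Real.log_lt_log (by positivity) J1)
  have J4 := mul_lt_mul_of_pos_left J3 hpr
  have e4 : (p + r) * (p / (p + r) * Real.log (Real.sin (arg (V - r))) +
      r / (p + r) * Real.log (Real.sin (arg (V + p)))) =
      p * Real.log (Real.sin (arg (V - r))) + r * Real.log (Real.sin (arg (V + p))) := by
    field_simp
  rw [e4] at J4
  nlinarith

end VB

/-- `W = -1 / V`: the derivative of `H` with respect to `W` has negative imaginary part -/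
theorem Hf_injOn (hp : 0 < p) (hr : 0 < r) : InjOn (Hf p r) UP := by
  intro V₁ h₁ V₂ h₂ he
  by_contra hne
  set W₁ : ℂ := -V₁⁻¹ with hW₁
  set W₂ : ℂ := -V₂⁻¹ with hW₂
  have u₁ : W₁ ∈ UP := VB.neg_inv_mem h₁
  have u₂ : W₂ ∈ UP := VB.neg_inv_mem h₂
  have hd : W₁ - W₂ ≠ 0 := by
    rw [sub_ne_zero]
    intro h
    exact hne (inv_injective (neg_injective h))
  have hmem : ∀ s : ℝ, s ∈ Icc (0 : ℝ) 1 → W₂ + s * (W₁ - W₂) ∈ UP := by
    rintro s ⟨s0, s1⟩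
    have v₁ : 0 < W₁.im := u₁
    have v₂ : 0 < W₂.im := u₂
    change 0 < (W₂ + s * (W₁ - W₂)).im
    rw [add_im, im_ofReal_mul, sub_im]
    rcases s1.lt_or_eq with h | h
    · nlinarith [mul_pos (sub_pos.2 h) v₂, mul_nonneg s0 v₁.le]
    · rw [h]
      linarith
  let G : ℂ → ℂ := fun s => Hf p r (-(W₂ + s * (W₁ - W₂))⁻¹) / (W₁ - W₂)
  let G' : ℝ → ℂ := fun s => (p * r * (p + r) / Pf p r (-(W₂ + s * (W₁ - W₂))⁻¹)) *
    (-(W₂ + s * (W₁ - W₂))⁻¹) ^ 2
  have hG : ∀ s : ℝ, s ∈ Icc (0 : ℝ) 1 → HasDerivAt G (G' s) (s : ℂ) := by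
    intro s hs
    have hW := hmem s hs
    have hW0 := VB.ne_zero hW
    have hV : -(W₂ + s * (W₁ - W₂))⁻¹ ∈ UP := VB.neg_inv_mem hW
    have d1 : HasDerivAt (fun s : ℂ => W₂ + s * (W₁ - W₂)) (W₁ - W₂) (s : ℂ) := by
      simpa using ((hasDerivAt_id (s : ℂ)).mul_const (W₁ - W₂)).const_add W₂
    have d2 := (d1.inv hW0).neg
    have d3 := Hf_deriv hp hr (UP_subset_Dm (p := p) (r := r) hV)
    have d4 := (HasDerivAt.comp (s : ℂ) d3 d2).div_const (W₁ - W₂)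
    refine d4.congr_deriv ?_
    change _ = (p * r * (p + r) / Pf p r (-(W₂ + s * (W₁ - W₂))⁻¹)) *
      (-(W₂ + s * (W₁ - W₂))⁻¹) ^ 2
    have hq : -(-(W₁ - W₂) / (W₂ + s * (W₁ - W₂)) ^ 2) / (W₁ - W₂) =
        (-(W₂ + s * (W₁ - W₂))⁻¹) ^ 2 := by
      field_simp
    rw [mul_div_assoc, hq]
  have hg : ∀ s : ℝ, s ∈ Icc (0 : ℝ) 1 → HasDerivAt (fun s : ℝ => (G s).im) ((G' s).im) s := by
    intro s hs
    have d1 := (hG s hs).comp_ofReal
    exact (Complex.imCLM.hasFDerivAt (x := G s)).comp_hasDerivAt s d1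
  have e0 : (G ((0 : ℝ) : ℂ)).im = (G ((1 : ℝ) : ℂ)).im := by
    have f0 : -(W₂ + ((0 : ℝ) : ℂ) * (W₁ - W₂))⁻¹ = V₂ := by
      rw [ofReal_zero, zero_mul, add_zero, hW₂, inv_neg, neg_neg, inv_inv]
    have f1 : -(W₂ + ((1 : ℝ) : ℂ) * (W₁ - W₂))⁻¹ = V₁ := by
      rw [ofReal_one, one_mul, add_sub_cancel, hW₁, inv_neg, neg_neg, inv_inv]
    change (Hf p r (-(W₂ + ((0 : ℝ) : ℂ) * (W₁ - W₂))⁻¹) / (W₁ - W₂)).im =
      (Hf p r (-(W₂ + ((1 : ℝ) : ℂ) * (W₁ - W₂))⁻¹) / (W₁ - W₂)).im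
    rw [f0, f1, he]
  obtain ⟨s, hs, h0⟩ := exists_hasDerivAt_eq_zero (f := fun s : ℝ => (G s).im)
    (f' := fun s => (G' s).im) (zero_lt_one)
    (fun s hs => (hg s hs).continuousAt.continuousWithinAt) e0
    (fun s hs => hg s (Ioo_subset_Icc_self hs))
  have hV : -(W₂ + s * (W₁ - W₂))⁻¹ ∈ UP := VB.neg_inv_mem (hmem s (Ioo_subset_Icc_self hs))
  exact absurd h0 (VB.im_neg hp hr hV).ne

theorem Hf_mapsTo (hp : 0 < p) (hr : 0 < r) {V : ℂ} (hV : V ∈ UP) : Hf p r V ∈ Xs p r :=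
  ⟨(Hf_strip hp hr hV).1, (Hf_strip hp hr hV).2, VB.re_pos hp hr hV⟩

end VB

end Pool.Agent.MP_ae5b4e_an_ALG
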