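import Mathlib
import Pool.Agent.Lib.MP_ae5b4e_an_ALG.HfInj
import Pool.Agent.Lib.MP_ae5b4e_an_ALG.BdryB

/-!
# MP_ae5b4e_an, algebraic tables, module VE: the sign of `Im H` near the real axis
-/

set_option autoImplicit false

noncomputable section

namespace Pool.Agent.MP_ae5b4e_an_ALG

open Filter Topology Set Metric Complex
open scoped Real

namespace Side

/-- an analytic function with real boundary values and derivative of positive real part -/
lemma sideA {F F' : ℂ → ℂ} {x : ℝ} (hF : ∀ᶠ w in 𝓝 (x : ℂ), HasDerivAt F (F' w) w)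
    (hc : ContinuousAt F' x) (hpos : 0 < (F' x).re)
    (hreal : ∀ᶠ w in 𝓝 (x : ℂ), w.im = 0 → (F w).im = 0) :
    ∀ᶠ V in 𝓝[UP] (x : ℂ), 0 < (F V).im := by
  have h1 : ∀ᶠ w in 𝓝 (x : ℂ), 0 < (F' w).re :=
    (Complex.continuous_re.continuousAt.comp hc).eventually (lt_mem_nhds hpos)
  obtain ⟨e, he, hb⟩ := Metric.eventually_nhds_iff_ball.1 (hF.and (h1.and hreal))
  filter_upwards [mem_nhdsWithin_of_mem_nhds (ball_mem_nhds (x : ℂ) he), self_mem_nhdsWithin]
    with V hV hVU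
  have hVU' : 0 < V.im := hVU
  have hseg : ∀ s ∈ Icc 0 V.im, ((V.re : ℂ) + s * I) ∈ ball (x : ℂ) e := by
    intro s hs
    have h2 : ‖V - x‖ < e := by simpa [dist_eq_norm] using hV
    have h3 : ‖((V.re : ℂ) + s * I) - x‖ ≤ ‖V - x‖ := by
      rw [← sq_le_sq₀ (norm_nonneg _) (norm_nonneg _), ← Complex.normSq_eq_norm_sq,
        ← Complex.normSq_eq_norm_sq, Complex.normSq_apply, Complex.normSq_apply]
      simp only [sub_re, add_re, ofReal_re, mul_re, I_re, mul_zero, ofReal_im, I_im, mul_one,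
        sub_self, add_zero, sub_im, add_im, mul_im, zero_add, sub_zero]
      have h4 : s * s ≤ V.im * V.im := mul_self_le_mul_self hs.1 hs.2
      linarith
    simpa [dist_eq_norm] using lt_of_le_of_lt h3 h2
  have hder : ∀ s ∈ Icc 0 V.im, HasDerivAt (fun s : ℝ => (F ((V.re : ℂ) + s * I)).im)
      (F' ((V.re : ℂ) + s * I)).re s := by
    intro s hs
    have h2 := (hb _ (hseg s hs)).1
    have h3 : HasDerivAt (fun s : ℝ => ((V.re : ℂ) + s * I)) I s := by
      have := ((Complex.ofRealCLM.hasDerivAt (x := s)).mul_const I).const_add (V.re : ℂ)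
      simpa using this
    have h4 := h2.comp s h3
    have h5 : HasDerivAt (fun s : ℝ => (F ((V.re : ℂ) + s * I)).im)
        (F' ((V.re : ℂ) + s * I) * I).im s := by
      have := (Complex.imCLM.hasFDerivAt (x := F ((V.re : ℂ) + s * I))).comp_hasDerivAt s h4
      simpa [Function.comp_def] using this
    simpa using h5
  obtain ⟨s, hs, hs2⟩ := exists_hasDerivAt_eq_slope
    (fun s : ℝ => (F ((V.re : ℂ) + s * I)).im) (fun s : ℝ => (F' ((V.re : ℂ) + s * I)).re) hVU'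
    (fun s hs => (hder s hs).continuousAt.continuousWithinAt)
    (fun s hs => hder s (Ioo_subset_Icc_self hs))
  have h6 : (F ((V.re : ℂ) + (0:ℝ) * I)).im = 0 := by
    refine (hb _ (hseg 0 ⟨le_rfl, hVU'.le⟩)).2.2 ?_
    simp
  have h7 : 0 < (F' ((V.re : ℂ) + s * I)).re := (hb _ (hseg s (Ioo_subset_Icc_self hs))).2.1
  have h8 : ((V.re : ℂ) + V.im * I) = V := Complex.re_add_im V
  rw [hs2, h6, h8, sub_zero, sub_zero] at h7
  exact (div_pos_iff_of_pos_right hVU').1 h7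

/-- a function without real values near a boundary point keeps its side -/
lemma sideB {F : ℂ → ℂ} {a : ℝ} (hc : ContinuousOn F UP)
    (hne : ∀ᶠ V in 𝓝[UP] (a : ℂ), (F V).im ≠ 0)
    (hs : ∃ᶠ y : ℝ in 𝓝 a, ∃ᶠ V in 𝓝[UP] (y : ℂ), 0 < (F V).im) :
    ∀ᶠ V in 𝓝[UP] (a : ℂ), 0 < (F V).im := by
  obtain ⟨e, he, hb⟩ := Metric.mem_nhdsWithin_iff.1 hne
  have hev : ∀ᶠ y : ℝ in 𝓝 a, (y : ℂ) ∈ ball (a : ℂ) e := by
    filter_upwards [ball_mem_nhds a he] with y hy
    rw [mem_ball, dist_eq_norm, ← Complex.ofReal_sub, Complex.norm_real, ← dist_eq_norm]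
    exact hy
  obtain ⟨y, hy1, hy2⟩ := (hs.and_eventually hev).exists
  have hev2 : ∀ᶠ V in 𝓝[UP] (y : ℂ), V ∈ ball (a : ℂ) e ∩ UP :=
    inter_mem (mem_nhdsWithin_of_mem_nhds (isOpen_ball.mem_nhds hy2)) self_mem_nhdsWithin
  obtain ⟨V₀, h1, h2⟩ := (hy1.and_eventually hev2).exists
  have hconv : Convex ℝ (ball (a : ℂ) e ∩ UP) := by
    refine (convex_ball _ _).inter ?_
    exact convex_halfSpace_im_gt 0
  have hpre : IsPreconnected (ball (a : ℂ) e ∩ UP) := hconv.isPreconnected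
  have hcont : ContinuousOn (fun V => (F V).im) (ball (a : ℂ) e ∩ UP) :=
    Complex.continuous_im.comp_continuousOn (hc.mono inter_subset_right)
  refine Metric.mem_nhdsWithin_iff.2 ⟨e, he, ?_⟩
  intro V hV
  by_contra hcon
  have h3 : (F V).im ≤ 0 := not_lt.1 hcon
  obtain ⟨W, hW, hW0⟩ := hpre.intermediate_value hV h2 hcont ⟨h3, h1.le⟩
  exact hb hW hW0

lemma neBot_UP (x : ℝ) : (𝓝[UP] (x : ℂ)).NeBot := by
  apply mem_closure_iff_nhdsWithin_neBot.1
  have : (x : ℂ) ∈ closure {z : ℂ | 0 < z.im} := by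
    rw [Complex.closure_setOfPred_lt_im]
    simp
  exact this

lemma Pf_re (p r x : ℝ) : (p * r * (p + r) / Pf p r x : ℂ) =
    ((p * r * (p + r) / (x * (x + p) * (x - r)) : ℝ) : ℂ) := by
  unfold Pf
  push_cast
  rfl

lemma cont_deriv {p r : ℝ} (hp : 0 < p) (hr : 0 < r) {x : ℝ} (hx : (x : ℂ) ∈ Dm p r) :
    ContinuousAt (fun w : ℂ => (p * r * (p + r) / Pf p r w : ℂ)) x := by
  refine ContinuousAt.div continuousAt_const ?_ (Pf_ne hp hr hx)
  unfold Pf
  fun_prop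

lemma real_of {p r : ℝ} (hp : 0 < p) (hr : 0 < r) {x : ℝ} (hx : (x : ℂ) ∈ Dm p r) :
    ∀ᶠ w in 𝓝 (x : ℂ), w.im = 0 → (Hf p r w).im = 0 := by
  filter_upwards [(Dm_open hp hr).mem_nhds hx] with w hw h0
  have h1 := Hf_conj hp hr hw
  have h2 : (starRingEnd ℂ) w = w := Complex.conj_eq_iff_im.2 h0
  rw [h2] at h1
  exact Complex.conj_eq_iff_im.1 h1.symm

lemma deriv_of {p r : ℝ} (hp : 0 < p) (hr : 0 < r) {x : ℝ} (hx : (x : ℂ) ∈ Dm p r) :
    ∀ᶠ w in 𝓝 (x : ℂ), HasDerivAt (Hf p r) (p * r * (p + r) / Pf p r w) w := by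
  filter_upwards [(Dm_open hp hr).mem_nhds hx] with w hw
  exact Hf_deriv hp hr hw

lemma cont_UP {p r : ℝ} (hp : 0 < p) (hr : 0 < r) : ContinuousOn (Hf p r) UP :=
  fun _ hV => (Hf_deriv hp hr (UP_subset_Dm hV)).continuousAt.continuousWithinAt

lemma side_gt {p r : ℝ} (hp : 0 < p) (hr : 0 < r) {x : ℝ} (hx : r < x) :
    ∀ᶠ V in 𝓝[UP] (x : ℂ), 0 < (Hf p r V).im := by
  have hxD : (x : ℂ) ∈ Dm p r := Or.inr (Or.inr (by simpa using hx))
  refine sideA (deriv_of hp hr hxD) (cont_deriv hp hr hxD) ?_ (real_of hp hr hxD)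
  rw [Pf_re, Complex.ofReal_re]
  have h1 : 0 < x := hr.trans hx
  have h2 : 0 < x - r := sub_pos.2 hx
  positivity

lemma side_lt {p r : ℝ} (hp : 0 < p) (hr : 0 < r) {x : ℝ} (hx : x < -p) :
    ∀ᶠ V in 𝓝[UP] (x : ℂ), 0 < (-Hf p r V).im := by
  have hxD : (x : ℂ) ∈ Dm p r := Or.inr (Or.inl (by simpa using hx))
  refine sideA (F := fun V => -Hf p r V) (F' := fun w => -(p * r * (p + r) / Pf p r w : ℂ))
    ((deriv_of hp hr hxD).mono fun w hw => hw.neg) (cont_deriv hp hr hxD).neg ?_ ?_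
  · rw [Pf_re, neg_re, Complex.ofReal_re, Left.neg_pos_iff]
    have h1 : x < 0 := by linarith
    have h2 : x + p < 0 := by linarith
    have h3 : x - r < 0 := by linarith
    have h4 : x * (x + p) * (x - r) < 0 := mul_neg_of_pos_of_neg (mul_pos_of_neg_of_neg h1 h2) h3
    exact div_neg_of_pos_of_neg (by positivity) h4
  · filter_upwards [real_of hp hr hxD] with w hw h0
    rw [neg_im, hw h0, neg_zero]

end Side

section VE
variable {p r : ℝ}

theorem Hf_side4 (hp : 0 < p) (hr : 0 < r) {x : ℝ} (hx : r ≤ x) :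
    ∀ᶠ V in 𝓝[UP] (x : ℂ), 0 < (Hf p r V).im := by
  rcases hx.lt_or_eq with hx | rfl
  · exact Side.side_gt hp hr hx
  refine Side.sideB (Side.cont_UP hp hr) ?_ ?_
  · have h1 : ∀ᶠ V in 𝓝[≠] (r : ℂ), (Hf p r V).re < 0 :=
      (Hf_re_r hp hr).eventually (eventually_lt_atBot 0)
    rw [eventually_nhdsWithin_iff] at h1
    filter_upwards [mem_nhdsWithin_of_mem_nhds h1, self_mem_nhdsWithin] with V hV hVU h0
    have hne : V ≠ (r : ℂ) := by
      rintro rfl
      have : 0 < (r : ℂ).im := hVU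
      simp at this
    have h2 := hV hne
    have h3 := (Hf_mapsTo hp hr hVU).2.2 h0
    linarith
  · have h1 : ∀ᶠ y : ℝ in 𝓝[>] r, ∃ᶠ V in 𝓝[UP] (y : ℂ), 0 < (Hf p r V).im := by
      filter_upwards [self_mem_nhdsWithin] with y hy
      have := Side.neBot_UP y
      exact (Side.side_gt hp hr hy).frequently
    exact h1.frequently.filter_mono nhdsWithin_le_nhds

theorem Hf_side1 (hp : 0 < p) (hr : 0 < r) {x : ℝ} (hx : x ≤ -p) :
    ∀ᶠ V in 𝓝[UP] (x : ℂ), (Hf p r V).im < 0 := by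
  suffices h : ∀ᶠ V in 𝓝[UP] (x : ℂ), 0 < (-Hf p r V).im by
    filter_upwards [h] with V hV
    rw [neg_im] at hV
    linarith
  rcases hx.lt_or_eq with hx | rfl
  · exact Side.side_lt hp hr hx
  refine Side.sideB (F := fun V => -Hf p r V) (Side.cont_UP hp hr).neg ?_ ?_
  · have h1 : ∀ᶠ V in 𝓝[≠] (-p : ℂ), (Hf p r V).re < 0 :=
      (Hf_re_mp hp hr).eventually (eventually_lt_atBot 0)
    rw [eventually_nhdsWithin_iff] at h1
    rw [Complex.ofReal_neg]
    filter_upwards [mem_nhdsWithin_of_mem_nhds h1, self_mem_nhdsWithin] with V hV hVU h0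
    have hne : V ≠ (-p : ℂ) := by
      rintro rfl
      have : 0 < (-p : ℂ).im := hVU
      simp at this
    have h2 := hV hne
    rw [neg_im, neg_eq_zero] at h0
    have h3 := (Hf_mapsTo hp hr hVU).2.2 h0
    linarith
  · have h1 : ∀ᶠ y : ℝ in 𝓝[<] (-p), ∃ᶠ V in 𝓝[UP] (y : ℂ), 0 < (-Hf p r V).im := by
      filter_upwards [self_mem_nhdsWithin] with y hy
      have := Side.neBot_UP y
      exact (Side.side_lt hp hr hy).frequently
    exact h1.frequently.filter_mono nhdsWithin_le_nhds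
end VE

end Pool.Agent.MP_ae5b4e_an_ALG
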