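import Mathlib
import Pool.Agent.Lib.MP_ae5b4e_an_ALG.Defs
import Pool.Agent.Lib.MP_ae5b4e_an_ALG.Side

/-!
# MP_ae5b4e_an, algebraic tables, module VG: limits of `W` from limits of `Hf (W)`
-/

set_option autoImplicit false

noncomputable section

namespace Pool.Agent.MP_ae5b4e_an_ALG

open Filter Topology Set Metric Complex

open scoped Real

namespace Lim

variable {p r : ℝ} {ι : Type*} {W : ι → ℂ}

theorem dichotomy {u : Ultrafilter ι} (hW : ∀ᶠ i in (u : Filter ι), W i ∈ UP) :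
    (∃ v : ℂ, Tendsto W u (𝓝 v) ∧ 0 ≤ v.im) ∨ Tendsto W u (Bornology.cobounded ℂ) := by
  by_cases h : ∃ M : ℝ, ∀ᶠ i in (u : Filter ι), ‖W i‖ ≤ M
  · obtain ⟨M, hM⟩ := h
    left
    have h1 : (↑(u.map W) : Filter ℂ) ≤ 𝓟 (closedBall (0:ℂ) M) := by
      rw [le_principal_iff, Ultrafilter.coe_map, mem_map]
      filter_upwards [hM] with i hi
      simpa using hi
    obtain ⟨v, -, hv⟩ := (isCompact_closedBall (0:ℂ) M).ultrafilter_le_nhds (u.map W) h1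
    have hv' : Tendsto W u (𝓝 v) := by
      simpa [Tendsto] using hv
    refine ⟨v, hv', ?_⟩
    refine ge_of_tendsto ((Complex.continuous_im.tendsto v).comp hv') ?_
    filter_upwards [hW] with i hi
    exact le_of_lt hi
  · right
    rw [← tendsto_norm_atTop_iff_cobounded, Filter.tendsto_atTop]
    intro b
    have h1 : ¬ ∀ᶠ i in (u : Filter ι), ‖W i‖ ≤ b := fun hb => h ⟨b, hb⟩
    rw [← Ultrafilter.eventually_not] at h1
    filter_upwards [h1] with i hi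
    exact le_of_lt (not_le.1 hi)

theorem ne_of_UP {u : Filter ι} (hW : ∀ᶠ i in u, W i ∈ UP) {v : ℂ} (hv : v.im = 0)
    (h : Tendsto W u (𝓝 v)) : Tendsto W u (𝓝[≠] v) := by
  refine tendsto_nhdsWithin_iff.2 ⟨h, ?_⟩
  filter_upwards [hW] with i hi he
  have h1 : 0 < (W i).im := hi
  have h2 : W i = v := he
  rw [h2, hv] at h1
  exact lt_irrefl _ h1

theorem tendsto_Hf (hp : 0 < p) (hr : 0 < r) {u : Filter ι} (hW : ∀ᶠ i in u, W i ∈ UP) {v : ℂ}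
    (hi : 0 ≤ v.im) (h0 : v ≠ 0) (h1 : v ≠ -p) (h2 : v ≠ r) (h : Tendsto W u (𝓝 v)) :
    Tendsto (fun i => Hf p r (W i)) u (𝓝 (Hb p r v)) := by
  have hc : ContinuousWithinAt (Hb p r) {V : ℂ | 0 ≤ V.im ∧ V ≠ 0 ∧ V ≠ -p ∧ V ≠ r} v :=
    Hb_contOn hp hr v ⟨hi, h0, h1, h2⟩
  have ht : Tendsto W u (𝓝[{V : ℂ | 0 ≤ V.im ∧ V ≠ 0 ∧ V ≠ -p ∧ V ≠ r}] v) := by
    refine tendsto_nhdsWithin_iff.2 ⟨h, ?_⟩
    filter_upwards [hW] with i hWi
    have h3 : 0 < (W i).im := hWi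
    refine ⟨h3.le, ?_, ?_, ?_⟩
    · intro he
      rw [he] at h3
      simp at h3
    · intro he
      rw [he] at h3
      simp at h3
    · intro he
      rw [he] at h3
      simp at h3
  refine (hc.tendsto.comp ht).congr' ?_
  filter_upwards [hW] with i hWi
  exact Hb_eq hp hr (UP_subset_Dm hWi)

end Lim

section VG

variable {p r : ℝ} {ι : Type*} {l : Filter ι} {W : ι → ℂ}

/-- along an ultrafilter -/
theorem ultra_cases (hp : 0 < p) (hr : 0 < r) {u : Ultrafilter ι}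
    (hW : ∀ᶠ i in (u : Filter ι), W i ∈ UP)
    {z : ℂ} (hz : Tendsto (fun i => Hf p r (W i)) u (𝓝 z)) :
    (∃ v : ℂ, Tendsto W u (𝓝 v) ∧ 0 ≤ v.im ∧ v ≠ 0 ∧ v ≠ -p ∧ v ≠ r ∧ Hb p r v = z) ∨
      (Tendsto W u (Bornology.cobounded ℂ) ∧ z = 0) := by
  have hre : Tendsto (fun i => (Hf p r (W i)).re) u (𝓝 z.re) :=
    (Complex.continuous_re.tendsto z).comp hz
  rcases Lim.dichotomy hW with ⟨v, hv, hi⟩ | h
  · left
    have h0 : v ≠ 0 := by
      intro he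
      have h1 := (Hf_re_zero hp hr).comp (Lim.ne_of_UP hW (by simp) (he ▸ hv))
      exact not_tendsto_nhds_of_tendsto_atTop h1 _ hre
    have h1 : v ≠ -p := by
      intro he
      have h1 := (Hf_re_mp hp hr).comp (Lim.ne_of_UP hW (by simp) (he ▸ hv))
      exact not_tendsto_nhds_of_tendsto_atBot h1 _ hre
    have h2 : v ≠ r := by
      intro he
      have h1 := (Hf_re_r hp hr).comp (Lim.ne_of_UP hW (by simp) (he ▸ hv))
      exact not_tendsto_nhds_of_tendsto_atBot h1 _ hre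
    exact ⟨v, hv, hi, h0, h1, h2, tendsto_nhds_unique (Lim.tendsto_Hf hp hr hW hi h0 h1 h2 hv) hz⟩
  · right
    exact ⟨h, tendsto_nhds_unique hz ((Hf_tendsto_inf p r).comp h)⟩

end VG

namespace Lim

variable {p r : ℝ} {ι : Type*} {W : ι → ℂ}

theorem cases_real {v : ℂ} (hv : v.im = 0) (h0 : v ≠ 0) (h1 : v ≠ -p) (h2 : v ≠ r) :
    ∃ y : ℝ, v = y ∧ (y < -p ∨ (-p < y ∧ y < 0) ∨ (0 < y ∧ y < r) ∨ r < y) := by
  have he : v = (v.re : ℂ) := Complex.ext (by simp) (by simp [hv])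
  refine ⟨v.re, he, ?_⟩
  have h0' : v.re ≠ 0 := fun h => h0 (by rw [he, h]; simp)
  have h1' : v.re ≠ -p := fun h => h1 (by rw [he, h]; simp)
  have h2' : v.re ≠ r := fun h => h2 (by rw [he, h])
  rcases lt_or_gt_of_ne h1' with h | h
  · exact Or.inl h
  · rcases lt_or_gt_of_ne h0' with h3 | h3
    · exact Or.inr (Or.inl ⟨h, h3⟩)
    · rcases lt_or_gt_of_ne h2' with h4 | h4
      · exact Or.inr (Or.inr (Or.inl ⟨h3, h4⟩))
      · exact Or.inr (Or.inr (Or.inr h4))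

theorem all_cases (hp : 0 < p) (hr : 0 < r) {u : Ultrafilter ι}
    (hW : ∀ᶠ i in (u : Filter ι), W i ∈ UP)
    {z : ℂ} (hz : Tendsto (fun i => Hf p r (W i)) u (𝓝 z)) :
    (∃ v ∈ UP, Tendsto W u (𝓝 v) ∧ Hf p r v = z) ∨
    (∃ y : ℝ, Tendsto W u (𝓝 (y:ℂ)) ∧ Hb p r y = z ∧
      (y < -p ∨ (-p < y ∧ y < 0) ∨ (0 < y ∧ y < r) ∨ r < y)) ∨ z = 0 := by
  rcases ultra_cases hp hr hW hz with ⟨v, hv, hi, h0, h1, h2, h3⟩ | ⟨-, h⟩
  · rcases hi.eq_or_lt with h4 | h4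
    · obtain ⟨y, hy, hc⟩ := cases_real (p := p) (r := r) h4.symm h0 h1 h2
      right; left
      exact ⟨y, hy ▸ hv, hy ▸ h3, hc⟩
    · left
      refine ⟨v, h4, hv, ?_⟩
      rw [← Hb_eq hp hr (UP_subset_Dm h4), h3]
  · exact Or.inr (Or.inr h)

theorem side1 (hp : 0 < p) (hr : 0 < r) {u : Ultrafilter ι}
    (hW : ∀ᶠ i in (u : Filter ι), W i ∈ UP) {y : ℝ} (hy : y ≤ -p)
    (h : Tendsto W u (𝓝 (y:ℂ))) (hi : ∀ᶠ i in (u : Filter ι), 0 < (Hf p r (W i)).im) :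
    False := by
  have h1 := (tendsto_nhdsWithin_iff.2 ⟨h, hW⟩ : Tendsto W u (𝓝[UP] (y:ℂ))).eventually
    (Hf_side1 hp hr hy)
  obtain ⟨i, h2, h3⟩ := (h1.and hi).exists
  exact lt_asymm h2 h3

theorem side4 (hp : 0 < p) (hr : 0 < r) {u : Ultrafilter ι}
    (hW : ∀ᶠ i in (u : Filter ι), W i ∈ UP) {y : ℝ} (hy : r ≤ y)
    (h : Tendsto W u (𝓝 (y:ℂ))) (hi : ∀ᶠ i in (u : Filter ι), (Hf p r (W i)).im < 0) :
    False := by
  have h1 := (tendsto_nhdsWithin_iff.2 ⟨h, hW⟩ : Tendsto W u (𝓝[UP] (y:ℂ))).eventually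
    (Hf_side4 hp hr hy)
  obtain ⟨i, h2, h3⟩ := (h1.and hi).exists
  exact lt_asymm h2 h3

/-- if the real part tends to `-∞` the limit is `-p` or `r` -/
theorem bot_cases (hp : 0 < p) (hr : 0 < r) {u : Ultrafilter ι}
    (hW : ∀ᶠ i in (u : Filter ι), W i ∈ UP)
    (hz : Tendsto (fun i => (Hf p r (W i)).re) u atBot) :
    Tendsto W u (𝓝 (-p : ℂ)) ∨ Tendsto W u (𝓝 (r : ℂ)) := by
  rcases dichotomy hW with ⟨v, hv, hi⟩ | h
  · by_cases h1 : v = -p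
    · exact Or.inl (h1 ▸ hv)
    by_cases h2 : v = r
    · exact Or.inr (h2 ▸ hv)
    exfalso
    by_cases h0 : v = 0
    · have h3 := (Hf_re_zero hp hr).comp (ne_of_UP hW (by simp) (h0 ▸ hv))
      exact h3.not_tendsto disjoint_atTop_atBot hz
    · have h3 := tendsto_Hf hp hr hW hi h0 h1 h2 hv
      exact not_tendsto_nhds_of_tendsto_atBot hz _ ((Complex.continuous_re.tendsto _).comp h3)
  · exfalso
    have h3 := (Hf_tendsto_inf p r).comp h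
    exact not_tendsto_nhds_of_tendsto_atBot hz _ ((Complex.continuous_re.tendsto _).comp h3)

end Lim

section VG

variable {p r : ℝ} {ι : Type*} {l : Filter ι} {W : ι → ℂ}

theorem lim_up (hp : 0 < p) (hr : 0 < r) (hW : ∀ᶠ i in l, W i ∈ UP) {v : ℂ} (hv : v ∈ UP)
    (hz : Tendsto (fun i => Hf p r (W i)) l (𝓝 (Hf p r v))) : Tendsto W l (𝓝 v) := by
  rw [tendsto_iff_ultrafilter]
  intro u hu
  have hm := Hf_mapsTo hp hr hv
  obtain ⟨hm1, hm2, hm3⟩ := hm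
  rcases Lim.all_cases hp hr (hu hW) (hz.mono_left hu) with ⟨w, hw, h1, h2⟩ | ⟨y, h1, h2, h3⟩ | h
  · rw [Hf_injOn hp hr hw hv h2] at h1
    exact h1
  · exfalso
    rw [← h2] at hm1 hm2 hm3
    rcases h3 with h3 | ⟨h3, h4⟩ | ⟨h3, h4⟩ | h3
    · obtain ⟨h5, h6⟩ := Hb_I14 hp hr (Or.inl h3)
      exact lt_asymm (hm3 h5) h6
    · rw [Hb_I2 hp hr h3 h4] at hm1
      exact lt_irrefl _ hm1
    · rw [Hb_I3 hp hr h3 h4] at hm2
      exact lt_irrefl _ hm2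
    · obtain ⟨h5, h6⟩ := Hb_I14 hp hr (Or.inr h3)
      exact lt_asymm (hm3 h5) h6
  · exfalso
    rw [h] at hm3
    simp at hm3

theorem lim_3 (hp : 0 < p) (hr : 0 < r) (hW : ∀ᶠ i in l, W i ∈ UP) {x : ℝ} (h0 : 0 < x)
    (h1 : x < r) (hz : Tendsto (fun i => Hf p r (W i)) l (𝓝 (Hb p r x))) :
    Tendsto W l (𝓝 (x : ℂ)) := by
  rw [tendsto_iff_ultrafilter]
  intro u hu
  have hx := Hb_I3 hp hr h0 h1
  rcases Lim.all_cases hp hr (hu hW) (hz.mono_left hu) with ⟨w, hw, h3, h2⟩ | ⟨y, h3, h2, h4⟩ | h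
  · exfalso
    have h4 := (Hf_mapsTo hp hr hw).2.1
    rw [h2, hx] at h4
    exact lt_irrefl _ h4
  · have hpp : 0 < p * π := mul_pos hp Real.pi_pos
    have hrp : 0 < r * π := mul_pos hr Real.pi_pos
    rcases h4 with h4 | ⟨h4, h5⟩ | ⟨h4, h5⟩ | h4
    · have h6 := (Hb_I14 hp hr (Or.inl h4)).1
      rw [h2, hx] at h6
      exact absurd h6 hpp.ne'
    · have h6 := Hb_I2 hp hr h4 h5
      rw [h2, hx] at h6
      linarith
    · have h6 : y = x := (Hb_mono3 hp hr).injOn ⟨h4, h5⟩ ⟨h0, h1⟩ (by simp only [h2])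
      rw [h6] at h3
      exact h3
    · have h6 := (Hb_I14 hp hr (Or.inr h4)).1
      rw [h2, hx] at h6
      exact absurd h6 hpp.ne'
  · exfalso
    rw [h] at hx
    have hpp : 0 < p * π := mul_pos hp Real.pi_pos
    rw [Complex.zero_im] at hx
    linarith

theorem lim_2 (hp : 0 < p) (hr : 0 < r) (hW : ∀ᶠ i in l, W i ∈ UP) {x : ℝ} (h0 : -p < x)
    (h1 : x < 0) (hz : Tendsto (fun i => Hf p r (W i)) l (𝓝 (Hb p r x))) :
    Tendsto W l (𝓝 (x : ℂ)) := by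
  rw [tendsto_iff_ultrafilter]
  intro u hu
  have hx := Hb_I2 hp hr h0 h1
  have hpp : 0 < p * π := mul_pos hp Real.pi_pos
  have hrp : 0 < r * π := mul_pos hr Real.pi_pos
  rcases Lim.all_cases hp hr (hu hW) (hz.mono_left hu) with ⟨w, hw, h3, h2⟩ | ⟨y, h3, h2, h4⟩ | h
  · exfalso
    have h4 := (Hf_mapsTo hp hr hw).1
    rw [h2, hx] at h4
    exact lt_irrefl _ h4
  · rcases h4 with h4 | ⟨h4, h5⟩ | ⟨h4, h5⟩ | h4
    · have h6 := (Hb_I14 hp hr (Or.inl h4)).1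
      rw [h2, hx] at h6
      linarith
    · have h6 : y = x := (Hb_mono2 hp hr).injOn ⟨h4, h5⟩ ⟨h0, h1⟩ (by simp only [h2])
      rw [h6] at h3
      exact h3
    · have h6 := Hb_I3 hp hr h4 h5
      rw [h2, hx] at h6
      linarith
    · have h6 := (Hb_I14 hp hr (Or.inr h4)).1
      rw [h2, hx] at h6
      linarith
  · exfalso
    rw [h] at hx
    rw [Complex.zero_im] at hx
    linarith

theorem lim_4 (hp : 0 < p) (hr : 0 < r) (hW : ∀ᶠ i in l, W i ∈ UP) {x : ℝ} (h1 : r < x)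
    (hz : Tendsto (fun i => Hf p r (W i)) l (𝓝 (Hb p r x)))
    (hi : ∀ᶠ i in l, 0 < (Hf p r (W i)).im) : Tendsto W l (𝓝 (x : ℂ)) := by
  rw [tendsto_iff_ultrafilter]
  intro u hu
  obtain ⟨hx, hx'⟩ := Hb_I14 hp hr (Or.inr h1 : x < -p ∨ r < x)
  have hpp : 0 < p * π := mul_pos hp Real.pi_pos
  have hrp : 0 < r * π := mul_pos hr Real.pi_pos
  rcases Lim.all_cases hp hr (hu hW) (hz.mono_left hu) with ⟨w, hw, h3, h2⟩ | ⟨y, h3, h2, h4⟩ | h
  · exfalso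
    have h4 := (Hf_mapsTo hp hr hw).2.2
    rw [h2] at h4
    exact lt_asymm (h4 hx) hx'
  · rcases h4 with h4 | ⟨h4, h5⟩ | ⟨h4, h5⟩ | h4
    · exact (Lim.side1 hp hr (hu hW) h4.le h3 (hu hi)).elim
    · have h6 := Hb_I2 hp hr h4 h5
      rw [h2, hx] at h6
      linarith
    · have h6 := Hb_I3 hp hr h4 h5
      rw [h2, hx] at h6
      linarith
    · have h6 : y = x := (Hb_mono4 hp hr).injOn (mem_Ioi.2 h4) (mem_Ioi.2 h1) (by simp only [h2])
      rw [h6] at h3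
      exact h3
  · exfalso
    rw [h] at hx'
    simp at hx'

theorem lim_1 (hp : 0 < p) (hr : 0 < r) (hW : ∀ᶠ i in l, W i ∈ UP) {x : ℝ} (h1 : x < -p)
    (hz : Tendsto (fun i => Hf p r (W i)) l (𝓝 (Hb p r x)))
    (hi : ∀ᶠ i in l, (Hf p r (W i)).im < 0) : Tendsto W l (𝓝 (x : ℂ)) := by
  rw [tendsto_iff_ultrafilter]
  intro u hu
  obtain ⟨hx, hx'⟩ := Hb_I14 hp hr (Or.inl h1 : x < -p ∨ r < x)
  have hpp : 0 < p * π := mul_pos hp Real.pi_pos
  have hrp : 0 < r * π := mul_pos hr Real.pi_pos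
  rcases Lim.all_cases hp hr (hu hW) (hz.mono_left hu) with ⟨w, hw, h3, h2⟩ | ⟨y, h3, h2, h4⟩ | h
  · exfalso
    have h4 := (Hf_mapsTo hp hr hw).2.2
    rw [h2] at h4
    exact lt_asymm (h4 hx) hx'
  · rcases h4 with h4 | ⟨h4, h5⟩ | ⟨h4, h5⟩ | h4
    · have h6 : y = x := (Hb_mono1 hp hr).injOn (mem_Iio.2 h4) (mem_Iio.2 h1) (by simp only [h2])
      rw [h6] at h3
      exact h3
    · have h6 := Hb_I2 hp hr h4 h5
      rw [h2, hx] at h6
      linarith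
    · have h6 := Hb_I3 hp hr h4 h5
      rw [h2, hx] at h6
      linarith
    · exact (Lim.side4 hp hr (hu hW) h4.le h3 (hu hi)).elim
  · exfalso
    rw [h] at hx'
    simp at hx'

theorem lim_r (hp : 0 < p) (hr : 0 < r) (hW : ∀ᶠ i in l, W i ∈ UP)
    (hz : Tendsto (fun i => (Hf p r (W i)).re) l atBot)
    (hi : ∀ᶠ i in l, 0 < (Hf p r (W i)).im) : Tendsto W l (𝓝 (r : ℂ)) := by
  rw [tendsto_iff_ultrafilter]
  intro u hu
  rcases Lim.bot_cases hp hr (hu hW) (hz.mono_left hu) with h | h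
  · exfalso
    refine Lim.side1 hp hr (hu hW) (y := -p) le_rfl ?_ (hu hi)
    simpa using h
  · exact h

theorem lim_mp (hp : 0 < p) (hr : 0 < r) (hW : ∀ᶠ i in l, W i ∈ UP)
    (hz : Tendsto (fun i => (Hf p r (W i)).re) l atBot)
    (hi : ∀ᶠ i in l, (Hf p r (W i)).im < 0) : Tendsto W l (𝓝 (-p : ℂ)) := by
  rw [tendsto_iff_ultrafilter]
  intro u hu
  rcases Lim.bot_cases hp hr (hu hW) (hz.mono_left hu) with h | h
  · exact h
  · exact (Lim.side4 hp hr (hu hW) le_rfl h (hu hi)).elim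

end VG

end Pool.Agent.MP_ae5b4e_an_ALG
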