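import Mathlib
import Pool.Agent.Lib.MP_ae5b4e_an_ALG.Defs
import Pool.Agent.Lib.MP_ae5b4e_an_ALG.HfInj
import Pool.Agent.Lib.MP_ae5b4e_an_ALG.Lim

/-!
# MP_ae5b4e_an, algebraic tables, module VH: the inverse `Gf` of `Hf` on the upper half plane
-/

set_option autoImplicit false

noncomputable section

namespace Pool.Agent.MP_ae5b4e_an_ALG

open Filter Topology Set Metric Complex

open scoped Real

namespace Gf

variable {p r : ℝ}

theorem UP_open : IsOpen UP := isOpen_lt continuous_const Complex.continuous_im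

theorem Hf_hasStrict (hp : 0 < p) (hr : 0 < r) {V : ℂ} (hV : V ∈ UP) :
    HasStrictDerivAt (Hf p r) (p * r * (p + r) / Pf p r V) V := by
  have h1 : ∀ᶠ w in 𝓝 V, HasDerivAt (Hf p r) (p * r * (p + r) / Pf p r w) w := by
    filter_upwards [(Dm_open hp hr).mem_nhds (UP_subset_Dm hV)] with w hw
    exact Hf_deriv hp hr hw
  have h2 : AnalyticAt ℂ (Hf p r) V := by
    rw [Complex.analyticAt_iff_eventually_differentiableAt]
    filter_upwards [h1] with w hw
    exact hw.differentiableAt
  have h3 := h2.hasStrictDerivAt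
  rwa [(h1.self_of_nhds).deriv] at h3

theorem der_ne (hp : 0 < p) (hr : 0 < r) {V : ℂ} (hV : V ∈ UP) :
    ((p : ℂ) * r * (p + r) / Pf p r V) ≠ 0 := by
  have h := Pf_ne hp hr (UP_subset_Dm hV)
  have hp' : (p : ℂ) ≠ 0 := by exact_mod_cast hp.ne'
  have hr' : (r : ℂ) ≠ 0 := by exact_mod_cast hr.ne'
  have hpr : (p : ℂ) + r ≠ 0 := by exact_mod_cast (add_pos hp hr).ne'
  exact div_ne_zero (mul_ne_zero (mul_ne_zero hp' hr') hpr) h

theorem star (hp : 0 < p) (hr : 0 < r) : StarConvex ℝ (1 : ℂ) (Xs p r) := by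
  intro z hz a b ha hb hab
  obtain ⟨h1, h2, h3⟩ := hz
  have hpp : 0 < p * π := mul_pos hp Real.pi_pos
  have hrp : 0 < r * π := mul_pos hr Real.pi_pos
  have him : (a • (1:ℂ) + b • z).im = b * z.im := by simp
  have hre : (a • (1:ℂ) + b • z).re = a + b * z.re := by simp
  have hb1 : b ≤ 1 := by linarith
  refine ⟨?_, ?_, ?_⟩
  · rw [him]
    rcases hb.eq_or_lt with hb0 | hb0
    · subst hb0; linarith
    · nlinarith [mul_pos hb0 (sub_pos.2 h1), mul_nonneg (sub_nonneg.2 hb1) hrp.le]
  · rw [him]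
    rcases hb.eq_or_lt with hb0 | hb0
    · subst hb0; linarith
    · nlinarith [mul_pos hb0 (sub_pos.2 h2), mul_nonneg (sub_nonneg.2 hb1) hpp.le]
  · intro h0
    rw [him] at h0
    rw [hre]
    rcases mul_eq_zero.1 h0 with h | h
    · subst h
      simp at hab
      simp [hab]
    · have := h3 h
      rcases hb.eq_or_lt with hb0 | hb0
      · subst hb0
        simp at hab
        simp [hab]
      · nlinarith [mul_pos hb0 this]

end Gf

section VH
variable {p r : ℝ}

theorem Xs_open (hp : 0 < p) (hr : 0 < r) : IsOpen (Xs p r) := by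
  have _hp := hp
  have _hr := hr
  have h : Xs p r = {z : ℂ | -(r * π) < z.im} ∩ ({z : ℂ | z.im < p * π} ∩
      ({z : ℂ | z.im ≠ 0} ∪ {z : ℂ | 0 < z.re})) := by
    ext z
    simp only [Xs, mem_ofPred_eq, mem_inter_iff, mem_union]
    constructor
    · rintro ⟨h1, h2, h3⟩
      refine ⟨h1, h2, ?_⟩
      by_cases h0 : z.im = 0
      · exact Or.inr (h3 h0)
      · exact Or.inl h0
    · rintro ⟨h1, h2, h3⟩
      refine ⟨h1, h2, fun h0 => ?_⟩
      rcases h3 with h3 | h3
      · exact absurd h0 h3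
      · exact h3
  rw [h]
  refine (isOpen_lt continuous_const Complex.continuous_im).inter
    ((isOpen_lt Complex.continuous_im continuous_const).inter
      ((isOpen_ne_fun Complex.continuous_im continuous_const).union
        (isOpen_lt continuous_const Complex.continuous_re)))

theorem Hf_surjOn (hp : 0 < p) (hr : 0 < r) : SurjOn (Hf p r) UP (Xs p r) := by
  have hpre : IsPreconnected (Xs p r) := by
    have h1 : (1 : ℂ) ∈ Xs p r := by
      have h2 : -(r * π) < (1 : ℂ).im := by
        rw [one_im]; have := mul_pos hr Real.pi_pos; linarith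
      have h3 : (1 : ℂ).im < p * π := by
        rw [one_im]; exact mul_pos hp Real.pi_pos
      exact ⟨h2, h3, fun _ => by simp⟩
    exact ((Gf.star hp hr).isPathConnected h1).isConnected.isPreconnected
  have hopen : IsOpen (Hf p r '' UP) := by
    rw [isOpen_iff_mem_nhds]
    rintro _ ⟨V, hV, rfl⟩
    have h := (Gf.Hf_hasStrict hp hr hV).map_nhds_eq (Gf.der_ne hp hr hV)
    rw [← h]
    exact image_mem_map (Gf.UP_open.mem_nhds hV)
  have hne : (Xs p r ∩ Hf p r '' UP).Nonempty := by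
    have hI : Complex.I ∈ UP := by simp [UP]
    exact ⟨Hf p r Complex.I, Hf_mapsTo hp hr hI, mem_image_of_mem _ hI⟩
  refine hpre.subset_of_closure_inter_subset hopen hne ?_
  rintro z ⟨hz, hzX⟩
  have hNB : NeBot (comap (Hf p r) (𝓝 z) ⊓ 𝓟 UP) := by
    rw [mem_closure_iff_nhds] at hz
    rw [inf_principal_neBot_iff]
    intro U hU
    obtain ⟨S, hS, hSU⟩ := mem_comap.1 hU
    obtain ⟨y, hyS, V, hV, rfl⟩ := hz S hS
    exact ⟨V, hSU hyS, hV⟩
  set u : Ultrafilter ℂ := @Ultrafilter.of _ (comap (Hf p r) (𝓝 z) ⊓ 𝓟 UP) hNB with hu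
  have hul : (u : Filter ℂ) ≤ comap (Hf p r) (𝓝 z) ⊓ 𝓟 UP := Ultrafilter.of_le _
  have hW : ∀ᶠ i in (u : Filter ℂ), (id i : ℂ) ∈ UP := by
    have := (hul.trans inf_le_right)
    exact le_principal_iff.1 this
  have hT : Tendsto (fun i => Hf p r (id i)) (u : Filter ℂ) (𝓝 z) :=
    tendsto_comap.mono_left (hul.trans inf_le_left)
  rcases ultra_cases hp hr hW hT with ⟨v, -, hv0, hv1, hv2, hv3, hv⟩ | ⟨-, h0⟩
  · rcases hv0.eq_or_lt with h | h
    · exfalso
      obtain ⟨hX1, hX2, hX3⟩ := hzX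
      have hvx : v = ((v.re : ℝ) : ℂ) := by
        apply Complex.ext <;> simp [← h]
      rw [hvx] at hv hv1 hv2 hv3
      have h0' : v.re ≠ 0 := by exact_mod_cast hv1
      have h1' : v.re ≠ -p := by
        intro hh; apply hv2; rw [hh]; push_cast; ring
      have h2' : v.re ≠ r := by
        intro hh; apply hv3; rw [hh]
      rcases lt_trichotomy v.re 0 with hx | hx | hx
      · rcases lt_or_gt_of_ne h1' with hy | hy
        · have := Hb_I14 hp hr (x := v.re) (Or.inl hy)
          rw [hv] at this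
          linarith [hX3 this.1, this.2]
        · have := Hb_I2 hp hr hy hx
          rw [hv] at this
          linarith
      · exact h0' hx
      · rcases lt_or_gt_of_ne h2' with hy | hy
        · have := Hb_I3 hp hr hx hy
          rw [hv] at this
          linarith
        · have := Hb_I14 hp hr (x := v.re) (Or.inr hy)
          rw [hv] at this
          linarith [hX3 this.1, this.2]
    · refine ⟨v, h, ?_⟩
      rw [← hv]
      exact (Hb_eq hp hr (UP_subset_Dm (show v ∈ UP from h))).symm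
  · exfalso
    obtain ⟨hX1, hX2, hX3⟩ := hzX
    have := hX3 (by simp [h0])
    simp [h0] at this

theorem Gf_mem (hp : 0 < p) (hr : 0 < r) {z : ℂ} (hz : z ∈ Xs p r) :
    Gf p r z ∈ UP ∧ Hf p r (Gf p r z) = z := by
  have h := Hf_surjOn hp hr hz
  exact ⟨Function.invFunOn_mem h, Function.invFunOn_eq h⟩

theorem Gf_Hf (hp : 0 < p) (hr : 0 < r) {V : ℂ} (hV : V ∈ UP) : Gf p r (Hf p r V) = V :=
  (Hf_injOn hp hr).leftInvOn_invFunOn hV

theorem Gf_diff (hp : 0 < p) (hr : 0 < r) : DifferentiableOn ℂ (Gf p r) (Xs p r) := by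
  intro z hz
  obtain ⟨hV, hH⟩ := Gf_mem hp hr hz
  set V := Gf p r z with hVdef
  have hs := Gf.Hf_hasStrict hp hr hV
  have hne := Gf.der_ne hp hr hV
  have hL := hs.to_localInverse hne
  have hLV : hs.localInverse _ _ _ hne (Hf p r V) = V := 
    (hs.eventually_left_inverse hne).self_of_nhds
  have hLc : Tendsto (hs.localInverse _ _ _ hne) (𝓝 (Hf p r V)) (𝓝 V) := by
    have := hL.hasDerivAt.continuousAt.tendsto
    rwa [hLV] at this
  have he : ∀ᶠ z' in 𝓝 (Hf p r V), Hf p r (hs.localInverse _ _ _ hne z') = z' :=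
    hs.eventually_right_inverse hne
  have hUP : ∀ᶠ z' in 𝓝 (Hf p r V), hs.localInverse _ _ _ hne z' ∈ UP :=
    hLc.eventually (Gf.UP_open.mem_nhds hV)
  have heq : Gf p r =ᶠ[𝓝 (Hf p r V)] hs.localInverse _ _ _ hne := by
    filter_upwards [he, hUP] with z' h1 h2
    conv_lhs => rw [← h1]
    exact Gf_Hf hp hr h2
  have hd : DifferentiableAt ℂ (Gf p r) (Hf p r V) :=
    heq.differentiableAt_iff.2 hL.hasDerivAt.differentiableAt
  rw [hH] at hd
  exact hd.differentiableWithinAt
end VH

end Pool.Agent.MP_ae5b4e_an_ALG
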