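import Mathlib
import Pool.Agent.Lib.MP_ae5b4e_an_ALG.Defs
import Pool.Agent.Lib.MP_ae5b4e_an_ALG.Lim
import Pool.Agent.Lib.MP_ae5b4e_an_ALG.Branch
import Pool.Agent.Lib.MP_ae5b4e_an_ALG.Gf

/-!
# MP_ae5b4e_an, algebraic tables: one step of the chain

Along `t ↦ t + 1` the boundary values of the uniformizing function are related by
`H(W(t + 1)) = H(-W t)`; lower Hölder bounds are preserved.
-/

set_option autoImplicit false

noncomputable section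

namespace Pool.Agent.MP_ae5b4e_an_ALG

open Filter Topology Set Metric Complex
open scoped Real

section XE
variable {p r D R : ℝ} {V W : ℂ → ℂ}

/-- lower Hölder bound at `a` -/
def Low (W : ℂ → ℂ) (a : ℝ) (z : ℂ) (x : ℝ) : Prop :=
  ∃ c > 0, ∀ᶠ τ in 𝓝[UP] (0:ℂ), c * ‖τ‖ ^ x ≤ ‖W (a + τ) - z‖

namespace ChainStep

lemma up_add {a : ℝ} {τ : ℂ} (h : τ ∈ UP) : (a : ℂ) + τ ∈ UP := by
  simpa [UP] using h

lemma neBot : (𝓝[UP] (0:ℂ)).NeBot := by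
  rw [← mem_closure_iff_nhdsWithin_neBot, Metric.mem_closure_iff]
  intro ε hε
  refine ⟨((ε / 2 : ℝ) : ℂ) * I, ?_, ?_⟩
  · simpa [UP] using hε
  · rw [dist_comm, dist_zero_right, norm_mul, norm_I, mul_one, Complex.norm_real, Real.norm_eq_abs,
      abs_of_pos (by positivity)]
    linarith

lemma ev_up : ∀ᶠ τ in 𝓝[UP] (0:ℂ), τ ∈ UP := eventually_mem_nhdsWithin

/-- the mirror image -/
def mir (z : ℂ) : ℂ := -(starRingEnd ℂ) z

lemma mir_up {z : ℂ} (h : z ∈ UP) : mir z ∈ UP := by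
  simpa [UP, mir] using h

lemma mir_cont : Continuous mir := continuous_neg.comp continuous_conj

lemma mir_real (x : ℝ) : mir x = ((-x : ℝ) : ℂ) := by
  simp [mir]

lemma conj_mir (z : ℂ) : (starRingEnd ℂ) (mir z) = -z := by
  simp [mir]

lemma Hf_neg (hp : 0 < p) (hr : 0 < r) {z : ℂ} (h : z ∈ UP) :
    Hf p r (-z) = (starRingEnd ℂ) (Hf p r (mir z)) := by
  rw [← Hf_conj hp hr (UP_subset_Dm (mir_up h)), conj_mir]

lemma step (hp : 0 < p) (hr : 0 < r) (hW : Ext p r 0 1 V W) {a : ℝ} {τ : ℂ} (h : τ ∈ UP) :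
    Hf p r (W ((a + 1 : ℝ) + τ)) = (starRingEnd ℂ) (Hf p r (mir (W (a + τ)))) := by
  have h1 := hW.step (a + τ) (up_add h)
  rw [← Hf_neg hp hr (hW.up _ (up_add h))]
  have e1 : ((a + 1 : ℝ) : ℂ) + τ = a + τ + ((1:ℝ) : ℂ) := by
    push_cast
    ring
  rw [e1, h1]
  simp

lemma step' (hW : Ext p r 0 1 V W) {a : ℝ} {τ : ℂ} (h : τ ∈ UP) :
    Hf p r (W ((a + 1 : ℝ) + τ)) = Hf p r (-W (a + τ)) := by
  have h1 := hW.step (a + τ) (up_add h)
  have e1 : ((a + 1 : ℝ) : ℂ) + τ = a + τ + ((1:ℝ) : ℂ) := by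
    push_cast
    ring
  rw [e1, h1]
  simp

lemma wup (hW : Ext p r 0 1 V W) (a : ℝ) : ∀ᶠ τ in 𝓝[UP] (0:ℂ), W (a + τ) ∈ UP :=
  ev_up.mono fun _ h => hW.up _ (up_add h)

/-- upper Lipschitz bound -/
lemma lip {T : ℂ → ℂ} {v : ℂ} (h : DifferentiableAt ℂ T v) :
    ∃ C > 0, ∀ᶠ w in 𝓝 v, ‖T w - T v‖ ≤ C * ‖w - v‖ := by
  obtain ⟨C, hC, h1⟩ := h.isBigO_sub.exists_pos
  exact ⟨C, hC, h1.bound⟩

/-- lower bound at a point with nonzero derivative -/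
lemma low {S : ℂ → ℂ} {v s : ℂ} (h : HasDerivAt S s v) (hs : s ≠ 0) :
    ∃ c > 0, ∀ᶠ w in 𝓝 v, c * ‖w - v‖ ≤ ‖S w - S v‖ := by
  have h1 := hasDerivAt_iff_isLittleO.1 h
  have hs0 : 0 < ‖s‖ := norm_pos_iff.2 hs
  have h2 := h1.def (half_pos hs0)
  refine ⟨‖s‖ / 2, half_pos hs0, h2.mono fun w hw => ?_⟩
  have h3 : ‖(w - v) • s‖ ≤ ‖S w - S v - (w - v) • s‖ + ‖S w - S v‖ := by
    have : (w - v) • s = -(S w - S v - (w - v) • s) + (S w - S v) := by ring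
    calc ‖(w - v) • s‖ = ‖-(S w - S v - (w - v) • s) + (S w - S v)‖ := by rw [← this]
      _ ≤ _ := by
        refine (norm_add_le _ _).trans ?_
        rw [norm_neg]
  rw [norm_smul] at h3
  nlinarith

/-- transport of lower bounds -/
lemma lower (hp : 0 < p) (hpr : p < r) (hW : Ext p r 0 1 V W) {a x : ℝ} {z z' : ℂ}
    (hl0 : Tendsto (fun τ => W (a + τ)) (𝓝[UP] 0) (𝓝 z))
    (hl1 : Tendsto (fun τ => W ((a + 1 : ℝ) + τ)) (𝓝[UP] 0) (𝓝 z'))
    (hi' : 0 ≤ z'.im) (h1' : z' ≠ 0) (h2' : z' ≠ -p) (h3' : z' ≠ r)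
    (hi : 0 ≤ z.im) (h1 : z ≠ 0) (h2 : z ≠ p) (h3 : z ≠ -r) (hL : Low W a z x) :
    Low W (a + 1) z' x := by
  have hr : 0 < r := hp.trans hpr
  have := neBot
  obtain ⟨T, hTa, -, hTd, hTe⟩ := exists_branch hp hr hi' h1' h2' h3'
  obtain ⟨S, hSa, -, hSd, hSe⟩ := exists_branch' (v := -z) hp hr (by simpa using hi)
    (by simpa using h1) (by simpa using h2) (fun h => h3 (by rw [← h, neg_neg]))
  have hl0' : Tendsto (fun τ => -W (a + τ)) (𝓝[UP] 0) (𝓝 (-z)) := hl0.neg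
  have hP : Pf p r (-z) ≠ 0 := by
    unfold Pf
    refine mul_ne_zero (mul_ne_zero (by simpa using h1) ?_) ?_
    · intro h
      apply h2
      linear_combination -h
    · intro h
      apply h3
      linear_combination -h
  have hK : (p * r * (p + r) / Pf p r (-z) : ℂ) ≠ 0 := by
    refine div_ne_zero ?_ hP
    have : ((p * r * (p + r) : ℝ) : ℂ) ≠ 0 := by
      exact_mod_cast (by positivity : (p * r * (p + r) : ℝ) ≠ 0)
    simpa using this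
  obtain ⟨C, hC, hlip⟩ := lip hTa.differentiableAt
  obtain ⟨c, hc, hlow⟩ := low hSd.self_of_nhds hK
  -- the two branches agree
  have hw1 : Tendsto (fun τ => W ((a + 1 : ℝ) + τ)) (𝓝[UP] 0) (𝓝[UP] z') :=
    tendsto_nhdsWithin_iff.2 ⟨hl1, wup hW (a + 1)⟩
  have hw0 : Tendsto (fun τ => -W (a + τ)) (𝓝[UP] 0) (𝓝[{w : ℂ | w.im < 0}] (-z)) := by
    refine tendsto_nhdsWithin_iff.2 ⟨hl0', (wup hW a).mono fun τ h => ?_⟩
    simpa [UP] using h
  have hTS : ∀ᶠ τ in 𝓝[UP] (0:ℂ), T (W ((a + 1 : ℝ) + τ)) = S (-W (a + τ)) := by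
    filter_upwards [hw1.eventually hTe, hw0.eventually hSe, ev_up] with τ e1 e2 hτ
    rw [← e1, ← e2, step' hW hτ]
  have hlim : T z' = S (-z) := by
    have e1 : Tendsto (fun τ => T (W ((a + 1 : ℝ) + τ))) (𝓝[UP] 0) (𝓝 (T z')) :=
      hTa.continuousAt.tendsto.comp hl1
    have e2 : Tendsto (fun τ => S (-W (a + τ))) (𝓝[UP] 0) (𝓝 (S (-z))) :=
      hSa.continuousAt.tendsto.comp hl0'
    exact tendsto_nhds_unique (e1.congr' hTS) e2
  obtain ⟨c₀, hc₀, hL'⟩ := hL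
  refine ⟨c₀ * c / C, by positivity, ?_⟩
  filter_upwards [hL', hTS, hl1.eventually hlip, hl0'.eventually hlow] with τ e1 e2 e3 e4
  have e5 : ‖-W (a + τ) - -z‖ = ‖W (a + τ) - z‖ := by
    rw [← norm_neg]
    congr 1
    ring
  rw [e5, ← e2, ← hlim] at e4
  have e6 : c * (c₀ * ‖τ‖ ^ x) ≤ C * ‖W ((a + 1 : ℝ) + τ) - z'‖ :=
    (mul_le_mul_of_nonneg_left e1 hc.le).trans (e4.trans e3)
  rw [div_mul_eq_mul_div, div_le_iff₀ hC]
  linarith

lemma strip_lim (hW : Ext p r 0 1 V W) {a : ℝ} {ζ : ℂ}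
    (h : Tendsto (fun τ => Hf p r (W (a + τ))) (𝓝[UP] 0) (𝓝 ζ)) : |ζ.im| ≤ p * π := by
  have := neBot
  have h1 : Tendsto (fun τ => |(Hf p r (W (a + τ))).im|) (𝓝[UP] 0) (𝓝 |ζ.im|) :=
    ((continuous_im.tendsto ζ).comp h).abs
  exact le_of_tendsto h1 (ev_up.mono fun τ hτ => (hW.strip _ (up_add hτ)).le)

/-- limit of `Hf (mir W)` at a regular boundary point -/
lemma lim_mir (hp : 0 < p) (hr : 0 < r) (hW : Ext p r 0 1 V W) {a : ℝ} {z : ℂ}
    (hl : Tendsto (fun τ => W (a + τ)) (𝓝[UP] 0) (𝓝 z)) (hi : 0 ≤ z.im) (h1 : z ≠ 0)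
    (h2 : mir z ≠ -p) (h3 : mir z ≠ r) :
    Tendsto (fun τ => Hf p r (mir (W (a + τ)))) (𝓝[UP] 0) (𝓝 (Hb p r (mir z))) := by
  have hm : Tendsto (fun τ => mir (W (a + τ))) (𝓝[UP] 0) (𝓝 (mir z)) :=
    (mir_cont.tendsto z).comp hl
  have hmem : mir z ∈ {V : ℂ | 0 ≤ V.im ∧ V ≠ 0 ∧ V ≠ -p ∧ V ≠ r} := by
    refine ⟨by simpa [mir] using hi, ?_, h2, h3⟩
    simpa [mir] using h1
  have hev : ∀ᶠ τ in 𝓝[UP] (0:ℂ), mir (W (a + τ)) ∈
      {V : ℂ | 0 ≤ V.im ∧ V ≠ 0 ∧ V ≠ -p ∧ V ≠ r} := by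
    refine (wup hW a).mono fun τ hτ => ?_
    have h4 : 0 < (mir (W (a + τ))).im := mir_up hτ
    refine ⟨h4.le, ?_, ?_, ?_⟩
    · intro h
      rw [h] at h4
      simp at h4
    · intro h
      rw [h] at h4
      simp at h4
    · intro h
      rw [h] at h4
      simp at h4
  have h5 := (Hb_contOn hp hr (mir z) hmem).tendsto.comp (tendsto_nhdsWithin_iff.2 ⟨hm, hev⟩)
  refine h5.congr' ((wup hW a).mono fun τ hτ => ?_)
  simp only [Function.comp]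
  exact Hb_eq hp hr (UP_subset_Dm (mir_up hτ))

lemma lim_step (hp : 0 < p) (hr : 0 < r) (hW : Ext p r 0 1 V W) {a : ℝ} {ζ : ℂ}
    (h : Tendsto (fun τ => Hf p r (mir (W (a + τ)))) (𝓝[UP] 0) (𝓝 ζ)) :
    Tendsto (fun τ => Hf p r (W ((a + 1 : ℝ) + τ))) (𝓝[UP] 0) (𝓝 ((starRingEnd ℂ) ζ)) := by
  have h1 := (continuous_conj.tendsto ζ).comp h
  exact h1.congr' (ev_up.mono fun τ hτ => (step hp hr hW hτ).symm)

lemma up_ne {z : ℂ} (hz : z ∈ UP) (x : ℝ) : z ≠ x := by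
  intro h
  rw [h] at hz
  simp [UP] at hz

end ChainStep

open ChainStep

theorem step_up (hp : 0 < p) (hpr : p < r) (hW : Ext p r 0 1 V W) {a x : ℝ} {z : ℂ}
    (hz : z ∈ UP) (hl : Tendsto (fun τ => W (a + τ)) (𝓝[UP] 0) (𝓝 z)) (hL : Low W a z x) :
    (∃ z' ∈ UP, Tendsto (fun τ => W ((a + 1 : ℝ) + τ)) (𝓝[UP] 0) (𝓝 z') ∧
      Low W (a + 1) z' x) ∨
    (∃ x' : ℝ, p ≤ x' ∧ x' < r ∧ Tendsto (fun τ => W ((a + 1 : ℝ) + τ)) (𝓝[UP] 0) (𝓝 (x' : ℂ)) ∧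
      Low W (a + 1) x' x) := by
  have hr : 0 < r := hp.trans hpr
  have := neBot
  have hz0 : z ≠ 0 := by simpa using up_ne hz 0
  have hzp : z ≠ p := up_ne hz p
  have hzr : z ≠ -r := by simpa using up_ne hz (-r)
  have hmz : mir z ∈ UP := mir_up hz
  have hm1 : mir z ≠ -p := by simpa using up_ne hmz (-p)
  have hm2 : mir z ≠ r := up_ne hmz r
  have h1 := lim_mir hp hr hW hl (le_of_lt hz) hz0 hm1 hm2
  rw [Hb_eq hp hr (UP_subset_Dm hmz)] at h1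
  have h2 := lim_step hp hr hW h1
  set ζ := (starRingEnd ℂ) (Hf p r (mir z)) with hζ
  have hXs := Hf_mapsTo hp hr hmz
  obtain ⟨hx1, hx2, hx3⟩ := hXs
  have hζi : ζ.im = -(Hf p r (mir z)).im := by simp [hζ]
  have hζr : ζ.re = (Hf p r (mir z)).re := by simp [hζ]
  have h3 := strip_lim hW h2
  have hπ := Real.pi_pos
  have hpr' : p * π < r * π := mul_lt_mul_of_pos_right hpr hπ
  rcases (abs_le.1 h3).2.lt_or_eq with h4 | h4
  · left
    have hζX : ζ ∈ Xs p r := by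
      refine ⟨?_, h4, ?_⟩
      · linarith [(abs_le.1 h3).1]
      · intro h5
        rw [hζr]
        apply hx3
        linarith
    obtain ⟨z', hz', hHz'⟩ := Hf_surjOn hp hr hζX
    have h5 : Tendsto (fun τ => W ((a + 1 : ℝ) + τ)) (𝓝[UP] 0) (𝓝 z') := by
      apply lim_up hp hr (wup hW (a + 1)) hz'
      rw [hHz']
      exact h2
    refine ⟨z', hz', h5, lower hp hpr hW hl h5 (le_of_lt hz') ?_ ?_ ?_ (le_of_lt hz) hz0 hzp hzr hL⟩
    · simpa using up_ne hz' 0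
    · simpa using up_ne hz' (-p)
    · exact up_ne hz' r
  · right
    obtain ⟨x', hx'0, hx'r, hx'⟩ := Hb_surj3 hp hr h4
    have h5 : Tendsto (fun τ => W ((a + 1 : ℝ) + τ)) (𝓝[UP] 0) (𝓝 (x' : ℂ)) := by
      apply lim_3 hp hr (wup hW (a + 1)) hx'0 hx'r
      rw [hx']
      exact h2
    have hx'ne0 : (x' : ℂ) ≠ 0 := by exact_mod_cast hx'0.ne'
    have hx'p : p ≤ x' := by
      by_contra hlt
      push Not at hlt
      have e1 : mir (x' : ℂ) ≠ -p := by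
        rw [mir_real]
        intro h
        have : (-x' : ℝ) = -p := by exact_mod_cast h
        linarith
      have e2 : mir (x' : ℂ) ≠ r := by
        rw [mir_real]
        intro h
        have : (-x' : ℝ) = r := by exact_mod_cast h
        linarith
      have h6 := lim_mir hp hr hW h5 (by simp) hx'ne0 e1 e2
      have h7 := strip_lim hW (lim_step hp hr hW h6)
      rw [mir_real, conj_im, Hb_I2 hp hr (by linarith) (by linarith), neg_neg,
        abs_of_pos (by positivity)] at h7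
      linarith
    refine ⟨x', hx'p, hx'r, h5, lower hp hpr hW hl h5 (by simp) hx'ne0 ?_ ?_
      (le_of_lt hz) hz0 hzp hzr hL⟩
    · intro h
      have : (x' : ℝ) = -p := by exact_mod_cast h
      linarith
    · intro h
      have : (x' : ℝ) = r := by exact_mod_cast h
      linarith

theorem step_first (hp : 0 < p) (hpr : p < r) (hW : Ext p r 0 1 V W) {a x : ℝ}
    (hl : Tendsto (fun τ => W (a + τ)) (𝓝[UP] 0) (𝓝 (-p : ℂ))) (hL : Low W a (-p) x) :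
    ∃ z' ∈ UP, Hf p r z' = (starRingEnd ℂ) (Hb p r p) ∧
      Tendsto (fun τ => W ((a + 1 : ℝ) + τ)) (𝓝[UP] 0) (𝓝 z') ∧ Low W (a + 1) z' x := by
  have hr : 0 < r := hp.trans hpr
  have hpne : (p : ℂ) ≠ 0 := by exact_mod_cast hp.ne'
  have hmir : mir (-p : ℂ) = p := by simp [mir]
  have h1 := lim_mir hp hr hW hl (by simp) (by simpa using hpne) (by
    rw [hmir]
    intro h
    have : (p : ℝ) = -p := by exact_mod_cast h
    linarith) (by
    rw [hmir]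
    intro h
    have : (p : ℝ) = r := by exact_mod_cast h
    linarith)
  rw [hmir] at h1
  have h2 := lim_step hp hr hW h1
  have hπ := Real.pi_pos
  have hpr' : p * π < r * π := mul_lt_mul_of_pos_right hpr hπ
  have hpp : 0 < p * π := mul_pos hp hπ
  have him : ((starRingEnd ℂ) (Hb p r p)).im = -(p * π) := by
    rw [conj_im, Hb_I3 hp hr hp hpr]
  have hX : (starRingEnd ℂ) (Hb p r p) ∈ Xs p r := by
    refine ⟨?_, ?_, ?_⟩
    · rw [him]
      linarith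
    · rw [him]
      linarith
    · intro h
      rw [him] at h
      linarith
  obtain ⟨z', hz', hHz'⟩ := Hf_surjOn hp hr hX
  have h5 : Tendsto (fun τ => W ((a + 1 : ℝ) + τ)) (𝓝[UP] 0) (𝓝 z') := by
    apply lim_up hp hr (wup hW (a + 1)) hz'
    rw [hHz']
    exact h2
  refine ⟨z', hz', hHz', h5, lower hp hpr hW hl h5 (le_of_lt hz') ?_ ?_ ?_ (by simp) ?_ ?_ ?_ hL⟩
  · simpa using up_ne hz' 0
  · simpa using up_ne hz' (-p)
  · exact up_ne hz' r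
  · simpa using hpne
  · intro h
    have : (-p : ℝ) = p := by exact_mod_cast h
    linarith
  · intro h
    have : (-p : ℝ) = -r := by exact_mod_cast h
    linarith

theorem step_real (hp : 0 < p) (hpr : p < r) (hW : Ext p r 0 1 V W) {a x y : ℝ} (hy : p < y)
    (hl : Tendsto (fun τ => W (a + τ)) (𝓝[UP] 0) (𝓝 (y : ℂ))) (hL : Low W a y x) :
    ∃ y' : ℝ, r < y' ∧ Tendsto (fun τ => W ((a + 1 : ℝ) + τ)) (𝓝[UP] 0) (𝓝 (y' : ℂ)) ∧
      Low W (a + 1) y' x := by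
  have hr : 0 < r := hp.trans hpr
  have hy0 : (y : ℂ) ≠ 0 := by exact_mod_cast (hp.trans hy).ne'
  have h1 := lim_mir hp hr hW hl (by simp) hy0 (by
    rw [mir_real]
    intro h
    have : (-y : ℝ) = -p := by exact_mod_cast h
    linarith) (by
    rw [mir_real]
    intro h
    have : (-y : ℝ) = r := by exact_mod_cast h
    linarith)
  rw [mir_real] at h1
  have h2 := lim_step hp hr hW h1
  obtain ⟨hi, hre⟩ := Hb_I14 hp hr (x := -y) (Or.inl (by linarith))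
  have hconj : (starRingEnd ℂ) (Hb p r ((-y : ℝ) : ℂ)) = Hb p r ((-y : ℝ) : ℂ) := by
    apply Complex.ext
    · simp
    · rw [conj_im, hi, neg_zero]
  rw [hconj] at h2
  obtain ⟨y', hy', hHy'⟩ := Hb_surj4 hp hr hi hre
  have hm : Tendsto (fun τ => mir (W (a + τ))) (𝓝[UP] 0) (𝓝[UP] ((-y : ℝ) : ℂ)) := by
    refine tendsto_nhdsWithin_iff.2 ⟨?_, (wup hW a).mono fun τ h => mir_up h⟩
    rw [← mir_real]
    exact (mir_cont.tendsto _).comp hl
  have hpos : ∀ᶠ τ in 𝓝[UP] (0:ℂ), 0 < (Hf p r (W ((a + 1 : ℝ) + τ))).im := by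
    filter_upwards [hm.eventually (Hf_side1 hp hr (x := -y) (by linarith)), ev_up] with τ e1 hτ
    rw [step hp hr hW hτ, conj_im]
    linarith
  have h5 : Tendsto (fun τ => W ((a + 1 : ℝ) + τ)) (𝓝[UP] 0) (𝓝 (y' : ℂ)) := by
    apply lim_4 hp hr (wup hW (a + 1)) hy' _ hpos
    rw [hHy']
    exact h2
  refine ⟨y', hy', h5, lower hp hpr hW hl h5 (by simp) ?_ ?_ ?_ (by simp) hy0 ?_ ?_ hL⟩
  · exact_mod_cast (hr.trans hy').ne'
  · intro h
    have : (y' : ℝ) = -p := by exact_mod_cast h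
    linarith
  · intro h
    have : (y' : ℝ) = r := by exact_mod_cast h
    linarith
  · intro h
    have : (y : ℝ) = p := by exact_mod_cast h
    linarith
  · intro h
    have : (y : ℝ) = -r := by exact_mod_cast h
    linarith

theorem step_p (hp : 0 < p) (hpr : p < r) (hW : Ext p r 0 1 V W) {a : ℝ}
    (hl : Tendsto (fun τ => W (a + τ)) (𝓝[UP] 0) (𝓝 (p : ℂ))) :
    Tendsto (fun τ => W ((a + 1 : ℝ) + τ)) (𝓝[UP] 0) (𝓝 (r : ℂ)) := by
  have hr : 0 < r := hp.trans hpr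
  have hm0 : Tendsto (fun τ => mir (W (a + τ))) (𝓝[UP] 0) (𝓝 ((-p : ℝ) : ℂ)) := by
    rw [← mir_real]
    exact (mir_cont.tendsto _).comp hl
  have hm : Tendsto (fun τ => mir (W (a + τ))) (𝓝[UP] 0) (𝓝[UP] ((-p : ℝ) : ℂ)) :=
    tendsto_nhdsWithin_iff.2 ⟨hm0, (wup hW a).mono fun τ h => mir_up h⟩
  have hm' : Tendsto (fun τ => mir (W (a + τ))) (𝓝[UP] 0) (𝓝[≠] (-p : ℂ)) := by
    refine tendsto_nhdsWithin_iff.2 ⟨by simpa using hm0, (wup hW a).mono fun τ h => ?_⟩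
    have := up_ne (mir_up h) (-p)
    simpa using this
  have hpos : ∀ᶠ τ in 𝓝[UP] (0:ℂ), 0 < (Hf p r (W ((a + 1 : ℝ) + τ))).im := by
    filter_upwards [hm.eventually (Hf_side1 hp hr (x := -p) le_rfl), ev_up] with τ e1 hτ
    rw [step hp hr hW hτ, conj_im]
    linarith
  apply lim_r hp hr (wup hW (a + 1)) _ hpos
  refine ((Hf_re_mp hp hr).comp hm').congr' (ev_up.mono fun τ hτ => ?_)
  simp only [Function.comp]
  rw [step hp hr hW hτ, conj_re]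

theorem not_low (hp : 0 < p) (hpr : p < r) (hV : SHM p r 0 D 1 R V)
    (hW : Ext p r 0 1 V W) {x : ℝ} (hx : x < 1) :
    ∃ A : ℝ, ∀ a : ℝ, A < a → ∀ z : ℂ, Tendsto (fun τ => W (a + τ)) (𝓝[UP] 0) (𝓝 z) →
      ¬ Low W a z x := by
  have := neBot
  obtain ⟨R', hR'⟩ := hW.far
  refine ⟨max (max R R') 0, fun a ha z hz hL => ?_⟩
  have ha0 : 0 < a := lt_of_le_of_lt (le_max_right _ _) ha
  have haR : R < a := lt_of_le_of_lt ((le_max_left _ _).trans (le_max_left _ _)) ha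
  have haR' : R' < a := lt_of_le_of_lt ((le_max_right _ _).trans (le_max_left _ _)) ha
  have hna : ‖(a : ℂ)‖ = a := by
    rw [Complex.norm_real, Real.norm_eq_abs, abs_of_pos ha0]
  have hsh : Tendsto (fun τ : ℂ => (a : ℂ) + τ) (𝓝 0) (𝓝 (a : ℂ)) := by
    have : Tendsto (fun τ : ℂ => (a : ℂ) + τ) (𝓝 0) (𝓝 ((a : ℂ) + 0)) :=
      (continuous_const.add continuous_id).tendsto 0
    simpa using this
  have hev : ∀ᶠ τ in 𝓝 (0:ℂ), R' < ‖(a : ℂ) + τ‖ := by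
    have h1 : Tendsto (fun τ : ℂ => ‖(a : ℂ) + τ‖) (𝓝 0) (𝓝 a) := by
      have := hsh.norm
      rwa [hna] at this
    exact h1.eventually_const_lt haR'
  have hWV : ∀ᶠ τ in 𝓝[UP] (0:ℂ), W (a + τ) = V (a + τ) := by
    filter_upwards [ev_up, nhdsWithin_le_nhds hev] with τ hτ h2
    exact hR' _ (up_add hτ) h2
  have hdV : DifferentiableAt ℂ V a := hV.diff a (by rw [hna]; exact haR)
  have hzV : z = V a := by
    have h1 : Tendsto (fun τ => V (a + τ)) (𝓝[UP] 0) (𝓝 (V a)) :=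
      (hdV.continuousAt.tendsto.comp hsh).mono_left nhdsWithin_le_nhds
    exact tendsto_nhds_unique hz (h1.congr' (hWV.mono fun τ h => h.symm))
  obtain ⟨C, hC, hlip⟩ := lip hdV
  obtain ⟨c, hc, hL'⟩ := hL
  have hlim : Tendsto (fun τ : ℂ => C * ‖τ‖ ^ (1 - x)) (𝓝[UP] 0) (𝓝 0) := by
    have h1 : Tendsto (fun τ : ℂ => ‖τ‖ ^ (1 - x)) (𝓝 0) (𝓝 (‖(0:ℂ)‖ ^ (1 - x))) :=
      (continuous_norm.tendsto (0:ℂ)).rpow_const (Or.inr (by linarith))
    rw [norm_zero, Real.zero_rpow (by linarith)] at h1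
    have h2 := (h1.const_mul C).mono_left (nhdsWithin_le_nhds (s := UP))
    rwa [mul_zero] at h2
  have hall : ∀ᶠ τ in 𝓝[UP] (0:ℂ), False := by
    filter_upwards [ev_up, hL', hWV, nhdsWithin_le_nhds (hsh.eventually hlip),
      hlim.eventually_lt_const hc] with τ hτ e1 e2 e3 e4
    have hτ0 : 0 < ‖τ‖ := by
      rw [norm_pos_iff]
      simpa using up_ne hτ 0
    rw [e2, hzV] at e1
    rw [add_sub_cancel_left] at e3
    have e5 : c * ‖τ‖ ^ x ≤ C * ‖τ‖ := e1.trans e3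
    have e6 : ‖τ‖ = ‖τ‖ ^ (1 - x) * ‖τ‖ ^ x := by
      rw [← Real.rpow_add hτ0]
      simp
    have e7 : 0 < ‖τ‖ ^ x := Real.rpow_pos_of_pos hτ0 x
    have e8 : c * ‖τ‖ ^ x ≤ C * ‖τ‖ ^ (1 - x) * ‖τ‖ ^ x := by
      calc c * ‖τ‖ ^ x ≤ C * ‖τ‖ := e5
        _ = C * (‖τ‖ ^ (1 - x) * ‖τ‖ ^ x) := by rw [← e6]
        _ = C * ‖τ‖ ^ (1 - x) * ‖τ‖ ^ x := by ring
    have e9 : c ≤ C * ‖τ‖ ^ (1 - x) := le_of_mul_le_mul_right e8 e7
    linarith
  simpa using hall.exists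

end XE

end Pool.Agent.MP_ae5b4e_an_ALG
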