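import Pool.Agent.Lib.MP_ae5b4e_an_ALG.BdryB

/-!
# MP_ae5b4e_an, algebraic tables: orbits of real points (module VO)
-/

set_option autoImplicit false
noncomputable section
namespace Pool.Agent.MP_ae5b4e_an_ALG
open Filter Topology Set Metric Complex
open scoped Real

namespace Dyn

/-- the real part of `Hb` at real points -/
def Gr (p r x : ℝ) : ℝ := p * Real.log |1 - r / x| + r * Real.log |1 + p / x|

theorem Hb_re_eq (p r x : ℝ) : (Hb p r x).re = Gr p r x := Hb_re p r x

theorem Gr_cont {p r x : ℝ} (h0 : x ≠ 0) (h1 : x ≠ r) (h2 : x ≠ -p) :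
    ContinuousAt (Gr p r) x := by
  have e1 : |1 - r / x| ≠ 0 := by
    rw [abs_ne_zero, sub_ne_zero]
    intro h
    exact h1 ((div_eq_one_iff_eq h0).1 h.symm).symm
  have e2 : |1 + p / x| ≠ 0 := by
    rw [abs_ne_zero]
    intro h
    apply h2
    have : (1 + p / x) * x = 0 := by rw [h, zero_mul]
    rw [add_mul, div_mul_cancel₀ _ h0] at this
    linarith
  have c1 : ContinuousAt (fun x : ℝ => |1 - r / x|) x :=
    (continuousAt_const.sub (continuousAt_const.div continuousAt_id h0)).abs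
  have c2 : ContinuousAt (fun x : ℝ => |1 + p / x|) x :=
    (continuousAt_const.add (continuousAt_const.div continuousAt_id h0)).abs
  exact (continuousAt_const.mul (c1.log e1)).add (continuousAt_const.mul (c2.log e2))

/-- `r artanh (p / y) < p artanh (r / y)` -/
theorem artanh_lt {p r y : ℝ} (hp : 0 < p) (hpr : p < r) (hy : r < y) :
    r * (Real.log (1 + p / y) - Real.log (1 - p / y)) <
      p * (Real.log (1 + r / y) - Real.log (1 - r / y)) := by
  have hr : 0 < r := hp.trans hpr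
  have hy0 : 0 < y := hr.trans hy
  have a1 : |p / y| < 1 := by
    rw [abs_of_pos (div_pos hp hy0), div_lt_one hy0]; linarith
  have a2 : |r / y| < 1 := by
    rw [abs_of_pos (div_pos hr hy0), div_lt_one hy0]; exact hy
  have s1 := (Real.hasSum_log_sub_log_of_abs_lt_one a1).mul_left r
  have s2 := (Real.hasSum_log_sub_log_of_abs_lt_one a2).mul_left p
  have key : ∀ k : ℕ, r * (p / y) ^ (2 * k + 1) ≤ p * (r / y) ^ (2 * k + 1) := by
    intro k
    have h : p ^ (2 * k) ≤ r ^ (2 * k) := pow_le_pow_left₀ hp.le hpr.le _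
    have e1 : r * (p / y) ^ (2 * k + 1) = p * r / y ^ (2 * k + 1) * p ^ (2 * k) := by
      rw [div_pow]; ring
    have e2 : p * (r / y) ^ (2 * k + 1) = p * r / y ^ (2 * k + 1) * r ^ (2 * k) := by
      rw [div_pow]; ring
    rw [e1, e2]
    exact mul_le_mul_of_nonneg_left h (by positivity)
  have key1 : r * (p / y) ^ (2 * 1 + 1) < p * (r / y) ^ (2 * 1 + 1) := by
    have h : p ^ 2 < r ^ 2 := pow_lt_pow_left₀ hpr hp.le (by norm_num)
    have e1 : r * (p / y) ^ (2 * 1 + 1) = p * r / y ^ 3 * p ^ 2 := by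
      rw [div_pow]; ring
    have e2 : p * (r / y) ^ (2 * 1 + 1) = p * r / y ^ 3 * r ^ 2 := by
      rw [div_pow]; ring
    rw [e1, e2]
    exact mul_lt_mul_of_pos_left h (by positivity)
  refine hasSum_lt (i := 1) ?_ ?_ s1 s2
  · intro k
    have := mul_le_mul_of_nonneg_left (key k) (show (0:ℝ) ≤ 2 * (1 / (2 * (k:ℝ) + 1)) by positivity)
    calc _ = 2 * (1 / (2 * (k:ℝ) + 1)) * (r * (p / y) ^ (2 * k + 1)) := by ring
      _ ≤ _ := this
      _ = _ := by ring
  · have := mul_lt_mul_of_pos_left key1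
      (show (0:ℝ) < 2 * (1 / (2 * ((1:ℕ):ℝ) + 1)) by positivity)
    calc _ = 2 * (1 / (2 * ((1:ℕ):ℝ) + 1)) * (r * (p / y) ^ (2 * 1 + 1)) := by ring
      _ < _ := this
      _ = _ := by ring

/-- reflection increases the value -/
theorem Gr_lt {p r y : ℝ} (hp : 0 < p) (hpr : p < r) (hy : r < y) : Gr p r y < Gr p r (-y) := by
  have hr : 0 < r := hp.trans hpr
  have hy0 : 0 < y := hr.trans hy
  have b1 : 0 < 1 - r / y := by rw [sub_pos, div_lt_one hy0]; exact hy
  have b2 : 0 < 1 - p / y := by rw [sub_pos, div_lt_one hy0]; linarith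
  have b3 : 0 < 1 + r / y := by positivity
  have b4 : 0 < 1 + p / y := by positivity
  have h := artanh_lt hp hpr hy
  have e1 : Gr p r y = p * Real.log (1 - r / y) + r * Real.log (1 + p / y) := by
    rw [Gr, abs_of_pos b1, abs_of_pos b4]
  have e2 : Gr p r (-y) = p * Real.log (1 + r / y) + r * Real.log (1 - p / y) := by
    rw [Gr, show 1 - r / -y = 1 + r / y by rw [div_neg]; ring,
      show 1 + p / -y = 1 - p / y by rw [div_neg]; ring, abs_of_pos b3, abs_of_pos b2]
  rw [e1, e2]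
  linarith

theorem neg_log_ge {x : ℝ} (h0 : 0 < x) (h1 : x < 1) : x + x ^ 2 / 2 ≤ -Real.log (1 - x) := by
  have s := Real.hasSum_pow_div_log_of_abs_lt_one (x := x) (by rw [abs_of_pos h0]; exact h1)
  have := sum_le_hasSum (Finset.range 2) (fun n _ => by positivity) s
  simp [Finset.sum_range_succ] at this
  have e : (1 + 1 : ℝ) = 2 := by norm_num
  rw [e] at this
  exact this

theorem log_le_half {y : ℝ} (h : 1 ≤ y) : Real.log y ≤ (y - y⁻¹) / 2 := by
  rw [← Real.sinh_log (by linarith)]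
  exact Real.self_le_sinh_iff.2 (Real.log_nonneg h)

theorem Gr_lt' {p r v : ℝ} (hp : 0 < p) (hpr : p < r) (hv : p < v) :
    Gr p r (-v) < Gr p r (v + 2 * r) := by
  have hr : 0 < r := hp.trans hpr
  have hv0 : 0 < v := hp.trans hv
  have hs : 0 < v + 2 * r := by linarith
  have b1 : 0 < 1 - r / (v + 2 * r) := by rw [sub_pos, div_lt_one hs]; linarith
  have b2 : 0 < 1 - p / v := by rw [sub_pos, div_lt_one hv0]; exact hv
  have b3 : 0 < 1 + r / v := by positivity
  have b4 : 0 < 1 + p / (v + 2 * r) := by positivity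
  have e1 : Gr p r (v + 2 * r) =
      p * Real.log (1 - r / (v + 2 * r)) + r * Real.log (1 + p / (v + 2 * r)) := by
    rw [Gr, abs_of_pos b1, abs_of_pos b4]
  have e2 : Gr p r (-v) = p * Real.log (1 + r / v) + r * Real.log (1 - p / v) := by
    rw [Gr, show 1 - r / -v = 1 + r / v by rw [div_neg]; ring,
      show 1 + p / -v = 1 - p / v by rw [div_neg]; ring, abs_of_pos b3, abs_of_pos b2]
  have e3 : Real.log (1 - r / (v + 2 * r)) = Real.log (1 + r / v) - Real.log (1 + 2 * r / v) := by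
    have : 1 - r / (v + 2 * r) = (1 + r / v) / (1 + 2 * r / v) := by
      field_simp
      ring
    rw [this, Real.log_div b3.ne' (by positivity)]
  have k1 := neg_log_ge (x := p / v) (by positivity) (by rw [div_lt_one hv0]; exact hv)
  have k2 := Real.le_log_one_add_of_nonneg (x := p / (v + 2 * r)) (by positivity)
  have k3 := log_le_half (y := 1 + 2 * r / v) (by
    have : 0 ≤ 2 * r / v := by positivity
    linarith)
  rw [e1, e2, e3]
  have m1 := mul_le_mul_of_nonneg_left k1 hr.le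
  have m2 := mul_le_mul_of_nonneg_left k2 hr.le
  have m3 := mul_le_mul_of_nonneg_left k3 hp.le
  have key : p * ((1 + 2 * r / v - (1 + 2 * r / v)⁻¹) / 2) <
      r * (p / v + (p / v) ^ 2 / 2) + r * (2 * (p / (v + 2 * r)) / (p / (v + 2 * r) + 2)) := by
    have e4 : p * ((1 + 2 * r / v - (1 + 2 * r / v)⁻¹) / 2) =
        p * r / v + p * r / (v + 2 * r) := by
      field_simp
      ring
    have e5 : r * (2 * (p / (v + 2 * r)) / (p / (v + 2 * r) + 2)) =
        2 * p * r / (p + 2 * (v + 2 * r)) := by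
      field_simp
    have e6 : r * (p / v + (p / v) ^ 2 / 2) = p * r / v + p ^ 2 * r / (2 * v ^ 2) := by
      field_simp
    have e7 : p * r / (v + 2 * r) - 2 * p * r / (p + 2 * (v + 2 * r)) =
        p ^ 2 * r / ((v + 2 * r) * (p + 2 * (v + 2 * r))) := by
      field_simp
      ring
    have e8 : p ^ 2 * r / ((v + 2 * r) * (p + 2 * (v + 2 * r))) < p ^ 2 * r / (2 * v ^ 2) := by
      apply div_lt_div_of_pos_left (by positivity) (by positivity)
      nlinarith [mul_pos hr hv0, mul_pos hp hv0, mul_pos hr hr, mul_pos hp hr]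
    rw [e4, e5, e6]
    linarith
  nlinarith

end Dyn

section VO
variable {p r c : ℝ}

/-- The orbit of a real point `y > p - 2 c`, `ε = 1`. -/
theorem orbit_pos (hp : 0 < p) (hpr : p < r) (hc : 0 ≤ c) {y : ℝ} (hy : p - 2 * c < y) :
    ∃ u : ℕ → ℝ, u 0 = y ∧
      (∀ n, r < u (n + 1) ∧ Hb p r (u (n + 1)) = Hb p r ((-u n - 2 * c : ℝ) : ℂ)) ∧
      Tendsto u atTop atTop := by
  have hr : 0 < r := hp.trans hpr
  have hex : ∀ y : ℝ, ∃ x : ℝ, p - 2 * c < y →
      (r < x ∧ Hb p r x = Hb p r ((-y - 2 * c : ℝ) : ℂ)) := by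
    intro y
    by_cases h : p - 2 * c < y
    · obtain ⟨h1, h2⟩ := Hb_I14 hp hr (x := -y - 2 * c) (Or.inl (by linarith))
      obtain ⟨x, hx, hx'⟩ := Hb_surj4 hp hr h1 h2
      exact ⟨x, fun _ => ⟨hx, hx'⟩⟩
    · exact ⟨0, fun h' => absurd h' h⟩
  choose f hf using hex
  set u : ℕ → ℝ := fun n => f^[n] y with hu
  have us : ∀ n, u (n + 1) = f (u n) := fun n => Function.iterate_succ_apply' f n y
  have hdom : ∀ n, p - 2 * c < u n := by
    intro n
    induction n with
    | zero => exact hy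
    | succ n ih =>
      rw [us]
      have := (hf (u n) ih).1
      linarith
  have hstep : ∀ n, r < u (n + 1) ∧ Hb p r (u (n + 1)) = Hb p r ((-u n - 2 * c : ℝ) : ℂ) := by
    intro n
    rw [us]
    exact hf (u n) (hdom n)
  have claim : ∀ y : ℝ, r < y → Dyn.Gr p r y < Dyn.Gr p r (-y - 2 * c) := by
    intro y hy
    refine (Dyn.Gr_lt hp hpr hy).trans_le ?_
    rw [← Dyn.Hb_re_eq, ← Dyn.Hb_re_eq]
    exact (Hb_mono1 hp hr).antitoneOn (by simp; linarith) (by simp; linarith) (by linarith)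
  have hre : ∀ n, Dyn.Gr p r (u (n + 1)) = Dyn.Gr p r (-u n - 2 * c) := by
    intro n
    rw [← Dyn.Hb_re_eq, ← Dyn.Hb_re_eq, (hstep n).2]
  have hinc : ∀ n, u (n + 1) < u (n + 2) := by
    intro n
    have h1 := claim (u (n + 1)) (hstep n).1
    rw [← hre (n + 1), ← Dyn.Hb_re_eq, ← Dyn.Hb_re_eq] at h1
    exact ((Hb_mono4 hp hr).lt_iff_lt (hstep n).1 (hstep (n + 1)).1).1 h1
  refine ⟨u, rfl, hstep, ?_⟩
  have hmono : Monotone (fun n => u (n + 1)) := monotone_nat_of_le_succ fun n => (hinc n).le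
  rw [← tendsto_add_atTop_iff_nat 1]
  rcases tendsto_atTop_of_monotone hmono with h | ⟨L, hL⟩
  · exact h
  · exfalso
    have hL1 : r < L := lt_of_lt_of_le (hstep 0).1 (hmono.ge_of_tendsto hL 0)
    have hL2 : Tendsto (fun n => u (n + 1 + 1)) atTop (𝓝 L) :=
      (tendsto_add_atTop_iff_nat 1).2 hL
    have t1 : Tendsto (fun n => Dyn.Gr p r (u (n + 1 + 1))) atTop (𝓝 (Dyn.Gr p r L)) :=
      (Dyn.Gr_cont (by linarith) (by linarith) (by linarith)).tendsto.comp hL2
    have t2 : Tendsto (fun n => Dyn.Gr p r (-u (n + 1) - 2 * c)) atTop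
        (𝓝 (Dyn.Gr p r (-L - 2 * c))) :=
      (Dyn.Gr_cont (by linarith) (by linarith) (by linarith)).tendsto.comp
        (hL.neg.sub_const (2 * c))
    have t3 : Tendsto (fun n => Dyn.Gr p r (u (n + 1 + 1))) atTop
        (𝓝 (Dyn.Gr p r (-L - 2 * c))) := t2.congr fun n => (hre (n + 1)).symm
    exact absurd (tendsto_nhds_unique t1 t3) (claim L hL1).ne

/-- The orbit of a real point `y < r`, `ε = -1`, `c = -r`. -/
theorem orbit_neg (hp : 0 < p) (hpr : p < r) {y : ℝ} (hy : y < r) :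
    ∃ u : ℕ → ℝ, u 0 = y ∧
      (∀ n, u (n + 1) < -p ∧ Hb p r (u (n + 1)) = Hb p r ((-u n + 2 * r : ℝ) : ℂ)) ∧
      Tendsto u atTop atBot := by
  have hr : 0 < r := hp.trans hpr
  have hex : ∀ y : ℝ, ∃ x : ℝ, y < r →
      (x < -p ∧ Hb p r x = Hb p r ((-y + 2 * r : ℝ) : ℂ)) := by
    intro y
    by_cases h : y < r
    · obtain ⟨h1, h2⟩ := Hb_I14 hp hr (x := -y + 2 * r) (Or.inr (by linarith))
      obtain ⟨x, hx, hx'⟩ := Hb_surj1 hp hr h1 h2
      exact ⟨x, fun _ => ⟨hx, hx'⟩⟩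
    · exact ⟨0, fun h' => absurd h' h⟩
  choose f hf using hex
  set u : ℕ → ℝ := fun n => f^[n] y with hu
  have us : ∀ n, u (n + 1) = f (u n) := fun n => Function.iterate_succ_apply' f n y
  have hdom : ∀ n, u n < r := by
    intro n
    induction n with
    | zero => exact hy
    | succ n ih =>
      rw [us]
      have := (hf (u n) ih).1
      linarith
  have hstep : ∀ n, u (n + 1) < -p ∧ Hb p r (u (n + 1)) = Hb p r ((-u n + 2 * r : ℝ) : ℂ) := by
    intro n
    rw [us]
    exact hf (u n) (hdom n)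
  have claim : ∀ y : ℝ, y < -p → Dyn.Gr p r y < Dyn.Gr p r (-y + 2 * r) := by
    intro y hy
    have := Dyn.Gr_lt' hp hpr (v := -y) (by linarith)
    rwa [neg_neg] at this
  have hre : ∀ n, Dyn.Gr p r (u (n + 1)) = Dyn.Gr p r (-u n + 2 * r) := by
    intro n
    rw [← Dyn.Hb_re_eq, ← Dyn.Hb_re_eq, (hstep n).2]
  have hinc : ∀ n, u (n + 2) < u (n + 1) := by
    intro n
    have h1 := claim (u (n + 1)) (hstep n).1
    rw [← hre (n + 1), ← Dyn.Hb_re_eq, ← Dyn.Hb_re_eq] at h1
    exact ((Hb_mono1 hp hr).lt_iff_gt (hstep n).1 (hstep (n + 1)).1).1 h1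
  refine ⟨u, rfl, hstep, ?_⟩
  have hmono : Antitone (fun n => u (n + 1)) := antitone_nat_of_succ_le fun n => (hinc n).le
  rw [← tendsto_add_atTop_iff_nat 1]
  rcases tendsto_atTop_of_antitone hmono with h | ⟨L, hL⟩
  · exact h
  · exfalso
    have hL1 : L < -p := lt_of_le_of_lt (hmono.le_of_tendsto hL 0) (hstep 0).1
    have hL2 : Tendsto (fun n => u (n + 1 + 1)) atTop (𝓝 L) :=
      (tendsto_add_atTop_iff_nat 1).2 hL
    have t1 : Tendsto (fun n => Dyn.Gr p r (u (n + 1 + 1))) atTop (𝓝 (Dyn.Gr p r L)) :=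
      (Dyn.Gr_cont (by linarith) (by linarith) (by linarith)).tendsto.comp hL2
    have t2 : Tendsto (fun n => Dyn.Gr p r (-u (n + 1) + 2 * r)) atTop
        (𝓝 (Dyn.Gr p r (-L + 2 * r))) :=
      (Dyn.Gr_cont (by linarith) (by linarith) (by linarith)).tendsto.comp
        (hL.neg.add_const (2 * r))
    have t3 : Tendsto (fun n => Dyn.Gr p r (u (n + 1 + 1))) atTop
        (𝓝 (Dyn.Gr p r (-L + 2 * r))) := t2.congr fun n => (hre (n + 1)).symm
    exact absurd (tendsto_nhds_unique t1 t3) (claim L hL1).ne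
end VO

end Pool.Agent.MP_ae5b4e_an_ALG
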