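import Mathlib
import Pool.Agent.Lib.MP_ae5b4e_an_ALG.Defs
import Pool.Agent.Lib.MP_ae5b4e_an_ALG.BdryB

/-!
# MP_ae5b4e_an, algebraic tables: the uniformizing function near infinity

Growth, injectivity, half plane, real points near infinity; the mirror image.
-/

set_option autoImplicit false
noncomputable section
namespace Pool.Agent.MP_ae5b4e_an_ALG
open Filter Topology Set Metric Complex
open scoped Real

namespace Far

/-- eventually at infinity, with a radius -/
theorem radius {P : ℂ → Prop} (h : ∀ᶠ t in Bornology.cobounded ℂ, P t) :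
    ∃ A : ℝ, ∀ t : ℂ, A < ‖t‖ → P t := by
  obtain ⟨A, -, hA⟩ := hasBasis_cobounded_norm.eventually_iff.1 h
  exact ⟨A, fun t ht => hA ht.le⟩

variable {p r c D ε R : ℝ} {V : ℂ → ℂ}

/-- the error term near infinity -/
theorem err (h : SHM p r c D ε R V) {η : ℝ} (hη : 0 < η) :
    ∃ A : ℝ, R < A ∧ ∀ t : ℂ, A < ‖t‖ → ‖V t - D * t + c‖ < η := by
  obtain ⟨A, hA⟩ := radius (h.asym.eventually (ball_mem_nhds _ hη))
  refine ⟨max A (R + 1), lt_of_lt_of_le (by linarith) (le_max_right _ _), fun t ht => ?_⟩
  have h1 := hA t (lt_of_le_of_lt (le_max_left _ _) ht)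
  rw [dist_eq_norm] at h1
  have h2 : V t - D * t - -(c : ℂ) = V t - D * t + c := by ring
  rwa [h2] at h1

/-- the derivative of the error term -/
theorem derr (h : SHM p r c D ε R V) {η A : ℝ} (hA : R < A)
    (he : ∀ t : ℂ, A < ‖t‖ → ‖V t - D * t + c‖ < η) {t : ℂ} (ht : A + 1 < ‖t‖) :
    ‖deriv (fun t => V t - D * t + c) t‖ ≤ η := by
  have hsub : ∀ s ∈ closedBall t 1, A < ‖s‖ := by
    intro s hs
    rw [mem_closedBall, dist_eq_norm] at hs
    have h1 := norm_sub_norm_le t s
    rw [norm_sub_rev] at h1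
    linarith
  have h2 := Complex.norm_deriv_le_of_forall_mem_sphere_norm_le (c := t) (R := 1) (C := η)
    (f := fun t => V t - D * t + c) one_pos ?_ (fun s hs => (he s (hsub s
      (sphere_subset_closedBall hs))).le)
  · rwa [div_one] at h2
  · apply DifferentiableOn.diffContOnCl_ball (U := {s : ℂ | A < ‖s‖})
    · intro s hs
      have h3 : R < ‖s‖ := lt_trans hA hs
      exact (((h.diff s h3).sub (differentiableAt_id.const_mul _)).add_const
        _).differentiableWithinAt
    · exact hsub

end Far

section VI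
variable {p r c D ε R : ℝ} {V : ℂ → ℂ}

theorem SHM.far (hp : 0 < p) (hr : 0 < r) (hD : 0 < D) (h : SHM p r c D ε R V) (M : ℝ) :
    ∃ R1 : ℝ, R < R1 ∧
      (∀ t : ℂ, R1 < ‖t‖ → ‖deriv V t - D‖ < D / 2 ∧ M < ‖V t‖ ∧ p + r < ‖V t‖ ∧
        |(Hf p r (V t)).im| < p * π) ∧
      (∀ t : ℂ, R1 < ‖t‖ → t ∈ UP → V t ∈ UP) ∧
      (∀ t : ℝ, R1 < |t| → (V t).im = 0 ∧ (0 < t → M < (V t).re ∧ r < (V t).re) ∧
        (t < 0 → (V t).re < -M ∧ (V t).re < -p)) ∧
      (∀ t s : ℂ, R1 < t.re → R1 < s.re → V t = V s → t = s) ∧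
      (∀ t s : ℂ, t.re < -R1 → s.re < -R1 → V t = V s → t = s) := by
  set η : ℝ := min (D / 4) 1 with hη
  have hη0 : 0 < η := lt_min (by linarith) one_pos
  have hηD : η ≤ D / 4 := min_le_left _ _
  have hη1 : η ≤ 1 := min_le_right _ _
  obtain ⟨A, hRA, hA⟩ := Far.err h hη0
  have hR := h.R_pos
  have hA0 : 0 < A := lt_trans hR hRA
  set f : ℂ → ℂ := fun t => V t - D * t + c with hf
  have hfd : ∀ t : ℂ, A < ‖t‖ → DifferentiableAt ℂ f t := by
    intro t ht
    exact ((h.diff t (lt_trans hRA ht)).sub (differentiableAt_id.const_mul _)).add_const _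
  have hf' : ∀ t : ℂ, A + 1 < ‖t‖ → ‖deriv f t‖ ≤ η := fun t ht => Far.derr h hRA hA ht
  have hV : ∀ t, V t = D * t - c + f t := by
    intro t
    simp only [hf]
    ring
  -- growth
  set B : ℝ := (|M| + p + r + |c| + 1) / D with hB
  have hDB : D * B = |M| + p + r + |c| + 1 := by
    rw [hB]
    field_simp
  have hgrow : ∀ t : ℂ, A < ‖t‖ → D * ‖t‖ - |c| - 1 ≤ ‖V t‖ := by
    intro t ht
    have h1 : (D : ℂ) * t = V t + (c - f t) := by
      rw [hV t]
      ring
    have h2 : ‖(D : ℂ) * t‖ = D * ‖t‖ := by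
      rw [norm_mul, Complex.norm_real, Real.norm_eq_abs, abs_of_pos hD]
    have h3 := norm_add_le (V t) (c - f t)
    rw [← h1, h2] at h3
    have h4 := norm_sub_le (c : ℂ) (f t)
    rw [Complex.norm_real, Real.norm_eq_abs] at h4
    have h5 := hA t ht
    linarith
  have htV : Tendsto V (Bornology.cobounded ℂ) (Bornology.cobounded ℂ) := by
    rw [← tendsto_norm_atTop_iff_cobounded]
    have h1 : Tendsto (fun t : ℂ => D * ‖t‖ - |c| - 1) (Bornology.cobounded ℂ) atTop := by
      have h2 := (tendsto_norm_cobounded_atTop (E := ℂ)).const_mul_atTop hD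
      have h3 := tendsto_atTop_add_const_right _ (-|c| - 1) h2
      refine h3.congr fun t => ?_
      ring
    apply tendsto_atTop_mono' _ _ h1
    filter_upwards [hasBasis_cobounded_norm.mem_of_mem (i := A + 1) trivial] with t ht
    exact hgrow t (lt_of_lt_of_le (by linarith) ht)
  obtain ⟨C, hC⟩ := Far.radius (((Hf_tendsto_inf p r).comp htV).eventually
    (ball_mem_nhds (0 : ℂ) (show (0 : ℝ) < p * π from mul_pos hp Real.pi_pos)))
  set R1 : ℝ := max (2 * (A + 1)) (max B C) with hR1
  have hR1A : 2 * (A + 1) ≤ R1 := le_max_left _ _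
  have hR1B : B ≤ R1 := le_trans (le_max_left _ _) (le_max_right _ _)
  have hR1C : C ≤ R1 := le_trans (le_max_right _ _) (le_max_right _ _)
  have hbig : ∀ x : ℝ, R1 < x → |M| + p + r < D * x - |c| - 1 := by
    intro x hx
    have h1 : D * B < D * x := mul_lt_mul_of_pos_left (lt_of_le_of_lt hR1B hx) hD
    rw [hDB] at h1
    linarith
  have hM := le_abs_self M
  have hreal : ∀ t : ℝ, A < |t| → (V t).im = 0 := by
    intro t ht
    have h1 : R < ‖(t : ℂ)‖ := by
      rw [Complex.norm_real, Real.norm_eq_abs]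
      linarith
    have h2 := h.real t h1
    rw [Complex.conj_ofReal] at h2
    exact Complex.conj_eq_iff_im.1 h2.symm
  have hfim : ∀ t : ℝ, A < |t| → (f t).im = 0 := by
    intro t ht
    simp only [hf]
    simp [hreal t ht]
  -- the mean value inequality on the two half planes
  have hmv : ∀ t s : ℂ, (A + 1 < t.re ∧ A + 1 < s.re) ∨ (t.re < -(A + 1) ∧ s.re < -(A + 1)) →
      ‖f t - f s‖ ≤ η * ‖t - s‖ := by
    intro t s hts
    rcases hts with ⟨h1, h2⟩ | ⟨h1, h2⟩
    · have hn : ∀ x : ℂ, A + 1 < x.re → A + 1 < ‖x‖ := fun x hx =>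
        lt_of_lt_of_le hx (Complex.re_le_norm x)
      exact Convex.norm_image_sub_le_of_norm_deriv_le (s := {x : ℂ | A + 1 < x.re})
        (fun x hx => hfd x (by linarith [hn x hx])) (fun x hx => hf' x (hn x hx))
        (convex_halfSpace_re_gt _) h2 h1
    · have hn : ∀ x : ℂ, x.re < -(A + 1) → A + 1 < ‖x‖ := by
        intro x hx
        have h3 := Complex.abs_re_le_norm x
        have h4 := neg_le_abs x.re
        linarith
      exact Convex.norm_image_sub_le_of_norm_deriv_le (s := {x : ℂ | x.re < -(A + 1)})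
        (fun x hx => hfd x (by linarith [hn x hx])) (fun x hx => hf' x (hn x hx))
        (convex_halfSpace_re_lt _) h2 h1
  have hinj : ∀ t s : ℂ, (A + 1 < t.re ∧ A + 1 < s.re) ∨ (t.re < -(A + 1) ∧ s.re < -(A + 1)) →
      V t = V s → t = s := by
    intro t s hts hVts
    have h1 := hmv t s hts
    have h2 : f t - f s = -(D * (t - s)) := by
      rw [hV t, hV s] at hVts
      linear_combination hVts
    rw [h2, norm_neg, norm_mul, Complex.norm_real, Real.norm_eq_abs, abs_of_pos hD] at h1
    have h3 : 0 ≤ ‖t - s‖ := norm_nonneg _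
    have h4 : ‖t - s‖ = 0 := by
      by_contra h5
      have h6 : 0 < ‖t - s‖ := lt_of_le_of_ne h3 (Ne.symm h5)
      nlinarith
    exact sub_eq_zero.1 (norm_eq_zero.1 h4)
  refine ⟨R1, by linarith, ?_, ?_, ?_, ?_, ?_⟩
  · intro t ht
    have htA : A + 1 < ‖t‖ := by linarith
    refine ⟨?_, ?_, ?_, ?_⟩
    · have h1 : deriv V t = D + deriv f t := by
        have h2 : HasDerivAt f (deriv V t - D) t := by
          have h3 := ((h.diff t (by linarith)).hasDerivAt.sub
            ((hasDerivAt_id t).const_mul (D : ℂ))).add_const (c : ℂ)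
          rw [mul_one] at h3
          exact h3
        rw [h2.deriv]
        ring
      rw [h1, add_sub_cancel_left]
      have := hf' t htA
      linarith
    · have := hgrow t (by linarith)
      have := hbig _ ht
      linarith
    · have := hgrow t (by linarith)
      have := hbig _ ht
      have := abs_nonneg M
      linarith
    · have h1 := hC t (by linarith)
      have h2 : ‖Hf p r (V t)‖ < p * π := by
        rw [dist_zero_right] at h1
        exact h1
      exact lt_of_le_of_lt (Complex.abs_im_le_norm _) h2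
  · intro t ht htU
    have him : 0 < t.im := htU
    show 0 < (V t).im
    have e1 : (V t).im = D * t.im + (f t).im := by
      rw [hV t]
      simp
    by_cases hre : A + 1 < |t.re|
    · have e2 : (f t).im = (f t - f t.re).im := by
        rw [Complex.sub_im, hfim t.re (by linarith), sub_zero]
      have e3 : ‖f t - f t.re‖ ≤ η * ‖t - t.re‖ := by
        apply hmv
        rcases lt_abs.1 hre with h1 | h1
        · left
          exact ⟨h1, by simpa using h1⟩
        · right
          exact ⟨by linarith, by simp only [Complex.ofReal_re]; linarith⟩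
      have e4 : ‖t - t.re‖ = t.im := by
        have h5 : t - t.re = t.im * I := by
          apply Complex.ext <;> simp
        rw [h5, norm_mul, Complex.norm_I, mul_one, Complex.norm_real, Real.norm_eq_abs,
          abs_of_pos him]
      rw [e4] at e3
      have e5 := Complex.abs_im_le_norm (f t - f t.re)
      have e6 := neg_abs_le (f t - f t.re).im
      rw [e1, e2]
      nlinarith
    · have e2 : A + 1 < t.im := by
        have h1 := Complex.norm_le_abs_re_add_abs_im t
        rw [abs_of_pos him] at h1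
        linarith [not_lt.1 hre]
      have e3 := Complex.abs_im_le_norm (f t)
      have e4 := hA t (by linarith)
      have e5 := neg_abs_le (f t).im
      have e6 : ‖f t‖ < η := e4
      rw [e1]
      nlinarith
  · intro t ht
    have h1 : ‖(t : ℂ)‖ = |t| := by rw [Complex.norm_real, Real.norm_eq_abs]
    have h2 : A < |t| := by linarith
    have h3 : ‖f t‖ < η := hA t (by rw [h1]; exact h2)
    have h4 := Complex.abs_re_le_norm (f t)
    have h5 : (V t).re = D * t - c + (f t).re := by
      rw [hV t]
      simp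
    have h6 := hbig _ ht
    have h7 := le_abs_self (f t).re
    have h8 := neg_abs_le (f t).re
    have h9 := le_abs_self c
    have h10 := neg_abs_le c
    refine ⟨hreal t h2, fun h0 => ?_, fun h0 => ?_⟩
    · rw [abs_of_pos h0] at h6
      constructor
      · rw [h5]
        linarith
      · rw [h5]
        have := abs_nonneg M
        linarith
    · rw [abs_of_neg h0] at h6
      constructor
      · rw [h5]
        linarith
      · rw [h5]
        have := abs_nonneg M
        linarith
  · intro t s ht hs hVts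
    exact hinj t s (Or.inl ⟨by linarith, by linarith⟩) hVts
  · intro t s ht hs hVts
    exact hinj t s (Or.inr ⟨by linarith, by linarith⟩) hVts

theorem SHM.onto (hp : 0 < p) (hr : 0 < r) (hD : 0 < D) (h : SHM p r c D ε R V) (M : ℝ) :
    ∃ Y : ℝ, (∀ y : ℝ, Y < y → ∃ t : ℝ, M < t ∧ R < t ∧ V t = y) ∧
      (∀ y : ℝ, y < -Y → ∃ t : ℝ, t < -M ∧ t < -R ∧ V t = y) := by
  obtain ⟨R1, hR1, -, -, h3, -, -⟩ := h.far hp hr hD M
  have hR := h.R_pos
  set a : ℝ := max M R1 + 1 with ha
  have haM : M < a := by
    have := le_max_left M R1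
    linarith
  have haR : R1 < a := by
    have := le_max_right M R1
    linarith
  have ha0 : 0 < a := by linarith
  have hcont : ContinuousOn (fun t : ℝ => (V t).re) (Ici a) := by
    intro t ht
    have h1 : R < ‖(t : ℂ)‖ := by
      rw [Complex.norm_real, Real.norm_eq_abs]
      have := le_abs_self t
      have : a ≤ t := ht
      linarith
    have h2 : ContinuousAt (fun t : ℝ => V t) t :=
      ContinuousAt.comp (f := fun t : ℝ => (t : ℂ)) (g := V) (h.diff t h1).continuousAt
        Complex.continuous_ofReal.continuousAt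
    exact (Complex.continuous_re.continuousAt.comp h2).continuousWithinAt
  have hright : ∀ y : ℝ, (V a).re < y → ∃ t : ℝ, M < t ∧ R < t ∧ V t = y := by
    intro y hy
    obtain ⟨R2, -, -, -, h4, -, -⟩ := h.far hp hr hD y
    set b : ℝ := max a (R2 + 1) with hb
    have hab : a ≤ b := le_max_left _ _
    have hb2 : R2 < b := by
      have := le_max_right a (R2 + 1)
      linarith
    have hb0 : 0 < b := by linarith
    have h5 := ((h4 b (by rw [abs_of_pos hb0]; exact hb2)).2.1 hb0).1
    obtain ⟨t, ht, hty⟩ := intermediate_value_Icc hab (hcont.mono Icc_subset_Ici_self)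
      ⟨hy.le, h5.le⟩
    have hta : a ≤ t := ht.1
    refine ⟨t, by linarith, by linarith, ?_⟩
    have h6 := (h3 t (by rw [abs_of_pos (by linarith)]; linarith)).1
    apply Complex.ext
    · simpa using hty
    · simpa using h6
  refine ⟨|(V a).re| + 2 * |c|, fun y hy => ?_, fun y hy => ?_⟩
  · apply hright
    have h1 := le_abs_self (V a).re
    have h2 := abs_nonneg c
    linarith
  · obtain ⟨t, ht1, ht2, ht3⟩ := hright (-y - 2 * c) (by
      have h1 := le_abs_self (V a).re
      have h2 := le_abs_self c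
      linarith)
    refine ⟨-t, by linarith, by linarith, ?_⟩
    have h4 : R < ‖(t : ℂ)‖ := by
      rw [Complex.norm_real, Real.norm_eq_abs]
      exact lt_of_lt_of_le ht2 (le_abs_self t)
    rw [Complex.ofReal_neg, h.odd t h4, ht3]
    push_cast
    ring

/-- the mirror image -/
theorem SHM.mirror (h : SHM p r c D ε R V) : SHM r p (-c) D (-ε) R (fun t => -V (-t)) := by
  have hH : ∀ z : ℂ, Hf r p (-z) = Hf p r z := by
    intro z
    unfold Hf
    rw [div_neg, div_neg, sub_neg_eq_add, ← sub_eq_add_neg]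
    ring
  refine ⟨h.R_pos, ?_, ?_, ?_, ?_, ?_⟩
  · intro t ht
    have h1 : DifferentiableAt ℂ V (-t) := h.diff (-t) (by rwa [norm_neg])
    exact (h1.comp t differentiableAt_id.neg).neg
  · intro t ht
    have h1 := h.odd t ht
    show -V (- -t) = - -V (-t) - 2 * ((-c : ℝ) : ℂ)
    rw [neg_neg, h1]
    push_cast
    ring
  · intro t ht
    have h1 := h.real (-t) (by rwa [norm_neg])
    simp only [map_neg] at h1 ⊢
    rw [h1]
  · have h1 := (h.asym.comp tendsto_neg_cobounded).neg
    have h2 : (-(-(c : ℂ))) = -((-c : ℝ) : ℂ) := by push_cast; ring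
    rw [h2] at h1
    refine h1.congr fun t => ?_
    simp only [Function.comp_apply]
    ring
  · intro t ht
    have h1 := h.sym (-t) (by rwa [norm_neg])
    show Hf r p (-V (-(((-ε : ℝ) : ℂ) - t))) = Hf r p (-V (-t))
    rw [hH, hH]
    have h2 : -(((-ε : ℝ) : ℂ) - t) = (ε : ℂ) - -t := by push_cast; ring
    rw [h2]
    exact h1
end VI

end Pool.Agent.MP_ae5b4e_an_ALG
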