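import Mathlib
import Pool.Agent.Lib.MP_ae5b4e_an_ALG.Defs
import Pool.Agent.Lib.MP_ae5b4e_an_ALG.Lim
import Pool.Agent.Lib.MP_ae5b4e_an_ALG.Far
import Pool.Agent.Lib.MP_ae5b4e_an_ALG.Dyn

/-!
# MP_ae5b4e_an, algebraic tables: real values `y > p - 2 c` are attained on the real line
-/

set_option autoImplicit false
noncomputable section
namespace Pool.Agent.MP_ae5b4e_an_ALG
open Filter Topology Set Metric Complex
open scoped Real

namespace RealPos

/-- analytic local inverse in one variable -/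
lemma exists_local_inverse {f : ℂ → ℂ} {x d : ℂ} (hf : AnalyticAt ℂ f x) (hd : HasDerivAt f d x)
    (hd0 : d ≠ 0) :
    ∃ g : ℂ → ℂ, AnalyticAt ℂ g (f x) ∧ g (f x) = x ∧ (∀ᶠ z in 𝓝 x, g (f z) = z) ∧
      (∀ᶠ w in 𝓝 (f x), f (g w) = w) ∧ HasDerivAt g d⁻¹ (f x) := by
  have hs : HasStrictDerivAt f d x := by
    have := hf.hasStrictDerivAt
    rwa [hd.deriv] at this
  have hF := hs.hasStrictFDerivAt_equiv hd0
  refine ⟨hF.localInverse f _ x, ?_, hF.localInverse_apply_image, hF.eventually_left_inverse,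
    hF.eventually_right_inverse, ?_⟩
  · have h1 := (hF.toOpenPartialHomeomorph f).analyticAt_symm' (a := x)
      (i := ContinuousLinearEquiv.unitsEquivAut ℂ (Units.mk0 d hd0))
      hF.mem_toOpenPartialHomeomorph_source (by
        rw [hF.toOpenPartialHomeomorph_coe]; exact hf) (by
        rw [hF.toOpenPartialHomeomorph_coe]; exact hF.hasFDerivAt.fderiv)
    rw [hF.toOpenPartialHomeomorph_coe] at h1
    exact h1
  · exact (hs.to_localInverse hd0).hasDerivAt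

variable {p r c D R : ℝ} {V W : ℂ → ℂ}

lemma mem_Dm_left {x : ℝ} (hx : x < -p) : (x : ℂ) ∈ Dm p r := Or.inr (Or.inl (by simpa using hx))

lemma mem_Dm_right {x : ℝ} (hx : r < x) : (x : ℂ) ∈ Dm p r := Or.inr (Or.inr (by simpa using hx))

lemma Hf_analyticAt (hp : 0 < p) (hr : 0 < r) {v : ℂ} (hv : v ∈ Dm p r) :
    AnalyticAt ℂ (Hf p r) v := by
  have h1 : DifferentiableOn ℂ (Hf p r) (Dm p r) := fun w hw =>
    (Hf_deriv hp hr hw).differentiableAt.differentiableWithinAt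
  exact h1.analyticAt ((Dm_open hp hr).mem_nhds hv)

lemma conj_two : (starRingEnd ℂ) (2 : ℂ) = 2 := map_ofNat _ 2

lemma Pf_ofReal (p r x : ℝ) : Pf p r (x : ℂ) = ((x * (x + p) * (x - r) : ℝ) : ℂ) := by
  simp [Pf]

/-- one step back along the orbit -/
lemma step_back (hp : 0 < p) (hpr : p < r) (hW : Ext p r c 1 V W) {b y₀ y₁ : ℝ} {V₁ : ℂ → ℂ}
    (h0 : p - 2 * c < y₀) (h1 : r < y₁)
    (hH : Hb p r (y₁ : ℂ) = Hb p r ((-y₀ - 2 * c : ℝ) : ℂ)) (hR : RealAt W b y₁ V₁) :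
    ∃ V₀, RealAt W (b - 1) y₀ V₀ := by
  have hr : 0 < r := hp.trans hpr
  obtain ⟨hA, hv, hreal, ⟨m, hm, hdm⟩, hWV⟩ := hR
  set x₀ : ℝ := -y₀ - 2 * c with hx₀
  have hx0 : x₀ < -p := by rw [hx₀]; linarith
  have hxD : (x₀ : ℂ) ∈ Dm p r := mem_Dm_left hx0
  have hyD : (y₁ : ℂ) ∈ Dm p r := mem_Dm_right h1
  have hHf : Hf p r (y₁ : ℂ) = Hf p r (x₀ : ℂ) := by
    rw [← Hb_eq hp hr hyD, ← Hb_eq hp hr hxD, hH]
  have hxa := Hf_analyticAt hp hr hxD
  have hya := Hf_analyticAt hp hr hyD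
  have hxd := Hf_deriv hp hr hxD
  have hyd := Hf_deriv hp hr hyD
  have hK : 0 < p * r * (p + r) := by positivity
  set Px : ℝ := x₀ * (x₀ + p) * (x₀ - r) with hPx
  set Py : ℝ := y₁ * (y₁ + p) * (y₁ - r) with hPy
  have hPx0 : Px < 0 := by
    have e1 : x₀ < 0 := by linarith
    have e2 : x₀ + p < 0 := by linarith
    have e3 : x₀ - r < 0 := by linarith
    exact mul_neg_of_pos_of_neg (mul_pos_of_neg_of_neg e1 e2) e3
  have hPy0 : 0 < Py := by
    have e1 : 0 < y₁ := by linarith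
    have e2 : 0 < y₁ + p := by linarith
    have e3 : 0 < y₁ - r := by linarith
    positivity
  rw [Pf_ofReal, ← hPx] at hxd
  rw [Pf_ofReal, ← hPy] at hyd
  have hxd0 : ((p : ℂ) * r * (p + r) / (Px : ℂ)) ≠ 0 := by
    have : ((p : ℂ) * r * (p + r) / (Px : ℂ)) = ((p * r * (p + r) / Px : ℝ) : ℂ) := by push_cast; ring
    rw [this, Complex.ofReal_ne_zero]
    exact div_ne_zero hK.ne' hPx0.ne
  obtain ⟨ψ, hψa, hψx, hψl, hψr, hψd⟩ := exists_local_inverse hxa hxd hxd0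
  -- reality of `Hf` at `x₀`
  have hsr : (starRingEnd ℂ) (Hf p r (x₀ : ℂ)) = Hf p r (x₀ : ℂ) := by
    rw [← Hf_conj hp hr hxD, Complex.conj_ofReal]
  have hb1 : (((b - 1 : ℝ) : ℂ) + 1) = b := by push_cast; ring
  have hshift : Tendsto (fun t : ℂ => t + 1) (𝓝 ((b - 1 : ℝ) : ℂ)) (𝓝 (b : ℂ)) := by
    have : Continuous (fun t : ℂ => t + 1) := by fun_prop
    exact this.tendsto' _ _ hb1
  have hshiftUP : Tendsto (fun t : ℂ => t + 1) (𝓝[UP] ((b - 1 : ℝ) : ℂ)) (𝓝[UP] (b : ℂ)) := by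
    refine tendsto_nhdsWithin_of_tendsto_nhds_of_eventually_within _
      (hshift.mono_left nhdsWithin_le_nhds) ?_
    filter_upwards [self_mem_nhdsWithin] with t ht
    have : 0 < t.im := ht
    show 0 < (t + 1).im
    simpa using this
  have hV1c : Tendsto V₁ (𝓝 (b : ℂ)) (𝓝 (y₁ : ℂ)) := by
    have := hA.continuousAt.tendsto
    rwa [hv] at this
  set V₀ : ℂ → ℂ := fun t => -(2 * c : ℂ) - ψ (Hf p r (V₁ (t + 1))) with hV₀
  have hV1s : AnalyticAt ℂ (fun t : ℂ => V₁ (t + 1)) ((b - 1 : ℝ) : ℂ) := by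
    have e1 : AnalyticAt ℂ (fun t : ℂ => t + 1) ((b - 1 : ℝ) : ℂ) := by fun_prop
    exact AnalyticAt.comp_of_eq hA e1 hb1
  have hV1v : V₁ (((b - 1 : ℝ) : ℂ) + 1) = y₁ := by rw [hb1, hv]
  have hHV : AnalyticAt ℂ (fun t : ℂ => Hf p r (V₁ (t + 1))) ((b - 1 : ℝ) : ℂ) :=
    AnalyticAt.comp_of_eq hya hV1s hV1v
  have hHVv : Hf p r (V₁ (((b - 1 : ℝ) : ℂ) + 1)) = Hf p r (x₀ : ℂ) := by rw [hV1v, hHf]
  refine ⟨V₀, ?_, ?_, ?_, ?_, ?_⟩
  · -- analytic
    have : AnalyticAt ℂ (fun t : ℂ => ψ (Hf p r (V₁ (t + 1)))) ((b - 1 : ℝ) : ℂ) :=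
      AnalyticAt.comp_of_eq hψa hHV hHVv
    exact analyticAt_const.sub this
  · -- the value
    show -(2 * c : ℂ) - ψ (Hf p r (V₁ (((b - 1 : ℝ) : ℂ) + 1))) = y₀
    rw [hHVv, hψx, hx₀]
    push_cast
    ring
  · -- reality
    have hconj : Tendsto (starRingEnd ℂ) (𝓝 (x₀ : ℂ)) (𝓝 (x₀ : ℂ)) := by
      have := (Complex.continuous_conj.tendsto (x₀ : ℂ))
      rwa [Complex.conj_ofReal] at this
    have hψc : Tendsto ψ (𝓝 (Hf p r (x₀ : ℂ))) (𝓝 (x₀ : ℂ)) := by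
      have := hψa.continuousAt.tendsto
      rwa [hψx] at this
    have hψreal : ∀ᶠ s in 𝓝 (Hf p r (x₀ : ℂ)),
        ψ ((starRingEnd ℂ) s) = (starRingEnd ℂ) (ψ s) := by
      have e1 := (hconj.comp hψc).eventually hψl
      have e2 := hψc.eventually ((Dm_open hp hr).mem_nhds hxD)
      filter_upwards [e1, e2, hψr] with s e1 e2 e3
      have e4 : Hf p r ((starRingEnd ℂ) (ψ s)) = (starRingEnd ℂ) s := by
        rw [Hf_conj hp hr e2, e3]
      have e5 : ψ (Hf p r ((starRingEnd ℂ) (ψ s))) = (starRingEnd ℂ) (ψ s) := e1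
      rw [e4] at e5
      exact e5
    have f1 : ∀ᶠ t in 𝓝 ((b - 1 : ℝ) : ℂ), V₁ ((starRingEnd ℂ) (t + 1)) =
        (starRingEnd ℂ) (V₁ (t + 1)) := hshift.eventually hreal
    have f2 : ∀ᶠ t in 𝓝 ((b - 1 : ℝ) : ℂ), V₁ (t + 1) ∈ Dm p r :=
      (hV1c.comp hshift).eventually ((Dm_open hp hr).mem_nhds hyD)
    have f3 : ∀ᶠ t in 𝓝 ((b - 1 : ℝ) : ℂ), ψ ((starRingEnd ℂ) (Hf p r (V₁ (t + 1)))) =
        (starRingEnd ℂ) (ψ (Hf p r (V₁ (t + 1)))) := by
      have := hHV.continuousAt.tendsto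
      rw [hHVv] at this
      exact this.eventually hψreal
    filter_upwards [f1, f2, f3] with t f1 f2 f3
    show -(2 * c : ℂ) - ψ (Hf p r (V₁ ((starRingEnd ℂ) t + 1))) =
      (starRingEnd ℂ) (-(2 * c : ℂ) - ψ (Hf p r (V₁ (t + 1))))
    have f4 : (starRingEnd ℂ) t + 1 = (starRingEnd ℂ) (t + 1) := by simp
    rw [f4, f1, Hf_conj hp hr f2, f3]
    simp [conj_two]
  · -- the derivative
    refine ⟨-(Px / (p * r * (p + r))) * ((p * r * (p + r)) / Py * m), ?_, ?_⟩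
    · have e1 : 0 < -(Px / (p * r * (p + r))) := by
        rw [neg_pos]; exact div_neg_of_neg_of_pos hPx0 hK
      positivity
    · have e1 : HasDerivAt V₁ (m : ℂ) (b : ℂ) := by
        rw [← hdm]; exact hA.differentiableAt.hasDerivAt
      have e2 : HasDerivAt (fun t : ℂ => V₁ (t + 1)) (m : ℂ) ((b - 1 : ℝ) : ℂ) := by
        have e3 : HasDerivAt V₁ (m : ℂ) (((b - 1 : ℝ) : ℂ) + 1) := by rw [hb1]; exact e1
        exact e3.comp_add_const _ 1
      have e4 : HasDerivAt (fun t : ℂ => Hf p r (V₁ (t + 1)))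
          ((p : ℂ) * r * (p + r) / (Py : ℂ) * m) ((b - 1 : ℝ) : ℂ) := by
        have e5 : HasDerivAt (Hf p r) ((p : ℂ) * r * (p + r) / (Py : ℂ))
            (V₁ (((b - 1 : ℝ) : ℂ) + 1)) := by rw [hV1v]; exact hyd
        exact HasDerivAt.comp (h := fun t : ℂ => V₁ (t + 1)) ((b - 1 : ℝ) : ℂ) e5 e2
      have e6 : HasDerivAt (fun t : ℂ => ψ (Hf p r (V₁ (t + 1))))
          (((p : ℂ) * r * (p + r) / (Px : ℂ))⁻¹ * ((p : ℂ) * r * (p + r) / (Py : ℂ) * m))
          ((b - 1 : ℝ) : ℂ) := by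
        have e7 : HasDerivAt ψ ((p : ℂ) * r * (p + r) / (Px : ℂ))⁻¹
            (Hf p r (V₁ (((b - 1 : ℝ) : ℂ) + 1))) := by rw [hHVv]; exact hψd
        exact HasDerivAt.comp (h := fun t : ℂ => Hf p r (V₁ (t + 1))) ((b - 1 : ℝ) : ℂ) e7 e4
      have e8 := (e6.const_sub (-(2 * c : ℂ))).deriv
      show deriv (fun t : ℂ => -(2 * c : ℂ) - ψ (Hf p r (V₁ (t + 1)))) _ = _
      rw [e8]
      push_cast
      rw [inv_div]
      ring
  · -- `W = V₀` near `b - 1` in the upper half plane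
    have g0 : ∀ᶠ t in 𝓝[UP] ((b - 1 : ℝ) : ℂ), t ∈ UP := self_mem_nhdsWithin
    have g1 : ∀ᶠ t in 𝓝[UP] ((b - 1 : ℝ) : ℂ), W (t + 1) = V₁ (t + 1) :=
      hshiftUP.eventually hWV
    have g2 : Tendsto (fun t => W (t + 1)) (𝓝[UP] ((b - 1 : ℝ) : ℂ)) (𝓝 (y₁ : ℂ)) := by
      have := (hV1c.comp hshift).mono_left
        (nhdsWithin_le_nhds (a := ((b - 1 : ℝ) : ℂ)) (s := UP))
      refine this.congr' ?_
      filter_upwards [g1] with t ht
      exact ht.symm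
    have g3 : ∀ᶠ t in 𝓝[UP] ((b - 1 : ℝ) : ℂ), W (t + 1) ∈ UP := by
      filter_upwards [g0] with t ht
      refine hW.up _ ?_
      have : 0 < t.im := ht
      show 0 < (t + 1).im
      simpa using this
    have g4 : Tendsto (fun t => W (t + 1)) (𝓝[UP] ((b - 1 : ℝ) : ℂ)) (𝓝[UP] (y₁ : ℂ)) :=
      tendsto_nhdsWithin_of_tendsto_nhds_of_eventually_within _ g2 g3
    have g5 : ∀ᶠ t in 𝓝[UP] ((b - 1 : ℝ) : ℂ), 0 < (Hf p r (W (t + 1))).im :=
      g4.eventually (Hf_side4 hp hr h1.le)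
    have g6 : ∀ᶠ t in 𝓝[UP] ((b - 1 : ℝ) : ℂ), Hf p r (-(starRingEnd ℂ) (W t) - 2 * c) =
        (starRingEnd ℂ) (Hf p r (W (t + 1))) := by
      filter_upwards [g0] with t ht
      have k1 := hW.step t ht
      have k2 : (-W t - 2 * c) ∈ Dm p r := by
        have k3 : 0 < (W t).im := hW.up t ht
        have k4 : (-W t - 2 * (c : ℂ)).im = -(W t).im := by simp
        refine Or.inl ?_
        rw [k4]
        exact neg_ne_zero.2 k3.ne'
      have k5 := Hf_conj hp hr k2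
      rw [← k1] at k5
      have k6 : (starRingEnd ℂ) (-W t - 2 * c) = -(starRingEnd ℂ) (W t) - 2 * c := by
        simp [conj_two]
      rw [k6] at k5
      rw [k5]
      simp
    have g7 : ∀ᶠ t in 𝓝[UP] ((b - 1 : ℝ) : ℂ), -(starRingEnd ℂ) (W t) - 2 * c ∈ UP := by
      filter_upwards [g0] with t ht
      have k3 : 0 < (W t).im := hW.up t ht
      show 0 < (-(starRingEnd ℂ) (W t) - 2 * (c : ℂ)).im
      simpa using k3
    have g8 : Tendsto (fun t => Hf p r (-(starRingEnd ℂ) (W t) - 2 * c))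
        (𝓝[UP] ((b - 1 : ℝ) : ℂ)) (𝓝 (Hb p r (x₀ : ℂ))) := by
      have k1 : Tendsto (fun t => (starRingEnd ℂ) (Hf p r (W (t + 1))))
          (𝓝[UP] ((b - 1 : ℝ) : ℂ)) (𝓝 ((starRingEnd ℂ) (Hf p r (y₁ : ℂ)))) :=
        (Complex.continuous_conj.tendsto _).comp (hya.continuousAt.tendsto.comp g2)
      rw [hHf, hsr, ← Hb_eq hp hr hxD] at k1
      refine k1.congr' ?_
      filter_upwards [g6] with t ht
      exact ht.symm
    have g9 : ∀ᶠ t in 𝓝[UP] ((b - 1 : ℝ) : ℂ),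
        (Hf p r (-(starRingEnd ℂ) (W t) - 2 * c)).im < 0 := by
      filter_upwards [g5, g6] with t h5 h6
      rw [h6, Complex.conj_im]
      linarith
    have g10 : Tendsto (fun t => -(starRingEnd ℂ) (W t) - 2 * c) (𝓝[UP] ((b - 1 : ℝ) : ℂ))
        (𝓝 (x₀ : ℂ)) := lim_1 hp hr g7 hx0 g8 g9
    have g11 : Tendsto (fun t => -W t - 2 * c) (𝓝[UP] ((b - 1 : ℝ) : ℂ)) (𝓝 (x₀ : ℂ)) := by
      have k1 := (Complex.continuous_conj.tendsto (x₀ : ℂ)).comp g10
      rw [Complex.conj_ofReal] at k1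
      refine k1.congr ?_
      intro t
      simp [conj_two]
    have g12 := g11.eventually hψl
    filter_upwards [g0, g1, g12] with t h0 h1 h12
    have k1 := hW.step t h0
    rw [← k1] at h12
    have k2 : (t + ((1 : ℝ) : ℂ)) = t + 1 := by simp
    rw [k2, h1] at h12
    show W t = -(2 * c : ℂ) - ψ (Hf p r (V₁ (t + 1)))
    rw [h12]
    ring

end RealPos

section VP
variable {p r c D R : ℝ} {V W : ℂ → ℂ}

open RealPos in
theorem real_pos (hp : 0 < p) (hpr : p < r) (hD : 0 < D) (hc : 0 ≤ c) (hV : SHM p r c D 1 R V)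
    (hW : Ext p r c 1 V W) {y : ℝ} (hy : p - 2 * c < y) : ∃ a Vr, RealAt W a y Vr := by
  have hr : 0 < r := hp.trans hpr
  obtain ⟨u, hu0, hu1, huT⟩ := orbit_pos hp hpr hc hy
  obtain ⟨R1, hR1, hfar, -⟩ := hV.far hp hr hD 0
  obtain ⟨R2, hR2⟩ := hW.far
  obtain ⟨Y, hY, -⟩ := hV.onto hp hr hD (max R1 R2)
  obtain ⟨n, hn⟩ := (huT.eventually_gt_atTop Y).exists
  obtain ⟨b, hb1, hb2, hb3⟩ := hY _ hn
  have hR : 0 < R := hV.R_pos
  have hb0 : 0 < b := hR.trans hb2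
  have hbn : ‖(b : ℂ)‖ = b := by rw [Complex.norm_real, Real.norm_of_nonneg hb0.le]
  have hstart : RealAt W b (u n) V := by
    have ho : IsOpen {t : ℂ | R < ‖t‖} := isOpen_lt continuous_const continuous_norm
    have hbm : (b : ℂ) ∈ {t : ℂ | R < ‖t‖} := by show R < ‖(b : ℂ)‖; rw [hbn]; exact hb2
    have hreal : ∀ᶠ t in 𝓝 (b : ℂ), V ((starRingEnd ℂ) t) = (starRingEnd ℂ) (V t) := by
      filter_upwards [ho.mem_nhds hbm] with t ht
      exact hV.real t ht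
    have hVa : AnalyticAt ℂ V b := by
      have h1 : DifferentiableOn ℂ V {t : ℂ | R < ‖t‖} := fun t ht =>
        (hV.diff t ht).differentiableWithinAt
      exact h1.analyticAt (ho.mem_nhds hbm)
    refine ⟨hVa, hb3, hreal, ?_, ?_⟩
    · have h1 : deriv V (b : ℂ) = (starRingEnd ℂ) (deriv V (b : ℂ)) := by
        have h2 : V =ᶠ[𝓝 (b : ℂ)] ((starRingEnd ℂ) ∘ V ∘ (starRingEnd ℂ)) := by
          filter_upwards [hreal] with t ht
          simp [Function.comp, ht]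
        have h3 := h2.deriv_eq
        rw [deriv_conj_conj] at h3
        simpa using h3
      have h2 : (deriv V (b : ℂ)).im = 0 := Complex.conj_eq_iff_im.1 h1.symm
      have h3 : ‖deriv V (b : ℂ) - D‖ < D / 2 := by
        refine (hfar (b : ℂ) ?_).1
        rw [hbn]
        exact (le_max_left _ _).trans_lt hb1
      have h4 : |(deriv V (b : ℂ) - D).re| ≤ ‖deriv V (b : ℂ) - D‖ := Complex.abs_re_le_norm _
      rw [Complex.sub_re, Complex.ofReal_re] at h4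
      have h5 := (abs_lt.1 (h4.trans_lt h3)).1
      refine ⟨(deriv V (b : ℂ)).re, by linarith, ?_⟩
      apply Complex.ext
      · simp
      · simp [h2]
    · have h1 : ∀ᶠ t in 𝓝 (b : ℂ), R2 < ‖t‖ := by
        refine (isOpen_lt continuous_const continuous_norm).mem_nhds ?_
        show R2 < ‖(b : ℂ)‖
        rw [hbn]
        exact (le_max_right _ _).trans_lt hb1
      filter_upwards [self_mem_nhdsWithin, nhdsWithin_le_nhds h1] with t ht h1
      exact hR2 t ht h1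
  have key : ∀ j : ℕ, j ≤ n → ∃ Vr, RealAt W (b - j) (u (n - j)) Vr := by
    intro j
    induction j with
    | zero =>
      intro _
      refine ⟨V, ?_⟩
      simpa using hstart
    | succ j ih =>
      intro hj
      obtain ⟨V₁, hV₁⟩ := ih (by omega)
      have e1 : n - j = (n - (j + 1)) + 1 := by omega
      have h1 := hu1 (n - (j + 1))
      rw [← e1] at h1
      have h0 : p - 2 * c < u (n - (j + 1)) := by
        rcases Nat.eq_zero_or_pos (n - (j + 1)) with h | h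
        · rw [h, hu0]; exact hy
        · obtain ⟨k, hk⟩ : ∃ k, n - (j + 1) = k + 1 := ⟨n - (j + 1) - 1, by omega⟩
          rw [hk]
          have := (hu1 k).1
          linarith
      obtain ⟨V₀, hV₀⟩ := step_back hp hpr hW h0 h1.1 h1.2 hV₁
      refine ⟨V₀, ?_⟩
      have e2 : b - ((j + 1 : ℕ) : ℝ) = b - j - 1 := by push_cast; ring
      rw [e2]
      exact hV₀
  obtain ⟨Vr, hVr⟩ := key n le_rfl
  rw [Nat.sub_self, hu0] at hVr
  exact ⟨_, Vr, hVr⟩
end VP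

end Pool.Agent.MP_ae5b4e_an_ALG
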