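import Mathlib
import Pool.Agent.Lib.MP_ae5b4e_an_ALG.Defs
import Pool.Agent.Lib.MP_ae5b4e_an_ALG.RealPos
import Pool.Agent.Lib.MP_ae5b4e_an_ALG.Side
import Pool.Agent.Lib.MP_ae5b4e_an_ALG.Lim

/-!
# MP_ae5b4e_an, algebraic tables, module XB: the local data at the point where `W = -p`
-/

set_option autoImplicit false

noncomputable section

namespace Pool.Agent.MP_ae5b4e_an_ALG

open Filter Topology Set Metric Complex
open scoped Real

namespace XDat

/-! ### The local inverse of `Ef` -/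

section phi

variable {p r : ℝ}

theorem one_sub_mem (hp : 0 < p) (hr : 0 < r) : (1 - (r : ℂ) / (-p : ℂ)) ∈ slitPlane := by
  have h : (1 - (r : ℂ) / (-p : ℂ)) = ((1 + r / p : ℝ) : ℂ) := by
    push_cast
    have : (p : ℂ) ≠ 0 := by exact_mod_cast hp.ne'
    field_simp
    ring
  rw [h]
  refine ofReal_mem_slitPlane.2 ?_
  positivity

theorem Ef_hasDeriv (hp : 0 < p) (hr : 0 < r) :
    HasDerivAt (Ef p r)
      (((-(1 / p * Real.exp (p / r * Real.log (1 + r / p))) : ℝ)) : ℂ) (-p : ℂ) := by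
  have hpc : (-p : ℂ) ≠ 0 := by
    rw [neg_ne_zero]
    exact_mod_cast hp.ne'
  have hpc' : (p : ℂ) ≠ 0 := by exact_mod_cast hp.ne'
  have h1 : HasDerivAt (fun V : ℂ => 1 + (p : ℂ) / V) (-(p : ℂ) / (-p : ℂ) ^ 2) (-p : ℂ) := by
    have := (hasDerivAt_inv hpc).const_mul (p : ℂ)
    have h2 := this.const_add (1 : ℂ)
    refine HasDerivAt.congr_deriv (f' := (p : ℂ) * -((-p : ℂ) ^ 2)⁻¹) ?_ ?_
    · simpa [div_eq_mul_inv] using h2
    · field_simp
  have h2 : HasDerivAt (fun V : ℂ => 1 - (r : ℂ) / V) ((r : ℂ) / (-p : ℂ) ^ 2) (-p : ℂ) := by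
    have := (hasDerivAt_inv hpc).const_mul (r : ℂ)
    have h2 := this.const_sub (1 : ℂ)
    refine HasDerivAt.congr_deriv (f' := -((r : ℂ) * -((-p : ℂ) ^ 2)⁻¹)) ?_ ?_
    · simpa [div_eq_mul_inv] using h2
    · field_simp
  have h3 := ((h2.clog (one_sub_mem hp hr)).const_mul (((p / r : ℝ) : ℂ))).cexp
  have h4 := h1.mul h3
  refine HasDerivAt.congr_deriv h4 ?_
  have h5 : (1 + (p : ℂ) / (-p : ℂ)) = 0 := by
    field_simp
    ring
  have h6 : (1 - (r : ℂ) / (-p : ℂ)) = ((1 + r / p : ℝ) : ℂ) := by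
    push_cast
    field_simp
    ring
  simp only [h5, zero_mul, add_zero]
  rw [h6, ← Complex.ofReal_log (by positivity)]
  push_cast
  field_simp

theorem Ef_ana (hp : 0 < p) (hr : 0 < r) : AnalyticAt ℂ (Ef p r) (-p : ℂ) := by
  have hpc : (-p : ℂ) ≠ 0 := by
    rw [neg_ne_zero]
    exact_mod_cast hp.ne'
  unfold Ef
  refine AnalyticAt.mul ?_ ?_
  · exact analyticAt_const.add (analyticAt_const.div analyticAt_id hpc)
  · refine AnalyticAt.cexp (analyticAt_const.mul ?_)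
    exact AnalyticAt.clog (analyticAt_const.sub (analyticAt_const.div analyticAt_id hpc))
      (one_sub_mem hp hr)

theorem Ef_zero (hp : 0 < p) : Ef p r (-p : ℂ) = 0 := by
  have hpc' : (p : ℂ) ≠ 0 := by exact_mod_cast hp.ne'
  unfold Ef
  have h5 : (1 + (p : ℂ) / (-p : ℂ)) = 0 := by
    field_simp
    ring
  rw [h5, zero_mul]

theorem Ef_conj (hp : 0 < p) (hr : 0 < r) :
    ∀ᶠ V in 𝓝 (-p : ℂ), Ef p r ((starRingEnd ℂ) V) = (starRingEnd ℂ) (Ef p r V) := by
  have hpc : (-p : ℂ) ≠ 0 := by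
    rw [neg_ne_zero]
    exact_mod_cast hp.ne'
  have hc : ContinuousAt (fun V : ℂ => 1 - (r : ℂ) / V) (-p : ℂ) :=
    continuousAt_const.sub (continuousAt_const.div continuousAt_id hpc)
  filter_upwards [hc.eventually_mem (isOpen_slitPlane.mem_nhds (one_sub_mem hp hr))] with V hV
  unfold Ef
  have h1 : (1 - (r : ℂ) / (starRingEnd ℂ) V) = (starRingEnd ℂ) (1 - (r : ℂ) / V) := by
    simp [map_sub, map_div₀]
  have h2 : (1 + (p : ℂ) / (starRingEnd ℂ) V) = (starRingEnd ℂ) (1 + (p : ℂ) / V) := by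
    simp [map_add, map_div₀]
  rw [h1, h2, Complex.log_conj _ (mem_slitPlane_iff_arg.1 hV).1, map_mul, ← Complex.exp_conj,
    map_mul, Complex.conj_ofReal]

theorem exists_phi (hp : 0 < p) (hr : 0 < r) : ∃ φ : ℂ → ℂ, AnalyticAt ℂ φ 0 ∧ φ 0 = -p ∧
    (∃ m : ℝ, 0 < m ∧ deriv φ 0 = -m) ∧
    (∀ᶠ η in 𝓝 (0:ℂ), φ ((starRingEnd ℂ) η) = (starRingEnd ℂ) (φ η)) ∧
    (∀ᶠ η in 𝓝 (0:ℂ), Ef p r (φ η) = η) ∧ (∀ᶠ V in 𝓝 (-p : ℂ), φ (Ef p r V) = V) := by
  have hA := Ef_ana hp hr
  have hD := Ef_hasDeriv hp hr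
  set m : ℝ := 1 / p * Real.exp (p / r * Real.log (1 + r / p)) with hm
  have hmpos : 0 < m := by positivity
  have hne : deriv (Ef p r) (-p : ℂ) ≠ 0 := by
    rw [hD.deriv]
    exact_mod_cast (neg_ne_zero.2 hmpos.ne')
  have h0 := Ef_zero (r := r) hp
  have hAφ := hA.analyticAt_localInverse hne
  set φ := hA.hasStrictDerivAt.localInverse _ _ _ hne with hφ
  have hleft : ∀ᶠ V in 𝓝 (-p : ℂ), φ (Ef p r V) = V :=
    hA.hasStrictDerivAt.eventually_left_inverse hne
  have hright : ∀ᶠ η in 𝓝 (Ef p r (-p : ℂ)), Ef p r (φ η) = η :=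
    hA.hasStrictDerivAt.eventually_right_inverse hne
  have hderiv := (hA.hasStrictDerivAt.to_localInverse hne).hasDerivAt
  rw [h0] at hright hAφ hderiv
  have hφ0 : φ 0 = -p := by
    have := hleft.self_of_nhds
    rwa [h0] at this
  refine ⟨φ, hAφ, hφ0, ⟨m⁻¹, by positivity, ?_⟩, ?_, hright, hleft⟩
  · rw [hderiv.deriv, hD.deriv]
    push_cast
    rw [inv_neg]
  · have hcont : ContinuousAt (fun η => (starRingEnd ℂ) (φ η)) 0 :=
      Complex.continuous_conj.continuousAt.comp hAφ.continuousAt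
    have ht : Tendsto (fun η => (starRingEnd ℂ) (φ η)) (𝓝 0) (𝓝 (-p : ℂ)) := by
      have := hcont.tendsto
      simpa [hφ0] using this
    have ht2 : Tendsto φ (𝓝 0) (𝓝 (-p : ℂ)) := by
      have := hAφ.continuousAt.tendsto
      rwa [hφ0] at this
    filter_upwards [hright, ht.eventually hleft, ht2.eventually (Ef_conj hp hr)] with η e1 e2 e3
    rw [e3, e1] at e2
    exact e2

end phi

/-! ### Pointwise relations between `Ef` and `Hf` -/

section pw

variable {p r : ℝ}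

theorem div_im_of (x : ℝ) (w : ℂ) : ((x : ℂ) / w).im = -(x * w.im / normSq w) := by
  rw [Complex.div_im]
  simp

theorem Ef_eq_exp (hp : 0 < p) (hr : 0 < r) {w : ℂ} (hw : w ∈ UP) :
    Ef p r w = Complex.exp (Hf p r w / r) := by
  have hw' : 0 < w.im := hw
  have hw0 : w ≠ 0 := by
    rintro rfl
    simp at hw'
  have hn : 0 < normSq w := normSq_pos.2 hw0
  have hrc : (r : ℂ) ≠ 0 := by exact_mod_cast hr.ne'
  have hne : (1 + (p : ℂ) / w) ≠ 0 := by
    intro h
    have h1 := congrArg Complex.im h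
    rw [Complex.add_im, div_im_of] at h1
    simp only [one_im, zero_add, zero_im, neg_eq_zero] at h1
    have h2 : 0 < p * w.im / normSq w := by positivity
    linarith
  unfold Ef Hf
  have h3 : ((p : ℂ) * Complex.log (1 - r / w) + (r : ℂ) * Complex.log (1 + p / w)) / r =
      Complex.log (1 + p / w) + ((p / r : ℝ) : ℂ) * Complex.log (1 - r / w) := by
    push_cast
    field_simp
    ring
  rw [h3, Complex.exp_add, Complex.exp_log hne]

/-- conjugation symmetry of `Hf` off the real line -/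
theorem Hf_conj (hp : 0 < p) (hr : 0 < r) {v : ℂ} (hv : v.im ≠ 0) :
    Hf p r ((starRingEnd ℂ) v) = (starRingEnd ℂ) (Hf p r v) := by
  have hv0 : v ≠ 0 := by
    rintro rfl
    simp at hv
  have hn : 0 < normSq v := normSq_pos.2 hv0
  have h1 : (1 - (r : ℂ) / (starRingEnd ℂ) v) = (starRingEnd ℂ) (1 - (r : ℂ) / v) := by
    simp [map_sub, map_div₀]
  have h2 : (1 + (p : ℂ) / (starRingEnd ℂ) v) = (starRingEnd ℂ) (1 + (p : ℂ) / v) := by
    simp [map_add, map_div₀]
  have i1 : (1 - (r : ℂ) / v).im ≠ 0 := by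
    rw [Complex.sub_im, div_im_of]
    simp only [one_im, zero_sub, neg_neg]
    exact div_ne_zero (mul_ne_zero hr.ne' hv) hn.ne'
  have i2 : (1 + (p : ℂ) / v).im ≠ 0 := by
    rw [Complex.add_im, div_im_of]
    simp only [one_im, zero_add, neg_ne_zero]
    exact div_ne_zero (mul_ne_zero hp.ne' hv) hn.ne'
  have a1 : (1 - (r : ℂ) / v).arg ≠ π := fun h => i1 (Complex.arg_eq_pi_iff.1 h).2
  have a2 : (1 + (p : ℂ) / v).arg ≠ π := fun h => i2 (Complex.arg_eq_pi_iff.1 h).2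
  unfold Hf
  rw [h1, h2, Complex.log_conj _ a1, Complex.log_conj _ a2, map_add, map_mul, map_mul,
    Complex.conj_ofReal, Complex.conj_ofReal]

/-- the value `y = Ef r p w` at a point `w` of the upper half plane with `Im (Hf (-w)) < 0` -/
theorem key (hp : 0 < p) (hr : 0 < r) {w : ℂ} (hw : w ∈ UP) (h : (Hf p r (-w)).im < 0) :
    (Ef r p w).im < 0 ∧ Complex.log (Ef r p w) = Hf p r (-w) / p := by
  have hw' : 0 < w.im := hw
  have hw0 : w ≠ 0 := by
    rintro rfl
    simp at hw'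
  have hn : 0 < normSq w := normSq_pos.2 hw0
  have hpc : (p : ℂ) ≠ 0 := by exact_mod_cast hp.ne'
  have hne : (1 + (r : ℂ) / w) ≠ 0 := by
    intro h
    have h1 := congrArg Complex.im h
    rw [Complex.add_im, div_im_of] at h1
    simp only [one_im, zero_add, zero_im, neg_eq_zero] at h1
    have h2 : 0 < r * w.im / normSq w := by positivity
    linarith
  set s : ℂ := Hf p r (-w) / p with hs
  have hs1 : s = Complex.log (1 + r / w) + ((r / p : ℝ) : ℂ) * Complex.log (1 - p / w) := by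
    rw [hs]
    unfold Hf
    have e1 : (1 - (r : ℂ) / (-w)) = 1 + r / w := by
      rw [div_neg, sub_neg_eq_add]
    have e2 : (1 + (p : ℂ) / (-w)) = 1 - p / w := by
      rw [div_neg, ← sub_eq_add_neg]
    rw [e1, e2]
    push_cast
    field_simp
  have hE : Ef r p w = Complex.exp s := by
    rw [hs1, Complex.exp_add, Complex.exp_log hne]
    rfl
  have hi : s.im = (1 + (r : ℂ) / w).arg + r / p * (1 - (p : ℂ) / w).arg := by
    rw [hs1, Complex.add_im, Complex.im_ofReal_mul, Complex.log_im, Complex.log_im]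
  have hi1 : 0 ≤ (1 - (p : ℂ) / w).arg := by
    rw [Complex.arg_nonneg_iff, Complex.sub_im, div_im_of]
    simp only [one_im, zero_sub, neg_neg]
    positivity
  have hlo : -π < s.im := by
    rw [hi]
    have h1 := Complex.neg_pi_lt_arg (1 + (r : ℂ) / w)
    have h2 : 0 ≤ r / p * (1 - (p : ℂ) / w).arg := by positivity
    linarith
  have hhi : s.im < 0 := by
    have : s.im = (Hf p r (-w)).im / p := by
      rw [hs, Complex.div_ofReal_im]
    rw [this]
    exact div_neg_of_neg_of_pos h hp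
  have hpi := Real.pi_pos
  constructor
  · rw [hE, Complex.exp_im]
    have h1 : Real.sin s.im < 0 := Real.sin_neg_of_neg_of_neg_pi_lt hhi hlo
    exact mul_neg_of_pos_of_neg (Real.exp_pos _) h1
  · rw [hE, Complex.log_exp hlo (by linarith)]

theorem key2 (hp : 0 < p) (hr : 0 < r) {w w' : ℂ} (hw : w ∈ UP) (h : (Hf p r (-w)).im < 0)
    (hw' : w' ∈ UP) (he : Hf p r w' = Hf p r (-w)) :
    Ef p r w' = Ef r p w ^ ((p / r : ℝ) : ℂ) := by
  obtain ⟨h1, h2⟩ := key hp hr hw h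
  have hne : Ef r p w ≠ 0 := by
    intro h0
    rw [h0] at h1
    simp at h1
  have hpc : (p : ℂ) ≠ 0 := by exact_mod_cast hp.ne'
  have hrc : (r : ℂ) ≠ 0 := by exact_mod_cast hr.ne'
  rw [Ef_eq_exp hp hr hw', Complex.cpow_def_of_ne_zero hne, h2, he]
  congr 1
  push_cast
  field_simp

end pw

end XDat

section XB
variable {p r D R : ℝ} {V W : ℂ → ℂ}

theorem exists_XD (hp : 0 < p) (hpr : p < r) (hD : 0 < D) (hV : SHM p r 0 D 1 R V)
    (hW : Ext p r 0 1 V W) : ∃ t0 y φ, XD p r W t0 y φ := by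
  have hr : 0 < r := hp.trans hpr
  obtain ⟨a, Vr, hVr⟩ := real_pos hp hpr hD le_rfl hV hW (y := r) (by linarith)
  have hVr' := hVr
  obtain ⟨hA, hVa, hVc, ⟨m, hm, hVm⟩, hVW⟩ := hVr'
  -- the function `U`
  set U : ℂ → ℂ := fun τ => -Vr (a - τ) with hU
  have hsub : Tendsto (fun τ : ℂ => (a : ℂ) - τ) (𝓝 0) (𝓝 (a : ℂ)) := by
    have : ContinuousAt (fun τ : ℂ => (a : ℂ) - τ) 0 := by fun_prop
    simpa using this.tendsto
  have hAU : AnalyticAt ℂ U 0 := by
    have h1 : AnalyticAt ℂ (fun τ : ℂ => (a : ℂ) - τ) 0 := analyticAt_const.sub analyticAt_id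
    have h2 : AnalyticAt ℂ Vr ((fun τ : ℂ => (a : ℂ) - τ) 0) := by simpa using hA
    exact (h2.comp h1).neg
  have hU0 : U 0 = -r := by simp [hU, hVa]
  have hUd : HasDerivAt U m 0 := by
    have h1 : HasDerivAt (fun τ : ℂ => (a : ℂ) - τ) (-1) 0 := by
      simpa using (hasDerivAt_id (0:ℂ)).const_sub (a : ℂ)
    have h2 : HasDerivAt Vr (m : ℂ) ((fun τ : ℂ => (a : ℂ) - τ) 0) := by
      have := hA.differentiableAt.hasDerivAt
      rw [hVm] at this
      simpa using this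
    have h3 : HasDerivAt (fun τ : ℂ => -Vr (a - τ)) (-((m : ℂ) * -1)) 0 :=
      (HasDerivAt.comp (0:ℂ) h2 h1).fun_neg
    simpa using h3
  have hUc : ∀ᶠ τ in 𝓝 (0:ℂ), U ((starRingEnd ℂ) τ) = (starRingEnd ℂ) (U τ) := by
    filter_upwards [hsub.eventually hVc] with τ h
    simp only [hU]
    rw [map_neg, ← h]
    simp
  have hUt : Tendsto U (𝓝 0) (𝓝 (-r : ℂ)) := by
    have := hAU.continuousAt.tendsto
    rwa [hU0] at this
  -- in the upper half plane `U τ = W (τ - a)`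
  have hUW : ∀ᶠ τ in 𝓝[UP] (0:ℂ), U τ = W (-a + τ) ∧ U τ ∈ UP := by
    have h1 : Tendsto (fun τ : ℂ => (a : ℂ) - (starRingEnd ℂ) τ) (𝓝[UP] 0) (𝓝[UP] (a : ℂ)) := by
      refine tendsto_nhdsWithin_iff.2 ⟨?_, ?_⟩
      · have : ContinuousAt (fun τ : ℂ => (a : ℂ) - (starRingEnd ℂ) τ) 0 := by fun_prop
        have h2 := this.tendsto
        simp only [map_zero, sub_zero] at h2
        exact h2.mono_left nhdsWithin_le_nhds
      · filter_upwards [self_mem_nhdsWithin] with τ hτ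
        have hτ' : 0 < τ.im := hτ
        change 0 < ((a : ℂ) - (starRingEnd ℂ) τ).im
        simpa using hτ'
    have h3 := h1.eventually hVW
    have h4 : ∀ᶠ τ in 𝓝[UP] (0:ℂ), Vr ((starRingEnd ℂ) ((a : ℂ) - (starRingEnd ℂ) τ)) =
        (starRingEnd ℂ) (Vr ((a : ℂ) - (starRingEnd ℂ) τ)) :=
      (h1.mono_right nhdsWithin_le_nhds).eventually hVc
    filter_upwards [self_mem_nhdsWithin, h3, h4] with τ hτ e1 e2
    have hτ' : 0 < τ.im := hτ
    have hmem : ((a : ℂ) - (starRingEnd ℂ) τ) ∈ UP := by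
      change 0 < ((a : ℂ) - (starRingEnd ℂ) τ).im
      simpa using hτ'
    have h5 := hW.s0 _ hmem
    have e3 : -(starRingEnd ℂ) ((a : ℂ) - (starRingEnd ℂ) τ) = -a + τ := by
      simp
      ring
    have e4 : (starRingEnd ℂ) ((a : ℂ) - (starRingEnd ℂ) τ) = a - τ := by
      simp
    rw [e3, e1, ← e2, e4] at h5
    have h6 : U τ = W (-a + τ) := by
      rw [h5]
      simp [hU]
    refine ⟨h6, ?_⟩
    rw [h6]
    refine hW.up _ ?_
    change 0 < (-(a : ℂ) + τ).im
    simpa using hτ'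
  -- the sign of `Hf (-U)`
  have hneg : ∀ᶠ τ in 𝓝[UP] (0:ℂ), (Hf p r (-U τ)).im < 0 := by
    have h1 : Tendsto (fun τ : ℂ => -(starRingEnd ℂ) (U τ)) (𝓝[UP] 0) (𝓝[UP] (r : ℂ)) := by
      refine tendsto_nhdsWithin_iff.2 ⟨?_, ?_⟩
      · have h2 : Tendsto (fun τ : ℂ => -(starRingEnd ℂ) (U τ)) (𝓝 0)
            (𝓝 (-(starRingEnd ℂ) (-r : ℂ))) :=
          ((Complex.continuous_conj.tendsto _).comp hUt).neg
        simp only [map_neg, Complex.conj_ofReal, neg_neg] at h2
        exact h2.mono_left nhdsWithin_le_nhds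
      · filter_upwards [hUW] with τ hτ
        have hτ' : 0 < (U τ).im := hτ.2
        change 0 < (-(starRingEnd ℂ) (U τ)).im
        simpa using hτ'
    filter_upwards [h1.eventually (Hf_side4 hp hr le_rfl), hUW] with τ h2 hτ
    have hτ' : 0 < (U τ).im := hτ.2
    have h3 : Hf p r ((starRingEnd ℂ) (-U τ)) = (starRingEnd ℂ) (Hf p r (-U τ)) :=
      XDat.Hf_conj hp hr (by simpa using hτ'.ne')
    rw [map_neg] at h3
    rw [h3] at h2
    simpa using h2
  -- the function `y`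
  set y : ℂ → ℂ := fun τ => Ef r p (U τ) with hy
  have hy0 : y 0 = 0 := by
    simp only [hy, hU0]
    exact XDat.Ef_zero hr
  have hyA : AnalyticAt ℂ y 0 := by
    have h1 : AnalyticAt ℂ (Ef r p) (U 0) := by
      rw [hU0]
      exact XDat.Ef_ana hr hp
    exact h1.comp hAU
  have hyd : HasDerivAt y (((-(1 / r * Real.exp (r / p * Real.log (1 + p / r))) : ℝ) : ℂ) * m) 0 := by
    have h1 : HasDerivAt (Ef r p) ((-(1 / r * Real.exp (r / p * Real.log (1 + p / r))) : ℝ) : ℂ)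
        (U 0) := by
      rw [hU0]
      exact XDat.Ef_hasDeriv hr hp
    exact HasDerivAt.comp (0:ℂ) h1 hUd
  -- the function `φ`
  obtain ⟨φ, hφA, hφ0, hφd, hφc, hφr, hφl⟩ := XDat.exists_phi hp hr
  -- the shift
  have hWs : ∀ᶠ τ in 𝓝[UP] (0:ℂ), W (((1 - a : ℝ) : ℂ) + τ) ∈ UP ∧
      Hf p r (W (((1 - a : ℝ) : ℂ) + τ)) = Hf p r (-U τ) := by
    filter_upwards [self_mem_nhdsWithin, hUW] with τ hτ e
    have hτ' : 0 < τ.im := hτ
    constructor
    · refine hW.up _ ?_
      change 0 < (((1 - a : ℝ) : ℂ) + τ).im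
      rw [Complex.add_im, Complex.ofReal_im, zero_add]
      exact hτ'
    · have hmem : (-(a : ℂ) + τ) ∈ UP := by
        change 0 < (-(a : ℂ) + τ).im
        simpa using hτ'
      have h5 := hW.step _ hmem
      rw [← e.1] at h5
      have e1 : (((1 - a : ℝ) : ℂ) + τ) = -(a : ℂ) + τ + ((1 : ℝ) : ℂ) := by
        push_cast
        ring
      rw [e1, h5]
      simp
  have hlim : Tendsto (fun τ : ℂ => W (((1 - a : ℝ) : ℂ) + τ)) (𝓝[UP] 0) (𝓝 (-p : ℂ)) := by
    refine lim_mp hp hr (hWs.mono fun τ h => h.1) ?_ ?_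
    · have h1 : Tendsto (fun τ => p * Real.log ‖y τ‖) (𝓝[UP] 0) atBot := by
        refine Tendsto.const_mul_atBot hp ?_
        refine Real.tendsto_log_nhdsGT_zero.comp ?_
        refine tendsto_nhdsWithin_iff.2 ⟨?_, ?_⟩
        · have h2 := hyA.continuousAt.norm.tendsto
          rw [hy0, norm_zero] at h2
          exact h2.mono_left nhdsWithin_le_nhds
        · filter_upwards [hUW, hneg] with τ e1 e2
          have h3 := (XDat.key hp hr e1.2 e2).1
          have h4 : y τ ≠ 0 := by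
            intro h0
            rw [show Ef r p (U τ) = 0 from h0] at h3
            simp at h3
          exact norm_pos_iff.2 h4
      refine h1.congr' ?_
      filter_upwards [hUW, hneg, hWs] with τ e1 e2 e3
      have h3 := (XDat.key hp hr e1.2 e2).2
      have hpc : (p : ℂ) ≠ 0 := by exact_mod_cast hp.ne'
      have h4 : Hf p r (-U τ) = p * Complex.log (y τ) := by
        rw [show Complex.log (y τ) = Hf p r (-U τ) / p from h3]
        field_simp
      rw [e3.2, h4, Complex.re_ofReal_mul, Complex.log_re]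
    · filter_upwards [hneg, hWs] with τ e1 e2
      rw [e2.2]
      exact e1
  refine ⟨1 - a, y, φ, ?_⟩
  constructor
  · exact hyA
  · exact hy0
  · refine ⟨1 / r * Real.exp (r / p * Real.log (1 + p / r)) * m, by positivity, ?_⟩
    rw [hyd.deriv]
    push_cast
    ring
  · filter_upwards [hUc, hUt.eventually (XDat.Ef_conj hr hp)] with τ e1 e2
    simp only [hy]
    rw [e1, e2]
  · exact hφA
  · exact hφ0
  · exact hφd
  · exact hφc
  · exact hφr
  · filter_upwards [hUW, hneg, hWs, hlim.eventually hφl] with τ e1 e2 e3 e4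
    refine ⟨(XDat.key hp hr e1.2 e2).1, ?_⟩
    rw [← e4, XDat.key2 hp hr e1.2 e2 e3.1 e3.2]
  · refine ⟨Vr, ?_⟩
    have : 1 - (1 - a) = a := by ring
    rw [this]
    exact hVr
end XB

end Pool.Agent.MP_ae5b4e_an_ALG
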