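import Pool.Agent.Lib.MP_ae5b4e_an_ALG.XInj
import Pool.Agent.Lib.MP_ae5b4e_an_ALG.XDat
import Pool.Agent.Lib.MP_ae5b4e_an_ALG.ChainStep
set_option autoImplicit false
noncomputable section
namespace Pool.Agent.MP_ae5b4e_an_ALG
open Filter Topology Set Metric Complex
open scoped Real

namespace ChainF

instance neBot : (𝓝[UP] (0 : ℂ)).NeBot := by
  rw [← mem_closure_iff_nhdsWithin_neBot]
  have : UP = {z : ℂ | 0 < z.im} := rfl
  rw [this, Complex.closure_setOfPred_lt_im]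
  simp

theorem shift {W : ℂ → ℂ} {a : ℝ} {z : ℂ}
    (h : Tendsto (fun τ => W (a + τ)) (𝓝[UP] 0) (𝓝 z)) :
    Tendsto W (𝓝[UP] (a : ℂ)) (𝓝 z) := by
  have h1 : Tendsto (fun t : ℂ => t - a) (𝓝[UP] (a : ℂ)) (𝓝[UP] 0) := by
    apply tendsto_nhdsWithin_of_tendsto_nhds_of_eventually_within
    · have : ContinuousAt (fun t : ℂ => t - a) (a : ℂ) := by fun_prop
      have h2 := this.tendsto
      simp only [sub_self] at h2
      exact h2.mono_left nhdsWithin_le_nhds
    · filter_upwards [self_mem_nhdsWithin] with t ht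
      simp only [UP, mem_ofPred_eq] at ht ⊢
      simpa using ht
  have h2 := h.comp h1
  refine h2.congr ?_
  intro t
  simp

theorem refl_tendsto : Tendsto (fun τ : ℂ => -(starRingEnd ℂ) τ) (𝓝[UP] 0) (𝓝[UP] 0) := by
  apply tendsto_nhdsWithin_of_tendsto_nhds_of_eventually_within
  · have : ContinuousAt (fun τ : ℂ => -(starRingEnd ℂ) τ) 0 := by
      exact (Complex.continuous_conj.continuousAt).neg
    have h2 := this.tendsto
    simp only [map_zero, neg_zero] at h2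
    exact h2.mono_left nhdsWithin_le_nhds
  · filter_upwards [self_mem_nhdsWithin] with t ht
    simp only [UP, mem_ofPred_eq] at ht ⊢
    simpa using ht

/-- an analytic function with nonzero derivative is bounded below -/
theorem low_of_deriv {f : ℂ → ℂ} (hf : AnalyticAt ℂ f 0) {d : ℝ} (hd : 0 < d)
    (h : deriv f 0 = -d) : ∀ᶠ w in 𝓝 (0:ℂ), d / 2 * ‖w‖ ≤ ‖f w - f 0‖ := by
  have h1 : HasDerivAt f (-d : ℂ) 0 := by
    rw [← h]; exact hf.differentiableAt.hasDerivAt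
  have h2 := h1.isLittleO
  have h3 := h2.def (c := d / 2) (by positivity)
  filter_upwards [h3] with w hw
  simp only [sub_zero, smul_eq_mul] at hw
  have h4 : ‖w * (-d : ℂ)‖ = d * ‖w‖ := by
    rw [norm_mul, norm_neg, Complex.norm_real, Real.norm_of_nonneg hd.le, mul_comm]
  have h5 : ‖w * (-d : ℂ)‖ ≤ ‖f w - f 0‖ + ‖f w - f 0 - w * (-d : ℂ)‖ := by
    have : w * (-d : ℂ) = (f w - f 0) - (f w - f 0 - w * (-d : ℂ)) := by ring
    calc ‖w * (-d : ℂ)‖ = ‖(f w - f 0) - (f w - f 0 - w * (-d : ℂ))‖ := by rw [← this]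
      _ ≤ _ := norm_sub_le _ _
  rw [h4] at h5
  linarith

theorem start {p r : ℝ} {W : ℂ → ℂ} (hp : 0 < p) (hpr : p < r) {t0 : ℝ} {y φ : ℂ → ℂ}
    (h : XD p r W t0 y φ) :
    Tendsto (fun τ => W (t0 + τ)) (𝓝[UP] 0) (𝓝 (-p : ℂ)) ∧ Low W t0 (-p) (p / r) := by
  have hr : 0 < r := hp.trans hpr
  have hx : 0 < p / r := div_pos hp hr
  obtain ⟨κ, hκ, hyd⟩ := h.y_der
  obtain ⟨m, hm, hφd⟩ := h.φ_der
  have hy0 : Tendsto y (𝓝 0) (𝓝 0) := by
    have := h.y_ana.continuousAt.tendsto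
    rwa [h.y_zero] at this
  have hnorm : ∀ τ : ℂ, ‖y τ ^ ((p / r : ℝ) : ℂ)‖ = ‖y τ‖ ^ (p / r) := fun τ =>
    Complex.norm_cpow_real (y τ) (p / r)
  have hη0 : Tendsto (fun τ => y τ ^ ((p / r : ℝ) : ℂ)) (𝓝 0) (𝓝 0) := by
    rw [tendsto_zero_iff_norm_tendsto_zero]
    simp_rw [hnorm]
    have h1 : Tendsto (fun τ => ‖y τ‖) (𝓝 (0:ℂ)) (𝓝 0) := by
      simpa using hy0.norm
    have h2 : ContinuousAt (fun s : ℝ => s ^ (p / r)) 0 :=
      Real.continuousAt_rpow_const 0 (p / r) (Or.inr hx.le)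
    have h3 := h2.tendsto.comp h1
    simpa [Function.comp_def, Real.zero_rpow hx.ne'] using h3
  have hφ0 : Tendsto φ (𝓝 0) (𝓝 (-p : ℂ)) := by
    have := h.φ_ana.continuousAt.tendsto
    rwa [h.φ_zero] at this
  constructor
  · have h1 := (hφ0.comp hη0).mono_left (nhdsWithin_le_nhds (s := UP))
    refine h1.congr' ?_
    filter_upwards [h.eq] with τ hτ
    simp only [Function.comp_apply]
    exact hτ.2.symm
  · refine ⟨m / 2 * (κ / 2) ^ (p / r), by positivity, ?_⟩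
    have e1 := low_of_deriv h.y_ana hκ hyd
    have e2 := hη0.eventually (low_of_deriv h.φ_ana hm hφd)
    have e1' := e1.filter_mono (nhdsWithin_le_nhds (s := UP))
    have e2' := e2.filter_mono (nhdsWithin_le_nhds (s := UP))
    filter_upwards [h.eq, e1', e2'] with τ hτ a1 a2
    rw [hτ.2]
    rw [h.y_zero, sub_zero] at a1
    rw [h.φ_zero, hnorm] at a2
    refine le_trans ?_ a2
    have a3 : (κ / 2 * ‖τ‖) ^ (p / r) ≤ ‖y τ‖ ^ (p / r) :=
      Real.rpow_le_rpow (by positivity) a1 hx.le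
    rw [Real.mul_rpow (by positivity) (norm_nonneg _)] at a3
    calc m / 2 * (κ / 2) ^ (p / r) * ‖τ‖ ^ (p / r) = m / 2 * ((κ / 2) ^ (p / r) * ‖τ‖ ^ (p / r)) := by
          ring
      _ ≤ m / 2 * ‖y τ‖ ^ (p / r) := by gcongr

end ChainF

section XF
variable {p r D R : ℝ} {V W : ℂ → ℂ}

theorem exists_chain (hp : 0 < p) (hpr : p < r) (hD : 0 < D) (hV : SHM p r 0 D 1 R V)
    (hW : Ext p r 0 1 V W) {t0 : ℝ} {y φ : ℂ → ℂ} (h : XD p r W t0 y φ) :
    ∃ n z, Chain p r W t0 n z := by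
  have hr : 0 < r := hp.trans hpr
  have hx : p / r < 1 := (div_lt_one hr).2 hpr
  obtain ⟨h0, hL0⟩ := ChainF.start hp hpr h
  obtain ⟨z1, hz1, hH1, hl1, hL1⟩ := step_first hp hpr hW h0 hL0
  obtain ⟨A, hA⟩ := not_low (x := p / r) hp hpr hV hW hx
  -- good indices
  let Good : ℕ → Prop := fun k => ∃ z ∈ UP,
    Tendsto (fun τ => W (((t0 + k : ℝ) : ℂ) + τ)) (𝓝[UP] 0) (𝓝 z) ∧ Low W (t0 + k) z (p / r)
  have hG1 : Good 1 := by
    refine ⟨z1, hz1, ?_, ?_⟩
    · simpa using hl1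
    · simpa using hL1
  have hbad : ∃ k, 2 ≤ k ∧ ¬ Good k := by
    by_contra hcon
    push Not at hcon
    obtain ⟨k, hk⟩ := exists_nat_gt (A - t0)
    obtain ⟨z, _, hz2, hz3⟩ := hcon (k + 2) (by omega)
    refine hA (t0 + (k + 2 : ℕ)) ?_ z hz2 hz3
    push_cast
    linarith
  classical
  obtain ⟨n, hn2, hnbad, hnmin⟩ : ∃ n, 2 ≤ n ∧ ¬ Good n ∧ ∀ k, 2 ≤ k → k < n → Good k := by
    refine ⟨Nat.find hbad, (Nat.find_spec hbad).1, (Nat.find_spec hbad).2, ?_⟩
    intro k hk2 hk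
    have := Nat.find_min hbad hk
    push Not at this
    exact this hk2
  have hgood : ∀ k, 1 ≤ k → k < n → Good k := by
    intro k hk1 hk
    rcases Nat.lt_or_ge k 2 with h2 | h2
    · have : k = 1 := by omega
      subst this; exact hG1
    · exact hnmin k h2 hk
  have hlast : Tendsto (fun τ => W (((t0 + n : ℝ) : ℂ) + τ)) (𝓝[UP] 0) (𝓝 (p : ℂ)) := by
    obtain ⟨z, hz, hzl, hzL⟩ := hgood (n - 1) (by omega) (by omega)
    have hcast : t0 + ((n - 1 : ℕ) : ℝ) + 1 = t0 + n := by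
      rw [Nat.cast_sub (by omega)]; push_cast; ring
    rcases step_up hp hpr hW hz hzl hzL with ⟨z', hz', h1, h2⟩ | ⟨x', hx1, hx2, h1, h2⟩
    · exfalso
      apply hnbad
      rw [hcast] at h1 h2
      exact ⟨z', hz', h1, h2⟩
    · rw [hcast] at h1 h2
      rcases hx1.eq_or_lt with h3 | h3
      · rw [h3]; exact h1
      · exfalso
        have hit : ∀ m : ℕ, ∃ y' : ℝ, p < y' ∧
            Tendsto (fun τ => W (((t0 + n + m : ℝ) : ℂ) + τ)) (𝓝[UP] 0) (𝓝 (y' : ℂ)) ∧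
            Low W (t0 + n + m) y' (p / r) := by
          intro m
          induction m with
          | zero => exact ⟨x', h3, by simpa using h1, by simpa using h2⟩
          | succ m ih =>
            obtain ⟨y1, hy1, hy2, hy3⟩ := ih
            obtain ⟨y2, hy4, hy5, hy6⟩ := step_real hp hpr hW hy1 hy2 hy3
            have hc : t0 + n + ((m + 1 : ℕ) : ℝ) = t0 + n + m + 1 := by push_cast; ring
            refine ⟨y2, hpr.trans hy4, ?_, ?_⟩
            · rw [hc]; exact hy5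
            · rw [hc]; exact hy6
        obtain ⟨m, hm⟩ := exists_nat_gt (A - t0 - n)
        obtain ⟨y', _, hy2, hy3⟩ := hit m
        exact hA (t0 + n + m) (by linarith) y' hy2 hy3
  have ht0 : t0 = -(n / 2 : ℝ) := by
    have h1 := step_p hp hpr hW hlast
    obtain ⟨Vr, hVa, hVv, _, _, hVe⟩ := h.right
    have h2 : Tendsto W (𝓝[UP] ((1 - t0 : ℝ) : ℂ)) (𝓝 (r : ℂ)) := by
      have h3 : Tendsto Vr (𝓝 ((1 - t0 : ℝ) : ℂ)) (𝓝 (r : ℂ)) := by
        have := hVa.continuousAt.tendsto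
        rwa [hVv] at this
      refine (h3.mono_left (nhdsWithin_le_nhds (s := UP))).congr' ?_
      filter_upwards [hVe] with t ht using ht.symm
    have h3 := W_unique hp hpr hD hV hW hpr (ChainF.shift h1) h2
    linarith
  have key : ∀ k, k ≤ n → ∃ z : ℂ, (k = 0 → z = -p) ∧ (0 < k → k < n → z ∈ UP) ∧
      (k = n → z = p) ∧ Tendsto (fun τ => W ((t0 : ℂ) + (k : ℂ) + τ)) (𝓝[UP] 0) (𝓝 z) := by
    intro k hk
    rcases Nat.eq_zero_or_pos k with h1 | h1
    · subst h1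
      refine ⟨-p, fun _ => rfl, fun h => absurd h (by omega), fun h => absurd h (by omega), ?_⟩
      simpa using h0
    · rcases hk.eq_or_lt with h2 | h2
      · subst h2
        refine ⟨p, fun h => absurd h (by omega), fun _ h => absurd h (by omega), fun _ => rfl, ?_⟩
        simpa using hlast
      · obtain ⟨z, hz1, hz2, _⟩ := hgood k h1 h2
        refine ⟨z, fun h => absurd h (by omega), fun _ _ => hz1, fun h => absurd h (by omega), ?_⟩
        simpa using hz2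
  choose! z hz using key
  have hlim : ∀ k, k ≤ n → Tendsto (fun τ => W ((t0 : ℂ) + (k : ℂ) + τ)) (𝓝[UP] 0) (𝓝 (z k)) :=
    fun k hk => (hz k hk).2.2.2
  refine ⟨n, z, hn2, (hz 0 (by omega)).1 rfl, (hz n le_rfl).2.2.1 rfl,
    fun k h1 h2 => (hz k h2.le).2.1 h1 h2, hlim, ht0, ?_, ?_⟩
  · intro k hk
    have h1 := (hlim (n - k) (by omega)).comp ChainF.refl_tendsto
    have h2 : Tendsto (fun τ => -(starRingEnd ℂ) (W ((t0 : ℂ) + (k : ℂ) + τ))) (𝓝[UP] 0)
        (𝓝 (-(starRingEnd ℂ) (z k))) :=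
      ((Complex.continuous_conj.tendsto _).comp (hlim k hk)).neg
    refine tendsto_nhds_unique (h1.congr' ?_) h2
    filter_upwards [self_mem_nhdsWithin] with τ hτ
    have hτ' : 0 < τ.im := hτ
    have h3 := hW.s0 ((t0 : ℂ) + (k : ℂ) + τ) (by
      simp only [UP, mem_ofPred_eq]
      simpa using hτ')
    simp only [Function.comp_apply]
    have h4 : -(starRingEnd ℂ) ((t0 : ℂ) + (k : ℂ) + τ) =
        (t0 : ℂ) + ((n - k : ℕ) : ℂ) + -(starRingEnd ℂ) τ := by
      have h5 : (t0 : ℂ) = -((n : ℂ) / 2) := by rw [ht0]; push_cast; ring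
      rw [Nat.cast_sub hk]
      simp only [map_add, Complex.conj_ofReal, map_natCast]
      rw [h5]; ring
    rw [h4] at h3
    rw [h3]
    simp
  · have h1 := hlim 1 (by omega)
    have h2 : Tendsto (fun τ => W ((t0 : ℂ) + ((1 : ℕ) : ℂ) + τ)) (𝓝[UP] 0) (𝓝 z1) := by
      simpa using hl1
    rw [tendsto_nhds_unique h1 h2]
    exact hH1
end XF

end Pool.Agent.MP_ae5b4e_an_ALG
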