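import Pool.Agent.Lib.MP_ae5b4e_an_ALG.Kap

/-!
# MP_ae5b4e_an, algebraic tables, module XM: the inequality for the chain

The products `om k` of the factors `kap (z j)` have arguments adding up to `π p / r`; the chain is
symmetric, so the rotated terms of the sum (A) have nonnegative imaginary parts.
-/

set_option autoImplicit false

noncomputable section

namespace Pool.Agent.MP_ae5b4e_an_ALG

open Filter Topology Set Metric Complex
open scoped Real

namespace XM

/-- the factors of the chain -/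
def om (p r : ℝ) (z w : ℕ → ℂ) (k : ℕ) : ℂ := -(w k / Pf p r (-z k))

theorem Pf_neg_ne {p r : ℝ} {z : ℂ} (hz : z ∈ UP) : Pf p r (-z) ≠ 0 := by
  have him : z.im ≠ 0 := ne_of_gt hz
  unfold Pf
  refine mul_ne_zero (mul_ne_zero ?_ ?_) ?_
  · intro h; apply him; have := congrArg Complex.im h; simpa using this
  · intro h; apply him; have := congrArg Complex.im h; simpa using this
  · intro h; apply him; have := congrArg Complex.im h; simpa using this

theorem fac_ne {a : ℝ} {z : ℂ} (hz : z ∈ UP) : z - a ≠ 0 := by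
  have him : z.im ≠ 0 := ne_of_gt hz
  intro h; apply him; have := congrArg Complex.im h; simpa using this

theorem fac_ne' {a : ℝ} {z : ℂ} (hz : z ∈ UP) : z + a ≠ 0 := by
  have him : z.im ≠ 0 := ne_of_gt hz
  intro h; apply him; have := congrArg Complex.im h; simpa using this

theorem z_ne {z : ℂ} (hz : z ∈ UP) : z ≠ 0 := by
  have him : z.im ≠ 0 := ne_of_gt hz
  intro h; apply him; rw [h]; rfl

theorem w_eq {p r : ℝ} {n : ℕ} {z w : ℕ → ℂ}
    (hw : ∀ k, k < n → w (k + 1) = -Pf p r (z (k + 1)) * w k / Pf p r (-z k))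
    {k : ℕ} (hk : k < n) : w (k + 1) = Pf p r (z (k + 1)) * om p r z w k := by
  rw [hw k hk, om]; ring

theorem om_zero {p r : ℝ} (hp : 0 < p) (hpr : p < r) {z w : ℕ → ℂ}
    (h0 : z 0 = -p) (hw0 : w 0 = 1) :
    om p r z w 0 = ((1 / (2 * p ^ 2 * (r - p)) : ℝ) : ℂ) := by
  have h1 : (p : ℂ) ≠ 0 := by exact_mod_cast hp.ne'
  have h2 : ((r : ℂ) - p) ≠ 0 := by
    have : r - p ≠ 0 := (sub_pos.2 hpr).ne'
    exact_mod_cast this
  have h3 : ((p : ℂ) - r) ≠ 0 := by
    intro h; apply h2; linear_combination -h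
  unfold om Pf
  rw [h0, hw0]
  push_cast
  simp only [neg_neg]
  field_simp
  ring

theorem om_succ {p r : ℝ} {n : ℕ} {z w : ℕ → ℂ}
    (hup : ∀ k, 0 < k → k < n → z k ∈ UP)
    (hw : ∀ k, k < n → w (k + 1) = -Pf p r (z (k + 1)) * w k / Pf p r (-z k))
    {k : ℕ} (hk : k + 1 < n) : om p r z w (k + 1) = kap p r (z (k + 1)) * om p r z w k := by
  have hz := hup (k + 1) (Nat.succ_pos k) hk
  have e := w_eq hw (lt_trans (Nat.lt_succ_self k) hk)
  have a1 := fac_ne (a := p) hz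
  have a2 := fac_ne' (a := r) hz
  have a3 := z_ne hz
  rw [om, e]
  generalize om p r z w k = o at *
  have a4 := Pf_neg_ne (p := p) (r := r) hz
  have key : -(Pf p r (z (k + 1))) = kap p r (z (k + 1)) * Pf p r (-z (k + 1)) := by
    unfold Pf kap
    field_simp
    ring
  rw [eq_comm, ← sub_eq_zero]
  field_simp
  linear_combination (-o) * key


/-- partial sums of the angles -/
def al (p r : ℝ) (z : ℕ → ℂ) (k : ℕ) : ℝ :=
  ∑ i ∈ Finset.range k, arg (kap p r (z (i + 1)))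

theorem om_polar {p r : ℝ} (hp : 0 < p) (hpr : p < r) {n : ℕ} {z w : ℕ → ℂ}
    (h0 : z 0 = -p) (hw0 : w 0 = 1) (hup : ∀ k, 0 < k → k < n → z k ∈ UP)
    (hw : ∀ k, k < n → w (k + 1) = -Pf p r (z (k + 1)) * w k / Pf p r (-z k))
    (k : ℕ) (hk : k < n) :
    om p r z w k = (‖om p r z w k‖ : ℂ) * Complex.exp ((al p r z k : ℂ) * I) := by
  induction k with
  | zero =>
      have hpos : 0 < 1 / (2 * p ^ 2 * (r - p)) := by
        have := sub_pos.2 hpr
        positivity
      rw [om_zero hp hpr h0 hw0, al, Finset.range_zero, Finset.sum_empty, Complex.norm_real,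
        Real.norm_of_nonneg hpos.le]
      simp
  | succ k ih =>
      have ih := ih (lt_trans (Nat.lt_succ_self k) hk)
      have e : al p r z (k + 1) = al p r z k + arg (kap p r (z (k + 1))) := by
        rw [al, Finset.sum_range_succ]; rfl
      have e2 := Complex.norm_mul_exp_arg_mul_I (kap p r (z (k + 1)))
      rw [om_succ hup hw hk, norm_mul, e]
      push_cast
      rw [add_mul, Complex.exp_add]
      linear_combination (-(om p r z w k)) * e2 + ((‖kap p r (z (k + 1))‖ : ℂ) *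
        Complex.exp ((arg (kap p r (z (k + 1))) : ℂ) * I)) * ih

theorem om_last {p r : ℝ} (hp : 0 < p) (hpr : p < r) {n : ℕ} {z w : ℕ → ℂ} (h2 : 2 ≤ n)
    (h0 : z 0 = -p) (hn : z n = p) (hw0 : w 0 = 1)
    (hw : ∀ k, k < n → w (k + 1) = -Pf p r (z (k + 1)) * w k / Pf p r (-z k))
    {D : ℂ} (hwn : w n = -D) : om p r z w (n - 1) = D * om p r z w 0 := by
  have h1 : (p : ℂ) ≠ 0 := by exact_mod_cast hp.ne'
  have h3 : ((p : ℂ) - r) ≠ 0 := by
    have : p - r ≠ 0 := (sub_neg.2 hpr).ne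
    exact_mod_cast this
  have h4 : ((r : ℂ) - p) ≠ 0 := by
    have : r - p ≠ 0 := (sub_pos.2 hpr).ne'
    exact_mod_cast this
  have e := w_eq hw (show n - 1 < n by omega)
  rw [show n - 1 + 1 = n by omega, hn, hwn] at e
  rw [om_zero hp hpr h0 hw0]
  generalize om p r z w (n - 1) = o at *
  unfold Pf at e
  push_cast
  have h5 : (p : ℂ) * (p + p) * (p - r) ≠ 0 := by
    refine mul_ne_zero (mul_ne_zero h1 ?_) h3
    intro h; apply h1; linear_combination h / 2
  have h6 : (p : ℂ) * (p + p) * (p - r) * (o - D * (1 / (2 * (p : ℂ) ^ 2 * (r - p)))) = 0 := by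
    have : (p : ℂ) * (p + p) * (p - r) * (D * (1 / (2 * (p : ℂ) ^ 2 * (r - p)))) = -D := by
      field_simp
      ring
    linear_combination -e - this
  have h7 := (mul_eq_zero.1 h6).resolve_left h5
  linear_combination h7

theorem om_refl {p r : ℝ} (hp : 0 < p) (hpr : p < r) {n : ℕ} {z w : ℕ → ℂ} (h2 : 2 ≤ n)
    (h0 : z 0 = -p) (hn : z n = p) (hup : ∀ k, 0 < k → k < n → z k ∈ UP)
    (hsym : ∀ k, k ≤ n → z (n - k) = -(starRingEnd ℂ) (z k)) (hw0 : w 0 = 1)
    (hw : ∀ k, k < n → w (k + 1) = -Pf p r (z (k + 1)) * w k / Pf p r (-z k))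
    {D : ℂ} (hwn : w n = -D) (k : ℕ) (hk : k < n) :
    om p r z w (n - 1 - k) = D * (starRingEnd ℂ) (om p r z w k) := by
  induction k with
  | zero =>
      rw [Nat.sub_zero, om_last hp hpr h2 h0 hn hw0 hw hwn, om_zero hp hpr h0 hw0,
        Complex.conj_ofReal]
  | succ k ih =>
      have ih := ih (lt_trans (Nat.lt_succ_self k) hk)
      obtain ⟨m, hm⟩ : ∃ m, n = m + (k + 1) + 1 := ⟨n - (k + 2), by omega⟩
      have e1 : n - 1 - (k + 1) = m := by omega
      have e2 : n - 1 - k = m + 1 := by omega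
      rw [e2] at ih
      rw [e1]
      have hm1 : m + 1 < n := by omega
      have e3 := om_succ hup hw hm1
      have e4 : z (m + 1) = -(starRingEnd ℂ) (z (k + 1)) := by
        have := hsym (k + 1) hk.le
        rwa [show n - (k + 1) = m + 1 by omega] at this
      have hz := hup (k + 1) (Nat.succ_pos k) hk
      have hk2 := kap_refl hp hpr hz
      have hne : kap p r (z (k + 1)) ≠ 0 := z_ne (kap_up hp hpr hz)
      have hne' : (starRingEnd ℂ) (kap p r (z (k + 1))) ≠ 0 := by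
        rw [Ne, map_eq_zero]; exact hne
      rw [e4, hk2] at e3
      rw [om_succ hup hw hk, map_mul]
      rw [e3] at ih
      have : om p r z w m = (starRingEnd ℂ) (kap p r (z (k + 1))) *
          (((starRingEnd ℂ) (kap p r (z (k + 1))))⁻¹ * om p r z w m) := by
        field_simp
      rw [this, ih]
      ring

theorem al_succ (p r : ℝ) (z : ℕ → ℂ) (k : ℕ) :
    al p r z (k + 1) = al p r z k + arg (kap p r (z (k + 1))) := by
  rw [al, Finset.sum_range_succ]; rfl

theorem al_refl {p r : ℝ} (hp : 0 < p) (hpr : p < r) {n : ℕ} {z : ℕ → ℂ}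
    (hup : ∀ k, 0 < k → k < n → z k ∈ UP)
    (hsym : ∀ k, k ≤ n → z (n - k) = -(starRingEnd ℂ) (z k)) (k : ℕ) (hk : k < n) :
    al p r z k + al p r z (n - 1 - k) = al p r z (n - 1) := by
  induction k with
  | zero => simp [al]
  | succ k ih =>
      have ih := ih (lt_trans (Nat.lt_succ_self k) hk)
      obtain ⟨m, hm⟩ : ∃ m, n = m + (k + 1) + 1 := ⟨n - (k + 2), by omega⟩
      have e1 : n - 1 - (k + 1) = m := by omega
      have e2 : n - 1 - k = m + 1 := by omega
      rw [e2, al_succ] at ih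
      rw [e1, al_succ]
      have e4 : z (m + 1) = -(starRingEnd ℂ) (z (k + 1)) := by
        have := hsym (k + 1) hk.le
        rwa [show n - (k + 1) = m + 1 by omega] at this
      have hz := hup (k + 1) (Nat.succ_pos k) hk
      have := kap_arg_refl hp hpr hz
      rw [← e4] at this
      linarith

theorem al_mono {p r : ℝ} (hp : 0 < p) (hpr : p < r) {n : ℕ} {z : ℕ → ℂ}
    (hup : ∀ k, 0 < k → k < n → z k ∈ UP) {j k : ℕ} (hjk : j ≤ k) (hk : k < n) :
    al p r z j ≤ al p r z k := by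
  unfold al
  refine Finset.sum_le_sum_of_subset_of_nonneg ?_ ?_
  · exact Finset.range_mono hjk
  · intro i hi _
    have hi := Finset.mem_range.1 hi
    have hz := hup (i + 1) (Nat.succ_pos i) (by omega)
    exact Complex.arg_nonneg_iff.2 (le_of_lt (kap_up hp hpr hz))

theorem al_nonneg {p r : ℝ} (hp : 0 < p) (hpr : p < r) {n : ℕ} {z : ℕ → ℂ}
    (hup : ∀ k, 0 < k → k < n → z k ∈ UP) {k : ℕ} (hk : k < n) : 0 ≤ al p r z k := by
  have := al_mono hp hpr hup (Nat.zero_le k) hk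
  simpa [al] using this

theorem al_last {p r : ℝ} (hp : 0 < p) (hpr : p < r) {n : ℕ} {z w : ℕ → ℂ} (h2 : 2 ≤ n)
    (h0 : z 0 = -p) (hn : z n = p) (hup : ∀ k, 0 < k → k < n → z k ∈ UP) (hw0 : w 0 = 1)
    (hw : ∀ k, k < n → w (k + 1) = -Pf p r (z (k + 1)) * w k / Pf p r (-z k))
    (hwn : w n = -Complex.exp ((π * (p / r) : ℝ) * I))
    (hang : ∑ j ∈ Finset.Ico 1 n, arg (kap p r (z j)) ≤ π) :
    al p r z (n - 1) = π * (p / r) := by
  have hx0 : 0 < p / r := div_pos hp (hp.trans hpr)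
  have hx1 : p / r < 1 := (div_lt_one (hp.trans hpr)).2 hpr
  have hpos : 0 < 1 / (2 * p ^ 2 * (r - p)) := by
    have := sub_pos.2 hpr
    positivity
  have e1 := om_last hp hpr h2 h0 hn hw0 hw hwn
  have e2 := om_polar hp hpr h0 hw0 hup hw (n - 1) (by omega)
  have e3 : ‖om p r z w (n - 1)‖ = 1 / (2 * p ^ 2 * (r - p)) := by
    rw [e1, norm_mul, Complex.norm_exp_ofReal_mul_I, om_zero hp hpr h0 hw0, Complex.norm_real,
      Real.norm_of_nonneg hpos.le, one_mul]
  rw [e3, e1, om_zero hp hpr h0 hw0] at e2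
  have e4 : Complex.exp ((π * (p / r) : ℝ) * I) = Complex.exp ((al p r z (n - 1) : ℝ) * I) := by
    have hne : ((1 / (2 * p ^ 2 * (r - p)) : ℝ) : ℂ) ≠ 0 := by exact_mod_cast hpos.ne'
    apply mul_left_cancel₀ hne
    rw [← e2]; ring
  have e5 := congrArg Complex.re e4
  rw [Complex.exp_ofReal_mul_I_re, Complex.exp_ofReal_mul_I_re] at e5
  have hle : al p r z (n - 1) ≤ π := by
    refine le_trans (le_of_eq ?_) hang
    rw [Finset.sum_Ico_eq_sum_range, al]
    refine Finset.sum_congr rfl fun i _ => ?_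
    rw [add_comm]
  have hge := al_nonneg hp hpr hup (show n - 1 < n by omega)
  refine (Real.injOn_cos ⟨by positivity, ?_⟩ ⟨hge, hle⟩ e5).symm
  have : π * (p / r) ≤ π * 1 := mul_le_mul_of_nonneg_left hx1.le Real.pi_pos.le
  linarith

/-- the rotated terms -/
def T (p r : ℝ) (z w : ℕ → ℂ) (k : ℕ) : ℂ :=
  (z k + z (k + 1)) * om p r z w k * Complex.exp (-(π * (p / r) / 2 : ℝ) * I)

theorem exp_half (x : ℝ) : Complex.exp ((π * x : ℝ) * I) * Complex.exp (-(π * x / 2 : ℝ) * I) =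
    (starRingEnd ℂ) (Complex.exp (-(π * x / 2 : ℝ) * I)) := by
  rw [← Complex.exp_add, ← Complex.exp_conj]
  congr 1
  simp only [map_mul, map_neg, Complex.conj_ofReal, Complex.conj_I]
  push_cast
  ring

theorem T_refl {p r : ℝ} (hp : 0 < p) (hpr : p < r) {n : ℕ} {z w : ℕ → ℂ} (h2 : 2 ≤ n)
    (h0 : z 0 = -p) (hn : z n = p) (hup : ∀ k, 0 < k → k < n → z k ∈ UP)
    (hsym : ∀ k, k ≤ n → z (n - k) = -(starRingEnd ℂ) (z k)) (hw0 : w 0 = 1)
    (hw : ∀ k, k < n → w (k + 1) = -Pf p r (z (k + 1)) * w k / Pf p r (-z k))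
    (hwn : w n = -Complex.exp ((π * (p / r) : ℝ) * I)) (k : ℕ) (hk : k < n) :
    T p r z w (n - 1 - k) = -(starRingEnd ℂ) (T p r z w k) := by
  have e1 := om_refl hp hpr h2 h0 hn hup hsym hw0 hw hwn k hk
  have e2 : z (n - 1 - k) = -(starRingEnd ℂ) (z (k + 1)) := by
    have := hsym (k + 1) hk
    rwa [show n - (k + 1) = n - 1 - k by omega] at this
  have e3 : z (n - 1 - k + 1) = -(starRingEnd ℂ) (z k) := by
    have := hsym k hk.le
    rwa [show n - k = n - 1 - k + 1 by omega] at this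
  have e4 := exp_half (p / r)
  rw [T, T, e1, e2, e3, map_mul, map_mul, map_add, ← e4]
  ring

theorem im_T {p r : ℝ} (hp : 0 < p) (hpr : p < r) {n : ℕ} {z w : ℕ → ℂ}
    (h0 : z 0 = -p) (hw0 : w 0 = 1) (hup : ∀ k, 0 < k → k < n → z k ∈ UP)
    (hw : ∀ k, k < n → w (k + 1) = -Pf p r (z (k + 1)) * w k / Pf p r (-z k))
    (k : ℕ) (hk : k < n) :
    (T p r z w k).im = ‖om p r z w k‖ * ((z k + z (k + 1)).im *
      Real.cos (π * (p / r) / 2 - al p r z k) - (z k + z (k + 1)).re *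
      Real.sin (π * (p / r) / 2 - al p r z k)) := by
  have e1 := om_polar hp hpr h0 hw0 hup hw k hk
  have e2 : T p r z w k = (‖om p r z w k‖ : ℂ) * ((z k + z (k + 1)) *
      Complex.exp ((-(π * (p / r) / 2 - al p r z k) : ℝ) * I)) := by
    have e3 : Complex.exp ((-(π * (p / r) / 2 - al p r z k) : ℝ) * I) =
        Complex.exp ((al p r z k : ℂ) * I) * Complex.exp (-(π * (p / r) / 2 : ℝ) * I) := by
      rw [← Complex.exp_add]
      congr 1
      push_cast
      ring
    rw [T, e3]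
    generalize hA : Complex.exp ((al p r z k : ℂ) * I) = A at *
    generalize hB : Complex.exp (-(π * (p / r) / 2 : ℝ) * I) = B at *
    generalize hN : ((‖om p r z w k‖ : ℝ) : ℂ) = N at *
    rw [e1]
    ring
  rw [e2, Complex.im_ofReal_mul, Complex.mul_im, Complex.exp_ofReal_mul_I_re,
    Complex.exp_ofReal_mul_I_im, Real.cos_neg, Real.sin_neg]
  ring

theorem im_T_low {p r : ℝ} (hp : 0 < p) (hpr : p < r) {n : ℕ} {z w : ℕ → ℂ} (h2 : 2 ≤ n)
    (h0 : z 0 = -p) (hn : z n = p) (hup : ∀ k, 0 < k → k < n → z k ∈ UP)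
    (hsym : ∀ k, k ≤ n → z (n - k) = -(starRingEnd ℂ) (z k))
    (hre : ∀ k, 0 < k → 2 * k ≤ n → (z k).re ≤ 0) (hw0 : w 0 = 1)
    (hw : ∀ k, k < n → w (k + 1) = -Pf p r (z (k + 1)) * w k / Pf p r (-z k))
    (hwn : w n = -Complex.exp ((π * (p / r) : ℝ) * I))
    (hang : ∑ j ∈ Finset.Ico 1 n, arg (kap p r (z j)) ≤ π)
    (k : ℕ) (hk : 2 * (k + 1) ≤ n + 1) : 0 ≤ (T p r z w k).im := by
  have hx0 : 0 < p / r := div_pos hp (hp.trans hpr)
  have hx1 : p / r < 1 := (div_lt_one (hp.trans hpr)).2 hpr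
  have hkn : k < n := by omega
  have hal := al_last hp hpr h2 h0 hn hup hw0 hw hwn hang
  have hsum := al_refl hp hpr hup hsym k hkn
  have hle := al_mono hp hpr hup (show k ≤ n - 1 - k by omega) (show n - 1 - k < n by omega)
  have hge := al_nonneg hp hpr hup hkn
  have hpi := Real.pi_pos
  have hxpi : π * (p / r) < π := by nlinarith
  rw [im_T hp hpr h0 hw0 hup hw k hkn]
  refine mul_nonneg (norm_nonneg _) ?_
  by_cases hmid : 2 * (k + 1) = n + 1
  · have e1 : n - 1 - k = k := by omega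
    rw [e1] at hsum
    have e2 : π * (p / r) / 2 - al p r z k = 0 := by linarith
    have e3 : z (k + 1) = -(starRingEnd ℂ) (z k) := by
      have := hsym k hkn.le
      rwa [show n - k = k + 1 by omega] at this
    have hz := hup k (by omega) hkn
    have hz' : 0 < (z k).im := hz
    rw [e2, Real.cos_zero, Real.sin_zero, e3]
    simp only [Complex.add_im, Complex.neg_im, Complex.conj_im, neg_neg, mul_one, mul_zero,
      sub_zero]
    linarith
  · have hk' : 2 * (k + 1) ≤ n := by omega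
    have hr1 : (z (k + 1)).re ≤ 0 := hre (k + 1) (Nat.succ_pos k) hk'
    have hi1 : 0 < (z (k + 1)).im := hup (k + 1) (Nat.succ_pos k) (by omega)
    have hr0 : (z k).re ≤ 0 ∧ 0 ≤ (z k).im := by
      rcases Nat.eq_zero_or_pos k with rfl | hk0
      · rw [h0]
        simp [hp.le]
      · exact ⟨hre k hk0 (by omega), le_of_lt (hup k hk0 hkn)⟩
    have hc : 0 ≤ Real.cos (π * (p / r) / 2 - al p r z k) := by
      apply Real.cos_nonneg_of_neg_pi_div_two_le_of_le <;> linarith
    have hs : 0 ≤ Real.sin (π * (p / r) / 2 - al p r z k) := by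
      apply Real.sin_nonneg_of_nonneg_of_le_pi <;> linarith
    rw [Complex.add_im, Complex.add_re]
    have a1 : 0 ≤ ((z k).im + (z (k + 1)).im) := by linarith [hr0.2]
    have a2 : (z k).re + (z (k + 1)).re ≤ 0 := by linarith [hr0.1]
    nlinarith [mul_nonneg a1 hc, mul_nonneg (neg_nonneg.2 a2) hs]

theorem im_T_nonneg {p r : ℝ} (hp : 0 < p) (hpr : p < r) {n : ℕ} {z w : ℕ → ℂ} (h2 : 2 ≤ n)
    (h0 : z 0 = -p) (hn : z n = p) (hup : ∀ k, 0 < k → k < n → z k ∈ UP)
    (hsym : ∀ k, k ≤ n → z (n - k) = -(starRingEnd ℂ) (z k))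
    (hre : ∀ k, 0 < k → 2 * k ≤ n → (z k).re ≤ 0) (hw0 : w 0 = 1)
    (hw : ∀ k, k < n → w (k + 1) = -Pf p r (z (k + 1)) * w k / Pf p r (-z k))
    (hwn : w n = -Complex.exp ((π * (p / r) : ℝ) * I))
    (hang : ∑ j ∈ Finset.Ico 1 n, arg (kap p r (z j)) ≤ π)
    (k : ℕ) (hk : k < n) : 0 ≤ (T p r z w k).im := by
  by_cases hlow : 2 * (k + 1) ≤ n + 1
  · exact im_T_low hp hpr h2 h0 hn hup hsym hre hw0 hw hwn hang k hlow
  · have e := T_refl hp hpr h2 h0 hn hup hsym hw0 hw hwn k hk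
    have h := im_T_low hp hpr h2 h0 hn hup hsym hre hw0 hw hwn hang (n - 1 - k) (by omega)
    rw [e] at h
    simpa using h

theorem conj_sub_exp (t : ℝ) : (starRingEnd ℂ) (Complex.exp (-(t : ℝ) * I)) -
    Complex.exp (-(t : ℝ) * I) = ((2 * Real.sin t : ℝ) : ℂ) * I := by
  have e5 : Complex.exp (-(t : ℝ) * I) = Complex.exp ((-t : ℝ) * I) := by push_cast; rfl
  rw [e5]
  apply Complex.ext
  · rw [Complex.sub_re, Complex.conj_re, Complex.re_ofReal_mul, Complex.I_re]
    ring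
  · rw [Complex.sub_im, Complex.conj_im, Complex.exp_ofReal_mul_I_im, Real.sin_neg,
      Complex.im_ofReal_mul, Complex.I_im]
    ring

theorem sum_T {p r : ℝ} {n : ℕ} {z w : ℕ → ℂ}
    (hA : ∑ k ∈ Finset.range n, (z k + z (k + 1)) * (w k / Pf p r (-z k)) =
      (1 - Complex.exp ((π * (p / r) : ℝ) * I)) / (p * (p + r))) :
    ∑ k ∈ Finset.range n, (T p r z w k).im =
      2 * Real.sin (π * (p / r) / 2) / (p * (p + r)) := by
  have e2 : ∑ k ∈ Finset.range n, T p r z w k =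
      (-∑ k ∈ Finset.range n, (z k + z (k + 1)) * (w k / Pf p r (-z k))) *
        Complex.exp (-(π * (p / r) / 2 : ℝ) * I) := by
    rw [← Finset.sum_neg_distrib, Finset.sum_mul]
    refine Finset.sum_congr rfl fun k _ => ?_
    rw [T, om]
    ring
  have e3 := exp_half (p / r)
  have e4 := conj_sub_exp (π * (p / r) / 2)
  rw [← e3] at e4
  rw [hA] at e2
  have e1 : ∑ k ∈ Finset.range n, T p r z w k =
      (((2 * Real.sin (π * (p / r) / 2)) / (p * (p + r)) : ℝ) : ℂ) * I := by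
    rw [e2]
    generalize Complex.exp ((π * (p / r) : ℝ) * I) = E1 at *
    generalize Complex.exp (-(π * (p / r) / 2 : ℝ) * I) = E2 at *
    rw [Complex.ofReal_div, Complex.ofReal_mul (p), Complex.ofReal_add]
    rw [show -((1 - E1) / ((p : ℂ) * (p + r))) * E2 =
        (E1 * E2 - E2) / ((p : ℂ) * (p + r)) by ring, e4]
    ring
  have e6 := congrArg Complex.im e1
  rw [Complex.im_sum, Complex.im_ofReal_mul, Complex.I_im, mul_one] at e6
  exact e6

end XM

section XM
variable {p r : ℝ}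

/-- The final computation: the chain and (A) imply a bound for `z 1`. -/
theorem chain_ineq (hp : 0 < p) (hpr : p < r) {n : ℕ} {z : ℕ → ℂ} {w : ℕ → ℂ} (h2 : 2 ≤ n)
    (h0 : z 0 = -p) (hn : z n = p) (hup : ∀ k, 0 < k → k < n → z k ∈ UP)
    (hsym : ∀ k, k ≤ n → z (n - k) = -(starRingEnd ℂ) (z k))
    (hre : ∀ k, 0 < k → 2 * k ≤ n → (z k).re ≤ 0)
    (hw0 : w 0 = 1) (hw : ∀ k, k < n → w (k + 1) = -Pf p r (z (k + 1)) * w k / Pf p r (-z k))
    (hwn : w n = -Complex.exp ((π * (p / r) : ℝ) * I))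
    (hA : ∑ k ∈ Finset.range n, (z k + z (k + 1)) * (w k / Pf p r (-z k)) =
      (1 - Complex.exp ((π * (p / r) : ℝ) * I)) / (p * (p + r)))
    (hang : ∑ j ∈ Finset.Ico 1 n, arg (kap p r (z j)) ≤ π) :
    p * Real.sin (π * (p / r) / 2) + (z 1 * Complex.exp (-(π * (p / r) / 2 : ℝ) * I)).im ≤
      2 * p * (r - p) / (p + r) * Real.sin (π * (p / r) / 2) := by
  have hs := XM.sum_T hA
  have hnn := XM.im_T_nonneg hp hpr h2 h0 hn hup hsym hre hw0 hw hwn hang
  have hr := hp.trans hpr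
  have hrp := sub_pos.2 hpr
  have hsub : (XM.T p r z w 0).im + (XM.T p r z w (n - 1)).im ≤
      ∑ k ∈ Finset.range n, (XM.T p r z w k).im := by
    rw [← Finset.sum_pair (f := fun k => (XM.T p r z w k).im) (show 0 ≠ n - 1 by omega)]
    refine Finset.sum_le_sum_of_subset_of_nonneg ?_ ?_
    · intro k hk
      simp only [Finset.mem_insert, Finset.mem_singleton] at hk
      exact Finset.mem_range.2 (by omega)
    · intro k hk _
      exact hnn k (Finset.mem_range.1 hk)
  have hrefl : (XM.T p r z w (n - 1)).im = (XM.T p r z w 0).im := by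
    have e := XM.T_refl hp hpr h2 h0 hn hup hsym hw0 hw hwn 0 (by omega)
    rw [Nat.sub_zero] at e
    rw [e]
    simp
  have hT0 : (XM.T p r z w 0).im = 1 / (2 * p ^ 2 * (r - p)) *
      (p * Real.sin (π * (p / r) / 2) +
        (z 1 * Complex.exp (-(π * (p / r) / 2 : ℝ) * I)).im) := by
    have e5 : Complex.exp (-(π * (p / r) / 2 : ℝ) * I) =
        Complex.exp ((-(π * (p / r) / 2) : ℝ) * I) := by push_cast; rfl
    have e6 : XM.T p r z w 0 = ((1 / (2 * p ^ 2 * (r - p)) : ℝ) : ℂ) *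
        (-(p : ℝ) * Complex.exp (-(π * (p / r) / 2 : ℝ) * I) +
          z 1 * Complex.exp (-(π * (p / r) / 2 : ℝ) * I)) := by
      rw [XM.T, XM.om_zero hp hpr h0 hw0, h0]
      ring
    rw [e6, Complex.im_ofReal_mul, Complex.add_im]
    congr 2
    rw [e5, ← Complex.ofReal_neg, Complex.im_ofReal_mul, Complex.exp_ofReal_mul_I_im,
      Real.sin_neg]
    ring
  rw [hs, hrefl] at hsub
  have h1 : (XM.T p r z w 0).im ≤ Real.sin (π * (p / r) / 2) / (p * (p + r)) := by
    have : 2 * Real.sin (π * (p / r) / 2) / (p * (p + r)) =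
        2 * (Real.sin (π * (p / r) / 2) / (p * (p + r))) := by ring
    linarith
  rw [hT0] at h1
  have hc : 0 < 2 * p ^ 2 * (r - p) := by positivity
  have h3 := mul_le_mul_of_nonneg_left h1 hc.le
  have e7 : 2 * p ^ 2 * (r - p) * (1 / (2 * p ^ 2 * (r - p)) *
      (p * Real.sin (π * (p / r) / 2) +
        (z 1 * Complex.exp (-(π * (p / r) / 2 : ℝ) * I)).im)) =
      p * Real.sin (π * (p / r) / 2) +
        (z 1 * Complex.exp (-(π * (p / r) / 2 : ℝ) * I)).im := by
    field_simp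
  have e8 : 2 * p ^ 2 * (r - p) * (Real.sin (π * (p / r) / 2) / (p * (p + r))) =
      2 * p * (r - p) / (p + r) * Real.sin (π * (p / r) / 2) := by
    field_simp
  rw [e7, e8] at h3
  exact h3
end XM

end Pool.Agent.MP_ae5b4e_an_ALG
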