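import Mathlib
import Pool.Agent.Lib.MP_ae5b4e_an_LAT.NDPropag

/-!
# MP_ae5b4e_an, project ALG, module RB: division by a power of the first variable
-/

set_option autoImplicit false

noncomputable section

namespace Pool.Agent.MP_ae5b4e_an_ALG

open Filter Topology Set Metric Complex Polynomial
open scoped Real

namespace Div

/-- the value on the axis -/
theorem axis {f g : ℂ × ℂ → ℂ} (hg : AnalyticAt ℂ g (0, 0)) {l : ℕ}
    (hfg : ∀ᶠ p in 𝓝 ((0, 0) : ℂ × ℂ), f p = p.1 ^ l * g p)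
    (h : ∀ᶠ ξ in 𝓝[≠] (0:ℂ), (fun w : ℂ => f (w, ξ)) =O[𝓝[≠] (0:ℂ)] (fun w : ℂ => w ^ (l + 1))) :
    ∀ᶠ ξ in 𝓝 (0:ℂ), g (0, ξ) = 0 := by
  obtain ⟨ε, hε, hb⟩ := Metric.eventually_nhds_iff_ball.1 (hg.eventually_analyticAt.and hfg)
  have h1 : ∀ᶠ ξ in 𝓝[≠] (0:ℂ), g (0, ξ) = 0 := by
    have hball : ∀ᶠ ξ in 𝓝[≠] (0:ℂ), ξ ∈ ball (0:ℂ) ε :=
      nhdsWithin_le_nhds (ball_mem_nhds _ hε)
    filter_upwards [h, hball] with ξ h2 h3
    have hmem : ((0:ℂ), ξ) ∈ ball ((0, 0) : ℂ × ℂ) ε := by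
      rw [mem_ball, Prod.dist_eq, max_lt_iff]
      exact ⟨by simpa using hε, h3⟩
    have hcont : ContinuousAt (fun w : ℂ => g (w, ξ)) 0 := by
      have h4 : ContinuousAt g (0, ξ) := (hb _ hmem).1.continuousAt
      exact ContinuousAt.comp (f := fun w : ℂ => (w, ξ)) (x := (0:ℂ)) h4 (by fun_prop)
    have hlim : Tendsto (fun w : ℂ => g (w, ξ)) (𝓝[≠] (0:ℂ)) (𝓝 (g (0, ξ))) :=
      hcont.tendsto.mono_left nhdsWithin_le_nhds
    have hO : (fun w : ℂ => g (w, ξ)) =O[𝓝[≠] (0:ℂ)] (fun w : ℂ => w) := by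
      obtain ⟨C, hC⟩ := h2.bound
      refine Asymptotics.IsBigO.of_bound C ?_
      have hw : ∀ᶠ w in 𝓝[≠] (0:ℂ), w ∈ ball (0:ℂ) ε := nhdsWithin_le_nhds (ball_mem_nhds _ hε)
      filter_upwards [hC, hw, self_mem_nhdsWithin] with w h5 h6 h7
      have hw0 : w ≠ 0 := h7
      have hmem' : (w, ξ) ∈ ball ((0, 0) : ℂ × ℂ) ε := by
        rw [mem_ball, Prod.dist_eq, max_lt_iff]
        exact ⟨h6, h3⟩
      have h8 := (hb _ hmem').2
      simp only at h8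
      rw [h8, norm_mul, norm_pow, norm_pow, pow_succ, mul_comm (‖w‖ ^ l) ‖w‖, ← mul_assoc,
        mul_comm (‖w‖ ^ l)] at h5
      exact le_of_mul_le_mul_right h5 (pow_pos (norm_pos_iff.2 hw0) l)
    have hzero : Tendsto (fun w : ℂ => g (w, ξ)) (𝓝[≠] (0:ℂ)) (𝓝 0) :=
      hO.trans_tendsto (tendsto_id.mono_left nhdsWithin_le_nhds)
    exact tendsto_nhds_unique hlim hzero
  have h0 : g (0, 0) = 0 := by
    have hcont : ContinuousAt (fun ξ : ℂ => g (0, ξ)) 0 :=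
      ContinuousAt.comp (f := fun ξ : ℂ => ((0:ℂ), ξ)) (x := (0:ℂ)) hg.continuousAt (by fun_prop)
    have hlim : Tendsto (fun ξ : ℂ => g (0, ξ)) (𝓝[≠] (0:ℂ)) (𝓝 (g (0, 0))) :=
      hcont.tendsto.mono_left nhdsWithin_le_nhds
    have hzero : Tendsto (fun ξ : ℂ => g (0, ξ)) (𝓝[≠] (0:ℂ)) (𝓝 0) :=
      (tendsto_congr' h1).2 tendsto_const_nhds
    exact tendsto_nhds_unique hlim hzero
  rw [eventually_nhdsWithin_iff] at h1
  filter_upwards [h1] with ξ h2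
  by_cases hξ : ξ = 0
  · rw [hξ, h0]
  · exact h2 hξ

end Div

section RB

/-- division by a power of the first variable -/
theorem div_pow_fst {f : ℂ × ℂ → ℂ} (hf : AnalyticAt ℂ f (0, 0)) {l : ℕ}
    (h : ∀ᶠ ξ in 𝓝[≠] (0:ℂ), (fun w : ℂ => f (w, ξ)) =O[𝓝[≠] (0:ℂ)] (fun w : ℂ => w ^ l)) :
    ∃ g : ℂ × ℂ → ℂ, AnalyticAt ℂ g (0, 0) ∧
      ∀ᶠ p in 𝓝 ((0, 0) : ℂ × ℂ), f p = p.1 ^ l * g p := by
  induction l with
  | zero =>
    refine ⟨f, hf, Eventually.of_forall fun p => ?_⟩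
    rw [pow_zero, one_mul]
  | succ l ih =>
    have hle : (fun w : ℂ => w ^ (l + 1)) =O[𝓝[≠] (0:ℂ)] (fun w : ℂ => w ^ l) := by
      refine Asymptotics.IsBigO.of_bound 1 ?_
      have hw : ∀ᶠ w in 𝓝[≠] (0:ℂ), w ∈ ball (0:ℂ) 1 :=
        nhdsWithin_le_nhds (ball_mem_nhds _ one_pos)
      filter_upwards [hw] with w h5
      rw [mem_ball_zero_iff] at h5
      rw [pow_succ, norm_mul, one_mul]
      exact mul_le_of_le_one_right (norm_nonneg _) h5.le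
    obtain ⟨g, hg, hfg⟩ := ih (h.mono fun ξ h1 => h1.trans hle)
    have hax := Div.axis hg hfg h
    have hS : AnalyticAt ℂ (fun p : ℂ × ℂ => g (p.2, p.1)) (0, 0) := by
      have h1 : AnalyticAt ℂ (fun p : ℂ × ℂ => (p.2, p.1)) ((0, 0) : ℂ × ℂ) :=
        analyticAt_snd.prod analyticAt_fst
      exact AnalyticAt.fun_comp (f := fun p : ℂ × ℂ => (p.2, p.1)) (g := g) hg h1
    obtain ⟨G, hG, hGS, -⟩ := Pool.Agent.MP_ae5b4e_an_ND.exists_div_y hS hax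
    have hswap : Tendsto (fun p : ℂ × ℂ => (p.2, p.1)) (𝓝 ((0, 0) : ℂ × ℂ)) (𝓝 (0, 0)) := by
      have h1 : Continuous (fun p : ℂ × ℂ => (p.2, p.1)) := by fun_prop
      exact h1.tendsto' _ _ rfl
    refine ⟨fun p => G (p.2, p.1), ?_, ?_⟩
    · have h1 : AnalyticAt ℂ (fun p : ℂ × ℂ => (p.2, p.1)) ((0, 0) : ℂ × ℂ) :=
        analyticAt_snd.prod analyticAt_fst
      exact AnalyticAt.fun_comp (f := fun p : ℂ × ℂ => (p.2, p.1)) (g := G) hG h1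
    · filter_upwards [hfg, hswap.eventually hGS] with p h1 h2
      simp only [Prod.mk.eta] at h2
      rw [h1, h2, pow_succ]
      ring
end RB

end Pool.Agent.MP_ae5b4e_an_ALG
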