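import Mathlib
import Pool.Agent.Lib.MP_ae5b4e_an_ALG.Defs
import Pool.Agent.Lib.MP_ae5b4e_an_ALG.HfA


/-!
# MP_ae5b4e_an, algebraic tables: symmetries of the partial extensions (module VJ)
-/

set_option autoImplicit false

noncomputable section

namespace Pool.Agent.MP_ae5b4e_an_ALG

open Filter Topology Set Metric Complex
open scoped Real

namespace SymAux

/-- two holomorphic functions on a convex open set which agree far away are equal -/
theorem eqOn_of_far {U : Set ℂ} (hU : Convex ℝ U) (ho : IsOpen U) {f g : ℂ → ℂ}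
    (hf : DifferentiableOn ℂ f U) (hg : DifferentiableOn ℂ g U) {M : ℝ}
    (hun : ∃ z ∈ U, M < ‖z‖) (hfar : ∀ z ∈ U, M < ‖z‖ → f z = g z) : EqOn f g U := by
  obtain ⟨z0, hz0, hM⟩ := hun
  have h1 : AnalyticOnNhd ℂ f U := hf.analyticOnNhd ho
  have h2 : AnalyticOnNhd ℂ g U := hg.analyticOnNhd ho
  refine h1.eqOn_of_preconnected_of_eventuallyEq h2 hU.isPreconnected hz0 ?_
  have h3 : {z : ℂ | z ∈ U ∧ M < ‖z‖} ∈ 𝓝 z0 :=
    (ho.inter (isOpen_lt continuous_const continuous_norm)).mem_nhds ⟨hz0, hM⟩
  filter_upwards [h3] with z hz using hfar z hz.1 hz.2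

theorem open_im (h : ℝ) : IsOpen {t : ℂ | h < t.im} :=
  isOpen_lt continuous_const Complex.continuous_im

theorem open_re (h : ℝ) : IsOpen {t : ℂ | h < t.re} :=
  isOpen_lt continuous_const Complex.continuous_re

theorem open_re' (h : ℝ) : IsOpen {t : ℂ | t.re < h} :=
  isOpen_lt Complex.continuous_re continuous_const

theorem conv_im (h : ℝ) : Convex ℝ {t : ℂ | h < t.im} := convex_halfSpace_im_gt h

theorem conv_re (h : ℝ) : Convex ℝ {t : ℂ | h < t.re} := convex_halfSpace_re_gt h

theorem conv_re' (h : ℝ) : Convex ℝ {t : ℂ | t.re < h} := convex_halfSpace_re_lt h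

theorem norm_gt_of_im {M x y : ℝ} (h : M < y) : M < ‖(⟨x, y⟩ : ℂ)‖ :=
  lt_of_lt_of_le h (le_trans (le_abs_self y) (Complex.abs_im_le_norm (⟨x, y⟩ : ℂ)))

theorem norm_gt_re {R : ℝ} {t : ℂ} (h : R < t.re) : R < ‖t‖ :=
  lt_of_lt_of_le h (le_trans (le_abs_self _) (Complex.abs_re_le_norm t))

theorem norm_gt_re' {R : ℝ} {t : ℂ} (h : t.re < -R) : R < ‖t‖ := by
  have h1 : R < |t.re| := by
    have := neg_abs_le t.re
    linarith
  exact lt_of_lt_of_le h1 (Complex.abs_re_le_norm t)

theorem norm_gt_im {R : ℝ} {t : ℂ} (h : R < t.im) : R < ‖t‖ :=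
  lt_of_lt_of_le h (le_trans (le_abs_self _) (Complex.abs_im_le_norm t))

end SymAux

open SymAux

section VJ
variable {p r c D ε R h : ℝ} {V W : ℂ → ℂ}

theorem PExt.far_eq (hV : SHM p r c D ε R V) (hh : 0 ≤ h) (hW : PExt p r V h W) :
    ∀ t : ℂ, h < t.im → 2 * R < ‖t‖ → W t = V t := by
  obtain ⟨M, hM⟩ := hW.far
  have hVd : ∀ U : Set ℂ, (∀ t ∈ U, R < ‖t‖) → DifferentiableOn ℂ V U := fun U hU t ht =>
    (hV.diff t (hU t ht)).differentiableWithinAt
  -- quadrant on the right
  have hA : EqOn W V ({t : ℂ | R < t.re} ∩ {t : ℂ | h < t.im}) := by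
    refine eqOn_of_far ((conv_re R).inter (conv_im h)) ((open_re R).inter (open_im h))
      (hW.diff.mono inter_subset_right) (hVd _ fun t ht => norm_gt_re ht.1) (M := M) ?_
      (fun z hz hz' => hM z hz.2 hz')
    refine ⟨⟨R + 1, max h M + 1⟩, ⟨?_, ?_⟩, ?_⟩
    · show R < R + 1
      linarith
    · show h < max h M + 1
      have := le_max_left h M
      linarith
    · refine norm_gt_of_im ?_
      have := le_max_right h M
      linarith
  have hC : EqOn W V ({t : ℂ | t.re < -R} ∩ {t : ℂ | h < t.im}) := by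
    refine eqOn_of_far ((conv_re' (-R)).inter (conv_im h)) ((open_re' (-R)).inter (open_im h))
      (hW.diff.mono inter_subset_right) (hVd _ fun t ht => norm_gt_re' ht.1) (M := M) ?_
      (fun z hz hz' => hM z hz.2 hz')
    refine ⟨⟨-R - 1, max h M + 1⟩, ⟨?_, ?_⟩, ?_⟩
    · show -R - 1 < -R
      linarith
    · show h < max h M + 1
      have := le_max_left h M
      linarith
    · refine norm_gt_of_im ?_
      have := le_max_right h M
      linarith
  have hB : EqOn W V {t : ℂ | max h R < t.im} := by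
    have hs : {t : ℂ | max h R < t.im} ⊆ {t : ℂ | h < t.im} := fun t ht =>
      lt_of_le_of_lt (le_max_left h R) ht
    refine eqOn_of_far (conv_im _) (open_im _)
      (hW.diff.mono hs)
      (hVd _ fun t ht => norm_gt_im (lt_of_le_of_lt (le_max_right h R) ht)) (M := M) ?_
      (fun z hz hz' => hM z (hs hz) hz')
    refine ⟨⟨0, max (max h R) M + 1⟩, ?_, ?_⟩
    · show max h R < max (max h R) M + 1
      have := le_max_left (max h R) M
      linarith
    · refine norm_gt_of_im ?_
      have := le_max_right (max h R) M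
      linarith
  intro t ht hR
  by_cases h1 : R < t.re
  · exact hA ⟨h1, ht⟩
  by_cases h2 : t.re < -R
  · exact hC ⟨h2, ht⟩
  push Not at h1 h2
  have h3 : |t.re| ≤ R := abs_le.2 ⟨h2, h1⟩
  have h4 : ‖t‖ ≤ |t.re| + |t.im| := Complex.norm_le_abs_re_add_abs_im t
  have h5 : |t.im| = t.im := abs_of_nonneg (le_trans hh ht.le)
  have h6 : R < t.im := by linarith
  exact hB (max_lt ht h6)

theorem PExt.unique {h' : ℝ} {W' : ℂ → ℂ} (hV : SHM p r c D ε R V) (hW : PExt p r V h W)
    (hW' : PExt p r V h' W') {t : ℂ} (ht : h < t.im) (ht' : h' < t.im) : W t = W' t := by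
  obtain ⟨M, hM⟩ := hW.far
  obtain ⟨M', hM'⟩ := hW'.far
  have hs : {t : ℂ | max h h' < t.im} ⊆ {t : ℂ | h < t.im} := fun t ht =>
    lt_of_le_of_lt (le_max_left h h') ht
  have hs' : {t : ℂ | max h h' < t.im} ⊆ {t : ℂ | h' < t.im} := fun t ht =>
    lt_of_le_of_lt (le_max_right h h') ht
  have h1 : EqOn W W' {t : ℂ | max h h' < t.im} := by
    refine eqOn_of_far (conv_im _) (open_im _) (hW.diff.mono hs) (hW'.diff.mono hs')
      (M := max M M') ?_ (fun z hz hz' => ?_)
    · refine ⟨⟨0, max (max h h') (max M M') + 1⟩, ?_, ?_⟩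
      · show max h h' < max (max h h') (max M M') + 1
        have := le_max_left (max h h') (max M M')
        linarith
      · refine norm_gt_of_im ?_
        have := le_max_right (max h h') (max M M')
        linarith
    · rw [hM z (hs hz) (lt_of_le_of_lt (le_max_left _ _) hz'),
        hM' z (hs' hz) (lt_of_le_of_lt (le_max_right _ _) hz')]
  exact h1 (max_lt ht ht')

/-- the symmetries of a partial extension -/
theorem PExt.symm (hp : 0 < p) (hr : 0 < r) (hV : SHM p r c D ε R V) (hW : PExt p r V h W)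
    (hh : 0 ≤ h) :
    (∀ t : ℂ, h < t.im → W (-(starRingEnd ℂ) t) = -(starRingEnd ℂ) (W t) - 2 * c) ∧
    (∀ t : ℂ, h < t.im → Hf p r (W (t + ε)) = Hf p r (-W t - 2 * c)) := by
  obtain ⟨M, hM⟩ := hW.far
  have hWat : ∀ t : ℂ, h < t.im → DifferentiableAt ℂ W t := fun t ht =>
    hW.diff.differentiableAt ((open_im h).mem_nhds ht)
  have hc2 : (starRingEnd ℂ) (2 * (c : ℂ)) = 2 * (c : ℂ) := by
    rw [map_mul, Complex.conj_ofReal, Complex.conj_ofNat]
  have hnc : ∀ t : ℂ, ‖-(starRingEnd ℂ) t‖ = ‖t‖ := fun t => by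
    rw [norm_neg, Complex.norm_conj]
  have hic : ∀ t : ℂ, (-(starRingEnd ℂ) t).im = t.im := fun t => by
    rw [Complex.neg_im, Complex.conj_im, neg_neg]
  constructor
  · have key : EqOn (fun t : ℂ => -(starRingEnd ℂ) (W (-(starRingEnd ℂ) t)) - 2 * c) W
        {t : ℂ | h < t.im} := by
      refine eqOn_of_far (conv_im _) (open_im _) (fun t ht => ?_) hW.diff (M := max R M) ?_
        (fun t ht ht' => ?_)
      · have h1 : DifferentiableAt ℂ (fun s : ℂ => W (-s)) ((starRingEnd ℂ) t) := by
          have h2 : DifferentiableAt ℂ W (-(starRingEnd ℂ) t) := hWat _ (by rw [hic]; exact ht)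
          exact DifferentiableAt.comp ((starRingEnd ℂ) t) (g := W) (f := fun s : ℂ => -s) h2
            differentiableAt_id.neg
        have h3 : DifferentiableAt ℂ ((starRingEnd ℂ) ∘ (fun s : ℂ => W (-s)) ∘ (starRingEnd ℂ)) t :=
          differentiableAt_conj_conj_iff.2 h1
        have h4 : DifferentiableAt ℂ
            (fun t : ℂ => -(starRingEnd ℂ) (W (-(starRingEnd ℂ) t)) - 2 * c) t :=
          (DifferentiableAt.neg h3).sub_const (2 * (c : ℂ))
        exact h4.differentiableWithinAt
      · refine ⟨⟨0, max h (max R M) + 1⟩, ?_, ?_⟩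
        · show h < max h (max R M) + 1
          have := le_max_left h (max R M)
          linarith
        · refine norm_gt_of_im ?_
          have := le_max_right h (max R M)
          linarith
      · have hR : R < ‖t‖ := lt_of_le_of_lt (le_max_left _ _) ht'
        have hM1 : M < ‖t‖ := lt_of_le_of_lt (le_max_right _ _) ht'
        have e1 : W (-(starRingEnd ℂ) t) = V (-(starRingEnd ℂ) t) :=
          hM _ (by rw [hic]; exact ht) (by rw [hnc]; exact hM1)
        have e2 : V (-(starRingEnd ℂ) t) = -V ((starRingEnd ℂ) t) - 2 * c :=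
          hV.odd _ (by rw [Complex.norm_conj]; exact hR)
        have e3 : V ((starRingEnd ℂ) t) = (starRingEnd ℂ) (V t) := hV.real t hR
        show -(starRingEnd ℂ) (W (-(starRingEnd ℂ) t)) - 2 * c = W t
        rw [e1, e2, e3, hM t ht hM1, map_sub, map_neg, hc2, Complex.conj_conj]
        ring
    intro t ht
    have h1 : -(starRingEnd ℂ) (W (-(starRingEnd ℂ) t)) - 2 * c = W t := key ht
    have h2 : (starRingEnd ℂ) (W (-(starRingEnd ℂ) t)) = -W t - 2 * c := by
      linear_combination -h1
    have h3 := congrArg (starRingEnd ℂ) h2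
    rw [Complex.conj_conj, map_sub, map_neg, hc2] at h3
    exact h3
  · have key : EqOn (fun t : ℂ => Hf p r (W (t + ε))) (fun t : ℂ => Hf p r (-W t - 2 * c))
        {t : ℂ | h < t.im} := by
      refine eqOn_of_far (conv_im _) (open_im _) (fun t ht => ?_) (fun t ht => ?_)
        (M := max R M + |ε|) ?_ (fun t ht ht' => ?_)
      · have him : (t + (ε : ℂ)).im = t.im := by simp
        have h1 : h < (t + (ε : ℂ)).im := by rw [him]; exact ht
        have h2 : DifferentiableAt ℂ (fun t : ℂ => W (t + ε)) t :=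
          DifferentiableAt.comp t (g := W) (f := fun s : ℂ => s + ε) (hWat _ h1)
            (differentiableAt_id.add_const _)
        have h3 : DifferentiableAt ℂ (Hf p r) (W (t + ε)) :=
          (Hf_deriv hp hr (UP_subset_Dm (hW.up _ h1))).differentiableAt
        exact (DifferentiableAt.comp t (g := Hf p r) (f := fun t : ℂ => W (t + ε)) h3
          h2).differentiableWithinAt
      · have hu : 0 < (W t).im := hW.up t ht
        have him : (-W t - 2 * (c : ℂ)).im = -(W t).im := by simp
        have h1 : -W t - 2 * (c : ℂ) ∈ Dm p r := by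
          refine Or.inl ?_
          rw [him]
          exact ne_of_lt (neg_lt_zero.2 hu)
        have h2 : DifferentiableAt ℂ (fun t : ℂ => -W t - 2 * c) t :=
          ((hWat t ht).neg).sub_const _
        have h3 : DifferentiableAt ℂ (Hf p r) (-W t - 2 * c) :=
          (Hf_deriv hp hr h1).differentiableAt
        exact (DifferentiableAt.comp t (g := Hf p r) (f := fun t : ℂ => -W t - 2 * c) h3
          h2).differentiableWithinAt
      · refine ⟨⟨0, max h (max R M + |ε|) + 1⟩, ?_, ?_⟩
        · show h < max h (max R M + |ε|) + 1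
          have := le_max_left h (max R M + |ε|)
          linarith
        · refine norm_gt_of_im ?_
          have := le_max_right h (max R M + |ε|)
          linarith
      · have hε := abs_nonneg ε
        have hR : R < ‖t‖ := by
          have := le_max_left R M
          linarith
        have hM1 : M < ‖t‖ := by
          have := le_max_right R M
          linarith
        have him : (t + (ε : ℂ)).im = t.im := by simp
        have hn : M < ‖t + (ε : ℂ)‖ := by
          have h1 : ‖t‖ ≤ ‖t + (ε : ℂ)‖ + ‖(ε : ℂ)‖ := by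
            have := norm_sub_le (t + (ε : ℂ)) (ε : ℂ)
            rwa [add_sub_cancel_right] at this
          have h2 : ‖(ε : ℂ)‖ = |ε| := by rw [Complex.norm_real, Real.norm_eq_abs]
          have := le_max_right R M
          linarith
        have e1 : W (t + ε) = V (t + ε) := hM _ (by rw [him]; exact ht) hn
        have e2 : W t = V t := hM t ht hM1
        have e3 : Hf p r (V (ε - -t)) = Hf p r (V (-t)) := hV.sym (-t) (by rwa [norm_neg])
        have e4 : V (-t) = -V t - 2 * c := hV.odd t hR
        show Hf p r (W (t + ε)) = Hf p r (-W t - 2 * c)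
        rw [e1, e2, ← e4, ← e3, sub_neg_eq_add, add_comm]
    intro t ht
    exact key ht

end VJ

end Pool.Agent.MP_ae5b4e_an_ALG
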