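import Mathlib
import Pool.Agent.Lib.MP_ae5b4e_an_ALG.Defs
import Pool.Agent.Lib.MP_ae5b4e_an_ALG.Sym
import Pool.Agent.Lib.MP_ae5b4e_an_ALG.Far

/-!
# MP_ae5b4e_an, algebraic tables: gluing of the local extensions

If a partial extension of `V` to the half plane `h < Im t` extends near every point of the line
`Im t = h`, then it extends to a bigger half plane.
-/

set_option autoImplicit false
noncomputable section
namespace Pool.Agent.MP_ae5b4e_an_ALG
open Filter Topology Set Metric Complex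
open scoped Real

namespace Glue

/-- the identity theorem, in the form in which it is used below -/
theorem agree {B : Set ℂ} (hB : IsOpen B) (hconv : Convex ℝ B) {f g : ℂ → ℂ} {h : ℝ}
    (hf : DifferentiableOn ℂ f B) (hg : DifferentiableOn ℂ g B)
    (hfg : ∀ t ∈ B, h < t.im → f t = g t) {x : ℝ} (hx : (⟨x, h⟩ : ℂ) ∈ B) : EqOn f g B := by
  obtain ⟨s, hs, hsB⟩ := Metric.isOpen_iff.1 hB _ hx
  have hz : (⟨x, h + s / 2⟩ : ℂ) ∈ B := by
    apply hsB
    rw [mem_ball, Complex.dist_of_re_eq (z := (⟨x, h + s / 2⟩ : ℂ)) (w := (⟨x, h⟩ : ℂ)) rfl,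
      Real.dist_eq]
    simp only [add_sub_cancel_left]
    rw [abs_of_pos (by positivity)]
    linarith
  have hev : f =ᶠ[𝓝 (⟨x, h + s / 2⟩ : ℂ)] g := by
    have hopen : IsOpen (B ∩ {t : ℂ | h < t.im}) :=
      hB.inter (isOpen_lt continuous_const Complex.continuous_im)
    filter_upwards [hopen.mem_nhds ⟨hz, by simp only [mem_ofPred_eq]; linarith⟩] with t ht
    exact hfg t ht.1 ht.2
  exact (hf.analyticOnNhd hB).eqOn_of_preconnected_of_eventuallyEq (hg.analyticOnNhd hB)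
    hconv.isPreconnected hz hev

/-- the projection to the line of the centres stays in the ball -/
theorem proj_mem {x h ρ : ℝ} {t : ℂ} (ht : t ∈ ball (⟨x, h⟩ : ℂ) ρ) :
    (⟨t.re, h⟩ : ℂ) ∈ ball (⟨x, h⟩ : ℂ) ρ := by
  rw [mem_ball] at ht ⊢
  refine lt_of_le_of_lt ?_ ht
  rw [Complex.dist_of_im_eq (z := (⟨t.re, h⟩ : ℂ)) (w := (⟨x, h⟩ : ℂ)) rfl, Real.dist_eq,
    dist_eq_norm]
  have := Complex.abs_re_le_norm (t - ⟨x, h⟩)
  simpa using this

end Glue

section VM
variable {p r c D ε R h : ℝ} {V W : ℂ → ℂ}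

open Glue in
theorem PExt.glue (hp : 0 < p) (hr : 0 < r) (hD : 0 < D) (hV : SHM p r c D ε R V) (hh : 0 < h)
    (hW : PExt p r V h W)
    (hloc : ∀ t₁ : ℂ, t₁.im = h → ∃ ρ > 0, ∃ W1 : ℂ → ℂ, DifferentiableOn ℂ W1 (ball t₁ ρ) ∧
      (∀ t ∈ ball t₁ ρ, h < t.im → W1 t = W t) ∧
      (∀ t ∈ ball t₁ ρ, W1 t ∈ UP ∧ |(Hf p r (W1 t)).im| < p * π)) :
    ∃ δ > 0, ∃ W', PExt p r V (h - δ) W' := by
  classical
  obtain ⟨R1, hR1, hfar1, hfar2, -⟩ := SHM.far hp hr hD hV 0
  have hRpos := hV.R_pos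
  have hfeq := PExt.far_eq hV hh.le hW
  set L : ℝ := max (2 * R) R1 + 1 with hL
  have hL1 : 2 * R < L := by
    have := le_max_left (2 * R) R1
    linarith
  have hL2 : R1 < L := by
    have := le_max_right (2 * R) R1
    linarith
  have hL0 : 0 < L := by linarith
  have hloc' : ∀ x : ℝ, ∃ ρ > 0, ∃ W1 : ℂ → ℂ,
      DifferentiableOn ℂ W1 (ball (⟨x, h⟩ : ℂ) ρ) ∧
      (∀ t ∈ ball (⟨x, h⟩ : ℂ) ρ, h < t.im → W1 t = W t) ∧
      (∀ t ∈ ball (⟨x, h⟩ : ℂ) ρ, W1 t ∈ UP ∧ |(Hf p r (W1 t)).im| < p * π) :=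
    fun x => hloc ⟨x, h⟩ rfl
  choose ρ hρ Wl hWd hWe hWu using hloc'
  -- the compact segment
  set K : Set ℂ := (fun x : ℝ => (⟨x, h⟩ : ℂ)) '' Icc (-L) L with hK
  have hKc : IsCompact K := by
    apply isCompact_Icc.image
    have : (fun x : ℝ => (⟨x, h⟩ : ℂ)) = fun x : ℝ => (x : ℂ) + (h : ℂ) * I := by
      funext x
      apply Complex.ext <;> simp
    rw [this]
    fun_prop
  have hUo : IsOpen (⋃ x ∈ Icc (-L) L, ball (⟨x, h⟩ : ℂ) (ρ x)) :=
    isOpen_biUnion fun x _ => isOpen_ball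
  have hKU : K ⊆ ⋃ x ∈ Icc (-L) L, ball (⟨x, h⟩ : ℂ) (ρ x) := by
    rintro _ ⟨x, hx, rfl⟩
    exact mem_biUnion hx (mem_ball_self (hρ x))
  obtain ⟨δ0, hδ0, hth⟩ := hKc.exists_thickening_subset_open hUo hKU
  set δ : ℝ := min (δ0 / 2) (h / 2) with hδ
  have hδpos : 0 < δ := lt_min (by positivity) (by positivity)
  have hδ1 : δ ≤ δ0 / 2 := min_le_left _ _
  have hδ2 : δ ≤ h / 2 := min_le_right _ _
  -- every point of the strip above the segment is in one of the balls
  have hcov : ∀ t : ℂ, h - δ < t.im → t.im ≤ h → |t.re| ≤ L →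
      ∃ x, t ∈ ball (⟨x, h⟩ : ℂ) (ρ x) := by
    intro t h1 h2 h3
    have : t ∈ thickening δ0 K := by
      rw [mem_thickening_iff]
      refine ⟨⟨t.re, h⟩, ⟨t.re, abs_le.1 h3, rfl⟩, ?_⟩
      rw [Complex.dist_of_re_eq (z := t) (w := (⟨t.re, h⟩ : ℂ)) rfl, Real.dist_eq,
        abs_sub_comm, abs_of_nonneg (by simp only []; linarith)]
      simp only []
      linarith
    have := hth this
    simp only [mem_iUnion] at this
    obtain ⟨x, -, hx⟩ := this
    exact ⟨x, hx⟩
  -- compatibility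
  have hcomp1 : ∀ x y : ℝ, ∀ t : ℂ, t ∈ ball (⟨x, h⟩ : ℂ) (ρ x) →
      t ∈ ball (⟨y, h⟩ : ℂ) (ρ y) → Wl x t = Wl y t := by
    intro x y t hx hy
    have hopen : IsOpen (ball (⟨x, h⟩ : ℂ) (ρ x) ∩ ball (⟨y, h⟩ : ℂ) (ρ y)) :=
      isOpen_ball.inter isOpen_ball
    have hconv : Convex ℝ (ball (⟨x, h⟩ : ℂ) (ρ x) ∩ ball (⟨y, h⟩ : ℂ) (ρ y)) :=
      (convex_ball _ _).inter (convex_ball _ _)
    refine agree (h := h) (x := t.re) hopen hconv ((hWd x).mono inter_subset_left)
      ((hWd y).mono inter_subset_right) ?_ ⟨proj_mem hx, proj_mem hy⟩ ⟨hx, hy⟩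
    intro s hs hs'
    rw [hWe x s hs.1 hs', hWe y s hs.2 hs']
  have hnorm : ∀ t : ℂ, L < |t.re| → L < ‖t‖ := fun t ht =>
    lt_of_lt_of_le ht (Complex.abs_re_le_norm t)
  have hcomp2 : ∀ x : ℝ, ∀ t : ℂ, t ∈ ball (⟨x, h⟩ : ℂ) (ρ x) → L < |t.re| → Wl x t = V t := by
    intro x t hx ht
    have key : ∀ S : Set ℂ, IsOpen S → Convex ℝ S → (∀ s ∈ S, L < |s.re|) →
        (⟨t.re, h⟩ : ℂ) ∈ S → t ∈ S → Wl x t = V t := by
      intro S hSo hSc hSL hS1 hS2
      refine agree (h := h) (x := t.re) (B := ball (⟨x, h⟩ : ℂ) (ρ x) ∩ S)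
        (isOpen_ball.inter hSo) ((convex_ball _ _).inter hSc) ((hWd x).mono inter_subset_left)
        ?_ ?_ ⟨proj_mem hx, hS1⟩ ⟨hx, hS2⟩
      · intro s hs
        exact (hV.diff s (by have := hnorm s (hSL s hs.2); linarith)).differentiableWithinAt
      · intro s hs hs'
        rw [hWe x s hs.1 hs']
        exact hfeq s hs' (by have := hnorm s (hSL s hs.2); linarith)
    rcases lt_abs.1 ht with h1 | h1
    · exact key {s : ℂ | L < s.re} (isOpen_lt continuous_const Complex.continuous_re)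
        (convex_halfSpace_re_gt L) (fun s hs => lt_abs.2 (Or.inl hs)) h1 h1
    · refine key {s : ℂ | s.re < -L} (isOpen_lt Complex.continuous_re continuous_const)
        (convex_halfSpace_re_lt (-L)) (fun s hs => lt_abs.2 (Or.inr ?_)) ?_ ?_
      · have : s.re < -L := hs
        linarith
      · simp only [mem_ofPred_eq]; linarith
      · simp only [mem_ofPred_eq]; linarith
  -- the extension
  let W' : ℂ → ℂ := fun t =>
    if h < t.im then W t else
      if L < |t.re| then V t else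
        if hx : ∃ x, t ∈ ball (⟨x, h⟩ : ℂ) (ρ x) then Wl hx.choose t else 0
  have hW'1 : ∀ t : ℂ, h < t.im → W' t = W t := fun t ht => if_pos ht
  have hW'2 : ∀ t : ℂ, ¬ h < t.im → L < |t.re| → W' t = V t := fun t ht ht' => by
    simp only [W', if_neg ht, if_pos ht']
  have hW'3 : ∀ x : ℝ, ∀ t : ℂ, t ∈ ball (⟨x, h⟩ : ℂ) (ρ x) → W' t = Wl x t := by
    intro x t hx
    by_cases h1 : h < t.im
    · rw [hW'1 t h1, hWe x t hx h1]
    · by_cases h2 : L < |t.re|
      · rw [hW'2 t h1 h2, hcomp2 x t hx h2]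
      · have hex : ∃ x, t ∈ ball (⟨x, h⟩ : ℂ) (ρ x) := ⟨x, hx⟩
        simp only [W', if_neg h1, if_neg h2, dif_pos hex]
        exact hcomp1 _ _ t hex.choose_spec hx
  have hW'4 : ∀ t : ℂ, L < |t.re| → W' t = V t := by
    intro t ht
    by_cases h1 : h < t.im
    · rw [hW'1 t h1]
      exact hfeq t h1 (by have := hnorm t ht; linarith)
    · exact hW'2 t h1 ht
  refine ⟨δ, hδpos, W', ?_, ?_, ?_, ?_⟩
  · intro t ht
    have ht : h - δ < t.im := ht
    apply DifferentiableAt.differentiableWithinAt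
    by_cases h1 : h < t.im
    · have hn : {s : ℂ | h < s.im} ∈ 𝓝 t :=
        (isOpen_lt continuous_const Complex.continuous_im).mem_nhds h1
      have hd : DifferentiableAt ℂ W t := (hW.diff t h1).differentiableAt hn
      refine hd.congr_of_eventuallyEq ?_
      filter_upwards [hn] with s hs
      exact hW'1 s hs
    · by_cases h2 : L < |t.re|
      · have hn : {s : ℂ | L < |s.re|} ∈ 𝓝 t :=
          (isOpen_lt continuous_const (Complex.continuous_re.abs)).mem_nhds h2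
        have hd : DifferentiableAt ℂ V t := hV.diff t (by have := hnorm t h2; linarith)
        refine hd.congr_of_eventuallyEq ?_
        filter_upwards [hn] with s hs
        exact hW'4 s hs
      · obtain ⟨x, hx⟩ := hcov t ht (not_lt.1 h1) (not_lt.1 h2)
        have hn : ball (⟨x, h⟩ : ℂ) (ρ x) ∈ 𝓝 t := isOpen_ball.mem_nhds hx
        have hd : DifferentiableAt ℂ (Wl x) t := (hWd x t hx).differentiableAt hn
        refine hd.congr_of_eventuallyEq ?_
        filter_upwards [hn] with s hs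
        exact hW'3 x s hs
  · intro t ht
    by_cases h1 : h < t.im
    · rw [hW'1 t h1]
      exact hW.up t h1
    · by_cases h2 : L < |t.re|
      · rw [hW'4 t h2]
        refine hfar2 t (by have := hnorm t h2; linarith) ?_
        show 0 < t.im
        linarith
      · obtain ⟨x, hx⟩ := hcov t ht (not_lt.1 h1) (not_lt.1 h2)
        rw [hW'3 x t hx]
        exact (hWu x t hx).1
  · intro t ht
    by_cases h1 : h < t.im
    · rw [hW'1 t h1]
      exact hW.strip t h1
    · by_cases h2 : L < |t.re|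
      · rw [hW'4 t h2]
        exact (hfar1 t (by have := hnorm t h2; linarith)).2.2.2
      · obtain ⟨x, hx⟩ := hcov t ht (not_lt.1 h1) (not_lt.1 h2)
        rw [hW'3 x t hx]
        exact (hWu x t hx).2
  · obtain ⟨RW, hRW⟩ := hW.far
    refine ⟨max RW (L + h), fun t ht htR => ?_⟩
    by_cases h1 : h < t.im
    · rw [hW'1 t h1]
      exact hRW t h1 (lt_of_le_of_lt (le_max_left _ _) htR)
    · apply hW'4
      have h3 : L + h < ‖t‖ := lt_of_le_of_lt (le_max_right _ _) htR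
      have h4 := Complex.norm_le_abs_re_add_abs_im t
      have h5 : |t.im| ≤ h := by
        rw [abs_le]
        constructor <;> linarith
      linarith
end VM

end Pool.Agent.MP_ae5b4e_an_ALG
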