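import Pool.Agent.Lib.MP_ae5b4e_an_ALG.Lim
import Pool.Agent.Lib.MP_ae5b4e_an_ALG.Sym
import Pool.Agent.Lib.MP_ae5b4e_an_ALG.Far

/-!
# MP_ae5b4e_an, algebraic tables: the boundary value of `Hf (W t)` is not on the upper line
-/

set_option autoImplicit false
noncomputable section
namespace Pool.Agent.MP_ae5b4e_an_ALG
open Filter Topology Set Metric Complex
open scoped Real

namespace NoPi
variable {p r c D ε R h : ℝ} {V W : ℂ → ℂ}

theorem neBot {t₁ : ℂ} (ht₁ : t₁.im = h) : (𝓝[{t : ℂ | h < t.im}] t₁).NeBot := by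
  rw [← mem_closure_iff_nhdsWithin_neBot, Complex.closure_setOfPred_lt_im]
  simp [ht₁]

/-- the reflected point -/
def refl (c : ℝ) (w : ℂ) : ℂ := -(starRingEnd ℂ) w - 2 * c

theorem refl_up {w : ℂ} (hw : w ∈ UP) : refl c w ∈ UP := by
  have h1 : 0 < w.im := hw
  change 0 < (refl c w).im
  simpa [refl] using h1

theorem sym_step (hp : 0 < p) (hr : 0 < r) (hV : SHM p r c D ε R V) (hW : PExt p r V h W)
    (hh : 0 ≤ h) {t : ℂ} (ht : h < t.im) :
    Hf p r (W (t + ε)) = (starRingEnd ℂ) (Hf p r (refl c (W t))) := by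
  rw [(PExt.symm hp hr hV hW hh).2 t ht, ← Hf_conj hp hr (UP_subset_Dm (refl_up (hW.up t ht)))]
  congr 1
  simp only [refl, map_sub, map_neg, conj_conj, map_mul, conj_ofReal]
  rw [show (starRingEnd ℂ) (2 : ℂ) = 2 from by simpa using Complex.conj_ofReal 2]

theorem tendsto_refl {l : Filter ℂ} {w : ℂ → ℂ} {x : ℝ} (hw : ∀ᶠ t in l, w t ∈ UP)
    (hx : Tendsto w l (𝓝 (x : ℂ))) :
    Tendsto (fun t => refl c (w t)) l (𝓝[UP] ((-x - 2 * c : ℝ) : ℂ)) := by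
  rw [tendsto_nhdsWithin_iff]
  refine ⟨?_, hw.mono fun t ht => refl_up ht⟩
  have h1 : Tendsto (fun t => -(starRingEnd ℂ) (w t) - 2 * (c : ℂ)) l
      (𝓝 (-(starRingEnd ℂ) (x : ℂ) - 2 * c)) :=
    (((Complex.continuous_conj.tendsto _).comp hx).neg).sub_const _
  simpa [refl] using h1

theorem lim_Hb (hp : 0 < p) (hr : 0 < r) {l : Filter ℂ} {v : ℂ → ℂ} {x : ℝ} (h0 : x ≠ 0)
    (h1 : x ≠ -p) (h2 : x ≠ r) (hv : Tendsto v l (𝓝[UP] (x : ℂ))) :
    Tendsto (fun t => Hf p r (v t)) l (𝓝 (Hb p r x)) := by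
  have hS : UP ⊆ {V : ℂ | 0 ≤ V.im ∧ V ≠ 0 ∧ V ≠ -p ∧ V ≠ r} := by
    intro w hw
    have hw' : 0 < w.im := hw
    refine ⟨hw'.le, ?_, ?_, ?_⟩
    · rintro rfl; simp at hw'
    · rintro rfl; simp at hw'
    · rintro rfl; simp at hw'
  have hx : (x : ℂ) ∈ {V : ℂ | 0 ≤ V.im ∧ V ≠ 0 ∧ V ≠ -p ∧ V ≠ r} := by
    refine ⟨by simp, by exact_mod_cast h0, ?_, by exact_mod_cast h2⟩
    intro h; apply h1; exact_mod_cast h
  have h3 : Tendsto (Hb p r) (𝓝[UP] (x : ℂ)) (𝓝 (Hb p r x)) :=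
    (Hb_contOn hp hr (x : ℂ) hx).mono_left (nhdsWithin_mono _ hS)
  have h4 : ∀ᶠ t in l, v t ∈ UP := hv.eventually self_mem_nhdsWithin
  refine (h3.comp hv).congr' ?_
  filter_upwards [h4] with t ht
  exact Hb_eq hp hr (UP_subset_Dm ht)

theorem stepP (hp : 0 < p) (hpr : p < r) {l : Filter ℂ} {w w' : ℂ → ℂ}
    (hw : ∀ᶠ t in l, w t ∈ UP) (hw' : ∀ᶠ t in l, w' t ∈ UP)
    (hs : ∀ᶠ t in l, Hf p r (w' t) = (starRingEnd ℂ) (Hf p r (refl c (w t))))
    {x : ℝ} (hx : Tendsto w l (𝓝 (x : ℂ))) (hx' : -x - 2 * c ≤ -p) :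
    ∃ y : ℝ, r ≤ y ∧ Tendsto w' l (𝓝 (y : ℂ)) := by
  have hr : 0 < r := hp.trans hpr
  have hv := tendsto_refl (c := c) hw hx
  have hi : ∀ᶠ t in l, 0 < (Hf p r (w' t)).im := by
    filter_upwards [hs, hv.eventually (Hf_side1 hp hr hx')] with t h1 h2
    rw [h1, conj_im]; linarith
  rcases hx'.eq_or_lt with heq | hlt
  · refine ⟨r, le_rfl, lim_r hp hr hw' ?_ hi⟩
    have h1 : Tendsto (fun t => (Hf p r (refl c (w t))).re) l atBot := by
      have h2 : Tendsto (fun t => refl c (w t)) l (𝓝[≠] (-p : ℂ)) := by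
        rw [heq] at hv
        have h3 : Tendsto (fun t => refl c (w t)) l (𝓝[UP] (-p : ℂ)) := by
          simpa using hv
        refine h3.mono_right (nhdsWithin_mono _ ?_)
        intro w hw
        have hw' : 0 < w.im := hw
        rintro rfl
        simp at hw'
      exact (Hf_re_mp hp hr).comp h2
    refine h1.congr' ?_
    filter_upwards [hs] with t h1
    rw [h1, conj_re]
  · obtain ⟨h3, h4⟩ := Hb_I14 hp hr (Or.inl hlt)
    obtain ⟨y, hy, hy'⟩ := Hb_surj4 hp hr h3 h4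
    refine ⟨y, hy.le, lim_4 hp hr hw' hy ?_ hi⟩
    rw [hy']
    have h5 := lim_Hb hp hr (x := -x - 2 * c) (by linarith) (by linarith) (by linarith) hv
    have h6 : (starRingEnd ℂ) (Hb p r ((-x - 2 * c : ℝ) : ℂ)) = Hb p r ((-x - 2 * c : ℝ) : ℂ) :=
      conj_eq_iff_im.mpr h3
    have h7 := (Complex.continuous_conj.tendsto _).comp h5
    rw [h6] at h7
    refine h7.congr' ?_
    filter_upwards [hs] with t h1
    exact h1.symm

theorem stepN (hp : 0 < p) (hpr : p < r) {l : Filter ℂ} {w w' : ℂ → ℂ}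
    (hw : ∀ᶠ t in l, w t ∈ UP) (hw' : ∀ᶠ t in l, w' t ∈ UP)
    (hs : ∀ᶠ t in l, Hf p r (w' t) = (starRingEnd ℂ) (Hf p r (refl c (w t))))
    {x : ℝ} (hx : Tendsto w l (𝓝 (x : ℂ))) (hx' : r < -x - 2 * c) :
    ∃ y : ℝ, y < -p ∧ Tendsto w' l (𝓝 (y : ℂ)) := by
  have hr : 0 < r := hp.trans hpr
  have hv := tendsto_refl (c := c) hw hx
  have hi : ∀ᶠ t in l, (Hf p r (w' t)).im < 0 := by
    filter_upwards [hs, hv.eventually (Hf_side4 hp hr hx'.le)] with t h1 h2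
    rw [h1, conj_im]; linarith
  obtain ⟨h3, h4⟩ := Hb_I14 hp hr (Or.inr hx')
  obtain ⟨y, hy, hy'⟩ := Hb_surj1 hp hr h3 h4
  refine ⟨y, hy, lim_1 hp hr hw' hy ?_ hi⟩
  rw [hy']
  have h5 := lim_Hb hp hr (x := -x - 2 * c) (by linarith) (by linarith) (by linarith) hv
  have h6 : (starRingEnd ℂ) (Hb p r ((-x - 2 * c : ℝ) : ℂ)) = Hb p r ((-x - 2 * c : ℝ) : ℂ) :=
    conj_eq_iff_im.mpr h3
  have h7 := (Complex.continuous_conj.tendsto _).comp h5
  rw [h6] at h7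
  refine h7.congr' ?_
  filter_upwards [hs] with t h1
  exact h1.symm

/-- far away the boundary values are in the upper half plane -/
theorem far_not_real (hp : 0 < p) (hr : 0 < r) (hD : 0 < D) (hV : SHM p r c D ε R V)
    (hh : 0 < h) (hW : PExt p r V h W) {t₁ : ℂ} (ht₁ : t₁.im = h) :
    ∃ B : ℝ, ∀ b : ℝ, B < |b| → ∀ y : ℝ,
      ¬ Tendsto (fun t : ℂ => W (t + b)) (𝓝[{t : ℂ | h < t.im}] t₁) (𝓝 (y : ℂ)) := by
  obtain ⟨R0, hR0⟩ := hW.far
  obtain ⟨R1, hR1, -, hfar, -⟩ := SHM.far hp hr hD hV 0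
  refine ⟨‖t₁‖ + max R0 R1, fun b hb y hy => ?_⟩
  have hnb : max R0 R1 < ‖t₁ + b‖ := by
    have h1 : ‖(b : ℂ)‖ ≤ ‖t₁ + b‖ + ‖t₁‖ := by
      have h2 : (b : ℂ) = (t₁ + b) - t₁ := by ring
      calc ‖(b : ℂ)‖ = ‖(t₁ + b) - t₁‖ := by rw [← h2]
        _ ≤ _ := norm_sub_le _ _
    rw [Complex.norm_real, Real.norm_eq_abs] at h1
    linarith
  have hb0 : R0 < ‖t₁ + b‖ := lt_of_le_of_lt (le_max_left _ _) hnb
  have hb1 : R1 < ‖t₁ + b‖ := lt_of_le_of_lt (le_max_right _ _) hnb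
  have hUP : t₁ + b ∈ UP := by
    change 0 < (t₁ + b).im
    simp [ht₁, hh]
  have hcont : ContinuousAt (fun t : ℂ => t + (b : ℂ)) t₁ := by fun_prop
  have hev : ∀ᶠ t : ℂ in 𝓝[{t : ℂ | h < t.im}] t₁, R0 < ‖t + b‖ := by
    have h1 : ContinuousAt (fun t : ℂ => ‖t + (b : ℂ)‖) t₁ := by fun_prop
    exact (h1.eventually (lt_mem_nhds hb0)).filter_mono nhdsWithin_le_nhds
  have h2 : Tendsto (fun t : ℂ => V (t + b)) (𝓝[{t : ℂ | h < t.im}] t₁) (𝓝 (V (t₁ + b))) := by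
    have h3 : ContinuousAt V (t₁ + b) := (hV.diff _ (hR1.trans hb1)).continuousAt
    have h4 : Tendsto (fun t : ℂ => t + (b : ℂ)) (𝓝[{t : ℂ | h < t.im}] t₁) (𝓝 (t₁ + b)) :=
      hcont.tendsto.mono_left nhdsWithin_le_nhds
    exact h3.tendsto.comp h4
  have h5 : Tendsto (fun t : ℂ => W (t + b)) (𝓝[{t : ℂ | h < t.im}] t₁) (𝓝 (V (t₁ + b))) := by
    refine h2.congr' ?_
    filter_upwards [hev, self_mem_nhdsWithin] with t h6 h7
    refine (hR0 _ ?_ h6).symm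
    have h8 : h < t.im := h7
    simpa using h8
  have := neBot ht₁
  have h9 := tendsto_nhds_unique h5 hy
  have h10 : 0 < (V (t₁ + b)).im := hfar _ hb1 hUP
  rw [h9] at h10
  simp at h10

end NoPi

section VK
variable {p r c D ε R h : ℝ} {V W : ℂ → ℂ}

theorem PExt.no_pi (hp : 0 < p) (hpr : p < r) (hD : 0 < D)
    (hc : (ε = 1 ∧ 0 ≤ c) ∨ (ε = -1 ∧ c = -r)) (hV : SHM p r c D ε R V) (hh : 0 < h)
    (hW : PExt p r V h W) {t₁ : ℂ} (ht₁ : t₁.im = h) {z : ℂ} (hz : z.im = p * π)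
    (hl : Tendsto (fun t => Hf p r (W t)) (𝓝[{t : ℂ | h < t.im}] t₁) (𝓝 z)) : False := by
  have hr : 0 < r := hp.trans hpr
  have hne := NoPi.neBot ht₁
  obtain ⟨x, hx0, hxr, hxz⟩ := Hb_surj3 hp hr hz
  have hup : ∀ b : ℝ, ∀ᶠ t : ℂ in 𝓝[{t : ℂ | h < t.im}] t₁, W (t + b) ∈ UP := by
    intro b
    filter_upwards [self_mem_nhdsWithin] with t ht
    refine hW.up _ ?_
    have h8 : h < t.im := ht
    simpa using h8
  have hup0 : ∀ᶠ t in 𝓝[{t : ℂ | h < t.im}] t₁, W t ∈ UP := by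
    filter_upwards [self_mem_nhdsWithin] with t ht
    exact hW.up _ ht
  have hsym : ∀ b : ℝ, ∀ᶠ t : ℂ in 𝓝[{t : ℂ | h < t.im}] t₁, Hf p r (W (t + (b + ε : ℝ))) =
      (starRingEnd ℂ) (Hf p r (NoPi.refl c (W (t + b)))) := by
    intro b
    filter_upwards [self_mem_nhdsWithin] with t ht
    have h8 : h < t.im := ht
    have h9 := NoPi.sym_step hp hr hV hW hh.le (t := t + b) (by simpa using h8)
    rw [← h9]
    congr 2
    push_cast; ring
  have h0 : Tendsto W (𝓝[{t : ℂ | h < t.im}] t₁) (𝓝 (x : ℂ)) := by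
    rw [← hxz] at hl
    exact lim_3 hp hr hup0 hx0 hxr hl
  have h0' : Tendsto (fun t : ℂ => W (t + (0 : ℝ))) (𝓝[{t : ℂ | h < t.im}] t₁) (𝓝 (x : ℂ)) := by
    simpa using h0
  obtain ⟨B, hB⟩ := NoPi.far_not_real hp hr hD hV hh hW ht₁
  rcases hc with ⟨hε, hc⟩ | ⟨hε, hc⟩
  · subst hε
    have hx1 : -x - 2 * c ≤ -p := by
      by_contra hcon
      push Not at hcon
      have hv := NoPi.tendsto_refl (c := c) (hup 0) h0'
      have h5 := NoPi.lim_Hb hp hr (x := -x - 2 * c) (by linarith) (by linarith) (by linarith) hv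
      have h6 := Hb_I2 hp hr hcon (by linarith : -x - 2 * c < 0)
      have h7 : Tendsto (fun t : ℂ => (Hf p r (W (t + (0 + 1 : ℝ)))).im)
          (𝓝[{t : ℂ | h < t.im}] t₁) (𝓝 (r * π)) := by
        have h8 := ((Complex.continuous_im.tendsto _).comp h5).neg
        rw [h6, neg_neg] at h8
        refine h8.congr' ?_
        filter_upwards [hsym 0] with t ht
        rw [ht, conj_im]
        rfl
      have h9 : r * π ≤ p * π := by
        refine le_of_tendsto h7 ?_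
        filter_upwards [self_mem_nhdsWithin] with t ht
        have h10 : h < t.im := ht
        have h11 := hW.strip (t + (0 + 1 : ℝ)) (by simpa using h10)
        exact (le_abs_self _).trans h11.le
      have h12 : p * π < r * π := mul_lt_mul_of_pos_right hpr Real.pi_pos
      linarith
    have key : ∀ m : ℕ, ∃ y : ℝ, r ≤ y ∧ Tendsto (fun t : ℂ => W (t + ((m + 1 : ℝ) : ℝ)))
        (𝓝[{t : ℂ | h < t.im}] t₁) (𝓝 (y : ℂ)) := by
      intro m
      induction m with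
      | zero =>
        obtain ⟨y, hy, hy'⟩ := NoPi.stepP (c := c) hp hpr (hup 0) (hup (0 + 1)) (hsym 0) h0' hx1
        refine ⟨y, hy, ?_⟩
        simpa using hy'
      | succ m ih =>
        obtain ⟨y, hy, hy'⟩ := ih
        obtain ⟨y2, hy2, hy2'⟩ := NoPi.stepP (c := c) hp hpr (hup (m + 1)) (hup (m + 1 + 1))
          (hsym (m + 1)) hy' (by linarith)
        refine ⟨y2, hy2, ?_⟩
        convert hy2' using 5
        push_cast; ring
    obtain ⟨m, hm⟩ := exists_nat_gt B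
    obtain ⟨y, -, hy⟩ := key m
    refine hB (m + 1) ?_ y hy
    rw [abs_of_nonneg (by positivity)]
    linarith
  · subst hε hc
    have key : ∀ m : ℕ, ∃ y : ℝ, y < -p ∧ Tendsto (fun t : ℂ => W (t + ((-(m + 1 : ℝ)) : ℝ)))
        (𝓝[{t : ℂ | h < t.im}] t₁) (𝓝 (y : ℂ)) := by
      intro m
      induction m with
      | zero =>
        obtain ⟨y, hy, hy'⟩ := NoPi.stepN (c := -r) hp hpr (hup 0) (hup (0 + -1)) (hsym 0) h0'
          (by linarith)
        refine ⟨y, hy, ?_⟩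
        simpa using hy'
      | succ m ih =>
        obtain ⟨y, hy, hy'⟩ := ih
        obtain ⟨y2, hy2, hy2'⟩ := NoPi.stepN (c := -r) hp hpr (hup (-(m + 1)))
          (hup (-(m + 1) + -1)) (hsym (-(m + 1))) hy' (by linarith)
        refine ⟨y2, hy2, ?_⟩
        convert hy2' using 5
        push_cast; ring
    obtain ⟨m, hm⟩ := exists_nat_gt B
    obtain ⟨y, -, hy⟩ := key m
    refine hB (-(m + 1)) ?_ y hy
    rw [abs_neg, abs_of_nonneg (by positivity)]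
    linarith
end VK

end Pool.Agent.MP_ae5b4e_an_ALG
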