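import Mathlib
import Pool.Agent.Lib.MP_ae5b4e_an_ALG.Defs
import Pool.Agent.Lib.MP_ae5b4e_an_ALG.NoPi
import Pool.Agent.Lib.MP_ae5b4e_an_ALG.Gf

/-!
# MP_ae5b4e_an, algebraic tables: local continuation of the uniformization across `Im t = h`
-/

set_option autoImplicit false
noncomputable section
namespace Pool.Agent.MP_ae5b4e_an_ALG
open Filter Topology Set Metric Complex
open scoped Real

namespace VLaux

variable {p r c D ε R h : ℝ} {V W : ℂ → ℂ}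

/-- the conclusion at one point -/
def Good (p r h : ℝ) (W : ℂ → ℂ) (t₁ : ℂ) : Prop :=
  ∃ ρ > 0, ∃ W1 : ℂ → ℂ, DifferentiableOn ℂ W1 (ball t₁ ρ) ∧
      (∀ t ∈ ball t₁ ρ, h < t.im → W1 t = W t) ∧
      (∀ t ∈ ball t₁ ρ, W1 t ∈ UP ∧ |(Hf p r (W1 t)).im| < p * π)

theorem Good.far (hp : 0 < p) (hr : 0 < r) (hD : 0 < D) (hV : SHM p r c D ε R V) (hh : 0 < h)
    (hW : PExt p r V h W) : ∃ R2 : ℝ, ∀ t₁ : ℂ, t₁.im = h → R2 < ‖t₁‖ → Good p r h W t₁ := by
  obtain ⟨R1, hR1, h1, h2, -⟩ := hV.far hp hr hD 0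
  refine ⟨max R1 (2 * R), fun t₁ ht₁ hn => ?_⟩
  have hR1' : R1 < ‖t₁‖ := lt_of_le_of_lt (le_max_left _ _) hn
  have hR2' : 2 * R < ‖t₁‖ := lt_of_le_of_lt (le_max_right _ _) hn
  have hopen : IsOpen ({t : ℂ | max R1 (2 * R) < ‖t‖} ∩ UP) :=
    (isOpen_lt continuous_const continuous_norm).inter (isOpen_lt continuous_const Complex.continuous_im)
  have hmem : t₁ ∈ ({t : ℂ | max R1 (2 * R) < ‖t‖} ∩ UP) := ⟨hn, by
    show 0 < t₁.im
    rw [ht₁]; exact hh⟩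
  obtain ⟨ρ, hρ, hsub⟩ := Metric.isOpen_iff.1 hopen t₁ hmem
  refine ⟨ρ, hρ, V, ?_, ?_, ?_⟩
  · intro t ht
    have h3 := hsub ht
    have h4 : R1 < ‖t‖ := lt_of_le_of_lt (le_max_left _ _) h3.1
    exact (hV.diff t (hR1.trans h4)).differentiableWithinAt
  · intro t ht hht
    have h3 := hsub ht
    exact (hW.far_eq hV hh.le t hht (lt_of_le_of_lt (le_max_right _ _) h3.1)).symm
  · intro t ht
    have h3 := hsub ht
    have h4 : R1 < ‖t‖ := lt_of_le_of_lt (le_max_left _ _) h3.1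
    exact ⟨h2 t h4 h3.2, (h1 t h4).2.2.2⟩

theorem neBot_above {h : ℝ} {t₁ : ℂ} (ht₁ : t₁.im = h) : (𝓝[{t : ℂ | h < t.im}] t₁).NeBot := by
  rw [← mem_closure_iff_nhdsWithin_neBot, Metric.mem_closure_iff]
  intro e he
  refine ⟨t₁ + ((e / 2 : ℝ) : ℂ) * I, ?_, ?_⟩
  · show h < (t₁ + ((e / 2 : ℝ) : ℂ) * I).im
    simp only [add_im, mul_im, ofReal_re, I_im, mul_one, ofReal_im, I_re, mul_zero, add_zero, ht₁]
    linarith
  · rw [dist_eq_norm]
    have : t₁ - (t₁ + ((e / 2 : ℝ) : ℂ) * I) = -(((e / 2 : ℝ) : ℂ) * I) := by ring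
    rw [this, norm_neg, norm_mul, Complex.norm_real, Complex.norm_I, mul_one, Real.norm_eq_abs,
      abs_of_pos (by linarith)]
    linarith

theorem Good.step (hp : 0 < p) (hpr : p < r) (hD : 0 < D)
    (hc : (ε = 1 ∧ 0 ≤ c) ∨ (ε = -1 ∧ c = -r)) (hV : SHM p r c D ε R V) (hh : 0 < h)
    (hW : PExt p r V h W) {t₁ : ℂ} (ht₁ : t₁.im = h) (h0 : Good p r h W (t₁ - ε)) :
    Good p r h W t₁ := by
  have hr : 0 < r := hp.trans hpr
  obtain ⟨ρ, hρ, W0, hd, he, hu⟩ := h0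
  have hball : ∀ t ∈ ball t₁ ρ, t - ε ∈ ball (t₁ - ε) ρ := by
    intro t ht
    rw [mem_ball, dist_eq_norm] at ht ⊢
    have : t - ε - (t₁ - ε) = t - t₁ := by ring
    rw [this]
    exact ht
  set g : ℂ → ℂ := fun t => -W0 (t - ε) - 2 * c with hg
  have hgd : DifferentiableOn ℂ g (ball t₁ ρ) := by
    have h1 : DifferentiableOn ℂ (fun t : ℂ => W0 (t - ε)) (ball t₁ ρ) :=
      hd.comp ((differentiable_id.sub_const _).differentiableOn) hball
    exact (h1.neg).sub_const _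
  have hgim : ∀ t ∈ ball t₁ ρ, (g t).im < 0 := by
    intro t ht
    have h1 : 0 < (W0 (t - ε)).im := (hu _ (hball t ht)).1
    have h2 : (g t).im = -(W0 (t - ε)).im := by
      simp [hg]
    rw [h2]
    linarith
  have hgDm : ∀ t ∈ ball t₁ ρ, g t ∈ Dm p r := fun t ht => Or.inl (hgim t ht).ne
  have hHg : DifferentiableOn ℂ (fun t => Hf p r (g t)) (ball t₁ ρ) := by
    intro t ht
    exact (Hf_deriv hp hr (hgDm t ht)).differentiableAt.comp_differentiableWithinAt t (hgd t ht)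
  have heq : ∀ t ∈ ball t₁ ρ, h < t.im → Hf p r (W t) = Hf p r (g t) := by
    intro t ht hht
    have him : h < (t - ε).im := by simpa using hht
    have h1 := (hW.symm hp hr hV hh.le).2 (t - ε) him
    rw [sub_add_cancel] at h1
    rw [h1, ← he _ (hball t ht) him]
  have hcen : t₁ ∈ ball t₁ ρ := mem_ball_self hρ
  have hcont : ContinuousAt (fun t => Hf p r (g t)) t₁ :=
    (hHg.differentiableAt (isOpen_ball.mem_nhds hcen)).continuousAt
  have hlim : Tendsto (fun t => Hf p r (W t)) (𝓝[{t : ℂ | h < t.im}] t₁)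
      (𝓝 (Hf p r (g t₁))) := by
    have h1 : Tendsto (fun t => Hf p r (g t)) (𝓝[{t : ℂ | h < t.im}] t₁)
        (𝓝 (Hf p r (g t₁))) := hcont.tendsto.mono_left nhdsWithin_le_nhds
    refine h1.congr' ?_
    filter_upwards [mem_nhdsWithin_of_mem_nhds (isOpen_ball.mem_nhds hcen), self_mem_nhdsWithin]
      with t ht hht
    exact (heq t ht hht).symm
  have hne := neBot_above ht₁
  have hle : |(Hf p r (g t₁)).im| ≤ p * π := by
    have h1 : Tendsto (fun t => |(Hf p r (W t)).im|) (𝓝[{t : ℂ | h < t.im}] t₁)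
        (𝓝 |(Hf p r (g t₁)).im|) :=
      ((Complex.continuous_im.tendsto _).comp hlim).abs
    refine le_of_tendsto h1 ?_
    filter_upwards [self_mem_nhdsWithin] with t ht
    exact (hW.strip t ht).le
  have hconj : (starRingEnd ℂ) (g t₁) ∈ UP := by
    show 0 < ((starRingEnd ℂ) (g t₁)).im
    rw [conj_im]
    linarith [hgim t₁ hcen]
  have hX := Hf_mapsTo hp hr hconj
  rw [Hf_conj hp hr (hgDm t₁ hcen)] at hX
  obtain ⟨hX1, hX2, hX3⟩ := hX
  rw [conj_im] at hX1 hX2 hX3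
  rw [conj_re] at hX3
  have hnepi : (Hf p r (g t₁)).im ≠ p * π := fun h1 =>
    PExt.no_pi hp hpr hD hc hV hh hW ht₁ h1 hlim
  have hlt : |(Hf p r (g t₁)).im| < p * π := by
    rw [abs_lt]
    refine ⟨by linarith, lt_of_le_of_ne (le_of_abs_le hle) hnepi⟩
  have hXs : Hf p r (g t₁) ∈ Xs p r := by
    have hpi := Real.pi_pos
    have h1 := (abs_lt.1 hlt).1
    refine ⟨by nlinarith, (abs_lt.1 hlt).2, fun h0 => hX3 (by rw [h0]; simp)⟩
  have hev : ∀ᶠ t in 𝓝 t₁, t ∈ ball t₁ ρ ∧ Hf p r (g t) ∈ Xs p r ∧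
      |(Hf p r (g t)).im| < p * π := by
    have h2 : ∀ᶠ t in 𝓝 t₁, t ∈ ball t₁ ρ := isOpen_ball.mem_nhds hcen
    have h3 : ∀ᶠ t in 𝓝 t₁, Hf p r (g t) ∈ Xs p r :=
      hcont.eventually_mem ((Xs_open hp hr).mem_nhds hXs)
    have h1 : Tendsto (fun t => |(Hf p r (g t)).im|) (𝓝 t₁) (𝓝 |(Hf p r (g t₁)).im|) :=
      ((Complex.continuous_im.tendsto _).comp hcont.tendsto).abs
    exact h2.and (h3.and (h1.eventually (gt_mem_nhds hlt)))
  obtain ⟨ρ', hρ', hsub⟩ := Metric.eventually_nhds_iff_ball.1 hev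
  refine ⟨ρ', hρ', fun t => Gf p r (Hf p r (g t)), ?_, ?_, ?_⟩
  · refine (Gf_diff hp hr).comp (hHg.mono fun t ht => (hsub t ht).1) fun t ht => (hsub t ht).2.1
  · intro t ht hht
    show Gf p r (Hf p r (g t)) = W t
    rw [← heq t (hsub t ht).1 hht]
    exact Gf_Hf hp hr (hW.up t hht)
  · intro t ht
    have h1 := Gf_mem hp hr (hsub t ht).2.1
    refine ⟨h1.1, ?_⟩
    show |(Hf p r (Gf p r (Hf p r (g t)))).im| < p * π
    rw [h1.2]
    exact (hsub t ht).2.2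

end VLaux

section VL
variable {p r c D ε R h : ℝ} {V W : ℂ → ℂ}

theorem PExt.local (hp : 0 < p) (hpr : p < r) (hD : 0 < D)
    (hc : (ε = 1 ∧ 0 ≤ c) ∨ (ε = -1 ∧ c = -r)) (hV : SHM p r c D ε R V) (hh : 0 < h)
    (hW : PExt p r V h W) {t₁ : ℂ} (ht₁ : t₁.im = h) :
    ∃ ρ > 0, ∃ W1 : ℂ → ℂ, DifferentiableOn ℂ W1 (ball t₁ ρ) ∧
      (∀ t ∈ ball t₁ ρ, h < t.im → W1 t = W t) ∧
      (∀ t ∈ ball t₁ ρ, W1 t ∈ UP ∧ |(Hf p r (W1 t)).im| < p * π) := by
  have hε : ε * ε = 1 := by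
    rcases hc with ⟨h1, -⟩ | ⟨h1, -⟩ <;> rw [h1] <;> norm_num
  have hεa : |ε| = 1 := by
    rcases hc with ⟨h1, -⟩ | ⟨h1, -⟩ <;> rw [h1] <;> norm_num
  obtain ⟨R2, hR2⟩ := VLaux.Good.far hp (hp.trans hpr) hD hV hh hW
  have key : ∀ n : ℕ, ∀ t : ℂ, t.im = h → ε * t.re < -R2 + n → VLaux.Good p r h W t := by
    intro n
    induction n with
    | zero =>
      intro t ht hn
      refine hR2 t ht ?_
      have h1 : R2 < |ε * t.re| := by
        refine lt_of_lt_of_le ?_ (neg_le_abs _)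
        simp only [Nat.cast_zero, add_zero] at hn
        linarith
      rw [abs_mul, hεa, one_mul] at h1
      exact h1.trans_le (abs_re_le_norm t)
    | succ n ih =>
      intro t ht hn
      refine VLaux.Good.step hp hpr hD hc hV hh hW ht (ih (t - ε) (by simpa using ht) ?_)
      have h1 : (t - (ε : ℂ)).re = t.re - ε := by simp
      rw [h1, mul_sub, hε]
      push_cast at hn
      linarith
  obtain ⟨n, hn⟩ := exists_nat_gt (ε * t₁.re + R2)
  exact key n t₁ ht₁ (by linarith)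
end VL

end Pool.Agent.MP_ae5b4e_an_ALG
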