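import Mathlib
import Pool.Agent.Lib.MP_ae5b4e_an_ALG.Defs
import Pool.Agent.Lib.MP_ae5b4e_an_ALG.Local
import Pool.Agent.Lib.MP_ae5b4e_an_ALG.Glue

/-!
# MP_ae5b4e_an, project ALG, module VN: the extension to the upper half plane
-/

set_option autoImplicit false

noncomputable section

namespace Pool.Agent.MP_ae5b4e_an_ALG

open Filter Topology Set Metric Complex
open scoped Real

section VN

variable {p r c D ε R h : ℝ} {V W : ℂ → ℂ}

namespace ExtB

theorem mono {h' : ℝ} (hh : h ≤ h') (hW : PExt p r V h W) : PExt p r V h' W := by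
  obtain ⟨R', hR'⟩ := hW.far
  exact ⟨hW.diff.mono fun t ht => lt_of_le_of_lt hh ht, fun t ht => hW.up t (lt_of_le_of_lt hh ht),
    fun t ht => hW.strip t (lt_of_le_of_lt hh ht),
    R', fun t ht hR => hR' t (lt_of_le_of_lt hh ht) hR⟩

theorem isOpen_half (h : ℝ) : IsOpen {t : ℂ | h < t.im} :=
  isOpen_lt continuous_const continuous_im

theorem start (hp : 0 < p) (hr : 0 < r) (hD : 0 < D) (hV : SHM p r c D ε R V) :
    ∃ h > 0, PExt p r V h V := by
  obtain ⟨R1, hR1, h1, h2, -⟩ := hV.far hp hr hD 0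
  have hR := hV.R_pos
  have key : ∀ t : ℂ, R1 < t.im → R1 < ‖t‖ := fun t ht =>
    lt_of_lt_of_le ht ((le_abs_self _).trans (abs_im_le_norm t))
  refine ⟨R1, hR.trans hR1, ?_, ?_, ?_, 0, fun t _ _ => rfl⟩
  · intro t ht
    exact (hV.diff t (hR1.trans (key t ht))).differentiableWithinAt
  · intro t ht
    refine h2 t (key t ht) ?_
    show 0 < t.im
    have : R1 < t.im := ht
    linarith
  · intro t ht
    exact (h1 t (key t ht)).2.2.2

end ExtB

open ExtB in
theorem PExt.inf (hV : SHM p r c D ε R V) (hh : 0 ≤ h) (h0 : ∀ h' > h, ∃ W, PExt p r V h' W) :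
    ∃ W, PExt p r V h W := by
  choose W hW using h0
  let m : ℂ → ℝ := fun t => (h + t.im) / 2
  let Wt : ℂ → ℂ := fun t => if ht : h < t.im then W (m t) (by
    show h < (h + t.im) / 2
    linarith) t else 0
  have hm1 : ∀ t : ℂ, h < t.im → h < m t := fun t ht => by
    show h < (h + t.im) / 2
    linarith
  have hm2 : ∀ t : ℂ, h < t.im → m t < t.im := fun t ht => by
    show (h + t.im) / 2 < t.im
    linarith
  have hWt : ∀ (t : ℂ) (ht : h < t.im), Wt t = W (m t) (hm1 t ht) t := fun t ht => dif_pos ht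
  have key : ∀ (h' : ℝ) (hh' : h' > h) (t : ℂ), h' < t.im → Wt t = W h' hh' t := by
    intro h' hh' t ht
    have ht' : h < t.im := lt_trans hh' ht
    rw [hWt t ht']
    exact PExt.unique hV (hW _ (hm1 t ht')) (hW h' hh') (hm2 t ht') ht
  refine ⟨Wt, ?_, ?_, ?_, 2 * R, ?_⟩
  · intro t ht
    have ht' : h < t.im := ht
    have h1 : {s : ℂ | m t < s.im} ∈ 𝓝 t := (isOpen_half (m t)).mem_nhds (hm2 t ht')
    have h2 : DifferentiableAt ℂ (W (m t) (hm1 t ht')) t :=
      ((hW _ (hm1 t ht')).diff t (hm2 t ht')).differentiableAt h1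
    have h3 : Wt =ᶠ[𝓝 t] W (m t) (hm1 t ht') := by
      filter_upwards [h1] with s hs
      exact key _ (hm1 t ht') s hs
    exact (h3.differentiableAt_iff.2 h2).differentiableWithinAt
  · intro t ht
    rw [hWt t ht]
    exact (hW _ (hm1 t ht)).up t (hm2 t ht)
  · intro t ht
    rw [hWt t ht]
    exact (hW _ (hm1 t ht)).strip t (hm2 t ht)
  · intro t ht hR
    rw [hWt t ht]
    exact PExt.far_eq hV (hh.trans (hm1 t ht).le) (hW _ (hm1 t ht)) t (hm2 t ht) hR

open ExtB in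
theorem exists_ext (hp : 0 < p) (hpr : p < r) (hD : 0 < D)
    (hc : (ε = 1 ∧ 0 ≤ c) ∨ (ε = -1 ∧ c = -r)) (hV : SHM p r c D ε R V) :
    ∃ W, Ext p r c ε V W := by
  have hr : 0 < r := hp.trans hpr
  let S : Set ℝ := {h | 0 < h ∧ ∃ W, PExt p r V h W}
  obtain ⟨h₁, hh₁, hh₂⟩ := start hp hr hD hV
  have hne : S.Nonempty := ⟨h₁, hh₁, V, hh₂⟩
  have hbdd : BddBelow S := ⟨0, fun x hx => hx.1.le⟩
  have h0 : 0 ≤ sInf S := le_csInf hne fun x hx => hx.1.le
  have hab : ∀ h' > sInf S, ∃ W, PExt p r V h' W := by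
    intro h' hh'
    obtain ⟨s, ⟨_, W, hW⟩, hs⟩ := exists_lt_of_csInf_lt hne hh'
    exact ⟨W, mono hs.le hW⟩
  obtain ⟨W, hW⟩ := PExt.inf hV h0 hab
  have hzero : sInf S = 0 := by
    by_contra hpos
    have hpos : 0 < sInf S := lt_of_le_of_ne h0 (Ne.symm hpos)
    obtain ⟨δ, hδ, W', hW'⟩ := PExt.glue hp hr hD hV hpos hW fun t₁ ht₁ =>
      PExt.local hp hpr hD hc hV hpos hW ht₁
    have h2 : max (sInf S - δ) (sInf S / 2) ∈ S :=
      ⟨lt_max_of_lt_right (by linarith), W', mono (le_max_left _ _) hW'⟩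
    have h3 := csInf_le hbdd h2
    have h4 : max (sInf S - δ) (sInf S / 2) < sInf S := max_lt (by linarith) (by linarith)
    linarith
  rw [hzero] at hW
  obtain ⟨hs0, hstep⟩ := PExt.symm hp hr hV hW le_rfl
  exact ⟨W, hW.diff, hW.up, hW.strip, hW.far, hs0, hstep⟩

end VN

end Pool.Agent.MP_ae5b4e_an_ALG
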