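import Mathlib
import Pool.Agent.Lib.MP_ae5b4e_an_ALG.Defs

/-!
# MP_ae5b4e_an, algebraic tables: module XH (the jets at the end of the chain)
-/

set_option autoImplicit false

noncomputable section

namespace Pool.Agent.MP_ae5b4e_an_ALG

open Filter Topology Set Metric Complex
open scoped Real

namespace FEnd

theorem neBot : (𝓝[UP] (0 : ℂ)).NeBot := by
  rw [← mem_closure_iff_nhdsWithin_neBot]
  have h : closure {z : ℂ | 0 < z.im} = {z | 0 ≤ z.im} := Complex.closure_setOfPred_lt_im 0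
  change (0 : ℂ) ∈ closure {z : ℂ | 0 < z.im}
  rw [h]
  simp

/-- `τ ↦ -conj τ` -/
theorem tend_s : Tendsto (fun τ : ℂ => -(starRingEnd ℂ) τ) (𝓝[UP] 0) (𝓝[UP] 0) := by
  refine tendsto_nhdsWithin_iff.2 ⟨?_, ?_⟩
  · have h : Continuous (fun τ : ℂ => -(starRingEnd ℂ) τ) := by fun_prop
    have := h.tendsto 0
    simp only [map_zero, neg_zero] at this
    exact this.mono_left nhdsWithin_le_nhds
  · filter_upwards [self_mem_nhdsWithin] with τ hτ
    change 0 < (-(starRingEnd ℂ) τ).im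
    have : 0 < τ.im := hτ
    simpa using this

theorem tend_cpow {α : Type*} {l : Filter α} {f : α → ℂ} (hf : Tendsto f l (𝓝 0)) {x : ℝ}
    (hx : 0 < x) : Tendsto (fun a => f a ^ (x : ℂ)) l (𝓝 0) := by
  rw [tendsto_zero_iff_norm_tendsto_zero]
  have h1 : Tendsto (fun a => ‖f a‖ ^ x) l (𝓝 (0 ^ x)) := by
    refine Tendsto.rpow_const ?_ (Or.inr hx.le)
    simpa using hf.norm
  rw [Real.zero_rpow hx.ne'] at h1
  refine h1.congr fun a => ?_
  rw [Complex.norm_cpow_real]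

/-- the logarithm on the other side of the cut -/
theorem cpow_neg {a u : ℂ} (ha : a.im < 0) (hu : |u.arg| < π / 2) (hu0 : u ≠ 0)
    (hb : 0 < (-a * u).im) (x : ℝ) :
    (-a * u) ^ (x : ℂ) = Complex.exp ((π * x : ℝ) * I) * a ^ (x : ℂ) * u ^ (x : ℂ) := by
  have ha0 : a ≠ 0 := by
    rintro rfl
    simp at ha
  have hna : -a ≠ 0 := neg_ne_zero.2 ha0
  have h1 : (-a).arg = a.arg + π := Complex.arg_neg_eq_arg_add_pi_of_im_neg ha
  have h2 : 0 < (-a).arg := by
    rw [h1]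
    linarith [Complex.neg_pi_lt_arg a]
  have h3 : (-a).arg < π := by
    rw [h1]
    have := Complex.arg_neg_iff.2 ha
    linarith
  have hab := abs_lt.1 hu
  have hsum : (-a).arg + u.arg ∈ Ioc (-π) π := by
    refine ⟨by linarith [Real.pi_pos], ?_⟩
    by_contra hcon
    have hcon' : π < (-a).arg + u.arg := not_le.1 hcon
    have h4 : (-a * u).im = ‖-a‖ * ‖u‖ * Real.sin ((-a).arg + u.arg) := by
      conv_lhs => rw [← Complex.norm_mul_exp_arg_mul_I (-a), ← Complex.norm_mul_exp_arg_mul_I u]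
      rw [show (‖-a‖ : ℂ) * Complex.exp ((-a).arg * I) * (‖u‖ * Complex.exp (u.arg * I)) =
        ((‖-a‖ * ‖u‖ : ℝ) : ℂ) * Complex.exp ((((-a).arg + u.arg : ℝ) : ℂ) * I) by
          rw [show ((((-a).arg + u.arg : ℝ) : ℂ) * I) = (-a).arg * I + u.arg * I by
            push_cast; ring, Complex.exp_add]
          push_cast
          ring]
      rw [Complex.im_ofReal_mul, Complex.exp_ofReal_mul_I_im]
    have h5 : Real.sin ((-a).arg + u.arg) < 0 := by
      have h6 : Real.sin ((-a).arg + u.arg - π) = -Real.sin ((-a).arg + u.arg) :=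
        Real.sin_sub_pi _
      have h7 : 0 < Real.sin ((-a).arg + u.arg - π) :=
        Real.sin_pos_of_pos_of_lt_pi (by linarith) (by linarith [Real.pi_pos])
      linarith
    have h8 : 0 < ‖-a‖ * ‖u‖ := mul_pos (norm_pos_iff.2 hna) (norm_pos_iff.2 hu0)
    have h9 := mul_neg_of_pos_of_neg h8 h5
    linarith
  have h5 : Complex.log (-a * u) = Complex.log (-a) + Complex.log u :=
    (Complex.log_mul_eq_add_log_iff hna hu0).2 hsum
  have h6 : Complex.log (-a) = Complex.log a + π * I := by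
    rw [Complex.log, Complex.log, h1, norm_neg]
    push_cast
    ring
  rw [Complex.cpow_def_of_ne_zero (mul_ne_zero hna hu0), Complex.cpow_def_of_ne_zero ha0,
    Complex.cpow_def_of_ne_zero hu0, h5, h6, ← Complex.exp_add, ← Complex.exp_add]
  congr 1
  push_cast
  ring

theorem ana_dslope {f : ℂ → ℂ} (hf : AnalyticAt ℂ f 0) : AnalyticAt ℂ (dslope f 0) 0 := by
  obtain ⟨q, hq⟩ := hf
  exact ⟨_, hq.has_fpower_series_dslope_fslope⟩

theorem eq_dslope (f : ℂ → ℂ) (z : ℂ) : f z = f 0 + z * dslope f 0 z := by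
  have := sub_smul_dslope f 0 z
  rw [sub_zero, smul_eq_mul] at this
  rw [this]
  ring

/-- an analytic function which is `o(η ^ 2)` along a filter vanishes to the third order -/
theorem jets {α : Type*} {l : Filter α} [l.NeBot] {G : ℂ → ℂ} (hG : AnalyticAt ℂ G 0)
    {η : α → ℂ} (hη : Tendsto η l (𝓝 0)) (h0 : ∀ᶠ a in l, η a ≠ 0)
    (h : Tendsto (fun a => G (η a) / η a ^ 2) l (𝓝 0)) :
    G 0 = 0 ∧ deriv G 0 = 0 ∧ deriv (deriv G) 0 = 0 := by
  have e0 : G 0 = 0 := by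
    have h1 : Tendsto (fun a => G (η a)) l (𝓝 (G 0)) := hG.continuousAt.tendsto.comp hη
    have h2 : Tendsto (fun a => G (η a) / η a ^ 2 * η a ^ 2) l (𝓝 (0 * 0 ^ 2)) :=
      h.mul (hη.pow 2)
    have h3 : Tendsto (fun a => G (η a)) l (𝓝 0) := by
      refine (h2.congr' ?_).trans_eq ?_
      · filter_upwards [h0] with a ha
        field_simp
      · simp
    exact tendsto_nhds_unique h1 h3
  set G1 := dslope G 0 with hG1
  have a1 : AnalyticAt ℂ G1 0 := ana_dslope hG
  have e1 : G1 0 = 0 := by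
    have h1 : Tendsto (fun a => G1 (η a)) l (𝓝 (G1 0)) := a1.continuousAt.tendsto.comp hη
    have h2 : Tendsto (fun a => G (η a) / η a ^ 2 * η a) l (𝓝 (0 * 0)) := h.mul hη
    have h3 : Tendsto (fun a => G1 (η a)) l (𝓝 0) := by
      refine (h2.congr' ?_).trans_eq ?_
      · filter_upwards [h0] with a ha
        rw [eq_dslope G (η a), e0]
        field_simp
        ring
      · simp
    exact tendsto_nhds_unique h1 h3
  set G2 := dslope G1 0 with hG2
  have a2 : AnalyticAt ℂ G2 0 := ana_dslope a1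
  have hGG : ∀ z, G z = z ^ 2 * G2 z := by
    intro z
    rw [eq_dslope G z, e0, ← hG1, eq_dslope G1 z, e1, ← hG2]
    ring
  have e2 : G2 0 = 0 := by
    have h1 : Tendsto (fun a => G2 (η a)) l (𝓝 (G2 0)) := a2.continuousAt.tendsto.comp hη
    have h3 : Tendsto (fun a => G2 (η a)) l (𝓝 0) := by
      refine h.congr' ?_
      filter_upwards [h0] with a ha
      rw [hGG (η a)]
      field_simp
    exact tendsto_nhds_unique h1 h3
  have e3 : deriv G 0 = 0 := by
    rw [← dslope_same G 0, ← hG1]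
    exact e1
  refine ⟨e0, e3, ?_⟩
  have hd : deriv G =ᶠ[𝓝 0] fun z => 2 * z * G2 z + z ^ 2 * deriv G2 z := by
    filter_upwards [a2.eventually_analyticAt] with z hz
    have h1 : HasDerivAt (fun z => z ^ 2 * G2 z) (2 * z * G2 z + z ^ 2 * deriv G2 z) z := by
      have := ((hasDerivAt_pow 2 z).mul hz.differentiableAt.hasDerivAt)
      refine this.congr_deriv ?_
      simp
    have h2 : G = fun z => z ^ 2 * G2 z := funext hGG
    rw [h2]
    exact h1.deriv
  rw [hd.deriv_eq]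
  have a3 : AnalyticAt ℂ (deriv G2) 0 := a2.deriv
  have h1 : HasDerivAt (fun z : ℂ => 2 * z) 2 0 := by
    simpa using (hasDerivAt_id (0:ℂ)).const_mul 2
  have h2 := (h1.mul a2.differentiableAt.hasDerivAt).add
    ((hasDerivAt_pow 2 (0:ℂ)).mul a3.differentiableAt.hasDerivAt)
  have h3 := h2.deriv
  refine Eq.trans ?_ (h3.trans ?_)
  · rfl
  · rw [e2]
    simp

end FEnd

/-- the jets at the end -/
theorem F_end {p r : ℝ} {W : ℂ → ℂ} (hp : 0 < p) (hpr : p < r) {t0 : ℝ} {y φ : ℂ → ℂ}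
    (h : XD p r W t0 y φ) {n : ℕ}
    {F : ℂ → ℂ} (hF : AnalyticAt ℂ F 0) (ht0 : t0 = -(n / 2 : ℝ))
    (hs : ∀ t ∈ UP, W (-(starRingEnd ℂ) t) = -(starRingEnd ℂ) (W t))
    (hFW : ∀ᶠ τ in 𝓝[UP] (0:ℂ), W (t0 + n + τ) = F (y τ ^ ((p / r : ℝ) : ℂ))) :
    F 0 = p ∧ deriv F 0 = -Complex.exp ((π * (p / r) : ℝ) * I) * deriv φ 0 ∧
      deriv (deriv F) 0 = -Complex.exp ((π * (p / r) : ℝ) * I) ^ 2 * deriv (deriv φ) 0 := by
  have hr : 0 < r := hp.trans hpr
  set x : ℝ := p / r with hx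
  have hx0 : 0 < x := div_pos hp hr
  have hx1 : x < 1 := (div_lt_one hr).2 hpr
  set D : ℂ := Complex.exp ((π * x : ℝ) * I) with hD
  have := FEnd.neBot
  obtain ⟨κ, hκ, hyκ⟩ := h.y_der
  -- the quotient
  set q := dslope y 0 with hq
  have aq : AnalyticAt ℂ q 0 := FEnd.ana_dslope h.y_ana
  have eq0 : q 0 = -κ := by rw [hq, dslope_same, hyκ]
  have ey : ∀ τ, y τ = τ * q τ := by
    intro τ
    rw [FEnd.eq_dslope y τ, h.y_zero, zero_add]
  have hq0 : q 0 ≠ 0 := by
    rw [eq0]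
    simpa using hκ.ne'
  set u : ℂ → ℂ := fun τ => q (-τ) / q τ with hu
  have aqn : AnalyticAt ℂ (fun τ => q (-τ)) 0 := by
    have h1 : AnalyticAt ℂ (fun τ : ℂ => -τ) 0 := by fun_prop
    have h2 : AnalyticAt ℂ q ((fun τ : ℂ => -τ) 0) := by simpa using aq
    exact h2.comp h1
  have au : AnalyticAt ℂ u 0 := aqn.div aq hq0
  have u0 : u 0 = 1 := by
    simp only [hu, neg_zero]
    exact div_self hq0
  set U : ℂ → ℂ := fun τ => u τ ^ (x : ℂ) with hU
  have aU : AnalyticAt ℂ U 0 := by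
    refine au.cpow analyticAt_const ?_
    rw [u0]
    exact Complex.one_mem_slitPlane
  have U0 : U 0 = 1 := by simp [hU, u0]
  -- limits
  have ly : Tendsto y (𝓝[UP] 0) (𝓝 0) := by
    have := h.y_ana.continuousAt.tendsto
    rw [h.y_zero] at this
    exact this.mono_left nhdsWithin_le_nhds
  have lη : Tendsto (fun τ => y τ ^ (x : ℂ)) (𝓝[UP] 0) (𝓝 0) := FEnd.tend_cpow ly hx0
  have lys : Tendsto (fun τ => y (-(starRingEnd ℂ) τ)) (𝓝[UP] 0) (𝓝 0) := ly.comp FEnd.tend_s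
  have lηs : Tendsto (fun τ => y (-(starRingEnd ℂ) τ) ^ (x : ℂ)) (𝓝[UP] 0) (𝓝 0) :=
    FEnd.tend_cpow lys hx0
  have lu : Tendsto u (𝓝[UP] 0) (𝓝 1) := by
    have := au.continuousAt.tendsto
    rw [u0] at this
    exact this.mono_left nhdsWithin_le_nhds
  -- the key identity
  have key : ∀ᶠ τ in 𝓝[UP] (0:ℂ), y τ ^ (x : ℂ) ≠ 0 ∧
      F (y τ ^ (x : ℂ)) = -φ (D * y τ ^ (x : ℂ) * U τ) := by
    have hUP : ∀ᶠ τ in 𝓝[UP] (0:ℂ), τ ∈ UP := self_mem_nhdsWithin
    have hreal : ∀ᶠ τ in 𝓝[UP] (0:ℂ), y (-τ) = (starRingEnd ℂ) (y (-(starRingEnd ℂ) τ)) := by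
      have h1 := (FEnd.tend_s.mono_right nhdsWithin_le_nhds).eventually h.y_real
      filter_upwards [h1] with τ hτ
      rw [← hτ]
      simp
    have hφ : ∀ᶠ τ in 𝓝[UP] (0:ℂ), φ ((starRingEnd ℂ) (y (-(starRingEnd ℂ) τ) ^ (x : ℂ))) =
        (starRingEnd ℂ) (φ (y (-(starRingEnd ℂ) τ) ^ (x : ℂ))) := lηs.eventually h.φ_real
    have harg : ∀ᶠ τ in 𝓝[UP] (0:ℂ), |(u τ).arg| < π / 2 ∧ u τ ≠ 0 := by
      have h1 : Tendsto (fun τ => |(u τ).arg|) (𝓝[UP] 0) (𝓝 |(1:ℂ).arg|) :=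
        ((Complex.continuousAt_arg Complex.one_mem_slitPlane).tendsto.comp lu).abs
      rw [Complex.arg_one, abs_zero] at h1
      exact (h1.eventually_lt_const (by positivity)).and
        (lu.eventually_ne one_ne_zero)
    have hqn : ∀ᶠ τ in 𝓝[UP] (0:ℂ), q τ ≠ 0 :=
      (aq.continuousAt.eventually_ne hq0).filter_mono nhdsWithin_le_nhds
    filter_upwards [hUP, h.eq, FEnd.tend_s.eventually h.eq, hreal, hφ, harg, hqn, hFW]
      with τ h1 h2 h3 h4 h5 h6 h7 h8
    have hyne : y τ ≠ 0 := by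
      intro h0
      rw [h0] at h2
      simp at h2
    refine ⟨?_, ?_⟩
    · rw [Ne, Complex.cpow_eq_zero_iff]
      tauto
    · have hyn : y (-τ) = -y τ * u τ := by
        rw [ey (-τ), ey τ, hu]
        field_simp
      have him : 0 < (-y τ * u τ).im := by
        rw [← hyn, h4]
        simpa using h3.1
      rw [← h8]
      have e1 : (t0 : ℂ) + n + τ = -(starRingEnd ℂ) (t0 + -(starRingEnd ℂ) τ) := by
        rw [map_add, Complex.conj_ofReal, map_neg, Complex.conj_conj, ht0]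
        push_cast
        ring
      have e2 : (t0 : ℂ) + -(starRingEnd ℂ) τ ∈ UP := by
        change 0 < ((t0 : ℂ) + -(starRingEnd ℂ) τ).im
        have : 0 < τ.im := h1
        simpa using this
      rw [e1, hs _ e2, h3.2, ← h5]
      congr 2
      have e3 : (y (-(starRingEnd ℂ) τ)).arg ≠ π := by
        have := Complex.arg_neg_iff.2 h3.1
        have := Real.pi_pos
        linarith
      have e4 := Complex.conj_cpow (y (-(starRingEnd ℂ) τ)) (x : ℂ) e3
      rw [Complex.conj_ofReal] at e4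
      rw [← e4, ← h4, hyn]
      exact FEnd.cpow_neg h2.1 h6.1 h6.2 him x
  set η : ℂ → ℂ := fun τ => y τ ^ (x : ℂ) with hη
  set G : ℂ → ℂ := fun z => F z + φ (D * z) with hG
  have aφD : AnalyticAt ℂ (fun z => φ (D * z)) 0 := by
    have h1 : AnalyticAt ℂ (fun z : ℂ => D * z) 0 := by fun_prop
    have h2 : AnalyticAt ℂ φ ((fun z : ℂ => D * z) 0) := by simpa using h.φ_ana
    exact h2.comp h1
  have aG : AnalyticAt ℂ G 0 := hF.add aφD
  have lU : Tendsto U (𝓝[UP] 0) (𝓝 1) := by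
    have := aU.continuousAt.tendsto
    rw [U0] at this
    exact this.mono_left nhdsWithin_le_nhds
  have b1 : (fun τ => φ (D * η τ) - φ (D * η τ * U τ)) =O[𝓝[UP] 0]
      fun τ => D * η τ - D * η τ * U τ := by
    have h1 := h.φ_ana.hasStrictFDerivAt.isBigO_sub
    have h2 : Tendsto (fun τ => D * η τ) (𝓝[UP] 0) (𝓝 0) := by simpa using lη.const_mul D
    have h3 : Tendsto (fun τ => D * η τ * U τ) (𝓝[UP] 0) (𝓝 0) := by simpa using h2.mul lU
    have h4 : Tendsto (fun τ => (D * η τ, D * η τ * U τ)) (𝓝[UP] 0) (𝓝 ((0:ℂ), (0:ℂ))) := by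
      rw [nhds_prod_eq]
      exact h2.prodMk h3
    exact h1.comp_tendsto h4
  have b2 : (fun τ => U τ - 1) =O[𝓝[UP] 0] fun τ => τ := by
    have h1 := aU.differentiableAt.isBigO_sub
    rw [U0] at h1
    simp only [sub_zero] at h1
    exact h1.mono nhdsWithin_le_nhds
  have b3 : (fun τ : ℂ => τ) =O[𝓝[UP] 0] y := by
    have h1 : Tendsto (fun τ => (q τ)⁻¹) (𝓝[UP] 0) (𝓝 (q 0)⁻¹) :=
      (aq.continuousAt.tendsto.inv₀ hq0).mono_left nhdsWithin_le_nhds
    have h2 : (fun τ => y τ * (q τ)⁻¹) =O[𝓝[UP] 0] fun τ => y τ * 1 :=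
      (Asymptotics.isBigO_refl y _).mul (h1.isBigO_one ℂ)
    have hqn : ∀ᶠ τ in 𝓝[UP] (0:ℂ), q τ ≠ 0 :=
      (aq.continuousAt.eventually_ne hq0).filter_mono nhdsWithin_le_nhds
    refine Asymptotics.IsBigO.congr' h2 ?_ ?_
    · filter_upwards [hqn] with τ hτ
      rw [ey τ]
      field_simp
    · exact Eventually.of_forall fun τ => mul_one _
  have b4 : (fun τ => G (η τ)) =O[𝓝[UP] 0] fun τ => η τ * y τ := by
    have h1 : (fun τ => D * η τ - D * η τ * U τ) =O[𝓝[UP] 0] fun τ => η τ * y τ := by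
      have h2 : (fun τ => (-D) * (η τ * (U τ - 1))) =O[𝓝[UP] 0] fun τ => η τ * y τ :=
        ((Asymptotics.isBigO_refl η _).mul (b2.trans b3)).const_mul_left _
      refine h2.congr_left fun τ => ?_
      ring
    refine Asymptotics.IsBigO.congr' (b1.trans h1) ?_ (EventuallyEq.refl _ _)
    filter_upwards [key] with τ hτ
    simp only [hG, hη]
    rw [hτ.2]
    ring
  have b5 : (fun τ => G (η τ) / η τ ^ 2) =O[𝓝[UP] 0] fun τ => y τ / η τ := by
    have h1 := b4.mul (Asymptotics.isBigO_refl (fun τ => (η τ ^ 2)⁻¹) (𝓝[UP] 0))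
    refine Asymptotics.IsBigO.congr' h1 ?_ ?_
    · exact Eventually.of_forall fun τ => (div_eq_mul_inv _ _).symm
    · filter_upwards [key] with τ hτ
      have : η τ ≠ 0 := hτ.1
      field_simp
  have l6 : Tendsto (fun τ => y τ / η τ) (𝓝[UP] 0) (𝓝 0) := by
    rw [tendsto_zero_iff_norm_tendsto_zero]
    have h1 : Tendsto (fun τ => ‖y τ‖ ^ (1 - x)) (𝓝[UP] 0) (𝓝 (0 ^ (1 - x))) := by
      refine Tendsto.rpow_const ?_ (Or.inr (by linarith))
      simpa using ly.norm
    rw [Real.zero_rpow (by linarith)] at h1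
    refine h1.congr' ?_
    filter_upwards [key] with τ hτ
    have hyne : y τ ≠ 0 := by
      intro h0
      apply hτ.1
      rw [h0, Complex.cpow_eq_zero_iff]
      exact ⟨rfl, by simpa using hx0.ne'⟩
    rw [Real.rpow_sub (norm_pos_iff.2 hyne), Real.rpow_one, norm_div]
    simp only [hη]
    rw [Complex.norm_cpow_real]
  have l7 : Tendsto (fun τ => G (η τ) / η τ ^ 2) (𝓝[UP] 0) (𝓝 0) := b5.trans_tendsto l6
  obtain ⟨g0, g1, g2⟩ := FEnd.jets aG lη (key.mono fun τ hτ => hτ.1) l7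
  have hφd : ∀ z, deriv (fun z => φ (D * z)) z = D * deriv φ (D * z) := by
    intro z
    rw [deriv_comp_mul_left D φ z, smul_eq_mul]
  refine ⟨?_, ?_, ?_⟩
  · have h1 : F 0 + φ (D * 0) = 0 := g0
    rw [mul_zero, h.φ_zero] at h1
    linear_combination h1
  · have h1 : deriv G 0 = deriv F 0 + deriv (fun z => φ (D * z)) 0 :=
      deriv_add hF.differentiableAt aφD.differentiableAt
    rw [g1, hφd, mul_zero] at h1
    linear_combination -h1
  · have h1 : deriv G =ᶠ[𝓝 0] fun z => deriv F z + D * deriv φ (D * z) := by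
      filter_upwards [hF.eventually_analyticAt, aφD.eventually_analyticAt] with z h2 h3
      rw [← hφd]
      exact deriv_add h2.differentiableAt h3.differentiableAt
    have h2 := h1.deriv_eq
    have h3 : AnalyticAt ℂ (fun z => deriv φ (D * z)) 0 := by
      have h1 : AnalyticAt ℂ (fun z : ℂ => D * z) 0 := by fun_prop
      have h2 : AnalyticAt ℂ (deriv φ) ((fun z : ℂ => D * z) 0) := by simpa using h.φ_ana.deriv
      exact h2.comp h1
    have h4 : deriv (fun z => deriv F z + D * deriv φ (D * z)) 0 =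
        deriv (deriv F) 0 + D * (D * deriv (deriv φ) 0) := by
      have h5 : deriv (fun z => deriv φ (D * z)) 0 = D * deriv (deriv φ) 0 := by
        rw [deriv_comp_mul_left D (deriv φ) 0, smul_eq_mul, mul_zero]
      have h6 := ((hF.deriv.differentiableAt.hasDerivAt).add
        (h3.differentiableAt.hasDerivAt.const_mul D)).deriv
      rw [h5] at h6
      exact h6
    rw [g2, h4] at h2
    linear_combination -h2

end Pool.Agent.MP_ae5b4e_an_ALG
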