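import Mathlib
import Pool.Agent.Lib.MP_ae5b4e_an_ALG.DefsB

/-!
# MP_ae5b4e_an, algebraic tables, module RF: the first order of the slope function at a ramified
place
-/

set_option autoImplicit false

noncomputable section

namespace Pool.Agent.MP_ae5b4e_an_ALG

open Filter Topology Set Metric Complex Polynomial
open scoped Real

namespace RF

/-- `A(w) = 2 v(w) + w v'(w) / k` -/
def AA (k : ℕ) (v : ℂ → ℂ) (w : ℂ) : ℂ := 2 * v w + w * deriv v w / k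

theorem deriv_pow_mul {k : ℕ} (hk : 2 ≤ k) {v : ℂ → ℂ} {s : ℂ} (hv : DifferentiableAt ℂ v s) :
    s * deriv (fun w => w ^ (2 * k) * v w) s / k = s ^ (2 * k) * AA k v s := by
  have hk0 : (k : ℂ) ≠ 0 := by
    have : k ≠ 0 := by omega
    exact_mod_cast this
  have h := ((hasDerivAt_pow (2 * k) s).mul hv.hasDerivAt).deriv
  have h' : deriv (fun w => w ^ (2 * k) * v w) s
      = ((2 * k : ℕ) : ℂ) * s ^ (2 * k - 1) * v s + s ^ (2 * k) * deriv v s := h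
  have hs : s ^ (2 * k) = s ^ (2 * k - 1) * s := by
    rw [← pow_succ]
    congr 1
    omega
  rw [h', AA]
  push_cast
  rw [hs]
  field_simp

/-- the difference of `AA` under the rotation -/
theorem AA_diff {k l : ℕ} (hl : 0 < l) {om : ℂ}
    {v ψ : ℂ → ℂ} (hv : AnalyticAt ℂ v 0) (hψ : AnalyticAt ℂ ψ 0)
    (hd : ∀ᶠ w in 𝓝 (0:ℂ), v (om * w) - v w = w ^ l * ψ w) :
    ∀ᶠ w in 𝓝 (0:ℂ), AA k v (om * w) - AA k v w =
      w ^ l * ((2 + (l : ℂ) / k) * ψ w + w * deriv ψ w / k) := by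
  have hom : Tendsto (fun w : ℂ => om * w) (𝓝 0) (𝓝 0) := by
    have : ContinuousAt (fun w : ℂ => om * w) 0 := by fun_prop
    simpa [ContinuousAt] using this
  have hva : ∀ᶠ w in 𝓝 (0:ℂ), AnalyticAt ℂ v w := hv.eventually_analyticAt
  have hψa : ∀ᶠ w in 𝓝 (0:ℂ), AnalyticAt ℂ ψ w := hψ.eventually_analyticAt
  filter_upwards [hva, hψa, hom.eventually hva, hd.eventually_nhds, hd] with w h1 h2 h3 h4 h5
  have e : deriv (fun w => v (om * w) - v w) w = deriv (fun w => w ^ l * ψ w) w :=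
    Filter.EventuallyEq.deriv_eq h4
  have d1 : HasDerivAt (fun w => v (om * w) - v w) (deriv v (om * w) * om - deriv v w) w := by
    have a1 : HasDerivAt (fun w : ℂ => om * w) om w := by
      simpa using (hasDerivAt_id w).const_mul om
    exact (HasDerivAt.comp w h3.differentiableAt.hasDerivAt a1).sub
      h1.differentiableAt.hasDerivAt
  have d2 : HasDerivAt (fun w => w ^ l * ψ w) ((l : ℂ) * w ^ (l - 1) * ψ w + w ^ l * deriv ψ w) w :=
    (hasDerivAt_pow l w).mul h2.differentiableAt.hasDerivAt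
  rw [d1.deriv, d2.deriv] at e
  have hw : w ^ l = w ^ (l - 1) * w := by
    rw [← pow_succ]
    congr 1
    omega
  have e2 : om * w * deriv v (om * w) = w * deriv v w + l * w ^ l * ψ w
      + w ^ l * (w * deriv ψ w) := by
    have : om * w * deriv v (om * w) - w * deriv v w = w * (deriv v (om * w) * om - deriv v w) := by
      ring
    rw [e] at this
    rw [hw] at this ⊢
    linear_combination this
  have e3 : v (om * w) = v w + w ^ l * ψ w := by linear_combination h5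
  unfold AA
  rw [e2, e3]
  ring

end RF

open RF in
/-- the first order of `m` -/
theorem m_diff {k l : ℕ} (hk : 2 ≤ k) (hl : 0 < l) {om : ℂ} (hom : om ^ k = 1)
    {v ψ : ℂ → ℂ} (hv : AnalyticAt ℂ v 0) (hv0 : v 0 ≠ 0) (hψ : AnalyticAt ℂ ψ 0)
    (hd : ∀ᶠ w in 𝓝 (0:ℂ), v (om * w) - v w = w ^ l * ψ w) {m : ℂ × ℂ → ℂ}
    (hm : AnalyticAt ℂ m (0, 0)) (hm0 : ∀ᶠ ξ in 𝓝 (0:ℂ), m (0, ξ) = ξ / 2)
    (hrel : ∀ᶠ p in 𝓝 ((0, 0) : ℂ × ℂ), p.1 ≠ 0 → ∀ s, s = p.1 * (1 + p.2) ^ (1 / k : ℂ) →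
        p.2 * (s * deriv (fun w => w ^ (2 * k) * v w) s / k) / (1 + p.2) -
            (s ^ (2 * k) * v s - p.1 ^ (2 * k) * v p.1) =
          m p * ((s * deriv (fun w => w ^ (2 * k) * v w) s / k) / (1 + p.2) -
            p.1 * deriv (fun w => w ^ (2 * k) * v w) p.1 / k)) :
    ∀ᶠ ξ in 𝓝[≠] (0:ℂ),
      Tendsto (fun w => (m (om * w, ξ) - m (w, ξ)) / w ^ l) (𝓝[≠] (0:ℂ))
        (𝓝 (ψ 0 / (4 * v 0) * EE (2 + (l : ℝ) / k) ξ)) := by
  have hk0 : (k : ℂ) ≠ 0 := by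
    have : k ≠ 0 := by omega
    exact_mod_cast this
  have hkn : k ≠ 0 := by omega
  have hom0 : om ≠ 0 := by
    intro h
    rw [h, zero_pow hkn] at hom
    exact zero_ne_one hom
  -- the relation for fixed second coordinate
  have hrel2 : ∀ᶠ ξ in 𝓝 (0:ℂ), ∀ᶠ w in 𝓝 (0:ℂ), w ≠ 0 → ∀ s, s = w * (1 + ξ) ^ (1 / k : ℂ) →
        ξ * (s * deriv (fun w => w ^ (2 * k) * v w) s / k) / (1 + ξ) -
            (s ^ (2 * k) * v s - w ^ (2 * k) * v w) =
          m (w, ξ) * ((s * deriv (fun w => w ^ (2 * k) * v w) s / k) / (1 + ξ) -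
            w * deriv (fun w => w ^ (2 * k) * v w) w / k) := by
    have h := (continuous_swap.tendsto ((0 : ℂ), (0 : ℂ))).eventually hrel
    exact h.curry_nhds
  have hmc : ∀ᶠ ξ in 𝓝 (0:ℂ), AnalyticAt ℂ m (0, ξ) := by
    have hc : Tendsto (fun ξ : ℂ => ((0 : ℂ), ξ)) (𝓝 0) (𝓝 (0, 0)) := by
      have : Continuous (fun ξ : ℂ => ((0 : ℂ), ξ)) := by fun_prop
      exact this.tendsto 0
    exact hc.eventually hm.eventually_analyticAt
  have hball : ∀ᶠ ξ in 𝓝 (0:ℂ), ‖ξ‖ < 1 := by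
    have := Metric.ball_mem_nhds (0 : ℂ) one_pos
    filter_upwards [this] with ξ h
    simpa using h
  have hev := (hrel2.and (hmc.and (hball.and hm0)))
  filter_upwards [nhdsWithin_le_nhds hev, self_mem_nhdsWithin] with ξ ⟨h1, h2, h3, h4⟩ hξ
  have hξ0 : ξ ≠ 0 := hξ
  have h1ξ : 1 + ξ ≠ 0 := by
    intro h
    have : ξ = -1 := by linear_combination h
    rw [this] at h3
    simp at h3
  set u : ℂ := (1 + ξ) ^ (1 / k : ℂ) with hu
  have huk : u ^ k = 1 + ξ := by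
    rw [hu, one_div]
    exact Complex.cpow_nat_inv_pow _ hkn
  have hu2 : u ^ (2 * k) = (1 + ξ) ^ 2 := by
    rw [mul_comm, pow_mul, huk]
  have hu0 : u ≠ 0 := by
    intro h
    rw [h, zero_pow hkn] at huk
    exact h1ξ huk.symm
  set q : ℂ := u ^ l with hq
  -- tendsto facts
  have tmul : ∀ c : ℂ, Tendsto (fun w : ℂ => c * w) (𝓝 0) (𝓝 0) := by
    intro c
    have : ContinuousAt (fun w : ℂ => c * w) 0 := by fun_prop
    simpa [ContinuousAt] using this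
  have tu : Tendsto (fun w : ℂ => w * u) (𝓝 0) (𝓝 0) := by
    have := tmul u
    simpa [mul_comm] using this
  have hva : ∀ᶠ w in 𝓝 (0:ℂ), AnalyticAt ℂ v w := hv.eventually_analyticAt
  -- reduced relation
  have hred : ∀ᶠ w in 𝓝 (0:ℂ), w ≠ 0 →
      ξ * (1 + ξ) * AA k v (w * u) - ((1 + ξ) ^ 2 * v (w * u) - v w) =
        m (w, ξ) * ((1 + ξ) * AA k v (w * u) - AA k v w) := by
    filter_upwards [h1, hva, tu.eventually hva] with w a1 a2 a3 hw
    have e := a1 hw (w * u) rfl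
    rw [deriv_pow_mul hk a2.differentiableAt, deriv_pow_mul hk a3.differentiableAt] at e
    have hw2 : w ^ (2 * k) ≠ 0 := pow_ne_zero _ hw
    have hs : (w * u) ^ (2 * k) = w ^ (2 * k) * (1 + ξ) ^ 2 := by
      rw [mul_pow, hu2]
    rw [hs] at e
    apply mul_left_cancel₀ hw2
    have e' : ξ * (w ^ (2 * k) * (1 + ξ) ^ 2 * AA k v (w * u)) / (1 + ξ)
        = w ^ (2 * k) * (ξ * (1 + ξ) * AA k v (w * u)) := by
      field_simp
    have e'' : (w ^ (2 * k) * (1 + ξ) ^ 2 * AA k v (w * u)) / (1 + ξ)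
        = w ^ (2 * k) * ((1 + ξ) * AA k v (w * u)) := by
      field_simp
    rw [e', e''] at e
    linear_combination e
  have hAd : ∀ᶠ w in 𝓝 (0:ℂ), AA k v (om * w) - AA k v w =
      w ^ l * ((2 + (l : ℂ) / k) * ψ w + w * deriv ψ w / k) := AA_diff hl hv hψ hd
  set Φ : ℂ → ℂ := fun w => (2 + (l : ℂ) / k) * ψ w + w * deriv ψ w / k with hΦ
  -- continuity at 0
  have cv : Tendsto v (𝓝 0) (𝓝 (v 0)) := hv.continuousAt
  have cψ : Tendsto ψ (𝓝 0) (𝓝 (ψ 0)) := hψ.continuousAt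
  have cA : Tendsto (AA k v) (𝓝 0) (𝓝 (2 * v 0)) := by
    have h : ContinuousAt (fun w => 2 * v w + w * deriv v w / k) 0 := by
      have := hv.continuousAt
      have := hv.deriv.continuousAt
      fun_prop (disch := exact hk0)
    have h' := h.tendsto
    have hAA : AA k v = fun w => 2 * v w + w * deriv v w / k := rfl
    rw [hAA]
    simpa using h'
  have cΦ : Tendsto Φ (𝓝 0) (𝓝 ((2 + (l : ℂ) / k) * ψ 0)) := by
    have h : ContinuousAt (fun w => (2 + (l : ℂ) / k) * ψ w + w * deriv ψ w / k) 0 := by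
      have := hψ.continuousAt
      have := hψ.deriv.continuousAt
      fun_prop (disch := exact hk0)
    have h' := h.tendsto
    simpa [hΦ] using h'
  have cm : Tendsto (fun w : ℂ => m (w, ξ)) (𝓝 0) (𝓝 (ξ / 2)) := by
    rw [← h4]
    have c1 : Tendsto (fun w : ℂ => (w, ξ)) (𝓝 0) (𝓝 (0, ξ)) := by
      have : Continuous (fun w : ℂ => (w, ξ)) := by fun_prop
      exact this.tendsto 0
    exact h2.continuousAt.tendsto.comp c1
  have cD : Tendsto (fun w : ℂ => (1 + ξ) * AA k v (om * w * u) - AA k v (om * w)) (𝓝 0)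
      (𝓝 (2 * v 0 * ξ)) := by
    have t1 : Tendsto (fun w : ℂ => om * w * u) (𝓝 0) (𝓝 0) := by
      have := tmul (om * u)
      refine this.congr fun w => by ring
    have := ((cA.comp t1).const_mul (1 + ξ)).sub (cA.comp (tmul om))
    have e : (1 + ξ) * (2 * v 0) - 2 * v 0 = 2 * v 0 * ξ := by ring
    rw [e] at this
    exact this
  have hlim0 : 2 * v 0 * ξ ≠ 0 := by
    have : (2 : ℂ) ≠ 0 := two_ne_zero
    positivity
  have hDne : ∀ᶠ w in 𝓝 (0:ℂ), (1 + ξ) * AA k v (om * w * u) - AA k v (om * w) ≠ 0 :=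
    cD.eventually_ne hlim0
  -- the quotient
  have hG : ∀ᶠ w in 𝓝[≠] (0:ℂ), (m (om * w, ξ) - m (w, ξ)) / w ^ l =
      (ξ * (1 + ξ) * q * Φ (w * u) - (1 + ξ) ^ 2 * q * ψ (w * u) + ψ w -
        m (w, ξ) * ((1 + ξ) * q * Φ (w * u) - Φ w)) /
        ((1 + ξ) * AA k v (om * w * u) - AA k v (om * w)) := by
    have hN := hred.and (((tmul om).eventually hred).and (hAd.and ((tu.eventually hAd).and
      (hd.and ((tu.eventually hd).and hDne)))))
    filter_upwards [nhdsWithin_le_nhds hN, self_mem_nhdsWithin] with w ⟨a1, a2, a3, a4, a5, a6, a7⟩ hw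
    have hw0 : w ≠ 0 := hw
    have b1 := a1 hw0
    have b2 := a2 (mul_ne_zero hom0 hw0)
    have hwl : w ^ l ≠ 0 := pow_ne_zero _ hw0
    have hs : (w * u) ^ l = w ^ l * q := by rw [mul_pow]
    have hass : om * w * u = om * (w * u) := by ring
    rw [hass] at b2 a7 ⊢
    rw [hs] at a4 a6
    rw [div_eq_div_iff hwl a7]
    have c3 : AA k v (om * w) = AA k v w + w ^ l * Φ w := by
      simp only [hΦ]; linear_combination a3
    have c4 : AA k v (om * (w * u)) = AA k v (w * u) + w ^ l * q * Φ (w * u) := by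
      simp only [hΦ]; linear_combination a4
    have c5 : v (om * w) = v w + w ^ l * ψ w := by linear_combination a5
    have c6 : v (om * (w * u)) = v (w * u) + w ^ l * q * ψ (w * u) := by linear_combination a6
    rw [c3, c4, c5, c6] at b2
    rw [c3, c4]
    linear_combination (-1 : ℂ) * b2 + b1
  refine Tendsto.congr' (EventuallyEq.symm hG) ?_
  have tΦ := (cΦ.comp tu)
  have tψ := (cψ.comp tu)
  have key : Tendsto (fun w : ℂ => (ξ * (1 + ξ) * q * Φ (w * u) - (1 + ξ) ^ 2 * q * ψ (w * u) + ψ w -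
        m (w, ξ) * ((1 + ξ) * q * Φ (w * u) - Φ w)) /
        ((1 + ξ) * AA k v (om * w * u) - AA k v (om * w))) (𝓝 0)
      (𝓝 ((ξ * (1 + ξ) * q * ((2 + (l : ℂ) / k) * ψ 0) - (1 + ξ) ^ 2 * q * ψ 0 + ψ 0 -
        ξ / 2 * ((1 + ξ) * q * ((2 + (l : ℂ) / k) * ψ 0) - (2 + (l : ℂ) / k) * ψ 0)) /
        (2 * v 0 * ξ))) := by
    refine Tendsto.div ?_ cD hlim0
    refine Tendsto.sub (Tendsto.add (Tendsto.sub (tΦ.const_mul _) (tψ.const_mul _)) cψ) ?_
    exact cm.mul ((tΦ.const_mul _).sub cΦ)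
  have hfin : (ξ * (1 + ξ) * q * ((2 + (l : ℂ) / k) * ψ 0) - (1 + ξ) ^ 2 * q * ψ 0 + ψ 0 -
        ξ / 2 * ((1 + ξ) * q * ((2 + (l : ℂ) / k) * ψ 0) - (2 + (l : ℂ) / k) * ψ 0)) /
        (2 * v 0 * ξ) = ψ 0 / (4 * v 0) * EE (2 + (l : ℝ) / k) ξ := by
    have hql : q = (1 + ξ) ^ ((l : ℂ) / k) := by
      rw [hq, hu, ← Complex.cpow_nat_mul]
      congr 1
      field_simp
    have e1 : (1 + ξ) ^ (((2 + (l : ℝ) / k) - 1 : ℝ) : ℂ) = (1 + ξ) * q := by
      rw [hql]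
      have : (((2 + (l : ℝ) / k) - 1 : ℝ) : ℂ) = 1 + (l : ℂ) / k := by
        push_cast; ring
      rw [this, Complex.cpow_add _ _ h1ξ, Complex.cpow_one]
    have e2 : (1 + ξ) ^ ((2 + (l : ℝ) / k : ℝ) : ℂ) = (1 + ξ) ^ 2 * q := by
      rw [hql]
      have : ((2 + (l : ℝ) / k : ℝ) : ℂ) = ((2 : ℕ) : ℂ) + (l : ℂ) / k := by
        push_cast; ring
      rw [this, Complex.cpow_add _ _ h1ξ, Complex.cpow_natCast]
    unfold EE
    rw [e1, e2]
    push_cast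
    field_simp
    ring
  rw [← hfin]
  exact key.mono_left nhdsWithin_le_nhds

theorem EE_rhs (μ : ℝ) : ∀ᶠ ξ in 𝓝[≠] (0:ℂ),
    (μ - 1) * (EE μ ξ + EE μ (-ξ)) - ξ * deriv (fun ξ => EE μ ξ + EE μ (-ξ)) ξ =
      2 * rhsR (μ - 2) ξ := by
  have hball : ∀ᶠ ξ in 𝓝 (0:ℂ), ‖ξ‖ < 1 := by
    have := Metric.ball_mem_nhds (0 : ℂ) one_pos
    filter_upwards [this] with ξ h
    simpa using h
  filter_upwards [nhdsWithin_le_nhds hball, self_mem_nhdsWithin] with ξ h1 hξ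
  have hξ0 : ξ ≠ 0 := hξ
  have hre : |ξ.re| < 1 := lt_of_le_of_lt (Complex.abs_re_le_norm ξ) h1
  have hre' := abs_lt.1 hre
  have hP : 1 + ξ ∈ Complex.slitPlane := by
    left
    simp
    linarith [hre'.1]
  have hN : 1 + -ξ ∈ Complex.slitPlane := by
    left
    simp
    linarith [hre'.2]
  have hP0 : 1 + ξ ≠ 0 := Complex.slitPlane_ne_zero hP
  have hN0 : 1 + -ξ ≠ 0 := Complex.slitPlane_ne_zero hN
  set p : ℂ := (1 + ξ) ^ ((μ : ℂ) - 2) with hp
  set n : ℂ := (1 + -ξ) ^ ((μ : ℂ) - 2) with hn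
  have P1 : (1 + ξ) ^ ((μ : ℂ) - 1) = (1 + ξ) * p := by
    have : (μ : ℂ) - 1 = 1 + ((μ : ℂ) - 2) := by ring
    rw [this, Complex.cpow_add _ _ hP0, Complex.cpow_one]
  have P2 : (1 + ξ) ^ (μ : ℂ) = (1 + ξ) ^ 2 * p := by
    have : (μ : ℂ) = ((2 : ℕ) : ℂ) + ((μ : ℂ) - 2) := by push_cast; ring
    rw [this, Complex.cpow_add _ _ hP0, Complex.cpow_natCast]
  have N1 : (1 + -ξ) ^ ((μ : ℂ) - 1) = (1 + -ξ) * n := by
    have : (μ : ℂ) - 1 = 1 + ((μ : ℂ) - 2) := by ring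
    rw [this, Complex.cpow_add _ _ hN0, Complex.cpow_one]
  have N2 : (1 + -ξ) ^ (μ : ℂ) = (1 + -ξ) ^ 2 * n := by
    have : (μ : ℂ) = ((2 : ℕ) : ℂ) + ((μ : ℂ) - 2) := by push_cast; ring
    rw [this, Complex.cpow_add _ _ hN0, Complex.cpow_natCast]
  have a1 : HasDerivAt (fun z : ℂ => 1 + z) 1 ξ := by
    simpa using (hasDerivAt_id ξ).const_add 1
  have a2 : HasDerivAt (fun z : ℂ => 1 + -z) (-1) ξ := by
    simpa using (hasDerivAt_id ξ).neg.const_add 1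
  have a3 : HasDerivAt (fun z : ℂ => -z) (-1) ξ := by
    exact hasDerivAt_neg' ξ
  have dP : ∀ c : ℂ, HasDerivAt (fun z : ℂ => (1 + z) ^ c) (c * (1 + ξ) ^ (c - 1)) ξ := by
    intro c
    have := a1.cpow_const (c := c) hP
    simpa using this
  have dN : ∀ c : ℂ, HasDerivAt (fun z : ℂ => (1 + -z) ^ c) (-(c * (1 + -ξ) ^ (c - 1))) ξ := by
    intro c
    have := a2.cpow_const (c := c) hN
    simpa using this
  have E1 : HasDerivAt (fun z => EE μ z)
      ((μ : ℂ) * (((μ : ℂ) - 1) * p) -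
        ((2 * ((μ : ℂ) * ((1 + ξ) * p))) * ξ - (2 * ((1 + ξ) ^ 2 * p - 1)) * 1) / ξ ^ 2) ξ := by
    have b1 := (dP ((μ : ℂ) - 1)).const_mul (μ : ℂ)
    have b2 := ((((dP (μ : ℂ)).sub_const 1).const_mul 2).div (hasDerivAt_id ξ) hξ0)
    have b3 := (b1.add_const (μ : ℂ)).sub b2
    have e0 : (μ : ℂ) - 1 - 1 = (μ : ℂ) - 2 := by ring
    rw [e0, P1, P2, ← hp] at b3
    have hf : (fun z => EE μ z) = (fun z => (μ : ℂ) * (1 + z) ^ ((μ : ℂ) - 1) + μ -
        2 * ((1 + z) ^ (μ : ℂ) - 1) / z) := by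
      funext z
      unfold EE
      push_cast
      ring
    rw [hf]
    exact b3
  have E2 : HasDerivAt (fun z => EE μ (-z))
      ((μ : ℂ) * (-(((μ : ℂ) - 1) * n)) -
        ((2 * (-((μ : ℂ) * ((1 + -ξ) * n)))) * (-ξ) - (2 * ((1 + -ξ) ^ 2 * n - 1)) * (-1)) / (-ξ) ^ 2)
          ξ := by
    have b1 := (dN ((μ : ℂ) - 1)).const_mul (μ : ℂ)
    have b2 := ((((dN (μ : ℂ)).sub_const 1).const_mul 2).div a3 (neg_ne_zero.2 hξ0))
    have b3 := (b1.add_const (μ : ℂ)).sub b2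
    have e0 : (μ : ℂ) - 1 - 1 = (μ : ℂ) - 2 := by ring
    rw [e0, N1, N2, ← hn] at b3
    have hf : (fun z => EE μ (-z)) = (fun z => (μ : ℂ) * (1 + -z) ^ ((μ : ℂ) - 1) + μ -
        2 * ((1 + -z) ^ (μ : ℂ) - 1) / (-z)) := by
      funext z
      unfold EE
      push_cast
      ring
    rw [hf]
    exact b3
  have hD := (E1.add E2).deriv
  have hD' : deriv (fun ξ => EE μ ξ + EE μ (-ξ)) ξ = _ := hD
  rw [hD']
  have r1 : (1 + ξ) ^ ((μ - 2 : ℝ) : ℂ) = p := by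
    rw [hp]; push_cast; rfl
  have r2 : (1 - ξ) ^ ((μ - 2 : ℝ) : ℂ) = n := by
    rw [hn]; push_cast; rfl
  have r3 : (1 + ξ) ^ (((μ - 2) + 1 : ℝ) : ℂ) = (1 + ξ) * p := by
    rw [← P1]; push_cast; congr 1; ring
  have r4 : (1 - ξ) ^ (((μ - 2) + 1 : ℝ) : ℂ) = (1 + -ξ) * n := by
    rw [← N1]; push_cast; congr 1; ring
  unfold rhsR
  rw [r1, r2, r3, r4]
  have s1 : EE μ ξ = μ * ((1 + ξ) * p) + μ - 2 * ((1 + ξ) ^ 2 * p - 1) / ξ := by
    unfold EE
    push_cast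
    rw [P1, P2]
  have s2 : EE μ (-ξ) = μ * ((1 + -ξ) * n) + μ - 2 * ((1 + -ξ) ^ 2 * n - 1) / (-ξ) := by
    unfold EE
    push_cast
    rw [N1, N2]
  rw [s1, s2]
  push_cast
  field_simp
  ring

end Pool.Agent.MP_ae5b4e_an_ALG
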