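import Mathlib
import Pool.Agent.Lib.MP_ae5b4e_an_ALG.DefsB

/-!
# MP_ae5b4e_an, algebraic tables, module SB: the homogeneous model of a place
-/

set_option autoImplicit false

noncomputable section

namespace Pool.Agent.MP_ae5b4e_an_ALG

open Filter Topology Set Metric Complex Polynomial
open scoped Real

namespace VHom

theorem Dh_eq (a r : ℕ) (η : ℂ) :
    Dh a (a + r) η = r * (1 + η) ^ (a + r) - (a + r) * (1 + η) ^ r + a := by
  unfold Dh
  rw [Nat.add_sub_cancel_left]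
  push_cast
  ring

theorem pow4 (n : ℕ) : ∃ h : ℂ → ℂ, Differentiable ℂ h ∧ ∀ η : ℂ, (1 + η) ^ n =
    1 + n * η + n * (n - 1) / 2 * η ^ 2 + n * (n - 1) * (n - 2) / 6 * η ^ 3 + η ^ 4 * h η := by
  induction n with
  | zero => exact ⟨fun _ => 0, differentiable_const _, fun η => by simp⟩
  | succ n ih =>
    obtain ⟨h, hd, hh⟩ := ih
    refine ⟨fun η => n * (n - 1) * (n - 2) / 6 + (1 + η) * h η, by fun_prop, fun η => ?_⟩
    rw [pow_succ, hh]
    push_cast
    ring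

theorem hd0 {G : ℂ → ℂ} (hG : DifferentiableAt ℂ G 0) (c : ℂ) :
    HasDerivAt (fun η => c + η * G η) (G 0) 0 := by
  have h := ((hasDerivAt_id (0 : ℂ)).mul hG.hasDerivAt).const_add c
  simpa using h

/-- the first terms of the numerator and of the denominator -/
theorem expand (a r : ℕ) : ∃ D2 E1 : ℂ → ℂ, Differentiable ℂ D2 ∧ Differentiable ℂ E1 ∧
    (∀ η, Dh a (a + r) η = η ^ 2 * D2 η) ∧ (∀ η : ℂ, (1 + η) ^ (a + r) - 1 = η * E1 η) ∧
    D2 0 = a * (a + r) * r / 2 ∧ HasDerivAt D2 (a * (a + r) * r * (a + 2 * r - 3) / 6) 0 ∧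
    E1 0 = a + r ∧ HasDerivAt E1 ((a + r) * (a + r - 1) / 2) 0 := by
  obtain ⟨h1, hd1, hh1⟩ := pow4 (a + r)
  obtain ⟨h2, hd2, hh2⟩ := pow4 r
  refine ⟨fun η => a * (a + r) * r / 2 + η * (a * (a + r) * r * (a + 2 * r - 3) / 6 +
    η * (r * h1 η - (a + r) * h2 η)),
    fun η => (a + r) + η * ((a + r) * (a + r - 1) / 2 +
      η * ((a + r) * (a + r - 1) * (a + r - 2) / 6 + η * h1 η)), by fun_prop, by fun_prop,
    fun η => ?_, fun η => ?_, by simp, ?_, by simp, ?_⟩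
  · rw [Dh_eq, hh1, hh2]
    push_cast
    ring
  · rw [hh1]
    push_cast
    ring
  · have h := hd0 (G := fun η : ℂ => (a : ℂ) * (a + r) * r * (a + 2 * r - 3) / 6 +
      η * (r * h1 η - (a + r) * h2 η)) (by fun_prop) (a * (a + r) * r / 2)
    simpa using h
  · have h := hd0 (G := fun η : ℂ => ((a : ℂ) + r) * (a + r - 1) / 2 +
      η * ((a + r) * (a + r - 1) * (a + r - 2) / 6 + η * h1 η)) (by fun_prop) (a + r)
    simpa using h

theorem zet_eq (a r : ℕ) (c : ℝ) {D2 E1 : ℂ → ℂ} (hD : ∀ η, Dh a (a + r) η = η ^ 2 * D2 η)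
    (hE : ∀ η : ℂ, (1 + η) ^ (a + r) - 1 = η * E1 η) :
    zet a (a + r) c = fun η => η * (D2 η / (c * (η * D2 η) - a * r * E1 η)) := by
  funext η
  unfold zet
  rw [hD, hE]
  by_cases h0 : η = 0
  · subst h0
    simp
  · rw [show (c : ℂ) * (η ^ 2 * D2 η) - a * (((a + r : ℕ) : ℂ) - a) * (η * E1 η) =
      η * (c * (η * D2 η) - a * r * E1 η) by push_cast; ring,
      show η ^ 2 * D2 η = η * (η * D2 η) by ring, mul_div_mul_left _ _ h0, mul_div_assoc]

theorem conj_zet (a b : ℕ) (c : ℝ) (η : ℂ) :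
    zet a b c ((starRingEnd ℂ) η) = (starRingEnd ℂ) (zet a b c η) := by
  simp only [zet, Dh, map_div₀, map_sub, map_mul, map_add, map_pow, map_one, map_natCast,
    Complex.conj_ofReal]

/-- near `1` the logarithm is additive -/
theorem log_pow_mul {A : ℂ → ℂ} (hA : ContinuousAt A 0) (hA0 : A 0 = 1) (n : ℕ) :
    ∀ᶠ η in 𝓝 (0:ℂ), Complex.log ((1 + η) ^ n * A η) =
      n * Complex.log (1 + η) + Complex.log (A η) := by
  have hs : ContinuousAt (fun η : ℂ => 1 + η) 0 := by fun_prop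
  have h1 : ContinuousAt (fun η : ℂ => n * Complex.log (1 + η) + Complex.log (A η)) 0 :=
    (continuousAt_const.mul (hs.clog (by simp))).add (hA.clog (by simp [hA0]))
  have h2 : ContinuousAt (fun η : ℂ => (n * Complex.log (1 + η) + Complex.log (A η)).im) 0 :=
    Complex.continuous_im.continuousAt.comp h1
  have h3 : ((n : ℂ) * Complex.log (1 + 0) + Complex.log (A 0)).im = 0 := by
    simp [hA0]
  have h4 : ∀ᶠ η in 𝓝 (0:ℂ), -π < (n * Complex.log (1 + η) + Complex.log (A η)).im :=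
    h2.eventually_const_lt (by
      show -π < ((n : ℂ) * Complex.log (1 + 0) + Complex.log (A 0)).im
      rw [h3]
      linarith [Real.pi_pos])
  have h5 : ∀ᶠ η in 𝓝 (0:ℂ), (n * Complex.log (1 + η) + Complex.log (A η)).im < π :=
    h2.eventually_lt_const (by
      show ((n : ℂ) * Complex.log (1 + 0) + Complex.log (A 0)).im < π
      rw [h3]
      exact Real.pi_pos)
  have h6 : ∀ᶠ η in 𝓝 (0:ℂ), 1 + η ≠ 0 := hs.eventually_ne (by simp)
  have h7 : ∀ᶠ η in 𝓝 (0:ℂ), A η ≠ 0 := hA.eventually_ne (by simp [hA0])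
  filter_upwards [h4, h5, h6, h7] with η h4 h5 h6 h7
  have h8 : (1 + η) ^ n * A η = Complex.exp (n * Complex.log (1 + η) + Complex.log (A η)) := by
    rw [Complex.exp_add, Complex.exp_nat_mul, Complex.exp_log h6, Complex.exp_log h7]
  rw [h8, Complex.log_exp h4 h5.le]

theorem log_pow_div {A : ℂ → ℂ} (hA : ContinuousAt A 0) (hA0 : A 0 = 1) (n : ℕ) :
    ∀ᶠ η in 𝓝 (0:ℂ), Complex.log (A η / (1 + η) ^ n) =
      Complex.log (A η) - n * Complex.log (1 + η) := by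
  have hs : ContinuousAt (fun η : ℂ => 1 + η) 0 := by fun_prop
  have h1 : ContinuousAt (fun η : ℂ => A η / (1 + η) ^ n) 0 :=
    hA.div (hs.pow n) (by simp)
  filter_upwards [log_pow_mul h1 (by simp [hA0]) n, hs.eventually_ne (by simp : (1 : ℂ) + 0 ≠ 0)]
    with η h2 h3
  rw [mul_div_cancel₀ _ (pow_ne_zero n h3)] at h2
  rw [h2]
  ring

/-- the derivative of `zet` -/
theorem deriv_zet (a r : ℕ) (c : ℝ) {η : ℂ} (hs : 1 + η ≠ 0)
    (hm : (c : ℂ) * Dh a (a + r) η - a * r * ((1 + η) ^ (a + r) - 1) ≠ 0) :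
    deriv (zet a (a + r) c) η = -(a * (a + r) * r * (1 + η) ^ r *
      (a * (1 + η) ^ (a + r) - (a + r) * (1 + η) ^ a + r)) /
      ((1 + η) * (c * Dh a (a + r) η - a * r * ((1 + η) ^ (a + r) - 1)) ^ 2) := by
  have hp : ∀ n : ℕ, HasDerivAt (fun η : ℂ => (1 + η) ^ n) (n * (1 + η) ^ n / (1 + η)) η := by
    intro n
    have h1 := ((hasDerivAt_id η).const_add 1).pow n
    refine h1.congr_deriv ?_
    cases n with
    | zero => simp
    | succ n =>
      rw [Nat.add_sub_cancel, pow_succ]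
      simp only [id, mul_one]
      field_simp
  have hD : HasDerivAt (Dh a (a + r))
      ((r * (((a + r : ℕ) : ℂ) * (1 + η) ^ (a + r) / (1 + η)) -
        (a + r) * (r * (1 + η) ^ r / (1 + η)))) η := by
    have h1 := (((hp (a + r)).const_mul (r : ℂ)).sub
      ((hp r).const_mul ((a : ℂ) + r))).add_const (a : ℂ)
    rw [show Dh a (a + r) = fun η : ℂ => r * (1 + η) ^ (a + r) - (a + r) * (1 + η) ^ r + a from
      funext fun η => Dh_eq a r η]
    exact h1
  have hM := (hD.const_mul (c : ℂ)).sub (((hp (a + r)).sub_const 1).const_mul ((a : ℂ) * r))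
  have hz := hD.div hM hm
  have he : zet a (a + r) c = fun η => Dh a (a + r) η /
      (c * Dh a (a + r) η - a * r * ((1 + η) ^ (a + r) - 1)) := by
    funext η
    unfold zet
    push_cast
    rw [add_sub_cancel_left]
  rw [he]
  have hz' := hz.deriv
  refine Eq.trans hz' ?_
  simp only [Pi.sub_apply]
  rw [div_eq_div_iff (pow_ne_zero 2 hm) (mul_ne_zero hs (pow_ne_zero 2 hm))]
  have hq : (1 + η) ^ (a + r) = (1 + η) ^ a * (1 + η) ^ r := pow_add _ _ _
  rw [Dh_eq, hq]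
  push_cast
  field_simp
  ring

end VHom

section SB
variable {a b : ℕ}

theorem zet_ana (ha : 0 < a) (hab : a < b) (c : ℝ) :
    AnalyticAt ℂ (zet a b c) 0 ∧ zet a b c 0 = 0 ∧ deriv (zet a b c) 0 = -1 / 2 ∧
      deriv (deriv (zet a b c)) 0 = (1 - (((a : ℝ) + b) / 3 - a + c : ℝ)) / 2 ∧
      (∀ᶠ η in 𝓝 (0:ℂ), zet a b c ((starRingEnd ℂ) η) = (starRingEnd ℂ) (zet a b c η)) := by
  obtain ⟨r, rfl⟩ := Nat.exists_eq_add_of_le hab.le
  have hr : 0 < r := by omega
  obtain ⟨D2, E1, hD2, hE1, hD, hE, hD20, hD2', hE10, hE1'⟩ := VHom.expand a r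
  have ha' : (a : ℂ) ≠ 0 := Nat.cast_ne_zero.2 ha.ne'
  have hr' : (r : ℂ) ≠ 0 := Nat.cast_ne_zero.2 hr.ne'
  have hq' : (a : ℂ) + r ≠ 0 := by exact_mod_cast (by omega : a + r ≠ 0)
  set m1 : ℂ → ℂ := fun η => c * (η * D2 η) - a * r * E1 η with hm1
  set Z : ℂ → ℂ := fun η => D2 η / m1 η with hZ
  have hzet : zet a (a + r) c = fun η => η * Z η := VHom.zet_eq a r c hD hE
  have hm1d : Differentiable ℂ m1 := by
    show Differentiable ℂ fun η => (c : ℂ) * (η * D2 η) - a * r * E1 η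
    fun_prop
  have hm10 : m1 0 = -(a * r * (a + r)) := by
    show (c : ℂ) * (0 * D2 0) - a * r * E1 0 = _
    rw [hE10]
    ring
  have hm10' : m1 0 ≠ 0 := by
    rw [hm10]
    exact neg_ne_zero.2 (mul_ne_zero (mul_ne_zero ha' hr') hq')
  have hm1' : HasDerivAt m1 (c * D2 0 - a * r * ((a + r) * (a + r - 1) / 2)) 0 := by
    have h1 := (((hasDerivAt_id (0 : ℂ)).mul hD2').const_mul (c : ℂ)).sub
      (hE1'.const_mul ((a : ℂ) * r))
    refine h1.congr_deriv ?_
    simp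
  have hZa : AnalyticAt ℂ Z 0 := (hD2.analyticAt 0).div (hm1d.analyticAt 0) hm10'
  have hZ0 : Z 0 = -1 / 2 := by
    show D2 0 / m1 0 = _
    rw [hD20, hm10]
    field_simp
  have hZ' : deriv Z 0 = (1 - (((a : ℝ) + (a + r : ℕ)) / 3 - a + c : ℝ)) / 4 := by
    have h1 : HasDerivAt Z _ 0 := hD2'.div hm1' hm10'
    rw [h1.deriv, hm10, hD20]
    push_cast
    field_simp
    ring
  have hd1 : ∀ᶠ η in 𝓝 (0:ℂ), deriv (zet a (a + r) c) η = Z η + η * deriv Z η := by
    filter_upwards [hZa.eventually_analyticAt] with η h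
    rw [hzet]
    have h1 := (hasDerivAt_id η).mul h.differentiableAt.hasDerivAt
    simp only [id, one_mul] at h1
    exact h1.deriv
  refine ⟨?_, ?_, ?_, ?_, Eventually.of_forall fun η => VHom.conj_zet a _ c η⟩
  · rw [hzet]
    exact analyticAt_id.mul hZa
  · rw [hzet]
    simp
  · rw [hd1.self_of_nhds, hZ0]
    simp
  · have h2 : deriv (zet a (a + r) c) =ᶠ[𝓝 0] fun η => Z η + η * deriv Z η := hd1
    rw [h2.deriv_eq]
    have h3 := hZa.differentiableAt.hasDerivAt.add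
      ((hasDerivAt_id (0 : ℂ)).mul hZa.deriv.differentiableAt.hasDerivAt)
    simp only [id, one_mul, zero_mul, add_zero] at h3
    refine h3.deriv.trans ?_
    rw [hZ']
    ring

theorem zet_Vh (ha : 0 < a) (hab : a < b) (c : ℝ) :
    ∀ᶠ η in 𝓝[≠] (0:ℂ), Vh a b η + c = (zet a b c η)⁻¹ ∧ zet a b c η ≠ 0 := by
  obtain ⟨r, rfl⟩ := Nat.exists_eq_add_of_le hab.le
  have hr : 0 < r := by omega
  obtain ⟨D2, E1, hD2, hE1, hD, hE, hD20, hD2', hE10, hE1'⟩ := VHom.expand a r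
  have ha' : (a : ℂ) ≠ 0 := Nat.cast_ne_zero.2 ha.ne'
  have hr' : (r : ℂ) ≠ 0 := Nat.cast_ne_zero.2 hr.ne'
  have hq' : (a : ℂ) + r ≠ 0 := by exact_mod_cast (by omega : a + r ≠ 0)
  have hm1d : Differentiable ℂ fun η => (c : ℂ) * (η * D2 η) - a * r * E1 η := by fun_prop
  have hm10' : (c : ℂ) * (0 * D2 0) - a * r * E1 0 ≠ 0 := by
    rw [hE10, zero_mul, mul_zero, zero_sub]
    exact neg_ne_zero.2 (mul_ne_zero (mul_ne_zero ha' hr') hq')
  have hD20' : D2 0 ≠ 0 := by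
    rw [hD20]
    exact div_ne_zero (mul_ne_zero (mul_ne_zero ha' hq') hr') two_ne_zero
  rw [eventually_nhdsWithin_iff]
  filter_upwards [hm1d.continuous.continuousAt.eventually_ne hm10',
    hD2.continuous.continuousAt.eventually_ne hD20'] with η h1 h2 hη
  have hη0 : η ≠ 0 := hη
  have h3 : zet a (a + r) c η ≠ 0 := by
    rw [VHom.zet_eq a r c hD hE]
    exact mul_ne_zero hη0 (div_ne_zero h2 h1)
  refine ⟨?_, h3⟩
  have h4 : Dh a (a + r) η ≠ 0 := by
    rw [hD]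
    exact mul_ne_zero (pow_ne_zero 2 hη0) h2
  unfold zet Vh
  rw [inv_div, eq_div_iff h4, add_mul, div_mul_cancel₀ _ h4]
  ring

theorem Hf_Vh (ha : 0 < a) (hab : a < b) :
    ∀ᶠ η in 𝓝[≠] (0:ℂ), Hf a ((b : ℝ) - a) (Vh a b (-η / (1 + η))) =
      Hf a ((b : ℝ) - a) (Vh a b η) := by
  obtain ⟨r, rfl⟩ := Nat.exists_eq_add_of_le hab.le
  have hr : 0 < r := by omega
  obtain ⟨D2, E1, hD2, hE1, hD, hE, hD20, hD2', hE10, hE1'⟩ := VHom.expand a r
  have ha' : (a : ℂ) ≠ 0 := Nat.cast_ne_zero.2 ha.ne'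
  have hr' : (r : ℂ) ≠ 0 := Nat.cast_ne_zero.2 hr.ne'
  have hq' : (a : ℂ) + r ≠ 0 := by exact_mod_cast (by omega : a + r ≠ 0)
  have hE10' : E1 0 ≠ 0 := by rw [hE10]; exact hq'
  -- the two arguments of the logarithms
  set A : ℂ → ℂ := fun η => 1 + η * D2 η / (a * E1 η) with hA
  set B : ℂ → ℂ := fun η => 1 - η * D2 η / (r * E1 η) with hB
  have hAc : ContinuousAt A 0 := by
    have h1 : ContinuousAt D2 0 := hD2.continuous.continuousAt
    have h2 : ContinuousAt E1 0 := hE1.continuous.continuousAt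
    exact continuousAt_const.add ((continuousAt_id.mul h1).div (continuousAt_const.mul h2)
      (mul_ne_zero ha' hE10'))
  have hBc : ContinuousAt B 0 := by
    have h1 : ContinuousAt D2 0 := hD2.continuous.continuousAt
    have h2 : ContinuousAt E1 0 := hE1.continuous.continuousAt
    exact continuousAt_const.sub ((continuousAt_id.mul h1).div (continuousAt_const.mul h2)
      (mul_ne_zero hr' hE10'))
  have hA0 : A 0 = 1 := by simp [hA]
  have hB0 : B 0 = 1 := by simp [hB]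
  -- the values in terms of powers
  have hAB : ∀ η : ℂ, η ≠ 0 → E1 η ≠ 0 → D2 η ≠ 0 →
      1 - (((a + r : ℕ) : ℝ) - (a : ℝ) : ℝ) / Vh a (a + r) η = A η ∧
        1 + ((a : ℝ) : ℂ) / Vh a (a + r) η = B η := by
    intro η h0 h1 h2
    have h3 : Vh a (a + r) η = -(a * r * E1 η) / (η * D2 η) := by
      unfold Vh
      rw [hD, hE]
      push_cast
      rw [add_sub_cancel_left]
      field_simp
    rw [h3]
    constructor
    · simp only [hA]
      push_cast
      field_simp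
      ring
    · simp only [hB]
      push_cast
      field_simp
      ring
  have hpw : ∀ η : ℂ, η ≠ 0 → E1 η ≠ 0 →
      A η = (a + r) * (1 + η) ^ r * ((1 + η) ^ a - 1) / (a * ((1 + η) ^ (a + r) - 1)) ∧
        B η = (a + r) * ((1 + η) ^ r - 1) / (r * ((1 + η) ^ (a + r) - 1)) := by
    intro η h0 h1
    have h2 : η * D2 η = Dh a (a + r) η / η := by rw [hD]; field_simp
    have h3 : (1 + η) ^ (a + r) - 1 ≠ 0 := by rw [hE]; exact mul_ne_zero h0 h1
    have h4 : E1 η = ((1 + η) ^ (a + r) - 1) / η := by rw [hE]; field_simp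
    constructor
    · simp only [hA]
      rw [h2, h4, VHom.Dh_eq]
      rw [pow_add] at h3 ⊢
      field_simp
      ring
    · simp only [hB]
      rw [h2, h4, VHom.Dh_eq]
      rw [pow_add] at h3 ⊢
      field_simp
      ring
  have hs : ContinuousAt (fun η : ℂ => 1 + η) 0 := by fun_prop
  have hτ : ContinuousAt (fun η : ℂ => -η / (1 + η)) 0 :=
    (continuousAt_id.neg).div hs (by simp)
  have hτ0 : Tendsto (fun η : ℂ => -η / (1 + η)) (𝓝 0) (𝓝 0) := by
    have h := hτ.tendsto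
    simpa using h
  have hEne := hE1.continuous.continuousAt.eventually_ne hE10'
  have hDne := hD2.continuous.continuousAt.eventually_ne (y := 0) (by
    rw [hD20]
    exact div_ne_zero (mul_ne_zero (mul_ne_zero ha' hq') hr') two_ne_zero)
  rw [eventually_nhdsWithin_iff]
  filter_upwards [hEne, hDne, hτ0.eventually hEne, hτ0.eventually hDne,
    hs.eventually_ne (by simp : (1 : ℂ) + 0 ≠ 0), VHom.log_pow_mul hBc hB0 a,
    VHom.log_pow_div hAc hA0 r] with η h1 h2 h3 h4 h5 h6 h7 hη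
  have hη0 : η ≠ 0 := hη
  have hτη : -η / (1 + η) ≠ 0 := div_ne_zero (neg_ne_zero.2 hη0) h5
  have hσ : 1 + -η / (1 + η) = (1 + η)⁻¹ := by
    field_simp
    ring
  obtain ⟨e1, e2⟩ := hAB η hη0 h1 h2
  obtain ⟨e3, e4⟩ := hAB _ hτη h3 h4
  obtain ⟨f1, f2⟩ := hpw η hη0 h1
  obtain ⟨f3, f4⟩ := hpw _ hτη h3
  have g0 : (1 + η) ^ (a + r) - 1 ≠ 0 := by rw [hE]; exact mul_ne_zero hη0 h1
  have g00 : 1 - (1 + η) ^ (a + r) ≠ 0 := by
    intro h
    apply g0
    linear_combination -h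
  have g1 : A (-η / (1 + η)) = A η / (1 + η) ^ r := by
    rw [f3, f1, hσ, inv_pow, inv_pow, inv_pow]
    rw [pow_add] at g0 g00 ⊢
    have k1 : ((1 + η) ^ a * (1 + η) ^ r)⁻¹ - 1 ≠ 0 := by
      intro h
      apply g0
      have k2 : (1 + η) ^ a * (1 + η) ^ r ≠ 0 :=
        mul_ne_zero (pow_ne_zero _ h5) (pow_ne_zero _ h5)
      rw [sub_eq_zero, inv_eq_one] at h
      rw [h, sub_self]
    have k3 : (1 + η) ^ a ≠ 0 := pow_ne_zero _ h5
    have k4 : (1 + η) ^ r ≠ 0 := pow_ne_zero _ h5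
    rw [div_div, div_eq_div_iff (mul_ne_zero ha' k1)
      (mul_ne_zero (mul_ne_zero ha' g0) k4)]
    field_simp
    ring
  have g2 : B (-η / (1 + η)) = (1 + η) ^ a * B η := by
    rw [f4, f2, hσ, inv_pow, inv_pow]
    rw [pow_add] at g0 g00 ⊢
    have k1 : ((1 + η) ^ a * (1 + η) ^ r)⁻¹ - 1 ≠ 0 := by
      intro h
      apply g0
      rw [sub_eq_zero, inv_eq_one] at h
      rw [h, sub_self]
    have k3 : (1 + η) ^ a ≠ 0 := pow_ne_zero _ h5
    have k4 : (1 + η) ^ r ≠ 0 := pow_ne_zero _ h5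
    rw [← mul_div_assoc, div_eq_div_iff (mul_ne_zero hr' k1) (mul_ne_zero hr' g0)]
    field_simp
    ring
  unfold Hf
  rw [e1, e2, e3, e4, g1, g2, h6, h7]
  push_cast
  ring

theorem zet_ID (ha : 0 < a) (hab : a < b) {c : ℝ} {n : ℕ}
    (hc : (c = a ∧ n = a + b) ∨ (c = 0 ∧ n + 2 * a = b)) :
    ∀ᶠ η in 𝓝 (0:ℂ), (1 + η) ^ 2 * (deriv (zet a b c) η * zet a b c η) =
      -(1 + η) ^ n * (deriv (zet a b c) (-η / (1 + η)) * zet a b c (-η / (1 + η))) := by
  obtain ⟨r, rfl⟩ := Nat.exists_eq_add_of_le hab.le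
  have hr : 0 < r := by omega
  obtain ⟨D2, E1, hD2, hE1, hD, hE, hD20, hD2', hE10, hE1'⟩ := VHom.expand a r
  have ha' : (a : ℂ) ≠ 0 := Nat.cast_ne_zero.2 ha.ne'
  have hr' : (r : ℂ) ≠ 0 := Nat.cast_ne_zero.2 hr.ne'
  have hq' : (a : ℂ) + r ≠ 0 := by exact_mod_cast (by omega : a + r ≠ 0)
  set m1 : ℂ → ℂ := fun η => c * (η * D2 η) - a * r * E1 η with hm1
  have hm1d : Differentiable ℂ m1 := by
    show Differentiable ℂ fun η => (c : ℂ) * (η * D2 η) - a * r * E1 η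
    fun_prop
  have hm10' : m1 0 ≠ 0 := by
    show (c : ℂ) * (0 * D2 0) - a * r * E1 0 ≠ 0
    rw [hE10, zero_mul, mul_zero, zero_sub]
    exact neg_ne_zero.2 (mul_ne_zero (mul_ne_zero ha' hr') hq')
  have hM : ∀ η, (c : ℂ) * Dh a (a + r) η - a * r * ((1 + η) ^ (a + r) - 1) = η * m1 η := by
    intro η
    rw [hD, hE]
    show _ = η * (c * (η * D2 η) - a * r * E1 η)
    ring
  have hz : ∀ η, zet a (a + r) c η = Dh a (a + r) η /
      (c * Dh a (a + r) η - a * r * ((1 + η) ^ (a + r) - 1)) := by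
    intro η
    unfold zet
    push_cast
    rw [add_sub_cancel_left]
  have hz0 : zet a (a + r) c 0 = 0 := by
    rw [hz, hD]
    simp
  have hs : ContinuousAt (fun η : ℂ => 1 + η) 0 := by fun_prop
  have hτ0 : Tendsto (fun η : ℂ => -η / (1 + η)) (𝓝 0) (𝓝 0) := by
    have h1 : ContinuousAt (fun η : ℂ => -η / (1 + η)) 0 :=
      (continuousAt_id.neg).div hs (by simp)
    have h := h1.tendsto
    simpa using h
  have hmne := hm1d.continuous.continuousAt.eventually_ne hm10'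
  filter_upwards [hmne, hτ0.eventually hmne, hs.eventually_ne (by simp : (1 : ℂ) + 0 ≠ 0)]
    with η h1 h2 h3
  by_cases hη : η = 0
  · subst hη
    simp [hz0]
  have hτη : -η / (1 + η) ≠ 0 := div_ne_zero (neg_ne_zero.2 hη) h3
  have hσ : 1 + -η / (1 + η) = (1 + η)⁻¹ := by
    field_simp
    ring
  have m0 : (c : ℂ) * Dh a (a + r) η - a * r * ((1 + η) ^ (a + r) - 1) ≠ 0 := by
    rw [hM]
    exact mul_ne_zero hη h1
  have m2 : (c : ℂ) * Dh a (a + r) (-η / (1 + η)) -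
      a * r * ((1 + -η / (1 + η)) ^ (a + r) - 1) ≠ 0 := by
    rw [hM]
    exact mul_ne_zero hτη h2
  rw [VHom.deriv_zet a r c h3 m0, VHom.deriv_zet a r c (by rw [hσ]; exact inv_ne_zero h3) m2,
    hz, hz]
  rw [VHom.Dh_eq] at m0 m2 ⊢
  rw [VHom.Dh_eq a r (-η / (1 + η)), hσ]
  rw [hσ] at m2
  clear hM hz hD hE h1 h2
  rcases hc with ⟨rfl, rfl⟩ | ⟨rfl, hn⟩
  · simp only [Complex.ofReal_natCast] at m0 m2 ⊢
    simp only [pow_add, inv_pow] at m0 m2 ⊢
    have hP : (1 + η) ^ a ≠ 0 := pow_ne_zero _ h3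
    have hR : (1 + η) ^ r ≠ 0 := pow_ne_zero _ h3
    generalize (1 + η) ^ a = P at *
    generalize (1 + η) ^ r = R at *
    have e1 : (a : ℂ) * (r * (P * R) - (a + r) * R + a) - a * r * (P * R - 1) =
      -(a * (a + r) * (R - 1)) := by ring
    have e2 : (a : ℂ) * (r * (P⁻¹ * R⁻¹) - (a + r) * R⁻¹ + a) - a * r * (P⁻¹ * R⁻¹ - 1) =
      a * (a + r) * (R - 1) / R := by field_simp; ring
    rw [e1] at m0 ⊢
    rw [e2] at m2 ⊢
    have hR1 : R - 1 ≠ 0 := fun h => m0 (by rw [h]; ring)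
    field_simp
    ring
  · obtain rfl : r = n + a := by omega
    simp only [Complex.ofReal_zero, zero_mul, zero_sub] at m0 m2 ⊢
    simp only [pow_add, inv_pow] at m0 m2 ⊢
    have hP : (1 + η) ^ a ≠ 0 := pow_ne_zero _ h3
    have hN : (1 + η) ^ n ≠ 0 := pow_ne_zero _ h3
    generalize (1 + η) ^ a = P at *
    generalize (1 + η) ^ n = N at *
    have hR1 : P * (N * P) - 1 ≠ 0 := fun h => m0 (by rw [h]; ring)
    have e2 : P⁻¹ * (N⁻¹ * P⁻¹) - 1 = -(P * (N * P) - 1) / (P * (N * P)) := by field_simp; ring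
    rw [e2]
    push_cast
    field_simp
    ring
end SB

end Pool.Agent.MP_ae5b4e_an_ALG
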