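import Pool.Agent.Lib.MP_ae5b4e_an_ALG.DefsB
import Pool.Agent.Lib.MP_ae5b4e_an_ALG.VHom
import Pool.Agent.Lib.MP_ae5b4e_an_FLEX.GeoCusp

/-!
# MP_ae5b4e_an, algebraic tables, module GA: the place theorem
-/

set_option autoImplicit false

noncomputable section

namespace Pool.Agent.MP_ae5b4e_an_ALG

open Filter Topology Set Metric Complex Polynomial
open scoped Real
open Pool.Agent.MP_ae5b4e_an_ND (Dx Dy Reg)
open Pool.Agent.MP_ae5b4e_an_FLEX

namespace PlaceGen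

/-! ### from the blown-up coordinate to the place -/

theorem place_of_mk {X Y K k : ℂ → ℂ} (hk : AnalyticAt ℂ k 0)
    (hK : ∀ᶠ w in 𝓝[≠] (0:ℂ), K w = k w / w)
    (hg : ∀ᶠ s in 𝓝[≠] (0:ℂ), GoodG X Y K s) {mh : ℂ × ℂ → ℂ} (hm : AnalyticAt ℂ mh (0, 0))
    (hm0 : ∀ t, mh (t, 0) = 0) (hm1 : deriv (fun y => mh (0, y)) 0 ≠ 0)
    (hF : ∀ᶠ p in 𝓝 ((0, 0) : ℂ × ℂ), p.1 ≠ 0 →
      brN X Y p.1 (p.1 * (1 + p.2)) = mh p * (p.1 * brD X Y p.1 (p.1 * (1 + p.2))) ∧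
      (p.2 ≠ 0 → brD X Y p.1 (p.1 * (1 + p.2)) ≠ 0)) :
    ∃ Yf A δ, PlaceY Yf A δ ∧ AnalyticAt ℂ A (0, 0) ∧ A (0, 0) = 0 ∧
      ∀ᶠ p in 𝓝 ((0, 0) : ℂ × ℂ), mh (p.1, -A p) * (k p.1 * mh p - 1) = mh p := by
  obtain ⟨A, hA, hAeq, ρ, hρ, huniq⟩ := exists_kick (k := k) hm
    (Eventually.of_forall hm0) hm1 hk
  obtain ⟨δ1, hδ1, h1⟩ := Metric.eventually_nhds_iff_ball.1 hA.ana.eventually_analyticAt
  obtain ⟨δ2, hδ2, h2⟩ := Metric.eventually_nhds_iff_ball.1 hA.zero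
  obtain ⟨δ3, hδ3, h3⟩ := Metric.eventually_nhds_iff_ball.1 hA.der
  obtain ⟨δ4, hδ4, h4⟩ := Metric.eventually_nhds_iff_ball.1 hF
  have hg' := hg.and hK
  rw [eventually_nhdsWithin_iff] at hg'
  obtain ⟨δ5, hδ5, h5⟩ := Metric.eventually_nhds_iff_ball.1 hg'
  set δ := min (min (min δ1 δ2) (min δ3 δ4)) (min δ5 ρ) with hδ
  have hδ0 : 0 < δ := by positivity
  have e1 : δ ≤ δ1 := ((min_le_left _ _).trans (min_le_left _ _)).trans (min_le_left _ _)
  have e2 : δ ≤ δ2 := ((min_le_left _ _).trans (min_le_left _ _)).trans (min_le_right _ _)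
  have e3 : δ ≤ δ3 := ((min_le_left _ _).trans (min_le_right _ _)).trans (min_le_left _ _)
  have e4 : δ ≤ δ4 := ((min_le_left _ _).trans (min_le_right _ _)).trans (min_le_right _ _)
  have e5 : δ ≤ δ5 := (min_le_right _ _).trans (min_le_left _ _)
  have e6 : δ ≤ ρ := (min_le_right _ _).trans (min_le_right _ _)
  have hball : ∀ {r : ℝ} {x η : ℂ}, ‖x‖ < r → ‖η‖ < r → (x, η) ∈ ball ((0, 0) : ℂ × ℂ) r := by
    intro r x η hx hη
    rw [mem_ball_iff_norm]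
    simpa [Prod.norm_def] using ⟨hx, hη⟩
  have hgood : ∀ x : ℂ, x ≠ 0 → ‖x‖ < δ → GoodG X Y K x ∧ K x = k x / x := by
    intro x hx hxδ
    exact h5 x (by rw [mem_ball_zero_iff]; exact hxδ.trans_le e5) hx
  set O : Set ℂ := ball 0 δ \ {0} with hO
  have hOo : IsOpen O := isOpen_ball.sdiff isClosed_singleton
  obtain ⟨Yf, hYf⟩ := isKick_global (X := X) (Y := Y) (K := K) hOo (by
    rintro t ⟨ht, ht0⟩
    exact (hgood t ht0 (mem_ball_zero_iff.1 ht)).1.1)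
  refine ⟨Yf, A, δ, ⟨hδ0, ?_, ?_, ?_, ?_, ?_⟩, hA.ana, ?_, hAeq⟩
  · intro x η hx hη
    exact h1 _ (hball (hx.trans_le e1) (hη.trans_le e1))
  · intro x hx
    exact h2 x (mem_ball_zero_iff.2 (hx.trans_le e2))
  · intro x hx
    exact h3 x (mem_ball_zero_iff.2 (hx.trans_le e3))
  · intro x hx0 hx
    exact goodG_of_isKick (hgood x hx0 hx).1 (hYf x ⟨mem_ball_zero_iff.2 hx, hx0⟩)
  · intro x hx0 hx
    obtain ⟨hk, hrel⟩ := hYf x ⟨mem_ball_zero_iff.2 hx, hx0⟩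
    obtain ⟨G, hG, hYG, hG1⟩ := MP_ae5b4e_an_ND.exists_div_y hk.ana hk.zero
    have hG2 : G (x, 0) ≠ 0 := by
      have h6 := hG1.self_of_nhds
      rw [hk.der.self_of_nhds] at h6
      rw [h6]
      exact one_ne_zero
    have hc1 : ContinuousAt (fun p : ℂ × ℂ => p.1) (x, 0) := continuousAt_fst
    have hc2 : ContinuousAt (fun p : ℂ × ℂ => p.2 / p.1) (x, 0) :=
      continuousAt_snd.div continuousAt_fst hx0
    have hc3 : ContinuousAt (fun p : ℂ × ℂ => Yf p / p.1) (x, 0) :=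
      hk.ana.continuousAt.div continuousAt_fst hx0
    have hY0 : Yf (x, 0) = 0 := hk.zero.self_of_nhds
    have v1 : ∀ᶠ p in 𝓝 ((x, 0) : ℂ × ℂ), ‖p.1‖ < δ := by
      refine hc1.norm.eventually_lt_const ?_
      exact hx
    have v2 : ∀ᶠ p in 𝓝 ((x, 0) : ℂ × ℂ), ‖p.2 / p.1‖ < δ := by
      refine hc2.norm.eventually_lt_const ?_
      simpa using hδ0
    have v3 : ∀ᶠ p in 𝓝 ((x, 0) : ℂ × ℂ), ‖Yf p / p.1‖ < δ := by
      refine hc3.norm.eventually_lt_const ?_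
      simpa [hY0] using hδ0
    have v4 : ∀ᶠ p in 𝓝 ((x, 0) : ℂ × ℂ), p.1 ≠ 0 := hc1.eventually_ne hx0
    have v5 : ∀ᶠ p in 𝓝 ((x, 0) : ℂ × ℂ), G p ≠ 0 := hG.continuousAt.eventually_ne hG2
    have v6 : ∀ᶠ p in 𝓝 ((x, 0) : ℂ × ℂ), Yf (p.1, 0) = 0 := hc1.eventually hk.zero
    filter_upwards [v1, v2, v3, v4, v5, v6, hYG, hrel] with p w1 w2 w3 w4 w5 w6 w7 w8
    obtain ⟨t, y⟩ := p
    simp only at w1 w2 w3 w4 w5 w6 w7 w8 ⊢
    by_cases hy : y = 0
    · subst hy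
      rw [w6, zero_div, h2 t (mem_ball_zero_iff.2 (w1.trans_le e2)), mul_zero]
    · have hY1 : Yf (t, y) ≠ 0 := by
        rw [w7]
        exact mul_ne_zero hy w5
      set η := y / t with hη
      set η' := Yf (t, y) / t with hη'
      have hη0 : η ≠ 0 := div_ne_zero hy w4
      have hη'0 : η' ≠ 0 := div_ne_zero hY1 w4
      have q1 : t + y = t * (1 + η) := by rw [hη]; field_simp
      have q2 : t - Yf (t, y) = t * (1 + (-η')) := by rw [hη']; field_simp; ring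
      have f1 := h4 (t, η) (hball (w1.trans_le e4) (w2.trans_le e4)) w4
      have f2 := h4 (t, -η') (hball (w1.trans_le e4) (by rw [norm_neg]; exact w3.trans_le e4)) w4
      simp only at f1 f2
      have f3 := (hgood t w4 w1).2
      rw [q1, q2, f1.1, f2.1, f3] at w8
      have g1 := f1.2 hη0
      have g2 := f2.2 (neg_ne_zero.2 hη'0)
      set D := brD X Y t (t * (1 + η)) with hD
      set D' := brD X Y t (t * (1 + -η')) with hD'
      have key : mh (t, -η') * (k t * mh (t, η) - 1) = mh (t, η) := by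
        have h6 : (D * D' * t) * (mh (t, -η') * (k t * mh (t, η) - 1)) =
            (D * D' * t) * mh (t, η) := by
          have h7 : k t / t * (mh (t, η) * (t * D)) * (mh (t, -η') * (t * D')) =
              k t * mh (t, η) * mh (t, -η') * D * D' * t := by
            field_simp
          rw [h7] at w8
          linear_combination (-1 : ℂ) * w8
        exact mul_left_cancel₀ (mul_ne_zero (mul_ne_zero g1 g2) w4) h6
      have h7 := huniq t η η' (by rw [sub_zero]; exact w1.trans_le e6) (w2.trans_le e6)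
        (w3.trans_le e6) key
      rw [← h7, hη']
      field_simp
  · exact h2 0 (mem_ball_self hδ2)

/-! ### the blown-up brackets -/

section

variable (a b : ℕ) (x y xd yd : ℂ → ℂ)

/-- `brD` without the factor `w ^ (a + b - 2)` -/
def Dn (p : ℂ × ℂ) : ℂ :=
  xd p.1 * ((1 + p.2) ^ (b - 1) * yd (p.1 * (1 + p.2))) -
    yd p.1 * ((1 + p.2) ^ (a - 1) * xd (p.1 * (1 + p.2)))

/-- `brN` without the factor `w ^ (a + b - 1)` -/
def Nn (p : ℂ × ℂ) : ℂ :=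
  ((1 + p.2) ^ a * x (p.1 * (1 + p.2)) - x p.1) * ((1 + p.2) ^ (b - 1) * yd (p.1 * (1 + p.2))) -
    ((1 + p.2) ^ b * y (p.1 * (1 + p.2)) - y p.1) * ((1 + p.2) ^ (a - 1) * xd (p.1 * (1 + p.2)))

variable {a b x y xd yd}

theorem Dn_ana (hxd : AnalyticAt ℂ xd 0) (hyd : AnalyticAt ℂ yd 0) :
    AnalyticAt ℂ (Dn a b xd yd) (0, 0) := by
  have h1 := GeoCusp.ana_fst hxd
  have h2 := GeoCusp.ana_fst hyd
  have h3 := GeoCusp.ana_mul hxd
  have h4 := GeoCusp.ana_mul hyd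
  have h5 : AnalyticAt ℂ (fun p : ℂ × ℂ => 1 + p.2) (0, 0) := analyticAt_const.add analyticAt_snd
  exact (h1.mul ((h5.pow _).mul h4)).sub (h2.mul ((h5.pow _).mul h3))

theorem Nn_ana (hx : AnalyticAt ℂ x 0) (hy : AnalyticAt ℂ y 0) (hxd : AnalyticAt ℂ xd 0)
    (hyd : AnalyticAt ℂ yd 0) : AnalyticAt ℂ (Nn a b x y xd yd) (0, 0) := by
  have h1 := GeoCusp.ana_fst hx
  have h2 := GeoCusp.ana_fst hy
  have h3 := GeoCusp.ana_mul hxd
  have h4 := GeoCusp.ana_mul hyd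
  have h5 : AnalyticAt ℂ (fun p : ℂ × ℂ => 1 + p.2) (0, 0) := analyticAt_const.add analyticAt_snd
  have h7 := GeoCusp.ana_mul hx
  have h8 := GeoCusp.ana_mul hy
  exact ((((h5.pow _).mul h7).sub h1).mul ((h5.pow _).mul h4)).sub
    ((((h5.pow _).mul h8).sub h2).mul ((h5.pow _).mul h3))

theorem Dn_zero (t : ℂ) : Dn a b xd yd (t, 0) = 0 := by
  simp only [Dn, add_zero, mul_one, one_pow]
  ring

theorem Nn_zero (t : ℂ) : Nn a b x y xd yd (t, 0) = 0 := by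
  simp only [Nn, add_zero, mul_one, one_pow]
  ring

theorem Nn_deriv {t : ℂ} (hx : DifferentiableAt ℂ x t) (hy : DifferentiableAt ℂ y t)
    (hxd : DifferentiableAt ℂ xd t) (hyd : DifferentiableAt ℂ yd t)
    (hX : xd t = a * x t + t * deriv x t) (hY : yd t = b * y t + t * deriv y t) :
    deriv (fun η => Nn a b x y xd yd (t, η)) 0 = 0 := by
  have e1 := (GeoCusp.hd' hx a).sub_const (x t)
  have e2 := (GeoCusp.hd' hy b).sub_const (y t)
  have e3 := GeoCusp.hd' hyd (b - 1)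
  have e4 := GeoCusp.hd' hxd (a - 1)
  have h4 := (e1.mul e3).sub (e2.mul e4)
  refine (h4.congr_of_eventuallyEq (Eventually.of_forall fun y => ?_)).deriv.trans ?_
  · rfl
  · simp only [add_zero, mul_one, one_pow, sub_self, one_mul, zero_mul]
    rw [hX, hY]
    ring

theorem pow_split (ha : 0 < a) (hab : a < b) (s : ℂ) :
    s ^ (b - 1) = s ^ (a - 1) * s ^ (b - a) ∧ s ^ b = s ^ (b - a) * s ^ a := by
  constructor
  · rw [← pow_add]
    congr 1
    omega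
  · rw [← pow_add]
    congr 1
    omega

theorem Dn_at (ha : 0 < a) (hab : a < b) (hX : xd 0 = a * x 0) (hY : yd 0 = b * y 0) (η : ℂ) :
    Dn a b xd yd (0, η) =
      (x 0 * y 0 * (1 + η) ^ (a - 1)) * (a * b * ((1 + η) ^ (b - a) - 1)) := by
  simp only [Dn, zero_mul, hX, hY]
  rw [(pow_split ha hab (1 + η)).1]
  ring

theorem Nn_at (ha : 0 < a) (hab : a < b) (hX : xd 0 = a * x 0) (hY : yd 0 = b * y 0) (η : ℂ) :
    Nn a b x y xd yd (0, η) = (x 0 * y 0 * (1 + η) ^ (a - 1)) * Dh a b η := by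
  simp only [Nn, zero_mul, hX, hY, Dh]
  rw [(pow_split ha hab (1 + η)).1, (pow_split ha hab (1 + η)).2]
  ring

/-- the derivative of `w ^ n x w` -/
theorem deriv_pow_mul {n : ℕ} (hn : 0 < n) {x F : ℂ → ℂ} (hx : AnalyticAt ℂ x 0)
    (hF : ∀ᶠ w in 𝓝 (0:ℂ), F w = w ^ n * x w) :
    ∀ᶠ w in 𝓝 (0:ℂ), deriv F w = w ^ (n - 1) * (n * x w + w * deriv x w) := by
  filter_upwards [hF.eventually_nhds, hx.eventually_analyticAt] with w h1 h2
  have h3 : F =ᶠ[𝓝 w] fun w => w ^ n * x w := h1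
  rw [h3.deriv_eq]
  have h4 := ((hasDerivAt_pow n w).mul h2.differentiableAt.hasDerivAt).deriv
  have h5 : (fun w => w ^ n * x w) = ((fun x => x ^ n) * x : ℂ → ℂ) := rfl
  rw [h5, h4]
  have h6 : w ^ n = w ^ (n - 1) * w := by
    rw [← pow_succ]
    congr 1
    omega
  rw [h6]
  ring

end

end PlaceGen

open PlaceGen in
/-- the place theorem -/
theorem place_gen {a b : ℕ} (ha : 0 < a) (hab : a < b) {c : ℝ} {X Y K x1 y1 k : ℂ → ℂ}
    (hx : AnalyticAt ℂ x1 0) (hx0 : x1 0 ≠ 0) (hX : ∀ᶠ w in 𝓝 (0:ℂ), X w = w ^ a * x1 w)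
    (hy : AnalyticAt ℂ y1 0) (hy0 : y1 0 ≠ 0) (hY : ∀ᶠ w in 𝓝 (0:ℂ), Y w = w ^ b * y1 w)
    (hk : AnalyticAt ℂ k 0) (hk0 : k 0 = 2 * (c - a)) (hK : ∀ᶠ w in 𝓝[≠] (0:ℂ), K w = k w / w)
    (hg : ∀ᶠ s in 𝓝[≠] (0:ℂ), GoodG X Y K s) :
    ∃ Yf A m δ, PlaceY Yf A δ ∧ AnalyticAt ℂ m (0, 0) ∧
      (∀ᶠ p in 𝓝 ((0, 0) : ℂ × ℂ), p.1 ≠ 0 →
        brN X Y p.1 (p.1 * (1 + p.2)) = m p * (p.1 * brD X Y p.1 (p.1 * (1 + p.2)))) ∧
      (∀ᶠ p in 𝓝 ((0, 0) : ℂ × ℂ), m (p.1, -A p) * (k p.1 * m p - 1) = m p) ∧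
      ∀ᶠ η in 𝓝 (0:ℂ), zet a b c (-A (0, η)) = -zet a b c η := by
  have ha' : (a : ℂ) ≠ 0 := by exact_mod_cast ha.ne'
  have hb' : (b : ℂ) ≠ 0 := by
    have : b ≠ 0 := by omega
    exact_mod_cast this
  have hba' : (b : ℂ) - a ≠ 0 := by
    rw [sub_ne_zero]
    exact_mod_cast hab.ne'
  set xd : ℂ → ℂ := fun t => a * x1 t + t * deriv x1 t with hxd
  set yd : ℂ → ℂ := fun t => b * y1 t + t * deriv y1 t with hyd
  have hxda : AnalyticAt ℂ xd 0 := (analyticAt_const.mul hx).add (analyticAt_id.mul hx.deriv)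
  have hyda : AnalyticAt ℂ yd 0 := (analyticAt_const.mul hy).add (analyticAt_id.mul hy.deriv)
  have hxd0 : xd 0 = a * x1 0 := by simp [hxd]
  have hyd0 : yd 0 = b * y1 0 := by simp [hyd]
  have hXd := deriv_pow_mul ha hx hX
  have hYd := deriv_pow_mul (ha.trans hab) hy hY
  obtain ⟨D1, hD1, hD1e, hD1z⟩ := MP_ae5b4e_an_ND.exists_div_y
    (Dn_ana (a := a) (b := b) hxda hyda) (Eventually.of_forall Dn_zero)
  obtain ⟨N0, hN0, hN0e, hN0z⟩ := MP_ae5b4e_an_ND.exists_div_y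
    (Nn_ana (a := a) (b := b) hx hy hxda hyda) (Eventually.of_forall Nn_zero)
  have hN00 : ∀ᶠ t in 𝓝 (0:ℂ), N0 (t, 0) = 0 := by
    filter_upwards [hN0z, hx.eventually_analyticAt, hy.eventually_analyticAt,
      hxda.eventually_analyticAt, hyda.eventually_analyticAt] with t h1 h2 h3 h4 h5
    rw [h1]
    exact Nn_deriv h2.differentiableAt h3.differentiableAt h4.differentiableAt
      h5.differentiableAt rfl rfl
  obtain ⟨N1, hN1, hN1e, -⟩ := MP_ae5b4e_an_ND.exists_div_y hN0 hN00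
  -- the slice `w = 0`
  have hsl : Tendsto (fun η : ℂ => ((0:ℂ), η)) (𝓝 0) (𝓝 (0, 0)) :=
    (Continuous.prodMk_right (0:ℂ)).tendsto 0
  have hD10 : D1 (0, 0) = x1 0 * y1 0 * (a * b * ((b : ℂ) - a)) := by
    rw [hD1z.self_of_nhds]
    have h1 : (fun η => Dn a b xd yd (0, η)) = fun η =>
        (x1 0 * y1 0 * (1 + η) ^ (a - 1)) * (a * b * ((1 + η) ^ (b - a) - 1)) :=
      funext fun η => Dn_at ha hab hxd0 hyd0 η
    rw [h1]
    have e0 : HasDerivAt (fun y : ℂ => 1 + y) 1 0 := (hasDerivAt_id (0:ℂ)).const_add 1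
    have h2 := ((e0.fun_pow (a - 1)).const_mul (x1 0 * y1 0)).mul
      (((e0.fun_pow (b - a)).sub_const 1).const_mul ((a : ℂ) * b))
    refine (h2.congr_of_eventuallyEq (Eventually.of_forall fun y => ?_)).deriv.trans ?_
    · rfl
    · simp only [add_zero, mul_one, one_pow, sub_self, mul_zero, zero_add]
      rw [Nat.cast_sub hab.le]
  have hD10' : D1 (0, 0) ≠ 0 := by
    rw [hD10]
    exact mul_ne_zero (mul_ne_zero hx0 hy0) (mul_ne_zero (mul_ne_zero ha' hb') hba')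
  set m : ℂ × ℂ → ℂ := fun p => p.2 * N1 p / D1 p with hm
  have hma : AnalyticAt ℂ m (0, 0) := (analyticAt_snd.mul hN1).div hD1 hD10'
  have hm00 : ∀ t, m (t, 0) = 0 := fun t => by simp [hm]
  have t3 : Tendsto (fun p : ℂ × ℂ => 1 + p.2) (𝓝 (0, 0)) (𝓝 1) := by
    have : Continuous (fun p : ℂ × ℂ => 1 + p.2) := by fun_prop
    simpa using this.tendsto (0, 0)
  -- `T m = Dh`
  set T : ℂ → ℂ := fun η => a * b * ((1 + η) ^ (b - a) - 1) with hT
  have hTne : ∀ᶠ η in 𝓝 (0:ℂ), η ≠ 0 → T η ≠ 0 := by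
    filter_upwards [hsl.eventually hD1e,
      hsl.eventually (hD1.continuousAt.eventually_ne hD10')] with η h1 h2 hη h3
    rw [Dn_at ha hab hxd0 hyd0] at h1
    have h4 : η * D1 (0, η) = 0 := by
      rw [← h1]
      have h5 : (a : ℂ) * b * ((1 + η) ^ (b - a) - 1) = 0 := h3
      rw [h5, mul_zero]
    exact (mul_ne_zero hη h2) h4
  have hmT : ∀ᶠ η in 𝓝 (0:ℂ), T η * m (0, η) = Dh a b η := by
    filter_upwards [hsl.eventually hD1e, hsl.eventually hN0e, hsl.eventually hN1e,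
      hsl.eventually (hD1.continuousAt.eventually_ne hD10'),
      hsl.eventually (t3.eventually_ne one_ne_zero)] with η h1 h2 h3 h4 h5
    by_cases hη : η = 0
    · subst hη
      rw [hm00]
      simp [Dh]
    rw [Dn_at ha hab hxd0 hyd0] at h1
    rw [Nn_at ha hab hxd0 hyd0, h3] at h2
    have h6 : x1 0 * y1 0 * (1 + η) ^ (a - 1) ≠ 0 :=
      mul_ne_zero (mul_ne_zero hx0 hy0) (pow_ne_zero _ h5)
    have h7 : T η * m (0, η) * (x1 0 * y1 0 * (1 + η) ^ (a - 1)) =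
        Dh a b η * (x1 0 * y1 0 * (1 + η) ^ (a - 1)) := by
      have h8 : T η * m (0, η) * (x1 0 * y1 0 * (1 + η) ^ (a - 1)) =
          (x1 0 * y1 0 * (1 + η) ^ (a - 1) * (a * b * ((1 + η) ^ (b - a) - 1))) *
            (η * N1 (0, η) / D1 (0, η)) := by
        simp only [hT, hm]
        ring
      rw [h8, h1, mul_comm (Dh a b η), h2]
      field_simp
    exact mul_right_cancel₀ h6 h7
  -- `zet` in terms of `m`
  have hzT : ∀ c' : ℝ, ∀ η : ℂ, c' * Dh a b η - a * ((b : ℂ) - a) * ((1 + η) ^ b - 1) =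
      (c' - a) * Dh a b η - T η := by
    intro c' η
    simp only [Dh, hT]
    ring
  have hzm : ∀ c' : ℝ, ∀ᶠ η in 𝓝 (0:ℂ), zet a b c' η = m (0, η) / ((c' - a) * m (0, η) - 1) := by
    intro c'
    filter_upwards [hTne, hmT] with η h1 h2
    by_cases hη : η = 0
    · subst hη
      rw [hm00]
      simp [zet, Dh]
    have h3 := h1 hη
    unfold zet
    rw [hzT, ← h2]
    have h4 : (c' - a : ℂ) * (T η * m (0, η)) - T η = T η * ((c' - a) * m (0, η) - 1) := by ring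
    rw [h4, mul_div_mul_left _ _ h3]
  have hm1 : deriv (fun y => m (0, y)) 0 ≠ 0 := by
    have h1 : (fun y => m (0, y)) =ᶠ[𝓝 0] fun η => -zet a b a η := by
      filter_upwards [hzm a] with η h1
      rw [h1]
      simp only [Complex.ofReal_natCast, sub_self, zero_mul, zero_sub]
      ring
    rw [h1.deriv_eq]
    have h2 := (zet_ana ha hab (a : ℝ)).2.2.1
    have h3 : deriv (fun η => -zet a b a η) 0 = -deriv (zet a b a) 0 := by
      exact deriv.fun_neg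
    rw [h3, h2]
    norm_num
  -- the brackets
  have t1 : Tendsto (fun p : ℂ × ℂ => p.1) (𝓝 (0, 0)) (𝓝 0) := continuous_fst.tendsto _
  have t2 : Tendsto (fun p : ℂ × ℂ => p.1 * (1 + p.2)) (𝓝 (0, 0)) (𝓝 0) := by
    have : Continuous (fun p : ℂ × ℂ => p.1 * (1 + p.2)) := by fun_prop
    simpa using this.tendsto (0, 0)
  have hF : ∀ᶠ p in 𝓝 ((0, 0) : ℂ × ℂ), p.1 ≠ 0 →
      brN X Y p.1 (p.1 * (1 + p.2)) = m p * (p.1 * brD X Y p.1 (p.1 * (1 + p.2))) ∧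
      (p.2 ≠ 0 → brD X Y p.1 (p.1 * (1 + p.2)) ≠ 0) := by
    filter_upwards [t1.eventually hXd, t1.eventually hYd, t2.eventually hXd, t2.eventually hYd,
      t1.eventually hX, t1.eventually hY, t2.eventually hX, t2.eventually hY,
      hD1e, hN0e, hN1e, hD1.continuousAt.eventually_ne hD10'] with p h1 h2 h3 h4 h5 h6 h7 h8
      h9 h10 h11 h12 ht
    obtain ⟨t, η⟩ := p
    simp only at h1 h2 h3 h4 h5 h6 h7 h8 h9 h10 h11 h12 ht ⊢
    have q1 : t ^ a = t ^ (a - 1) * t := by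
      rw [← pow_succ]
      congr 1
      omega
    have q2 : t ^ b = t ^ (b - 1) * t := by
      rw [← pow_succ]
      congr 1
      omega
    have e1 : brD X Y t (t * (1 + η)) = t ^ (a - 1) * t ^ (b - 1) * Dn a b xd yd (t, η) := by
      unfold brD
      rw [h1, h2, h3, h4]
      simp only [Dn, hxd, hyd, mul_pow]
      ring
    have e2 : brN X Y t (t * (1 + η)) =
        t ^ (a - 1) * t ^ (b - 1) * t * Nn a b x1 y1 xd yd (t, η) := by
      unfold brN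
      rw [h3, h4, h5, h6, h7, h8]
      simp only [Nn, hxd, hyd, mul_pow]
      rw [q1, q2]
      ring
    rw [e1, e2, h9, h10, h11]
    refine ⟨?_, fun hη => ?_⟩
    · simp only [hm]
      field_simp
    · exact mul_ne_zero (mul_ne_zero (pow_ne_zero _ ht) (pow_ne_zero _ ht)) (mul_ne_zero hη h12)
  obtain ⟨Yf, A, δ, hpl, hAa, hA0, hrel⟩ := place_of_mk hk hK hg hma hm00 hm1 hF
  refine ⟨Yf, A, m, δ, hpl, hma, ?_, hrel, ?_⟩
  · filter_upwards [hF] with p h1 h2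
    exact (h1 h2).1
  have hs1 : Tendsto (fun η : ℂ => -A (0, η)) (𝓝 0) (𝓝 0) := by
    have h1 : ContinuousAt (fun η : ℂ => A (0, η)) 0 :=
      ContinuousAt.comp (f := fun η : ℂ => ((0:ℂ), η)) (g := A) hAa.continuousAt hsl
    have h2 : Tendsto (fun η : ℂ => -A (0, η)) (𝓝 0) (𝓝 (-A (0, 0))) := h1.tendsto.neg
    rwa [hA0, neg_zero] at h2
  have hmc : Tendsto (fun η : ℂ => m (0, η)) (𝓝 0) (𝓝 0) := by
    have h1 : ContinuousAt (fun η : ℂ => m (0, η)) 0 :=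
      ContinuousAt.comp (f := fun η : ℂ => ((0:ℂ), η)) (g := m) hma.continuousAt hsl
    have h2 : Tendsto (fun η : ℂ => m (0, η)) (𝓝 0) (𝓝 (m (0, 0))) := h1.tendsto
    rwa [hm00] at h2
  have hne : ∀ e : ℂ, ∀ᶠ η in 𝓝 (0:ℂ), e * m (0, η) - 1 ≠ 0 := by
    intro e
    have h1 : Tendsto (fun η : ℂ => e * m (0, η) - 1) (𝓝 0) (𝓝 (e * 0 - 1)) :=
      (hmc.const_mul e).sub_const 1
    refine h1.eventually_ne ?_
    simp
  filter_upwards [hsl.eventually hrel, hs1.eventually (hzm c), hzm c, hne (c - a),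
    hs1.eventually (hne (c - a))] with η h1 h2 h3 h4 h5
  rw [hk0] at h1
  rw [h2, h3]
  rw [← neg_div, div_eq_div_iff h5 h4]
  linear_combination h1

end Pool.Agent.MP_ae5b4e_an_ALG
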