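import Mathlib
import Pool.Agent.Lib.MP_ae5b4e_an_ALG.PlaceGen
import Pool.Agent.Lib.MP_ae5b4e_an_FLEX.BdY
import Pool.Agent.Lib.MP_ae5b4e_an_FLEX.FipY
import Pool.Agent.Lib.SCV.Osgood

/-!
# MP_ae5b4e_an, algebraic tables, module RE: the place `(k, 2k)` in the coordinate `x = w ^ k`
-/

set_option autoImplicit false

noncomputable section

namespace Pool.Agent.MP_ae5b4e_an_ALG

open Filter Topology Set Metric Complex Polynomial
open scoped Real
open Pool.Agent.MP_ae5b4e_an_ND (Dx Dy Reg)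
open Pool.Agent.MP_ae5b4e_an_FLEX

namespace RamCoord

/-! ### The coordinate -/

/-- the coordinate `η` as a function of `ξ`, `(1 + η) ^ k = 1 + ξ` -/
def et (k : ℕ) (ξ : ℂ) : ℂ := (1 + ξ) ^ (1 / k : ℂ) - 1

theorem et_zero (k : ℕ) : et k 0 = 0 := by simp [et]

theorem et_add (k : ℕ) (ξ : ℂ) : 1 + et k ξ = (1 + ξ) ^ (1 / k : ℂ) := by
  unfold et
  ring

theorem et_pow {k : ℕ} (hk : k ≠ 0) (ξ : ℂ) : (1 + et k ξ) ^ k = 1 + ξ := by
  rw [et_add, one_div, Complex.cpow_nat_inv_pow _ hk]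

theorem pow_cpow {k : ℕ} (hk : k ≠ 0) :
    ∀ᶠ z in 𝓝 (0:ℂ), ((1 + z) ^ k) ^ (1 / k : ℂ) = 1 + z := by
  have h1 : ContinuousAt (fun z : ℂ => (1 + z).arg) 0 := by
    refine ContinuousAt.comp (g := Complex.arg) (f := fun z : ℂ => 1 + z) ?_ (by fun_prop)
    exact Complex.continuousAt_arg (by simp)
  have h0 : (1 + (0:ℂ)).arg = 0 := by simp
  have hk' : (0:ℝ) < k := by exact_mod_cast Nat.pos_of_ne_zero hk
  have h2 : -(π / k) < (1 + (0:ℂ)).arg := by
    rw [h0]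
    have := Real.pi_pos
    have : 0 < π / k := by positivity
    linarith
  have h3 : (1 + (0:ℂ)).arg < π / k := by
    rw [h0]
    have := Real.pi_pos
    positivity
  filter_upwards [continuousAt_const.eventually_lt h1 h2, h1.eventually_lt continuousAt_const h3]
    with z e1 e2
  rw [one_div, Complex.pow_cpow_nat_inv hk e1 e2.le]

theorem et_ana (k : ℕ) : AnalyticAt ℂ (et k) 0 := by
  unfold et
  refine AnalyticAt.sub ?_ analyticAt_const
  refine AnalyticAt.cpow (analyticAt_const.add analyticAt_id) analyticAt_const ?_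
  simp

theorem et_inv {k : ℕ} (hk : k ≠ 0) : ∀ᶠ z in 𝓝 (0:ℂ), et k ((1 + z) ^ k - 1) = z := by
  filter_upwards [pow_cpow hk] with z hz
  unfold et
  rw [add_sub_cancel, hz]
  ring

theorem et_deriv {k : ℕ} (hk : k ≠ 0) : ∀ᶠ ξ in 𝓝 (0:ℂ), AnalyticAt ℂ (et k) ξ ∧
    1 + et k ξ ≠ 0 ∧ deriv (et k) ξ * (k * (1 + et k ξ) ^ (k - 1)) = 1 := by
  have h1 : ∀ᶠ ξ in 𝓝 (0:ℂ), 1 + et k ξ ≠ 0 := by
    have : ContinuousAt (fun ξ => 1 + et k ξ) 0 := continuousAt_const.add (et_ana k).continuousAt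
    refine this.eventually_ne ?_
    simp [et_zero]
  filter_upwards [(et_ana k).eventually_analyticAt, h1] with ξ e1 e2
  refine ⟨e1, e2, ?_⟩
  have h2 : HasDerivAt (fun ξ => (1 + et k ξ) ^ k)
      (k * (1 + et k ξ) ^ (k - 1) * deriv (et k) ξ) ξ :=
    (e1.differentiableAt.hasDerivAt.const_add 1).fun_pow k
  have h3 : (fun ξ => (1 + et k ξ) ^ k) = fun ξ => 1 + ξ := funext (et_pow hk)
  rw [h3] at h2
  have h4 := h2.unique ((hasDerivAt_id ξ).const_add 1)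
  linear_combination h4

/-! ### Radii -/

theorem rad {P : ℂ × ℂ → Prop} (h : ∀ᶠ p in 𝓝 ((0, 0) : ℂ × ℂ), P p) :
    ∃ r > 0, ∀ w ξ : ℂ, ‖w‖ < r → ‖ξ‖ < r → P (w, ξ) := by
  obtain ⟨r, hr, h1⟩ := Metric.eventually_nhds_iff_ball.1 h
  refine ⟨r, hr, fun w ξ hw hξ => h1 _ ?_⟩
  rw [mem_ball, Prod.dist_eq, dist_zero_right, dist_zero_right]
  exact max_lt hw hξ

/-- sections -/
theorem sect {P : ℂ × ℂ → Prop} (h : ∀ᶠ p in 𝓝 ((0, 0) : ℂ × ℂ), P p) :
    ∀ᶠ ξ in 𝓝 (0:ℂ), ∀ᶠ w in 𝓝 (0:ℂ), P (w, ξ) := by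
  obtain ⟨r, hr, h1⟩ := rad h
  filter_upwards [Metric.ball_mem_nhds (0:ℂ) hr] with ξ hξ
  filter_upwards [Metric.ball_mem_nhds (0:ℂ) hr] with w hw
  exact h1 w ξ (by simpa using hw) (by simpa using hξ)

theorem axis {P : ℂ × ℂ → Prop} (h : ∀ᶠ p in 𝓝 ((0, 0) : ℂ × ℂ), P p) :
    ∀ᶠ ξ in 𝓝 (0:ℂ), P (0, ξ) := by
  filter_upwards [sect h] with ξ hξ
  exact hξ.self_of_nhds

/-! ### The relation -/

theorem rel_alg {k : ℕ} (hk : k ≠ 0) {w s ξ mw Ys Yw dYs dYw : ℂ} (hs : s ≠ 0)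
    (hξ : 1 + ξ ≠ 0) (hsk : s ^ k = w ^ k * (1 + ξ))
    (h : (s ^ k - w ^ k) * dYs - (Ys - Yw) * (k * s ^ (k - 1)) =
      mw * (w * (k * w ^ (k - 1) * dYs - dYw * (k * s ^ (k - 1))))) :
    ξ * (s * dYs / k) / (1 + ξ) - (Ys - Yw) =
      (k * mw) * ((s * dYs / k) / (1 + ξ) - w * dYw / k) := by
  obtain ⟨n, rfl⟩ := Nat.exists_eq_succ_of_ne_zero hk
  have hk' : ((n.succ : ℕ) : ℂ) ≠ 0 := by exact_mod_cast hk
  rw [Nat.succ_sub_one] at h
  rw [Nat.succ_eq_add_one] at *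
  set K : ℂ := ((n + 1 : ℕ) : ℂ) with hK
  rw [pow_succ, pow_succ] at hsk h
  have hσ : s ^ n ≠ 0 := pow_ne_zero _ hs
  set σ := s ^ n
  set ω := w ^ n
  have e : s * dYs / K / (1 + ξ) = w * ω * dYs / (K * σ) := by
    rw [div_div, div_eq_div_iff (mul_ne_zero hk' hξ) (mul_ne_zero hk' hσ)]
    linear_combination K * dYs * hsk
  have e2 : ξ * (s * dYs / K) / (1 + ξ) = ξ * (w * ω * dYs / (K * σ)) := by
    rw [← e]
    ring
  rw [e2, e]
  field_simp
  linear_combination h - dYs * hsk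

theorem m_zero {k : ℕ} (hk : k ≠ 0) {v : ℂ → ℂ} (hv : AnalyticAt ℂ v 0) (hv0 : v 0 ≠ 0)
    {m : ℂ × ℂ → ℂ} (hm : AnalyticAt ℂ m (0, 0))
    (hrel : ∀ᶠ p in 𝓝 ((0, 0) : ℂ × ℂ), p.1 ≠ 0 → ∀ s, s = p.1 * (1 + p.2) ^ (1 / k : ℂ) →
        p.2 * (s * deriv (fun w => w ^ (2 * k) * v w) s / k) / (1 + p.2) -
            (s ^ (2 * k) * v s - p.1 ^ (2 * k) * v p.1) =
          m p * ((s * deriv (fun w => w ^ (2 * k) * v w) s / k) / (1 + p.2) -
            p.1 * deriv (fun w => w ^ (2 * k) * v w) p.1 / k)) :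
    ∀ᶠ ξ in 𝓝 (0:ℂ), m (0, ξ) = ξ / 2 := by
  have hkc : (k : ℂ) ≠ 0 := by exact_mod_cast hk
  have hF : AnalyticAt ℂ (fun w => 2 * v w + w * deriv v w / k) 0 :=
    (analyticAt_const.mul hv).add ((analyticAt_id.mul hv.deriv).div analyticAt_const hkc)
  set F : ℂ → ℂ := fun w => 2 * v w + w * deriv v w / k with hFdef
  have hF0 : F 0 = 2 * v 0 := by simp [hFdef]
  -- the derivative of `Y`
  have hdY : ∀ᶠ s in 𝓝 (0:ℂ), s * deriv (fun w => w ^ (2 * k) * v w) s / k =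
      s ^ (2 * k) * F s := by
    filter_upwards [hv.eventually_analyticAt] with s hs
    have h1 : HasDerivAt (fun w => w ^ (2 * k) * v w)
        (((2 * k : ℕ) : ℂ) * s ^ (2 * k - 1) * v s + s ^ (2 * k) * deriv v s) s :=
      (hasDerivAt_pow (2 * k) s).mul hs.differentiableAt.hasDerivAt
    rw [h1.deriv]
    have h2 : s ^ (2 * k) = s ^ (2 * k - 1) * s := by
      rw [← pow_succ]
      congr 1
      omega
    simp only [hFdef]
    rw [h2]
    push_cast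
    field_simp
  have hne1 : ∀ᶠ ξ in 𝓝 (0:ℂ), 1 + ξ ≠ 0 := by
    have : ContinuousAt (fun ξ : ℂ => 1 + ξ) 0 := by fun_prop
    exact this.eventually_ne (by simp)
  have hmain : ∀ᶠ ξ in 𝓝 (0:ℂ), ξ ≠ 0 → m (0, ξ) = ξ / 2 := by
    filter_upwards [sect hrel, axis hm.eventually_analyticAt, hne1] with ξ h1 h2 hξ1 hξ0
    set u : ℂ := (1 + ξ) ^ (1 / k : ℂ) with hu
    have huk : u ^ k = 1 + ξ := by
      rw [hu, one_div, Complex.cpow_nat_inv_pow _ hk]
    have hwu : Tendsto (fun w : ℂ => w * u) (𝓝 0) (𝓝 0) := by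
      have : ContinuousAt (fun w : ℂ => w * u) 0 := by fun_prop
      simpa using this.tendsto
    have hrel2 : ∀ᶠ w in 𝓝[≠] (0:ℂ),
        ξ * (1 + ξ) * F (w * u) - ((1 + ξ) ^ 2 * v (w * u) - v w) =
          m (w, ξ) * ((1 + ξ) * F (w * u) - F w) := by
      filter_upwards [h1.filter_mono nhdsWithin_le_nhds, self_mem_nhdsWithin,
        (hwu.eventually hdY).filter_mono nhdsWithin_le_nhds,
        hdY.filter_mono nhdsWithin_le_nhds] with w e1 hw e3 e4
      have hw0 : w ≠ 0 := hw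
      have e5 := e1 hw0 (w * u) rfl
      rw [e3, e4] at e5
      have hs : (w * u) ^ (2 * k) = w ^ (2 * k) * (1 + ξ) ^ 2 := by
        rw [mul_pow, mul_comm 2 k, pow_mul u, huk]
      rw [hs] at e5
      have hwk : w ^ (2 * k) ≠ 0 := pow_ne_zero _ hw0
      field_simp at e5
      linear_combination e5
    have hcF : ContinuousAt (fun w : ℂ => F (w * u)) 0 := by
      refine ContinuousAt.comp (g := F) (f := fun w : ℂ => w * u) ?_ (by fun_prop)
      simpa using hF.continuousAt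
    have hcv : ContinuousAt (fun w : ℂ => v (w * u)) 0 := by
      refine ContinuousAt.comp (g := v) (f := fun w : ℂ => w * u) ?_ (by fun_prop)
      simpa using hv.continuousAt
    have hcm : ContinuousAt (fun w : ℂ => m (w, ξ)) 0 := by
      refine ContinuousAt.comp (g := m) (f := fun w : ℂ => ((w, ξ) : ℂ × ℂ)) ?_ (by fun_prop)
      exact h2.continuousAt
    have hl : Tendsto (fun w => ξ * (1 + ξ) * F (w * u) - ((1 + ξ) ^ 2 * v (w * u) - v w))
        (𝓝[≠] 0) (𝓝 (ξ * (1 + ξ) * F (0 * u) - ((1 + ξ) ^ 2 * v (0 * u) - v 0))) :=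
      ((hcF.tendsto.const_mul _).sub ((hcv.tendsto.const_mul _).sub
        hv.continuousAt.tendsto)).mono_left nhdsWithin_le_nhds
    have hr : Tendsto (fun w => m (w, ξ) * ((1 + ξ) * F (w * u) - F w))
        (𝓝[≠] 0) (𝓝 (m (0, ξ) * ((1 + ξ) * F (0 * u) - F 0))) :=
      (hcm.tendsto.mul ((hcF.tendsto.const_mul _).sub
        hF.continuousAt.tendsto)).mono_left nhdsWithin_le_nhds
    have h5 := tendsto_nhds_unique_of_eventuallyEq hl hr hrel2
    rw [zero_mul, hF0] at h5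
    have h6 : v 0 * ξ * (ξ - 2 * m (0, ξ)) = 0 := by linear_combination h5
    have h7 : ξ - 2 * m (0, ξ) = 0 := by
      rcases mul_eq_zero.1 h6 with h | h
      · exact absurd h (mul_ne_zero hv0 hξ0)
      · exact h
    linear_combination -h7 / 2
  -- the point `ξ = 0`
  have h0 : m (0, 0) = 0 := by
    have hc : ContinuousAt (fun ξ : ℂ => m (0, ξ)) 0 := by
      refine ContinuousAt.comp (g := m) (f := fun ξ : ℂ => ((0, ξ) : ℂ × ℂ)) ?_ (by fun_prop)
      exact hm.continuousAt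
    have h1 : Tendsto (fun ξ : ℂ => m (0, ξ)) (𝓝[≠] 0) (𝓝 (m (0, 0))) :=
      hc.tendsto.mono_left nhdsWithin_le_nhds
    have h2 : Tendsto (fun ξ : ℂ => ξ / 2) (𝓝[≠] 0) (𝓝 (0 / 2)) := by
      have : ContinuousAt (fun ξ : ℂ => ξ / 2) 0 := by fun_prop
      exact this.tendsto.mono_left nhdsWithin_le_nhds
    have h3 : (fun ξ : ℂ => m (0, ξ)) =ᶠ[𝓝[≠] 0] fun ξ => ξ / 2 := by
      filter_upwards [hmain.filter_mono nhdsWithin_le_nhds, self_mem_nhdsWithin] with ξ e1 e2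
      exact e1 e2
    have h4 := tendsto_nhds_unique_of_eventuallyEq h1 h2 h3
    simpa using h4
  filter_upwards [hmain] with ξ h
  by_cases hξ : ξ = 0
  · rw [hξ, h0]
    simp
  · exact h hξ

/-! ### The slope -/

theorem bs_ana {Yf A : ℂ × ℂ → ℂ} {δ C : ℝ} {b : ℕ → ℂ → ℂ} (hs : SerY Yf A δ C b) :
    AnalyticAt ℂ (fun p : ℂ × ℂ => bs b p.1 p.2) (0, 0) := by
  have hC := hs.C_pos
  have hδ := hs.place.δ_pos
  have hC2 : 0 < 1 / (2 * C) := by positivity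
  set U : Set (ℂ × ℂ) := ball (0:ℂ) δ ×ˢ ball (0:ℂ) (1 / (2 * C)) with hU
  have hUo : IsOpen U := isOpen_ball.prod isOpen_ball
  have h0 : ((0, 0) : ℂ × ℂ) ∈ U := ⟨by simpa using hδ, by simpa using hC⟩
  have hbd : ∀ (n : ℕ) (p : ℂ × ℂ), p ∈ U → ‖b n p.1 * p.2 ^ n‖ ≤ (1 / 2 : ℝ) ^ n := by
    rintro n ⟨w, η⟩ ⟨h1, h2⟩
    simp only [mem_ball, dist_zero_right] at h1 h2
    rw [norm_mul, norm_pow]
    calc ‖b n w‖ * ‖η‖ ^ n ≤ C ^ n * (1 / (2 * C)) ^ n := by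
          gcongr
          exact hs.b_bound n w h1
      _ = (1 / 2 : ℝ) ^ n := by
          rw [← mul_pow]
          congr 1
          field_simp
  refine Pool.Agent.SCV.osgood U hUo _ ?_ ?_ ?_ _ h0
  · unfold bs
    refine continuousOn_tsum (u := fun n : ℕ => (1 / 2 : ℝ) ^ n) (fun n => ?_)
      summable_geometric_two (fun n p hp => hbd n p hp)
    refine ContinuousOn.mul ?_ (by fun_prop)
    refine (hs.b_diff n).continuousOn.comp continuousOn_fst ?_
    exact fun p hp => hp.1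
  · rintro ⟨w, η⟩ ⟨h1, h2⟩
    simp only [mem_ball, dist_zero_right] at h1 h2
    have h3 := FipY.bs_comp_diff hs (s := ball (0:ℂ) δ) isOpen_ball (F := fun t => t)
      (G := fun _ => η) differentiableOn_id (differentiableOn_const _)
      (fun t ht => by simpa using ht) (fun t _ => h2.le)
    exact h3.differentiableAt (isOpen_ball.mem_nhds (by simpa using h1))
  · rintro ⟨w, η⟩ ⟨h1, h2⟩
    simp only [mem_ball, dist_zero_right] at h1 h2
    have h3 := FipY.bs_comp_diff hs (s := ball (0:ℂ) (1 / (2 * C))) isOpen_ball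
      (F := fun _ => w) (G := fun t => t) (differentiableOn_const _) differentiableOn_id
      (fun t _ => h1) (fun t ht => by
        have : ‖t‖ < 1 / (2 * C) := by simpa using ht
        exact this.le)
    exact h3.differentiableAt (isOpen_ball.mem_nhds (by simpa using h2))

theorem bs_zero {Yf A : ℂ × ℂ → ℂ} {δ C : ℝ} {b : ℕ → ℂ → ℂ} (hs : SerY Yf A δ C b) (w : ℂ) :
    bs b w 0 = 0 := by
  unfold bs
  rw [tsum_eq_single 0]
  · simp [hs.b_zero w]
  · intro n hn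
    simp [hn]

/-- the derivative in the second variable of `bs` at the origin -/
theorem bs_deriv {Yf A : ℂ × ℂ → ℂ} {δ C : ℝ} {b : ℕ → ℂ → ℂ} (hs : SerY Yf A δ C b) :
    HasDerivAt (fun η => bs b 0 η) (b 1 0) 0 := by
  have hC := hs.C_pos
  have hδ := hs.place.δ_pos
  -- the power series
  have hana : AnalyticAt ℂ (fun η : ℂ => bs b 0 η) 0 := by
    have h1 : AnalyticAt ℂ (fun η : ℂ => ((0, η) : ℂ × ℂ)) 0 :=
      analyticAt_const.prod analyticAt_id
    exact (bs_ana hs).comp_of_eq h1 rfl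
  have hd := hana.differentiableAt.hasDerivAt
  have hlim : Tendsto (fun η : ℂ => bs b 0 η / η) (𝓝[≠] 0) (𝓝 (deriv (fun η => bs b 0 η) 0)) := by
    have := hasDerivAt_iff_tendsto_slope.1 hd
    refine this.congr fun η => ?_
    rw [slope_def_field, bs_zero hs 0, sub_zero, sub_zero]
  have hlim2 : Tendsto (fun η : ℂ => bs b 0 η / η) (𝓝[≠] 0) (𝓝 (b 1 0)) := by
    have hev : ∀ᶠ η in 𝓝[≠] (0:ℂ), ‖bs b 0 η / η - b 1 0‖ ≤ 2 * C ^ 2 * ‖η‖ := by
      have hC2 : 0 < 1 / (2 * C) := by positivity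
      filter_upwards [self_mem_nhdsWithin,
        (Metric.ball_mem_nhds (0:ℂ) hC2 : _ ∈ 𝓝 (0:ℂ)) |> mem_nhdsWithin_of_mem_nhds]
        with η hη0 hη
      have hη1 : ‖η‖ < 1 / (2 * C) := by simpa using hη
      have hη2 : (η : ℂ) ≠ 0 := hη0
      have hCη : C * ‖η‖ ≤ 1 / 2 := by
        rw [lt_div_iff₀ (by positivity)] at hη1
        linarith
      have hsum : Summable fun n : ℕ => b n 0 * η ^ n := by
        refine Summable.of_norm_bounded (g := fun n : ℕ => (1 / 2 : ℝ) ^ n)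
          summable_geometric_two fun n => ?_
        rw [norm_mul, norm_pow]
        calc ‖b n 0‖ * ‖η‖ ^ n ≤ C ^ n * ‖η‖ ^ n := by
              gcongr
              exact hs.b_bound n 0 (by simpa using hδ)
          _ = (C * ‖η‖) ^ n := by rw [mul_pow]
          _ ≤ (1 / 2) ^ n := by gcongr
      have h1 : bs b 0 η = b 1 0 * η + ∑' n, b (n + 2) 0 * η ^ (n + 2) := by
        unfold bs
        rw [← hsum.sum_add_tsum_nat_add 2, Finset.sum_range_succ, Finset.sum_range_one,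
          hs.b_zero 0]
        simp
      have h2 : ‖∑' n, b (n + 2) 0 * η ^ (n + 2)‖ ≤ 2 * C ^ 2 * ‖η‖ ^ 2 := by
        have h3 : HasSum (fun n : ℕ => C ^ 2 * ‖η‖ ^ 2 * (1 / 2 : ℝ) ^ n)
            (C ^ 2 * ‖η‖ ^ 2 * 2) := hasSum_geometric_two.mul_left _
        refine (tsum_of_norm_bounded h3 fun n => ?_).trans (le_of_eq (by ring))
        rw [norm_mul, norm_pow]
        calc ‖b (n + 2) 0‖ * ‖η‖ ^ (n + 2) ≤ C ^ (n + 2) * ‖η‖ ^ (n + 2) := by
              gcongr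
              exact hs.b_bound (n + 2) 0 (by simpa using hδ)
          _ = C ^ 2 * ‖η‖ ^ 2 * (C * ‖η‖) ^ n := by ring
          _ ≤ C ^ 2 * ‖η‖ ^ 2 * (1 / 2) ^ n := by gcongr
      have h4 : bs b 0 η / η - b 1 0 = (∑' n, b (n + 2) 0 * η ^ (n + 2)) / η := by
        rw [h1]
        field_simp
        ring
      rw [h4, norm_div]
      have h5 : 0 < ‖η‖ := norm_pos_iff.2 hη2
      rw [div_le_iff₀ h5]
      calc _ ≤ _ := h2
        _ = _ := by ring
    rw [tendsto_iff_norm_sub_tendsto_zero]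
    refine squeeze_zero' (Eventually.of_forall fun _ => norm_nonneg _) hev ?_
    have : ContinuousAt (fun η : ℂ => 2 * C ^ 2 * ‖η‖) 0 := by fun_prop
    have h6 := this.tendsto
    simp only [norm_zero, mul_zero] at h6
    exact h6.mono_left nhdsWithin_le_nhds
  rw [tendsto_nhds_unique hlim2 hlim]
  exact hd

/-- uniqueness for the functional equation of the slope on the axis -/
theorem eq_zero_of_fe {B : ℂ → ℂ} (hB : AnalyticAt ℂ B 0) (h0 : B 0 = 0) (h1 : deriv B 0 = 0)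
    (h : ∀ᶠ ξ in 𝓝 (0:ℂ), B (ξ / (1 - ξ)) * (1 - B ξ) = B ξ) : ∀ᶠ ξ in 𝓝 (0:ℂ), B ξ = 0 := by
  by_contra hne
  obtain ⟨n, g, hg, hg0, he⟩ := (hB.exists_eventuallyEq_pow_smul_nonzero_iff).2 hne
  simp only [sub_zero, smul_eq_mul] at he
  -- the order is at least two
  have hn : 2 ≤ n := by
    rcases Nat.lt_or_ge n 2 with hn | hn
    · exfalso
      interval_cases n
      · have := he.self_of_nhds
        rw [h0] at this
        simp only [pow_zero, one_mul] at this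
        exact hg0 this.symm
      · have h2 : deriv B 0 = deriv (fun z => z ^ 1 * g z) 0 := Filter.EventuallyEq.deriv_eq he
        have h3 : HasDerivAt (fun z : ℂ => z ^ 1 * g z) (1 * g 0 + 0 * deriv g 0) 0 := by
          have : HasDerivAt (fun z : ℂ => z * g z) (1 * g 0 + 0 * deriv g 0) 0 :=
            (hasDerivAt_id (0:ℂ)).mul hg.differentiableAt.hasDerivAt
          simpa only [pow_one] using this
        rw [h1, h3.deriv] at h2
        simp only [one_mul, zero_mul, add_zero] at h2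
        exact hg0 h2.symm
    · exact hn
  have hT : Tendsto (fun ξ : ℂ => ξ / (1 - ξ)) (𝓝 0) (𝓝 0) := by
    have : ContinuousAt (fun ξ : ℂ => ξ / (1 - ξ)) 0 :=
      continuousAt_id.div (by fun_prop) (by simp)
    simpa using this.tendsto
  have hne1 : ∀ᶠ ξ in 𝓝 (0:ℂ), 1 - ξ ≠ 0 := by
    have : ContinuousAt (fun ξ : ℂ => 1 - ξ) 0 := by fun_prop
    exact this.eventually_ne (by simp)
  -- the equation for `g`
  have hge : ∀ᶠ ξ in 𝓝[≠] (0:ℂ), g (ξ / (1 - ξ)) * (1 - ξ ^ n * g ξ) = (1 - ξ) ^ n * g ξ := by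
    filter_upwards [h.filter_mono nhdsWithin_le_nhds, he.filter_mono nhdsWithin_le_nhds,
      (hT.eventually he).filter_mono nhdsWithin_le_nhds,
      hne1.filter_mono nhdsWithin_le_nhds, self_mem_nhdsWithin] with ξ e1 e2 e3 e4 e5
    have hξ : ξ ≠ 0 := e5
    rw [e3, e2, div_pow] at e1
    have h6 : ξ ^ n ≠ 0 := pow_ne_zero _ hξ
    have h7 : (1 - ξ) ^ n ≠ 0 := pow_ne_zero _ e4
    field_simp at e1
    linear_combination e1
  have hgT : AnalyticAt ℂ (fun ξ : ℂ => g (ξ / (1 - ξ))) 0 := by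
    have : AnalyticAt ℂ (fun ξ : ℂ => ξ / (1 - ξ)) 0 :=
      analyticAt_id.div (analyticAt_const.sub analyticAt_id) (by simp)
    exact hg.comp_of_eq this (by simp)
  have hL : AnalyticAt ℂ (fun ξ : ℂ => g (ξ / (1 - ξ)) * (1 - ξ ^ n * g ξ)) 0 :=
    hgT.mul (analyticAt_const.sub ((analyticAt_id.pow n).mul hg))
  have hR : AnalyticAt ℂ (fun ξ : ℂ => (1 - ξ) ^ n * g ξ) 0 :=
    ((analyticAt_const.sub analyticAt_id).pow n).mul hg
  have hge2 : (fun ξ : ℂ => g (ξ / (1 - ξ)) * (1 - ξ ^ n * g ξ)) =ᶠ[𝓝 0]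
      fun ξ => (1 - ξ) ^ n * g ξ :=
    (hL.frequently_eq_iff_eventually_eq hR).1 hge.frequently
  have hd := hge2.deriv_eq
  -- the derivatives
  have hTd : HasDerivAt (fun ξ : ℂ => ξ / (1 - ξ)) 1 0 := by
    have h8 : HasDerivAt (fun ξ : ℂ => ξ / (1 - ξ))
        ((1 * (1 - 0) - 0 * (-1)) / (1 - 0) ^ 2) 0 :=
      (hasDerivAt_id (0:ℂ)).div ((hasDerivAt_id (0:ℂ)).const_sub 1) (by simp)
    exact h8.congr_deriv (by norm_num)
  have hgd : HasDerivAt g (deriv g 0) 0 := hg.differentiableAt.hasDerivAt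
  have hgTd : HasDerivAt (fun ξ : ℂ => g (ξ / (1 - ξ))) (deriv g 0 * 1) 0 := by
    refine HasDerivAt.comp (h₂ := g) (h := fun ξ : ℂ => ξ / (1 - ξ)) (0:ℂ) ?_ hTd
    simpa using hgd
  have hpd : HasDerivAt (fun ξ : ℂ => ξ ^ n * g ξ) 0 0 := by
    have h9 := (hasDerivAt_pow n (0:ℂ)).mul hgd
    have h10 : (n : ℂ) * 0 ^ (n - 1) * g 0 + 0 ^ n * deriv g 0 = 0 := by
      rw [zero_pow (by omega), zero_pow (by omega)]
      ring
    rw [h10] at h9
    exact h9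
  have hLd := hgTd.mul (hpd.const_sub 1)
  have hRd : HasDerivAt (fun ξ : ℂ => (1 - ξ) ^ n * g ξ) (-(n : ℂ) * g 0 + deriv g 0) 0 := by
    have h11 := (((hasDerivAt_id (0:ℂ)).const_sub 1).fun_pow n).mul hgd
    refine h11.congr_deriv ?_
    simp
  have e1 : deriv (fun ξ : ℂ => g (ξ / (1 - ξ)) * (1 - ξ ^ n * g ξ)) 0 = deriv g 0 := by
    refine (hLd.congr_deriv ?_).deriv
    rw [zero_pow (by omega)]
    ring
  rw [e1, hRd.deriv] at hd
  have h12 : (n : ℂ) * g 0 = 0 := by linear_combination hd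
  rcases mul_eq_zero.1 h12 with h13 | h13
  · have : n = 0 := by exact_mod_cast h13
    omega
  · exact hg0 h13

/-! ### The homogeneous model -/

theorem zet_k {k : ℕ} (hk : k ≠ 0) (η : ℂ) :
    zet k (2 * k) k η = -((1 + η) ^ k - 1) / (2 * k) := by
  have hkc : (k : ℂ) ≠ 0 := by exact_mod_cast hk
  unfold zet Dh
  have h1 : (1 + η) ^ (2 * k) = ((1 + η) ^ k) ^ 2 := by rw [mul_comm 2 k, pow_mul]
  have h2 : 2 * k - k = k := by omega
  rw [h1, h2]
  set x : ℂ := (1 + η) ^ k with hx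
  have e1 : (((2 * k : ℕ) : ℂ) - k) * x ^ 2 - ((2 * k : ℕ) : ℂ) * x + k = k * (x - 1) ^ 2 := by
    push_cast
    ring
  have e2 : ((k : ℝ) : ℂ) * (k * (x - 1) ^ 2) - k * (((2 * k : ℕ) : ℂ) - k) * (x ^ 2 - 1) =
      -(2 * k ^ 2 * (x - 1)) := by
    push_cast
    ring
  rw [e1, e2]
  by_cases hx1 : x - 1 = 0
  · rw [hx1]
    simp
  · field_simp

theorem axis_rel {k : ℕ} (hk : k ≠ 0) {A : ℂ × ℂ → ℂ}
    (hz : ∀ᶠ η in 𝓝 (0:ℂ), zet k (2 * k) k (-A (0, η)) = -zet k (2 * k) k η) :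
    ∀ᶠ η in 𝓝 (0:ℂ), (1 - A (0, η)) ^ k = 2 - (1 + η) ^ k := by
  have hkc : (k : ℂ) ≠ 0 := by exact_mod_cast hk
  filter_upwards [hz] with η h
  rw [zet_k hk, zet_k hk, ← sub_eq_add_neg] at h
  field_simp at h
  linear_combination -h

theorem second_deriv {k : ℕ} (hk : 2 ≤ k) {G : ℂ → ℂ} (hG : AnalyticAt ℂ G 0) (h0 : G 0 = 0)
    (h1 : deriv G 0 = 1) (h : ∀ᶠ η in 𝓝 (0:ℂ), (1 - G η) ^ k = 2 - (1 + η) ^ k) :
    deriv (deriv G) 0 = 2 * (k - 1) := by
  have hkc : (k : ℂ) ≠ 0 := by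
    have : k ≠ 0 := by omega
    exact_mod_cast this
  have hk1 : ((k - 1 : ℕ) : ℂ) = k - 1 := by
    rw [Nat.cast_sub (by omega), Nat.cast_one]
  -- the first derivative of the relation
  have h2 : ∀ᶠ η in 𝓝 (0:ℂ), (1 - G η) ^ (k - 1) * deriv G η = (1 + η) ^ (k - 1) := by
    filter_upwards [h.eventually_nhds, hG.eventually_analyticAt] with η e1 e2
    have e3 : HasDerivAt (fun η => (1 - G η) ^ k)
        (k * (1 - G η) ^ (k - 1) * (-deriv G η)) η :=
      (e2.differentiableAt.hasDerivAt.const_sub 1).fun_pow k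
    have e4 : HasDerivAt (fun η : ℂ => 2 - (1 + η) ^ k) (-(k * (1 + η) ^ (k - 1) * 1)) η :=
      (((hasDerivAt_id η).const_add 1).fun_pow k).const_sub 2
    have e5 := Filter.EventuallyEq.deriv_eq (f₁ := fun η => (1 - G η) ^ k)
      (f := fun η : ℂ => 2 - (1 + η) ^ k) e1
    rw [e3.deriv, e4.deriv] at e5
    apply mul_left_cancel₀ hkc
    linear_combination -e5
  have hG' : HasDerivAt (deriv G) (deriv (deriv G) 0) 0 := hG.deriv.differentiableAt.hasDerivAt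
  have e3 : HasDerivAt (fun η => (1 - G η) ^ (k - 1) * deriv G η)
      (((k - 1 : ℕ) : ℂ) * (1 - G 0) ^ (k - 1 - 1) * (-deriv G 0) * deriv G 0 +
        (1 - G 0) ^ (k - 1) * deriv (deriv G) 0) 0 :=
    ((hG.differentiableAt.hasDerivAt.const_sub 1).fun_pow (k - 1)).mul hG'
  have e4 : HasDerivAt (fun η : ℂ => (1 + η) ^ (k - 1))
      (((k - 1 : ℕ) : ℂ) * (1 + 0) ^ (k - 1 - 1) * 1) 0 :=
    ((hasDerivAt_id (0:ℂ)).const_add 1).fun_pow (k - 1)
  have e5 := Filter.EventuallyEq.deriv_eq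
    (f₁ := fun η => (1 - G η) ^ (k - 1) * deriv G η)
    (f := fun η : ℂ => (1 + η) ^ (k - 1)) h2
  rw [e3.deriv, e4.deriv, h0, h1, hk1] at e5
  simp only [sub_zero, one_pow, add_zero, mul_one, one_mul] at e5
  linear_combination e5

/-! ### Derivatives of `a` -/

theorem dx_a {k : ℕ} {A : ℂ × ℂ → ℂ} {w η : ℂ} (hA : DifferentiableAt ℂ A (w, η)) :
    HasDerivAt (fun t => 1 - (1 - A (t, η)) ^ k)
      (k * (1 - A (w, η)) ^ (k - 1) * Dx A (w, η)) w := by
  have h2 : HasDerivAt (fun t : ℂ => ((t, η) : ℂ × ℂ)) (1, 0) w :=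
    (hasDerivAt_id w).prodMk (hasDerivAt_const w η)
  have h3 : HasDerivAt (fun t => A (t, η)) (Dx A (w, η)) w :=
    hA.hasFDerivAt.comp_hasDerivAt w h2
  refine (((h3.const_sub 1).fun_pow k).const_sub 1).congr_deriv ?_
  ring

theorem dy_a {k : ℕ} {A : ℂ × ℂ → ℂ} {e : ℂ → ℂ} {w ξ e' : ℂ}
    (hA : DifferentiableAt ℂ A (w, e ξ)) (he : HasDerivAt e e' ξ) :
    HasDerivAt (fun t => 1 - (1 - A (w, e t)) ^ k)
      (k * (1 - A (w, e ξ)) ^ (k - 1) * (e' * Dy A (w, e ξ))) ξ := by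
  have h2 : HasDerivAt (fun t : ℂ => ((w, t) : ℂ × ℂ)) (0, 1) (e ξ) :=
    (hasDerivAt_const (e ξ) w).prodMk (hasDerivAt_id (e ξ))
  have h3 : HasDerivAt (fun t => A (w, t)) (Dy A (w, e ξ)) (e ξ) :=
    hA.hasFDerivAt.comp_hasDerivAt (e ξ) h2
  have h4 : HasDerivAt (fun t => A (w, e t)) (Dy A (w, e ξ) * e') ξ :=
    HasDerivAt.comp (h₂ := fun t => A (w, t)) (h := e) ξ h3 he
  refine (((h4.const_sub 1).fun_pow k).const_sub 1).congr_deriv ?_
  ring

/-- the algebra of the invariance of the slope -/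
theorem fi_alg {K w η ξ α P Q d DA DB β βT e1 : ℂ} (hK : K ≠ 0) (hP : P ≠ 0)
    (he1 : e1 = 1 + η) (hQ : Q * e1 = 1 + ξ) (hd : d * (K * Q) = 1)
    (hFI : βT * (1 - (α + w * DA + (β - η) * DB)) = α + w * DA + (β - η) * DB) :
    (P⁻¹ * (1 + βT) - 1) *
        (1 - ((1 - P * (1 - α)) + w / K * (K * P * DA) +
          (Q * (1 + β) - 1 - ξ) * (K * P * (d * DB)))) =
      (1 - P * (1 - α)) + w / K * (K * P * DA) +
        (Q * (1 + β) - 1 - ξ) * (K * P * (d * DB)) := by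
  set Ew : ℂ := α + w * DA + (β - η) * DB with hEw
  have hE : (1 - P * (1 - α)) + w / K * (K * P * DA) +
      (Q * (1 + β) - 1 - ξ) * (K * P * (d * DB)) = 1 - P * (1 - Ew) := by
    have h1 : Q * (1 + β) - 1 - ξ = Q * (β - η) := by
      rw [he1] at hQ
      linear_combination hQ
    rw [h1]
    have h2 : w / K * (K * P * DA) = w * P * DA := by field_simp
    rw [h2, hEw]
    linear_combination P * (β - η) * DB * hd
  rw [hE]
  field_simp
  linear_combination P * hFI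

end RamCoord

open RamCoord in
/-- the place `(k, 2k)` in the coordinate `x = w ^ k` -/
theorem ram_coord {k : ℕ} (hk : 2 ≤ k) {v : ℂ → ℂ} (hv : AnalyticAt ℂ v 0) (hv0 : v 0 ≠ 0)
    (hg : ∀ᶠ s in 𝓝[≠] (0:ℂ), GoodG (fun w => w ^ k) (fun w => w ^ (2 * k) * v w)
      (fun _ => 0) s) :
    ∃ m a B : ℂ × ℂ → ℂ, AnalyticAt ℂ m (0, 0) ∧ AnalyticAt ℂ a (0, 0) ∧
      AnalyticAt ℂ B (0, 0) ∧ (∀ᶠ ξ in 𝓝 (0:ℂ), m (0, ξ) = ξ / 2) ∧
      (∀ᶠ ξ in 𝓝 (0:ℂ), a (0, ξ) = ξ) ∧ (∀ᶠ ξ in 𝓝 (0:ℂ), B (0, ξ) = 0) ∧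
      (∀ᶠ p in 𝓝 ((0, 0) : ℂ × ℂ), m (p.1, -a p) = -m p) ∧
      (∀ᶠ p in 𝓝 ((0, 0) : ℂ × ℂ),
        B (p.1 * (1 - a p) ^ (1 / k : ℂ), a p / (1 - a p)) *
          (1 - (a p + p.1 / k * Dx a p + (B p - p.2) * Dy a p)) =
        a p + p.1 / k * Dx a p + (B p - p.2) * Dy a p) ∧
      ∀ᶠ p in 𝓝 ((0, 0) : ℂ × ℂ), p.1 ≠ 0 → ∀ s, s = p.1 * (1 + p.2) ^ (1 / k : ℂ) →
        p.2 * (s * deriv (fun w => w ^ (2 * k) * v w) s / k) / (1 + p.2) -
            (s ^ (2 * k) * v s - p.1 ^ (2 * k) * v p.1) =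
          m p * ((s * deriv (fun w => w ^ (2 * k) * v w) s / k) / (1 + p.2) -
            p.1 * deriv (fun w => w ^ (2 * k) * v w) p.1 / k) := by
  have hk0 : k ≠ 0 := by omega
  have hkc : (k : ℂ) ≠ 0 := by exact_mod_cast hk0
  obtain ⟨Yf, A, mw, δ, hp, hmw, hN, hmA, hz⟩ := place_gen (a := k) (b := 2 * k) (c := k)
    (X := fun w => w ^ k) (Y := fun w => w ^ (2 * k) * v w) (K := fun _ => 0)
    (x1 := fun _ => 1) (y1 := v) (k := fun _ => 0) (by omega) (by omega) analyticAt_const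
    one_ne_zero (Eventually.of_forall fun w => by simp) hv hv0
    (Eventually.of_forall fun w => rfl) analyticAt_const (by simp)
    (Eventually.of_forall fun w => by simp) hg
  obtain ⟨δ', hδ', hδδ, C, b, hs⟩ := placeY_series hp
  obtain ⟨ρ, hρ, hFI⟩ := serY_FI hs
  have hδ := hp.δ_pos
  have hA : AnalyticAt ℂ A (0, 0) := hp.A_ana 0 0 (by simpa using hδ) (by simpa using hδ)
  have hA00 : A (0, 0) = 0 := hp.A_zero 0 (by simpa using hδ)
  have hax := axis_rel hk0 hz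
  set e := et k with he
  have hea : AnalyticAt ℂ e 0 := et_ana k
  have he0 : e 0 = 0 := et_zero k
  have het : Tendsto e (𝓝 0) (𝓝 0) := by
    have := hea.continuousAt.tendsto
    rwa [he0] at this
  -- the change of coordinates
  have hma : AnalyticAt ℂ (fun p : ℂ × ℂ => ((p.1, e p.2) : ℂ × ℂ)) (0, 0) :=
    analyticAt_fst.prod (hea.comp_of_eq analyticAt_snd rfl)
  have hmt : Tendsto (fun p : ℂ × ℂ => ((p.1, e p.2) : ℂ × ℂ)) (𝓝 (0, 0)) (𝓝 (0, 0)) := by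
    have := hma.continuousAt.tendsto
    simpa [he0] using this
  have hAe : AnalyticAt ℂ (fun p : ℂ × ℂ => A (p.1, e p.2)) (0, 0) :=
    hA.comp_of_eq hma (by simp [he0])
  have hAt : Tendsto (fun p : ℂ × ℂ => A (p.1, e p.2)) (𝓝 (0, 0)) (𝓝 0) := by
    have := hAe.continuousAt.tendsto
    simpa [he0, hA00] using this
  set m : ℂ × ℂ → ℂ := fun p => k * mw (p.1, e p.2) with hm
  set a : ℂ × ℂ → ℂ := fun p => 1 - (1 - A (p.1, e p.2)) ^ k with ha
  set B : ℂ × ℂ → ℂ := fun p => (1 + e p.2) ^ (k - 1) * (1 + bs b p.1 (e p.2)) - 1 with hB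
  have hma' : AnalyticAt ℂ m (0, 0) :=
    analyticAt_const.mul (hmw.comp_of_eq hma (by simp [he0]))
  have haa : AnalyticAt ℂ a (0, 0) :=
    analyticAt_const.sub ((analyticAt_const.sub hAe).pow k)
  have hBa : AnalyticAt ℂ B (0, 0) := by
    have h1 : AnalyticAt ℂ (fun p : ℂ × ℂ => bs b p.1 (e p.2)) (0, 0) :=
      (bs_ana hs).comp_of_eq hma (by simp [he0])
    have h2 : AnalyticAt ℂ (fun p : ℂ × ℂ => e p.2) (0, 0) :=
      hea.comp_of_eq analyticAt_snd rfl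
    exact (((analyticAt_const.add h2).pow _).mul (analyticAt_const.add h1)).sub analyticAt_const
  -- auxiliary limits
  have hnegA : Tendsto (fun p : ℂ × ℂ => -A (p.1, e p.2)) (𝓝 (0, 0)) (𝓝 0) := by
    simpa using hAt.neg
  have hinvA : Tendsto (fun p : ℂ × ℂ => (1 - A (p.1, e p.2))⁻¹ - 1) (𝓝 (0, 0)) (𝓝 0) := by
    have h1 : Tendsto (fun p : ℂ × ℂ => (1 - A (p.1, e p.2))⁻¹ - 1) (𝓝 (0, 0))
        (𝓝 ((1 - 0)⁻¹ - 1)) :=
      ((hAt.const_sub 1).inv₀ (by simp)).sub_const 1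
    simpa using h1
  have hne : ∀ᶠ p in 𝓝 ((0, 0) : ℂ × ℂ), 1 - A (p.1, e p.2) ≠ 0 := by
    have h1 : ContinuousAt (fun p : ℂ × ℂ => 1 - A (p.1, e p.2)) (0, 0) :=
      continuousAt_const.sub hAe.continuousAt
    refine h1.eventually_ne ?_
    simp [he0, hA00]
  -- the relation
  have hrel : ∀ᶠ p in 𝓝 ((0, 0) : ℂ × ℂ), p.1 ≠ 0 → ∀ s, s = p.1 * (1 + p.2) ^ (1 / k : ℂ) →
        p.2 * (s * deriv (fun w => w ^ (2 * k) * v w) s / k) / (1 + p.2) -
            (s ^ (2 * k) * v s - p.1 ^ (2 * k) * v p.1) =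
          m p * ((s * deriv (fun w => w ^ (2 * k) * v w) s / k) / (1 + p.2) -
            p.1 * deriv (fun w => w ^ (2 * k) * v w) p.1 / k) := by
    have hne2 : ∀ᶠ p in 𝓝 ((0, 0) : ℂ × ℂ), 1 + p.2 ≠ 0 := by
      have h1 : ContinuousAt (fun p : ℂ × ℂ => 1 + p.2) (0, 0) := by fun_prop
      exact h1.eventually_ne (by simp)
    filter_upwards [hmt.eventually hN, hne2] with p e1 e2 hp0 s hs'
    have hs1 : s = p.1 * (1 + e p.2) := by rw [hs', he, et_add]
    have e3 := e1 hp0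
    rw [← hs1] at e3
    unfold brN brD at e3
    rw [(hasDerivAt_pow k s).deriv, (hasDerivAt_pow k p.1).deriv] at e3
    have hek : (1 + e p.2) ^ k = 1 + p.2 := et_pow hk0 p.2
    have hs0 : s ≠ 0 := by
      rw [hs1]
      refine mul_ne_zero hp0 ?_
      intro h0
      rw [h0, zero_pow hk0] at hek
      exact e2 hek.symm
    exact rel_alg hk0 hs0 e2 (by rw [hs1, mul_pow, hek]) e3
  have ha0 : ∀ᶠ ξ in 𝓝 (0:ℂ), a (0, ξ) = ξ := by
    filter_upwards [het.eventually hax] with ξ h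
    have h1 : (1 + e ξ) ^ k = 1 + ξ := et_pow hk0 ξ
    simp only [ha]
    rw [h, h1]
    ring
  -- the invariance of the slope
  have hFI' : ∀ᶠ p in 𝓝 ((0, 0) : ℂ × ℂ),
        B (p.1 * (1 - a p) ^ (1 / k : ℂ), a p / (1 - a p)) *
          (1 - (a p + p.1 / k * Dx a p + (B p - p.2) * Dy a p)) =
        a p + p.1 / k * Dx a p + (B p - p.2) * Dy a p := by
    have hFIe : ∀ᶠ q in 𝓝 ((0, 0) : ℂ × ℂ), FIA A b q.1 q.2 := by
      filter_upwards [Metric.ball_mem_nhds ((0, 0) : ℂ × ℂ) hρ] with q hq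
      rw [mem_ball, Prod.dist_eq, dist_zero_right, dist_zero_right] at hq
      exact hFI q.1 q.2 (lt_of_le_of_lt (le_max_left _ _) hq)
        (lt_of_le_of_lt (le_max_right _ _) hq)
    have hsnd : Tendsto (fun p : ℂ × ℂ => p.2) (𝓝 (0, 0)) (𝓝 0) :=
      (continuous_snd.tendsto ((0, 0) : ℂ × ℂ))
    filter_upwards [hmt.eventually hFIe, hnegA.eventually (pow_cpow hk0),
      hinvA.eventually (et_inv hk0), hne, hmt.eventually hA.eventually_analyticAt,
      haa.eventually_analyticAt, hsnd.eventually (et_deriv hk0)] with p e1 e2 e3 e4 e5 e6 e7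
    obtain ⟨w, ξ⟩ := p
    simp only at e1 e2 e3 e4 e5 e7
    obtain ⟨e7a, e7b, e7c⟩ := e7
    -- the derivatives
    have hDx : Dx a (w, ξ) = k * (1 - A (w, e ξ)) ^ (k - 1) * Dx A (w, e ξ) := by
      rw [Pool.Agent.MP_ae5b4e_an_ND.Dx_eq_deriv e6.differentiableAt]
      exact (dx_a e5.differentiableAt).deriv
    have hDy : Dy a (w, ξ) = k * (1 - A (w, e ξ)) ^ (k - 1) *
        (deriv e ξ * Dy A (w, e ξ)) := by
      rw [Pool.Agent.MP_ae5b4e_an_ND.Dy_eq_deriv e6.differentiableAt]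
      exact (dy_a e5.differentiableAt e7a.differentiableAt.hasDerivAt).deriv
    have hek : (1 + e ξ) ^ k = 1 + ξ := et_pow hk0 ξ
    have hkk : k - 1 + 1 = k := by omega
    have hP1 : (1 - A (w, e ξ)) ^ k = (1 - A (w, e ξ)) ^ (k - 1) * (1 - A (w, e ξ)) := by
      rw [← pow_succ, hkk]
    have hQ1 : (1 + e ξ) ^ (k - 1) * (1 + e ξ) = 1 + ξ := by
      rw [← pow_succ, hkk, hek]
    have h1a : 1 - a (w, ξ) = (1 - A (w, e ξ)) ^ k := by
      simp only [ha]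
      ring
    have hroot : (1 - a (w, ξ)) ^ (1 / k : ℂ) = 1 - A (w, e ξ) := by
      rw [h1a]
      rw [← sub_eq_add_neg] at e2
      exact e2
    have hquot : a (w, ξ) / (1 - a (w, ξ)) = (1 + ((1 - A (w, e ξ))⁻¹ - 1)) ^ k - 1 := by
      rw [h1a]
      simp only [ha]
      have : (1 - A (w, e ξ)) ^ k ≠ 0 := pow_ne_zero _ e4
      rw [add_sub_cancel, inv_pow]
      field_simp
    have heq : e (a (w, ξ) / (1 - a (w, ξ))) = (1 - A (w, e ξ))⁻¹ - 1 := by
      rw [hquot]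
      exact e3
    have hfr : (1 - A (w, e ξ))⁻¹ - 1 = A (w, e ξ) / (1 - A (w, e ξ)) := by
      field_simp
      ring
    have hBT : B (w * (1 - a (w, ξ)) ^ (1 / k : ℂ), a (w, ξ) / (1 - a (w, ξ))) =
        ((1 - A (w, e ξ)) ^ (k - 1))⁻¹ *
          (1 + bs b (w * (1 - A (w, e ξ))) (A (w, e ξ) / (1 - A (w, e ξ)))) - 1 := by
      simp only [hB]
      rw [heq, hroot, add_sub_cancel, inv_pow, hfr]
    have hBp : B (w, ξ) - ξ = (1 + e ξ) ^ (k - 1) * (1 + bs b w (e ξ)) - 1 - ξ := rfl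
    have hap : a (w, ξ) = 1 - (1 - A (w, e ξ)) ^ (k - 1) * (1 - A (w, e ξ)) := by
      rw [← hP1]
    change B (w * (1 - a (w, ξ)) ^ (1 / k : ℂ), a (w, ξ) / (1 - a (w, ξ))) *
          (1 - (a (w, ξ) + w / k * Dx a (w, ξ) + (B (w, ξ) - ξ) * Dy a (w, ξ))) =
        a (w, ξ) + w / k * Dx a (w, ξ) + (B (w, ξ) - ξ) * Dy a (w, ξ)
    rw [hBT, hDx, hDy, hBp, hap]
    exact fi_alg hkc (pow_ne_zero _ e4) rfl hQ1 e7c e1
  refine ⟨m, a, B, hma', haa, hBa, m_zero hk0 hv hv0 hma' hrel, ha0, ?_, ?_, hFI', hrel⟩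
  · -- the slope on the axis
    have hB0a : AnalyticAt ℂ (fun ξ : ℂ => B (0, ξ)) 0 := by
      have h1 : AnalyticAt ℂ (fun ξ : ℂ => ((0, ξ) : ℂ × ℂ)) 0 :=
        analyticAt_const.prod analyticAt_id
      exact hBa.comp_of_eq h1 rfl
    refine eq_zero_of_fe hB0a ?_ ?_ ?_
    · simp only [hB]
      rw [he0, bs_zero hs]
      simp
    · -- the derivative
      have hG : AnalyticAt ℂ (fun η : ℂ => A (0, η)) 0 := by
        have h1 : AnalyticAt ℂ (fun ξ : ℂ => ((0, ξ) : ℂ × ℂ)) 0 :=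
          analyticAt_const.prod analyticAt_id
        exact hA.comp_of_eq h1 rfl
      have hG2 := second_deriv hk hG hA00 (hp.A_der 0 (by simpa using hδ)) hax
      have hb1 : b 1 0 = -((k : ℂ) - 1) := by
        rw [hs.b_one 0 (by simpa using hs.place.δ_pos)]
        unfold Pool.Agent.MP_ae5b4e_an_ND.cf
        rw [iteratedDeriv_succ, iteratedDeriv_one, hG2]
        norm_num
      have hed : HasDerivAt e (deriv e 0) 0 := hea.differentiableAt.hasDerivAt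
      have hed1 : deriv e 0 * k = 1 := by
        have h1 := (et_deriv hk0).self_of_nhds.2.2
        rw [← he, he0] at h1
        simpa using h1
      have hbd : HasDerivAt (fun ξ : ℂ => bs b 0 (e ξ)) (b 1 0 * deriv e 0) 0 := by
        refine HasDerivAt.comp (h₂ := fun η => bs b 0 η) (h := e) (0:ℂ) ?_ hed
        rw [he0]
        exact bs_deriv hs
      have hpw : HasDerivAt (fun ξ : ℂ => (1 + e ξ) ^ (k - 1))
          (((k - 1 : ℕ) : ℂ) * (1 + e 0) ^ (k - 1 - 1) * deriv e 0) 0 :=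
        (hed.const_add 1).fun_pow (k - 1)
      have hk1 : ((k - 1 : ℕ) : ℂ) = k - 1 := by
        rw [Nat.cast_sub (by omega), Nat.cast_one]
      have hBd : HasDerivAt (fun ξ : ℂ => B (0, ξ))
          (((k - 1 : ℕ) : ℂ) * (1 + e 0) ^ (k - 1 - 1) * deriv e 0 * (1 + bs b 0 (e 0)) +
            (1 + e 0) ^ (k - 1) * (b 1 0 * deriv e 0)) 0 :=
        (hpw.mul (hbd.const_add 1)).sub_const 1
      rw [hBd.deriv, he0, bs_zero hs, hk1, hb1]
      simp only [add_zero, one_pow, mul_one, one_mul]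
      ring
    · -- the functional equation
      have hDy1 : ∀ᶠ ξ in 𝓝 (0:ℂ), Dy a (0, ξ) = 1 := by
        filter_upwards [ha0.eventually_nhds, axis haa.eventually_analyticAt] with ξ h1 h2
        rw [Pool.Agent.MP_ae5b4e_an_ND.Dy_eq_deriv h2.differentiableAt]
        have h3 := Filter.EventuallyEq.deriv_eq (f₁ := fun t => a (0, t)) (f := fun t => t) h1
        rw [h3]
        exact deriv_id ξ
      filter_upwards [ha0, hDy1, axis hFI'] with ξ h1 h2 h3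
      rw [h1, h2] at h3
      simp only [zero_mul, zero_div, add_zero, mul_one] at h3
      have h4 : ξ + (B (0, ξ) - ξ) = B (0, ξ) := by ring
      rw [h4] at h3
      exact h3
  · -- the involution
    filter_upwards [hmt.eventually hmA, hnegA.eventually (et_inv hk0)] with p e1 e2
    have h1 : -a p = (1 + -A (p.1, e p.2)) ^ k - 1 := by
      simp only [ha]
      rw [← sub_eq_add_neg]
      ring
    have h2 : e (-a p) = -A (p.1, e p.2) := by
      rw [h1]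
      exact e2
    simp only [hm]
    rw [h2]
    simp only [zero_mul, zero_sub] at e1
    linear_combination -(k : ℂ) * e1

end Pool.Agent.MP_ae5b4e_an_ALG
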