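import Pool.Agent.Lib.MP_ae5b4e_an_ALG.DefsB

/-!
# MP_ae5b4e_an, algebraic tables: the difference equation of a ramified place
-/

set_option autoImplicit false

noncomputable section

namespace Pool.Agent.MP_ae5b4e_an_ALG

open Filter Topology Set Metric Complex Polynomial
open scoped Real

section RA

theorem hom_ram {la : ℝ} (hla : ∀ n : ℕ, la ≠ n) {γ : ℂ → ℂ} (hγ : AnalyticAt ℂ γ 0)
    (h : ∀ᶠ ξ in 𝓝[≠] (0:ℂ), (1 - ξ) ^ (la : ℂ) * γ (ξ / (1 - ξ)) = γ ξ) :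
    ∀ᶠ ξ in 𝓝 (0:ℂ), γ ξ = 0 := by
  by_contra hne
  obtain ⟨n, g, hg, hg0, hgγ⟩ := hγ.exists_eventuallyEq_pow_smul_nonzero_iff.2 hne
  -- the map `ξ / (1 - ξ)`
  have hφd : HasDerivAt (fun ξ : ℂ => ξ / (1 - ξ)) 1 0 := by
    have h1 : HasDerivAt (fun ξ : ℂ => ξ) 1 (0:ℂ) := hasDerivAt_id 0
    have h2 : HasDerivAt (fun ξ : ℂ => 1 - ξ) (-1) (0:ℂ) := by
      simpa using (hasDerivAt_id (0:ℂ)).const_sub 1
    have h3 := h1.fun_div h2 (by simp)
    simpa using h3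
  have hφ0 : (fun ξ : ℂ => ξ / (1 - ξ)) 0 = 0 := by simp
  have hφt : Tendsto (fun ξ : ℂ => ξ / (1 - ξ)) (𝓝 0) (𝓝 0) := by
    have := hφd.continuousAt.tendsto
    simpa using this
  have hev : ∀ᶠ ξ in 𝓝[≠] (0:ℂ), (1 - ξ) ^ (la : ℂ) * g (ξ / (1 - ξ)) = (1 - ξ) ^ n * g ξ := by
    have h1 : ∀ᶠ ξ in 𝓝[≠] (0:ℂ), γ ξ = (ξ - 0) ^ n • g ξ := hgγ.filter_mono nhdsWithin_le_nhds
    have h2 : ∀ᶠ ξ in 𝓝[≠] (0:ℂ), γ (ξ / (1 - ξ)) = (ξ / (1 - ξ) - 0) ^ n • g (ξ / (1 - ξ)) :=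
      (hφt.eventually hgγ).filter_mono nhdsWithin_le_nhds
    have h3 : ∀ᶠ ξ in 𝓝[≠] (0:ℂ), 1 - ξ ≠ 0 := by
      apply Eventually.filter_mono nhdsWithin_le_nhds
      have : ContinuousAt (fun ξ : ℂ => 1 - ξ) 0 := by fun_prop
      exact this.eventually_ne (by simp)
    filter_upwards [h, h1, h2, h3, self_mem_nhdsWithin] with ξ e e1 e2 e3 e4
    rw [e1, e2, smul_eq_mul, smul_eq_mul, sub_zero, sub_zero, div_pow] at e
    have e5 : ξ ^ n ≠ 0 := pow_ne_zero _ e4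
    have e6 : (1 - ξ) ^ n ≠ 0 := pow_ne_zero _ e3
    field_simp at e
    linear_combination e
  have hev' : ∀ᶠ ξ in 𝓝 (0:ℂ), (1 - ξ) ^ (la : ℂ) * g (ξ / (1 - ξ)) - (1 - ξ) ^ n * g ξ = 0 := by
    rw [eventually_nhdsWithin_iff] at hev
    filter_upwards [hev] with ξ hξ
    by_cases h0 : ξ = 0
    · subst h0
      simp
    · rw [hξ h0, sub_self]
  -- derivatives at `0`
  have hgd := hg.differentiableAt.hasDerivAt
  have h2 : HasDerivAt (fun ξ : ℂ => 1 - ξ) (-1) (0:ℂ) := by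
    simpa using (hasDerivAt_id (0:ℂ)).const_sub 1
  have hA : HasDerivAt (fun ξ : ℂ => (1 - ξ) ^ (la : ℂ))
      ((la : ℂ) * (1 - 0) ^ ((la : ℂ) - 1) * (-1)) 0 :=
    h2.cpow_const (by simp)
  have hB : HasDerivAt (fun ξ : ℂ => g (ξ / (1 - ξ))) (deriv g 0 * 1) 0 := by
    have : HasDerivAt g (deriv g 0) ((fun ξ : ℂ => ξ / (1 - ξ)) 0) := by
      rw [hφ0]
      exact hgd
    exact this.comp 0 hφd
  have hC : HasDerivAt (fun ξ : ℂ => (1 - ξ) ^ n) (n * (1 - 0) ^ (n - 1) * (-1)) (0:ℂ) :=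
    h2.pow n
  have hD := (hA.mul hB).sub (hC.mul hgd)
  have hE : HasDerivAt (fun ξ : ℂ => (1 - ξ) ^ (la : ℂ) * g (ξ / (1 - ξ)) - (1 - ξ) ^ n * g ξ)
      0 0 := (hasDerivAt_const (0:ℂ) (0:ℂ)).congr_of_eventuallyEq hev'
  have hF := hD.unique hE
  simp only [sub_zero, one_cpow, one_pow, mul_one, zero_div, one_mul] at hF
  have hG : ((n : ℂ) - la) * g 0 = 0 := by linear_combination hF
  rcases mul_eq_zero.1 hG with hH | hH
  · apply hla n
    have : (la : ℂ) = ((n : ℝ) : ℂ) := by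
      push_cast
      linear_combination -hH
    exact_mod_cast this
  · exact hg0 hH

/-- `f` agrees, in the upper half plane near `0`, with a function analytic at `0` -/
private def RamEq.Ext (f : ℂ → ℂ) : Prop :=
  ∃ h : ℂ → ℂ, AnalyticAt ℂ h 0 ∧ ∀ᶠ τ in 𝓝[{t : ℂ | 0 < t.im}] (0:ℂ), f τ = h τ

private theorem RamEq.Ext.add {f g : ℂ → ℂ} (hf : RamEq.Ext f) (hg : RamEq.Ext g) :
    RamEq.Ext fun τ => f τ + g τ := by
  obtain ⟨a, ha, ha'⟩ := hf
  obtain ⟨b, hb, hb'⟩ := hg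
  refine ⟨fun τ => a τ + b τ, ha.fun_add hb, ?_⟩
  filter_upwards [ha', hb'] with τ h1 h2
  rw [h1, h2]

private theorem RamEq.Ext.mul {f g : ℂ → ℂ} (hf : RamEq.Ext f) (hg : RamEq.Ext g) :
    RamEq.Ext fun τ => f τ * g τ := by
  obtain ⟨a, ha, ha'⟩ := hf
  obtain ⟨b, hb, hb'⟩ := hg
  refine ⟨fun τ => a τ * b τ, ha.fun_mul hb, ?_⟩
  filter_upwards [ha', hb'] with τ h1 h2
  rw [h1, h2]

private theorem RamEq.Ext.of_analytic {f : ℂ → ℂ} (hf : AnalyticAt ℂ f 0) : RamEq.Ext f :=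
  ⟨f, hf, Eventually.of_forall fun _ => rfl⟩

private theorem RamEq.Ext.const_mul {f : ℂ → ℂ} (c : ℂ) (hf : RamEq.Ext f) :
    RamEq.Ext fun τ => c * f τ :=
  RamEq.Ext.mul (RamEq.Ext.of_analytic analyticAt_const) hf

private theorem RamEq.Ext.congr {f g : ℂ → ℂ} (hf : RamEq.Ext f)
    (h : ∀ᶠ τ in 𝓝[{t : ℂ | 0 < t.im}] (0:ℂ), g τ = f τ) : RamEq.Ext g := by
  obtain ⟨a, ha, ha'⟩ := hf
  refine ⟨a, ha, ?_⟩
  filter_upwards [ha', h] with τ h1 h2
  rw [h2, h1]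

private theorem RamEq.Ext.sum {n : ℕ} {f : ℕ → ℂ → ℂ} (hf : ∀ k < n, RamEq.Ext (f k)) :
    RamEq.Ext fun τ => ∑ k ∈ Finset.range n, f k τ := by
  induction n with
  | zero =>
    simp only [Finset.range_zero, Finset.sum_empty]
    exact RamEq.Ext.of_analytic analyticAt_const
  | succ n ih =>
    simp only [Finset.sum_range_succ]
    exact RamEq.Ext.add (ih fun k hk => hf k (by omega)) (hf n (by omega))

/-- powers of `1 + 1 / t`, `t` in the upper half plane -/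
private theorem RamEq.cpow_add_inv {t : ℂ} (ht : 0 < t.im) (c : ℂ) :
    (1 + t⁻¹) ^ c * t ^ c = (t + 1) ^ c := by
  have ht0 : t ≠ 0 := by
    rintro rfl
    simp at ht
  have him : (1 + t⁻¹).im < 0 := by
    rw [add_im, one_im, inv_im, zero_add]
    have : 0 < normSq t := normSq_pos.2 ht0
    exact div_neg_of_neg_of_pos (by linarith) this
  have h1 : 1 + t⁻¹ ≠ 0 := by
    intro h
    rw [h] at him
    simp at him
  have hprod : (1 + t⁻¹) * t = t + 1 := by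
    field_simp
  have ht1 : t + 1 ≠ 0 := by
    intro h
    have := congrArg Complex.im h
    simp at this
    linarith
  have hlog : Complex.log (t + 1) = Complex.log (1 + t⁻¹) + Complex.log t := by
    rw [← hprod]
    apply Complex.log_mul h1 ht0
    have h2 := Complex.neg_pi_lt_arg (1 + t⁻¹)
    have h3 : (1 + t⁻¹).arg < 0 := Complex.arg_neg_iff.2 him
    have h4 : 0 ≤ t.arg := Complex.arg_nonneg_iff.2 ht.le
    have h5 := Complex.arg_le_pi t
    constructor <;> linarith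
  rw [cpow_def_of_ne_zero h1, cpow_def_of_ne_zero ht0, cpow_def_of_ne_zero ht1, hlog,
    ← Complex.exp_add]
  congr 1
  ring

/-- powers of `1 - 1 / t`, `t` in the upper half plane -/
private theorem RamEq.cpow_sub_inv {t : ℂ} (ht : 0 < t.im) (c : ℂ) :
    (1 - t⁻¹) ^ c * t ^ c = (t - 1) ^ c := by
  have hs : 0 < (t - 1).im := by simpa using ht
  have ht0 : t ≠ 0 := by
    rintro rfl
    simp at ht
  have hs0 : t - 1 ≠ 0 := by
    intro h
    rw [h] at hs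
    simp at hs
  have h := RamEq.cpow_add_inv hs c
  have h1 : 1 - t⁻¹ = (1 + (t - 1)⁻¹)⁻¹ := by
    have : 1 + (t - 1)⁻¹ = t / (t - 1) := by
      field_simp
      ring
    rw [this, inv_div, sub_div, div_self ht0, one_div]
  have him : (1 + (t - 1)⁻¹).im < 0 := by
    rw [add_im, one_im, inv_im, zero_add]
    have : 0 < normSq (t - 1) := normSq_pos.2 hs0
    exact div_neg_of_neg_of_pos (by linarith) this
  have hne : 1 + (t - 1)⁻¹ ≠ 0 := by
    intro h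
    rw [h] at him
    simp at him
  have harg : (1 + (t - 1)⁻¹).arg ≠ π := by
    have h3 : (1 + (t - 1)⁻¹).arg < 0 := Complex.arg_neg_iff.2 him
    have := Real.pi_pos
    intro h
    linarith
  have hpow : (1 + (t - 1)⁻¹) ^ c ≠ 0 := by
    rw [cpow_def_of_ne_zero hne]
    exact Complex.exp_ne_zero _
  rw [sub_add_cancel] at h
  rw [h1, Complex.inv_cpow _ _ harg, ← h, ← mul_assoc, inv_mul_cancel₀ hpow, one_mul]

/-- `(i + τ) ^ c` for a nonzero integer `i` -/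
private theorem RamEq.ext_shift {i : ℤ} (hi : i ≠ 0) (c : ℂ) :
    RamEq.Ext fun τ => ((i : ℂ) + τ) ^ c := by
  rcases lt_or_gt_of_ne hi with h | h
  · refine ⟨fun τ => Complex.exp (π * I * c) * (-((i : ℂ) + τ)) ^ c, ?_, ?_⟩
    · refine analyticAt_const.fun_mul (AnalyticAt.cpow (by fun_prop) analyticAt_const ?_)
      left
      simp only [add_zero, neg_re, intCast_re]
      have : (i : ℝ) < 0 := by exact_mod_cast h
      linarith
    · filter_upwards [self_mem_nhdsWithin] with τ hτ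
      have hτ' : 0 < τ.im := hτ
      have him : 0 < ((i : ℂ) + τ).im := by
        rw [add_im, intCast_im, zero_add]
        exact hτ'
      have hne : (i : ℂ) + τ ≠ 0 := by
        intro h
        rw [h] at him
        simp at him
      have hlog : Complex.log ((i : ℂ) + τ) = Complex.log (-((i : ℂ) + τ)) + π * I := by
        unfold Complex.log
        rw [Complex.arg_neg_eq_arg_sub_pi_of_im_pos him, norm_neg]
        push_cast
        ring
      rw [cpow_def_of_ne_zero hne, cpow_def_of_ne_zero (neg_ne_zero.2 hne), hlog,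
        ← Complex.exp_add]
      congr 1
      ring
  · refine RamEq.Ext.of_analytic (AnalyticAt.cpow (by fun_prop) analyticAt_const ?_)
    left
    simp only [add_zero, intCast_re]
    exact_mod_cast h

private theorem RamEq.ext_shift' (i : ℤ) (c : ℂ) :
    RamEq.Ext fun τ => ((i : ℂ) + τ) ^ c - (if i = 0 then 1 else 0) * τ ^ c := by
  by_cases hi : i = 0
  · subst hi
    refine RamEq.Ext.congr (RamEq.Ext.of_analytic (analyticAt_const (v := (0:ℂ)))) ?_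
    refine Eventually.of_forall fun τ => ?_
    simp
  · refine RamEq.Ext.congr (RamEq.ext_shift hi c) ?_
    refine Eventually.of_forall fun τ => ?_
    simp [hi]

/-- a power with a real exponent which is not a natural number is not extendable -/
private theorem RamEq.not_ext {la : ℝ} (hla : ∀ n : ℕ, la ≠ n) :
    ¬ RamEq.Ext fun τ => τ ^ (la : ℂ) := by
  rintro ⟨h, hh, hev⟩
  -- along the imaginary axis
  have hI : Tendsto (fun ε : ℝ => I * ε) (𝓝[>] 0) (𝓝[{t : ℂ | 0 < t.im}] (0:ℂ)) := by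
    apply tendsto_nhdsWithin_of_tendsto_nhds_of_eventually_within
    · have : Continuous fun ε : ℝ => I * (ε : ℂ) := by fun_prop
      have h1 := this.tendsto 0
      simp only [ofReal_zero, mul_zero] at h1
      exact h1.mono_left nhdsWithin_le_nhds
    · filter_upwards [self_mem_nhdsWithin] with ε hε
      simpa using hε
  have hI' : Tendsto (fun ε : ℝ => I * ε) (𝓝[>] 0) (𝓝 (0:ℂ)) := hI.mono_right nhdsWithin_le_nhds
  have hne : ¬ ∀ᶠ τ in 𝓝 (0:ℂ), h τ = 0 := by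
    intro h0
    obtain ⟨ε, hε1, hε2, hε3⟩ :=
      ((hI.eventually hev).and ((hI'.eventually h0).and self_mem_nhdsWithin)).exists
    rw [hε2] at hε1
    have hε4 : (0:ℝ) < ε := hε3
    have h5 : I * (ε : ℂ) ≠ 0 := mul_ne_zero I_ne_zero (by exact_mod_cast hε4.ne')
    have h6 : (I * (ε : ℂ)) ^ (la : ℂ) = 0 := hε1
    rw [cpow_def_of_ne_zero h5] at h6
    exact Complex.exp_ne_zero _ h6
  obtain ⟨n, g, hg, hg0, hgh⟩ := hh.exists_eventuallyEq_pow_smul_nonzero_iff.2 hne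
  have h1 : ∀ᶠ ε : ℝ in 𝓝[>] 0, ε ^ (la - n) = ‖g (I * ε)‖ := by
    filter_upwards [hI.eventually hev, hI'.eventually hgh, self_mem_nhdsWithin] with ε e1 e2 e3
    have e4 : (0:ℝ) < ε := e3
    rw [e2, sub_zero, smul_eq_mul] at e1
    have e6 : ‖I * (ε : ℂ)‖ = ε := by
      rw [norm_mul, norm_I, one_mul, norm_real, Real.norm_eq_abs, abs_of_pos e4]
    have e5 : ‖(I * (ε : ℂ)) ^ (la : ℂ)‖ = ‖(I * (ε : ℂ)) ^ n * g (I * ε)‖ := congrArg norm e1
    rw [Complex.norm_cpow_real, e6, norm_mul, norm_pow, e6] at e5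
    have e7 : ε ^ n ≠ 0 := pow_ne_zero _ e4.ne'
    rw [Real.rpow_sub e4, e5, Real.rpow_natCast]
    field_simp
  have h2 : Tendsto (fun ε : ℝ => ‖g (I * ε)‖) (𝓝[>] 0) (𝓝 ‖g 0‖) :=
    (hg.continuousAt.tendsto.comp hI').norm
  have h3 : Tendsto (fun ε : ℝ => ε ^ (la - n)) (𝓝[>] 0) (𝓝 ‖g 0‖) :=
    h2.congr' (h1.mono fun ε hε => hε.symm)
  have h4 : ‖g 0‖ ≠ 0 := norm_ne_zero_iff.2 hg0
  rcases lt_trichotomy (la - n) 0 with h5 | h5 | h5
  · exact not_tendsto_nhds_of_tendsto_atTop (tendsto_rpow_neg_nhdsGT_zero h5) _ h3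
  · exact hla n (by linarith)
  · have h6 : Tendsto (fun ε : ℝ => ε ^ (la - n)) (𝓝[>] 0) (𝓝 0) := by
      have h7 : ContinuousAt (fun ε : ℝ => ε ^ (la - n)) 0 :=
        Real.continuousAt_rpow_const 0 _ (Or.inr h5.le)
      have h8 := h7.tendsto
      rw [Real.zero_rpow h5.ne'] at h8
      exact h8.mono_left nhdsWithin_le_nhds
    exact h4 (tendsto_nhds_unique h3 h6)

/-- the right hand side in the variable `t = 1 / ξ` -/
private def RamEq.R (la : ℝ) (t : ℂ) : ℂ :=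
  ((la + 2) * (la + 1) / 2) * ((t + 1) ^ (la : ℂ) + 2 * t ^ (la : ℂ) + (t - 1) ^ (la : ℂ)) -
    (la + 2) * ((t + 1) ^ ((la + 1 : ℝ) : ℂ) - (t - 1) ^ ((la + 1 : ℝ) : ℂ))

/-- the left hand side in the variable `t = 1 / ξ` -/
private def RamEq.G (la : ℝ) (γ : ℂ → ℂ) (t : ℂ) : ℂ := t ^ (la : ℂ) * γ t⁻¹

private theorem RamEq.step {la : ℝ} {C : ℂ} {γ : ℂ → ℂ} {t : ℂ} (ht : 0 < t.im)
    (h : (1 - t⁻¹) ^ (la : ℂ) * γ (t⁻¹ / (1 - t⁻¹)) - γ t⁻¹ = C * rhsR la t⁻¹) :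
    RamEq.G la γ (t - 1) - RamEq.G la γ t = C * RamEq.R la t := by
  have ht0 : t ≠ 0 := by
    rintro rfl
    simp at ht
  have hs0 : t - 1 ≠ 0 := by
    intro h
    have := congrArg Complex.im h
    simp at this
    linarith
  have h1 : t⁻¹ / (1 - t⁻¹) = (t - 1)⁻¹ := by
    have : 1 - t⁻¹ = (t - 1) / t := by
      rw [sub_div, div_self ht0, one_div]
    rw [this]
    field_simp
  rw [h1] at h
  unfold RamEq.G RamEq.R
  have e1 := RamEq.cpow_sub_inv ht (la : ℂ)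
  have e2 := RamEq.cpow_add_inv ht (la : ℂ)
  have e3 := RamEq.cpow_sub_inv ht ((la + 1 : ℝ) : ℂ)
  have e4 := RamEq.cpow_add_inv ht ((la + 1 : ℝ) : ℂ)
  have e5 : t ^ ((la + 1 : ℝ) : ℂ) = t ^ (la : ℂ) * t := by
    push_cast
    rw [Complex.cpow_add _ _ ht0, cpow_one]
  have e6 : rhsR la t⁻¹ * t ^ (la : ℂ) =
      ((la + 2) * (la + 1) / 2) * ((t + 1) ^ (la : ℂ) + 2 * t ^ (la : ℂ) + (t - 1) ^ (la : ℂ)) -
    (la + 2) * ((t + 1) ^ ((la + 1 : ℝ) : ℂ) - (t - 1) ^ ((la + 1 : ℝ) : ℂ)) := by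
    unfold rhsR
    rw [← e1, ← e2, ← e3, ← e4, e5]
    field_simp
  calc (t - 1) ^ (la : ℂ) * γ (t - 1)⁻¹ - t ^ (la : ℂ) * γ t⁻¹
      = ((1 - t⁻¹) ^ (la : ℂ) * γ (t - 1)⁻¹ - γ t⁻¹) * t ^ (la : ℂ) := by
        rw [← e1]
        ring
    _ = C * (rhsR la t⁻¹ * t ^ (la : ℂ)) := by
        rw [h]
        ring
    _ = _ := by rw [e6]

private theorem RamEq.mem_slit {t : ℂ} (ht : 0 < t.im) : t ∈ slitPlane := Or.inr ht.ne'

private theorem RamEq.R_diff (la : ℝ) {t : ℂ} (ht : 0 < t.im) :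
    DifferentiableAt ℂ (RamEq.R la) t := by
  have h1 : t + 1 ∈ slitPlane := RamEq.mem_slit (by simpa using ht)
  have h2 : t - 1 ∈ slitPlane := RamEq.mem_slit (by simpa using ht)
  have h3 : t ∈ slitPlane := RamEq.mem_slit ht
  have d1 : ∀ c : ℂ, DifferentiableAt ℂ (fun t : ℂ => (t + 1) ^ c) t := fun c =>
    (differentiableAt_id.add_const 1).cpow_const h1
  have d2 : ∀ c : ℂ, DifferentiableAt ℂ (fun t : ℂ => (t - 1) ^ c) t := fun c =>
    (differentiableAt_id.sub_const 1).cpow_const h2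
  have d3 : ∀ c : ℂ, DifferentiableAt ℂ (fun t : ℂ => t ^ c) t := fun c =>
    differentiableAt_id.cpow_const h3
  unfold RamEq.R
  exact (((((d1 _).add ((d3 _).const_mul 2)).add (d2 _)).const_mul _).sub
    (((d1 _).sub (d2 _)).const_mul _))

private theorem RamEq.G_diff (la : ℝ) {γ : ℂ → ℂ} {t : ℂ} (ht : 0 < t.im)
    (hγ : AnalyticAt ℂ γ t⁻¹) : DifferentiableAt ℂ (RamEq.G la γ) t := by
  have ht0 : t ≠ 0 := by
    rintro rfl
    simp at ht
  have d3 : DifferentiableAt ℂ (fun t : ℂ => t ^ (la : ℂ)) t :=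
    differentiableAt_id.cpow_const (RamEq.mem_slit ht)
  have d4 : DifferentiableAt ℂ (fun t : ℂ => γ t⁻¹) t :=
    hγ.differentiableAt.comp t (differentiableAt_inv ht0)
  unfold RamEq.G
  exact d3.mul d4

private theorem RamEq.ext_G (la : ℝ) {γ : ℂ → ℂ} {i : ℤ} (hi : i ≠ 0)
    (hγ : AnalyticAt ℂ γ ((i : ℂ))⁻¹) : RamEq.Ext fun τ => RamEq.G la γ ((i : ℂ) + τ) := by
  unfold RamEq.G
  refine RamEq.Ext.mul (RamEq.ext_shift hi _) (RamEq.Ext.of_analytic ?_)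
  have h0 : (i : ℂ) + 0 ≠ 0 := by
    rw [add_zero]
    exact_mod_cast hi
  have h1 : AnalyticAt ℂ (fun τ : ℂ => ((i : ℂ) + τ)⁻¹) 0 :=
    AnalyticAt.fun_inv (by fun_prop) h0
  have h2 : AnalyticAt ℂ γ ((fun τ : ℂ => ((i : ℂ) + τ)⁻¹) 0) := by
    simpa using hγ
  exact AnalyticAt.comp (g := γ) (f := fun τ : ℂ => ((i : ℂ) + τ)⁻¹) h2 h1

private theorem RamEq.ext_R (la : ℝ) (m : ℤ) :
    RamEq.Ext fun τ => RamEq.R la ((m : ℂ) + τ) -
      (((la + 2) * (la + 1) / 2) * ((if m + 1 = 0 then 1 else 0) + 2 * (if m = 0 then 1 else 0) +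
        (if m - 1 = 0 then 1 else 0)) * τ ^ (la : ℂ) -
      (la + 2) * ((if m + 1 = 0 then 1 else 0) - (if m - 1 = 0 then 1 else 0)) *
        τ ^ ((la + 1 : ℝ) : ℂ)) := by
  have a1 := RamEq.ext_shift' (m + 1) (la : ℂ)
  have a2 := RamEq.ext_shift' m (la : ℂ)
  have a3 := RamEq.ext_shift' (m - 1) (la : ℂ)
  have b1 := RamEq.ext_shift' (m + 1) ((la + 1 : ℝ) : ℂ)
  have b3 := RamEq.ext_shift' (m - 1) ((la + 1 : ℝ) : ℂ)
  have c1 := RamEq.Ext.const_mul ((la + 2) * (la + 1) / 2) (a1.add ((a2.const_mul 2).add a3))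
  have c2 := RamEq.Ext.const_mul (-(la + 2 : ℂ)) (b1.add (b3.const_mul (-1)))
  refine RamEq.Ext.congr (c1.add c2) (Eventually.of_forall fun τ => ?_)
  unfold RamEq.R
  have e1 : (m : ℂ) + τ + 1 = ((m + 1 : ℤ) : ℂ) + τ := by
    push_cast
    ring
  have e2 : (m : ℂ) + τ - 1 = ((m - 1 : ℤ) : ℂ) + τ := by
    push_cast
    ring
  rw [e1, e2]
  ring

private theorem RamEq.sum_ind {N : ℕ} {a : ℤ} {i : ℕ} (hi : i < N) (h : a + (i + 1) = 0) :
    ∑ k ∈ Finset.range N, (if a + ((k : ℤ) + 1) = 0 then (1 : ℂ) else 0) = 1 := by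
  rw [Finset.sum_eq_single i]
  · rw [if_pos h]
  · intro k _ hk
    rw [if_neg]
    intro h'
    apply hk
    omega
  · intro h'
    exact absurd (Finset.mem_range.2 hi) h'

theorem no_ram_eq {la : ℝ} (hla0 : 0 < la) (hla : ∀ n : ℕ, la ≠ n) {C : ℂ} (hC : C ≠ 0)
    {γ : ℂ → ℂ} (hγ : AnalyticAt ℂ γ 0)
    (h : ∀ᶠ ξ in 𝓝[≠] (0:ℂ), (1 - ξ) ^ (la : ℂ) * γ (ξ / (1 - ξ)) - γ ξ = C * rhsR la ξ) :
    False := by
  obtain ⟨r, hr0, hr⟩ : ∃ r > 0, ∀ ξ : ℂ, ‖ξ‖ < r → AnalyticAt ℂ γ ξ ∧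
      (ξ ≠ 0 → (1 - ξ) ^ (la : ℂ) * γ (ξ / (1 - ξ)) - γ ξ = C * rhsR la ξ) := by
    have h1 := hγ.eventually_analyticAt
    rw [eventually_nhdsWithin_iff] at h
    have h2 := h1.and h
    rw [Metric.eventually_nhds_iff] at h2
    obtain ⟨r, hr0, hr⟩ := h2
    refine ⟨r, hr0, fun ξ hξ => ?_⟩
    have h3 := hr (y := ξ) (by simpa using hξ)
    exact ⟨h3.1, fun h4 => h3.2 h4⟩
  have hinv : ∀ t : ℂ, r⁻¹ < ‖t‖ → ‖t⁻¹‖ < r := by
    intro t ht
    rw [norm_inv]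
    exact inv_lt_of_inv_lt₀ hr0 ht
  have hstep : ∀ t : ℂ, 0 < t.im → r⁻¹ < ‖t‖ →
      RamEq.G la γ (t - 1) - RamEq.G la γ t = C * RamEq.R la t := by
    intro t ht htn
    have ht0 : t ≠ 0 := by
      rintro rfl
      simp at ht
    exact RamEq.step ht ((hr t⁻¹ (hinv t htn)).2 (inv_ne_zero ht0))
  have hr1 : 0 < r⁻¹ := inv_pos.2 hr0
  have htel : ∀ n : ℕ, ∀ t : ℂ, r⁻¹ < t.im → RamEq.G la γ t - RamEq.G la γ (t + n) =
      C * ∑ k ∈ Finset.range n, RamEq.R la (t + (k + 1)) := by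
    intro n
    induction n with
    | zero =>
      intro t _
      simp
    | succ n ih =>
      intro t ht
      have h1 := ih t ht
      have him : (t + ((n : ℂ) + 1)).im = t.im := by simp
      have h2 := hstep (t + ((n : ℂ) + 1)) (by rw [him]; linarith) (by
        have := Complex.im_le_norm (t + ((n : ℂ) + 1))
        rw [him] at this
        linarith)
      have h3 : t + ((n : ℂ) + 1) - 1 = t + n := by ring
      rw [h3] at h2
      rw [Finset.sum_range_succ, mul_add, ← h1, ← h2]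
      push_cast
      ring
  obtain ⟨J, hJ⟩ := exists_nat_gt r⁻¹
  set j : ℕ := J + 2 with hj
  set N : ℕ := 2 * j + 2 with hN
  have hjr : r⁻¹ < (j : ℝ) - 1 / 2 := by
    rw [hj]
    push_cast
    linarith
  have hNr : r⁻¹ < (N : ℝ) - j - 1 / 2 := by
    rw [hN]
    push_cast
    linarith
  -- the strip
  set U : Set ℂ := {t | 0 < t.im} ∩ ({t | -(j : ℝ) - 1 / 2 < t.re} ∩ {t | t.re < -(j : ℝ) + 1 / 2})
    with hU
  have hUo : IsOpen U := (isOpen_lt continuous_const continuous_im).inter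
    ((isOpen_lt continuous_const continuous_re).inter (isOpen_lt continuous_re continuous_const))
  have hUc : Convex ℝ U := (convex_halfSpace_im_gt 0).inter
    ((convex_halfSpace_re_gt _).inter (convex_halfSpace_re_lt _))
  set F : ℂ → ℂ := fun t => RamEq.G la γ t - RamEq.G la γ (t + N) -
    C * ∑ k ∈ Finset.range N, RamEq.R la (t + (k + 1)) with hF
  have hFd : DifferentiableOn ℂ F U := by
    intro t ht
    obtain ⟨ht1, ht2, ht3⟩ := ht
    have ht1' : 0 < t.im := ht1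
    have ht2' : -(j : ℝ) - 1 / 2 < t.re := ht2
    have ht3' : t.re < -(j : ℝ) + 1 / 2 := ht3
    apply DifferentiableAt.differentiableWithinAt
    have g1 : DifferentiableAt ℂ (RamEq.G la γ) t := by
      apply RamEq.G_diff la ht1'
      apply (hr _ (hinv t _)).1
      have h1 := Complex.abs_re_le_norm t
      have h2 : -t.re ≤ |t.re| := neg_le_abs _
      linarith
    have g2 : DifferentiableAt ℂ (fun t => RamEq.G la γ (t + N)) t := by
      have him : (t + (N : ℂ)).im = t.im := by simp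
      have hre : (t + (N : ℂ)).re = t.re + N := by simp
      have h0 : DifferentiableAt ℂ (RamEq.G la γ) (t + N) := by
        apply RamEq.G_diff la (by rw [him]; exact ht1')
        apply (hr _ (hinv _ _)).1
        have h1 := Complex.re_le_norm (t + (N : ℂ))
        rw [hre] at h1
        linarith
      exact h0.comp t (differentiableAt_id.add_const _)
    have g3 : ∀ k ∈ Finset.range N, DifferentiableAt ℂ (fun t => RamEq.R la (t + (k + 1))) t := by
      intro k _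
      have him : (t + ((k : ℂ) + 1)).im = t.im := by simp
      have h0 : DifferentiableAt ℂ (RamEq.R la) (t + (k + 1)) :=
        RamEq.R_diff la (by rw [him]; exact ht1')
      exact h0.comp t (differentiableAt_id.add_const _)
    exact (g1.sub g2).sub ((DifferentiableAt.fun_sum g3).const_mul C)
  have hF0 : EqOn F 0 U := by
    have hFa : AnalyticOnNhd ℂ F U := hFd.analyticOnNhd hUo
    set t1 : ℂ := ⟨-(j : ℝ), r⁻¹ + 1⟩ with ht1
    have hm : t1 ∈ U := by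
      refine ⟨?_, ?_, ?_⟩
      · change 0 < r⁻¹ + 1
        linarith
      · change -(j : ℝ) - 1 / 2 < -(j : ℝ)
        linarith
      · change -(j : ℝ) < -(j : ℝ) + 1 / 2
        linarith
    refine hFa.eqOn_zero_of_preconnected_of_eventuallyEq_zero hUc.isPreconnected hm ?_
    have ho : IsOpen {t : ℂ | r⁻¹ < t.im} := isOpen_lt continuous_const continuous_im
    have hmo : t1 ∈ {t : ℂ | r⁻¹ < t.im} := by
      change r⁻¹ < r⁻¹ + 1
      linarith
    filter_upwards [ho.mem_nhds hmo] with t ht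
    simp only [hF, Pi.zero_apply]
    rw [htel N t ht, sub_self]
  -- near the point `-j`
  have hUj : ∀ᶠ τ in 𝓝[{t : ℂ | 0 < t.im}] (0:ℂ), ((-(j : ℤ) : ℤ) : ℂ) + τ ∈ U := by
    have h1 : ∀ᶠ τ in 𝓝[{t : ℂ | 0 < t.im}] (0:ℂ), ‖τ‖ < 1 / 2 := by
      apply Eventually.filter_mono nhdsWithin_le_nhds
      have : Continuous fun τ : ℂ => ‖τ‖ := continuous_norm
      have h2 := this.tendsto 0
      rw [norm_zero] at h2
      exact h2.eventually (gt_mem_nhds (by norm_num))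
    filter_upwards [h1, self_mem_nhdsWithin] with τ h2 h3
    have h4 := Complex.abs_re_le_norm τ
    have h5 := abs_lt.1 (lt_of_le_of_lt h4 h2)
    have h3' : 0 < τ.im := h3
    have hre : (((-(j : ℤ) : ℤ) : ℂ) + τ).re = -(j : ℝ) + τ.re := by simp
    have him : (((-(j : ℤ) : ℤ) : ℂ) + τ).im = τ.im := by simp
    refine ⟨?_, ?_, ?_⟩
    · change 0 < (((-(j : ℤ) : ℤ) : ℂ) + τ).im
      rw [him]
      exact h3'
    · change -(j : ℝ) - 1 / 2 < (((-(j : ℤ) : ℤ) : ℂ) + τ).re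
      rw [hre]
      linarith [h5.1]
    · change (((-(j : ℤ) : ℤ) : ℂ) + τ).re < -(j : ℝ) + 1 / 2
      rw [hre]
      linarith [h5.2]
  have hinvj : ∀ i : ℤ, r⁻¹ < |(i : ℝ)| → AnalyticAt ℂ γ ((i : ℂ))⁻¹ := by
    intro i hi
    apply (hr _ (hinv _ _)).1
    rw [Complex.norm_intCast]
    exact hi
  have hj0 : (-(j : ℤ) : ℤ) ≠ 0 := by omega
  have hNj0 : ((N : ℤ) - j : ℤ) ≠ 0 := by omega
  have E1 : RamEq.Ext fun τ => RamEq.G la γ (((-(j : ℤ) : ℤ) : ℂ) + τ) := by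
    apply RamEq.ext_G la hj0
    apply hinvj
    push_cast
    rw [abs_neg, abs_of_nonneg (Nat.cast_nonneg j)]
    linarith
  have E2 : RamEq.Ext fun τ => RamEq.G la γ ((((N : ℤ) - j : ℤ) : ℂ) + τ) := by
    apply RamEq.ext_G la hNj0
    apply hinvj
    push_cast
    have := le_abs_self ((N : ℝ) - j)
    linarith
  have E3 : RamEq.Ext fun τ => ∑ k ∈ Finset.range N, (RamEq.R la
      (((-(j : ℤ) + ((k : ℤ) + 1) : ℤ) : ℂ) + τ) -
      (((la + 2) * (la + 1) / 2) * ((if -(j : ℤ) + ((k : ℤ) + 1) + 1 = 0 then 1 else 0) +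
        2 * (if -(j : ℤ) + ((k : ℤ) + 1) = 0 then 1 else 0) +
        (if -(j : ℤ) + ((k : ℤ) + 1) - 1 = 0 then 1 else 0)) * τ ^ (la : ℂ) -
      (la + 2) * ((if -(j : ℤ) + ((k : ℤ) + 1) + 1 = 0 then 1 else 0) -
        (if -(j : ℤ) + ((k : ℤ) + 1) - 1 = 0 then 1 else 0)) * τ ^ ((la + 1 : ℝ) : ℂ))) :=
    RamEq.Ext.sum fun k _ => RamEq.ext_R la _
  have s1 : ∑ k ∈ Finset.range N, (if -(j : ℤ) + ((k : ℤ) + 1) + 1 = 0 then (1 : ℂ) else 0) = 1 := by
    have h1 := RamEq.sum_ind (N := N) (a := -(j : ℤ) + 1) (i := J) (by omega) (by omega)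
    rw [← h1]
    apply Finset.sum_congr rfl
    intro k _
    congr 1
    apply propext
    constructor <;> intro h <;> omega
  have s2 : ∑ k ∈ Finset.range N, (if -(j : ℤ) + ((k : ℤ) + 1) = 0 then (1 : ℂ) else 0) = 1 :=
    RamEq.sum_ind (N := N) (a := -(j : ℤ)) (i := J + 1) (by omega) (by push_cast; omega)
  have s3 : ∑ k ∈ Finset.range N, (if -(j : ℤ) + ((k : ℤ) + 1) - 1 = 0 then (1 : ℂ) else 0) = 1 := by
    have h1 := RamEq.sum_ind (N := N) (a := -(j : ℤ) - 1) (i := J + 2) (by omega)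
      (by push_cast; omega)
    rw [← h1]
    apply Finset.sum_congr rfl
    intro k _
    congr 1
    apply propext
    constructor <;> intro h <;> omega
  have E4 : RamEq.Ext fun τ => C * ∑ k ∈ Finset.range N, RamEq.R la
      (((-(j : ℤ) + ((k : ℤ) + 1) : ℤ) : ℂ) + τ) := by
    refine RamEq.Ext.congr (E1.add (E2.const_mul (-1))) ?_
    filter_upwards [hUj] with τ hτ
    have h1 := hF0 hτ
    simp only [hF, Pi.zero_apply] at h1
    have h2 : ((-(j : ℤ) : ℤ) : ℂ) + τ + (N : ℂ) = (((N : ℤ) - j : ℤ) : ℂ) + τ := by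
      push_cast
      ring
    rw [h2] at h1
    have h3 : ∑ k ∈ Finset.range N, RamEq.R la (((-(j : ℤ) + ((k : ℤ) + 1) : ℤ) : ℂ) + τ) =
        ∑ k ∈ Finset.range N, RamEq.R la (((-(j : ℤ) : ℤ) : ℂ) + τ + (k + 1)) := by
      apply Finset.sum_congr rfl
      intro k _
      congr 1
      push_cast
      ring
    rw [h3]
    linear_combination -h1
  have hne : C * (2 * ((la + 2) * (la + 1)) : ℂ) ≠ 0 := by
    apply mul_ne_zero hC
    apply mul_ne_zero (by norm_num)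
    apply mul_ne_zero
    · have : (la : ℝ) + 2 ≠ 0 := by linarith
      exact_mod_cast this
    · have : (la : ℝ) + 1 ≠ 0 := by linarith
      exact_mod_cast this
  apply RamEq.not_ext hla
  refine RamEq.Ext.congr
    ((E4.add (E3.const_mul (-C))).const_mul (C * (2 * ((la + 2) * (la + 1)) : ℂ))⁻¹)
    (Eventually.of_forall fun τ => ?_)
  have hS : ∑ k ∈ Finset.range N, (RamEq.R la
      (((-(j : ℤ) + ((k : ℤ) + 1) : ℤ) : ℂ) + τ) -
      (((la + 2) * (la + 1) / 2) * ((if -(j : ℤ) + ((k : ℤ) + 1) + 1 = 0 then 1 else 0) +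
        2 * (if -(j : ℤ) + ((k : ℤ) + 1) = 0 then 1 else 0) +
        (if -(j : ℤ) + ((k : ℤ) + 1) - 1 = 0 then 1 else 0)) * τ ^ (la : ℂ) -
      (la + 2) * ((if -(j : ℤ) + ((k : ℤ) + 1) + 1 = 0 then 1 else 0) -
        (if -(j : ℤ) + ((k : ℤ) + 1) - 1 = 0 then 1 else 0)) * τ ^ ((la + 1 : ℝ) : ℂ))) =
      ∑ k ∈ Finset.range N, RamEq.R la (((-(j : ℤ) + ((k : ℤ) + 1) : ℤ) : ℂ) + τ) -
        (2 * ((la + 2) * (la + 1))) * τ ^ (la : ℂ) := by
    rw [Finset.sum_sub_distrib, Finset.sum_sub_distrib, ← Finset.sum_mul, ← Finset.sum_mul,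
      ← Finset.mul_sum, ← Finset.mul_sum, Finset.sum_add_distrib, Finset.sum_add_distrib,
      ← Finset.mul_sum, Finset.sum_sub_distrib, s1, s2, s3]
    ring
  rw [hS]
  generalize (∑ k ∈ Finset.range N, RamEq.R la (((-(j : ℤ) + ((k : ℤ) + 1) : ℤ) : ℂ) + τ)) = S'
  rw [eq_inv_mul_iff_mul_eq₀ hne]
  ring

end RA

end Pool.Agent.MP_ae5b4e_an_ALG
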