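import Mathlib
import Pool.Agent.Lib.MP_ae5b4e_an_ALG.DefsB
import Pool.Agent.Lib.MP_ae5b4e_an_ALG.Div
import Pool.Agent.Lib.MP_ae5b4e_an_ALG.RamEq

/-!
# MP_ae5b4e_an, algebraic tables: the first order of the slope (module RD)
-/

set_option autoImplicit false

noncomputable section

namespace Pool.Agent.MP_ae5b4e_an_ALG

open Filter Topology Set Metric Complex Polynomial
open scoped Real
open Pool.Agent.MP_ae5b4e_an_ND (Dx Dy)
open Pool.Agent.MP_ae5b4e_an_FLEX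

namespace SlopeDiff

open Asymptotics

/-- the function `E` -/
def Ef (k : ℕ) (a B : ℂ × ℂ → ℂ) (p : ℂ × ℂ) : ℂ :=
  a p + p.1 / k * Dx a p + (B p - p.2) * Dy a p

/-- the map `P` -/
def Pf (k : ℕ) (a : ℂ × ℂ → ℂ) (p : ℂ × ℂ) : ℂ × ℂ :=
  (p.1 * (1 - a p) ^ (1 / k : ℂ), a p / (1 - a p))

/-- the rotation -/
def sg (om : ℂ) (p : ℂ × ℂ) : ℂ × ℂ := (om * p.1, p.2)

lemma sg_cont (om : ℂ) : Continuous (sg om) := by
  unfold sg
  fun_prop

lemma sg_zero (om ξ : ℂ) : sg om (0, ξ) = (0, ξ) := by simp [sg]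

lemma sg_tend (om ξ : ℂ) : Tendsto (sg om) (𝓝 (0, ξ)) (𝓝 (0, ξ)) := by
  have h := (sg_cont om).tendsto (0, ξ)
  rwa [sg_zero] at h

lemma line_tend (w ξ : ℂ) : Tendsto (fun t : ℂ => ((t, ξ) : ℂ × ℂ)) (𝓝 w) (𝓝 (w, ξ)) := by
  have h : Continuous (fun t : ℂ => ((t, ξ) : ℂ × ℂ)) := by fun_prop
  exact h.tendsto w

lemma line_tend' (w ξ : ℂ) : Tendsto (fun t : ℂ => ((w, t) : ℂ × ℂ)) (𝓝 ξ) (𝓝 (w, ξ)) := by
  have h : Continuous (fun t : ℂ => ((w, t) : ℂ × ℂ)) := by fun_prop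
  exact h.tendsto ξ

lemma der_rel {l : ℕ} {om : ℂ} {a α : ℂ × ℂ → ℂ}
    (ha : AnalyticAt ℂ a (0, 0)) (hα : AnalyticAt ℂ α (0, 0))
    (haα : ∀ᶠ p in 𝓝 ((0, 0) : ℂ × ℂ), a (om * p.1, p.2) - a p = p.1 ^ l * α p) :
    ∀ᶠ p in 𝓝 ((0, 0) : ℂ × ℂ),
      om * Dx a (sg om p) = Dx a p + (l * p.1 ^ (l - 1) * α p + p.1 ^ l * Dx α p) ∧
      Dy a (sg om p) = Dy a p + p.1 ^ l * Dy α p := by
  filter_upwards [haα.eventually_nhds, ha.eventually_analyticAt, hα.eventually_analyticAt,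
    (sg_tend om 0).eventually ha.eventually_analyticAt] with p h1 h2 h3 h4
  obtain ⟨w, ξ⟩ := p
  have h4' : AnalyticAt ℂ a (om * w, ξ) := h4
  have dax : DifferentiableAt ℂ (fun t : ℂ => a (t, ξ)) w :=
    h2.differentiableAt.comp w (by fun_prop)
  have day : DifferentiableAt ℂ (fun t : ℂ => a (w, t)) ξ :=
    h2.differentiableAt.comp ξ (by fun_prop)
  have dαx : DifferentiableAt ℂ (fun t : ℂ => α (t, ξ)) w :=
    h3.differentiableAt.comp w (by fun_prop)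
  have dαy : DifferentiableAt ℂ (fun t : ℂ => α (w, t)) ξ :=
    h3.differentiableAt.comp ξ (by fun_prop)
  constructor
  · have e0 : Dx a (sg om (w, ξ)) = deriv (fun t => a (t, ξ)) (om * w) :=
      MP_ae5b4e_an_ND.Dx_eq_deriv h4'.differentiableAt
    have e1 : deriv (fun t => a (om * t, ξ)) w = om * deriv (fun t => a (t, ξ)) (om * w) := by
      have h := deriv_comp_mul_left om (fun t => a (t, ξ)) w
      simpa [smul_eq_mul] using h
    have e2 : (fun t => a (om * t, ξ)) =ᶠ[𝓝 w] (fun t => a (t, ξ) + t ^ l * α (t, ξ)) := by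
      filter_upwards [(line_tend w ξ).eventually h1] with t ht
      linear_combination ht
    have e3 : deriv (fun t => a (t, ξ) + t ^ l * α (t, ξ)) w =
        deriv (fun t => a (t, ξ)) w + (l * w ^ (l - 1) * α (w, ξ) +
          w ^ l * deriv (fun t => α (t, ξ)) w) :=
      (dax.hasDerivAt.add ((hasDerivAt_pow l w).mul dαx.hasDerivAt)).deriv
    rw [e0, ← e1, e2.deriv_eq, e3, MP_ae5b4e_an_ND.Dx_eq_deriv h2.differentiableAt,
      MP_ae5b4e_an_ND.Dx_eq_deriv h3.differentiableAt]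
  · have e0 : Dy a (sg om (w, ξ)) = deriv (fun t => a (om * w, t)) ξ :=
      MP_ae5b4e_an_ND.Dy_eq_deriv h4'.differentiableAt
    have e2 : (fun t => a (om * w, t)) =ᶠ[𝓝 ξ] (fun t => a (w, t) + w ^ l * α (w, t)) := by
      filter_upwards [(line_tend' w ξ).eventually h1] with t ht
      linear_combination ht
    have e3 : deriv (fun t => a (w, t) + w ^ l * α (w, t)) ξ =
        deriv (fun t => a (w, t)) ξ + w ^ l * deriv (fun t => α (w, t)) ξ :=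
      (day.hasDerivAt.add (dαy.hasDerivAt.const_mul (w ^ l))).deriv
    rw [e0, e2.deriv_eq, e3, MP_ae5b4e_an_ND.Dy_eq_deriv h2.differentiableAt,
      MP_ae5b4e_an_ND.Dy_eq_deriv h3.differentiableAt]

/-- the factor on the right hand side -/
def Af (k l : ℕ) (B α : ℂ × ℂ → ℂ) (p : ℂ × ℂ) : ℂ :=
  (1 + l / k) * α p + p.1 / k * Dx α p + (B p - p.2) * Dy α p

/-- the identity `(*)` -/
def Star (k l : ℕ) (om : ℂ) (a B α : ℂ × ℂ → ℂ) (p : ℂ × ℂ) : Prop :=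
  (B (sg om (Pf k a p)) - B (Pf k a p)) * (1 - Ef k a B (sg om p)) -
      (B (sg om p) - B p) * Dy a (sg om p) * (1 + B (Pf k a p)) =
    p.1 ^ l * Af k l B α p * (1 + B (Pf k a p)) -
      (B (Pf k a (sg om p)) - B (sg om (Pf k a p))) * (1 - Ef k a B (sg om p))

lemma star {k l : ℕ} (hl : 0 < l) {om : ℂ} {a B α : ℂ × ℂ → ℂ} (ha : AnalyticAt ℂ a (0, 0))
    (hα : AnalyticAt ℂ α (0, 0))
    (hFI : ∀ᶠ p in 𝓝 ((0, 0) : ℂ × ℂ), B (Pf k a p) * (1 - Ef k a B p) = Ef k a B p)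
    (haα : ∀ᶠ p in 𝓝 ((0, 0) : ℂ × ℂ), a (om * p.1, p.2) - a p = p.1 ^ l * α p) :
    ∀ᶠ p in 𝓝 ((0, 0) : ℂ × ℂ), Star k l om a B α p := by
  filter_upwards [hFI, (sg_tend om 0).eventually hFI, der_rel ha hα haα, haα] with p h0 h1 h2 h3
  obtain ⟨h2x, h2y⟩ := h2
  have hpow : p.1 * p.1 ^ (l - 1) = p.1 ^ l := by
    rw [← pow_succ', Nat.sub_add_cancel hl]
  have hs1 : (sg om p).1 = om * p.1 := rfl
  have hs2 : (sg om p).2 = p.2 := rfl
  have h3' : a (sg om p) - a p = p.1 ^ l * α p := h3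
  have hE : Ef k a B (sg om p) - Ef k a B p =
      p.1 ^ l * Af k l B α p + (B (sg om p) - B p) * Dy a (sg om p) := by
    unfold Ef Af
    rw [hs1, hs2]
    have e1 : om * p.1 / k * Dx a (sg om p) =
        p.1 / k * (Dx a p + (l * p.1 ^ (l - 1) * α p + p.1 ^ l * Dx α p)) := by
      rw [← h2x]; ring
    rw [e1]
    linear_combination h3' + (B p - p.2) * h2y + (l / k * α p) * hpow
  unfold Star
  linear_combination h1 - h0 + (1 + B (Pf k a p)) * hE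

/-- regular points of the axis -/
structure Nice (k l : ℕ) (om : ℂ) (a B α : ℂ × ℂ → ℂ) (ξ : ℂ) : Prop where
  aa : AnalyticAt ℂ a (0, ξ)
  Ba : AnalyticAt ℂ B (0, ξ)
  αa : AnalyticAt ℂ α (0, ξ)
  Bv : AnalyticAt ℂ B (0, ξ / (1 - ξ))
  a0 : ∀ᶠ t in 𝓝 ξ, a (0, t) = t
  B0 : ∀ᶠ t in 𝓝 ξ, B (0, t) = 0
  Bv0 : ∀ᶠ t in 𝓝 (ξ / (1 - ξ)), B (0, t) = 0
  slit : 1 - ξ ∈ slitPlane
  rel : ∀ᶠ p in 𝓝 ((0, ξ) : ℂ × ℂ), a (om * p.1, p.2) - a p = p.1 ^ l * α p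
  st : ∀ᶠ p in 𝓝 ((0, ξ) : ℂ × ℂ), Star k l om a B α p

lemma v_tend : Tendsto (fun ξ : ℂ => ξ / (1 - ξ)) (𝓝 0) (𝓝 0) := by
  have h : ContinuousAt (fun ξ : ℂ => ξ / (1 - ξ)) 0 := by
    refine ContinuousAt.div continuousAt_id (by fun_prop) (by simp)
  have h2 := h.tendsto
  simpa using h2

lemma vline_tend : Tendsto (fun ξ : ℂ => ((0, ξ / (1 - ξ)) : ℂ × ℂ)) (𝓝 0) (𝓝 (0, 0)) :=
  (line_tend' 0 0).comp v_tend

lemma nice_ev {k l : ℕ} (hl : 0 < l) {om : ℂ} {a B α : ℂ × ℂ → ℂ} (ha : AnalyticAt ℂ a (0, 0))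
    (hB : AnalyticAt ℂ B (0, 0)) (hα : AnalyticAt ℂ α (0, 0))
    (ha0 : ∀ᶠ ξ in 𝓝 (0:ℂ), a (0, ξ) = ξ) (hB0 : ∀ᶠ ξ in 𝓝 (0:ℂ), B (0, ξ) = 0)
    (hFI : ∀ᶠ p in 𝓝 ((0, 0) : ℂ × ℂ), B (Pf k a p) * (1 - Ef k a B p) = Ef k a B p)
    (haα : ∀ᶠ p in 𝓝 ((0, 0) : ℂ × ℂ), a (om * p.1, p.2) - a p = p.1 ^ l * α p) :
    ∀ᶠ ξ in 𝓝 (0:ℂ), Nice k l om a B α ξ := by
  have hsl : ∀ᶠ ξ in 𝓝 (0:ℂ), 1 - ξ ∈ slitPlane := by
    have h : ContinuousAt (fun ξ : ℂ => 1 - ξ) 0 := by fun_prop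
    exact h.eventually_mem (isOpen_slitPlane.mem_nhds (by simp))
  filter_upwards [(line_tend' 0 0).eventually ha.eventually_analyticAt,
    (line_tend' 0 0).eventually hB.eventually_analyticAt,
    (line_tend' 0 0).eventually hα.eventually_analyticAt,
    vline_tend.eventually hB.eventually_analyticAt, ha0.eventually_nhds, hB0.eventually_nhds,
    v_tend.eventually hB0.eventually_nhds, hsl,
    (line_tend' 0 0).eventually haα.eventually_nhds,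
    (line_tend' 0 0).eventually (star hl ha hα hFI haα).eventually_nhds]
    with ξ h1 h2 h3 h4 h5 h6 h7 h8 h9 h10
  exact ⟨h1, h2, h3, h4, h5, h6, h7, h8, h9, h10⟩

section lim

variable {k l : ℕ} {om : ℂ} {a B α : ℂ × ℂ → ℂ} {ξ : ℂ}

lemma Nice.aval (N : Nice k l om a B α ξ) : a (0, ξ) = ξ := N.a0.self_of_nhds

lemma Nice.Bval (N : Nice k l om a B α ξ) : B (0, ξ) = 0 := N.B0.self_of_nhds

lemma Nice.Bvval (N : Nice k l om a B α ξ) : B (0, ξ / (1 - ξ)) = 0 := N.Bv0.self_of_nhds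

lemma Nice.Dya (N : Nice k l om a B α ξ) : Dy a (0, ξ) = 1 := by
  rw [MP_ae5b4e_an_ND.Dy_eq_deriv N.aa.differentiableAt]
  have h : (fun t => a (0, t)) =ᶠ[𝓝 ξ] fun t => t := N.a0
  rw [h.deriv_eq]
  simp

lemma Nice.DyB (N : Nice k l om a B α ξ) : Dy B (0, ξ / (1 - ξ)) = 0 := by
  rw [MP_ae5b4e_an_ND.Dy_eq_deriv N.Bv.differentiableAt]
  have h : (fun t => B (0, t)) =ᶠ[𝓝 (ξ / (1 - ξ))] fun _ => 0 := N.Bv0
  rw [h.deriv_eq]
  simp

lemma Nice.ne (N : Nice k l om a B α ξ) : 1 - ξ ≠ 0 := slitPlane_ne_zero N.slit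

lemma Nice.Pf_tend (N : Nice k l om a B α ξ) :
    Tendsto (Pf k a) (𝓝 (0, ξ)) (𝓝 (0, ξ / (1 - ξ))) := by
  have hc : ContinuousAt (fun p : ℂ × ℂ => 1 - a p) (0, ξ) :=
    continuousAt_const.sub N.aa.continuousAt
  have h1 : ContinuousAt (fun p : ℂ × ℂ => p.1 * (1 - a p) ^ (1 / k : ℂ)) (0, ξ) := by
    refine continuousAt_fst.mul (hc.cpow continuousAt_const ?_)
    show 1 - a (0, ξ) ∈ slitPlane
    rw [N.aval]
    exact N.slit
  have h2 : ContinuousAt (fun p : ℂ × ℂ => a p / (1 - a p)) (0, ξ) := by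
    refine N.aa.continuousAt.div hc ?_
    rw [N.aval]
    exact N.ne
  have h : Tendsto (Pf k a) (𝓝 (0, ξ)) (𝓝 (Pf k a (0, ξ))) := (h1.prodMk h2).tendsto
  have h3 : Pf k a (0, ξ) = (0, ξ / (1 - ξ)) := by simp [Pf, N.aval]
  rwa [h3] at h

lemma Nice.Ef_tend (N : Nice k l om a B α ξ) : Tendsto (Ef k a B) (𝓝 (0, ξ)) (𝓝 0) := by
  have h : ContinuousAt (Ef k a B) (0, ξ) := by
    refine (N.aa.continuousAt.add ((continuousAt_fst.div_const _).mul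
      (MP_ae5b4e_an_ND.Dx_analyticAt N.aa).continuousAt)).add
      ((N.Ba.continuousAt.sub continuousAt_snd).mul
      (MP_ae5b4e_an_ND.Dy_analyticAt N.aa).continuousAt)
  have h2 := h.tendsto
  have h3 : Ef k a B (0, ξ) = 0 := by
    simp [Ef, N.aval, N.Bval, N.Dya]
  rwa [h3] at h2

lemma Nice.Af_tend (N : Nice k l om a B α ξ) : Tendsto (Af k l B α) (𝓝 (0, ξ))
    (𝓝 ((1 + l / k) * α (0, ξ) - ξ * deriv (fun t => α (0, t)) ξ)) := by
  have h : ContinuousAt (Af k l B α) (0, ξ) := by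
    refine ((continuousAt_const.mul N.αa.continuousAt).add ((continuousAt_fst.div_const _).mul
      (MP_ae5b4e_an_ND.Dx_analyticAt N.αa).continuousAt)).add
      ((N.Ba.continuousAt.sub continuousAt_snd).mul
      (MP_ae5b4e_an_ND.Dy_analyticAt N.αa).continuousAt)
  have h2 := h.tendsto
  have h3 : Af k l B α (0, ξ) =
      (1 + l / k) * α (0, ξ) - ξ * deriv (fun t => α (0, t)) ξ := by
    simp only [Af, N.Bval, MP_ae5b4e_an_ND.Dy_eq_deriv N.αa.differentiableAt]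
    ring
  rwa [h3] at h2

lemma comp_bigO {h : ℂ → ℂ} {ξ : ℂ} (hh : AnalyticAt ℂ h ξ) {u v : ℂ → ℂ} {F : Filter ℂ}
    (hu : Tendsto u F (𝓝 ξ)) (hv : Tendsto v F (𝓝 ξ)) {g : ℂ → ℂ}
    (hO : (fun w => u w - v w) =O[F] g) : (fun w => h (u w) - h (v w)) =O[F] g := by
  have h1 := hh.hasStrictDerivAt.hasStrictFDerivAt.isBigO_sub
  have h2 := h1.comp_tendsto (hu.prodMk_nhds hv)
  exact h2.trans hO

lemma punct_tend (ξ : ℂ) : Tendsto (fun t : ℂ => ((t, ξ) : ℂ × ℂ)) (𝓝[≠] 0) (𝓝 (0, ξ)) :=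
  (line_tend 0 ξ).mono_left nhdsWithin_le_nhds

lemma Nice.rest (N : Nice k l om a B α ξ) :
    Tendsto (fun w : ℂ => (B (Pf k a (sg om (w, ξ))) - B (sg om (Pf k a (w, ξ)))) / w ^ l)
      (𝓝[≠] 0) (𝓝 0) := by
  set F : Filter ℂ := 𝓝[≠] (0:ℂ) with hF
  set q0 : ℂ × ℂ := (0, ξ / (1 - ξ)) with hq0
  have t0 : Tendsto (fun w : ℂ => ((w, ξ) : ℂ × ℂ)) F (𝓝 (0, ξ)) := punct_tend ξ
  have t1 : Tendsto (fun w : ℂ => sg om (w, ξ)) F (𝓝 (0, ξ)) := (sg_tend om ξ).comp t0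
  have ta : Tendsto (fun w : ℂ => a (w, ξ)) F (𝓝 ξ) := by
    have h := N.aa.continuousAt.tendsto.comp t0
    rwa [N.aval] at h
  have ta' : Tendsto (fun w : ℂ => a (sg om (w, ξ))) F (𝓝 ξ) := by
    have h := N.aa.continuousAt.tendsto.comp t1
    rwa [N.aval] at h
  have hdiff : (fun w : ℂ => a (sg om (w, ξ)) - a (w, ξ)) =O[F] (fun w : ℂ => w ^ l) := by
    have h1 : (fun w : ℂ => a (sg om (w, ξ)) - a (w, ξ)) =ᶠ[F]
        (fun w : ℂ => w ^ l * α (w, ξ)) := t0.eventually N.rel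
    refine h1.trans_isBigO ?_
    have h2 : (fun w : ℂ => α (w, ξ)) =O[F] (fun _ => (1 : ℂ)) :=
      (N.αa.continuousAt.tendsto.comp t0).isBigO_one ℂ
    have h3 := (isBigO_refl (fun w : ℂ => w ^ l) F).mul h2
    simpa using h3
  have hh : AnalyticAt ℂ (fun z : ℂ => (1 - z) ^ (1 / k : ℂ)) ξ :=
    (analyticAt_const.sub analyticAt_id).cpow analyticAt_const N.slit
  have hψ : AnalyticAt ℂ (fun z : ℂ => z / (1 - z)) ξ :=
    analyticAt_id.div (analyticAt_const.sub analyticAt_id) N.ne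
  have o1 := comp_bigO hh ta' ta hdiff
  have o2 := comp_bigO hψ ta' ta hdiff
  -- the first components
  have e1 : (fun w : ℂ => (Pf k a (sg om (w, ξ))).1 - (sg om (Pf k a (w, ξ))).1) =o[F]
      (fun w : ℂ => w ^ l) := by
    have h1 : (fun w : ℂ => (Pf k a (sg om (w, ξ))).1 - (sg om (Pf k a (w, ξ))).1) =
        fun w : ℂ => (om * w) * ((1 - a (sg om (w, ξ))) ^ (1 / k : ℂ) -
          (1 - a (w, ξ)) ^ (1 / k : ℂ)) := by
      funext w
      simp only [Pf, sg]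
      ring
    rw [h1]
    have h2 : (fun w : ℂ => om * w) =o[F] (fun _ => (1 : ℂ)) := by
      rw [isLittleO_one_iff]
      have h3 : Tendsto (fun w : ℂ => om * w) (𝓝 0) (𝓝 (om * 0)) :=
        (continuous_const.mul continuous_id).tendsto 0
      rw [mul_zero] at h3
      exact h3.mono_left nhdsWithin_le_nhds
    have h3 := h2.mul_isBigO o1
    simpa using h3
  have e2 : (fun w : ℂ => (Pf k a (sg om (w, ξ))).2 - (sg om (Pf k a (w, ξ))).2) =O[F]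
      (fun w : ℂ => w ^ l) := o2
  have hO : (fun w : ℂ => Pf k a (sg om (w, ξ)) - sg om (Pf k a (w, ξ))) =O[F]
      (fun w : ℂ => w ^ l) := by
    have h1 : (fun w : ℂ => Pf k a (sg om (w, ξ)) - sg om (Pf k a (w, ξ))) =
        fun w : ℂ => ((Pf k a (sg om (w, ξ))).1 - (sg om (Pf k a (w, ξ))).1,
          (Pf k a (sg om (w, ξ))).2 - (sg om (Pf k a (w, ξ))).2) := rfl
    rw [h1]
    exact e1.isBigO.prod_left e2
  have g1 : Tendsto (fun w : ℂ => Pf k a (sg om (w, ξ))) F (𝓝 q0) := N.Pf_tend.comp t1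
  have g2 : Tendsto (fun w : ℂ => sg om (Pf k a (w, ξ))) F (𝓝 q0) :=
    (sg_tend om (ξ / (1 - ξ))).comp (N.Pf_tend.comp t0)
  have s1 := (N.Bv.hasStrictFDerivAt.isLittleO.comp_tendsto (g1.prodMk_nhds g2)).trans_isBigO hO
  have s2 : (fun w : ℂ => fderiv ℂ B q0 (Pf k a (sg om (w, ξ)) - sg om (Pf k a (w, ξ)))) =o[F]
      (fun w : ℂ => w ^ l) := by
    have h1 : (fun w : ℂ => fderiv ℂ B q0 (Pf k a (sg om (w, ξ)) - sg om (Pf k a (w, ξ)))) =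
        fun w : ℂ => Dx B q0 * ((Pf k a (sg om (w, ξ))).1 - (sg om (Pf k a (w, ξ))).1) := by
      funext w
      set z : ℂ × ℂ := Pf k a (sg om (w, ξ)) - sg om (Pf k a (w, ξ)) with hz
      have hz2 : z = z.1 • ((1, 0) : ℂ × ℂ) + z.2 • ((0, 1) : ℂ × ℂ) := by
        ext <;> simp
      have hDy : fderiv ℂ B q0 (0, 1) = 0 := N.DyB
      have h2 : fderiv ℂ B q0 z = z.1 * fderiv ℂ B q0 (1, 0) + z.2 * fderiv ℂ B q0 (0, 1) := by
        conv_lhs => rw [hz2]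
        rw [map_add, map_smul, map_smul, smul_eq_mul, smul_eq_mul]
      rw [h2, hDy]
      have h3 : z.1 = (Pf k a (sg om (w, ξ))).1 - (sg om (Pf k a (w, ξ))).1 := rfl
      rw [h3]
      show _ = fderiv ℂ B q0 (1, 0) * _
      ring
    rw [h1]
    exact e1.const_mul_left _
  have s3 := s1.add s2
  have s4 : (fun w : ℂ => B (Pf k a (sg om (w, ξ))) - B (sg om (Pf k a (w, ξ)))) =o[F]
      (fun w : ℂ => w ^ l) := by
    refine s3.congr_left (fun w => ?_)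
    simp only [Function.comp]
    ring
  exact s4.tendsto_div_nhds_zero

lemma Nice.key (N : Nice k l om a B α ξ) {j : ℕ} (hj : j ≤ l) {fj : ℂ × ℂ → ℂ}
    (h1 : ∀ᶠ p in 𝓝 ((0, ξ) : ℂ × ℂ), B (sg om p) - B p = p.1 ^ j * fj p)
    (h2 : ∀ᶠ p in 𝓝 ((0, ξ / (1 - ξ)) : ℂ × ℂ), B (sg om p) - B p = p.1 ^ j * fj p)
    (h3 : AnalyticAt ℂ fj (0, ξ)) (h4 : AnalyticAt ℂ fj (0, ξ / (1 - ξ))) :
    ((1 - ξ) ^ (1 / k : ℂ)) ^ j * fj (0, ξ / (1 - ξ)) - fj (0, ξ) =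
      0 ^ (l - j) * ((1 + l / k) * α (0, ξ) - ξ * deriv (fun t => α (0, t)) ξ) := by
  set F : Filter ℂ := 𝓝[≠] (0:ℂ) with hF
  have t0 : Tendsto (fun w : ℂ => ((w, ξ) : ℂ × ℂ)) F (𝓝 (0, ξ)) := punct_tend ξ
  have t1 : Tendsto (fun w : ℂ => sg om (w, ξ)) F (𝓝 (0, ξ)) := (sg_tend om ξ).comp t0
  have tP : Tendsto (fun w : ℂ => Pf k a (w, ξ)) F (𝓝 (0, ξ / (1 - ξ))) := N.Pf_tend.comp t0
  have tE : Tendsto (fun w : ℂ => Ef k a B (sg om (w, ξ))) F (𝓝 0) := N.Ef_tend.comp t1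
  have tB : Tendsto (fun w : ℂ => B (Pf k a (w, ξ))) F (𝓝 0) := by
    have h := N.Bv.continuousAt.tendsto.comp tP
    rwa [N.Bvval] at h
  have tD : Tendsto (fun w : ℂ => Dy a (sg om (w, ξ))) F (𝓝 1) := by
    have h := (MP_ae5b4e_an_ND.Dy_analyticAt N.aa).continuousAt.tendsto.comp t1
    rwa [N.Dya] at h
  have tf : Tendsto (fun w : ℂ => fj (w, ξ)) F (𝓝 (fj (0, ξ))) :=
    h3.continuousAt.tendsto.comp t0
  have tfP : Tendsto (fun w : ℂ => fj (Pf k a (w, ξ))) F (𝓝 (fj (0, ξ / (1 - ξ)))) :=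
    h4.continuousAt.tendsto.comp tP
  have th : Tendsto (fun w : ℂ => (1 - a (w, ξ)) ^ (1 / k : ℂ)) F (𝓝 ((1 - ξ) ^ (1 / k : ℂ))) := by
    have hh : ContinuousAt (fun z : ℂ => (1 - z) ^ (1 / k : ℂ)) ξ :=
      ((analyticAt_const.sub analyticAt_id).cpow analyticAt_const N.slit :
        AnalyticAt ℂ (fun z : ℂ => (1 - z) ^ (1 / k : ℂ)) ξ).continuousAt
    have ta : Tendsto (fun w : ℂ => a (w, ξ)) F (𝓝 ξ) := by
      have h := N.aa.continuousAt.tendsto.comp t0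
      rwa [N.aval] at h
    exact hh.tendsto.comp ta
  have tw : Tendsto (fun w : ℂ => w ^ (l - j)) F (𝓝 (0 ^ (l - j))) :=
    ((continuous_pow (l - j)).tendsto 0).mono_left nhdsWithin_le_nhds
  have hL : Tendsto (fun w : ℂ => ((1 - a (w, ξ)) ^ (1 / k : ℂ)) ^ j * fj (Pf k a (w, ξ)) *
      (1 - Ef k a B (sg om (w, ξ))) - fj (w, ξ) * Dy a (sg om (w, ξ)) *
      (1 + B (Pf k a (w, ξ)))) F
      (𝓝 (((1 - ξ) ^ (1 / k : ℂ)) ^ j * fj (0, ξ / (1 - ξ)) * (1 - 0) -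
        fj (0, ξ) * 1 * (1 + 0))) :=
    (((th.pow j).mul tfP).mul (tendsto_const_nhds.sub tE)).sub
      ((tf.mul tD).mul (tendsto_const_nhds.add tB))
  have hR : Tendsto (fun w : ℂ => w ^ (l - j) * (Af k l B α (w, ξ) * (1 + B (Pf k a (w, ξ))) -
      (B (Pf k a (sg om (w, ξ))) - B (sg om (Pf k a (w, ξ)))) / w ^ l *
      (1 - Ef k a B (sg om (w, ξ))))) F
      (𝓝 (0 ^ (l - j) * (((1 + l / k) * α (0, ξ) - ξ * deriv (fun t => α (0, t)) ξ) * (1 + 0) -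
        0 * (1 - 0)))) :=
    tw.mul (((N.Af_tend.comp t0).mul (tendsto_const_nhds.add tB)).sub
      (N.rest.mul (tendsto_const_nhds.sub tE)))
  have heq : (fun w : ℂ => ((1 - a (w, ξ)) ^ (1 / k : ℂ)) ^ j * fj (Pf k a (w, ξ)) *
      (1 - Ef k a B (sg om (w, ξ))) - fj (w, ξ) * Dy a (sg om (w, ξ)) *
      (1 + B (Pf k a (w, ξ)))) =ᶠ[F]
      (fun w : ℂ => w ^ (l - j) * (Af k l B α (w, ξ) * (1 + B (Pf k a (w, ξ))) -
      (B (Pf k a (sg om (w, ξ))) - B (sg om (Pf k a (w, ξ)))) / w ^ l *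
      (1 - Ef k a B (sg om (w, ξ))))) := by
    filter_upwards [t0.eventually N.st, t0.eventually h1, tP.eventually h2,
      self_mem_nhdsWithin] with w hw1 hw2 hw3 hw4
    have hw0 : w ≠ 0 := hw4
    have hpw : w ^ l = w ^ j * w ^ (l - j) := by rw [← pow_add, Nat.add_sub_cancel' hj]
    have hP1 : (Pf k a (w, ξ)).1 ^ j = w ^ j * ((1 - a (w, ξ)) ^ (1 / k : ℂ)) ^ j := by
      show (w * (1 - a (w, ξ)) ^ (1 / k : ℂ)) ^ j = _
      rw [mul_pow]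
    rw [hP1] at hw3
    have hs : (B (sg om (Pf k a (w, ξ))) - B (Pf k a (w, ξ))) * (1 - Ef k a B (sg om (w, ξ))) -
      (B (sg om (w, ξ)) - B (w, ξ)) * Dy a (sg om (w, ξ)) * (1 + B (Pf k a (w, ξ))) =
      w ^ l * Af k l B α (w, ξ) * (1 + B (Pf k a (w, ξ))) -
      (B (Pf k a (sg om (w, ξ))) - B (sg om (Pf k a (w, ξ)))) *
        (1 - Ef k a B (sg om (w, ξ))) := hw1
    rw [hw3, hw2] at hs
    have hwj : w ^ j ≠ 0 := pow_ne_zero _ hw0
    have hwl : w ^ l ≠ 0 := pow_ne_zero _ hw0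
    apply mul_left_cancel₀ hwj
    have e1 : w ^ j * (w ^ (l - j) * (Af k l B α (w, ξ) * (1 + B (Pf k a (w, ξ))) -
      (B (Pf k a (sg om (w, ξ))) - B (sg om (Pf k a (w, ξ)))) / w ^ l *
      (1 - Ef k a B (sg om (w, ξ))))) = w ^ l * Af k l B α (w, ξ) * (1 + B (Pf k a (w, ξ))) -
      (B (Pf k a (sg om (w, ξ))) - B (sg om (Pf k a (w, ξ)))) *
        (1 - Ef k a B (sg om (w, ξ))) := by
      rw [← mul_assoc, ← hpw]
      field_simp
    rw [e1, ← hs]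
    ring
  have hfin := tendsto_nhds_unique_of_eventuallyEq hL hR heq
  simpa using hfin

end lim

lemma tele {k j : ℕ} (hk : 0 < k) {om : ℂ} (hom : om ^ k = 1) (hkj : k ∣ j) {B fj : ℂ × ℂ → ℂ}
    {ξ : ℂ} (h1 : ∀ᶠ p in 𝓝 ((0, ξ) : ℂ × ℂ), B (sg om p) - B p = p.1 ^ j * fj p)
    (h3 : AnalyticAt ℂ fj (0, ξ)) : fj (0, ξ) = 0 := by
  have t0 : ∀ i : ℕ, Tendsto (fun w : ℂ => ((om ^ i * w, ξ) : ℂ × ℂ)) (𝓝[≠] 0) (𝓝 (0, ξ)) := by
    intro i
    have h : Continuous (fun w : ℂ => ((om ^ i * w, ξ) : ℂ × ℂ)) := by fun_prop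
    have h2 := h.tendsto 0
    simp only [mul_zero] at h2
    exact h2.mono_left nhdsWithin_le_nhds
  have hev : ∀ᶠ w in 𝓝[≠] (0:ℂ), ∀ i ∈ Finset.range k,
      B (sg om (om ^ i * w, ξ)) - B (om ^ i * w, ξ) = (om ^ i * w) ^ j * fj (om ^ i * w, ξ) := by
    rw [Filter.eventually_all_finset]
    intro i _
    exact (t0 i).eventually h1
  have hz : ∀ᶠ w in 𝓝[≠] (0:ℂ), ∑ i ∈ Finset.range k, fj (om ^ i * w, ξ) = 0 := by
    filter_upwards [hev, self_mem_nhdsWithin] with w hw hw0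
    have hwj : w ^ j ≠ 0 := pow_ne_zero _ hw0
    apply mul_left_cancel₀ hwj
    rw [mul_zero, Finset.mul_sum]
    have e1 : ∀ i ∈ Finset.range k, w ^ j * fj (om ^ i * w, ξ) =
        B (om ^ (i + 1) * w, ξ) - B (om ^ i * w, ξ) := by
      intro i hi
      have h2 := hw i hi
      have h3 : (om ^ i) ^ j = 1 := by
        obtain ⟨c, rfl⟩ := hkj
        rw [← pow_mul, show i * (k * c) = k * (i * c) by ring, pow_mul, hom, one_pow]
      rw [mul_pow, h3, one_mul] at h2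
      rw [← h2]
      have h4 : sg om (om ^ i * w, ξ) = (om ^ (i + 1) * w, ξ) := by
        simp only [sg, pow_succ', mul_assoc]
      rw [h4]
    rw [Finset.sum_congr rfl e1, Finset.sum_range_sub (fun i => B (om ^ i * w, ξ))]
    simp [hom]
  have hlim : Tendsto (fun w : ℂ => ∑ i ∈ Finset.range k, fj (om ^ i * w, ξ)) (𝓝[≠] 0)
      (𝓝 (∑ _i ∈ Finset.range k, fj (0, ξ))) :=
    tendsto_finsetSum _ (fun i _ => h3.continuousAt.tendsto.comp (t0 i))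
  have h5 : Tendsto (fun w : ℂ => ∑ i ∈ Finset.range k, fj (om ^ i * w, ξ)) (𝓝[≠] 0)
      (𝓝 0) := by
    refine Tendsto.congr' ?_ tendsto_const_nhds
    filter_upwards [hz] with w hw
    exact hw.symm
  have h6 := tendsto_nhds_unique hlim h5
  rw [Finset.sum_const, Finset.card_range, nsmul_eq_mul] at h6
  have hk0 : (k : ℂ) ≠ 0 := by exact_mod_cast hk.ne'
  exact (mul_eq_zero.1 h6).resolve_left hk0

lemma ind {k l : ℕ} (hk : 2 ≤ k) {om : ℂ} (hom : om ^ k = 1) {a B α : ℂ × ℂ → ℂ}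
    (hB : AnalyticAt ℂ B (0, 0)) (hN : ∀ᶠ ξ in 𝓝 (0:ℂ), Nice k l om a B α ξ) :
    ∀ j ≤ l, ∃ fj : ℂ × ℂ → ℂ, AnalyticAt ℂ fj (0, 0) ∧
      ∀ᶠ p in 𝓝 ((0, 0) : ℂ × ℂ), B (sg om p) - B p = p.1 ^ j * fj p := by
  intro j
  induction j with
  | zero =>
    intro _
    refine ⟨fun p => B (sg om p) - B p, ?_, Eventually.of_forall (fun p => by simp)⟩
    have h1 : AnalyticAt ℂ (sg om) (0, 0) := by
      unfold sg
      exact (analyticAt_const.mul analyticAt_fst).prod analyticAt_snd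
    have h2 : AnalyticAt ℂ (fun p => B (sg om p)) (0, 0) := by
      have h3 : AnalyticAt ℂ B (sg om (0, 0)) := by rw [sg_zero]; exact hB
      exact h3.comp h1
    exact h2.sub hB
  | succ j ih =>
    intro hj
    obtain ⟨fj, hfa, hfe⟩ := ih (by omega)
    have hz : ∀ᶠ ξ in 𝓝 (0:ℂ), fj (0, ξ) = 0 := by
      by_cases hkj : k ∣ j
      · filter_upwards [(line_tend' 0 0).eventually hfe.eventually_nhds,
          (line_tend' 0 0).eventually hfa.eventually_analyticAt] with ξ h1 h2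
        exact tele (by omega) hom hkj h1 h2
      · have hkey : ∀ᶠ ξ in 𝓝 (0:ℂ),
            ((1 - ξ) ^ (1 / k : ℂ)) ^ j * fj (0, ξ / (1 - ξ)) - fj (0, ξ) = 0 := by
          filter_upwards [hN, (line_tend' 0 0).eventually hfe.eventually_nhds,
            vline_tend.eventually hfe.eventually_nhds,
            (line_tend' 0 0).eventually hfa.eventually_analyticAt,
            vline_tend.eventually hfa.eventually_analyticAt] with ξ N h1 h2 h3 h4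
          have h := N.key (by omega : j ≤ l) h1 h2 h3 h4
          rw [h, zero_pow (by omega), zero_mul]
        have hla : ∀ n : ℕ, ((j : ℝ) / k) ≠ n := by
          intro n hn
          have hk0 : (k : ℝ) ≠ 0 := by exact_mod_cast (by omega : k ≠ 0)
          rw [div_eq_iff hk0] at hn
          exact hkj ⟨n, by exact_mod_cast (by rw [hn]; ring : (j : ℝ) = k * n)⟩
        have hγ : AnalyticAt ℂ (fun ξ => fj (0, ξ)) 0 :=
          hfa.comp (analyticAt_const.prod analyticAt_id)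
        refine hom_ram hla hγ ?_
        filter_upwards [hkey.filter_mono nhdsWithin_le_nhds] with ξ h
        have e1 : ((1 - ξ) ^ (1 / k : ℂ)) ^ j = (1 - ξ) ^ (((j : ℝ) / k : ℝ) : ℂ) := by
          rw [← Complex.cpow_nat_mul]
          congr 1
          push_cast
          ring
        rw [← e1]
        exact sub_eq_zero.1 h
    have hO : ∀ᶠ ξ in 𝓝[≠] (0:ℂ),
        (fun w : ℂ => fj (w, ξ)) =O[𝓝[≠] (0:ℂ)] (fun w : ℂ => w ^ 1) := by
      have h0 : ∀ᶠ ξ in 𝓝 (0:ℂ),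
          (fun w : ℂ => fj (w, ξ)) =O[𝓝[≠] (0:ℂ)] (fun w : ℂ => w ^ 1) := by
        filter_upwards [hz, (line_tend' 0 0).eventually hfa.eventually_analyticAt] with ξ h1 h2
        have hd : DifferentiableAt ℂ (fun t : ℂ => fj (t, ξ)) 0 :=
          h2.differentiableAt.comp 0 (by fun_prop)
        have h3 := hd.isBigO_sub
        have h4 : (fun w : ℂ => fj (w, ξ)) =O[𝓝 (0:ℂ)] (fun w : ℂ => w ^ 1) := by
          refine h3.congr (fun w => ?_) (fun w => ?_)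
          · rw [h1, sub_zero]
          · rw [sub_zero, pow_one]
        exact h4.mono nhdsWithin_le_nhds
      exact h0.filter_mono nhdsWithin_le_nhds
    obtain ⟨g, hg, hge⟩ := div_pow_fst hfa hO
    refine ⟨g, hg, ?_⟩
    filter_upwards [hfe, hge] with p h1 h2
    rw [h1, h2]
    ring

end SlopeDiff

/-- the first order of the slope -/
theorem slope_diff {k l : ℕ} (hk : 2 ≤ k) (hl : 0 < l) (hkl : ¬ k ∣ l) {om : ℂ}
    (hom : om ^ k = 1) {a B α : ℂ × ℂ → ℂ} (ha : AnalyticAt ℂ a (0, 0))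
    (hB : AnalyticAt ℂ B (0, 0)) (hα : AnalyticAt ℂ α (0, 0))
    (ha0 : ∀ᶠ ξ in 𝓝 (0:ℂ), a (0, ξ) = ξ) (hB0 : ∀ᶠ ξ in 𝓝 (0:ℂ), B (0, ξ) = 0)
    (hFI : ∀ᶠ p in 𝓝 ((0, 0) : ℂ × ℂ),
      B (p.1 * (1 - a p) ^ (1 / k : ℂ), a p / (1 - a p)) *
        (1 - (a p + p.1 / k * Dx a p + (B p - p.2) * Dy a p)) =
      a p + p.1 / k * Dx a p + (B p - p.2) * Dy a p)
    (haα : ∀ᶠ p in 𝓝 ((0, 0) : ℂ × ℂ), a (om * p.1, p.2) - a p = p.1 ^ l * α p) :
    ∃ γ : ℂ → ℂ, AnalyticAt ℂ γ 0 ∧ ∀ᶠ ξ in 𝓝[≠] (0:ℂ),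
      (1 - ξ) ^ (((l : ℝ) / k : ℝ) : ℂ) * γ (ξ / (1 - ξ)) - γ ξ =
        (1 + l / k) * α (0, ξ) - ξ * deriv (fun ξ => α (0, ξ)) ξ := by
  have hN := SlopeDiff.nice_ev (k := k) hl ha hB hα ha0 hB0 hFI haα
  obtain ⟨fj, hfa, hfe⟩ := SlopeDiff.ind hk hom hB hN l le_rfl
  refine ⟨fun ξ => fj (0, ξ), hfa.comp (analyticAt_const.prod analyticAt_id), ?_⟩
  have hkey : ∀ᶠ ξ in 𝓝 (0:ℂ),
      (1 - ξ) ^ (((l : ℝ) / k : ℝ) : ℂ) * fj (0, ξ / (1 - ξ)) - fj (0, ξ) =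
        (1 + l / k) * α (0, ξ) - ξ * deriv (fun ξ => α (0, ξ)) ξ := by
    filter_upwards [hN, (SlopeDiff.line_tend' 0 0).eventually hfe.eventually_nhds,
      SlopeDiff.vline_tend.eventually hfe.eventually_nhds,
      (SlopeDiff.line_tend' 0 0).eventually hfa.eventually_analyticAt,
      SlopeDiff.vline_tend.eventually hfa.eventually_analyticAt] with ξ N h1 h2 h3 h4
    have h := N.key le_rfl h1 h2 h3 h4
    have e1 : ((1 - ξ) ^ (1 / k : ℂ)) ^ l = (1 - ξ) ^ (((l : ℝ) / k : ℝ) : ℂ) := by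
      rw [← Complex.cpow_nat_mul]
      congr 1
      push_cast
      ring
    rw [← e1, h]
    simp
  exact hkey.filter_mono nhdsWithin_le_nhds

end Pool.Agent.MP_ae5b4e_an_ALG
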