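import Mathlib
import Pool.Agent.Lib.MP_ae5b4e_an_ALG.DefsB
import Pool.Agent.Lib.MP_ae5b4e_an_ALG.RamEq
import Pool.Agent.Lib.MP_ae5b4e_an_ALG.KickDiff
import Pool.Agent.Lib.MP_ae5b4e_an_ALG.SlopeDiff
import Pool.Agent.Lib.MP_ae5b4e_an_ALG.RamCoord
import Pool.Agent.Lib.MP_ae5b4e_an_ALG.MDiff
import Pool.Agent.Lib.MP_ae5b4e_an_LAT.NDPlaceThm

/-!
# MP_ae5b4e_an, algebraic tables: no ramified place of type `(k, 2 k)`

The curve `(w ^ k, w ^ (2 k) v w)` with `v 0 ≠ 0` and `v (om w) ≠ v w` for a root of unity `om`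
of order dividing `k` carries no good foliation near `w = 0`.
-/

set_option autoImplicit false

noncomputable section

namespace Pool.Agent.MP_ae5b4e_an_ALG

open Filter Topology Set Metric Complex Polynomial
open scoped Real
open Pool.Agent.MP_ae5b4e_an_ND (Dx Dy Reg)
open Pool.Agent.MP_ae5b4e_an_FLEX

namespace NoRam

/-- the order of `v (om w) - v w` -/
theorem exists_order {k : ℕ} (hk : 0 < k) {v : ℂ → ℂ} (hv : AnalyticAt ℂ v 0)
    {om : ℂ} (hom : om ^ k = 1) (hne : ¬ ∀ᶠ w in 𝓝 (0:ℂ), v (om * w) = v w) :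
    ∃ (l : ℕ) (ψ : ℂ → ℂ), 0 < l ∧ ¬ k ∣ l ∧ AnalyticAt ℂ ψ 0 ∧ ψ 0 ≠ 0 ∧
      ∀ᶠ w in 𝓝 (0:ℂ), v (om * w) - v w = w ^ l * ψ w := by
  have hvom : AnalyticAt ℂ (fun w => v (om * w)) 0 := by
    have h1 : AnalyticAt ℂ (fun w : ℂ => om * w) 0 := analyticAt_const.mul analyticAt_id
    have h2 : AnalyticAt ℂ v ((fun w : ℂ => om * w) 0) := by
      simpa using hv
    exact h2.comp h1
  have hd : AnalyticAt ℂ (fun w => v (om * w) - v w) 0 := hvom.sub hv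
  obtain ⟨l, ψ, hψ, hψ0, hψe⟩ := (hd.exists_eventuallyEq_pow_smul_nonzero_iff).2 (by
    intro h
    apply hne
    filter_upwards [h] with w hw
    exact sub_eq_zero.1 hw)
  have hψe' : ∀ᶠ w in 𝓝 (0:ℂ), v (om * w) - v w = w ^ l * ψ w := by
    filter_upwards [hψe] with w hw
    simpa using hw
  have hl : 0 < l := by
    rcases Nat.eq_zero_or_pos l with rfl | h
    · exfalso
      have h1 := hψe'.self_of_nhds
      simp only [mul_zero, sub_self, pow_zero, one_mul] at h1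
      exact hψ0 h1.symm
    · exact h
  refine ⟨l, ψ, hl, ?_, hψ, hψ0, hψe'⟩
  obtain ⟨δ, hδ, hδP⟩ := Metric.eventually_nhds_iff.1 (hψe'.and hψ.eventually_analyticAt)
  refine Pool.Agent.MP_ae5b4e_an_ND.order_not_dvd (h := v) (g := ψ) hδ hk hom ?_ hψ0 ?_
  · intro w hw
    have h1 : dist w 0 < δ := by simpa using hw
    exact (hδP h1).2.differentiableAt.differentiableWithinAt
  · intro w hw
    exact (hδP (by simpa using hw)).1

/-- the equation for the right hand side -/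
theorem rhs_eq {k l : ℕ} {c : ℂ} {α : ℂ × ℂ → ℂ}
    (hα : ∀ᶠ ξ in 𝓝[≠] (0:ℂ), α (0, ξ) =
      2 * (c / 4 * EE (2 + (l : ℝ) / k) ξ + c / 4 * EE (2 + (l : ℝ) / k) (-ξ))) :
    ∀ᶠ ξ in 𝓝[≠] (0:ℂ), (1 + l / k) * α (0, ξ) - ξ * deriv (fun ξ => α (0, ξ)) ξ =
      c * rhsR ((l : ℝ) / k) ξ := by
  have h2 : ∀ᶠ ξ in 𝓝[≠] (0:ℂ), ∀ᶠ ξ' in 𝓝 ξ, α (0, ξ') =
      2 * (c / 4 * EE (2 + (l : ℝ) / k) ξ' + c / 4 * EE (2 + (l : ℝ) / k) (-ξ')) := by
    have h3 := eventually_eventually_nhdsWithin.2 hα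
    filter_upwards [h3, self_mem_nhdsWithin] with ξ hξ hξ0
    rwa [IsOpen.nhdsWithin_eq isOpen_compl_singleton hξ0] at hξ
  filter_upwards [h2, EE_rhs (2 + (l : ℝ) / k)] with ξ hξ hE
  have hde : deriv (fun ξ => α (0, ξ)) ξ =
      c / 2 * deriv (fun ξ => EE (2 + (l : ℝ) / k) ξ + EE (2 + (l : ℝ) / k) (-ξ)) ξ := by
    rw [← deriv_const_mul_field]
    apply Filter.EventuallyEq.deriv_eq
    filter_upwards [hξ] with ξ' hξ'
    rw [hξ']
    ring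
  rw [hde, hξ.self_of_nhds]
  have h5 : (2 + (l : ℝ) / k - 2) = (l : ℝ) / k := by ring
  rw [h5] at hE
  have h6 : (((2 + (l : ℝ) / k : ℝ) : ℂ) - 1) = 1 + (l : ℂ) / k := by
    push_cast
    ring
  rw [h6] at hE
  linear_combination (c / 2) * hE

end NoRam

section RG

theorem no_ram {k : ℕ} (hk : 2 ≤ k) {v : ℂ → ℂ} (hv : AnalyticAt ℂ v 0) (hv0 : v 0 ≠ 0)
    {om : ℂ} (hom : om ^ k = 1) (hne : ¬ ∀ᶠ w in 𝓝 (0:ℂ), v (om * w) = v w)
    (hg : ∀ᶠ s in 𝓝[≠] (0:ℂ), GoodG (fun w => w ^ k) (fun w => w ^ (2 * k) * v w)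
      (fun _ => 0) s) : False := by
  have hk0 : 0 < k := by omega
  obtain ⟨l, ψ, hl, hkl, hψ, hψ0, hd⟩ := NoRam.exists_order hk0 hv hom hne
  obtain ⟨m, a, B, hm, ha, hB, hm0, ha0, hB0, hrel, hFI, hmrel⟩ := ram_coord hk hv hv0 hg
  have hM := m_diff hk hl hom hv hv0 hψ hd hm hm0 hmrel
  obtain ⟨α, hα, haα, hα0⟩ := kick_diff hl hm ha hm0 ha0 hrel hM
  obtain ⟨γ, hγ, hγe⟩ := slope_diff hk hl hkl hom ha hB hα ha0 hB0 hFI haα
  have hkR : (0 : ℝ) < k := by exact_mod_cast hk0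
  have hlR : (0 : ℝ) < l := by exact_mod_cast hl
  refine no_ram_eq (la := (l : ℝ) / k) (div_pos hlR hkR) ?_ (C := ψ 0 / v 0)
    (div_ne_zero hψ0 hv0) hγ ?_
  · intro n hn
    apply hkl
    refine ⟨n, ?_⟩
    have h1 : (l : ℝ) = n * k := by
      rw [← hn]
      field_simp
    have h2 : (l : ℝ) = ((k * n : ℕ) : ℝ) := by
      rw [h1]
      push_cast
      ring
    exact_mod_cast h2
  · have h3 := NoRam.rhs_eq (k := k) (l := l) (c := ψ 0 / v 0) (α := α) (by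
      filter_upwards [hα0] with ξ hξ
      rw [hξ]
      ring)
    filter_upwards [hγe, h3] with ξ h4 h5
    rw [h4, h5]

end RG

end Pool.Agent.MP_ae5b4e_an_ALG
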