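import Mathlib
import Pool.Agent.Lib.MP_ae5b4e_an_ALG.Defs

/-!
# MP_ae5b4e_an, algebraic tables: the identity (A)
-/

set_option autoImplicit false

noncomputable section

namespace Pool.Agent.MP_ae5b4e_an_ALG

open Filter Topology Set Metric Complex
open scoped Real

namespace IdA

/-- the derivative of `Pf p r` -/
theorem hasDerivAt_Pf (p r : ℝ) (V : ℂ) :
    HasDerivAt (Pf p r) (3 * V ^ 2 + 2 * ((p : ℂ) - r) * V - p * r) V := by
  have h1 : HasDerivAt (fun V : ℂ => V) 1 V := hasDerivAt_id V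
  have h2 : HasDerivAt (fun V : ℂ => V + (p : ℂ)) 1 V := h1.add_const _
  have h3 : HasDerivAt (fun V : ℂ => V - (r : ℂ)) 1 V := h1.sub_const _
  have h4 := (h1.mul h2).mul h3
  refine HasDerivAt.congr_deriv (f' := _) h4 ?_
  simp only [Pi.mul_apply]
  ring

/-- the second derivative of the next function -/
theorem step_second {p r : ℝ} {f g : ℂ → ℂ} (hf : AnalyticAt ℂ f 0) (hg : AnalyticAt ℂ g 0)
    (hne : Pf p r (-f 0) ≠ 0)
    (hstep : ∀ᶠ η in 𝓝 (0:ℂ),
        deriv g η = -Pf p r (g η) * deriv f η / Pf p r (-f η)) :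
    deriv (deriv g) 0 =
      -((3 * (g 0) ^ 2 + 2 * ((p : ℂ) - r) * (g 0) - p * r) * deriv g 0 * deriv f 0 +
        Pf p r (g 0) * deriv (deriv f) 0) / Pf p r (-f 0) -
      Pf p r (g 0) * deriv f 0 * ((3 * (f 0) ^ 2 - 2 * ((p : ℂ) - r) * (f 0) - p * r) *
        deriv f 0) / Pf p r (-f 0) ^ 2 := by
  have e1 : deriv (deriv g) 0 =
      deriv (fun η => -Pf p r (g η) * deriv f η / Pf p r (-f η)) 0 :=
    Filter.EventuallyEq.deriv_eq hstep
  rw [e1]
  have hg' : HasDerivAt g (deriv g 0) 0 := hg.differentiableAt.hasDerivAt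
  have hf' : HasDerivAt f (deriv f 0) 0 := hf.differentiableAt.hasDerivAt
  have hdf : HasDerivAt (deriv f) (deriv (deriv f) 0) 0 :=
    hf.deriv.differentiableAt.hasDerivAt
  have a1 := (hasDerivAt_Pf p r (g 0)).comp (0:ℂ) hg'
  have a2 := (hasDerivAt_Pf p r (-f 0)).comp (0:ℂ) hf'.neg
  have a3 := ((a1.neg).mul hdf).div a2 hne
  have a4 := a3.deriv
  have e2 : (fun η => -Pf p r (g η) * deriv f η / Pf p r (-f η)) =
      ((-(Pf p r ∘ g) * deriv f) / (Pf p r ∘ (-f))) := by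
    funext η
    simp
  rw [e2]
  rw [a4]
  simp only [Pi.mul_apply, Pi.neg_apply, Function.comp_apply]
  field_simp
  ring

end IdA

section XI
variable {p r : ℝ}

/-- the identity (A), abstract form -/
theorem identity_A (hp : 0 < p) (hpr : p < r) {n : ℕ} {F : ℕ → ℂ → ℂ} {D : ℂ}
    (hF : ∀ k, k ≤ n → AnalyticAt ℂ (F k) 0) (h0 : F 0 0 = -p) (hn : F n 0 = p)
    (hd0 : deriv (F 0) 0 ≠ 0)
    (hj : deriv (deriv (F 0)) 0 =
      -((2 * (2 * p + r) / (p * (p + r)) : ℝ) : ℂ) * (deriv (F 0) 0) ^ 2)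
    (hne : ∀ k, k < n → Pf p r (-F k 0) ≠ 0) (hne' : ∀ k, k < n → Pf p r (F (k + 1) 0) ≠ 0)
    (hstep : ∀ k, k < n → ∀ᶠ η in 𝓝 (0:ℂ),
        deriv (F (k + 1)) η = -Pf p r (F (k + 1) η) * deriv (F k) η / Pf p r (-F k η))
    (hd1 : deriv (F n) 0 = -D * deriv (F 0) 0)
    (hd2 : deriv (deriv (F n)) 0 = -D ^ 2 * deriv (deriv (F 0)) 0) :
    ∑ k ∈ Finset.range n, (F k 0 + F (k + 1) 0) *
      (deriv (F k) 0 / deriv (F 0) 0 / Pf p r (-F k 0)) = (1 - D) / (p * (p + r)) := by
  -- first derivatives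
  have hd : ∀ k, k < n → deriv (F (k + 1)) 0 =
      -Pf p r (F (k + 1) 0) * deriv (F k) 0 / Pf p r (-F k 0) := fun k hk =>
    (hstep k hk).self_of_nhds
  have hdne : ∀ k, k ≤ n → deriv (F k) 0 ≠ 0 := by
    intro k
    induction k with
    | zero => intro _; exact hd0
    | succ k ih =>
      intro hk
      rw [hd k (by omega)]
      exact div_ne_zero (mul_ne_zero (neg_ne_zero.mpr (hne' k (by omega))) (ih (by omega)))
        (hne k (by omega))
  -- the telescoping quantity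
  set B : ℕ → ℂ := fun k => -(2 / 3) * (deriv (deriv (F k)) 0 / deriv (F k) 0) +
    2 * (deriv (F k) 0 / F k 0) with hB
  have htel : ∀ k, k < n → B (k + 1) - B k =
      (2 / 3) * ((r : ℂ) - p) * ((F k 0 + F (k + 1) 0) * (deriv (F k) 0 / Pf p r (-F k 0))) := by
    intro k hk
    have s2 := IdA.step_second (p := p) (r := r) (hF k (by omega)) (hF (k + 1) (by omega))
      (hne k hk) (hstep k hk)
    have s1 := hd k hk
    have n1 := hne k hk
    have n2 := hne' k hk
    have n3 := hdne k (by omega)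
    simp only [hB]
    generalize deriv (deriv (F (k + 1))) 0 = e' at s2 ⊢
    generalize deriv (deriv (F k)) 0 = e at s2 ⊢
    generalize deriv (F (k + 1)) 0 = d' at s1 s2 ⊢
    generalize deriv (F k) 0 = d at s1 s2 n3 ⊢
    generalize F (k + 1) 0 = a at s1 s2 n2 ⊢
    generalize F k 0 = b at s1 s2 n1 ⊢
    have m1 : b ≠ 0 := by
      rintro rfl
      apply n1
      simp [Pf]
    have m2 : -b + (p : ℂ) ≠ 0 := by
      intro h
      apply n1
      simp [Pf, h]
    have m3 : -b - (r : ℂ) ≠ 0 := by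
      intro h
      apply n1
      simp [Pf, h]
    have m4 : a ≠ 0 := by
      rintro rfl
      apply n2
      simp [Pf]
    have m5 : a + (p : ℂ) ≠ 0 := by
      intro h
      apply n2
      simp [Pf, h]
    have m6 : a - (r : ℂ) ≠ 0 := by
      intro h
      apply n2
      simp [Pf, h]
    subst s2
    subst s1
    unfold Pf
    field_simp
    ring
  have hsum : B n - B 0 = (2 / 3) * ((r : ℂ) - p) * ∑ k ∈ Finset.range n,
      ((F k 0 + F (k + 1) 0) * (deriv (F k) 0 / Pf p r (-F k 0))) := by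
    rw [← Finset.sum_range_sub, Finset.mul_sum]
    exact Finset.sum_congr rfl fun k hk => htel k (Finset.mem_range.mp hk)
  have hDne : D ≠ 0 := by
    rintro rfl
    apply hdne n le_rfl
    rw [hd1]
    simp
  have hpc : (p : ℂ) ≠ 0 := by exact_mod_cast hp.ne'
  have hprc : (p : ℂ) + r ≠ 0 := by
    have : p + r ≠ 0 := by linarith
    exact_mod_cast this
  have hrp : (r : ℂ) - p ≠ 0 := by
    have : r - p ≠ 0 := by linarith
    exact_mod_cast this
  have hBn : B n - B 0 = (D - 1) * deriv (F 0) 0 * ((2 / 3) * ((p : ℂ) - r) / (p * (p + r))) := by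
    simp only [hB]
    rw [hd2, hd1, hn, h0, hj]
    push_cast
    field_simp
    ring
  have hsum2 : ∑ k ∈ Finset.range n, (F k 0 + F (k + 1) 0) *
      (deriv (F k) 0 / deriv (F 0) 0 / Pf p r (-F k 0)) =
      (∑ k ∈ Finset.range n,
        ((F k 0 + F (k + 1) 0) * (deriv (F k) 0 / Pf p r (-F k 0)))) / deriv (F 0) 0 := by
    rw [Finset.sum_div]
    refine Finset.sum_congr rfl fun k _ => ?_
    ring
  rw [hsum2]
  rw [hBn] at hsum
  have h3 : (∑ k ∈ Finset.range n,
      ((F k 0 + F (k + 1) 0) * (deriv (F k) 0 / Pf p r (-F k 0)))) =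
      (D - 1) * deriv (F 0) 0 * ((2 / 3) * ((p : ℂ) - r) / (p * (p + r))) /
        ((2 / 3) * ((r : ℂ) - p)) := by
    rw [hsum]
    field_simp
  rw [h3]
  field_simp
  ring
end XI

end Pool.Agent.MP_ae5b4e_an_ALG
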