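import Mathlib
import Pool.Agent.Lib.MP_ae5b4e_an_ALG.Branch

/-!
# MP_ae5b4e_an, algebraic tables: the local branches along the chain (module XG)

Near the point `t0 + k` the function `W` is an analytic function `F k` of the coordinate
`y τ ^ (p / r)`, and `F (k + 1)` is obtained from `F k` by an ordinary differential equation.
-/

set_option autoImplicit false

noncomputable section

namespace Pool.Agent.MP_ae5b4e_an_ALG

open Filter Topology Set Metric Complex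
open scoped Real

namespace Jets

variable {p r : ℝ}

theorem Pf_ne_of {v : ℂ} (h1 : v ≠ 0) (h2 : v ≠ -p) (h3 : v ≠ r) : Pf p r v ≠ 0 := by
  unfold Pf
  refine mul_ne_zero (mul_ne_zero h1 ?_) (sub_ne_zero.2 h3)
  intro h
  exact h2 (eq_neg_of_add_eq_zero_left h)

theorem Pf_cont (p r : ℝ) : Continuous (Pf p r) := by
  unfold Pf
  fun_prop

theorem neBot_UP : (𝓝[UP] (0 : ℂ)).NeBot := by
  refine mem_closure_iff_nhdsWithin_neBot.1 ?_
  unfold UP
  rw [Complex.closure_setOfPred_lt_im]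
  simp

/-- one step of the chain of the local branches -/
theorem step {ι : Type*} {l : Filter ι} [l.NeBot] (hp : 0 < p) (hr : 0 < r) {u v : ℂ}
    (hu0 : u.im ≤ 0) (hu1 : u ≠ 0) (hu2 : u ≠ -p) (hu3 : u ≠ r)
    (hv0 : 0 ≤ v.im) (hv1 : v ≠ 0) (hv2 : v ≠ -p) (hv3 : v ≠ r)
    {F : ℂ → ℂ} (hF : AnalyticAt ℂ F 0) (hFu : F 0 = -u) {A B η : ι → ℂ}
    (hη : Tendsto η l (𝓝 0)) (hA : ∀ᶠ i in l, A i = F (η i)) (hAup : ∀ᶠ i in l, A i ∈ UP)
    (hBup : ∀ᶠ i in l, B i ∈ UP) (hB : Tendsto B l (𝓝 v))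
    (hAB : ∀ᶠ i in l, Hf p r (B i) = Hf p r (-A i)) :
    ∃ G : ℂ → ℂ, AnalyticAt ℂ G 0 ∧ G 0 = v ∧ (∀ᶠ i in l, B i = G (η i)) ∧
      ∀ᶠ η in 𝓝 (0:ℂ), deriv G η = -Pf p r (G η) * deriv F η / Pf p r (-F η) := by
  obtain ⟨S, hSa, -, hSd, hSe⟩ := exists_branch' hp hr hu0 hu1 hu2 hu3
  obtain ⟨T, hTa, -, hTd, hTe⟩ := exists_branch hp hr hv0 hv1 hv2 hv3
  have hnF : Tendsto (fun s => -F s) (𝓝 0) (𝓝 u) := by
    have h1 : Tendsto (fun s => -F s) (𝓝 0) (𝓝 (-F 0)) := hF.continuousAt.tendsto.neg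
    rwa [hFu, neg_neg] at h1
  have hA' : Tendsto A l (𝓝 (-u)) := by
    have h1 : Tendsto (fun i => F (η i)) l (𝓝 (F 0)) := hF.continuousAt.tendsto.comp hη
    rw [hFu] at h1
    exact h1.congr' (hA.mono fun i hi => hi.symm)
  have hnA : Tendsto (fun i => -A i) l (𝓝[{w : ℂ | w.im < 0}] u) := by
    refine tendsto_nhdsWithin_iff.2 ⟨by simpa using hA'.neg, ?_⟩
    filter_upwards [hAup] with i hi
    simpa [UP] using hi
  have hBw : Tendsto B l (𝓝[UP] v) := tendsto_nhdsWithin_iff.2 ⟨hB, hBup⟩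
  have hTS : ∀ᶠ i in l, T (B i) = S (-F (η i)) := by
    filter_upwards [hnA.eventually hSe, hBw.eventually hTe, hAB, hA] with i h1 h2 h3 h4
    rw [← h2, h3, h1, h4]
  have hval : T v = S u := by
    have h1 : Tendsto (fun i => T (B i)) l (𝓝 (T v)) := hTa.continuousAt.tendsto.comp hB
    have h2 : Tendsto (fun i => S (-F (η i))) l (𝓝 (S u)) :=
      hSa.continuousAt.tendsto.comp (hnF.comp hη)
    exact tendsto_nhds_unique (h1.congr' hTS) h2
  have hK : (p * r * (p + r) : ℂ) ≠ 0 := by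
    have h1 : (0 : ℝ) < p * r * (p + r) := by positivity
    have h2 : ((p * r * (p + r) : ℝ) : ℂ) ≠ 0 := by exact_mod_cast h1.ne'
    push_cast at h2
    exact h2
  have hTv : deriv T v ≠ 0 := by
    rw [hTd.self_of_nhds.deriv]
    exact div_ne_zero hK (Pf_ne_of hv1 hv2 hv3)
  set ψ : ℂ → ℂ := hTa.hasStrictDerivAt.localInverse _ _ _ hTv with hψ
  have hψa : AnalyticAt ℂ ψ (T v) := hTa.analyticAt_localInverse hTv
  have hψl : ∀ᶠ w in 𝓝 v, ψ (T w) = w := hTa.hasStrictDerivAt.eventually_left_inverse hTv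
  have hψr : ∀ᶠ w in 𝓝 (T v), T (ψ w) = w := hTa.hasStrictDerivAt.eventually_right_inverse hTv
  have hF0 : -F 0 = u := by rw [hFu, neg_neg]
  have hnFa : AnalyticAt ℂ (fun s => -F s) 0 := hF.neg
  have hSF : AnalyticAt ℂ (fun s => S (-F s)) 0 := AnalyticAt.fun_comp_of_eq hSa hnFa hF0
  have hG : AnalyticAt ℂ (fun s => ψ (S (-F s))) 0 :=
    AnalyticAt.fun_comp_of_eq hψa hSF (by rw [hF0, hval])
  have hG0 : ψ (S (-F 0)) = v := by
    rw [hF0, ← hval]; exact hψl.self_of_nhds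
  have hGt : Tendsto (fun s => ψ (S (-F s))) (𝓝 0) (𝓝 v) := by
    have h1 := hG.continuousAt.tendsto
    simp only [hG0] at h1
    exact h1
  refine ⟨fun s => ψ (S (-F s)), hG, hG0, ?_, ?_⟩
  · filter_upwards [hTS, hB.eventually hψl] with i h1 h2
    show B i = ψ (S (-F (η i)))
    rw [← h1, h2]
  · have hSt : Tendsto (fun s => S (-F s)) (𝓝 0) (𝓝 (T v)) := by
      rw [hval]; exact hSa.continuousAt.tendsto.comp hnF
    have hPG : ∀ᶠ s in 𝓝 (0:ℂ), Pf p r (ψ (S (-F s))) ≠ 0 :=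
      hGt.eventually ((Pf_cont p r).continuousAt.eventually_ne (Pf_ne_of hv1 hv2 hv3))
    have hev : ∀ᶠ s in 𝓝 (0:ℂ), ∀ᶠ s' in 𝓝 s, T (ψ (S (-F s'))) = S (-F s') :=
      eventually_eventually_nhds.2 (hSt.eventually hψr)
    filter_upwards [hev, hGt.eventually hTd, hnF.eventually hSd, hPG,
      hG.eventually_analyticAt, hF.eventually_analyticAt] with s h1 h2 h3 h4 h5 h6
    have h7 : HasDerivAt (fun s' => T (ψ (S (-F s'))))
        (p * r * (p + r) / Pf p r (ψ (S (-F s))) * deriv (fun s' => ψ (S (-F s'))) s) s :=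
      h2.comp s h5.differentiableAt.hasDerivAt
    have h8 : HasDerivAt (fun s' => S (-F s'))
        (p * r * (p + r) / Pf p r (-F s) * (-deriv F s)) s :=
      h3.comp s h6.differentiableAt.hasDerivAt.neg
    have h9 : HasDerivAt (fun s' => T (ψ (S (-F s'))))
        (p * r * (p + r) / Pf p r (-F s) * (-deriv F s)) s := h8.congr_of_eventuallyEq h1
    have h10 := h7.unique h9
    have h11 : deriv (fun s' => ψ (S (-F s'))) s / Pf p r (ψ (S (-F s))) =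
        (-deriv F s) / Pf p r (-F s) := by
      apply mul_left_cancel₀ hK
      linear_combination h10
    rw [div_eq_iff h4] at h11
    rw [h11]
    ring

end Jets

section XG
variable {p r : ℝ} {V W : ℂ → ℂ}

/-- the local branches -/
theorem exists_F (hp : 0 < p) (hpr : p < r) (hW : Ext p r 0 1 V W) {t0 : ℝ} {y φ : ℂ → ℂ}
    (h : XD p r W t0 y φ) {n : ℕ} {z : ℕ → ℂ} (hz : Chain p r W t0 n z) :
    ∃ F : ℕ → ℂ → ℂ, F 0 = φ ∧ (∀ k, k ≤ n → AnalyticAt ℂ (F k) 0 ∧ F k 0 = z k ∧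
        ∀ᶠ τ in 𝓝[UP] (0:ℂ), W (t0 + k + τ) = F k (y τ ^ ((p / r : ℝ) : ℂ))) ∧
      ∀ k, k < n → ∀ᶠ η in 𝓝 (0:ℂ),
        deriv (F (k + 1)) η = -Pf p r (F (k + 1) η) * deriv (F k) η / Pf p r (-F k η) := by
  have hr : 0 < r := hp.trans hpr
  have := Jets.neBot_UP
  have hpi : ∀ z : ℂ, z ∈ UP → 0 < z.im := fun z hz => hz
  have him : ∀ {w : ℂ} (a : ℝ), w.im ≠ 0 → w ≠ (a : ℂ) := by
    intro w a hw e
    apply hw
    rw [e, Complex.ofReal_im]
  have himn : ∀ {w : ℂ}, w.im ≠ 0 → w ≠ -(p : ℂ) := by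
    intro w hw
    have := him (-p) hw
    rwa [Complex.ofReal_neg] at this
  have hη : Tendsto (fun τ => y τ ^ ((p / r : ℝ) : ℂ)) (𝓝[UP] (0:ℂ)) (𝓝 0) := by
    have h1 : Tendsto y (𝓝[UP] (0:ℂ)) (𝓝 0) := by
      have h2 := h.y_ana.continuousAt.tendsto
      rw [h.y_zero] at h2
      exact h2.mono_left nhdsWithin_le_nhds
    have h3 : ContinuousAt (fun w : ℂ => w ^ ((p / r : ℝ) : ℂ)) 0 := by
      apply Complex.continuousAt_cpow_const_of_re_pos
      · left; simp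
      · rw [Complex.ofReal_re]; positivity
    have h4 : (0 : ℂ) ^ ((p / r : ℝ) : ℂ) = 0 := by
      apply Complex.zero_cpow
      have h5 : (0:ℝ) < p / r := by positivity
      exact_mod_cast h5.ne'
    have h5 := h3.tendsto.comp h1
    rw [h4] at h5
    exact h5
  have hmem : ∀ k : ℕ, ∀ᶠ τ in 𝓝[UP] (0:ℂ), ((t0 : ℂ) + k + τ) ∈ UP := by
    intro k
    filter_upwards [self_mem_nhdsWithin] with τ hτ
    have h1 := hpi τ hτ
    show 0 < ((t0 : ℂ) + k + τ).im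
    simpa using h1
  have key : ∀ (k : ℕ) (Fk : ℂ → ℂ), k < n → (AnalyticAt ℂ Fk 0 ∧ Fk 0 = z k ∧
        ∀ᶠ τ in 𝓝[UP] (0:ℂ), W (t0 + k + τ) = Fk (y τ ^ ((p / r : ℝ) : ℂ))) →
      ∃ G : ℂ → ℂ, (AnalyticAt ℂ G 0 ∧ G 0 = z (k + 1) ∧
        ∀ᶠ τ in 𝓝[UP] (0:ℂ), W (t0 + (k + 1 : ℕ) + τ) = G (y τ ^ ((p / r : ℝ) : ℂ))) ∧
        ∀ᶠ η in 𝓝 (0:ℂ), deriv G η = -Pf p r (G η) * deriv Fk η / Pf p r (-Fk η) := by
    rintro k Fk hk ⟨hFa, hF0, hFe⟩
    have hu : (-z k).im ≤ 0 ∧ -z k ≠ 0 ∧ -z k ≠ -p ∧ -z k ≠ r := by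
      rcases Nat.eq_zero_or_pos k with rfl | hk0
      · rw [hz.zero, neg_neg]
        refine ⟨by simp, by exact_mod_cast hp.ne', ?_, by exact_mod_cast hpr.ne⟩
        intro e
        have e1 : p = -p := by exact_mod_cast e
        linarith
      · have h1 := hpi _ (hz.up k hk0 hk)
        have h2 : (-z k).im ≠ 0 := by rw [Complex.neg_im]; linarith
        refine ⟨by rw [Complex.neg_im]; linarith, ?_, himn h2, him r h2⟩
        have := him 0 h2
        rwa [Complex.ofReal_zero] at this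
    have hv : 0 ≤ (z (k + 1)).im ∧ z (k + 1) ≠ 0 ∧ z (k + 1) ≠ -p ∧ z (k + 1) ≠ r := by
      rcases (Nat.succ_le_of_lt hk).lt_or_eq with hk1 | hk1
      · have h1 := hpi _ (hz.up (k + 1) (Nat.succ_pos k) hk1)
        refine ⟨h1.le, ?_, himn h1.ne', him r h1.ne'⟩
        have := him 0 h1.ne'
        rwa [Complex.ofReal_zero] at this
      · have h1 : z (k + 1) = p := by
          have := hz.last
          rwa [← hk1] at this
        rw [h1]
        refine ⟨by simp, by exact_mod_cast hp.ne', ?_, by exact_mod_cast hpr.ne⟩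
        intro e
        have e1 : p = -p := by exact_mod_cast e
        linarith
    obtain ⟨G, hGa, hG0, hGe, hGd⟩ := Jets.step (l := 𝓝[UP] (0:ℂ)) hp hr hu.1 hu.2.1 hu.2.2.1
      hu.2.2.2 hv.1 hv.2.1 hv.2.2.1 hv.2.2.2 hFa (by rw [hF0, neg_neg]) hη hFe
      ((hmem k).mono fun τ hτ => hW.up _ hτ) ((hmem (k + 1)).mono fun τ hτ => hW.up _ hτ)
      (hz.lim (k + 1) hk)
      (by
        filter_upwards [hmem k] with τ hτ
        have h1 := hW.step _ hτ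
        have h2 : (t0 : ℂ) + ((k + 1 : ℕ) : ℂ) + τ = (t0 : ℂ) + k + τ + ((1 : ℝ) : ℂ) := by
          push_cast; ring
        rw [h2, h1]
        simp)
    exact ⟨G, ⟨hGa, hG0, hGe⟩, hGd⟩
  choose! G hG using key
  have h0 : AnalyticAt ℂ φ 0 ∧ φ 0 = z 0 ∧
      ∀ᶠ τ in 𝓝[UP] (0:ℂ), W (t0 + (0 : ℕ) + τ) = φ (y τ ^ ((p / r : ℝ) : ℂ)) := by
    refine ⟨h.φ_ana, by rw [h.φ_zero, hz.zero], ?_⟩
    filter_upwards [h.eq] with τ hτ
    rw [Nat.cast_zero, add_zero]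
    exact hτ.2
  have hQ : ∀ k, k ≤ n → (AnalyticAt ℂ (Nat.rec φ (fun k Fk => G k Fk) k : ℂ → ℂ) 0 ∧
      (Nat.rec φ (fun k Fk => G k Fk) k : ℂ → ℂ) 0 = z k ∧
      ∀ᶠ τ in 𝓝[UP] (0:ℂ), W (t0 + k + τ) =
        (Nat.rec φ (fun k Fk => G k Fk) k : ℂ → ℂ) (y τ ^ ((p / r : ℝ) : ℂ))) := by
    intro k
    induction k with
    | zero => intro _; exact h0
    | succ k ih => intro hk; exact (hG k _ hk (ih (Nat.le_of_succ_le hk))).1
  exact ⟨fun k => Nat.rec φ (fun k Fk => G k Fk) k, rfl, hQ,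
    fun k hk => (hG k _ hk (hQ k hk.le)).2⟩
end XG

end Pool.Agent.MP_ae5b4e_an_ALG
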