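import Mathlib
import Pool.Agent.Lib.MP_ae5b4e_an_ALG.Defs

/-!
# MP_ae5b4e_an, algebraic tables: the geometry of the triangle `-p, 0, z`

The value `z` of the continued uniformizing function at the first interior point of the chain is
excluded: its distance from `0` is at most `p (r - 3 p) / (p + r)` by the chain inequality, and the
angle of the triangle at `z` is at most `3 π p / (2 r)` by the functional equation.
-/

set_option autoImplicit false

noncomputable section

namespace Pool.Agent.MP_ae5b4e_an_ALG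

open Filter Topology Set Metric Complex
open scoped Real

namespace Triangle

/-- the boundary value of `Hf` at `p` -/
theorem Hb_im_p {p r : ℝ} (hp : 0 < p) (hpr : p < r) : (Hb p r p).im = p * π := by
  have h1 : (1 - (r : ℂ) / (p : ℂ)) = ((1 - r / p : ℝ) : ℂ) := by push_cast; ring
  have hp0 : (p : ℂ) ≠ 0 := by exact_mod_cast hp.ne'
  have h2 : (starRingEnd ℂ) (1 + (p : ℂ) / (p : ℂ)) = ((2 : ℝ) : ℂ) := by
    rw [div_self hp0, map_add, map_one]
    push_cast
    norm_num
  have h3 : (1 - r / p) < 0 := by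
    rw [sub_neg, lt_div_iff₀ hp]
    linarith
  have h4 : (Complex.log ((1 - r / p : ℝ) : ℂ)).im = π := by
    rw [Complex.log_im, Complex.arg_ofReal_of_neg h3]
  unfold Hb
  rw [h1, h2, ← Complex.ofReal_log (by norm_num : (0 : ℝ) ≤ 2), Complex.conj_ofReal,
    Complex.add_im, Complex.mul_im, Complex.mul_im, h4]
  simp only [Complex.ofReal_re, Complex.ofReal_im]
  ring

/-- imaginary part of `Hf` -/
theorem Hf_im (p r : ℝ) (z : ℂ) :
    (Hf p r z).im = p * arg (1 - r / z) + r * arg (1 + p / z) := by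
  unfold Hf
  rw [Complex.add_im, Complex.mul_im, Complex.mul_im, Complex.log_im, Complex.log_im]
  simp only [Complex.ofReal_re, Complex.ofReal_im]
  ring

theorem div_re (a : ℝ) (z : ℂ) : ((a : ℂ) / z).re = a * z.re / ‖z‖ ^ 2 := by
  rw [Complex.div_re, Complex.normSq_eq_norm_sq]
  simp

theorem div_im (a : ℝ) (z : ℂ) : ((a : ℂ) / z).im = -(a * z.im / ‖z‖ ^ 2) := by
  rw [Complex.div_im, Complex.normSq_eq_norm_sq]
  simp

/-- the cosine of the angle of the triangle `-p, 0, z` at `z` -/
theorem cos_le {p : ℝ} (hp : 0 < p) {z : ℂ} (hz : 0 < z.im) (hre : z.re ≤ 0) (hn : ‖z‖ < p) :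
    Real.cos (arg (1 + p / z)) ≤ ‖z‖ / p := by
  have hz0 : z ≠ 0 := by
    intro h
    rw [h] at hz
    simp at hz
  have hn0 : 0 < ‖z‖ := norm_pos_iff.mpr hz0
  have him : (1 + (p : ℂ) / z).im < 0 := by
    rw [Complex.add_im, div_im, Complex.one_im]
    have : 0 < p * z.im / ‖z‖ ^ 2 := by positivity
    linarith
  have hN : (1 + (p : ℂ) / z) ≠ 0 := by
    intro h
    rw [h] at him
    simp at him
  have hN0 : 0 < ‖1 + (p : ℂ) / z‖ := norm_pos_iff.mpr hN
  rw [Complex.cos_arg hN, div_le_div_iff₀ hN0 hp, ← norm_mul]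
  have e1 : z * (1 + (p : ℂ) / z) = z + p := by
    field_simp
  rw [e1]
  have e2 : z.re + p ≤ ‖z + p‖ := by
    have := Complex.re_le_norm (z + p)
    simpa using this
  have e3 : (1 + (p : ℂ) / z).re = 1 + p * z.re / ‖z‖ ^ 2 := by
    rw [Complex.add_re, div_re, Complex.one_re]
  rw [e3]
  refine le_trans ?_ e2
  have e4 : (1 + p * z.re / ‖z‖ ^ 2) * p = p + z.re * (p ^ 2 / ‖z‖ ^ 2) := by
    field_simp
  rw [e4]
  have e5 : 1 ≤ p ^ 2 / ‖z‖ ^ 2 := by
    rw [one_le_div (by positivity)]
    exact pow_le_pow_left₀ hn0.le hn.le 2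
  nlinarith

end Triangle

section XN
variable {p r : ℝ}

/-- The geometry of the triangle `-p, 0, z`. -/
theorem triangle_contra (hp : 0 < p) (hpr : p < r) {z : ℂ} (hz : z ∈ UP) (hre : z.re ≤ 0)
    (hH : Hf p r z = (starRingEnd ℂ) (Hb p r p))
    (hI : p * Real.sin (π * (p / r) / 2) + (z * Complex.exp (-(π * (p / r) / 2 : ℝ) * I)).im ≤
      2 * p * (r - p) / (p + r) * Real.sin (π * (p / r) / 2)) : False := by
  have hr : 0 < r := hp.trans hpr
  have hz' : 0 < z.im := hz
  have hπ := Real.pi_pos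
  have hz0 : z ≠ 0 := by
    intro h
    rw [h] at hz'
    simp at hz'
  have hn0 : 0 < ‖z‖ := norm_pos_iff.mpr hz0
  set x : ℝ := p / r with hx
  have hx0 : 0 < x := div_pos hp hr
  have hx1 : x < 1 := by
    rw [hx, div_lt_one hr]
    exact hpr
  set χ : ℝ := π * x / 2 with hχ
  have hχ0 : 0 < χ := by positivity
  have hχ1 : χ < π / 2 := by
    rw [hχ]
    nlinarith
  have hs : 0 < Real.sin χ := Real.sin_pos_of_pos_of_lt_pi hχ0 (by linarith)
  have hc : 0 < Real.cos χ := Real.cos_pos_of_mem_Ioo ⟨by linarith, hχ1⟩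
  -- the imaginary part
  have hE : (z * Complex.exp (-(χ : ℝ) * I)).im = z.im * Real.cos χ - z.re * Real.sin χ := by
    have : (-(χ : ℂ) * I) = ((-χ : ℝ) : ℂ) * I := by push_cast; ring
    rw [this, Complex.mul_im, Complex.exp_ofReal_mul_I_re, Complex.exp_ofReal_mul_I_im,
      Real.cos_neg, Real.sin_neg]
    ring
  rw [hE] at hI
  set κ : ℝ := (r - 3 * p) / (p + r) with hκ
  have hI2 : z.im * Real.cos χ - z.re * Real.sin χ ≤ p * κ * Real.sin χ := by
    have e : 2 * p * (r - p) / (p + r) * Real.sin χ = p * κ * Real.sin χ + p * Real.sin χ := by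
      rw [hκ]
      field_simp
      ring
    rw [e] at hI
    linarith
  have hκ0 : 0 < κ := by
    by_contra hcon
    push Not at hcon
    have h1 : 0 < z.im * Real.cos χ - z.re * Real.sin χ := by
      have := mul_pos hz' hc
      nlinarith
    have h2 : p * κ * Real.sin χ ≤ 0 := by
      have := mul_pos hp hs
      nlinarith
    linarith
  have h3p : 3 * p < r := by
    rw [hκ] at hκ0
    have : 0 < r - 3 * p := by
      by_contra hcon
      push Not at hcon
      exact absurd hκ0 (not_lt.mpr (div_nonpos_of_nonpos_of_nonneg hcon (by linarith)))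
    linarith
  have hx3 : x < 1 / 3 := by
    rw [hx, div_lt_iff₀ hr]
    linarith
  have hκx : κ = (1 - 3 * x) / (1 + x) := by
    rw [hκ, hx]
    field_simp
    ring
  have hcs : Real.sin χ ≤ Real.cos χ := by
    rw [← Real.cos_pi_div_two_sub]
    apply Real.cos_le_cos_of_nonneg_of_le_pi hχ0.le (by linarith)
    rw [hχ]
    nlinarith
  have hnle : ‖z‖ ≤ p * κ := by
    have h1 : ‖z‖ ≤ |z.re| + |z.im| := Complex.norm_le_abs_re_add_abs_im z
    rw [abs_of_nonpos hre, abs_of_pos hz'] at h1
    have h2 : (z.im - z.re) * Real.sin χ ≤ p * κ * Real.sin χ := by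
      have := mul_le_mul_of_nonneg_left hcs hz'.le
      nlinarith
    have h3 : z.im - z.re ≤ p * κ := le_of_mul_le_mul_right h2 hs
    linarith
  have hκ1 : κ < 1 := by
    rw [hκ, div_lt_one (by linarith)]
    linarith
  have hnlt : ‖z‖ < p := by
    refine lt_of_le_of_lt hnle ?_
    nlinarith
  -- the angles
  have hA : 0 < (1 - (r : ℂ) / z).re := by
    rw [Complex.sub_re, Triangle.div_re, Complex.one_re]
    have : r * z.re / ‖z‖ ^ 2 ≤ 0 :=
      div_nonpos_of_nonpos_of_nonneg (mul_nonpos_of_nonneg_of_nonpos hr.le hre) (by positivity)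
    linarith
  have hal : arg (1 - (r : ℂ) / z) < π / 2 :=
    (Complex.abs_arg_lt_pi_div_two_iff.mpr (Or.inl hA)) |> (abs_lt.mp ·) |>.2
  have hB : (1 + (p : ℂ) / z).im < 0 := by
    rw [Complex.add_im, Triangle.div_im, Complex.one_im]
    have : 0 < p * z.im / ‖z‖ ^ 2 := by positivity
    linarith
  have hbe : arg (1 + (p : ℂ) / z) < 0 := Complex.arg_neg_iff.mpr hB
  have him := congrArg Complex.im hH
  rw [Triangle.Hf_im, Complex.conj_im, Triangle.Hb_im_p hp hpr] at him
  set al := arg (1 - (r : ℂ) / z) with hald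
  set be := arg (1 + (p : ℂ) / z) with hbed
  have hε : -be < 3 * π * x / 2 := by
    have h1 : -be = x * (al + π) := by
      rw [hx]
      field_simp
      linarith
    rw [h1]
    nlinarith
  have hε2 : 3 * π * x / 2 < π / 2 := by nlinarith
  have hcos : Real.cos (3 * π * x / 2) ≤ Real.cos be := by
    rw [← Real.cos_neg be]
    exact Real.cos_le_cos_of_nonneg_of_le_pi (by linarith) (by linarith) hε.le
  have hjor : 1 - 3 * x ≤ Real.cos (3 * π * x / 2) := by
    have := Real.one_sub_mul_le_cos (x := 3 * π * x / 2) (by positivity) hε2.le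
    have e : 1 - 2 / π * (3 * π * x / 2) = 1 - 3 * x := by
      field_simp
    rw [e] at this
    exact this
  have hlt : κ < 1 - 3 * x := by
    rw [hκx, div_lt_iff₀ (by linarith)]
    nlinarith
  have hfin : Real.cos be ≤ ‖z‖ / p := Triangle.cos_le hp hz' hre hnlt
  have hle : ‖z‖ / p ≤ κ := by
    rw [div_le_iff₀ hp]
    linarith
  linarith

end XN

end Pool.Agent.MP_ae5b4e_an_ALG
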