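import Mathlib
import Pool.Agent.Lib.MP_ae5b4e_an_ALG.Defs
import Pool.Agent.Lib.MP_ae5b4e_an_ALG.HfInj
import Pool.Agent.Lib.MP_ae5b4e_an_ALG.Lim
import Pool.Agent.Lib.MP_ae5b4e_an_ALG.Far

/-!
# MP_ae5b4e_an, project ALG, module XA: injectivity of the extension `W`
-/

set_option autoImplicit false

noncomputable section

namespace Pool.Agent.MP_ae5b4e_an_ALG

open Filter Topology Set Metric Complex
open scoped Real

section XA
variable {p r D R : ℝ} {V W : ℂ → ℂ}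

namespace XInj

theorem add_nat_mem {t : ℂ} (ht : t ∈ UP) (n : ℕ) : t + n ∈ UP := by
  have h : 0 < t.im := ht
  show 0 < (t + n).im
  simpa using h

theorem add_one_mem {t : ℂ} (ht : t ∈ UP) : t + 1 ∈ UP := by
  have h : 0 < t.im := ht
  show 0 < (t + 1).im
  simpa using h

theorem refl_mem {t : ℂ} (ht : t ∈ UP) : -(starRingEnd ℂ) t ∈ UP := by
  have h : 0 < t.im := ht
  show 0 < (-(starRingEnd ℂ) t).im
  simpa using h

theorem step' (hW : Ext p r 0 1 V W) {t : ℂ} (ht : t ∈ UP) :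
    Hf p r (W (t + 1)) = Hf p r (-W t) := by
  have h := hW.step t ht
  simpa using h

theorem s0' (hW : Ext p r 0 1 V W) {t : ℂ} (ht : t ∈ UP) :
    W (-(starRingEnd ℂ) t) = -(starRingEnd ℂ) (W t) := by
  have h := hW.s0 t ht
  simpa using h

theorem iter (hp : 0 < p) (hr : 0 < r) (hW : Ext p r 0 1 V W) {t s : ℂ} (ht : t ∈ UP)
    (hs : s ∈ UP) (h : W t = W s) (n : ℕ) : W (t + n) = W (s + n) := by
  induction n with
  | zero => simpa using h
  | succ n ih =>
    have h1 := step' hW (add_nat_mem ht n)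
    have h2 := step' hW (add_nat_mem hs n)
    have h3 : Hf p r (W (t + n + 1)) = Hf p r (W (s + n + 1)) := by rw [h1, h2, ih]
    have h4 := Hf_injOn hp hr (hW.up _ (add_one_mem (add_nat_mem ht n)))
      (hW.up _ (add_one_mem (add_nat_mem hs n))) h3
    have e1 : t + ((n + 1 : ℕ) : ℂ) = t + n + 1 := by push_cast; ring
    have e2 : s + ((n + 1 : ℕ) : ℂ) = s + n + 1 := by push_cast; ring
    rw [e1, e2]
    exact h4

theorem re_add (t : ℂ) (n : ℕ) : (t + n).re = t.re + n := by simp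

theorem neBot (a : ℝ) : (𝓝[UP] (a : ℂ)).NeBot := by
  rw [← mem_closure_iff_nhdsWithin_neBot, Metric.mem_closure_iff]
  intro ε hε
  refine ⟨a + ((ε / 2 : ℝ) : ℂ) * I, ?_, ?_⟩
  · show 0 < (a + ((ε / 2 : ℝ) : ℂ) * I).im
    simp
    linarith
  · rw [dist_eq_norm]
    have : (a : ℂ) - (a + ((ε / 2 : ℝ) : ℂ) * I) = -(((ε / 2 : ℝ) : ℂ) * I) := by ring
    rw [this, norm_neg, norm_mul, Complex.norm_real, Complex.norm_I, Real.norm_eq_abs,
      abs_of_pos (by linarith)]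
    linarith

theorem shift {a b : ℝ} {z : ℂ} (h : Tendsto (fun t => W (t + b)) (𝓝[UP] (a : ℂ)) (𝓝 z)) :
    Tendsto W (𝓝[UP] ((a + b : ℝ) : ℂ)) (𝓝 z) := by
  have h1 : Tendsto (fun t : ℂ => t - b) (𝓝[UP] ((a + b : ℝ) : ℂ)) (𝓝[UP] (a : ℂ)) := by
    refine tendsto_nhdsWithin_iff.2 ⟨?_, ?_⟩
    · have h2 : Tendsto (fun t : ℂ => t - b) (𝓝 ((a + b : ℝ) : ℂ)) (𝓝 (((a + b : ℝ) : ℂ) - b)) :=
        (continuous_id.sub continuous_const).tendsto _
      have h3 : ((a + b : ℝ) : ℂ) - b = a := by push_cast; ring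
      rw [h3] at h2
      exact h2.mono_left nhdsWithin_le_nhds
    · filter_upwards [self_mem_nhdsWithin] with t ht
      have h4 : 0 < t.im := ht
      show 0 < (t - b).im
      simpa using h4
  have h5 := h.comp h1
  refine h5.congr ?_
  intro t
  simp

/-- one step of the real orbit -/
theorem real_step (hp : 0 < p) (hpr : p < r) (hW : Ext p r 0 1 V W) {y : ℝ} (hy : p < y) :
    ∃ y' : ℝ, r < y' ∧ ∀ a : ℝ, Tendsto W (𝓝[UP] (a : ℂ)) (𝓝 (y : ℂ)) →
      Tendsto W (𝓝[UP] ((a + 1 : ℝ) : ℂ)) (𝓝 (y' : ℂ)) := by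
  have hr : 0 < r := hp.trans hpr
  have hb := Hb_I14 (x := -y) hp hr (Or.inl (by linarith))
  obtain ⟨y', hy', he⟩ := Hb_surj4 hp hr hb.1 hb.2
  refine ⟨y', hy', ?_⟩
  intro a ha
  -- `v = -conj (W t)` tends to `-y` in the upper half plane
  have hv : Tendsto (fun t => -(starRingEnd ℂ) (W t)) (𝓝[UP] (a : ℂ))
      (𝓝[UP] (((-y : ℝ)) : ℂ)) := by
    refine tendsto_nhdsWithin_iff.2 ⟨?_, ?_⟩
    · have h1 : Tendsto (fun t => -(starRingEnd ℂ) (W t)) (𝓝[UP] (a : ℂ))
          (𝓝 (-(starRingEnd ℂ) (y : ℂ))) :=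
        ((Complex.continuous_conj.tendsto _).comp ha).neg
      have h2 : -(starRingEnd ℂ) (y : ℂ) = ((-y : ℝ) : ℂ) := by
        rw [Complex.conj_ofReal]; push_cast; ring
      rw [h2] at h1
      exact h1
    · filter_upwards [self_mem_nhdsWithin] with t ht
      exact refl_mem (hW.up t ht)
  have hne : ((-y : ℝ) : ℂ) ∈ {V : ℂ | 0 ≤ V.im ∧ V ≠ 0 ∧ V ≠ -p ∧ V ≠ r} := by
    refine ⟨by simp, ?_, ?_, ?_⟩
    · intro h
      have h1 : (-y : ℝ) = 0 := by exact_mod_cast h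
      linarith
    · intro h
      have h1 : (-y : ℝ) = -p := by exact_mod_cast h
      linarith
    · intro h
      have h1 : (-y : ℝ) = r := by exact_mod_cast h
      linarith
  have hsub : UP ⊆ {V : ℂ | 0 ≤ V.im ∧ V ≠ 0 ∧ V ≠ -p ∧ V ≠ r} := by
    intro w hw
    have hw' : 0 < w.im := hw
    refine ⟨hw'.le, ?_, ?_, ?_⟩
    · rintro rfl
      simp at hw'
    · rintro rfl
      simp at hw'
    · rintro rfl
      simp at hw'
  have hc : Tendsto (Hb p r) (𝓝[UP] ((-y : ℝ) : ℂ)) (𝓝 (Hb p r ((-y : ℝ) : ℂ))) :=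
    (Hb_contOn hp hr _ hne).mono_left (nhdsWithin_mono _ hsub)
  have hlim : Tendsto (fun t => Hf p r (-(starRingEnd ℂ) (W t))) (𝓝[UP] (a : ℂ))
      (𝓝 (Hb p r ((-y : ℝ) : ℂ))) := by
    refine (hc.comp hv).congr' ?_
    filter_upwards [self_mem_nhdsWithin] with t ht
    exact Hb_eq hp hr (UP_subset_Dm (refl_mem (hW.up t ht)))
  have hstep : ∀ t ∈ UP, Hf p r (W (t + 1)) =
      (starRingEnd ℂ) (Hf p r (-(starRingEnd ℂ) (W t))) := by
    intro t ht
    rw [step' hW ht, ← Hf_conj hp hr (UP_subset_Dm (refl_mem (hW.up t ht)))]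
    simp
  have hreal : (starRingEnd ℂ) (Hb p r ((-y : ℝ) : ℂ)) = Hb p r ((-y : ℝ) : ℂ) := by
    apply Complex.ext
    · simp
    · rw [Complex.conj_im, hb.1]; simp
  have hz : Tendsto (fun t => Hf p r (W (t + 1))) (𝓝[UP] (a : ℂ)) (𝓝 (Hb p r (y' : ℂ))) := by
    have h1 : Tendsto (fun t => (starRingEnd ℂ) (Hf p r (-(starRingEnd ℂ) (W t))))
        (𝓝[UP] (a : ℂ)) (𝓝 ((starRingEnd ℂ) (Hb p r ((-y : ℝ) : ℂ)))) :=
      (Complex.continuous_conj.tendsto _).comp hlim
    rw [hreal, ← he] at h1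
    refine h1.congr' ?_
    filter_upwards [self_mem_nhdsWithin] with t ht
    exact (hstep t ht).symm
  have hi : ∀ᶠ t in 𝓝[UP] (a : ℂ), 0 < (Hf p r (W (t + 1))).im := by
    have h1 := hv.eventually (Hf_side1 hp hr (x := -y) (by linarith))
    filter_upwards [h1, self_mem_nhdsWithin] with t ht1 ht2
    rw [hstep t ht2, Complex.conj_im]
    linarith
  have hup : ∀ᶠ t in 𝓝[UP] (a : ℂ), W (t + 1) ∈ UP := by
    filter_upwards [self_mem_nhdsWithin] with t ht
    exact hW.up _ (add_one_mem ht)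
  have h4 : Tendsto (fun t => W (t + 1)) (𝓝[UP] (a : ℂ)) (𝓝 (y' : ℂ)) :=
    lim_4 hp hr hup hy' hz hi
  refine shift (a := a) (b := 1) ?_
  simpa using h4

/-- the value of `V` at a far real point -/
theorem far_value (hV : SHM p r 0 D 1 R V) {b R' y : ℝ} (hR' : ∀ t ∈ UP, R' < ‖t‖ → W t = V t)
    (hb : R < b) (hb' : R' < b) (h : Tendsto W (𝓝[UP] (b : ℂ)) (𝓝 (y : ℂ))) :
    V b = y := by
  have hb0 : 0 < b := hV.R_pos.trans hb
  have hn : ‖(b : ℂ)‖ = b := by
    rw [Complex.norm_real, Real.norm_eq_abs, abs_of_pos hb0]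
  have hd : DifferentiableAt ℂ V b := hV.diff b (by rw [hn]; exact hb)
  have h1 : Tendsto V (𝓝[UP] (b : ℂ)) (𝓝 (V b)) :=
    hd.continuousAt.tendsto.mono_left nhdsWithin_le_nhds
  have h2 : ∀ᶠ t in 𝓝[UP] (b : ℂ), R' < ‖t‖ := by
    have h3 : Tendsto (fun t : ℂ => ‖t‖) (𝓝 (b : ℂ)) (𝓝 ‖(b : ℂ)‖) := continuous_norm.tendsto _
    have h4 := h3.eventually (lt_mem_nhds (show R' < ‖(b : ℂ)‖ by rw [hn]; exact hb'))
    exact nhdsWithin_le_nhds h4
  have h5 : Tendsto V (𝓝[UP] (b : ℂ)) (𝓝 (y : ℂ)) := by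
    refine h.congr' ?_
    filter_upwards [h2, self_mem_nhdsWithin] with t ht1 ht2
    exact hR' t ht2 ht1
  let _ := neBot b
  exact tendsto_nhds_unique h1 h5

end XInj

theorem W_inj (hp : 0 < p) (hpr : p < r) (hD : 0 < D) (hV : SHM p r 0 D 1 R V)
    (hW : Ext p r 0 1 V W) : InjOn W UP := by
  have hr : 0 < r := hp.trans hpr
  intro t ht s hs h
  obtain ⟨R1, -, -, -, -, hinj, -⟩ := hV.far hp hr hD 0
  obtain ⟨R', hR'⟩ := hW.far
  obtain ⟨n, hn⟩ := exists_nat_gt (max R1 R' + |t.re| + |s.re|)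
  have hm1 := le_max_left R1 R'
  have hm2 := le_max_right R1 R'
  have ht1 : max R1 R' < (t + n).re := by
    rw [XInj.re_add]
    have := neg_abs_le t.re
    have := abs_nonneg s.re
    linarith
  have hs1 : max R1 R' < (s + n).re := by
    rw [XInj.re_add]
    have := neg_abs_le s.re
    have := abs_nonneg t.re
    linarith
  have ht2 : R' < ‖t + n‖ := lt_of_lt_of_le (lt_of_le_of_lt hm2 ht1) (Complex.re_le_norm _)
  have hs2 : R' < ‖s + n‖ := lt_of_lt_of_le (lt_of_le_of_lt hm2 hs1) (Complex.re_le_norm _)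
  have h1 := XInj.iter hp hr hW ht hs h n
  rw [hR' _ (XInj.add_nat_mem ht n) ht2, hR' _ (XInj.add_nat_mem hs n) hs2] at h1
  have h2 := hinj _ _ (lt_of_le_of_lt hm1 ht1) (lt_of_le_of_lt hm1 hs1) h1
  exact add_right_cancel h2

theorem W_left (hp : 0 < p) (hpr : p < r) (hD : 0 < D) (hV : SHM p r 0 D 1 R V)
    (hW : Ext p r 0 1 V W) {t : ℂ} (ht : t ∈ UP) (h0 : t.re < 0) : (W t).re < 0 := by
  have hinj := W_inj hp hpr hD hV hW
  set S : Set ℂ := {z : ℂ | z.re < 0} ∩ UP with hS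
  have hne : ∀ z ∈ S, (W z).re ≠ 0 := by
    intro z hz hz0
    have h1 : -(starRingEnd ℂ) (W z) = W z := by
      apply Complex.ext
      · rw [Complex.neg_re, Complex.conj_re, hz0, neg_zero]
      · rw [Complex.neg_im, Complex.conj_im, neg_neg]
    have h2 := XInj.s0' hW hz.2
    rw [h1] at h2
    have h3 := hinj (XInj.refl_mem hz.2) hz.2 h2
    have h4 := congrArg Complex.re h3
    rw [Complex.neg_re, Complex.conj_re] at h4
    have h5 : z.re < 0 := hz.1
    linarith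
  have hconv : Convex ℝ S := by
    refine Convex.inter (convex_halfSpace_re_lt 0) ?_
    exact convex_halfSpace_im_gt 0
  have hcont : ContinuousOn (fun z => (W z).re) S := by
    intro z hz
    have h1 : ContinuousWithinAt W UP z := (hW.diff z hz.2).continuousWithinAt
    exact (Complex.continuous_re.continuousAt.comp_continuousWithinAt
      (h1.mono inter_subset_right))
  -- a far point
  obtain ⟨R', hR'⟩ := hW.far
  have hasym : ∀ᶠ z in Bornology.cobounded ℂ, ‖V z - D * z - (-((0 : ℝ) : ℂ))‖ < 1 := by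
    have h1 := hV.asym
    rw [Metric.tendsto_nhds] at h1
    have h2 := h1 1 one_pos
    filter_upwards [h2] with z hz
    rwa [dist_eq_norm] at hz
  have hcob : Tendsto (fun x : ℝ => (-(x : ℂ) + I)) atTop (Bornology.cobounded ℂ) := by
    rw [← tendsto_norm_atTop_iff_cobounded]
    refine tendsto_atTop_mono (f := fun x : ℝ => x) ?_ tendsto_id
    intro x
    have h1 := Complex.abs_re_le_norm (-(x : ℂ) + I)
    simp at h1
    exact (le_abs_self x).trans h1
  have hev := hcob.eventually hasym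
  obtain ⟨x, hx1, hx2, hx3⟩ := (hev.and ((eventually_gt_atTop (max R' (max 1 (1 / D)))).and
    (eventually_gt_atTop 0))).exists
  set q : ℂ := -(x : ℂ) + I with hq
  have hqS : q ∈ S := by
    refine ⟨?_, ?_⟩
    · show q.re < 0
      rw [hq]
      simp
      exact hx3
    · show 0 < q.im
      rw [hq]
      simp
  have hqn : x ≤ ‖q‖ := by
    have h1 := Complex.abs_re_le_norm q
    have h2 : q.re = -x := by rw [hq]; simp
    rw [h2, abs_neg] at h1
    exact (le_abs_self x).trans h1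
  have hxR : R' < ‖q‖ := lt_of_lt_of_le (lt_of_le_of_lt (le_max_left _ _) hx2) hqn
  have hxD : 1 / D < x := lt_of_le_of_lt ((le_max_right _ _).trans (le_max_right _ _)) hx2
  have hqneg : (W q).re < 0 := by
    rw [hR' q hqS.2 hxR]
    have h1 : |(V q - D * q - (-((0 : ℝ) : ℂ))).re| < 1 :=
      lt_of_le_of_lt (Complex.abs_re_le_norm _) hx1
    have h2 : (V q - D * q - (-((0 : ℝ) : ℂ))).re = (V q).re + D * x := by
      rw [hq]
      simp
    rw [h2] at h1
    have h3 := (abs_lt.1 h1).2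
    have h4 : 1 < D * x := by
      rw [div_lt_iff₀ hD] at hxD
      linarith
    linarith
  by_contra hcon
  push Not at hcon
  have htS : t ∈ S := ⟨h0, ht⟩
  have hpre : IsPreconnected S := hconv.isPreconnected
  have himg := hpre.intermediate_value hqS htS hcont
  obtain ⟨z, hz, hz0⟩ := himg (show (0 : ℝ) ∈ Icc ((W q).re) ((W t).re) from ⟨hqneg.le, hcon⟩)
  exact hne z hz hz0

/-- a real value `y > p` is attained at one real point only -/
theorem W_unique (hp : 0 < p) (hpr : p < r) (hD : 0 < D) (hV : SHM p r 0 D 1 R V)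
    (hW : Ext p r 0 1 V W) {a a' y : ℝ} (hy : p < y) (h1 : Tendsto W (𝓝[UP] (a : ℂ)) (𝓝 (y : ℂ)))
    (h2 : Tendsto W (𝓝[UP] (a' : ℂ)) (𝓝 (y : ℂ))) : a = a' := by
  have hr : 0 < r := hp.trans hpr
  have hind : ∀ n : ℕ, ∃ u : ℝ, p < u ∧
      Tendsto W (𝓝[UP] ((a + n : ℝ) : ℂ)) (𝓝 (u : ℂ)) ∧
      Tendsto W (𝓝[UP] ((a' + n : ℝ) : ℂ)) (𝓝 (u : ℂ)) := by
    intro n
    induction n with
    | zero =>
      refine ⟨y, hy, ?_, ?_⟩
      · simpa using h1
      · simpa using h2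
    | succ n ih =>
      obtain ⟨u, hu, hu1, hu2⟩ := ih
      obtain ⟨u', hu', hst⟩ := XInj.real_step hp hpr hW hu
      refine ⟨u', hpr.trans hu', ?_, ?_⟩
      · have h3 := hst _ hu1
        have h4 : a + n + 1 = a + ((n + 1 : ℕ) : ℝ) := by push_cast; ring
        rwa [h4] at h3
      · have h3 := hst _ hu2
        have h4 : a' + n + 1 = a' + ((n + 1 : ℕ) : ℝ) := by push_cast; ring
        rwa [h4] at h3
  obtain ⟨R1, hR1, -, -, -, hinj, -⟩ := hV.far hp hr hD 0
  obtain ⟨R', hR'⟩ := hW.far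
  obtain ⟨n, hn⟩ := exists_nat_gt (max R1 R' + |a| + |a'|)
  have hm1 := le_max_left R1 R'
  have hm2 := le_max_right R1 R'
  have ha1 : max R1 R' < a + n := by
    have := neg_abs_le a
    have := abs_nonneg a'
    linarith
  have ha2 : max R1 R' < a' + n := by
    have := neg_abs_le a'
    have := abs_nonneg a
    linarith
  obtain ⟨u, -, hu1, hu2⟩ := hind n
  have e1 := XInj.far_value hV hR' (by linarith) (by linarith) hu1
  have e2 := XInj.far_value hV hR' (by linarith) (by linarith) hu2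
  have e3 := hinj ((a + n : ℝ) : ℂ) ((a' + n : ℝ) : ℂ)
    (by rw [Complex.ofReal_re]; linarith) (by rw [Complex.ofReal_re]; linarith)
    (e1.trans e2.symm)
  have e4 : a + n = a' + n := by exact_mod_cast e3
  linarith

end XA

end Pool.Agent.MP_ae5b4e_an_ALG
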