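import Pool.Agent.Lib.MP_ae5b4e_an_ALG.HfA

set_option autoImplicit false

/-! # The jet of `φ` at `0` -/

noncomputable section

namespace Pool.Agent.MP_ae5b4e_an_ALG

open Filter Topology Set Metric Complex
open scoped Real

namespace XJet

/-- the second factor of `Ef` -/
def ee (p r : ℝ) (V : ℂ) : ℂ := Complex.exp (((p / r : ℝ) : ℂ) * Complex.log (1 - r / V))

/-- the derivative of `Ef` -/
def gg (p r : ℝ) (V : ℂ) : ℂ := p * (p + r) * ee p r V / (V ^ 2 * (V - r))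

theorem hasDerivAt_ee {p r : ℝ} (hr : r ≠ 0) {V : ℂ} (hV : V ≠ 0) (hVr : V - r ≠ 0)
    (hs : 1 - (r : ℂ) / V ∈ slitPlane) :
    HasDerivAt (ee p r) (ee p r V * (p / (V * (V - r)))) V := by
  have h1 : HasDerivAt (fun V : ℂ => 1 - (r : ℂ) / V) ((r : ℂ) / V ^ 2) V := by
    have h := ((hasDerivAt_inv hV).const_mul (r : ℂ)).const_sub 1
    simp only [← div_eq_mul_inv] at h
    refine h.congr_deriv ?_
    ring
  have h4 := ((h1.clog hs).const_mul (((p / r : ℝ) : ℂ))).cexp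
  have hr' : (r : ℂ) ≠ 0 := by exact_mod_cast hr
  have h5 : (1 : ℂ) - r / V = (V - r) / V := by field_simp
  refine h4.congr_deriv ?_
  unfold ee
  congr 1
  rw [h5]
  push_cast
  field_simp

theorem hasDerivAt_Ef {p r : ℝ} (hr : r ≠ 0) {V : ℂ} (hV : V ≠ 0) (hVr : V - r ≠ 0)
    (hs : 1 - (r : ℂ) / V ∈ slitPlane) : HasDerivAt (Ef p r) (gg p r V) V := by
  have h1 : HasDerivAt (fun V : ℂ => 1 + (p : ℂ) / V) (-(p : ℂ) / V ^ 2) V := by
    have h := ((hasDerivAt_inv hV).const_mul (p : ℂ)).const_add 1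
    simp only [← div_eq_mul_inv] at h
    refine h.congr_deriv ?_
    ring
  have h2 := h1.mul (hasDerivAt_ee (p := p) hr hV hVr hs)
  have h3 : (fun V : ℂ => 1 + (p : ℂ) / V) * ee p r = Ef p r := by
    funext V
    rfl
  rw [h3] at h2
  refine h2.congr_deriv ?_
  unfold gg
  field_simp
  ring

theorem hasDerivAt_gg {p r : ℝ} (hr : r ≠ 0) {V : ℂ} (hV : V ≠ 0) (hVr : V - r ≠ 0)
    (hs : 1 - (r : ℂ) / V ∈ slitPlane) :
    HasDerivAt (gg p r) (gg p r V * (p / (V * (V - r)) - 2 / V - 1 / (V - r))) V := by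
  have h1 : HasDerivAt (fun V : ℂ => V ^ 2 * (V - r)) (2 * V * (V - r) + V ^ 2) V := by
    have h : HasDerivAt (fun V : ℂ => V ^ 2 * (V - r)) _ V :=
      ((hasDerivAt_id V).pow 2).mul ((hasDerivAt_id V).sub_const (r : ℂ))
    refine h.congr_deriv ?_
    simp
  have h2 := (((hasDerivAt_ee (p := p) hr hV hVr hs).const_mul ((p : ℂ) * (p + r))).div h1
    (mul_ne_zero (pow_ne_zero 2 hV) hVr))
  refine h2.congr_deriv ?_
  unfold gg
  field_simp
  ring

end XJet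

open XJet in
/-- the jet of `φ` -/
theorem XD.jet {p r : ℝ} {W : ℂ → ℂ} (hp : 0 < p) (hpr : p < r) {t0 : ℝ} {y φ : ℂ → ℂ}
    (h : XD p r W t0 y φ) :
    deriv (deriv φ) 0 = -((2 * (2 * p + r) / (p * (p + r)) : ℝ) : ℂ) * (deriv φ 0) ^ 2 := by
  have hr : 0 < r := hp.trans hpr
  have hpc : (p : ℂ) ≠ 0 := by exact_mod_cast hp.ne'
  have hprc : (p : ℂ) + r ≠ 0 := by exact_mod_cast (add_pos hp hr).ne'
  -- the good set is a neighbourhood of `-p`
  have hgood : ∀ᶠ V : ℂ in 𝓝 (-(p : ℂ)), V ≠ 0 ∧ V - r ≠ 0 ∧ 1 - (r : ℂ) / V ∈ slitPlane := by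
    have h1 : ∀ᶠ V : ℂ in 𝓝 (-(p : ℂ)), V ≠ 0 :=
      (continuousAt_id (x := -(p : ℂ))).eventually_ne (neg_ne_zero.mpr hpc)
    have h2 : ∀ᶠ V : ℂ in 𝓝 (-(p : ℂ)), V - r ≠ 0 := by
      have hc : ContinuousAt (fun V : ℂ => V - r) (-(p : ℂ)) :=
        continuousAt_id.sub continuousAt_const
      refine hc.eventually_ne ?_
      intro h3
      apply hprc
      linear_combination -h3
    have h3 : ∀ᶠ V : ℂ in 𝓝 (-(p : ℂ)), 1 - (r : ℂ) / V ∈ slitPlane := by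
      have hc : ContinuousAt (fun V : ℂ => 1 - (r : ℂ) / V) (-(p : ℂ)) :=
        continuousAt_const.sub (continuousAt_const.div continuousAt_id (neg_ne_zero.mpr hpc))
      refine hc.eventually_mem (isOpen_slitPlane.mem_nhds ?_)
      have h4 : 1 - (r : ℂ) / (-(p : ℂ)) = ((1 + r / p : ℝ) : ℂ) := by
        push_cast
        field_simp
        ring
      rw [h4]
      exact ofReal_mem_slitPlane.mpr (by positivity)
    filter_upwards [h1, h2, h3] with V a b c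
    exact ⟨a, b, c⟩
  have hφc : Tendsto φ (𝓝 0) (𝓝 (-(p : ℂ))) := by
    have := h.φ_ana.continuousAt.tendsto
    rwa [h.φ_zero] at this
  have hφd : ∀ᶠ η in 𝓝 (0 : ℂ), DifferentiableAt ℂ φ η :=
    h.φ_ana.eventually_analyticAt.mono fun η hη => hη.differentiableAt
  have hder : ∀ᶠ η in 𝓝 (0 : ℂ), gg p r (φ η) * deriv φ η = 1 := by
    filter_upwards [hφc.eventually hgood, hφd, h.φ_eq.eventually_nhds] with η h1 h2 h3
    have h4 := (hasDerivAt_Ef (p := p) hr.ne' h1.1 h1.2.1 h1.2.2).comp η h2.hasDerivAt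
    have h5 : HasDerivAt (fun η : ℂ => η) (gg p r (φ η) * deriv φ η) η :=
      h4.congr_of_eventuallyEq (h3.mono fun z hz => hz.symm)
    exact h5.unique (hasDerivAt_id η)
  have hder' : deriv φ =ᶠ[𝓝 (0 : ℂ)] fun η => (gg p r (φ η))⁻¹ := by
    filter_upwards [hder] with η hη
    exact eq_inv_of_mul_eq_one_right hη
  have hg0 : gg p r (-(p : ℂ)) * deriv φ 0 = 1 := by
    have := hder.self_of_nhds
    rwa [h.φ_zero] at this
  have hgne : gg p r (-(p : ℂ)) ≠ 0 := left_ne_zero_of_mul_eq_one hg0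
  have hgd := hasDerivAt_gg (p := p) hr.ne' hgood.self_of_nhds.1 hgood.self_of_nhds.2.1
    hgood.self_of_nhds.2.2
  have hφ0 : HasDerivAt φ (deriv φ 0) 0 := hφd.self_of_nhds.hasDerivAt
  have hcomp : HasDerivAt (fun η => gg p r (φ η))
      (gg p r (-(p : ℂ)) * (p / (-(p : ℂ) * (-(p : ℂ) - r)) - 2 / (-(p : ℂ)) -
        1 / (-(p : ℂ) - r)) * deriv φ 0) 0 := by
    rw [← h.φ_zero] at hgd
    have := hgd.comp (0 : ℂ) hφ0
    rw [h.φ_zero] at this
    exact this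
  have hinv := hcomp.inv (by rw [h.φ_zero]; exact hgne)
  rw [hder'.deriv_eq]
  have h6 : deriv (fun η => (gg p r (φ η))⁻¹) 0 = _ := hinv.deriv
  rw [h6, h.φ_zero]
  have h7 : deriv φ 0 = (gg p r (-(p : ℂ)))⁻¹ := eq_inv_of_mul_eq_one_right hg0
  rw [h7]
  have h8 : -(p : ℂ) - r ≠ 0 := by
    intro h9
    apply hprc
    linear_combination -h9
  generalize gg p r (-(p : ℂ)) = G at *
  push_cast
  field_simp
  ring

end Pool.Agent.MP_ae5b4e_an_ALG
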