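import Pool.Agent.Lib.MP_ae5b4e_an_ALG.ExtB
import Pool.Agent.Lib.MP_ae5b4e_an_ALG.XInj
import Pool.Agent.Lib.MP_ae5b4e_an_ALG.XDat
import Pool.Agent.Lib.MP_ae5b4e_an_ALG.XJet
import Pool.Agent.Lib.MP_ae5b4e_an_ALG.Chain
import Pool.Agent.Lib.MP_ae5b4e_an_ALG.Jets
import Pool.Agent.Lib.MP_ae5b4e_an_ALG.FEnd
import Pool.Agent.Lib.MP_ae5b4e_an_ALG.IdA
import Pool.Agent.Lib.MP_ae5b4e_an_ALG.Angle
import Pool.Agent.Lib.MP_ae5b4e_an_ALG.AngleSum
import Pool.Agent.Lib.MP_ae5b4e_an_ALG.ChainIneq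
import Pool.Agent.Lib.MP_ae5b4e_an_ALG.Triangle

/-!
# MP_ae5b4e_an, algebraic tables, module XO: type `X²` does not occur

The extension of `V` to the upper half plane gives a chain of values from `-p` to `p`; the local
branches along the chain give the identity (A), the sum of the angles of `kap` along the chain is
at most `π`, and the geometry of the first triangle gives the contradiction.
-/

set_option autoImplicit false

noncomputable section

namespace Pool.Agent.MP_ae5b4e_an_ALG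

open Filter Topology Set Metric Complex
open scoped Real

namespace NoX

theorem neBot_UP : (𝓝[UP] (0 : ℂ)).NeBot := by
  rw [← mem_closure_iff_nhdsWithin_neBot, Metric.mem_closure_iff]
  intro e he
  refine ⟨((e / 2 : ℝ) : ℂ) * I, ?_, ?_⟩
  · show 0 < (((e / 2 : ℝ) : ℂ) * I).im
    simp
    exact he
  · rw [dist_zero_left, norm_mul, Complex.norm_I, mul_one, Complex.norm_real, Real.norm_eq_abs,
      abs_of_pos (half_pos he)]
    linarith

variable {p r : ℝ}

theorem Pf_ne {v : ℂ} (h1 : v ≠ 0) (h2 : v + p ≠ 0) (h3 : v - r ≠ 0) : Pf p r v ≠ 0 :=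
  mul_ne_zero (mul_ne_zero h1 h2) h3

theorem up_ne {z : ℂ} (hz : z ∈ UP) (a : ℝ) : z + a ≠ 0 := by
  intro h
  have h2 := congrArg Complex.im h
  rw [Complex.add_im, Complex.ofReal_im, add_zero, Complex.zero_im] at h2
  have h3 : 0 < z.im := hz
  linarith

theorem Pf_up {z : ℂ} (hz : z ∈ UP) : Pf p r z ≠ 0 := by
  refine Pf_ne ?_ (up_ne hz p) ?_
  · have := up_ne hz 0
    simpa using this
  · have := up_ne hz (-r)
    rw [Complex.ofReal_neg, ← sub_eq_add_neg] at this
    exact this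

theorem Pf_up_neg {z : ℂ} (hz : z ∈ UP) : Pf p r (-z) ≠ 0 := by
  refine Pf_ne ?_ ?_ ?_
  · have := up_ne hz 0
    simpa using this
  · have := up_ne hz (-p)
    intro h
    apply this
    rw [Complex.ofReal_neg]
    linear_combination -h
  · have := up_ne hz r
    intro h
    apply this
    linear_combination -h

theorem Pf_p (hp : 0 < p) (hpr : p < r) : Pf p r p ≠ 0 := by
  have hp' : (p : ℂ) ≠ 0 := by exact_mod_cast hp.ne'
  refine Pf_ne hp' ?_ ?_
  · intro h
    apply hp'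
    linear_combination h / 2
  · intro h
    have : (p : ℂ) = r := by linear_combination h
    have h2 : p = r := by exact_mod_cast this
    linarith

/-- the values in the left half of the chain -/
theorem re_le {W : ℂ → ℂ} (hl : ∀ t ∈ UP, t.re < 0 → (W t).re < 0) {a : ℝ} (ha : a ≤ 0) {z : ℂ}
    (hz : Tendsto (fun τ => W (a + τ)) (𝓝[UP] 0) (𝓝 z)) : z.re ≤ 0 := by
  have hτ : Tendsto (fun s : ℝ => (s : ℂ) * (I - 1)) (𝓝[>] 0) (𝓝[UP] 0) := by
    refine tendsto_nhdsWithin_iff.2 ⟨?_, ?_⟩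
    · have : Tendsto (fun s : ℝ => (s : ℂ) * (I - 1)) (𝓝 0) (𝓝 (((0 : ℝ) : ℂ) * (I - 1))) :=
        (Complex.continuous_ofReal.mul continuous_const).tendsto 0
      rw [Complex.ofReal_zero, zero_mul] at this
      exact this.mono_left nhdsWithin_le_nhds
    · filter_upwards [self_mem_nhdsWithin] with s hs
      have hs' : 0 < s := hs
      show 0 < ((s : ℂ) * (I - 1)).im
      simpa using hs'
  have h1 := (Complex.continuous_re.tendsto z).comp (hz.comp hτ)
  refine le_of_tendsto h1 ?_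
  filter_upwards [self_mem_nhdsWithin] with s hs
  have hs' : 0 < s := hs
  show (W (a + (s : ℂ) * (I - 1))).re ≤ 0
  refine (hl _ ?_ ?_).le
  · show 0 < ((a : ℂ) + (s : ℂ) * (I - 1)).im
    simpa using hs'
  · have : ((a : ℂ) + (s : ℂ) * (I - 1)).re = a - s := by
      simp
      ring
    rw [this]
    linarith

end NoX

section XO
variable {p r : ℝ}

/-- type `X²` -/
theorem no_shm_X {D R : ℝ} {V : ℂ → ℂ} (hp : 0 < p) (hpr : p < r) (hD : 0 < D) :
    ¬ SHM p r 0 D 1 R V := by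
  intro hV
  obtain ⟨W, hW⟩ := exists_ext hp hpr hD (Or.inl ⟨rfl, le_rfl⟩) hV
  obtain ⟨t0, y, φ, hX⟩ := exists_XD hp hpr hD hV hW
  obtain ⟨n, z, hz⟩ := exists_chain hp hpr hD hV hW hX
  obtain ⟨F, hF0, hF, hstep⟩ := exists_F hp hpr hW hX hz
  have hn1 : 1 < n := hz.two
  have hs : ∀ t ∈ UP, W (-(starRingEnd ℂ) t) = -(starRingEnd ℂ) (W t) := by
    intro t ht
    have := hW.s0 t ht
    simpa using this
  obtain ⟨hend0, hend1, hend2⟩ := F_end hp hpr hX (hF n le_rfl).1 hz.t0_eq hs (hF n le_rfl).2.2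
  have hd0 : deriv φ 0 ≠ 0 := by
    obtain ⟨m, hm, hm'⟩ := hX.φ_der
    rw [hm', neg_ne_zero]
    exact_mod_cast hm.ne'
  have hFz : ∀ k, k ≤ n → F k 0 = z k := fun k hk => (hF k hk).2.1
  have hne : ∀ k, k < n → Pf p r (-z k) ≠ 0 := by
    intro k hk
    rcases Nat.eq_zero_or_pos k with h0 | h0
    · subst h0
      rw [hz.zero, neg_neg]
      exact NoX.Pf_p hp hpr
    · exact NoX.Pf_up_neg (hz.up k h0 hk)
  have hne' : ∀ k, k < n → Pf p r (z (k + 1)) ≠ 0 := by
    intro k hk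
    rcases Nat.lt_or_ge (k + 1) n with h0 | h0
    · exact NoX.Pf_up (hz.up (k + 1) (Nat.succ_pos k) h0)
    · have : k + 1 = n := le_antisymm hk h0
      rw [this, hz.last]
      exact NoX.Pf_p hp hpr
  set E : ℂ := Complex.exp ((π * (p / r) : ℝ) * I) with hE
  have hA := identity_A hp hpr (n := n) (F := F) (D := E) (fun k hk => (hF k hk).1)
    ((hFz 0 (Nat.zero_le n)).trans hz.zero) hend0 (by rw [hF0]; exact hd0)
    (by rw [hF0]; exact hX.jet hp hpr)
    (fun k hk => by rw [hFz k hk.le]; exact hne k hk)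
    (fun k hk => by rw [hFz (k + 1) hk]; exact hne' k hk) hstep
    (by rw [hF0]; exact hend1) (by rw [hF0]; exact hend2)
  have hA' : ∑ k ∈ Finset.range n, (z k + z (k + 1)) *
      (deriv (F k) 0 / deriv (F 0) 0 / Pf p r (-z k)) = (1 - E) / (p * (p + r)) := by
    rw [← hA]
    refine Finset.sum_congr rfl fun k hk => ?_
    rw [Finset.mem_range] at hk
    rw [hFz k hk.le, hFz (k + 1) hk]
  have hw0 : deriv (F 0) 0 / deriv (F 0) 0 = 1 := by
    rw [hF0]
    exact div_self hd0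
  have hw : ∀ k, k < n → deriv (F (k + 1)) 0 / deriv (F 0) 0 =
      -Pf p r (z (k + 1)) * (deriv (F k) 0 / deriv (F 0) 0) / Pf p r (-z k) := by
    intro k hk
    have := (hstep k hk).self_of_nhds
    rw [this, hFz k hk.le, hFz (k + 1) hk]
    ring
  have hwn : deriv (F n) 0 / deriv (F 0) 0 = -E := by
    rw [hend1, hF0, mul_div_assoc, div_self hd0, mul_one]
  have hang := angle_sum hp hpr hW (fun t ht n => angle_bound hp hpr hD hV hW ht n) hX hz
  have hre : ∀ k, 0 < k → 2 * k ≤ n → (z k).re ≤ 0 := by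
    intro k _ hk2
    have hk : k ≤ n := by omega
    have h1 := hz.lim k hk
    have h2 : (fun τ : ℂ => W (t0 + k + τ)) = fun τ : ℂ => W (((t0 + k : ℝ) : ℂ) + τ) := by
      funext τ
      push_cast
      rfl
    rw [h2] at h1
    refine NoX.re_le (fun t ht h0 => W_left hp hpr hD hV hW ht h0) ?_ h1
    rw [hz.t0_eq]
    have : (2 : ℝ) * k ≤ n := by exact_mod_cast hk2
    linarith
  have hI := chain_ineq hp hpr (w := fun k => deriv (F k) 0 / deriv (F 0) 0) hz.two hz.zero hz.last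
    hz.up hz.sym hre hw0 hw hwn hA' hang
  exact triangle_contra hp hpr (hz.up 1 Nat.one_pos hn1) (hre 1 Nat.one_pos (by omega)) hz.first hI

end XO

end Pool.Agent.MP_ae5b4e_an_ALG
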