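import Mathlib
import Pool.Agent.Lib.MP_ae5b4e_an_ALG.Defs
import Pool.Agent.Lib.MP_ae5b4e_an_ALG.Lim
import Pool.Agent.Lib.MP_ae5b4e_an_ALG.Far
import Pool.Agent.Lib.MP_ae5b4e_an_ALG.Dyn

/-!
# MP_ae5b4e_an, algebraic tables: the real values `y < r` (case `ε = -1`, `c = -r`)
-/

set_option autoImplicit false

noncomputable section

namespace Pool.Agent.MP_ae5b4e_an_ALG

open Filter Topology Set Metric Complex
open scoped Real

section VQ

variable {p r D R : ℝ} {V W : ℂ → ℂ}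

/-- one step of the chain -/
theorem RealNeg.step_neg (hp : 0 < p) (hpr : p < r) (hW : Ext p r (-r) (-1) V W) {y₀ y₁ b : ℝ}
    (h0 : y₀ < r) (h1 : y₁ < -p) (hH : Hb p r y₁ = Hb p r ((-y₀ + 2 * r : ℝ) : ℂ))
    (hb : Tendsto W (𝓝[UP] (b : ℂ)) (𝓝 (y₁ : ℂ))) :
    Tendsto W (𝓝[UP] ((b + 1 : ℝ) : ℂ)) (𝓝 (y₀ : ℂ)) := by
  have hr : 0 < r := hp.trans hpr
  -- the shift
  have hsh : Tendsto (fun t : ℂ => t + ((-1 : ℝ) : ℂ)) (𝓝[UP] ((b + 1 : ℝ) : ℂ)) (𝓝[UP] (b : ℂ)) := by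
    refine tendsto_nhdsWithin_iff.2 ⟨?_, ?_⟩
    · have h2 : Tendsto (fun t : ℂ => t + ((-1 : ℝ) : ℂ)) (𝓝 ((b + 1 : ℝ) : ℂ))
          (𝓝 (((b + 1 : ℝ) : ℂ) + ((-1 : ℝ) : ℂ))) := (continuous_add_const _).tendsto _
      have h3 : ((b + 1 : ℝ) : ℂ) + ((-1 : ℝ) : ℂ) = (b : ℂ) := by
        push_cast
        ring
      rw [h3] at h2
      exact h2.mono_left nhdsWithin_le_nhds
    · filter_upwards [self_mem_nhdsWithin] with t ht
      have ht' : 0 < t.im := ht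
      change 0 < (t + ((-1 : ℝ) : ℂ)).im
      simpa using ht'
  have hUP : ∀ᶠ t in 𝓝[UP] ((b + 1 : ℝ) : ℂ), t ∈ UP := self_mem_nhdsWithin
  have hWs : Tendsto (fun t : ℂ => W (t + ((-1 : ℝ) : ℂ))) (𝓝[UP] ((b + 1 : ℝ) : ℂ)) (𝓝[UP] (y₁ : ℂ)) := by
    refine tendsto_nhdsWithin_iff.2 ⟨hb.comp hsh, ?_⟩
    filter_upwards [hUP] with t ht
    refine hW.up _ ?_
    have ht' : 0 < t.im := ht
    change 0 < (t + ((-1 : ℝ) : ℂ)).im
    simpa using ht'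
  have hy1 : (y₁ : ℂ) ∈ Dm p r := Or.inr (Or.inl (by simpa using h1))
  have hcont : ContinuousAt (Hf p r) (y₁ : ℂ) := (Hf_deriv hp hr hy1).continuousAt
  have hHs : Tendsto (fun t : ℂ => Hf p r (W (t + ((-1 : ℝ) : ℂ)))) (𝓝[UP] ((b + 1 : ℝ) : ℂ))
      (𝓝 (Hb p r y₁)) := by
    rw [Hb_eq hp hr hy1]
    exact (hcont.tendsto.mono_left nhdsWithin_le_nhds).comp hWs
  have him : ∀ᶠ t in 𝓝[UP] ((b + 1 : ℝ) : ℂ), (Hf p r (W (t + ((-1 : ℝ) : ℂ)))).im < 0 :=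
    hWs.eventually (Hf_side1 hp hr h1.le)
  have hreal : (starRingEnd ℂ) (Hb p r y₁) = Hb p r ((-y₀ + 2 * r : ℝ) : ℂ) := by
    rw [← hH]
    exact Complex.conj_eq_iff_im.2 (Hb_I14 hp hr (Or.inl h1)).1
  -- the reflected function
  set v : ℂ → ℂ := fun t => -(starRingEnd ℂ) (W t) + 2 * (r : ℂ) with hv
  have hvup : ∀ᶠ t in 𝓝[UP] ((b + 1 : ℝ) : ℂ), v t ∈ UP := by
    filter_upwards [hUP] with t ht
    have h2 : 0 < (W t).im := hW.up t ht
    change 0 < (v t).im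
    rw [hv]
    simpa using h2
  have hHv : ∀ᶠ t in 𝓝[UP] ((b + 1 : ℝ) : ℂ),
      Hf p r (v t) = (starRingEnd ℂ) (Hf p r (W (t + ((-1 : ℝ) : ℂ)))) := by
    filter_upwards [hUP, hvup] with t ht hvt
    rw [hW.step t ht, ← Hf_conj hp hr (V := -W t - 2 * ((-r : ℝ) : ℂ))]
    · congr 1
      simp only [hv, map_sub, map_neg, map_mul, Complex.conj_ofReal, map_ofNat]
      push_cast
      ring
    · refine Or.inl ?_
      have h2 : 0 < (W t).im := hW.up t ht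
      simp
      exact h2.ne'
  have hlim : Tendsto v (𝓝[UP] ((b + 1 : ℝ) : ℂ)) (𝓝 (((-y₀ + 2 * r : ℝ)) : ℂ)) := by
    refine lim_4 hp hr hvup (by linarith) ?_ ?_
    · rw [← hreal]
      exact ((Complex.continuous_conj.tendsto _).comp hHs).congr' (hHv.mono fun t ht => ht.symm)
    · filter_upwards [hHv, him] with t ht hi
      rw [ht, Complex.conj_im]
      linarith
  have h2 : Tendsto (fun t => 2 * (r : ℂ) - (starRingEnd ℂ) (v t)) (𝓝[UP] ((b + 1 : ℝ) : ℂ))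
      (𝓝 (2 * (r : ℂ) - (starRingEnd ℂ) (((-y₀ + 2 * r : ℝ)) : ℂ))) :=
    tendsto_const_nhds.sub ((Complex.continuous_conj.tendsto _).comp hlim)
  have h3 : (2 * (r : ℂ) - (starRingEnd ℂ) (((-y₀ + 2 * r : ℝ)) : ℂ)) = (y₀ : ℂ) := by
    rw [Complex.conj_ofReal]
    push_cast
    ring
  rw [h3] at h2
  refine h2.congr fun t => ?_
  simp only [hv, map_add, map_neg, Complex.conj_conj, map_mul, Complex.conj_ofReal, map_ofNat]
  ring

theorem real_neg (hp : 0 < p) (hpr : p < r) (hD : 0 < D) (hV : SHM p r (-r) D (-1) R V)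
    (hW : Ext p r (-r) (-1) V W) {y : ℝ} (hy : y < r) :
    ∃ a : ℝ, Tendsto W (𝓝[UP] (a : ℂ)) (𝓝 (y : ℂ)) := by
  have hr : 0 < r := hp.trans hpr
  obtain ⟨u, hu0, hu, hlim⟩ := orbit_neg hp hpr hy
  obtain ⟨R0, hfar⟩ := hW.far
  obtain ⟨Y, -, hY⟩ := hV.onto hp hr hD R0
  have hlt : ∀ n, u n < r := by
    intro n
    cases n with
    | zero => rw [hu0]; exact hy
    | succ n => have := (hu n).1; linarith
  -- a point far out
  obtain ⟨n, hn⟩ := (hlim.eventually (eventually_lt_atBot (-Y))).exists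
  obtain ⟨t, ht1, ht2, ht3⟩ := hY (u n) hn
  have hnorm : ‖(t : ℂ)‖ = |t| := by rw [Complex.norm_real, Real.norm_eq_abs]
  have hbase : Tendsto W (𝓝[UP] (t : ℂ)) (𝓝 (u n : ℂ)) := by
    have h1 : Tendsto V (𝓝 (t : ℂ)) (𝓝 (u n : ℂ)) := by
      rw [← ht3]
      refine (hV.diff (t : ℂ) ?_).continuousAt.tendsto
      rw [hnorm]
      have := neg_abs_le t
      linarith
    refine (h1.mono_left nhdsWithin_le_nhds).congr' ?_
    have h2 : ∀ᶠ s in 𝓝 (t : ℂ), R0 < ‖s‖ := by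
      have h3 : R0 < ‖(t : ℂ)‖ := by
        rw [hnorm]
        have := neg_abs_le t
        linarith
      exact continuous_norm.continuousAt.eventually (lt_mem_nhds h3)
    filter_upwards [self_mem_nhdsWithin, mem_nhdsWithin_of_mem_nhds h2] with s hs hs2
    exact (hfar s hs hs2).symm
  have key : ∀ n (b : ℝ), Tendsto W (𝓝[UP] (b : ℂ)) (𝓝 (u n : ℂ)) →
      ∃ a : ℝ, Tendsto W (𝓝[UP] (a : ℂ)) (𝓝 (u 0 : ℂ)) := by
    intro n
    induction n with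
    | zero => exact fun b hb => ⟨b, hb⟩
    | succ n ih =>
      intro b hb
      exact ih (b + 1) (RealNeg.step_neg hp hpr hW (hlt n) (hu n).1 (hu n).2 hb)
  obtain ⟨a, ha⟩ := key n t hbase
  exact ⟨a, by rwa [hu0] at ha⟩

end VQ

end Pool.Agent.MP_ae5b4e_an_ALG
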