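import Mathlib
import Pool.Agent.Lib.MP_ae5b4e_an_ALG.Defs
import Pool.Agent.Lib.MP_ae5b4e_an_ALG.HfA
import Pool.Agent.Lib.MP_ae5b4e_an_ALG.Bdry
import Pool.Agent.Lib.MP_ae5b4e_an_ALG.Far
import Pool.Agent.Lib.MP_ae5b4e_an_ALG.ExtB
import Pool.Agent.Lib.MP_ae5b4e_an_ALG.RealPos
import Pool.Agent.Lib.MP_ae5b4e_an_ALG.RealNeg

/-!
# MP_ae5b4e_an, algebraic tables: type `Z²` does not occur
-/

set_option autoImplicit false
noncomputable section
namespace Pool.Agent.MP_ae5b4e_an_ALG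
open Filter Topology Set Metric Complex
open scoped Real

namespace VR

theorem UP_neBot (a : ℝ) : (𝓝[UP] (a : ℂ)).NeBot := by
  rw [← mem_closure_iff_nhdsWithin_neBot]
  rw [Metric.mem_closure_iff]
  intro ε hε
  refine ⟨(a : ℂ) + ((ε / 2 : ℝ) : ℂ) * I, ?_, ?_⟩
  · show 0 < ((a : ℂ) + ((ε / 2 : ℝ) : ℂ) * I).im
    simp
    linarith
  · rw [dist_eq]
    have : (a : ℂ) - ((a : ℂ) + ((ε / 2 : ℝ) : ℂ) * I) = -(((ε / 2 : ℝ) : ℂ) * I) := by ring
    rw [this, norm_neg, norm_mul, norm_I, mul_one, norm_real, Real.norm_eq_abs,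
      abs_of_pos (by linarith)]
    linarith

/-- a real boundary value in `(-p, 0)` is impossible if `p < r` -/
theorem no_val {p r c ε a y : ℝ} {V W : ℂ → ℂ} (hp : 0 < p) (hpr : p < r)
    (hW : Ext p r c ε V W) (hy0 : -p < y) (hy1 : y < 0)
    (hl : Tendsto W (𝓝[UP] (a : ℂ)) (𝓝 (y : ℂ))) : False := by
  have hr : 0 < r := hp.trans hpr
  have := UP_neBot a
  set S : Set ℂ := {V : ℂ | 0 ≤ V.im ∧ V ≠ 0 ∧ V ≠ -p ∧ V ≠ r} with hS
  have hyS : (y : ℂ) ∈ S := by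
    refine ⟨by simp, ?_, ?_, ?_⟩
    · exact_mod_cast hy1.ne
    · intro h
      have h2 : y = -p := by exact_mod_cast h
      linarith
    · intro h
      have h2 : y = r := by exact_mod_cast h
      linarith
  have hWS : ∀ᶠ t in 𝓝[UP] (a : ℂ), W t ∈ S := by
    filter_upwards [self_mem_nhdsWithin] with t ht
    have h1 : 0 < (W t).im := hW.up t ht
    refine ⟨h1.le, ?_, ?_, ?_⟩
    · intro h
      rw [h] at h1
      simp at h1
    · intro h
      rw [h] at h1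
      simp at h1
    · intro h
      rw [h] at h1
      simp at h1
  have hc : Tendsto (fun t => Hb p r (W t)) (𝓝[UP] (a : ℂ)) (𝓝 (Hb p r y)) := by
    have h1 : ContinuousWithinAt (Hb p r) S (y : ℂ) := Hb_contOn hp hr _ hyS
    exact h1.tendsto.comp (tendsto_nhdsWithin_iff.2 ⟨hl, hWS⟩)
  have him : Tendsto (fun t => |(Hb p r (W t)).im|) (𝓝[UP] (a : ℂ)) (𝓝 |(Hb p r y).im|) :=
    ((continuous_im.tendsto _).comp hc).abs
  have hle : |(Hb p r y).im| ≤ p * π := by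
    refine le_of_tendsto him ?_
    filter_upwards [self_mem_nhdsWithin] with t ht
    rw [Hb_eq hp hr (UP_subset_Dm (hW.up t ht))]
    exact (hW.strip t ht).le
  rw [Hb_I2 hp hr hy0 hy1, abs_neg, abs_of_pos (mul_pos hr Real.pi_pos)] at hle
  have := mul_lt_mul_of_pos_right hpr Real.pi_pos
  linarith

end VR

section VR
variable {p r D R : ℝ} {V : ℂ → ℂ}

/-- type `Z²` -/
theorem no_shm_Z (hp : 0 < p) (hr : 0 < r) (hne : p ≠ r) (hD : 0 < D) :
    ¬ SHM p r p D 1 R V := by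
  intro hV
  rcases lt_or_gt_of_ne hne with hpr | hrp
  · obtain ⟨W, hW⟩ := exists_ext hp hpr hD (Or.inl ⟨rfl, hp.le⟩) hV
    obtain ⟨a, Vr, hR⟩ := real_pos hp hpr hD hp.le hV hW (y := -p / 2) (by linarith)
    refine VR.no_val (a := a) (y := -p / 2) hp hpr hW (by linarith) (by linarith) ?_
    have h1 : Tendsto Vr (𝓝[UP] (a : ℂ)) (𝓝 (((-p / 2 : ℝ)) : ℂ)) := by
      have := hR.1.continuousAt.tendsto
      rw [hR.2.1] at this
      exact this.mono_left nhdsWithin_le_nhds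
    refine h1.congr' ?_
    filter_upwards [hR.2.2.2.2] with t ht
    exact ht.symm
  · have hV' := hV.mirror
    obtain ⟨W, hW⟩ := exists_ext hr hrp hD (Or.inr ⟨rfl, rfl⟩) hV'
    obtain ⟨a, ha⟩ := real_neg hr hrp hD hV' hW (y := -r / 2) (by linarith)
    exact VR.no_val (a := a) (y := -r / 2) hr hrp hW (by linarith) (by linarith) ha

end VR

end Pool.Agent.MP_ae5b4e_an_ALG
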