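import Pool.Agent.Lib.MP_ae5b4e_an_ALG.Time
import Pool.Agent.Lib.MP_ae5b4e_an_ALG.VHom
import Pool.Agent.Lib.MP_ae5b4e_an_ALG.NoZ
import Pool.Agent.Lib.MP_ae5b4e_an_ALG.NoX
import Pool.Agent.Lib.MP_ae5b4e_an_FLEX.Zero
import Pool.Agent.Lib.MP_ae5b4e_an_FLEX.Germ

/-!
# MP_ae5b4e_an, algebraic tables, module SC: places give uniformizing functions
-/

set_option autoImplicit false

noncomputable section

namespace Pool.Agent.MP_ae5b4e_an_ALG

open Filter Topology Set Metric Complex Polynomial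
open scoped Real
open Pool.Agent.MP_ae5b4e_an_ND (Dx Dy)
open Pool.Agent.MP_ae5b4e_an_FLEX

namespace ShmSC

/-- local injectivity -/
lemma inj_near {f : ℂ → ℂ} (hf : AnalyticAt ℂ f 0) (hf' : deriv f 0 ≠ 0) :
    ∃ g : ℂ → ℂ, ∀ᶠ x in 𝓝 (0:ℂ), g (f x) = x := by
  have h : HasStrictDerivAt f (deriv f 0) 0 := hf.hasStrictDerivAt
  exact ⟨_, h.eventually_left_inverse hf'⟩

/-- the map `η ↦ -η / (1 + η)` -/
lemma tau_tendsto : Tendsto (fun η : ℂ => -η / (1 + η)) (𝓝 0) (𝓝 0) := by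
  have h : ContinuousAt (fun η : ℂ => -η / (1 + η)) 0 := by
    refine ContinuousAt.div (by fun_prop) (by fun_prop) (by norm_num)
  have h1 := h.tendsto
  simpa using h1

lemma tau_ne : ∀ᶠ η in 𝓝[≠] (0:ℂ), -η / (1 + η) ≠ 0 := by
  have h1 : ∀ᶠ η in 𝓝 (0:ℂ), 1 + η ≠ 0 := by
    have : ContinuousAt (fun η : ℂ => 1 + η) 0 := by fun_prop
    exact this.eventually_ne (by norm_num)
  filter_upwards [nhdsWithin_le_nhds h1, self_mem_nhdsWithin] with η h2 h3
  exact div_ne_zero (neg_ne_zero.2 h3) h2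

lemma tau_tendsto' : Tendsto (fun η : ℂ => -η / (1 + η)) (𝓝[≠] 0) (𝓝[≠] 0) :=
  tendsto_nhdsWithin_iff.2 ⟨tau_tendsto.mono_left nhdsWithin_le_nhds, tau_ne⟩

/-- the second derivative of the inner function, from `f (-a) = -f` -/
lemma second_deriv {f a : ℂ → ℂ} (hf : AnalyticAt ℂ f 0) (hf1 : deriv f 0 = -1 / 2)
    (ha : AnalyticAt ℂ a 0) (ha0 : a 0 = 0) (ha1 : deriv a 0 = 1)
    (h : ∀ᶠ η in 𝓝 (0:ℂ), f (-(a η)) = -f η) :
    deriv (deriv a) 0 = -4 * deriv (deriv f) 0 := by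
  have hac : Tendsto (fun η => -(a η)) (𝓝 0) (𝓝 0) := by
    have h0 : Tendsto (fun η => -(a η)) (𝓝 0) (𝓝 (-(a 0))) := ha.continuousAt.tendsto.neg
    rwa [ha0, neg_zero] at h0
  have hfa : ∀ᶠ η in 𝓝 (0:ℂ), AnalyticAt ℂ f (-(a η)) := hac.eventually hf.eventually_analyticAt
  have h1 : ∀ᶠ η in 𝓝 (0:ℂ), deriv f (-(a η)) * -deriv a η = -deriv f η := by
    filter_upwards [h.eventually_nhds, hfa, ha.eventually_analyticAt, hf.eventually_analyticAt]
      with η h2 h3 h4 h5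
    have h6 : HasDerivAt (fun η => f (-(a η))) (deriv f (-(a η)) * -deriv a η) η := by
      have h7 : HasDerivAt (fun η => -(a η)) (-deriv a η) η :=
        h4.differentiableAt.hasDerivAt.neg
      exact HasDerivAt.comp η (h₂ := f) (h := fun η => -(a η)) h3.differentiableAt.hasDerivAt h7
    have h8 : HasDerivAt (fun η => -f η) (-deriv f η) η := h5.differentiableAt.hasDerivAt.neg
    exact (h6.congr_of_eventuallyEq (h2.mono fun x hx => hx.symm)).unique h8
  have h2 : HasDerivAt (fun η => deriv f (-(a η)) * -deriv a η)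
      (deriv (deriv f) (-(a 0)) * (-deriv a 0) * -deriv a 0 +
        deriv f (-(a 0)) * -deriv (deriv a) 0) 0 := by
    have h7 : HasDerivAt (fun η => -(a η)) (-deriv a 0) 0 := ha.differentiableAt.hasDerivAt.neg
    have h3 : AnalyticAt ℂ (deriv f) (-(a 0)) := by
      rw [ha0, neg_zero]
      exact hf.deriv
    have h4 : HasDerivAt (fun η => deriv f (-(a η))) (deriv (deriv f) (-(a 0)) * (-deriv a 0)) 0 :=
      HasDerivAt.comp 0 (h₂ := deriv f) (h := fun η => -(a η)) h3.differentiableAt.hasDerivAt h7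
    exact h4.mul ha.deriv.differentiableAt.hasDerivAt.neg
  have h3 : HasDerivAt (fun η => -deriv f η) (-deriv (deriv f) 0) 0 :=
    hf.deriv.differentiableAt.hasDerivAt.neg
  have h4 := (h2.congr_of_eventuallyEq (h1.mono fun x hx => hx.symm)).unique h3
  rw [ha0, ha1, neg_zero, hf1] at h4
  linear_combination (2 : ℂ) * h4

end ShmSC

section SC
variable {a b : ℕ} {Yf A : ℂ × ℂ → ℂ} {δ : ℝ}

theorem shm_of_place (ha : 0 < a) (hab : a < b) {c : ℝ} (hc : c = a ∨ (c = 0 ∧ 2 * a < b))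
    (hp : PlaceY Yf A δ) (hA : ∀ᶠ η in 𝓝 (0:ℂ), zet a b c (-A (0, η)) = -zet a b c η) :
    ∃ R V, SHM a ((b : ℝ) - a) c (2 * (((a : ℝ) + b) / 3 - a + c)) 1 R V := by
  obtain ⟨hζ, hζ0, hζ1, hζ2, hζr⟩ := zet_ana ha hab c
  set d : ℝ := ((a : ℝ) + b) / 3 - a + c with hd
  have haR : (0 : ℝ) < a := by exact_mod_cast ha
  obtain ⟨n, hn, hdpos, hcn⟩ : ∃ n : ℕ, (n : ℝ) = 3 * d ∧ 0 < d ∧
      ((c = a ∧ n = a + b) ∨ (c = 0 ∧ n + 2 * a = b)) := by
    rcases hc with hc | ⟨hc, h2⟩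
    · refine ⟨a + b, ?_, ?_, Or.inl ⟨hc, rfl⟩⟩
      · rw [hd, hc]
        push_cast
        ring
      · rw [hd, hc]
        have : (0 : ℝ) ≤ b := by positivity
        linarith
    · refine ⟨b - 2 * a, ?_, ?_, Or.inr ⟨hc, by omega⟩⟩
      · rw [hd, hc, Nat.cast_sub h2.le]
        push_cast
        ring
      · have h3 : (2 : ℝ) * a < b := by exact_mod_cast h2
        rw [hd, hc]
        linarith
  -- the germ of the kick
  have hδ0 : ‖(0 : ℂ)‖ < δ := by
    rw [norm_zero]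
    exact hp.δ_pos
  set al : ℂ → ℂ := fun η => A (0, η) with hal
  have hala : AnalyticAt ℂ al 0 := by
    have h1 : AnalyticAt ℂ A ((fun η : ℂ => ((0 : ℂ), η)) 0) := hp.A_ana 0 0 hδ0 hδ0
    exact h1.comp (analyticAt_const.prod analyticAt_id)
  have hal0 : al 0 = 0 := hp.A_zero 0 hδ0
  have hal1 : deriv al 0 = 1 := hp.A_der 0 hδ0
  have hA' : ∀ᶠ η in 𝓝 (0:ℂ), zet a b c (-(al η)) = -zet a b c η := hA
  have hζ1' : deriv (zet a b c) 0 ≠ 0 := by
    rw [hζ1]
    norm_num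
  obtain ⟨g, hg⟩ := ShmSC.inj_near hζ hζ1'
  have hac : Tendsto (fun η => -(al η)) (𝓝 0) (𝓝 0) := by
    have h0 : Tendsto (fun η => -(al η)) (𝓝 0) (𝓝 (-(al 0))) := hala.continuousAt.tendsto.neg
    rwa [hal0, neg_zero] at h0
  have hinv : ∀ᶠ η in 𝓝 (0:ℂ), al (-(al η)) = -η := by
    filter_upwards [hA', hac.eventually hA', hg, (hac.comp hac).eventually hg] with η h1 h2 h3 h4
    simp only [Function.comp_apply] at h4
    rw [h1, neg_neg] at h2
    rw [h2, h3] at h4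
    linear_combination h4
  have hconj : Tendsto (starRingEnd ℂ) (𝓝 0) (𝓝 (0:ℂ)) := by
    have := (Complex.continuous_conj.tendsto 0)
    simpa using this
  have har : ∀ᶠ η in 𝓝 (0:ℂ), al ((starRingEnd ℂ) η) = (starRingEnd ℂ) (al η) := by
    filter_upwards [hA', hconj.eventually hA', hζr, hac.eventually hζr,
      (hac.comp hconj).eventually hg, (hconj.comp hac).eventually hg] with η h1 h2 h3 h4 h5 h6
    simp only [Function.comp_apply] at h5 h6
    have h7 : zet a b c (-(al ((starRingEnd ℂ) η))) = zet a b c ((starRingEnd ℂ) (-(al η))) := by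
      rw [h2, h3, h4, h1, map_neg]
    rw [h7, h6, map_neg] at h5
    linear_combination h5
  have hal2 : deriv (deriv al) 0 = 2 * d - 2 := by
    rw [ShmSC.second_deriv hζ hζ1 hala hal0 hal1 hA', hζ2]
    ring
  obtain ⟨Q, hQ, hQ0, hQ1, hFI⟩ := placeY_zero hp
  have hQ1' : deriv Q 0 = 1 - d := by
    rw [hQ1, show (fun η => A (0, η)) = al from rfl, hal2]
    ring
  have hd0 : (d : ℂ) ≠ 0 := by exact_mod_cast hdpos.ne'
  have hne : deriv (deriv al) 0 ≠ -2 := by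
    rw [hal2]
    intro h
    apply hd0
    linear_combination h / 2
  have hgm := germ_main hala hal0 hal1 hne hinv hQ hQ0 hQ1 hFI (g := fun η =>
    (1 - deriv Q 0) / (η - Q η)) rfl
  have hg1 : ∀ᶠ η in 𝓝[≠] (0:ℂ), η - Q η ≠ 0 ∧
      (d : ℂ) / (η - Q η) = d / (1 + η) -
        d / (-η / (1 + η) - Q (-η / (1 + η))) / (1 + η) ^ 2 := by
    filter_upwards [hgm] with η h
    refine ⟨h.1, ?_⟩
    have h1 := h.2.1
    simp only [hQ1', sub_sub_cancel] at h1
    exact h1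
  have hg2 : ∀ᶠ η in 𝓝[≠] (0:ℂ),
      (d : ℂ) / (η - Q η) = -deriv al η * (d / (-(al η) - Q (-(al η)))) := by
    filter_upwards [hgm] with η h
    have h1 := h.2.2
    simp only [hQ1', sub_sub_cancel] at h1
    exact h1
  -- the radius
  have hev : ∀ᶠ η in 𝓝[≠] (0:ℂ), (Vh a b η + c = (zet a b c η)⁻¹) ∧
      (Vh a b (-η / (1 + η)) + c = (zet a b c (-η / (1 + η)))⁻¹) ∧
      Hf a ((b : ℝ) - a) (Vh a b (-η / (1 + η))) = Hf a ((b : ℝ) - a) (Vh a b η) := by
    filter_upwards [zet_Vh ha hab c, ShmSC.tau_tendsto'.eventually (zet_Vh ha hab c),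
      Hf_Vh ha hab] with η h1 h2 h3
    exact ⟨h1.1, h2.1, h3⟩
  rw [eventually_nhdsWithin_iff, Metric.eventually_nhds_iff] at hev
  obtain ⟨ρ, hρ, hρ'⟩ := hev
  obtain ⟨R0, hR0, U, hU, hUa, hUs⟩ := germ_time hdpos hn hala hal0 hal1 hal2 har hQ hQ0 hQ1' hg1
    hg2 hζ hζ0 hζ1 hζr hA' (zet_ID ha hab hcn) hρ
  refine ⟨R0 + 1, fun t => U t - c, by linarith, ?_, ?_, ?_, ?_, ?_⟩
  · intro t ht
    exact ((hU t (by linarith)).1).sub_const _
  · intro t ht
    simp only [(hU t (by linarith)).2.1]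
    ring
  · intro t ht
    simp only [(hU t (by linarith)).2.2.1, map_sub, Complex.conj_ofReal]
  · have h1 := hUa.sub_const (c : ℂ)
    rw [zero_sub] at h1
    refine h1.congr fun t => ?_
    push_cast
    ring
  · intro t ht
    have h1 : R0 < ‖1 - t‖ := by
      have h2 := norm_sub_norm_le t 1
      rw [norm_sub_rev t 1, norm_one] at h2
      linarith
    obtain ⟨η, h2, h3, h4, h5⟩ := hUs t (by linarith) h1
    obtain ⟨h6, h7, h8⟩ := hρ' (by simpa [dist_eq_norm] using h2) h3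
    rw [h4, inv_inv] at h6
    rw [h5, inv_inv] at h7
    have h9 : U t - c = Vh a b η := by linear_combination (-1 : ℂ) * h6
    have h10 : U (((1 : ℝ) : ℂ) - t) - c = Vh a b (-η / (1 + η)) := by
      rw [Complex.ofReal_one]
      linear_combination (-1 : ℂ) * h7
    simp only [h9, h10]
    exact h8

theorem no_place_Z (ha : 0 < a) (hab : a < b) (hne : b ≠ 2 * a) (hp : PlaceY Yf A δ)
    (hA : ∀ᶠ η in 𝓝 (0:ℂ), zet a b a (-A (0, η)) = -zet a b a η) : False := by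
  obtain ⟨R, V, h⟩ := shm_of_place ha hab (Or.inl rfl) hp hA
  have haR : (0 : ℝ) < a := by exact_mod_cast ha
  have habR : (a : ℝ) < b := by exact_mod_cast hab
  refine no_shm_Z (p := (a : ℝ)) (r := (b : ℝ) - a) haR (by linarith) ?_ ?_ h
  · intro h1
    apply hne
    have h2 : (b : ℝ) = 2 * a := by linarith
    exact_mod_cast h2
  · linarith

theorem no_place_X (ha : 0 < a) (hab : 2 * a < b) (hp : PlaceY Yf A δ)
    (hA : ∀ᶠ η in 𝓝 (0:ℂ), zet a b 0 (-A (0, η)) = -zet a b 0 η) : False := by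
  obtain ⟨R, V, h⟩ := shm_of_place ha (by omega) (Or.inr ⟨rfl, hab⟩) hp hA
  have haR : (0 : ℝ) < a := by exact_mod_cast ha
  have habR : (2 : ℝ) * a < b := by exact_mod_cast hab
  exact no_shm_X (p := (a : ℝ)) (r := (b : ℝ) - a) haR (by linarith) (by linarith) h
end SC

end Pool.Agent.MP_ae5b4e_an_ALG
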