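import Mathlib
import Pool.Agent.Lib.MP_ae5b4e_an_ALG.DefsB
import Pool.Agent.Lib.MP_ae5b4e_an_ALG.Shm
import Pool.Agent.Lib.MP_ae5b4e_an_ALG.PlaceGen
import Pool.Agent.Lib.MP_ae5b4e_an_ALG.Trans
import Pool.Agent.Lib.MP_ae5b4e_an_ALG.NoRam
import Pool.Agent.Lib.MP_ae5b4e_an_ALG.Normal

/-!
# MP_ae5b4e_an, algebraic tables: finite places
-/

set_option autoImplicit false

noncomputable section

namespace Pool.Agent.MP_ae5b4e_an_ALG

open Filter Topology Set Metric Complex Polynomial
open scoped Real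
open Pool.Agent.MP_ae5b4e_an_FLEX

namespace FinitePl

/-- dependence of the Wronskian on germs -/
lemma wr_congr {X Y Y' : ℂ → ℂ} {t : ℂ} (h : Y =ᶠ[𝓝 t] Y') : Wr X Y t = Wr X Y' t := by
  unfold Wr
  rw [h.deriv_eq, h.deriv.deriv_eq]

lemma wr_lin (N : ℕ) (e c0 c1 t : ℂ) :
    Wr (fun w => e + w ^ N) (fun w => c0 + c1 * w ^ N) t = 0 := by
  have h1 : deriv (fun w : ℂ => e + w ^ N) = fun w => deriv (fun w : ℂ => w ^ N) w := by
    funext w
    rw [deriv_const_add]
  have h2 : deriv (fun w : ℂ => c0 + c1 * w ^ N) = fun w => c1 * deriv (fun w : ℂ => w ^ N) w := by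
    funext w
    rw [deriv_const_add, deriv_const_mul]
    exact (differentiable_id.pow N).differentiableAt
  have h3 : deriv (fun w : ℂ => c1 * deriv (fun w : ℂ => w ^ N) w) t =
      c1 * deriv (fun w : ℂ => deriv (fun w : ℂ => w ^ N) w) t := by
    rw [deriv_const_mul]
    have h4 : AnalyticAt ℂ (fun w : ℂ => w ^ N) t := analyticAt_id.pow N
    exact h4.deriv.differentiableAt
  unfold Wr
  rw [h1, h2, h3]
  ring

/-- a root of unity that tends to `om` is `om` -/
lemma root_const {n : ℕ} (hn : 0 < n) {om : ℂ} {ρ : ℂ → ℂ} (hρ : Tendsto ρ (𝓝[≠] 0) (𝓝 om))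
    (h1 : ∀ᶠ z in 𝓝[≠] (0:ℂ), ρ z ^ n = 1) : ∀ᶠ z in 𝓝[≠] (0:ℂ), ρ z = om := by
  have hfin : {z : ℂ | z ^ n = 1}.Finite := by
    have h2 : {z : ℂ | z ^ n = 1} ⊆ ((Polynomial.X ^ n - 1 : ℂ[X]).roots.toFinset : Set ℂ) := by
      intro z hz
      have hz' : z ^ n = 1 := hz
      simp only [Finset.mem_coe, Multiset.mem_toFinset]
      have hX0 : (Polynomial.X ^ n - 1 : ℂ[X]) ≠ 0 := by
        have h3 := Polynomial.X_pow_sub_C_ne_zero hn (1 : ℂ)
        rwa [Polynomial.C_1] at h3
      rw [Polynomial.mem_roots hX0]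
      simp [hz']
    exact (Finset.finite_toSet _).subset h2
  have hcl : IsClosed ({z : ℂ | z ^ n = 1} \ {om}) := (hfin.subset Set.sdiff_subset).isClosed
  have hmem : ({z : ℂ | z ^ n = 1} \ {om})ᶜ ∈ 𝓝 om := by
    apply hcl.isOpen_compl.mem_nhds
    simp
  filter_upwards [hρ.eventually hmem, h1] with z h2 h3
  by_contra h4
  exact h2 ⟨h3, h4⟩

lemma deriv_ratio {ψ : ℂ → ℂ} (hψ : AnalyticAt ℂ ψ 0) (h0 : ψ 0 = 0) (h1 : deriv ψ 0 ≠ 0) (om : ℂ) :
    Tendsto (fun z => ψ (om * z) / ψ z) (𝓝[≠] 0) (𝓝 om) := by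
  have hd : HasDerivAt ψ (deriv ψ 0) 0 := hψ.differentiableAt.hasDerivAt
  have ha : Tendsto (fun z => ψ z / z) (𝓝[≠] 0) (𝓝 (deriv ψ 0)) := by
    have h2 := hd.tendsto_slope_zero
    refine h2.congr fun z => ?_
    simp [h0, div_eq_inv_mul]
  have hd2 : HasDerivAt (fun z => ψ (om * z)) (deriv ψ 0 * om) 0 := by
    have h3 : HasDerivAt (fun z : ℂ => om * z) om 0 := by
      simpa using (hasDerivAt_id (0:ℂ)).const_mul om
    have h4 : HasDerivAt ψ (deriv ψ 0) (om * 0) := by rw [mul_zero]; exact hd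
    exact h4.comp (0:ℂ) h3
  have hb : Tendsto (fun z => ψ (om * z) / z) (𝓝[≠] 0) (𝓝 (deriv ψ 0 * om)) := by
    have h2 := hd2.tendsto_slope_zero
    refine h2.congr fun z => ?_
    simp [h0, div_eq_inv_mul]
  have hc := hb.div ha h1
  have he : deriv ψ 0 * om / deriv ψ 0 = om := by field_simp
  rw [he] at hc
  refine hc.congr' ?_
  filter_upwards [self_mem_nhdsWithin] with z hz
  have hz' : z ≠ 0 := hz
  simp only [Pi.div_apply]
  rw [div_div_div_cancel_right₀ hz']

/-- the symmetry of `v = 1 / f(ψ) ^ 2` is a symmetry of `f` -/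
lemma sym_of_root {k : ℕ} (hk : 0 < k) {f ψ : ℂ → ℂ} {om : ℂ} (hom : om ^ k = 1)
    (hf : AnalyticAt ℂ f 0) (hf0 : f 0 ≠ 0)
    (hψ : AnalyticAt ℂ ψ 0) (hψ0 : ψ 0 = 0) (hψ1 : deriv ψ 0 ≠ 0)
    (hψk : ∀ᶠ z in 𝓝 (0:ℂ), ψ z ^ k * f (ψ z) = z ^ k)
    (hv : ∀ᶠ z in 𝓝 (0:ℂ), (f (ψ (om * z)) ^ 2)⁻¹ = (f (ψ z) ^ 2)⁻¹) :
    ∀ᶠ w in 𝓝 (0:ℂ), f (om * w) = f w := by
  have hψt : Tendsto ψ (𝓝 0) (𝓝 0) := by
    have := hψ.continuousAt.tendsto
    rwa [hψ0] at this
  have homt : Tendsto (fun z : ℂ => om * z) (𝓝 0) (𝓝 0) := by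
    have : Tendsto (fun z : ℂ => om * z) (𝓝 0) (𝓝 (om * 0)) :=
      (continuous_const.mul continuous_id).tendsto 0
    rwa [mul_zero] at this
  have hne : ∀ᶠ z in 𝓝[≠] (0:ℂ), ψ z ≠ 0 := by
    filter_upwards [hψk.filter_mono nhdsWithin_le_nhds, self_mem_nhdsWithin] with z hz hz0 h1
    rw [h1, zero_pow hk.ne', zero_mul] at hz
    exact hz0 (pow_eq_zero_iff hk.ne' |>.1 hz.symm)
  have hroot : ∀ᶠ z in 𝓝[≠] (0:ℂ), (ψ (om * z) / ψ z) ^ (2 * k) = 1 := by
    filter_upwards [hψk.filter_mono nhdsWithin_le_nhds,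
      (homt.eventually hψk).filter_mono nhdsWithin_le_nhds,
      hv.filter_mono nhdsWithin_le_nhds, hne,
      (hψt.eventually (hf.continuousAt.eventually_ne hf0)).filter_mono nhdsWithin_le_nhds,
      ((hψt.comp homt).eventually (hf.continuousAt.eventually_ne hf0)).filter_mono
        nhdsWithin_le_nhds] with z h1 h2 h3 h4 h5 h6
    have h6' : f (ψ (om * z)) ≠ 0 := h6
    have h3' : f (ψ (om * z)) ^ 2 = f (ψ z) ^ 2 := inv_injective h3
    rw [mul_pow, hom, one_mul] at h2
    have h7 : (ψ (om * z) ^ k) ^ 2 * f (ψ (om * z)) ^ 2 = (ψ z ^ k) ^ 2 * f (ψ z) ^ 2 := by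
      rw [← mul_pow, ← mul_pow, h1, h2]
    rw [h3'] at h7
    have h8 : (ψ (om * z) ^ k) ^ 2 = (ψ z ^ k) ^ 2 := mul_right_cancel₀ (pow_ne_zero 2 h5) h7
    rw [div_pow, div_eq_one_iff_eq (pow_ne_zero _ h4), mul_comm 2 k, pow_mul, pow_mul]
    exact h8
  have hrho := root_const (by omega : 0 < 2 * k) (deriv_ratio hψ hψ0 hψ1 om) hroot
  have hcomm : ∀ᶠ z in 𝓝 (0:ℂ), ψ (om * z) = om * ψ z := by
    have h1 : ∀ᶠ z in 𝓝[≠] (0:ℂ), ψ (om * z) = om * ψ z := by
      filter_upwards [hrho, hne] with z h2 h3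
      exact (div_eq_iff h3).1 h2
    rw [eventually_nhdsWithin_iff] at h1
    filter_upwards [h1] with z h2
    by_cases hz : z = 0
    · rw [hz, mul_zero, hψ0, mul_zero]
    · exact h2 hz
  have hmain : ∀ᶠ z in 𝓝 (0:ℂ), f (om * ψ z) = f (ψ z) := by
    filter_upwards [hcomm, hψk, homt.eventually hψk, hrho.and hne |> eventually_nhdsWithin_iff.1]
      with z h1 h2 h3 h4
    by_cases hz : z = 0
    · rw [hz, hψ0, mul_zero]
    · have h5 := (h4 hz).2
      rw [h1, mul_pow, hom, one_mul, mul_pow, hom, one_mul, ← h2] at h3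
      exact mul_left_cancel₀ (pow_ne_zero k h5) h3
  have hmap : Filter.map ψ (𝓝 0) = 𝓝 0 := by
    have h1 := hψ.hasStrictDerivAt.map_nhds_eq hψ1
    rwa [hψ0] at h1
  rw [← hmap]
  exact Filter.eventually_map.2 hmain

end FinitePl

open FinitePl in
/-- finite places -/
theorem fin_place {N : ℕ} (hN : 0 < N) {e : ℂ} {h : ℂ → ℂ} (hh : AnalyticAt ℂ h 0)
    (hprim : ∀ om : ℂ, om ^ N = 1 → (∀ᶠ w in 𝓝 (0:ℂ), h (om * w) = h w) → om = 1)
    (hg : ∀ᶠ s in 𝓝[≠] (0:ℂ), GoodG (fun w => e + w ^ N) h (fun _ => 0) s) :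
    Wr (fun w => e + w ^ N) h 0 ≠ 0 := by
  have hne : ¬ ∃ c0 c1 : ℂ, ∀ᶠ w in 𝓝 (0:ℂ), h w = c0 + c1 * w ^ N := by
    rintro ⟨c0, c1, hc⟩
    obtain ⟨s, hs1, hs2⟩ :=
      (hg.and (hc.eventually_nhds.filter_mono nhdsWithin_le_nhds)).exists
    have h1 : Wr (fun w => e + w ^ N) h s = 0 := by
      have h2 : h =ᶠ[𝓝 s] fun w => c0 + c1 * w ^ N := hs2
      rw [wr_congr h2, wr_lin]
    exact hs1.1.2.2.2 h1
  obtain ⟨c0, c1, j, f, hj, hjN, hf, hf0, hfe⟩ := place_type hN hh hne
  -- the normal form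
  have hg1 : ∀ᶠ s in 𝓝[≠] (0:ℂ), GoodG (fun w => w ^ N) (fun w => w ^ j * f w) (fun _ => 0) s := by
    filter_upwards [hg, hfe.eventually_nhds.filter_mono nhdsWithin_le_nhds] with s h1 h2
    have h3 := goodG_affine (α := 1) (β := 0) (γ := -e) (α' := -c1) (β' := 1) (γ' := c1 * e - c0) h1
      (by simp)
    refine goodG_congr h3 ?_ ?_ (EventuallyEq.refl _ _)
    · exact Eventually.of_forall fun w => by ring
    · filter_upwards [h2] with w hw
      rw [hw]
      ring
  rcases lt_or_gt_of_ne hjN with hlt | hgt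
  · -- `j < N`
    have hg2 : ∀ᶠ s in 𝓝[≠] (0:ℂ),
        GoodG (fun w => w ^ j * f w) (fun w => w ^ N) (fun _ => 0) s := by
      filter_upwards [hg1] with s h1
      have h3 := goodG_affine (α := 0) (β := 1) (γ := 0) (α' := 1) (β' := 0) (γ' := 0) h1
        (by simp)
      refine goodG_congr h3 ?_ ?_ (EventuallyEq.refl _ _)
      · exact Eventually.of_forall fun w => by ring
      · exact Eventually.of_forall fun w => by ring
    by_cases hb : N = 2 * j
    · by_cases hj1 : j = 1
      · -- `N = 2`, `j = 1`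
        subst hj1
        have hN2 : N = 2 := by omega
        subst hN2
        have e1 : h =ᶠ[𝓝 0] fun w => c0 + c1 * w ^ 2 + w * f w := by
          filter_upwards [hfe] with w hw
          rw [hw, pow_one]
        have hX : deriv (fun w : ℂ => e + w ^ 2) = fun w => 2 * w := by
          funext w
          simp
        have hX2 : deriv (fun w : ℂ => 2 * w) 0 = 2 := by
          simpa using ((hasDerivAt_id (0:ℂ)).const_mul 2).deriv
        have hY : deriv h 0 = f 0 := by
          rw [e1.deriv_eq]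
          have h1 : HasDerivAt (fun w : ℂ => c0 + c1 * w ^ 2 + w * f w)
              (c1 * (2 * 0 ^ 1 * 1) + (1 * f 0 + 0 * deriv f 0)) 0 := by
            refine HasDerivAt.add ?_ ((hasDerivAt_id (0:ℂ)).mul hf.differentiableAt.hasDerivAt)
            refine HasDerivAt.const_add _ (HasDerivAt.const_mul _ ?_)
            simpa using (hasDerivAt_id (0:ℂ)).fun_pow 2
          rw [h1.deriv]
          ring
        unfold Wr
        rw [hX, hX2, hY]
        simp [hf0]
      · -- `N = 2 j`, `2 ≤ j`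
        exfalso
        have hk : 2 ≤ j := by omega
        subst hb
        obtain ⟨ψ, hψ, hψ0, hψ1, hψk⟩ := exists_root_coord hj hf hf0
        have hψt : Tendsto ψ (𝓝 0) (𝓝 0) := by
          have := hψ.continuousAt.tendsto
          rwa [hψ0] at this
        have hψne : ∀ᶠ z in 𝓝[≠] (0:ℂ), ψ z ≠ 0 := by
          filter_upwards [hψk.filter_mono nhdsWithin_le_nhds, self_mem_nhdsWithin] with z hz hz0 h1
          rw [h1, zero_pow hj.ne', zero_mul] at hz
          exact hz0 (pow_eq_zero_iff hj.ne' |>.1 hz.symm)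
        have hψt' : Tendsto ψ (𝓝[≠] 0) (𝓝[≠] 0) := by
          refine tendsto_nhdsWithin_iff.2 ⟨hψt.mono_left nhdsWithin_le_nhds, ?_⟩
          filter_upwards [hψne] with z hz using hz
        have hfψ : AnalyticAt ℂ (fun z => f (ψ z)) 0 := by
          have h1 : AnalyticAt ℂ f (ψ 0) := by rw [hψ0]; exact hf
          exact h1.fun_comp hψ
        have hv : AnalyticAt ℂ (fun z => (f (ψ z) ^ 2)⁻¹) 0 := by
          refine (hfψ.pow 2).inv ?_
          simp only [Pi.pow_apply, hψ0]
          exact pow_ne_zero 2 hf0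
        have hg3 : ∀ᶠ s in 𝓝[≠] (0:ℂ), GoodG (fun w => w ^ j)
            (fun w => w ^ (2 * j) * (f (ψ w) ^ 2)⁻¹) (fun _ => 0) s := by
          have hψ' : ∀ᶠ z in 𝓝 (0:ℂ), deriv ψ z ≠ 0 :=
            hψ.deriv.continuousAt.eventually_ne hψ1
          filter_upwards [hψt'.eventually hg2, hψk.eventually_nhds.filter_mono nhdsWithin_le_nhds,
            hψ'.filter_mono nhdsWithin_le_nhds,
            hψ.eventually_analyticAt.filter_mono nhdsWithin_le_nhds,
            (hψt.eventually (hf.continuousAt.eventually_ne hf0)).eventually_nhds.filter_mono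
              nhdsWithin_le_nhds] with s h1 h2 h3 h4 h5
          have h6 := goodG_comp h4 h3 h1
          refine goodG_congr h6 ?_ ?_ ?_
          · filter_upwards [h2] with w hw
            simpa using hw
          · filter_upwards [h2, h5] with w hw hw2
            have h7 : ψ w ^ (2 * j) * f (ψ w) ^ 2 = w ^ (2 * j) := by
              rw [mul_comm 2 j, pow_mul, pow_mul, ← mul_pow, hw]
            simp only [Function.comp_apply]
            rw [← h7]
            field_simp
          · exact Eventually.of_forall fun w => by simp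
        have hom := Complex.isPrimitiveRoot_exp j (by omega)
        set om : ℂ := Complex.exp (2 * π * I / j) with homdef
        refine no_ram hk hv (by simp only [hψ0]; exact inv_ne_zero (pow_ne_zero 2 hf0))
          hom.pow_eq_one ?_ hg3
        intro hsym
        have hs := sym_of_root hj hom.pow_eq_one hf hf0 hψ hψ0 hψ1 hψk hsym
        refine hom.ne_one (by omega) (hprim om ?_ ?_)
        · rw [mul_comm, pow_mul, hom.pow_eq_one, one_pow]
        · have homt : Tendsto (fun z : ℂ => om * z) (𝓝 0) (𝓝 0) := by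
            have : Tendsto (fun z : ℂ => om * z) (𝓝 0) (𝓝 (om * 0)) :=
              (continuous_const.mul continuous_id).tendsto 0
            rwa [mul_zero] at this
          filter_upwards [hs, hfe, homt.eventually hfe] with w h1 h2 h3
          rw [h2, h3, h1, mul_pow, mul_pow, mul_comm 2 j, pow_mul om, hom.pow_eq_one, one_pow,
            one_mul, one_mul]
    · -- `N ≠ 2 j`
      exfalso
      obtain ⟨Yf, A, m, δ, hp, -, -, -, hA⟩ := place_gen (c := (j : ℝ)) (x1 := f) (y1 := fun _ => 1)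
        (k := fun _ => 0) hj hlt hf hf0 (Eventually.of_forall fun w => rfl) analyticAt_const
        one_ne_zero (Eventually.of_forall fun w => (mul_one _).symm) analyticAt_const
        (by push_cast; ring) (Eventually.of_forall fun w => by simp) hg2
      exact no_place_Z hj hlt hb hp hA
  · -- `N < j`
    by_cases hb : j = 2 * N
    · by_cases hN1 : N = 1
      · -- `N = 1`, `j = 2`
        subst hN1
        have hj2 : j = 2 := by omega
        subst hj2
        have e1 : h =ᶠ[𝓝 0] fun w => c0 + c1 * w + w ^ 2 * f w := by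
          filter_upwards [hfe] with w hw
          rw [hw, pow_one]
        have hX : deriv (fun w : ℂ => e + w ^ 1) = fun w => 1 := by
          funext w
          simp
        have hY1 : deriv h =ᶠ[𝓝 0] fun w => c1 + (2 * w * f w + w ^ 2 * deriv f w) := by
          filter_upwards [e1.eventually_nhds, hf.eventually_analyticAt] with w h1 h2
          have h3 : h =ᶠ[𝓝 w] fun w => c0 + c1 * w + w ^ 2 * f w := h1
          rw [h3.deriv_eq]
          have h4 : HasDerivAt (fun w : ℂ => c0 + c1 * w + w ^ 2 * f w)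
              (c1 * 1 + (2 * w ^ 1 * 1 * f w + w ^ 2 * deriv f w)) w := by
            refine HasDerivAt.add ?_ (HasDerivAt.mul ?_ h2.differentiableAt.hasDerivAt)
            · exact HasDerivAt.const_add _ (HasDerivAt.const_mul _ (hasDerivAt_id w))
            · simpa using (hasDerivAt_id w).fun_pow 2
          rw [h4.deriv]
          ring
        have hY2 : deriv (deriv h) 0 = 2 * f 0 := by
          rw [hY1.deriv_eq]
          have h4 : HasDerivAt (fun w : ℂ => c1 + (2 * w * f w + w ^ 2 * deriv f w))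
              ((2 * 1 * f 0 + 2 * 0 * deriv f 0) + (2 * 0 ^ 1 * 1 * deriv f 0 +
                0 ^ 2 * deriv (deriv f) 0)) 0 := by
            refine HasDerivAt.const_add _ (HasDerivAt.add ?_ ?_)
            · exact HasDerivAt.mul (HasDerivAt.const_mul _ (hasDerivAt_id _))
                hf.differentiableAt.hasDerivAt
            · refine HasDerivAt.mul ?_ hf.deriv.differentiableAt.hasDerivAt
              simpa using (hasDerivAt_id (0:ℂ)).fun_pow 2
          rw [h4.deriv]
          ring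
        unfold Wr
        rw [hX, hY2]
        simp [hf0]
      · -- `j = 2 N`, `2 ≤ N`
        exfalso
        subst hb
        have hom := Complex.isPrimitiveRoot_exp N (by omega)
        set om : ℂ := Complex.exp (2 * π * I / N) with homdef
        refine no_ram (by omega) hf hf0 hom.pow_eq_one ?_ hg1
        intro hs
        refine hom.ne_one (by omega) (hprim om hom.pow_eq_one ?_)
        have homt : Tendsto (fun z : ℂ => om * z) (𝓝 0) (𝓝 0) := by
          have : Tendsto (fun z : ℂ => om * z) (𝓝 0) (𝓝 (om * 0)) :=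
            (continuous_const.mul continuous_id).tendsto 0
          rwa [mul_zero] at this
        filter_upwards [hs, hfe, homt.eventually hfe] with w h1 h2 h3
        rw [h2, h3, h1, mul_pow, mul_pow, mul_comm 2 N, pow_mul om, hom.pow_eq_one, one_pow,
          one_mul, one_mul]
    · exfalso
      obtain ⟨Yf, A, m, δ, hp, -, -, -, hA⟩ := place_gen (c := (N : ℝ)) (x1 := fun _ => 1) (y1 := f)
        (k := fun _ => 0) hN hgt analyticAt_const one_ne_zero
        (Eventually.of_forall fun w => (mul_one _).symm) hf hf0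
        (Eventually.of_forall fun w => rfl) analyticAt_const
        (by push_cast; ring) (Eventually.of_forall fun w => by simp) hg1
      exact no_place_Z hN hgt hb hp hA

end Pool.Agent.MP_ae5b4e_an_ALG
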