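import Pool.Agent.Lib.MP_ae5b4e_an_ALG.Shm
import Pool.Agent.Lib.MP_ae5b4e_an_ALG.PlaceGen
import Pool.Agent.Lib.MP_ae5b4e_an_ALG.Trans
import Pool.Agent.Lib.MP_ae5b4e_an_ALG.Normal

/-!
# MP_ae5b4e_an, algebraic tables: places at infinity
-/

set_option autoImplicit false

noncomputable section

namespace Pool.Agent.MP_ae5b4e_an_ALG

open Filter Topology Set Metric Complex Polynomial
open scoped Real
open Pool.Agent.MP_ae5b4e_an_FLEX

namespace Infin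

theorem deriv_pow' (N : ℕ) (s : ℂ) : deriv (fun w : ℂ => w ^ N) s = N * s ^ (N - 1) := by
  simp

/-- the logarithmic derivative of `(w ^ N)⁻¹` -/
theorem logder {N : ℕ} (hN : 0 < N) {s : ℂ} (hs : s ≠ 0) :
    (0:ℂ) + 2 * deriv (fun w : ℂ => (w ^ N)⁻¹) s / (s ^ N)⁻¹ = -2 * N / s := by
  have hsN : s ^ N ≠ 0 := pow_ne_zero _ hs
  have hd : HasDerivAt (fun w : ℂ => (w ^ N)⁻¹) (-(N * s ^ (N - 1)) / (s ^ N) ^ 2) s :=
    (hasDerivAt_pow N s).inv hsN
  rw [hd.deriv]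
  have hp : s ^ N = s ^ (N - 1) * s := by
    rw [← pow_succ, Nat.sub_add_cancel hN]
  have hs1 : s ^ (N - 1) ≠ 0 := pow_ne_zero _ hs
  rw [hp]
  field_simp
  ring

/-- after the projective change -/
theorem good1 {N : ℕ} (hN : 0 < N) {yh : ℂ → ℂ} {s : ℂ} (hs : s ≠ 0)
    (hg : GoodG (fun w => (w ^ N)⁻¹) (fun w => yh w / w ^ N) (fun _ => 0) s) :
    GoodG (fun w => w ^ N) yh (fun w => -2 * N / w) s := by
  have hsN : s ^ N ≠ 0 := pow_ne_zero _ hs
  have h := goodG_proj hg (inv_ne_zero hsN)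
  have hne : ∀ᶠ w in 𝓝 s, w ≠ 0 := isOpen_ne.mem_nhds hs
  refine goodG_congr h ?_ ?_ ?_
  · filter_upwards [hne] with w _
    simp
  · filter_upwards [hne] with w hw
    have : w ^ N ≠ 0 := pow_ne_zero _ hw
    field_simp
  · filter_upwards [hne] with w hw
    exact logder hN hw

theorem wr_zero {N : ℕ} {yh : ℂ → ℂ} {c0 c1 s : ℂ} (h : ∀ᶠ w in 𝓝 s, yh w = c0 + c1 * w ^ N) :
    Wr (fun w => w ^ N) yh s = 0 := by
  have h1 : yh =ᶠ[𝓝 s] fun w => c0 + c1 * w ^ N := h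
  have h2 : deriv yh =ᶠ[𝓝 s] fun w => c1 * deriv (fun z : ℂ => z ^ N) w := by
    refine h1.deriv.trans (Eventually.of_forall fun w => ?_)
    have hd : DifferentiableAt ℂ (fun z : ℂ => z ^ N) w := by fun_prop
    simp only
    rw [deriv_const_add, deriv_const_mul _ hd]
  have h3 : deriv (deriv yh) s = c1 * deriv (deriv (fun z : ℂ => z ^ N)) s := by
    rw [h2.deriv_eq]
    have hd : DifferentiableAt ℂ (deriv (fun z : ℂ => z ^ N)) s := by
      have : deriv (fun z : ℂ => z ^ N) = fun w : ℂ => (N : ℂ) * w ^ (N - 1) := by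
        funext w; simp
      rw [this]; fun_prop
    rw [deriv_const_mul _ hd]
  unfold Wr
  rw [h3, h2.eq_of_nhds]
  ring

end Infin

/-- places at infinity: the order of `G` is at most `3 N` -/
theorem inf_place {N : ℕ} (hN : 0 < N) {yh : ℂ → ℂ} (hh : AnalyticAt ℂ yh 0)
    (hg : ∀ᶠ s in 𝓝[≠] (0:ℂ), GoodG (fun w => (w ^ N)⁻¹) (fun w => yh w / w ^ N)
      (fun _ => 0) s) :
    ∃ (c0 c1 : ℂ) (j : ℕ) (f : ℂ → ℂ), 0 < j ∧ j ≠ N ∧ j ≤ 2 * N ∧ AnalyticAt ℂ f 0 ∧ f 0 ≠ 0 ∧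
      ∀ᶠ w in 𝓝 (0:ℂ), yh w = c0 + c1 * w ^ N + w ^ j * f w := by
  have hne0 : ∀ᶠ s in 𝓝[≠] (0:ℂ), s ≠ 0 := eventually_mem_nhdsWithin
  have hg1 : ∀ᶠ s in 𝓝[≠] (0:ℂ), GoodG (fun w => w ^ N) yh (fun w => -2 * N / w) s := by
    filter_upwards [hg, hne0] with s hs hs0 using Infin.good1 hN hs0 hs
  -- eventually near zero gives eventually near `s`
  have key : ∀ {P : ℂ → Prop}, (∀ᶠ w in 𝓝 (0:ℂ), P w) → ∀ᶠ s in 𝓝[≠] (0:ℂ), ∀ᶠ w in 𝓝 s, P w := by
    intro P hP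
    exact (eventually_eventually_nhds.2 hP).filter_mono nhdsWithin_le_nhds
  have hne : ¬ ∃ c0 c1 : ℂ, ∀ᶠ w in 𝓝 (0:ℂ), yh w = c0 + c1 * w ^ N := by
    rintro ⟨c0, c1, h⟩
    obtain ⟨s, hs, hs2⟩ := (hg1.and (key h)).exists
    exact hs.1.2.2.2 (Infin.wr_zero hs2)
  obtain ⟨c0, c1, j, f, hj, hjN, hf, hf0, he⟩ := place_type hN hh hne
  by_cases hj2 : j ≤ 2 * N
  · exact ⟨c0, c1, j, f, hj, hjN, hj2, hf, hf0, he⟩
  exfalso
  push Not at hj2
  have hg2 : ∀ᶠ s in 𝓝[≠] (0:ℂ),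
      GoodG (fun w => w ^ N) (fun w => w ^ j * f w) (fun w => -2 * N / w) s := by
    filter_upwards [hg1, key he] with s hs hse
    have h := goodG_affine hs (α := 1) (β := 0) (γ := 0) (α' := -c1) (β' := 1) (γ' := -c0)
      (by norm_num)
    refine goodG_congr h ?_ ?_ (Eventually.of_forall fun _ => rfl)
    · exact Eventually.of_forall fun w => by simp
    · filter_upwards [hse] with w hw
      rw [hw]; ring
  obtain ⟨Yf, A, m, δ, hp, -, -, -, hA⟩ := place_gen (a := N) (b := j) hN (by omega) (c := 0)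
    (X := fun w => w ^ N) (Y := fun w => w ^ j * f w) (K := fun w => -2 * N / w)
    (x1 := fun _ => 1) (y1 := f) (k := fun _ => -2 * N) analyticAt_const one_ne_zero
    (Eventually.of_forall fun w => by simp) hf hf0 (Eventually.of_forall fun w => rfl)
    analyticAt_const (by push_cast; ring) (Eventually.of_forall fun w => rfl) hg2
  exact no_place_X hN hj2 hp hA

end Pool.Agent.MP_ae5b4e_an_ALG
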