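import Mathlib
import Pool.Agent.Lib.MP_ae5b4e_an_ALG.DefsB
import Pool.Agent.Lib.MP_ae5b4e_an_LAT.NDGood
import Pool.Agent.Lib.MP_ae5b4e_an_LAT.NDCc

/-!
# MP_ae5b4e_an, algebraic tables: Liouville's theorem on the branches (module AC)

A function on the branches of an irreducible plane curve which is analytic at the regular points,
bounded near all points and which tends to zero at infinity is zero.
-/

set_option autoImplicit false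

noncomputable section

namespace Pool.Agent.MP_ae5b4e_an_ALG

open Filter Topology Set Metric Complex Polynomial
open scoped Real
open Pool.Agent.MP_ae5b4e_an_ND (Dx Dy Reg)
open Pool.Agent.MP_ae5b4e_an_FLEX

namespace Liou

open Pool.Agent.MP_ae5b4e_an_ND (reg_finite rts mem_rts card_rts card_rts_le local_rts)

/-- the power sums -/
def S (m : ℂ[X][X]) (Φ : ℂ → ℂ → ℂ) (j : ℕ) (x : ℂ) : ℂ := ∑ t ∈ rts m x, Φ x t ^ j

variable {m : ℂ[X][X]} {Φ : ℂ → ℂ → ℂ}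

theorem S_an (h1 : ∀ x₀, Reg m x₀ → ∀ b : ℂ → ℂ, AnalyticAt ℂ b x₀ →
      (∀ᶠ x in 𝓝 x₀, evalEval x (b x) m = 0) → AnalyticAt ℂ (fun x => Φ x (b x)) x₀)
    {x₀ : ℂ} (hx : Reg m x₀) (j : ℕ) : AnalyticAt ℂ (S m Φ j) x₀ := by
  obtain ⟨B, hB, hB'⟩ := local_rts hx
  have h : AnalyticAt ℂ (fun x => ∑ t ∈ rts m x₀, Φ x (B t x) ^ j) x₀ :=
    Finset.analyticAt_fun_sum _ fun t ht =>
      (h1 x₀ hx (B t) (hB t ht).1 (hB t ht).2.2).fun_pow j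
  refine h.congr ?_
  filter_upwards [hB'] with x hx1
  rw [S, hx1.2, Finset.sum_image hx1.1]

theorem S_le {x : ℂ} (hx : Reg m x) {C : ℝ} (hC0 : 0 ≤ C)
    (hC : ∀ t, evalEval x t m = 0 → ‖Φ x t‖ ≤ C) (j : ℕ) :
    ‖S m Φ j x‖ ≤ m.natDegree * C ^ j := by
  refine (norm_sum_le _ _).trans ?_
  have h1 : ∀ t ∈ rts m x, ‖Φ x t ^ j‖ ≤ C ^ j := by
    intro t ht
    rw [norm_pow]
    exact pow_le_pow_left₀ (norm_nonneg _) (hC t ((mem_rts hx.1).1 ht)) j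
  refine (Finset.sum_le_card_nsmul _ _ _ h1).trans ?_
  rw [nsmul_eq_mul]
  gcongr
  exact card_rts_le

/-- the entire extension of the power sums -/
def F (m : ℂ[X][X]) (Φ : ℂ → ℂ → ℂ) (j : ℕ) (x : ℂ) : ℂ := limUnder (𝓝[≠] x) (S m Φ j)

theorem F_eq (h1 : ∀ x₀, Reg m x₀ → ∀ b : ℂ → ℂ, AnalyticAt ℂ b x₀ →
      (∀ᶠ x in 𝓝 x₀, evalEval x (b x) m = 0) → AnalyticAt ℂ (fun x => Φ x (b x)) x₀)
    {x : ℂ} (hx : Reg m x) (j : ℕ) : F m Φ j x = S m Φ j x :=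
  ((S_an h1 hx j).continuousAt.tendsto.mono_left nhdsWithin_le_nhds).limUnder_eq

theorem F_diff (hirr : Irreducible (m.map (algebraMap ℂ[X] (RatFunc ℂ))))
    (h1 : ∀ x₀, Reg m x₀ → ∀ b : ℂ → ℂ, AnalyticAt ℂ b x₀ →
      (∀ᶠ x in 𝓝 x₀, evalEval x (b x) m = 0) → AnalyticAt ℂ (fun x => Φ x (b x)) x₀)
    (h2 : ∀ e : ℂ, ∃ C δ : ℝ, 0 < δ ∧ ∀ x, x ≠ e → ‖x - e‖ < δ → Reg m x → ∀ t,
      evalEval x t m = 0 → ‖Φ x t‖ ≤ C) (j : ℕ) : Differentiable ℂ (F m Φ j) := by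
  intro e
  obtain ⟨C, δ, hδ, hC⟩ := h2 e
  have hfin : {x : ℂ | ¬ Reg m x ∧ x ≠ e}.Finite := (reg_finite hirr).subset fun x hx => hx.1
  have hopen : {x : ℂ | ¬ Reg m x ∧ x ≠ e}ᶜ ∈ 𝓝 e :=
    hfin.isClosed.isOpen_compl.mem_nhds fun h => h.2 rfl
  have hs : {x : ℂ | ¬ Reg m x ∧ x ≠ e}ᶜ ∩ ball e δ ∈ 𝓝 e :=
    inter_mem hopen (ball_mem_nhds e hδ)
  have hreg : ∀ x ∈ ({x : ℂ | ¬ Reg m x ∧ x ≠ e}ᶜ ∩ ball e δ) \ {e}, Reg m x := by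
    intro x hx
    by_contra hcon
    exact hx.1.1 ⟨hcon, hx.2⟩
  have hd := Complex.differentiableOn_update_limUnder_of_bddAbove (f := S m Φ j) hs
    (fun x hx => ((S_an h1 (hreg x hx) j).differentiableAt).differentiableWithinAt) (by
      refine ⟨m.natDegree * |C| ^ j, ?_⟩
      rintro _ ⟨x, hx, rfl⟩
      have h3 := hreg x hx
      have h4 : ‖x - e‖ < δ := by
        have := hx.1.2
        rwa [mem_ball, dist_eq_norm] at this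
      exact S_le h3 (abs_nonneg C)
        (fun t ht => (hC x hx.2 h4 h3 t ht).trans (le_abs_self C)) j)
  have hd' := (hd e (mem_of_mem_nhds hs)).differentiableAt hs
  refine hd'.congr_of_eventuallyEq ?_
  filter_upwards [hs] with x hx
  rcases eq_or_ne x e with rfl | hxe
  · rw [Function.update_self, F]
  · rw [Function.update_of_ne hxe, F_eq h1 (hreg x ⟨hx, hxe⟩)]

theorem F_lim (hirr : Irreducible (m.map (algebraMap ℂ[X] (RatFunc ℂ))))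
    (h1 : ∀ x₀, Reg m x₀ → ∀ b : ℂ → ℂ, AnalyticAt ℂ b x₀ →
      (∀ᶠ x in 𝓝 x₀, evalEval x (b x) m = 0) → AnalyticAt ℂ (fun x => Φ x (b x)) x₀)
    (h3 : ∀ ε > 0, ∃ R : ℝ, ∀ x : ℂ, R < ‖x‖ → Reg m x → ∀ t,
      evalEval x t m = 0 → ‖Φ x t‖ < ε) {j : ℕ} (hj : j ≠ 0) :
    Tendsto (F m Φ j) (cocompact ℂ) (𝓝 0) := by
  rw [Metric.tendsto_nhds]
  intro ε hε
  set ε' : ℝ := min 1 (ε / (m.natDegree + 1)) with hε'
  have h0 : 0 < ε' := lt_min one_pos (by positivity)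
  obtain ⟨R, hR⟩ := h3 ε' h0
  have hreg : {x : ℂ | ¬ Reg m x}ᶜ ∈ cocompact ℂ :=
    (reg_finite hirr).isCompact.compl_mem_cocompact
  have hinf : ∀ᶠ x : ℂ in cocompact ℂ, R < ‖x‖ :=
    (tendsto_norm_cocompact_atTop (E := ℂ)).eventually_gt_atTop R
  filter_upwards [hreg, hinf] with x hx hxR
  have hx' : Reg m x := by
    by_contra hcon
    exact hx hcon
  rw [F_eq h1 hx', dist_zero_right]
  have h4 := S_le hx' h0.le (fun t ht => (hR x hxR hx' t ht).le) j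
  have h5 : ε' ^ j ≤ ε' := pow_le_of_le_one h0.le (min_le_left _ _) hj
  have h6 : (m.natDegree : ℝ) * ε' ^ j ≤ m.natDegree * (ε / (m.natDegree + 1)) := by
    gcongr
    exact h5.trans (min_le_right _ _)
  have h7 : (m.natDegree : ℝ) * (ε / (m.natDegree + 1)) < ε := by
    have h8 : (0:ℝ) < (m.natDegree : ℝ) + 1 := by positivity
    rw [← mul_div_assoc, div_lt_iff₀ h8]
    nlinarith
  linarith

theorem S_zero (hirr : Irreducible (m.map (algebraMap ℂ[X] (RatFunc ℂ))))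
    (h1 : ∀ x₀, Reg m x₀ → ∀ b : ℂ → ℂ, AnalyticAt ℂ b x₀ →
      (∀ᶠ x in 𝓝 x₀, evalEval x (b x) m = 0) → AnalyticAt ℂ (fun x => Φ x (b x)) x₀)
    (h2 : ∀ e : ℂ, ∃ C δ : ℝ, 0 < δ ∧ ∀ x, x ≠ e → ‖x - e‖ < δ → Reg m x → ∀ t,
      evalEval x t m = 0 → ‖Φ x t‖ ≤ C)
    (h3 : ∀ ε > 0, ∃ R : ℝ, ∀ x : ℂ, R < ‖x‖ → Reg m x → ∀ t,
      evalEval x t m = 0 → ‖Φ x t‖ < ε) {j : ℕ} (hj : j ≠ 0) {x : ℂ} (hx : Reg m x) :
    S m Φ j x = 0 := by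
  rw [← F_eq h1 hx]
  exact (F_diff hirr h1 h2 j).apply_eq_of_tendsto_cocompact x (F_lim hirr h1 h3 hj)

end Liou

/-! ## AC -/
section AC

/-- Liouville's theorem for functions on the branches -/
theorem liouville_alg {m : ℂ[X][X]} (hirr : Irreducible (m.map (algebraMap ℂ[X] (RatFunc ℂ))))
    {Φ : ℂ → ℂ → ℂ}
    (h1 : ∀ x₀, Reg m x₀ → ∀ b : ℂ → ℂ, AnalyticAt ℂ b x₀ →
      (∀ᶠ x in 𝓝 x₀, evalEval x (b x) m = 0) → AnalyticAt ℂ (fun x => Φ x (b x)) x₀)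
    (h2 : ∀ e : ℂ, ∃ C δ : ℝ, 0 < δ ∧ ∀ x, x ≠ e → ‖x - e‖ < δ → Reg m x → ∀ t,
      evalEval x t m = 0 → ‖Φ x t‖ ≤ C)
    (h3 : ∀ ε > 0, ∃ R : ℝ, ∀ x : ℂ, R < ‖x‖ → Reg m x → ∀ t,
      evalEval x t m = 0 → ‖Φ x t‖ < ε) {x : ℂ} (hx : Reg m x) {t : ℂ}
    (ht : evalEval x t m = 0) : Φ x t = 0 := by
  have htm : t ∈ Pool.Agent.MP_ae5b4e_an_ND.rts m x :=
    (Pool.Agent.MP_ae5b4e_an_ND.mem_rts hx.1).2 ht
  obtain ⟨e⟩ : Nonempty (Fin (Pool.Agent.MP_ae5b4e_an_ND.rts m x).card ≃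
    Pool.Agent.MP_ae5b4e_an_ND.rts m x) := ⟨(Finset.equivFin _).symm⟩
  have h : ∀ k : ℕ, ∑ i, (fun i => Φ x (e i)) i ^ k = ∑ _i : Fin
      (Pool.Agent.MP_ae5b4e_an_ND.rts m x).card, (0 : ℂ) ^ k := by
    intro k
    rcases eq_or_ne k 0 with rfl | hk
    · simp
    · have h4 : ∑ i, (fun i => Φ x (e i)) i ^ k = Liou.S m Φ k x := by
        rw [Liou.S, ← Finset.sum_coe_sort (Pool.Agent.MP_ae5b4e_an_ND.rts m x)]
        exact Equiv.sum_comp e fun t : Pool.Agent.MP_ae5b4e_an_ND.rts m x => Φ x t ^ k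
      rw [h4, Liou.S_zero hirr h1 h2 h3 hk hx]
      simp [hk]
  obtain ⟨j, hj⟩ := Pool.Agent.LAT.RH.powsum (fun i => Φ x (e i)) (fun _ => 0) h
    (e.symm ⟨t, htm⟩)
  simpa using hj
end AC

end Pool.Agent.MP_ae5b4e_an_ALG
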