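import Mathlib
import Pool.Agent.Lib.MP_ae5b4e_an_ALG.DefsB

set_option autoImplicit false

/-!
# MP_ae5b4e_an, algebraic tables, module MA: Monge's invariant
-/

noncomputable section

namespace Pool.Agent.MP_ae5b4e_an_ALG

open Filter Topology Set Metric Complex Polynomial
open scoped Real
open Pool.Agent.MP_ae5b4e_an_ND (Dx Dy)
open Pool.Agent.MP_ae5b4e_an_FLEX

namespace MongeA

theorem DX_step {X f g g' : ℂ → ℂ} {w : ℂ} (h : f =ᶠ[𝓝 w] g)
    (hg : ∀ᶠ z in 𝓝 w, HasDerivAt g (g' z) z) :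
    DX X f =ᶠ[𝓝 w] fun z => g' z / deriv X z := by
  filter_upwards [h.deriv, hg] with z h1 h2
  rw [DX, h1, h2.deriv]

theorem hasDeriv_ev {f : ℂ → ℂ} {w : ℂ} (hf : AnalyticAt ℂ f w) :
    ∀ᶠ z in 𝓝 w, HasDerivAt f (deriv f z) z :=
  hf.eventually_analyticAt.mono fun _ hz => hz.differentiableAt.hasDerivAt

theorem quot_deriv {P x : ℂ → ℂ} {p x' z : ℂ} (k : ℕ) (hP : HasDerivAt P p z)
    (hx : HasDerivAt x x' z) (h0 : x z ≠ 0) :
    HasDerivAt (fun z => P z / x z ^ k) ((p * x z - k * P z * x') / x z ^ (k + 1)) z := by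
  have h1 := hP.div (hx.pow k) (pow_ne_zero k h0)
  refine h1.congr_deriv ?_
  rcases k with _ | k
  · simp
    field_simp
  · simp only [Pi.pow_apply, Nat.add_sub_cancel]
    field_simp
    ring

/-- the brackets of the second and third derivative -/
theorem Wr2_eq {X Y : ℂ → ℂ} {z : ℂ} (hX : AnalyticAt ℂ X z) (hY : AnalyticAt ℂ Y z)
    (hX' : deriv X z ≠ 0) :
    Wr2 X Y z = (deriv (deriv X) z * deriv (Wr X Y) z -
      deriv (deriv (deriv X)) z * Wr X Y z) / deriv X z := by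
  have h1 : HasDerivAt (Wr X Y) (deriv X z * deriv (deriv (deriv Y)) z -
      deriv Y z * deriv (deriv (deriv X)) z) z := by
    have a1 := hX.deriv.differentiableAt.hasDerivAt
    have a2 := hX.deriv.deriv.differentiableAt.hasDerivAt
    have b1 := hY.deriv.differentiableAt.hasDerivAt
    have b2 := hY.deriv.deriv.differentiableAt.hasDerivAt
    refine ((a1.mul b2).sub (b1.mul a2)).congr_deriv ?_
    ring
  rw [h1.deriv, Wr2, Wr]
  field_simp
  ring

end MongeA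

open MongeA in
/-- Monge's invariant by brackets -/
theorem MD_eq_Mt {X Y : ℂ → ℂ} {w : ℂ} (hX : AnalyticAt ℂ X w) (hY : AnalyticAt ℂ Y w)
    (hX' : deriv X w ≠ 0) (hW : Wr X Y w ≠ 0) : MD X Y w = Mt X Y w := by
  have hWa : AnalyticAt ℂ (Wr X Y) w :=
    (hX.deriv.mul hY.deriv.deriv).sub (hY.deriv.mul hX.deriv.deriv)
  have ex0 : ∀ᶠ z in 𝓝 w, deriv X z ≠ 0 := hX.deriv.continuousAt.eventually_ne hX'
  have ex1 := hasDeriv_ev hX.deriv
  have ex2 := hasDeriv_ev hX.deriv.deriv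
  have ex3 := hasDeriv_ev hX.deriv.deriv.deriv
  have ey1 := hasDeriv_ev hY.deriv
  have e0 := hasDeriv_ev hWa
  have e1 := hasDeriv_ev hWa.deriv
  have e2 := hasDeriv_ev hWa.deriv.deriv
  -- first step
  have s1 : DX X (DX X Y) =ᶠ[𝓝 w] fun z => Wr X Y z / deriv X z ^ 3 := by
    have h1 : DX X Y =ᶠ[𝓝 w] fun z => deriv Y z / deriv X z := EventuallyEq.rfl
    refine (DX_step h1 (g' := fun z => Wr X Y z / deriv X z ^ 2) ?_).trans ?_
    · filter_upwards [ex0, ex1, ey1] with z h0 h1 h2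
      refine (h2.div h1 h0).congr_deriv ?_
      rw [Wr]
      field_simp
    · filter_upwards [ex0] with z h0
      field_simp
  have s2 : DX X (DX X (DX X Y)) =ᶠ[𝓝 w] fun z =>
      (deriv (Wr X Y) z * deriv X z - 3 * Wr X Y z * deriv (deriv X) z) / deriv X z ^ 5 := by
    refine (DX_step s1 (g' := fun z =>
      (deriv (Wr X Y) z * deriv X z - 3 * Wr X Y z * deriv (deriv X) z) / deriv X z ^ 4) ?_).trans ?_
    · filter_upwards [ex0, ex1, e0] with z h0 h1 h2
      refine (quot_deriv 3 h2 h1 h0).congr_deriv ?_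
      norm_num
    · filter_upwards [ex0] with z h0
      field_simp
  have s3 : DX X (DX X (DX X (DX X Y))) =ᶠ[𝓝 w] fun z =>
      (deriv (deriv (Wr X Y)) z * deriv X z ^ 2
        - 7 * deriv (Wr X Y) z * deriv X z * deriv (deriv X) z
        - 3 * Wr X Y z * deriv X z * deriv (deriv (deriv X)) z
        + 15 * Wr X Y z * deriv (deriv X) z ^ 2) / deriv X z ^ 7 := by
    refine (DX_step s2 (g' := fun z =>
      (deriv (deriv (Wr X Y)) z * deriv X z ^ 2
        - 7 * deriv (Wr X Y) z * deriv X z * deriv (deriv X) z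
        - 3 * Wr X Y z * deriv X z * deriv (deriv (deriv X)) z
        + 15 * Wr X Y z * deriv (deriv X) z ^ 2) / deriv X z ^ 6) ?_).trans ?_
    · filter_upwards [ex0, ex1, ex2, e0, e1] with z h0 h1 h2 k0 k1
      have hP := (k1.mul h1).sub ((k0.const_mul 3).mul h2)
      refine (quot_deriv 5 hP h1 h0).congr_deriv ?_
      simp only [Pi.mul_apply, Pi.sub_apply]
      push_cast
      congr 1
      ring
    · filter_upwards [ex0] with z h0
      field_simp
  have s4 : DX X (DX X (DX X (DX X (DX X Y)))) =ᶠ[𝓝 w] fun z =>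
      ((deriv (deriv (deriv (Wr X Y))) z * deriv X z ^ 2
        - 5 * deriv (deriv (Wr X Y)) z * deriv X z * deriv (deriv X) z
        + 8 * deriv (Wr X Y) z * deriv (deriv X) z ^ 2
        - 10 * deriv (Wr X Y) z * deriv X z * deriv (deriv (deriv X)) z
        + 27 * Wr X Y z * deriv (deriv X) z * deriv (deriv (deriv X)) z
        - 3 * Wr X Y z * deriv X z * deriv (deriv (deriv (deriv X))) z) * deriv X z
      - 7 * (deriv (deriv (Wr X Y)) z * deriv X z ^ 2
        - 7 * deriv (Wr X Y) z * deriv X z * deriv (deriv X) z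
        - 3 * Wr X Y z * deriv X z * deriv (deriv (deriv X)) z
        + 15 * Wr X Y z * deriv (deriv X) z ^ 2) * deriv (deriv X) z) / deriv X z ^ 9 := by
    refine (DX_step s3 (g' := fun z =>
      ((deriv (deriv (deriv (Wr X Y))) z * deriv X z ^ 2
        - 5 * deriv (deriv (Wr X Y)) z * deriv X z * deriv (deriv X) z
        + 8 * deriv (Wr X Y) z * deriv (deriv X) z ^ 2
        - 10 * deriv (Wr X Y) z * deriv X z * deriv (deriv (deriv X)) z
        + 27 * Wr X Y z * deriv (deriv X) z * deriv (deriv (deriv X)) z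
        - 3 * Wr X Y z * deriv X z * deriv (deriv (deriv (deriv X))) z) * deriv X z
      - 7 * (deriv (deriv (Wr X Y)) z * deriv X z ^ 2
        - 7 * deriv (Wr X Y) z * deriv X z * deriv (deriv X) z
        - 3 * Wr X Y z * deriv X z * deriv (deriv (deriv X)) z
        + 15 * Wr X Y z * deriv (deriv X) z ^ 2) * deriv (deriv X) z) / deriv X z ^ 8) ?_).trans ?_
    · filter_upwards [ex0, ex1, ex2, ex3, e0, e1, e2] with z h0 h1 h2 h3 k0 k1 k2
      have hP := (((k2.mul (h1.pow 2)).sub (((k1.const_mul 7).mul h1).mul h2)).sub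
        (((k0.const_mul 3).mul h1).mul h3)).add ((k0.const_mul 15).mul (h2.pow 2))
      refine (quot_deriv 7 hP h1 h0).congr_deriv ?_
      simp only [Pi.mul_apply, Pi.sub_apply, Pi.add_apply, Pi.pow_apply]
      push_cast
      congr 1
      ring
    · filter_upwards [ex0] with z h0
      field_simp
  -- the other side
  have hN : Nt X Y =ᶠ[𝓝 w] fun z => (9 * Wr X Y z * (deriv (deriv X) z * deriv (Wr X Y) z -
      deriv (deriv (deriv X)) z * Wr X Y z) + deriv X z * (3 * Wr X Y z *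
      deriv (deriv (Wr X Y)) z - 5 * deriv (Wr X Y) z ^ 2)) / deriv X z ^ 1 := by
    filter_upwards [ex0, hX.eventually_analyticAt, hY.eventually_analyticAt] with z h0 h1 h2
    rw [Nt, Wr2_eq h1 h2 h0]
    field_simp
    ring
  have hN' : deriv (Nt X Y) w = ((9 * deriv (Wr X Y) w * (deriv (deriv X) w * deriv (Wr X Y) w -
      deriv (deriv (deriv X)) w * Wr X Y w) + 9 * Wr X Y w * (deriv (deriv X) w *
      deriv (deriv (Wr X Y)) w - deriv (deriv (deriv (deriv X))) w * Wr X Y w) +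
      deriv (deriv X) w * (3 * Wr X Y w * deriv (deriv (Wr X Y)) w - 5 * deriv (Wr X Y) w ^ 2) +
      deriv X w * (3 * Wr X Y w * deriv (deriv (deriv (Wr X Y))) w -
      7 * deriv (Wr X Y) w * deriv (deriv (Wr X Y)) w)) * deriv X w -
      (9 * Wr X Y w * (deriv (deriv X) w * deriv (Wr X Y) w -
      deriv (deriv (deriv X)) w * Wr X Y w) + deriv X w * (3 * Wr X Y w *
      deriv (deriv (Wr X Y)) w - 5 * deriv (Wr X Y) w ^ 2)) * deriv (deriv X) w) /
      deriv X w ^ 2 := by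
    rw [hN.deriv_eq]
    have h0 := ex0.self_of_nhds
    have h1 := ex1.self_of_nhds
    have h2 := ex2.self_of_nhds
    have h3 := ex3.self_of_nhds
    have k0 := e0.self_of_nhds
    have k1 := e1.self_of_nhds
    have k2 := e2.self_of_nhds
    have hP := ((k0.const_mul 9).mul ((h2.mul k1).sub (h3.mul k0))).add
      (h1.mul (((k0.const_mul 3).mul k2).sub ((k1.pow 2).const_mul 5)))
    have hQ := quot_deriv 1 hP h1 h0
    simp only [Pi.mul_apply, Pi.sub_apply, Pi.add_apply, Pi.pow_apply] at hQ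
    rw [hQ.deriv]
    push_cast
    congr 1
    ring
  rw [MD, Mt, s1.self_of_nhds, s2.self_of_nhds, s3.self_of_nhds, s4.self_of_nhds, hN',
    hN.self_of_nhds]
  field_simp
  ring

namespace MongeA

theorem ana_Wr {X Y : ℂ → ℂ} {w : ℂ} (hX : AnalyticAt ℂ X w) (hY : AnalyticAt ℂ Y w) :
    AnalyticAt ℂ (Wr X Y) w :=
  (hX.deriv.mul hY.deriv.deriv).sub (hY.deriv.mul hX.deriv.deriv)

theorem ana_Wr2 {X Y : ℂ → ℂ} {w : ℂ} (hX : AnalyticAt ℂ X w) (hY : AnalyticAt ℂ Y w) :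
    AnalyticAt ℂ (Wr2 X Y) w :=
  (hX.deriv.deriv.mul hY.deriv.deriv.deriv).sub (hY.deriv.deriv.mul hX.deriv.deriv.deriv)

theorem ana_Nt {X Y : ℂ → ℂ} {w : ℂ} (hX : AnalyticAt ℂ X w) (hY : AnalyticAt ℂ Y w) :
    AnalyticAt ℂ (Nt X Y) w :=
  (((analyticAt_const.mul (ana_Wr hX hY)).mul (ana_Wr2 hX hY)).add
    ((analyticAt_const.mul (ana_Wr hX hY)).mul (ana_Wr hX hY).deriv.deriv)).sub
    (analyticAt_const.mul ((ana_Wr hX hY).deriv.pow 2))

theorem ana_Mt {X Y : ℂ → ℂ} {w : ℂ} (hX : AnalyticAt ℂ X w) (hY : AnalyticAt ℂ Y w)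
    (hW : Wr X Y w ≠ 0) : AnalyticAt ℂ (Mt X Y) w :=
  (((analyticAt_const.mul (ana_Wr hX hY)).mul (ana_Nt hX hY).deriv).sub
    ((analyticAt_const.mul (ana_Wr hX hY).deriv).mul (ana_Nt hX hY))).div
    (analyticAt_const.mul ((ana_Wr hX hY).pow 4))
    (mul_ne_zero (by norm_num) (pow_ne_zero 4 hW))

end MongeA

open MongeA in
/-- bounded near a regular point, in any parameter -/
theorem MD_bdd {X Y : ℂ → ℂ} {w₀ : ℂ} (hX : AnalyticAt ℂ X w₀) (hY : AnalyticAt ℂ Y w₀)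
    (hX' : ∀ᶠ w in 𝓝[≠] w₀, deriv X w ≠ 0) (hW : Wr X Y w₀ ≠ 0) :
    ∃ C : ℝ, ∀ᶠ w in 𝓝[≠] w₀, ‖MD X Y w‖ ≤ C := by
  refine ⟨‖Mt X Y w₀‖ + 1, ?_⟩
  have h1 : ∀ᶠ w in 𝓝[≠] w₀, ‖Mt X Y w‖ < ‖Mt X Y w₀‖ + 1 :=
    ((ana_Mt hX hY hW).continuousAt.norm.eventually_lt continuousAt_const
      (lt_add_one _)).filter_mono nhdsWithin_le_nhds
  have h2 : ∀ᶠ w in 𝓝[≠] w₀, Wr X Y w ≠ 0 :=
    ((ana_Wr hX hY).continuousAt.eventually_ne hW).filter_mono nhdsWithin_le_nhds
  have h3 := hX.eventually_analyticAt.filter_mono (nhdsWithin_le_nhds (s := {w₀}ᶜ))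
  have h4 := hY.eventually_analyticAt.filter_mono (nhdsWithin_le_nhds (s := {w₀}ᶜ))
  filter_upwards [h1, h2, h3, h4, hX'] with w k1 k2 k3 k4 k5
  rw [MD_eq_Mt k3 k4 k5 k2]
  exact k1.le

namespace MongeA

theorem DX_congr {X X' f f' : ℂ → ℂ} {w : ℂ} (hX : X =ᶠ[𝓝 w] X') (hf : f =ᶠ[𝓝 w] f') :
    DX X f =ᶠ[𝓝 w] DX X' f' := by
  filter_upwards [hX.deriv, hf.deriv] with z h1 h2
  rw [DX, DX, h1, h2]

theorem DX_comp {φ f F : ℂ → ℂ} {w : ℂ} (hφ : AnalyticAt ℂ φ w) (hφ' : deriv φ w ≠ 0)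
    (hf : AnalyticAt ℂ f (φ w)) (hF : F =ᶠ[𝓝 w] f ∘ φ) :
    DX φ F =ᶠ[𝓝 w] deriv f ∘ φ := by
  have e1 : ∀ᶠ z in 𝓝 w, AnalyticAt ℂ f (φ z) :=
    hφ.continuousAt.eventually hf.eventually_analyticAt
  have e2 := hφ.deriv.continuousAt.eventually_ne hφ'
  filter_upwards [hF.deriv, e1, e2, hφ.eventually_analyticAt] with z h1 h2 h3 h4
  have h5 := h2.differentiableAt.hasDerivAt.comp z h4.differentiableAt.hasDerivAt
  rw [DX, h1, h5.deriv, Function.comp_apply]
  field_simp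

theorem DX_id (f : ℂ → ℂ) : DX id f = deriv f := by
  funext z
  rw [DX, deriv_id, div_one]

end MongeA

open MongeA in
/-- chain rule -/
theorem MD_comp {φ b : ℂ → ℂ} {w : ℂ} (hφ : AnalyticAt ℂ φ w) (hφ' : deriv φ w ≠ 0)
    (hb : AnalyticAt ℂ b (φ w)) : MD φ (b ∘ φ) w = MD id b (φ w) := by
  have h1 := DX_comp hφ hφ' hb (EventuallyEq.rfl (f := b ∘ φ))
  have h2 := DX_comp hφ hφ' hb.deriv h1
  have h3 := DX_comp hφ hφ' hb.deriv.deriv h2
  have h4 := DX_comp hφ hφ' hb.deriv.deriv.deriv h3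
  have h5 := DX_comp hφ hφ' hb.deriv.deriv.deriv.deriv h4
  rw [MD, MD, h2.self_of_nhds, h3.self_of_nhds, h4.self_of_nhds, h5.self_of_nhds]
  simp only [DX_id, Function.comp_apply]

open MongeA in
theorem MD_congr {X Y X' Y' : ℂ → ℂ} {w : ℂ} (hX : X =ᶠ[𝓝 w] X') (hY : Y =ᶠ[𝓝 w] Y') :
    MD X Y w = MD X' Y' w := by
  have h1 := DX_congr hX hY
  have h2 := DX_congr hX h1
  have h3 := DX_congr hX h2
  have h4 := DX_congr hX h3
  have h5 := DX_congr hX h4
  rw [MD, MD, h2.self_of_nhds, h3.self_of_nhds, h4.self_of_nhds, h5.self_of_nhds]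

open MongeA in
theorem MD_ana {b : ℂ → ℂ} {x : ℂ} (hb : AnalyticAt ℂ b x) (hG : deriv (deriv b) x ≠ 0) :
    AnalyticAt ℂ (MD id b) x := by
  have h : MD id b = fun z => (9 * deriv (deriv b) z ^ 2 *
      deriv (deriv (deriv (deriv (deriv b)))) z -
      45 * deriv (deriv b) z * deriv (deriv (deriv b)) z * deriv (deriv (deriv (deriv b))) z +
      40 * deriv (deriv (deriv b)) z ^ 3) / (27 * deriv (deriv b) z ^ 4) := by
    funext z
    simp only [MD, DX_id]
  rw [h]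
  have d2 := hb.deriv.deriv
  have d3 := d2.deriv
  have d4 := d3.deriv
  have d5 := d4.deriv
  exact ((((analyticAt_const.mul (d2.pow 2)).mul d5).sub
    (((analyticAt_const.mul d2).mul d3).mul d4)).add (analyticAt_const.mul (d3.pow 3))).div
    (analyticAt_const.mul (d2.pow 4)) (mul_ne_zero (by norm_num) (pow_ne_zero 4 hG))

end Pool.Agent.MP_ae5b4e_an_ALG
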