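import Mathlib
import Pool.Agent.Lib.MP_ae5b4e_an_ALG.DefsB

/-!
# MP_ae5b4e_an, algebraic tables: Monge's invariant at infinity
-/

set_option autoImplicit false

noncomputable section

namespace Pool.Agent.MP_ae5b4e_an_ALG

open Filter Topology Set Metric Complex Polynomial
open scoped Real
open Pool.Agent.MP_ae5b4e_an_FLEX

namespace MongeInf

/-- the new factor -/
def nxt (N m : ℕ) (E : ℂ → ℂ) (w : ℂ) : ℂ := -((m : ℂ) * E w + w * deriv E w) / N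

theorem nxt_ana {N m : ℕ} {E : ℂ → ℂ} (hE : AnalyticAt ℂ E 0) : AnalyticAt ℂ (nxt N m E) 0 := by
  have h1 : AnalyticAt ℂ (fun w => -((m : ℂ) * E w + w * deriv E w)) 0 :=
    ((analyticAt_const.mul hE).add (analyticAt_id.mul hE.deriv)).neg
  have h2 : nxt N m E = fun w => -((m : ℂ) * E w + w * deriv E w) * (N : ℂ)⁻¹ := by
    funext w
    rw [nxt, div_eq_mul_inv]
  rw [h2]
  exact h1.mul analyticAt_const

theorem nxt_zero {N m : ℕ} (E : ℂ → ℂ) : nxt N m E 0 = -((m : ℂ) / N) * E 0 := by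
  rw [nxt, zero_mul, add_zero]
  ring

theorem hasDeriv_X (N : ℕ) {w : ℂ} (hw : w ≠ 0) :
    HasDerivAt (fun w : ℂ => (w ^ N)⁻¹) (-((N : ℂ) * w ^ (N - 1)) / (w ^ N) ^ 2) w :=
  (hasDerivAt_pow N w).inv (pow_ne_zero N hw)

/-- `w ↦ c + w ^ m E` -/
theorem DX_form {N m : ℕ} (hN : 0 < N) {E F : ℂ → ℂ} {c : ℂ} (hE : AnalyticAt ℂ E 0)
    (hF : ∀ᶠ w in 𝓝[≠] (0:ℂ), F w = c + w ^ m * E w) :
    ∀ᶠ w in 𝓝[≠] (0:ℂ), DX (fun w => (w ^ N)⁻¹) F w = w ^ (m + N) * nxt N m E w := by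
  have hE' : ∀ᶠ w in 𝓝[≠] (0:ℂ), AnalyticAt ℂ E w :=
    hE.eventually_analyticAt.filter_mono nhdsWithin_le_nhds
  have hF' : ∀ᶠ w in 𝓝[≠] (0:ℂ), ∀ᶠ v in 𝓝 w, F v = c + v ^ m * E v := by
    have h1 := eventually_eventually_nhds.2 (eventually_nhdsWithin_iff.1 hF)
    filter_upwards [h1.filter_mono nhdsWithin_le_nhds, self_mem_nhdsWithin] with w hw1 hw2
    filter_upwards [hw1, isOpen_ne.mem_nhds hw2] with v hv1 hv2
    exact hv1 hv2
  filter_upwards [hE', hF', self_mem_nhdsWithin] with w hEw hFw hw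
  have hw0 : w ≠ 0 := hw
  have h1 : deriv F w = (m : ℂ) * w ^ (m - 1) * E w + w ^ m * deriv E w := by
    have h0 : F =ᶠ[𝓝 w] fun v => c + v ^ m * E v := hFw
    rw [h0.deriv_eq]
    have h2 := ((hasDerivAt_pow m w).mul hEw.differentiableAt.hasDerivAt).const_add c
    exact h2.deriv
  have h2 : (m : ℂ) * w ^ (m - 1) * w = m * w ^ m := by
    rcases m with _ | m
    · simp
    · rw [Nat.add_sub_cancel, pow_succ]
      ring
  have h3 : (N : ℂ) * w ^ (N - 1) * w = N * w ^ N := by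
    rcases N with _ | N
    · simp
    · rw [Nat.add_sub_cancel, pow_succ]
      ring
  have hN0 : (N : ℂ) ≠ 0 := by exact_mod_cast hN.ne'
  unfold DX nxt
  rw [h1, (hasDeriv_X N hw0).deriv]
  have h4 : (m : ℂ) * w ^ (m - 1) = m * w ^ m / w := by
    rw [← h2, mul_div_assoc, div_self hw0, mul_one]
  have h5 : (N : ℂ) * w ^ (N - 1) = N * w ^ N / w := by
    rw [← h3, mul_div_assoc, div_self hw0, mul_one]
  rw [h4, h5]
  have h6 : w ^ N ≠ 0 := pow_ne_zero N hw0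
  field_simp
  ring

end MongeInf

open MongeInf

section MB

/-- Monge's invariant at infinity -/
theorem MD_inf {N j : ℕ} (hN : 0 < N) (hj : 0 < j) (hjN : j ≠ N) (hj2 : j ≤ 2 * N) {f : ℂ → ℂ}
    (hf : AnalyticAt ℂ f 0) (hf0 : f 0 ≠ 0) {yh : ℂ → ℂ} {c0 c1 : ℂ}
    (he : ∀ᶠ w in 𝓝 (0:ℂ), yh w = c0 + c1 * w ^ N + w ^ j * f w) :
    Tendsto (MD (fun w => (w ^ N)⁻¹) (fun w => yh w / w ^ N)) (𝓝[≠] (0:ℂ)) (𝓝 0) := by
  have hN0 : (N : ℂ) ≠ 0 := by exact_mod_cast hN.ne'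
  set X : ℂ → ℂ := fun w => (w ^ N)⁻¹ with hX
  set Y : ℂ → ℂ := fun w => yh w / w ^ N with hY
  -- the first derivative
  obtain ⟨F1, hF1, hF10, hD1⟩ : ∃ F1 : ℂ → ℂ, AnalyticAt ℂ F1 0 ∧ F1 0 ≠ 0 ∧
      ∀ᶠ w in 𝓝[≠] (0:ℂ), DX X Y w = c0 + w ^ j * F1 w := by
    refine ⟨fun w => -(((j : ℂ) - N) * f w + w * deriv f w) * (N : ℂ)⁻¹, ?_, ?_, ?_⟩
    · exact ((analyticAt_const.mul hf).add (analyticAt_id.mul hf.deriv)).neg.mul analyticAt_const
    · have h1 : (j : ℂ) - N ≠ 0 := sub_ne_zero.2 (by exact_mod_cast hjN)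
      simp only [zero_mul, add_zero]
      exact mul_ne_zero (neg_ne_zero.2 (mul_ne_zero h1 hf0)) (inv_ne_zero hN0)
    · have hf' : ∀ᶠ w in 𝓝[≠] (0:ℂ), AnalyticAt ℂ f w :=
        hf.eventually_analyticAt.filter_mono nhdsWithin_le_nhds
      have he' : ∀ᶠ w in 𝓝[≠] (0:ℂ), ∀ᶠ v in 𝓝 w, yh v = c0 + c1 * v ^ N + v ^ j * f v :=
        (eventually_eventually_nhds.2 he).filter_mono nhdsWithin_le_nhds
      filter_upwards [hf', he', self_mem_nhdsWithin] with w hfw hew hw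
      have hw0 : w ≠ 0 := hw
      have h0 : Y =ᶠ[𝓝 w] fun v => (c0 + c1 * v ^ N + v ^ j * f v) * (v ^ N)⁻¹ := by
        filter_upwards [hew] with v hv
        show yh v / v ^ N = _
        rw [hv, div_eq_mul_inv]
      have h1 : HasDerivAt (fun v => (c0 + c1 * v ^ N + v ^ j * f v) * (v ^ N)⁻¹)
          ((c1 * (N * w ^ (N - 1)) + (j * w ^ (j - 1) * f w + w ^ j * deriv f w)) * (w ^ N)⁻¹ +
            (c0 + c1 * w ^ N + w ^ j * f w) * (-((N : ℂ) * w ^ (N - 1)) / (w ^ N) ^ 2)) w :=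
        ((((hasDerivAt_pow N w).const_mul c1).const_add c0).add
          ((hasDerivAt_pow j w).mul hfw.differentiableAt.hasDerivAt)).mul (hasDeriv_X N hw0)
      unfold DX
      rw [h0.deriv_eq, h1.deriv, hX, (hasDeriv_X N hw0).deriv]
      have h2 : (j : ℂ) * w ^ (j - 1) * w = j * w ^ j := by
        obtain ⟨i, rfl⟩ : ∃ i, j = i + 1 := ⟨j - 1, by omega⟩
        rw [Nat.add_sub_cancel, pow_succ]
        ring
      have h3 : (N : ℂ) * w ^ (N - 1) * w = N * w ^ N := by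
        obtain ⟨i, rfl⟩ : ∃ i, N = i + 1 := ⟨N - 1, by omega⟩
        rw [Nat.add_sub_cancel, pow_succ]
        ring
      have h4 : (j : ℂ) * w ^ (j - 1) = j * w ^ j / w := by
        rw [← h2, mul_div_assoc, div_self hw0, mul_one]
      have h5 : (N : ℂ) * w ^ (N - 1) = N * w ^ N / w := by
        rw [← h3, mul_div_assoc, div_self hw0, mul_one]
      rw [h4, h5]
      have h6 : w ^ N ≠ 0 := pow_ne_zero N hw0
      field_simp
      ring
  -- the higher derivatives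
  obtain ⟨m, hm⟩ : ∃ m, m = j + N := ⟨_, rfl⟩
  have hm3 : m ≤ 3 * N := by omega
  obtain ⟨k, hk⟩ : ∃ k, 3 * N = m + k := ⟨3 * N - m, by omega⟩
  set E0 := nxt N j F1 with hE0
  have hE0a : AnalyticAt ℂ E0 0 := nxt_ana hF1
  set E1 := nxt N m E0 with hE1
  have hE1a : AnalyticAt ℂ E1 0 := nxt_ana hE0a
  set E2 := nxt N (m + N) E1 with hE2
  have hE2a : AnalyticAt ℂ E2 0 := nxt_ana hE1a
  set E3 := nxt N (m + N + N) E2 with hE3
  have hE3a : AnalyticAt ℂ E3 0 := nxt_ana hE2a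
  have hD2 : ∀ᶠ w in 𝓝[≠] (0:ℂ), DX X (DX X Y) w = w ^ m * E0 w := by
    rw [hm]
    exact DX_form hN hF1 hD1
  have hD3 : ∀ᶠ w in 𝓝[≠] (0:ℂ), DX X (DX X (DX X Y)) w = w ^ (m + N) * E1 w :=
    DX_form (c := 0) hN hE0a (hD2.mono fun w hw => by rw [hw, zero_add])
  have hD4 : ∀ᶠ w in 𝓝[≠] (0:ℂ), DX X (DX X (DX X (DX X Y))) w = w ^ (m + N + N) * E2 w :=
    DX_form (c := 0) hN hE1a (hD3.mono fun w hw => by rw [hw, zero_add])
  have hD5 : ∀ᶠ w in 𝓝[≠] (0:ℂ), DX X (DX X (DX X (DX X (DX X Y)))) w =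
      w ^ (m + N + N + N) * E3 w :=
    DX_form (c := 0) hN hE2a (hD4.mono fun w hw => by rw [hw, zero_add])
  have hE00 : E0 0 ≠ 0 := by
    rw [hE0, nxt_zero]
    have h1 : (j : ℂ) ≠ 0 := by exact_mod_cast hj.ne'
    exact mul_ne_zero (neg_ne_zero.2 (div_ne_zero h1 hN0)) hF10
  -- the limit
  set G : ℂ → ℂ := fun w => w ^ k * ((9 * E0 w ^ 2 * E3 w - 45 * E0 w * E1 w * E2 w +
    40 * E1 w ^ 3) / (27 * E0 w ^ 4)) with hG
  have hGc : Tendsto G (𝓝[≠] (0:ℂ)) (𝓝 (G 0)) := by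
    have h0 := hE0a.continuousAt
    have h1 := hE1a.continuousAt
    have h2 := hE2a.continuousAt
    have h3 := hE3a.continuousAt
    have h4 : (27 * E0 0 ^ 4 : ℂ) ≠ 0 := mul_ne_zero (by norm_num) (pow_ne_zero _ hE00)
    have hc : ContinuousAt G 0 := by
      refine ContinuousAt.mul (continuousAt_id.pow k) (ContinuousAt.div ?_ ?_ h4)
      · exact (((continuousAt_const.mul (h0.pow 2)).mul h3).sub
          (((continuousAt_const.mul h0).mul h1).mul h2)).add (continuousAt_const.mul (h1.pow 3))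
      · exact continuousAt_const.mul (h0.pow 4)
    exact hc.tendsto.mono_left nhdsWithin_le_nhds
  have hG0 : G 0 = 0 := by
    rcases Nat.eq_zero_or_pos k with hk0 | hk0
    · have h3N : (m : ℂ) = 3 * N := by
        have : m = 3 * N := by omega
        rw [this]
        push_cast
        ring
      have e1 : E1 0 = -3 * E0 0 := by
        rw [hE1, nxt_zero, h3N, mul_div_cancel_right₀ _ hN0]
      have e2 : E2 0 = 12 * E0 0 := by
        rw [hE2, nxt_zero, e1]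
        push_cast
        rw [h3N, show (3 * (N:ℂ) + N) = 4 * N by ring, mul_div_cancel_right₀ _ hN0]
        ring
      have e3 : E3 0 = -60 * E0 0 := by
        rw [hE3, nxt_zero, e2]
        push_cast
        rw [h3N, show (3 * (N:ℂ) + N + N) = 5 * N by ring, mul_div_cancel_right₀ _ hN0]
        ring
      simp only [hG]
      rw [e1, e2, e3]
      have : (9 * E0 0 ^ 2 * (-60 * E0 0) - 45 * E0 0 * (-3 * E0 0) * (12 * E0 0) +
          40 * (-3 * E0 0) ^ 3) = 0 := by ring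
      rw [this, zero_div, mul_zero]
    · simp only [hG]
      rw [zero_pow hk0.ne', zero_mul]
  rw [hG0] at hGc
  refine hGc.congr' ?_
  filter_upwards [hD2, hD3, hD4, hD5, self_mem_nhdsWithin,
    (hE0a.continuousAt.eventually_ne hE00).filter_mono nhdsWithin_le_nhds] with w h2 h3 h4 h5 hw hE
  have hw0 : w ≠ 0 := hw
  have hwm : w ^ m ≠ 0 := pow_ne_zero m hw0
  unfold MD
  rw [h2, h3, h4, h5]
  simp only [hG]
  have h6 : 9 * (w ^ m * E0 w) ^ 2 * (w ^ (m + N + N + N) * E3 w) -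
      45 * (w ^ m * E0 w) * (w ^ (m + N) * E1 w) * (w ^ (m + N + N) * E2 w) +
      40 * (w ^ (m + N) * E1 w) ^ 3 = (w ^ m) ^ 4 * (w ^ k * (9 * E0 w ^ 2 * E3 w -
        45 * E0 w * E1 w * E2 w + 40 * E1 w ^ 3)) := by
    have h7 : w ^ N * w ^ N * w ^ N = w ^ m * w ^ k := by
      rw [← pow_add, ← pow_add, ← pow_add]
      congr 1
      omega
    rw [show w ^ (m + N + N + N) = w ^ m * (w ^ N * w ^ N * w ^ N) by
      rw [pow_add, pow_add, pow_add]; ring,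
      show 9 * (w ^ m * E0 w) ^ 2 * (w ^ m * (w ^ N * w ^ N * w ^ N) * E3 w) -
      45 * (w ^ m * E0 w) * (w ^ (m + N) * E1 w) * (w ^ (m + N + N) * E2 w) +
      40 * (w ^ (m + N) * E1 w) ^ 3 = (w ^ m) ^ 3 * (w ^ N * w ^ N * w ^ N) *
        (9 * E0 w ^ 2 * E3 w - 45 * E0 w * E1 w * E2 w + 40 * E1 w ^ 3) by
      rw [pow_add, pow_add, pow_add]; ring, h7]
    ring
  rw [h6]
  have h8 : (27 * E0 w ^ 4 : ℂ) ≠ 0 := mul_ne_zero (by norm_num) (pow_ne_zero _ hE)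
  have h9 : (w ^ m) ^ 4 ≠ 0 := pow_ne_zero _ hwm
  rw [show 27 * (w ^ m * E0 w) ^ 4 = (w ^ m) ^ 4 * (27 * E0 w ^ 4) by ring,
    mul_div_mul_left _ _ h9, mul_div_assoc]

end MB

end Pool.Agent.MP_ae5b4e_an_ALG
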