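import Mathlib
import Pool.Agent.Lib.MP_ae5b4e_an_ALG.DefsB
import Pool.Agent.Lib.MP_ae5b4e_an_ALG.Cover
import Pool.Agent.Lib.MP_ae5b4e_an_ALG.Prim
import Pool.Agent.Lib.MP_ae5b4e_an_ALG.Liou
import Pool.Agent.Lib.MP_ae5b4e_an_ALG.Branches
import Pool.Agent.Lib.MP_ae5b4e_an_ALG.MongeA
import Pool.Agent.Lib.MP_ae5b4e_an_ALG.MongeInf
import Pool.Agent.Lib.MP_ae5b4e_an_ALG.Finite
import Pool.Agent.Lib.MP_ae5b4e_an_ALG.Infin

/-! Project ALG (MP_ae5b4e_an), module AF: Monge invariant vanishes on the curve. -/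

set_option autoImplicit false

noncomputable section

namespace Pool.Agent.MP_ae5b4e_an_ALG

open Filter Topology Set Metric Complex Polynomial
open scoped Real
open Pool.Agent.MP_ae5b4e_an_ND (Dx Dy Reg)
open Pool.Agent.MP_ae5b4e_an_FLEX

namespace Invar

/-- a bounded quotient extends -/
theorem bdd_quot {f : ℂ → ℂ} {K : ℕ} {C : ℝ} (hf : AnalyticAt ℂ f 0)
    (hb : ∀ᶠ w in 𝓝[≠] (0:ℂ), ‖f w / w ^ K‖ ≤ C) :
    ∃ H : ℂ → ℂ, AnalyticAt ℂ H 0 ∧ ∀ᶠ w in 𝓝[≠] (0:ℂ), f w / w ^ K = H w := by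
  obtain ⟨r, hr, hball⟩ := Metric.eventually_nhds_iff_ball.1
    (hf.eventually_analyticAt.and (eventually_nhdsWithin_iff.1 hb))
  have hs : ball (0:ℂ) r ∈ 𝓝 (0:ℂ) := ball_mem_nhds 0 hr
  have hd : DifferentiableOn ℂ (fun w => f w / w ^ K) (ball (0:ℂ) r \ {0}) := by
    intro w hw
    have hw0 : w ≠ 0 := fun h => hw.2 h
    exact ((hball w hw.1).1.differentiableAt.div (differentiableAt_id.pow K)
      (pow_ne_zero K hw0)).differentiableWithinAt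
  have hbd : BddAbove (norm ∘ (fun w => f w / w ^ K) '' (ball (0:ℂ) r \ {0})) := by
    refine ⟨C, ?_⟩
    rintro _ ⟨w, hw, rfl⟩
    exact (hball w hw.1).2 (fun h => hw.2 h)
  have h1 := Complex.differentiableOn_update_limUnder_of_bddAbove hs hd hbd
  refine ⟨_, h1.analyticAt hs, ?_⟩
  filter_upwards [self_mem_nhdsWithin] with w hw
  rw [Function.update_of_ne hw]

theorem ev_root {d : ℕ} (hd : 0 < d) {P : ℂ → Prop} (h : ∀ᶠ w in 𝓝[≠] (0:ℂ), P (w ^ d)) :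
    ∀ᶠ z in 𝓝[≠] (0:ℂ), P z := by
  obtain ⟨r, hr, hball⟩ := Metric.eventually_nhds_iff_ball.1 (eventually_nhdsWithin_iff.1 h)
  rw [eventually_nhdsWithin_iff]
  filter_upwards [ball_mem_nhds (0:ℂ) (pow_pos hr d)] with z hz hz0
  obtain ⟨w, hw⟩ := IsAlgClosed.exists_pow_nat_eq z hd
  have hw0 : w ≠ 0 := by
    rintro rfl
    rw [zero_pow hd.ne'] at hw
    exact hz0 hw.symm
  have h1 : ‖w‖ < r := by
    rw [mem_ball_zero_iff, ← hw, norm_pow] at hz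
    exact lt_of_pow_lt_pow_left₀ d hr.le hz
  rw [← hw]
  exact hball w (mem_ball_zero_iff.2 h1) hw0

theorem tendsto_pow_punct {d : ℕ} (hd : 0 < d) :
    Tendsto (fun w : ℂ => w ^ d) (𝓝[≠] (0:ℂ)) (𝓝[≠] (0:ℂ)) := by
  refine tendsto_nhdsWithin_iff.2 ⟨?_, ?_⟩
  · have h1 : Tendsto (fun w : ℂ => w ^ d) (𝓝 0) (𝓝 (0 ^ d)) := (continuous_pow d).tendsto 0
    rw [zero_pow hd.ne'] at h1
    exact h1.mono_left nhdsWithin_le_nhds
  · filter_upwards [self_mem_nhdsWithin] with w hw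
    exact pow_ne_zero d hw

variable {m : ℂ[X][X]}

open Classical in
/-- Monge's invariant of the branch through `(x, t)` -/
def Phi (m : ℂ[X][X]) (x t : ℂ) : ℂ :=
  if h : Reg m x ∧ evalEval x t m = 0 then
    MD id (Classical.choose (Pool.Agent.MP_ae5b4e_an_ND.branch h.2 (h.1.2 _ h.2))) x else 0

theorem phi_eq {x : ℂ} (hx : Reg m x) {b : ℂ → ℂ} (hb : AnalyticAt ℂ b x)
    (hb' : ∀ᶠ z in 𝓝 x, evalEval z (b z) m = 0) : Phi m x (b x) = MD id b x := by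
  have h : Reg m x ∧ evalEval x (b x) m = 0 := ⟨hx, hb'.self_of_nhds⟩
  have hs := Classical.choose_spec (Pool.Agent.MP_ae5b4e_an_ND.branch h.2 (h.1.2 _ h.2))
  rw [Phi, dif_pos h]
  have h1 := Pool.Agent.MP_ae5b4e_an_ND.branch_eq hs.1.continuousAt hs.2.1 hs.2.2
  have h2 := Pool.Agent.MP_ae5b4e_an_ND.branch_unique hs.1.continuousAt hb.continuousAt hs.2.1
      (hx.2 _ h1.self_of_nhds) h1 hb'
  exact MD_congr (EventuallyEq.refl _ _) h2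

theorem phi_near (hirr : Irreducible (m.map (algebraMap ℂ[X] (RatFunc ℂ)))) {x : ℂ}
    (hx : Reg m x) {b : ℂ → ℂ} (hb : AnalyticAt ℂ b x)
    (hb' : ∀ᶠ z in 𝓝 x, evalEval z (b z) m = 0) :
    ∀ᶠ z in 𝓝 x, Phi m z (b z) = MD id b z := by
  filter_upwards [Pool.Agent.MP_ae5b4e_an_ND.Reg.eventually hirr hx, hb.eventually_analyticAt,
    hb'.eventually_nhds] with z h1 h2 h3
  exact phi_eq h1 h2 h3

/-- the value of `Phi` in a parametrization -/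
theorem phi_MD {X Y : ℂ → ℂ} {z : ℂ} (hX : AnalyticAt ℂ X z) (hY : AnalyticAt ℂ Y z)
    (hX' : deriv X z ≠ 0) (hreg : Reg m (X z))
    (h : ∀ᶠ z' in 𝓝 z, evalEval (X z') (Y z') m = 0) : Phi m (X z) (Y z) = MD X Y z := by
  have h0 := h.self_of_nhds
  obtain ⟨b, hb1, hb2, hb3⟩ := Pool.Agent.MP_ae5b4e_an_ND.branch h0 (hreg.2 _ h0)
  have hb4 := Pool.Agent.MP_ae5b4e_an_ND.branch_eq hb1.continuousAt hb2 hb3
  have hpair : Tendsto (fun z => (X z, Y z)) (𝓝 z) (𝓝 (X z, Y z)) := by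
    rw [nhds_prod_eq]
    exact hX.continuousAt.tendsto.prodMk hY.continuousAt.tendsto
  have hbY : Y =ᶠ[𝓝 z] b ∘ X := by
    filter_upwards [hpair.eventually hb3, h] with z' hz1 hz2
    exact (hz1.1 hz2).symm
  have h1 := phi_eq hreg hb1 hb4
  rw [hb2] at h1
  rw [h1, MD_congr (EventuallyEq.refl _ _) hbY, MD_comp hX hX' hb1]

/-- the second derivative of a branch at a regular point -/
theorem branch_second (hirr : Irreducible (m.map (algebraMap ℂ[X] (RatFunc ℂ)))) {g : ℂ → ℂ}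
    {x₀ : ℂ} (hg : GoodG id g (fun _ => 0) x₀) (hm : ∀ᶠ x in 𝓝 x₀, evalEval x (g x) m = 0)
    {b : ℂ → ℂ} {x₁ : ℂ} (hx₁ : Reg m x₁) (hb : AnalyticAt ℂ b x₁)
    (hbm : ∀ᶠ x in 𝓝 x₁, evalEval x (b x) m = 0) : deriv (deriv b) x₁ ≠ 0 := by
  have h1 := branch_good hirr hg hm hx₁ hb hbm
  have hφ : ∀ s : ℂ, AnalyticAt ℂ (fun w : ℂ => x₁ + w) s := fun s =>
    analyticAt_const.add analyticAt_id
  have hd : ∀ s : ℂ, deriv (fun w : ℂ => x₁ + w) s = 1 := fun s => by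
    simp
  have ht : Tendsto (fun w : ℂ => x₁ + w) (𝓝[≠] (0:ℂ)) (𝓝[≠] x₁) := by
    refine tendsto_nhdsWithin_iff.2 ⟨?_, ?_⟩
    · have h2 : Tendsto (fun w : ℂ => x₁ + w) (𝓝 0) (𝓝 (x₁ + 0)) :=
        (continuous_const.add continuous_id).tendsto 0
      rw [add_zero] at h2
      exact h2.mono_left nhdsWithin_le_nhds
    · filter_upwards [self_mem_nhdsWithin] with w hw
      intro h
      exact hw (by simpa using h)
  have h3 : ∀ᶠ s in 𝓝[≠] (0:ℂ), GoodG (fun w => x₁ + w ^ 1) (fun w => b (x₁ + w))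
      (fun _ => 0) s := by
    filter_upwards [ht.eventually h1] with s hs
    have h4 := goodG_comp (hφ s) (by rw [hd]; exact one_ne_zero) hs
    refine goodG_congr h4 ?_ (EventuallyEq.refl _ _) ?_
    · exact Eventually.of_forall fun w => by simp
    · exact Eventually.of_forall fun w => by simp
  have hba : AnalyticAt ℂ (fun w => b (x₁ + w)) 0 := by
    have h5 : AnalyticAt ℂ b (x₁ + 0) := by rwa [add_zero]
    exact AnalyticAt.comp (g := b) (f := fun w : ℂ => x₁ + w) h5 (hφ 0)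
  have h6 := fin_place one_pos hba (fun om hom _ => by simpa using hom) h3
  have e1 : deriv (fun w => b (x₁ + w)) = fun w => deriv b (x₁ + w) := by
    funext w
    exact deriv_comp_const_add b x₁ w
  have e2 : deriv (fun w : ℂ => x₁ + w ^ 1) = fun _ => 1 := by
    funext w
    simp only [pow_one]
    exact hd w
  intro h7
  apply h6
  rw [Wr, e1, e2, deriv_comp_const_add (deriv b) x₁ 0, add_zero, h7]
  simp

section Bounds

variable (hirr : Irreducible (m.map (algebraMap ℂ[X] (RatFunc ℂ)))) {g : ℂ → ℂ}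
  {x₀ : ℂ} (hg : GoodG id g (fun _ => 0) x₀) (hm : ∀ᶠ x in 𝓝 x₀, evalEval x (g x) m = 0)

include hirr hg hm

theorem fin_bound {e : ℂ} {N : ℕ} (hN : 0 < N) {h : ℂ → ℂ} (hh : AnalyticAt ℂ h 0)
    (hr : ∀ᶠ w in 𝓝[≠] (0:ℂ), Reg m (e + w ^ N) ∧ evalEval (e + w ^ N) (h w) m = 0) :
    ∃ C : ℝ, ∀ᶠ w in 𝓝[≠] (0:ℂ), ‖Phi m (e + w ^ N) (h w)‖ ≤ C := by
  obtain ⟨M, d, h', hM, hd, hNd, hh', heq, hprim⟩ := exists_prim hN hh
  have hX : ∀ z : ℂ, AnalyticAt ℂ (fun z : ℂ => e + z ^ M) z := fun z =>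
    analyticAt_const.add (analyticAt_id.pow M)
  have hroot : ∀ᶠ z in 𝓝[≠] (0:ℂ), Reg m (e + z ^ M) ∧ evalEval (e + z ^ M) (h' z) m = 0 := by
    apply ev_root hd
    filter_upwards [hr, nhdsWithin_le_nhds heq] with w h1 h2
    rw [← pow_mul, ← hNd, ← h2]
    exact h1
  have hdX : ∀ᶠ z in 𝓝[≠] (0:ℂ), deriv (fun z : ℂ => e + z ^ M) z ≠ 0 := by
    filter_upwards [self_mem_nhdsWithin] with z hz
    rw [deriv_const_add, deriv_pow_field]
    exact mul_ne_zero (Nat.cast_ne_zero.2 hM.ne') (pow_ne_zero _ hz)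
  have hYa : ∀ᶠ z in 𝓝[≠] (0:ℂ), AnalyticAt ℂ h' z := nhdsWithin_le_nhds hh'.eventually_analyticAt
  have hgood : ∀ᶠ s in 𝓝[≠] (0:ℂ), GoodG (fun z => e + z ^ M) h' (fun _ => 0) s := by
    apply place_good hirr hg hm (hX 0).meromorphicAt hh'.meromorphicAt
    filter_upwards [hroot, hdX, hYa] with w h1 h2 h3
    exact ⟨hX w, h3, h2, h1.1, h1.2⟩
  have hW := fin_place hM hh' hprim hgood
  obtain ⟨C, hC⟩ := MD_bdd (hX 0) hh' hdX hW
  refine ⟨C, ?_⟩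
  have h1 : ∀ᶠ z in 𝓝[≠] (0:ℂ), ‖Phi m (e + z ^ M) (h' z)‖ ≤ C := by
    filter_upwards [hC, hroot, hdX, hYa, Branches.punct_nhds hroot] with z h1 h2 h3 h4 h5
    rw [phi_MD (X := fun z => e + z ^ M) (hX z) h4 h3 h2.1 (h5.mono fun w hw => hw.2)]
    exact h1
  filter_upwards [(tendsto_pow_punct hd).eventually h1, nhdsWithin_le_nhds heq] with w h2 h3
  rw [h3, hNd, pow_mul]
  exact h2

theorem inf_bound {N : ℕ} (hN : 0 < N) {yh : ℂ → ℂ} (hh : AnalyticAt ℂ yh 0)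
    (hr : ∀ᶠ w in 𝓝[≠] (0:ℂ), Reg m ((w ^ N)⁻¹) ∧ evalEval ((w ^ N)⁻¹) (yh w / w ^ N) m = 0) :
    Tendsto (fun w => Phi m ((w ^ N)⁻¹) (yh w / w ^ N)) (𝓝[≠] (0:ℂ)) (𝓝 0) := by
  obtain ⟨M, d, y', hM, hd, hNd, hy', heq, hprim⟩ := exists_prim hN hh
  have hX : ∀ z : ℂ, z ≠ 0 → AnalyticAt ℂ (fun z : ℂ => (z ^ M)⁻¹) z := fun z hz =>
    (analyticAt_id.pow M).inv (pow_ne_zero M hz)
  have hroot : ∀ᶠ z in 𝓝[≠] (0:ℂ), Reg m ((z ^ M)⁻¹) ∧
      evalEval ((z ^ M)⁻¹) (y' z / z ^ M) m = 0 := by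
    apply ev_root hd
    filter_upwards [hr, nhdsWithin_le_nhds heq] with w h1 h2
    rw [← pow_mul, ← hNd, ← h2]
    exact h1
  have hdX : ∀ᶠ z in 𝓝[≠] (0:ℂ), deriv (fun z : ℂ => (z ^ M)⁻¹) z ≠ 0 := by
    filter_upwards [self_mem_nhdsWithin] with z hz
    have h1 : HasDerivAt (fun z : ℂ => (z ^ M)⁻¹) (-(M * z ^ (M - 1)) / (z ^ M) ^ 2) z :=
      (hasDerivAt_pow M z).inv (pow_ne_zero M hz)
    rw [h1.deriv]
    exact div_ne_zero (neg_ne_zero.2 (mul_ne_zero (Nat.cast_ne_zero.2 hM.ne')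
      (pow_ne_zero _ hz))) (pow_ne_zero _ (pow_ne_zero M hz))
  have hYa : ∀ᶠ z in 𝓝[≠] (0:ℂ), AnalyticAt ℂ (fun z => y' z / z ^ M) z := by
    filter_upwards [self_mem_nhdsWithin, nhdsWithin_le_nhds hy'.eventually_analyticAt] with z hz h1
    exact h1.div (analyticAt_id.pow M) (pow_ne_zero M hz)
  have hXm : MeromorphicAt (fun z : ℂ => (z ^ M)⁻¹) 0 := (analyticAt_id.pow M).meromorphicAt.inv
  have hYm : MeromorphicAt (fun z : ℂ => y' z / z ^ M) 0 :=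
    hy'.meromorphicAt.div (analyticAt_id.pow M).meromorphicAt
  have hgood : ∀ᶠ s in 𝓝[≠] (0:ℂ), GoodG (fun z => (z ^ M)⁻¹) (fun z => y' z / z ^ M)
      (fun _ => 0) s := by
    apply place_good hirr hg hm hXm hYm
    filter_upwards [hroot, hdX, hYa, self_mem_nhdsWithin] with w h1 h2 h3 h4
    exact ⟨hX w h4, h3, h2, h1.1, h1.2⟩
  obtain ⟨c0, c1, j, f, hj, hjM, hj2, hf, hf0, he⟩ := inf_place hM hy' hgood
  have hlim := MD_inf hM hj hjM hj2 hf hf0 he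
  have h1 : Tendsto (fun z => Phi m ((z ^ M)⁻¹) (y' z / z ^ M)) (𝓝[≠] (0:ℂ)) (𝓝 0) := by
    refine hlim.congr' ?_
    filter_upwards [hroot, hdX, hYa, Branches.punct_nhds hroot, self_mem_nhdsWithin]
      with z h2 h3 h4 h5 h6
    exact (phi_MD (X := fun z => (z ^ M)⁻¹) (Y := fun z => y' z / z ^ M) (hX z h6) h4 h3 h2.1
      (h5.mono fun w hw => hw.2)).symm
  refine (h1.comp (tendsto_pow_punct hd)).congr' ?_
  filter_upwards [nhdsWithin_le_nhds heq] with w h3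
  simp only [Function.comp]
  rw [h3, hNd, pow_mul]

theorem near_fin {C : ℝ} (hC : ∀ x, Reg m x → ∀ t, evalEval x t m = 0 → ‖t‖ ≤ C * (1 + ‖x‖))
    (e : ℂ) : ∃ C' δ' : ℝ, 0 < δ' ∧ ∀ x, x ≠ e → ‖x - e‖ < δ' → Reg m x → ∀ t,
      evalEval x t m = 0 → ‖Phi m x t‖ ≤ C' := by
  obtain ⟨N, δ, K, h, hN, hδ, hdiff, hroots⟩ := cover_fin hirr e
  have hev : ∀ᶠ w in 𝓝[≠] (0:ℂ), w ≠ 0 ∧ ‖w‖ < δ ∧ ‖w‖ < 1 := by
    filter_upwards [self_mem_nhdsWithin, nhdsWithin_le_nhds (ball_mem_nhds (0:ℂ) hδ),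
      nhdsWithin_le_nhds (ball_mem_nhds (0:ℂ) one_pos)] with w h1 h2 h3
    exact ⟨h1, mem_ball_zero_iff.1 h2, mem_ball_zero_iff.1 h3⟩
  have hH : ∀ i, ∃ Ci : ℝ, ∀ᶠ w in 𝓝[≠] (0:ℂ), ‖Phi m (e + w ^ N) (h i w / w ^ K)‖ ≤ Ci := by
    intro i
    have han : AnalyticAt ℂ (h i) 0 := (hdiff i).analyticAt (ball_mem_nhds 0 hδ)
    have hb : ∀ᶠ w in 𝓝[≠] (0:ℂ), ‖h i w / w ^ K‖ ≤ |C| * (1 + (‖e‖ + 1)) := by
      filter_upwards [hev] with w hw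
      obtain ⟨h1, h2, -⟩ := hroots w hw.1 hw.2.1
      have h3 : ‖e + w ^ N‖ ≤ ‖e‖ + 1 := by
        refine (norm_add_le _ _).trans ?_
        rw [norm_pow]
        gcongr
        exact pow_le_one₀ (norm_nonneg _) hw.2.2.le
      calc ‖h i w / w ^ K‖ ≤ C * (1 + ‖e + w ^ N‖) := hC _ h1 _ (h2 i)
        _ ≤ |C| * (1 + ‖e + w ^ N‖) := by
          gcongr
          exact le_abs_self C
        _ ≤ |C| * (1 + (‖e‖ + 1)) := by gcongr
    obtain ⟨H, hHa, hHe⟩ := bdd_quot han hb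
    obtain ⟨Ci, hCi⟩ := fin_bound hirr hg hm (e := e) hN hHa (by
      filter_upwards [hev, hHe] with w hw hw2
      obtain ⟨h1, h2, -⟩ := hroots w hw.1 hw.2.1
      rw [← hw2]
      exact ⟨h1, h2 i⟩)
    refine ⟨Ci, ?_⟩
    filter_upwards [hCi, hHe] with w h1 h2
    rw [h2]
    exact h1
  choose Ci hCi using hH
  have h1 : ∀ᶠ z in 𝓝[≠] (0:ℂ), ∀ t, evalEval (e + z) t m = 0 →
      ‖Phi m (e + z) t‖ ≤ ∑ i, |Ci i| := by
    apply ev_root hN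
    filter_upwards [hev, eventually_all.2 hCi] with w hw hw2 t ht
    obtain ⟨i, rfl⟩ := (hroots w hw.1 hw.2.1).2.2 t ht
    exact (hw2 i).trans ((le_abs_self _).trans
      (Finset.single_le_sum (f := fun i => |Ci i|) (fun j _ => abs_nonneg _) (Finset.mem_univ i)))
  obtain ⟨r, hr, hball⟩ := Metric.eventually_nhds_iff_ball.1 (eventually_nhdsWithin_iff.1 h1)
  refine ⟨∑ i, |Ci i|, r, hr, fun x hx hxr _ t ht => ?_⟩
  have h2 := hball (x - e) (mem_ball_zero_iff.2 hxr) (sub_ne_zero.2 hx) t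
  rw [add_sub_cancel] at h2
  exact h2 ht

theorem near_inf {C : ℝ} (hC : ∀ x, Reg m x → ∀ t, evalEval x t m = 0 → ‖t‖ ≤ C * (1 + ‖x‖))
    (ε : ℝ) (hε : 0 < ε) : ∃ R : ℝ, ∀ x : ℂ, R < ‖x‖ → Reg m x → ∀ t,
      evalEval x t m = 0 → ‖Phi m x t‖ < ε := by
  obtain ⟨N, δ, K, h, hN, hδ, hdiff, hroots⟩ := cover_inf hirr
  have hev : ∀ᶠ w in 𝓝[≠] (0:ℂ), w ≠ 0 ∧ ‖w‖ < δ ∧ ‖w‖ < 1 := by
    filter_upwards [self_mem_nhdsWithin, nhdsWithin_le_nhds (ball_mem_nhds (0:ℂ) hδ),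
      nhdsWithin_le_nhds (ball_mem_nhds (0:ℂ) one_pos)] with w h1 h2 h3
    exact ⟨h1, mem_ball_zero_iff.1 h2, mem_ball_zero_iff.1 h3⟩
  have hH : ∀ i, ∀ᶠ w in 𝓝[≠] (0:ℂ), ‖Phi m ((w ^ N)⁻¹) (h i w / w ^ K)‖ < ε := by
    intro i
    have han : AnalyticAt ℂ (fun w => w ^ N * h i w) 0 :=
      (analyticAt_id.pow N).mul ((hdiff i).analyticAt (ball_mem_nhds 0 hδ))
    have hb : ∀ᶠ w in 𝓝[≠] (0:ℂ), ‖(w ^ N * h i w) / w ^ K‖ ≤ |C| * 2 := by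
      filter_upwards [hev] with w hw
      obtain ⟨h1, h2, -⟩ := hroots w hw.1 hw.2.1
      have h3 : ‖h i w / w ^ K‖ ≤ |C| * (1 + ‖(w ^ N)⁻¹‖) := by
        refine (hC _ h1 _ (h2 i)).trans ?_
        gcongr
        exact le_abs_self C
      have h4 : ‖w ^ N‖ ≤ 1 := by
        rw [norm_pow]
        exact pow_le_one₀ (norm_nonneg _) hw.2.2.le
      have h5 : ‖w ^ N‖ * ‖(w ^ N)⁻¹‖ = 1 := by
        rw [← norm_mul, mul_inv_cancel₀ (pow_ne_zero N hw.1), norm_one]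
      rw [mul_div_assoc, norm_mul]
      calc ‖w ^ N‖ * ‖h i w / w ^ K‖ ≤ ‖w ^ N‖ * (|C| * (1 + ‖(w ^ N)⁻¹‖)) := by gcongr
        _ = |C| * (‖w ^ N‖ + ‖w ^ N‖ * ‖(w ^ N)⁻¹‖) := by ring
        _ = |C| * (‖w ^ N‖ + 1) := by rw [h5]
        _ ≤ |C| * (1 + 1) := by gcongr
        _ = |C| * 2 := by ring
    obtain ⟨H, hHa, hHe⟩ := bdd_quot han hb
    have hHe' : ∀ᶠ w in 𝓝[≠] (0:ℂ), h i w / w ^ K = H w / w ^ N := by
      filter_upwards [hHe, hev] with w h1 h2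
      rw [← h1]
      have h3 : w ^ N ≠ 0 := pow_ne_zero N h2.1
      have h4 : w ^ K ≠ 0 := pow_ne_zero K h2.1
      field_simp
    have h6 := inf_bound hirr hg hm hN hHa (by
      filter_upwards [hev, hHe'] with w hw hw2
      obtain ⟨h1, h2, -⟩ := hroots w hw.1 hw.2.1
      rw [← hw2]
      exact ⟨h1, h2 i⟩)
    have h7 := (tendsto_zero_iff_norm_tendsto_zero.1 h6).eventually (gt_mem_nhds hε)
    filter_upwards [h7, hHe'] with w h8 h9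
    rw [h9]
    exact h8
  have h1 : ∀ᶠ z in 𝓝[≠] (0:ℂ), ∀ t, evalEval z⁻¹ t m = 0 → ‖Phi m z⁻¹ t‖ < ε := by
    apply ev_root hN
    filter_upwards [hev, eventually_all.2 hH] with w hw hw2 t ht
    obtain ⟨i, rfl⟩ := (hroots w hw.1 hw.2.1).2.2 t ht
    exact hw2 i
  obtain ⟨r, hr, hball⟩ := Metric.eventually_nhds_iff_ball.1 (eventually_nhdsWithin_iff.1 h1)
  refine ⟨r⁻¹, fun x hx _ t ht => ?_⟩
  have hx0 : 0 < ‖x‖ := (inv_pos.2 hr).trans hx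
  have h2 := hball x⁻¹ (mem_ball_zero_iff.2 (by
    rw [norm_inv]
    exact inv_lt_of_inv_lt₀ hr hx)) (inv_ne_zero (norm_pos_iff.1 hx0)) t
  rw [inv_inv] at h2
  exact h2 ht

end Bounds

end Invar

section AF

open Invar in
/-- Monge's invariant vanishes -/
theorem monge_zero {m : ℂ[X][X]} (hirr : Irreducible (m.map (algebraMap ℂ[X] (RatFunc ℂ))))
    {g : ℂ → ℂ} {x₀ : ℂ} (hg : GoodG id g (fun _ => 0) x₀)
    (hm : ∀ᶠ x in 𝓝 x₀, evalEval x (g x) m = 0) {C : ℝ}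
    (hC : ∀ x, Reg m x → ∀ t, evalEval x t m = 0 → ‖t‖ ≤ C * (1 + ‖x‖)) :
    ∀ᶠ x in 𝓝 x₀, MD id g x = 0 := by
  have hga : AnalyticAt ℂ g x₀ := hg.1.2.1
  have hzero : ∀ x, Reg m x → ∀ t, evalEval x t m = 0 → Phi m x t = 0 := by
    intro x hx t ht
    refine liouville_alg hirr (Φ := Phi m) ?_ (near_fin hirr hg hm hC) (near_inf hirr hg hm hC)
      hx ht
    intro x₁ hx₁ b hb hbm
    exact (MD_ana hb (branch_second hirr hg hm hx₁ hb hbm)).congr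
      ((phi_near hirr hx₁ hb hbm).mono fun z hz => hz.symm)
  have hG : deriv (deriv g) x₀ ≠ 0 := by
    have h1 := hg.1.2.2.2
    intro h2
    apply h1
    rw [Wr, h2]
    simp
  have hpunct : ∀ᶠ x in 𝓝[≠] x₀, MD id g x = 0 := by
    filter_upwards [Branches.reg_punct hirr x₀, nhdsWithin_le_nhds hga.eventually_analyticAt,
      nhdsWithin_le_nhds hm.eventually_nhds] with x h1 h2 h3
    rw [← phi_eq h1 h2 h3]
    exact hzero x h1 _ h3.self_of_nhds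
  rcases (MD_ana hga hG).eventually_eq_zero_or_eventually_ne_zero with h1 | h1
  · exact h1
  · exfalso
    obtain ⟨x, h2, h3⟩ := (h1.and hpunct).exists
    exact h2 h3

end AF

end Pool.Agent.MP_ae5b4e_an_ALG
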