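import Pool.Agent.Lib.MP_ae5b4e_an_ALG.DefsB

set_option autoImplicit false

/-! # Monge's equation: the solutions are conics -/

noncomputable section

namespace Pool.Agent.MP_ae5b4e_an_ALG

open Filter Topology Set Metric Complex Polynomial
open scoped Real
open Pool.Agent.MP_ae5b4e_an_FLEX

namespace MongeConic

theorem hp {f : ℂ → ℂ} {f' x : ℂ} (n : ℕ) (h : HasDerivAt f f' x) :
    HasDerivAt (fun y => f y ^ n) (n * f x ^ (n - 1) * f') x := h.pow n

/-- the derivative of a germ -/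
theorem deriv_ev {x₀ : ℂ} {f g g' : ℂ → ℂ} (h : ∀ᶠ x in 𝓝 x₀, f x = g x)
    (hg : ∀ᶠ x in 𝓝 x₀, HasDerivAt g (g' x) x) : ∀ᶠ x in 𝓝 x₀, deriv f x = g' x := by
  filter_upwards [h.eventually_nhds, hg] with x h1 h2
  exact (h2.congr_of_eventuallyEq h1).deriv

/-- a germ with vanishing derivative is constant -/
theorem const_of_deriv {x₀ : ℂ} {f : ℂ → ℂ} (h : ∀ᶠ x in 𝓝 x₀, HasDerivAt f 0 x) :
    ∃ c : ℂ, ∀ᶠ x in 𝓝 x₀, f x = c := by
  obtain ⟨ε, hε, hb⟩ := Metric.eventually_nhds_iff_ball.1 h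
  refine ⟨f x₀, Metric.eventually_nhds_iff_ball.2 ⟨ε, hε, fun x hx => ?_⟩⟩
  refine IsOpen.is_const_of_deriv_eq_zero (s := ball x₀ ε) isOpen_ball
    (convex_ball x₀ ε).isPreconnected ?_ ?_ hx (mem_ball_self hε)
  · intro y hy
    exact (hb y hy).differentiableAt.differentiableWithinAt
  · intro y hy
    exact (hb y hy).deriv

/-- a germ with vanishing second derivative is affine -/
theorem lin_of_deriv2 {x₀ : ℂ} {f : ℂ → ℂ} (hf : AnalyticAt ℂ f x₀)
    (h : ∀ᶠ x in 𝓝 x₀, deriv (deriv f) x = 0) :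
    ∃ a b : ℂ, ∀ᶠ x in 𝓝 x₀, f x = a * x + b := by
  obtain ⟨a, ha⟩ := const_of_deriv (f := deriv f) (x₀ := x₀) (by
    filter_upwards [hf.deriv.eventually_analyticAt, h] with x h1 h2
    have := h1.differentiableAt.hasDerivAt
    rwa [h2] at this)
  obtain ⟨b, hb⟩ := const_of_deriv (f := fun x => f x - a * x) (x₀ := x₀) (by
    filter_upwards [hf.eventually_analyticAt, ha] with x h1 h2
    have h3 := h1.differentiableAt.hasDerivAt
    rw [h2] at h3
    have h4 : HasDerivAt (fun x => f x - a * x) (a - a * 1) x :=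
      h3.sub ((hasDerivAt_id x).const_mul a)
    rwa [mul_one, sub_self] at h4)
  refine ⟨a, b, ?_⟩
  filter_upwards [hb] with x hx
  linear_combination hx

/-- the cube root of `1 / G` -/
theorem exists_root {x₀ : ℂ} {G : ℂ → ℂ} (hG : AnalyticAt ℂ G x₀) (h0 : G x₀ ≠ 0) :
    ∃ r : ℂ → ℂ, AnalyticAt ℂ r x₀ ∧ ∀ᶠ x in 𝓝 x₀, r x ^ 3 * G x = 1 := by
  refine ⟨fun x => exp (-(log (G x₀)) / 3) * exp (-(log (G x / G x₀)) / 3), ?_, ?_⟩
  · have h1 : AnalyticAt ℂ (fun x => G x / G x₀) x₀ := hG.div analyticAt_const h0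
    have h2 : AnalyticAt ℂ (fun x => log (G x / G x₀)) x₀ := by
      refine h1.clog ?_
      rw [div_self h0]
      exact one_mem_slitPlane
    exact analyticAt_const.mul ((h2.neg.div analyticAt_const (by norm_num)).cexp)
  · filter_upwards [hG.continuousAt.eventually_ne h0] with x hx
    have h3 : exp (-(log (G x₀)) / 3) ^ 3 = (G x₀)⁻¹ := by
      rw [← exp_nat_mul]
      have : ((3 : ℕ) : ℂ) * (-(log (G x₀)) / 3) = -(log (G x₀)) := by
        push_cast; ring
      rw [this, exp_neg, exp_log h0]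
    have h4 : exp (-(log (G x / G x₀)) / 3) ^ 3 = (G x / G x₀)⁻¹ := by
      rw [← exp_nat_mul]
      have : ((3 : ℕ) : ℂ) * (-(log (G x / G x₀)) / 3) = -(log (G x / G x₀)) := by
        push_cast; ring
      rw [this, exp_neg, exp_log (div_ne_zero hx h0)]
    rw [mul_pow, h3, h4]
    field_simp

end MongeConic

open MongeConic

/-- Monge's equation -/
theorem conic_of_monge {g : ℂ → ℂ} {x₀ : ℂ} (hg : AnalyticAt ℂ g x₀)
    (hG : deriv (deriv g) x₀ ≠ 0) (hM : ∀ᶠ x in 𝓝 x₀, MD id g x = 0) :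
    ∃ A B C D E F : ℂ, (A, B, C, D, E, F) ≠ (0, 0, 0, 0, 0, 0) ∧
      ∀ᶠ x in 𝓝 x₀, A * x ^ 2 + B * x * g x + C * g x ^ 2 + D * x + E * g x + F = 0 := by
  have hid : ∀ f : ℂ → ℂ, DX id f = deriv f := fun f => by
    funext w
    simp [DX]
  have hGa : AnalyticAt ℂ (deriv (deriv g)) x₀ := hg.deriv.deriv
  obtain ⟨r, hr, hrG⟩ := exists_root hGa hG
  set G : ℂ → ℂ := deriv (deriv g) with hGdef
  set r1 : ℂ → ℂ := deriv r with hr1
  set r2 : ℂ → ℂ := deriv r1 with hr2
  set r3 : ℂ → ℂ := deriv r2 with hr3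
  have hd0 : ∀ᶠ x in 𝓝 x₀, HasDerivAt r (r1 x) x := by
    filter_upwards [hr.eventually_analyticAt] with x h1
    exact h1.differentiableAt.hasDerivAt
  have hd1 : ∀ᶠ x in 𝓝 x₀, HasDerivAt r1 (r2 x) x := by
    filter_upwards [hr.deriv.eventually_analyticAt] with x h1
    exact h1.differentiableAt.hasDerivAt
  have hd2 : ∀ᶠ x in 𝓝 x₀, HasDerivAt r2 (r3 x) x := by
    filter_upwards [hr.deriv.deriv.eventually_analyticAt] with x h1
    exact h1.differentiableAt.hasDerivAt
  have hr0 : ∀ᶠ x in 𝓝 x₀, r x ≠ 0 := by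
    filter_upwards [hrG] with x hx h0
    rw [h0] at hx
    norm_num at hx
  -- `u = 1 / r`
  have hu : ∀ᶠ x in 𝓝 x₀, HasDerivAt (fun x => (r x)⁻¹) (-(r1 x) * (r x)⁻¹ ^ 2) x := by
    filter_upwards [hd0, hr0] with x h1 h2
    have h3 := h1.inv h2
    refine h3.congr_deriv ?_
    field_simp
  have e0 : ∀ᶠ x in 𝓝 x₀, G x = (r x)⁻¹ ^ 3 := by
    filter_upwards [hrG, hr0] with x h1 h2
    field_simp
    linear_combination h1
  have e1 : ∀ᶠ x in 𝓝 x₀, deriv G x = -3 * r1 x * (r x)⁻¹ ^ 4 := by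
    refine deriv_ev e0 ?_
    filter_upwards [hu] with x h1
    refine (hp 3 h1).congr_deriv ?_
    push_cast
    ring
  have e2 : ∀ᶠ x in 𝓝 x₀, deriv (deriv G) x =
      -3 * r2 x * (r x)⁻¹ ^ 4 + 12 * r1 x ^ 2 * (r x)⁻¹ ^ 5 := by
    refine deriv_ev e1 ?_
    filter_upwards [hu, hd1] with x h1 h2
    refine ((h2.const_mul (-3)).mul (hp 4 h1)).congr_deriv ?_
    push_cast
    ring
  have e3 : ∀ᶠ x in 𝓝 x₀, deriv (deriv (deriv G)) x =
      -3 * r3 x * (r x)⁻¹ ^ 4 + 36 * r1 x * r2 x * (r x)⁻¹ ^ 5 - 60 * r1 x ^ 3 * (r x)⁻¹ ^ 6 := by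
    refine deriv_ev e2 ?_
    filter_upwards [hu, hd1, hd2] with x h1 h2 h3
    refine (((h3.const_mul (-3)).mul (hp 4 h1)).add
      (((hp 2 h2).const_mul 12).mul (hp 5 h1))).congr_deriv ?_
    push_cast
    ring
  -- Monge's equation for `r`
  have hm : ∀ᶠ x in 𝓝 x₀, r x * r3 x + 3 * r1 x * r2 x = 0 := by
    filter_upwards [hM, e0, e1, e2, e3, hr0] with x h h0 h1 h2 h3 hx
    have hGx : G x ≠ 0 := by
      rw [h0]
      exact pow_ne_zero 3 (inv_ne_zero hx)
    simp only [MD, hid] at h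
    rw [div_eq_zero_iff] at h
    rcases h with h | h
    · change 9 * G x ^ 2 * deriv (deriv (deriv G)) x - 45 * G x * deriv G x * deriv (deriv G) x +
        40 * deriv G x ^ 3 = 0 at h
      rw [h3, h2, h1, h0] at h
      have h5 : -27 * (r x)⁻¹ ^ 11 * (r x * r3 x + 3 * r1 x * r2 x) = 0 := by
        have h6 : (r x)⁻¹ ^ 11 * r x = (r x)⁻¹ ^ 10 := by
          field_simp
        linear_combination h - 27 * r3 x * h6
      rcases mul_eq_zero.1 h5 with h7 | h7
      · exfalso
        have := pow_ne_zero 11 (inv_ne_zero hx)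
        rcases mul_eq_zero.1 h7 with h8 | h8
        · norm_num at h8
        · exact this h8
      · exact h7
    · exfalso
      change 27 * G x ^ 4 = 0 at h
      have := pow_ne_zero 4 hGx
      rcases mul_eq_zero.1 h with h8 | h8
      · norm_num at h8
      · exact this h8
  -- first integral
  obtain ⟨c, hc⟩ : ∃ c : ℂ, ∀ᶠ x in 𝓝 x₀, r x ^ 3 * r2 x = c := by
    refine const_of_deriv ?_
    filter_upwards [hm, hd0, hd2] with x h h0 h2
    refine ((hp 3 h0).mul h2).congr_deriv ?_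
    push_cast
    linear_combination r x ^ 2 * h
  -- the square of `r` is a quadratic polynomial
  have hq1 : ∀ᶠ x in 𝓝 x₀, deriv (fun x => r x ^ 2) x = 2 * r x * r1 x := by
    filter_upwards [hd0] with x h0
    rw [(hp 2 h0).deriv]
    push_cast
    ring
  have hq2 : ∀ᶠ x in 𝓝 x₀, deriv (deriv (fun x => r x ^ 2)) x = 2 * r1 x ^ 2 + 2 * r x * r2 x := by
    refine deriv_ev hq1 ?_
    filter_upwards [hd0, hd1] with x h0 h1
    refine ((h0.const_mul 2).mul h1).congr_deriv ?_
    ring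
  obtain ⟨al, hal⟩ : ∃ al : ℂ, ∀ᶠ x in 𝓝 x₀, 2 * r1 x ^ 2 + 2 * r x * r2 x = al := by
    refine const_of_deriv ?_
    filter_upwards [hm, hd0, hd1, hd2] with x h h0 h1 h2
    refine (((hp 2 h1).const_mul 2).add ((h0.const_mul 2).mul h2)).congr_deriv ?_
    push_cast
    linear_combination 2 * h
  obtain ⟨be, de, hbe⟩ : ∃ be de : ℂ, ∀ᶠ x in 𝓝 x₀, r x ^ 2 - al / 2 * x ^ 2 = be * x + de := by
    refine lin_of_deriv2 ((hr.pow 2).sub (analyticAt_const.mul (analyticAt_id.pow 2))) ?_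
    have h1 : ∀ᶠ x in 𝓝 x₀, deriv (fun x => r x ^ 2 - al / 2 * x ^ 2) x =
        2 * r x * r1 x - al * x := by
      filter_upwards [hd0] with x h0
      have := ((hp 2 h0).sub ((hp 2 (hasDerivAt_id x)).const_mul (al / 2))).deriv
      simp only [id] at this
      refine Eq.trans this ?_
      push_cast
      ring
    have h2 : ∀ᶠ x in 𝓝 x₀, deriv (deriv (fun x => r x ^ 2 - al / 2 * x ^ 2)) x =
        2 * r1 x ^ 2 + 2 * r x * r2 x - al := by
      refine deriv_ev h1 ?_
      filter_upwards [hd0, hd1] with x h0 h1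
      refine (((h0.const_mul 2).mul h1).sub ((hasDerivAt_id x).const_mul al)).congr_deriv ?_
      ring
    filter_upwards [h2, hal] with x h3 h4
    rw [h3, h4, sub_self]
  -- `r = c g + a x + b`
  obtain ⟨a, b, hab⟩ : ∃ a b : ℂ, ∀ᶠ x in 𝓝 x₀, r x - c * g x = a * x + b := by
    refine lin_of_deriv2 (hr.sub (analyticAt_const.mul hg)) ?_
    have h1 : ∀ᶠ x in 𝓝 x₀, deriv (fun x => r x - c * g x) x = r1 x - c * deriv g x := by
      filter_upwards [hd0, hg.eventually_analyticAt] with x h0 h1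
      exact (h0.sub (h1.differentiableAt.hasDerivAt.const_mul c)).deriv
    have h2 : ∀ᶠ x in 𝓝 x₀, deriv (deriv (fun x => r x - c * g x)) x = r2 x - c * G x := by
      refine deriv_ev h1 ?_
      filter_upwards [hd1, hg.deriv.eventually_analyticAt] with x h0 h1
      exact (h0.sub (h1.differentiableAt.hasDerivAt.const_mul c))
    filter_upwards [h2, hc, hrG] with x h3 h4 h5
    rw [h3, ← h4]
    linear_combination (-r2 x) * h5
  by_cases hc0 : c = 0
  · -- `r = a x + b`
    subst hc0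
    have hrl : ∀ᶠ x in 𝓝 x₀, r x = a * x + b := by
      filter_upwards [hab] with x hx
      linear_combination hx
    by_cases ha : a = 0
    · subst ha
      have hb : b ≠ 0 := by
        have h1 := hrl.self_of_nhds
        have h2 := hr0.self_of_nhds
        rw [zero_mul, zero_add] at h1
        rwa [h1] at h2
      obtain ⟨d1, d2, hd⟩ : ∃ d1 d2 : ℂ, ∀ᶠ x in 𝓝 x₀,
          g x - b⁻¹ ^ 3 / 2 * x ^ 2 = d1 * x + d2 := by
        refine lin_of_deriv2 (hg.sub (analyticAt_const.mul (analyticAt_id.pow 2))) ?_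
        have h1 : ∀ᶠ x in 𝓝 x₀, deriv (fun x => g x - b⁻¹ ^ 3 / 2 * x ^ 2) x =
            deriv g x - b⁻¹ ^ 3 * x := by
          filter_upwards [hg.eventually_analyticAt] with x h0
          have := (h0.differentiableAt.hasDerivAt.sub
            ((hp 2 (hasDerivAt_id x)).const_mul (b⁻¹ ^ 3 / 2))).deriv
          simp only [id] at this
          refine Eq.trans this ?_
          push_cast
          ring
        have h2 : ∀ᶠ x in 𝓝 x₀, deriv (deriv (fun x => g x - b⁻¹ ^ 3 / 2 * x ^ 2)) x =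
            G x - b⁻¹ ^ 3 := by
          refine deriv_ev h1 ?_
          filter_upwards [hg.deriv.eventually_analyticAt] with x h0
          refine (h0.differentiableAt.hasDerivAt.sub
            ((hasDerivAt_id x).const_mul (b⁻¹ ^ 3))).congr_deriv ?_
          rw [mul_one]
        filter_upwards [h2, e0, hrl] with x h3 h4 h5
        rw [h3, h4, h5, zero_mul, zero_add, sub_self]
      refine ⟨-(b⁻¹ ^ 3 / 2), 0, 0, -d1, 1, -d2, by simp, ?_⟩
      filter_upwards [hd] with x hx
      linear_combination hx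
    · obtain ⟨d1, d2, hd⟩ : ∃ d1 d2 : ℂ, ∀ᶠ x in 𝓝 x₀,
          g x - 1 / (2 * a ^ 2) * (r x)⁻¹ = d1 * x + d2 := by
        refine lin_of_deriv2 (hg.sub (analyticAt_const.mul (hr.inv hr0.self_of_nhds))) ?_
        have hr1c : ∀ᶠ x in 𝓝 x₀, r1 x = a := by
          refine deriv_ev hrl (g' := fun _ => a) ?_
          filter_upwards with x
          simpa using ((hasDerivAt_id x).const_mul a).add_const b
        have h1 : ∀ᶠ x in 𝓝 x₀, deriv (fun x => g x - 1 / (2 * a ^ 2) * (r x)⁻¹) x =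
            deriv g x + 1 / (2 * a) * (r x)⁻¹ ^ 2 := by
          filter_upwards [hg.eventually_analyticAt, hu, hr1c] with x h0 h1 h2
          have := (h0.differentiableAt.hasDerivAt.sub (h1.const_mul (1 / (2 * a ^ 2)))).deriv
          refine Eq.trans this ?_
          rw [h2]
          field_simp
          ring
        have h2 : ∀ᶠ x in 𝓝 x₀, deriv (deriv (fun x => g x - 1 / (2 * a ^ 2) * (r x)⁻¹)) x =
            G x - (r x)⁻¹ ^ 3 := by
          refine deriv_ev h1 ?_
          filter_upwards [hg.deriv.eventually_analyticAt, hu, hr1c] with x h0 h1 h2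
          refine (h0.differentiableAt.hasDerivAt.add
            ((hp 2 h1).const_mul (1 / (2 * a)))).congr_deriv ?_
          rw [h2]
          push_cast
          field_simp
          ring
        filter_upwards [h2, e0] with x h3 h4
        rw [h3, h4, sub_self]
      refine ⟨-(a * d1), a, 0, -(a * d2) - b * d1, b, -(b * d2) - 1 / (2 * a ^ 2), ?_, ?_⟩
      · intro h
        simp only [Prod.mk.injEq] at h
        exact ha h.2.1
      · filter_upwards [hd, hrl, hr0] with x hx h1 h2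
        have h3 : r x * (g x - d1 * x - d2) = 1 / (2 * a ^ 2) := by
          have h4 : g x - d1 * x - d2 = 1 / (2 * a ^ 2) * (r x)⁻¹ := by
            linear_combination hx
          rw [h4]
          field_simp
        rw [h1] at h3
        linear_combination h3
  · refine ⟨a ^ 2 - al / 2, 2 * c * a, c ^ 2, 2 * a * b - be, 2 * c * b, b ^ 2 - de, ?_, ?_⟩
    · intro h
      simp only [Prod.mk.injEq] at h
      exact hc0 (pow_eq_zero_iff (n := 2) (by norm_num) |>.1 h.2.2.1)
    · filter_upwards [hbe, hab] with x h1 h2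
      have h3 : r x = c * g x + a * x + b := by linear_combination h2
      rw [h3] at h1
      linear_combination h1

end Pool.Agent.MP_ae5b4e_an_ALG
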