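import Mathlib

/-!
# MP_ae5b4e_an, algebraic tables, module AE: generic coordinates
-/

set_option autoImplicit false

noncomputable section

namespace Pool.Agent.MP_ae5b4e_an_ALG

open Filter Topology Set Metric Complex Polynomial

open scoped Real

namespace Shear

theorem evalEval_eq (P : ℂ[X][X]) {N : ℕ} (h : ∀ i j, (P.coeff j).coeff i ≠ 0 → i + j ≤ N)
    (x y : ℂ) : evalEval x y P = ∑ j ∈ Finset.range (N + 1), ∑ i ∈ Finset.range (N + 1),
      (P.coeff j).coeff i * x ^ i * y ^ j := by
  have h1 : P.natDegree < N + 1 := by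
    refine Nat.lt_succ_of_le (natDegree_le_iff_coeff_eq_zero.2 fun j hj => ?_)
    ext i
    rw [coeff_zero]
    by_contra hc
    have := h i j hc
    omega
  have h2 : ∀ j, (P.coeff j).natDegree < N + 1 := by
    intro j
    refine Nat.lt_succ_of_le (natDegree_le_iff_coeff_eq_zero.2 fun i hi => ?_)
    by_contra hc
    have := h i j hc
    omega
  unfold evalEval
  rw [eval_eq_sum_range' h1, eval_finsetSum]
  refine Finset.sum_congr rfl fun j _ => ?_
  rw [eval_mul, eval_pow, eval_C, eval_eq_sum_range' (h2 j), Finset.sum_mul]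

theorem exists_top {P : ℂ[X][X]} (hP : P ≠ 0) : ∃ N : ℕ,
    (∃ i j, i + j = N ∧ (P.coeff j).coeff i ≠ 0) ∧
      ∀ i j, (P.coeff j).coeff i ≠ 0 → i + j ≤ N := by
  set s : Set ℕ := {n | ∃ i j, i + j = n ∧ (P.coeff j).coeff i ≠ 0} with hs
  have h1 : s.Nonempty := by
    obtain ⟨j, hj⟩ : ∃ j, P.coeff j ≠ 0 := by
      by_contra hc
      push Not at hc
      exact hP (Polynomial.ext fun j => by rw [hc j, coeff_zero])
    obtain ⟨i, hi⟩ : ∃ i, (P.coeff j).coeff i ≠ 0 := by
      by_contra hc
      push Not at hc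
      exact hj (Polynomial.ext fun i => by rw [hc i, coeff_zero])
    exact ⟨i + j, i, j, rfl, hi⟩
  have h2 : BddAbove s := by
    refine ⟨(∑ j ∈ Finset.range (P.natDegree + 1), (P.coeff j).natDegree) + P.natDegree, ?_⟩
    rintro n ⟨i, j, rfl, hc⟩
    have hj : j ≤ P.natDegree := by
      by_contra hh
      have h3 : P.coeff j = 0 := coeff_eq_zero_of_natDegree_lt (not_le.1 hh)
      rw [h3, coeff_zero] at hc
      exact hc rfl
    have hi : i ≤ (P.coeff j).natDegree := by
      by_contra hh
      exact hc (coeff_eq_zero_of_natDegree_lt (not_le.1 hh))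
    have h3 : (P.coeff j).natDegree ≤ ∑ j ∈ Finset.range (P.natDegree + 1),
        (P.coeff j).natDegree :=
      Finset.single_le_sum (f := fun j => (P.coeff j).natDegree) (fun _ _ => Nat.zero_le _)
        (Finset.mem_range.2 (by omega))
    omega
  refine ⟨sSup s, Nat.sSup_mem h1 h2, fun i j hc => le_csSup h2 ⟨i, j, rfl, hc⟩⟩

end Shear

section AE

/-- generic coordinates -/
theorem exists_shear {P : ℂ[X][X]} (hP : P ≠ 0) :
    ∃ S : Set ℂ, S.Finite ∧ ∀ s ∉ S, ∃ P₁ : ℂ[X][X], P₁ ≠ 0 ∧
      (∀ x y, evalEval x y P₁ = evalEval (x + s * y) y P) ∧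
      ∃ C : ℝ, ∀ x y, evalEval x y P₁ = 0 → ‖y‖ ≤ C * (1 + ‖x‖) := by
  obtain ⟨N, ⟨i0, j0, h0, hc0⟩, hN⟩ := Shear.exists_top hP
  set c : ℕ → ℕ → ℂ := fun i j => (P.coeff j).coeff i with hc
  -- the top form
  set top : ℂ[X] := ∑ i ∈ Finset.range (N + 1), C (c i (N - i)) * X ^ i with htop
  have htop0 : top ≠ 0 := by
    intro h
    have h1 : top.coeff i0 = c i0 (N - i0) := by
      rw [htop, finsetSum_coeff]
      rw [Finset.sum_eq_single i0]
      · simp
      · intro i _ hi
        rw [coeff_C_mul, coeff_X_pow, if_neg (Ne.symm hi), mul_zero]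
      · intro hi
        exact absurd (Finset.mem_range.2 (by omega)) hi
    rw [h, coeff_zero] at h1
    have h2 : N - i0 = j0 := by omega
    rw [h2] at h1
    exact hc0 h1.symm
  refine ⟨{s | top.IsRoot s}, finite_setOfPred_isRoot htop0, fun s hs => ?_⟩
  -- the new polynomial
  set P₁ : ℂ[X][X] := ∑ j ∈ Finset.range (N + 1), ∑ i ∈ Finset.range (N + 1),
    C (C (c i j)) * (C X + C (C s) * X) ^ i * X ^ j with hP₁
  have hev : ∀ x y, evalEval x y P₁ = evalEval (x + s * y) y P := by
    intro x y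
    rw [Shear.evalEval_eq P hN, ← coe_evalEvalRingHom, hP₁, map_sum]
    refine Finset.sum_congr rfl fun j _ => ?_
    rw [map_sum]
    refine Finset.sum_congr rfl fun i _ => ?_
    rw [map_mul, map_mul, map_pow, map_pow, map_add, map_mul, coe_evalEvalRingHom]
    simp [evalEval, hc]
  -- the function at infinity
  set Q : ℂ × ℂ → ℂ := fun p => ∑ j ∈ Finset.range (N + 1), ∑ i ∈ Finset.range (N + 1),
    c i j * (p.1 + s) ^ i * p.2 ^ (N - (i + j)) with hQ
  have hQc : Continuous Q := by
    rw [hQ]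
    refine continuous_finsetSum _ fun j _ => continuous_finsetSum _ fun i _ => ?_
    fun_prop
  have hQ0 : Q (0, 0) ≠ 0 := by
    have h1 : Q (0, 0) = top.eval s := by
      rw [hQ, htop, eval_finsetSum]
      simp only [zero_add]
      rw [Finset.sum_comm]
      refine Finset.sum_congr rfl fun i hi => ?_
      rw [Finset.mem_range] at hi
      rw [Finset.sum_eq_single (N - i)]
      · rw [show N - (i + (N - i)) = 0 by omega, pow_zero, mul_one, eval_mul, eval_C, eval_pow,
          eval_X]
      · intro j hj hji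
        by_cases h2 : i + j ≤ N
        · rw [zero_pow (by omega), mul_zero]
        · have h3 : c i j = 0 := by
            by_contra h4
            exact h2 (hN i j h4)
          rw [h3, zero_mul, zero_mul]
      · intro h2
        exact absurd (Finset.mem_range.2 (by omega)) h2
    rw [h1]
    exact hs
  have hopen : IsOpen {p | Q p ≠ 0} := isOpen_ne_fun hQc continuous_const
  obtain ⟨δ, hδ, hball⟩ := Metric.isOpen_iff.1 hopen (0, 0) hQ0
  have hkey : ∀ x y : ℂ, y ≠ 0 → evalEval x y P₁ = y ^ N * Q (x / y, 1 / y) := by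
    intro x y hy
    rw [hev, Shear.evalEval_eq P hN, hQ, Finset.mul_sum]
    refine Finset.sum_congr rfl fun j _ => ?_
    rw [Finset.mul_sum]
    refine Finset.sum_congr rfl fun i _ => ?_
    by_cases h2 : i + j ≤ N
    · have h3 : x / y + s = (x + s * y) / y := by field_simp
      have h4 : y ^ N = y ^ i * y ^ j * y ^ (N - (i + j)) := by
        rw [← pow_add, ← pow_add]
        congr 1
        omega
      simp only [h3, h4, div_pow, one_pow]
      simp only [hc]
      field_simp
    · have h3 : c i j = 0 := by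
        by_contra h4
        exact h2 (hN i j h4)
      have h4 : (P.coeff j).coeff i = 0 := h3
      rw [h3, h4]
      ring
  have hbound : ∀ x y, evalEval x y P₁ = 0 → ‖y‖ ≤ 2 / δ * (1 + ‖x‖) := by
    intro x y h
    by_contra hcon
    push Not at hcon
    have hC : 0 < 2 / δ := by positivity
    have hx : 0 ≤ ‖x‖ := norm_nonneg x
    have h1 : 2 / δ ≤ 2 / δ * (1 + ‖x‖) := by nlinarith
    have hy : 0 < ‖y‖ := hC.trans_le (h1.trans hcon.le)
    have hy0 : y ≠ 0 := norm_pos_iff.1 hy
    have h2 : (1 + ‖x‖) / ‖y‖ < δ := by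
      rw [div_lt_iff₀ hy]
      have h3 : 2 * (1 + ‖x‖) < δ * ‖y‖ := by
        have h4 := mul_lt_mul_of_pos_left hcon hδ
        have h5 : δ * (2 / δ * (1 + ‖x‖)) = 2 * (1 + ‖x‖) := by field_simp
        rwa [h5] at h4
      linarith
    have hmem : (x / y, 1 / y) ∈ ball ((0, 0) : ℂ × ℂ) δ := by
      rw [mem_ball, Prod.dist_eq, max_lt_iff]
      constructor
      · simp only [dist_zero_right, norm_div]
        refine lt_of_le_of_lt ?_ h2
        gcongr
        linarith
      · simp only [dist_zero_right, norm_div, norm_one]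
        refine lt_of_le_of_lt ?_ h2
        gcongr
        linarith
    have h3 := hball hmem
    rw [hkey x y hy0] at h
    rcases mul_eq_zero.1 h with h4 | h4
    · exact pow_ne_zero N hy0 h4
    · exact h3 h4
  refine ⟨P₁, ?_, hev, 2 / δ, hbound⟩
  intro h
  have h1 := hbound 0 ((2 / δ + 1 : ℝ) : ℂ) (by rw [h]; simp [evalEval])
  rw [Complex.norm_real, norm_zero, add_zero, mul_one] at h1
  have h2 := le_abs_self (2 / δ + 1)
  rw [Real.norm_eq_abs] at h1
  linarith

end AE

end Pool.Agent.MP_ae5b4e_an_ALG
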