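import Mathlib
import Pool.Agent.Lib.MP_ae5b4e_an_ALG.DefsB
import Pool.Agent.Lib.MP_ae5b4e_an_ALG.Trans
import Pool.Agent.Lib.MP_ae5b4e_an_ALG.MongeConic
import Pool.Agent.Lib.MP_ae5b4e_an_ALG.Shear
import Pool.Agent.Lib.MP_ae5b4e_an_ALG.Branches
import Pool.Agent.Lib.MP_ae5b4e_an_ALG.Invar
import Pool.Agent.Lib.MP_ae5b4e_an_LAT.NDGood
import Pool.Agent.Lib.MP_ae5b4e_an_LAT.NDGlue

/-!
# MP_ae5b4e_an, algebraic tables: the local theorem
-/

set_option autoImplicit false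
noncomputable section
namespace Pool.Agent.MP_ae5b4e_an_ALG
open Filter Topology Set Metric Complex Polynomial
open scoped Real
open Pool.Agent.MP_ae5b4e_an_ND (Dx Dy Reg)
open Pool.Agent.MP_ae5b4e_an_FLEX

namespace LocConic

/-- analytic local inverse in one variable -/
lemma exists_inv {f : ℂ → ℂ} {x : ℂ} (hf : AnalyticAt ℂ f x) (hd : deriv f x ≠ 0) :
    ∃ g : ℂ → ℂ, AnalyticAt ℂ g (f x) ∧ g (f x) = x ∧ (∀ᶠ z in 𝓝 x, g (f z) = z) ∧
      (∀ᶠ w in 𝓝 (f x), f (g w) = w) ∧ deriv g (f x) ≠ 0 := by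
  have hs : HasStrictDerivAt f (deriv f x) x := hf.hasStrictDerivAt
  have hF := hs.hasStrictFDerivAt_equiv hd
  refine ⟨hs.localInverse f _ x hd, hf.analyticAt_localInverse hd, hF.localInverse_apply_image,
    hF.eventually_left_inverse, hF.eventually_right_inverse, ?_⟩
  rw [(hs.to_localInverse hd).hasDerivAt.deriv]
  exact inv_ne_zero hd

/-- the graph case -/
lemma graph {g : ℂ → ℂ} {x₀ : ℂ} (h : GoodG id g (fun _ => 0) x₀) {P : ℂ[X][X]} (hP : P ≠ 0)
    (hrel : ∀ᶠ x in 𝓝 x₀, evalEval x (g x) P = 0) {C : ℝ}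
    (hC : ∀ x y, evalEval x y P = 0 → ‖y‖ ≤ C * (1 + ‖x‖)) :
    ∃ A B C D E F : ℂ, (A, B, C, D, E, F) ≠ (0, 0, 0, 0, 0, 0) ∧
      ∀ᶠ x in 𝓝 x₀, A * x ^ 2 + B * x * g x + C * g x ^ 2 + D * x + E * g x + F = 0 := by
  have hga : AnalyticAt ℂ g x₀ := h.1.2.1
  obtain ⟨m, hirr, hm⟩ := Pool.Agent.MP_ae5b4e_an_ND.exists_factor hga hP hrel
  have hMD := monge_zero hirr h hm (C := C) fun x hx t ht =>
    hC x t (branch_rel hirr hga hm hrel hx ht)
  refine conic_of_monge hga ?_ hMD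
  have hW : Wr id g x₀ ≠ 0 := h.1.2.2.2
  intro h0
  apply hW
  have h1 : deriv (id : ℂ → ℂ) = fun _ => 1 := by
    funext z
    exact deriv_id z
  simp only [Wr, h1, h0, deriv_const, mul_zero, sub_zero]

end LocConic

/-- the local theorem -/
theorem loc_conic {X Y : ℂ → ℂ} {t₀ : ℂ} (h : GoodG X Y (fun _ => 0) t₀) {P : ℂ[X][X]}
    (hP : P ≠ 0) (hrel : ∀ᶠ t in 𝓝 t₀, evalEval (X t) (Y t) P = 0) :
    ∃ A B C D E F : ℂ, (A, B, C, D, E, F) ≠ (0, 0, 0, 0, 0, 0) ∧
      ∀ᶠ t in 𝓝 t₀, A * X t ^ 2 + B * X t * Y t + C * Y t ^ 2 + D * X t + E * Y t + F = 0 := by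
  obtain ⟨S, hS, hshear⟩ := exists_shear hP
  have hXa : AnalyticAt ℂ X t₀ := h.1.1
  have hYa : AnalyticAt ℂ Y t₀ := h.1.2.1
  have hW : Wr X Y t₀ ≠ 0 := h.1.2.2.2
  obtain ⟨s, hsS, hs⟩ : ∃ s : ℂ, s ∉ S ∧ deriv X t₀ - s * deriv Y t₀ ≠ 0 := by
    obtain ⟨s, hs⟩ := (hS.union (finite_singleton (deriv X t₀ / deriv Y t₀))).exists_notMem
    rw [mem_union, not_or, mem_singleton_iff] at hs
    refine ⟨s, hs.1, fun h0 => ?_⟩
    by_cases hY0 : deriv Y t₀ = 0
    · have hX0 : deriv X t₀ = 0 := by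
        rw [hY0, mul_zero, sub_zero] at h0
        exact h0
      apply hW
      rw [Wr, hX0, hY0]
      ring
    · apply hs.2
      rw [eq_div_iff hY0]
      exact (sub_eq_zero.1 h0).symm
  obtain ⟨P₁, hP₁, hev, C, hC⟩ := hshear s hsS
  set Xs : ℂ → ℂ := fun t => X t - s * Y t with hXs
  have hXsa : AnalyticAt ℂ Xs t₀ := hXa.sub (analyticAt_const.mul hYa)
  have hXsd : deriv Xs t₀ ≠ 0 := by
    have h1 : HasDerivAt Xs (deriv X t₀ - s * deriv Y t₀) t₀ :=
      hXa.differentiableAt.hasDerivAt.sub (hYa.differentiableAt.hasDerivAt.const_mul s)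
    rw [h1.deriv]
    exact hs
  have hgood1 : GoodG Xs Y (fun _ => 0) t₀ := by
    have h1 := goodG_affine h (α := 1) (β := -s) (γ := 0) (α' := 0) (β' := 1) (γ' := 0)
      (by norm_num)
    refine goodG_congr h1 (Eventually.of_forall fun t => ?_) (Eventually.of_forall fun t => ?_)
      (EventuallyEq.refl _ _)
    · simp only [hXs]
      ring
    · simp only
      ring
  obtain ⟨φ, hφa, hφx, hleft, hright, hφd⟩ := LocConic.exists_inv hXsa hXsd
  have hgood2 : GoodG id (Y ∘ φ) (fun _ => 0) (Xs t₀) := by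
    have h1 : GoodG Xs Y (fun _ => 0) (φ (Xs t₀)) := by
      rw [hφx]
      exact hgood1
    refine goodG_congr (goodG_comp hφa hφd h1) ?_ (EventuallyEq.refl _ _)
      (Eventually.of_forall fun t => ?_)
    · filter_upwards [hright] with w hw
      exact hw
    · simp only
      ring
  have hrel1 : ∀ᶠ x in 𝓝 (Xs t₀), evalEval x ((Y ∘ φ) x) P₁ = 0 := by
    have h1 : Tendsto φ (𝓝 (Xs t₀)) (𝓝 t₀) := by
      have := hφa.continuousAt
      rw [ContinuousAt, hφx] at this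
      exact this
    filter_upwards [h1.eventually hrel, hright] with x hx hx'
    rw [hev]
    have h2 : x + s * (Y ∘ φ) x = X (φ x) := by
      have h3 : Xs (φ x) = x := hx'
      simp only [hXs] at h3
      rw [Function.comp_apply]
      linear_combination -h3
    rw [h2]
    exact hx
  obtain ⟨A, B, C', D, E, F, hne, hcon⟩ := LocConic.graph hgood2 hP₁ hrel1 hC
  refine ⟨A, B - 2 * s * A, A * s ^ 2 - B * s + C', D, E - s * D, F, ?_, ?_⟩
  · intro h0
    simp only [Prod.mk.injEq] at h0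
    obtain ⟨h1, h2, h3, h4, h5, h6⟩ := h0
    apply hne
    have hB : B = 0 := by
      rw [h1] at h2
      linear_combination h2
    have hC0 : C' = 0 := by
      rw [h1, hB] at h3
      linear_combination h3
    have hE : E = 0 := by
      rw [h4] at h5
      linear_combination h5
    rw [h1, hB, hC0, h4, hE, h6]
  · have h1 : Tendsto Xs (𝓝 t₀) (𝓝 (Xs t₀)) := hXsa.continuousAt
    filter_upwards [h1.eventually hcon, hleft] with t ht hl
    rw [Function.comp_apply, hl] at ht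
    simp only [hXs] at ht
    linear_combination ht

end Pool.Agent.MP_ae5b4e_an_ALG
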