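import Mathlib
import Pool.Agent.Lib.MP_ae5b4e_an_FLEX.RealGood
import Pool.Agent.Lib.MP_ae5b4e_an_hopf.Plane

/-!
# MP_ae5b4e_an, algebraic tables: the real end

The hypotheses of the theorem on the kick of the curve near a real point, for the leaves of the
outer billiard, and the passage from a complex relation near one point to a real relation
everywhere.
-/

set_option autoImplicit false

noncomputable section

namespace Pool.Agent.MP_ae5b4e_an_ALG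

open Filter Topology Set Metric Complex Polynomial
open scoped Real
open Pool.Agent.MP_ae5b4e_an_ND (Dx Dy Reg)
open Pool.Agent.MP_ae5b4e_an_FLEX

section AJ
open Pool.Agent.MP_ae5b4e_an_hopf

namespace RealEnd

/-- A real analytic function of one variable extends to a complex analytic function. -/
lemma ext_one {f : ℝ → ℝ} {t₀ : ℝ} (hf : AnalyticAt ℝ f t₀) :
    ∃ X : ℂ → ℂ, AnalyticAt ℂ X t₀ ∧ ∀ᶠ t : ℝ in 𝓝 t₀, X t = f t := by
  have h1 : AnalyticAt ℝ (fun p : ℝ × ℝ => f p.1) (t₀, 0) :=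
    AnalyticAt.fun_comp (g := f) (f := fun p : ℝ × ℝ => p.1) (x := ((t₀, 0) : ℝ × ℝ)) hf
      analyticAt_fst
  obtain ⟨F, hF, hFr⟩ := Pool.Agent.MP_ae5b4e_an_Cplx.exists_extension h1
  refine ⟨fun z => F (z, ((0:ℝ):ℂ)), ?_, ?_⟩
  · have h2 : AnalyticAt ℂ (fun z : ℂ => ((z, ((0:ℝ):ℂ)) : ℂ × ℂ)) (t₀ : ℂ) :=
      analyticAt_id.prod analyticAt_const
    exact AnalyticAt.fun_comp (g := F) (f := fun z : ℂ => ((z, ((0:ℝ):ℂ)) : ℂ × ℂ))
      (x := (t₀ : ℂ)) hF h2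
  · have h3 : Tendsto (fun t : ℝ => ((t, 0) : ℝ × ℝ)) (𝓝 t₀) (𝓝 (t₀, 0)) :=
      (continuous_id.prodMk continuous_const).tendsto t₀
    exact h3.eventually hFr

/-- Equal points on two tangent lines, one of them finite, are equal points of the plane. -/
lemma pt_eq (γ : ConvexCurve) {t t' u u' : ℝ} (hu' : u' ≠ 0) (h : γ.pt t u = γ.pt t' u') :
    u ≠ 0 ∧ γ.x t + u⁻¹ * deriv γ.x t = γ.x t' + u'⁻¹ * deriv γ.x t' ∧
      γ.y t + u⁻¹ * deriv γ.y t = γ.y t' + u'⁻¹ * deriv γ.y t' := by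
  unfold ConvexCurve.pt at h
  rw [Projectivization.mk_eq_mk_iff'] at h
  obtain ⟨a, ha⟩ := h
  have h0 : a * (u' * γ.x t' + deriv γ.x t') = u * γ.x t + deriv γ.x t := by
    simpa [ConvexCurve.hvec] using congrFun ha 0
  have h1 : a * (u' * γ.y t' + deriv γ.y t') = u * γ.y t + deriv γ.y t := by
    simpa [ConvexCurve.hvec] using congrFun ha 1
  have h2 : a * u' = u := by simpa [ConvexCurve.hvec] using congrFun ha 2
  have ha0 : a ≠ 0 := by
    rintro rfl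
    exact γ.hvec_ne t u (by rw [← ha, zero_smul])
  have hu : u ≠ 0 := by
    rw [← h2]
    exact mul_ne_zero ha0 hu'
  refine ⟨hu, ?_, ?_⟩
  · subst h2
    field_simp
    linear_combination -h0
  · subst h2
    field_simp
    linear_combination -h1

/-- The real relation. -/
lemma real_rel (γ : ConvexCurve) (hx : ∀ t, AnalyticAt ℝ γ.x t) (hy : ∀ t, AnalyticAt ℝ γ.y t)
    {t₀ A B C D E F : ℝ}
    (h : ∀ᶠ t : ℝ in 𝓝 t₀, A * γ.x t ^ 2 + B * γ.x t * γ.y t + C * γ.y t ^ 2 + D * γ.x t +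
      E * γ.y t + F = 0) (t : ℝ) :
    A * γ.x t ^ 2 + B * γ.x t * γ.y t + C * γ.y t ^ 2 + D * γ.x t + E * γ.y t + F = 0 := by
  set G : ℝ → ℝ := fun t => A * γ.x t ^ 2 + B * γ.x t * γ.y t + C * γ.y t ^ 2 + D * γ.x t +
      E * γ.y t + F with hG
  have hGa : AnalyticOnNhd ℝ G univ := fun t _ =>
    (((((analyticAt_const.mul ((hx t).pow 2)).add ((analyticAt_const.mul (hx t)).mul (hy t))).add
      (analyticAt_const.mul ((hy t).pow 2))).add (analyticAt_const.mul (hx t))).add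
      (analyticAt_const.mul (hy t))).add analyticAt_const
  have h0 : AnalyticOnNhd ℝ (fun _ : ℝ => (0:ℝ)) univ := fun _ _ => analyticAt_const
  have := hGa.eqOn_of_preconnected_of_eventuallyEq h0 isPreconnected_univ (mem_univ t₀) h
  exact this (mem_univ t)

end RealEnd

/-- the hypotheses of FLEX for the leaves of the outer billiard, and the complexification -/
theorem real_end (γ : ConvexCurve) (hx : ∀ t, AnalyticAt ℝ γ.x t) (hy : ∀ t, AnalyticAt ℝ γ.y t)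
    (S : ℝ → ℝ → ℝ) (t₀ : ℝ)
    (hcont : ContinuousOn (fun q : ℝ × ℝ => S q.1 q.2) (Ioo 0 1 ×ˢ univ))
    (hpos : ∀ c ∈ Ioo (0:ℝ) 1, ∀ t, 0 < S c t)
    (hsimple : ∀ c ∈ Ioo (0:ℝ) 1, ∀ t t',
      γ.x t + S c t * deriv γ.x t = γ.x t' + S c t' * deriv γ.x t' →
      γ.y t + S c t * deriv γ.y t = γ.y t' + S c t' * deriv γ.y t' → ∃ n : ℤ, t' = t + n * γ.T)
    (hmono : ∀ c ∈ Ioo (0:ℝ) 1, ∀ c' ∈ Ioo (0:ℝ) 1, c < c' → ∀ t, S c t < S c' t)
    (hlim : ∀ t, Tendsto (fun c => S c t) (𝓝[>] 0) (𝓝 0))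
    (hproj : ∀ c ∈ Ioo (0:ℝ) 1, ∀ t r r' t₁ t₂, r ≠ r' →
      γ.x t + r * deriv γ.x t = γ.x t₁ + S c t₁ * deriv γ.x t₁ →
      γ.y t + r * deriv γ.y t = γ.y t₁ + S c t₁ * deriv γ.y t₁ →
      γ.x t + r' * deriv γ.x t = γ.x t₂ + S c t₂ * deriv γ.x t₂ →
      γ.y t + r' * deriv γ.y t = γ.y t₂ + S c t₂ * deriv γ.y t₂ → r + r' = 0)
    (hana : ∃ (F : ℝ × ℝ → ℝ) (f : ℝ → ℝ), AnalyticAt ℝ F (γ.x t₀, γ.y t₀) ∧
      fderiv ℝ F (γ.x t₀, γ.y t₀) ≠ 0 ∧ ∀ᶠ q in 𝓝 ((0, t₀) : ℝ × ℝ), 0 < q.1 →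
        F (γ.x q.2 + S q.1 q.2 * deriv γ.x q.2, γ.y q.2 + S q.1 q.2 * deriv γ.y q.2) = f q.1) :
    ∃ X Y : ℂ → ℂ, (∀ᶠ t : ℝ in 𝓝 t₀, X t = γ.x t) ∧ (∀ᶠ t : ℝ in 𝓝 t₀, Y t = γ.y t) ∧
      GoodG X Y (fun _ => 0) t₀ := by
  obtain ⟨X, hX, hXr⟩ := RealEnd.ext_one (hx t₀)
  obtain ⟨Y, hY, hYr⟩ := RealEnd.ext_one (hy t₀)
  obtain ⟨F, f, hF, hF', hFl⟩ := hana
  refine ⟨X, Y, hXr, hYr, ?_⟩
  refine real_good γ (fun c t => (S c t)⁻¹) (fun _ => 0) t₀ ?_ ?_ ?_ ?_ ?_ hF hF' (f := f) ?_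
    hX hY analyticAt_const hXr hYr (Eventually.of_forall fun _ => by simp)
  · exact hcont.inv₀ fun q hq => (hpos q.1 hq.1 q.2).ne'
  · intro c hc t t' h
    obtain ⟨-, h1, h2⟩ := RealEnd.pt_eq γ (inv_ne_zero (hpos c hc t').ne') h
    rw [inv_inv, inv_inv] at h1 h2
    exact hsimple c hc t t' h1 h2
  · intro c hc c' hc' hcc t
    exact inv_strictAnti₀ (hpos c hc t) (hmono c hc c' hc' hcc t)
  · intro t
    refine tendsto_inv_nhdsGT_zero.comp (tendsto_nhdsWithin_iff.2 ⟨hlim t, ?_⟩)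
    filter_upwards [Ioo_mem_nhdsGT (zero_lt_one (α := ℝ))] with c hc
    exact hpos c hc t
  · intro c hc t u v huv hu hv
    obtain ⟨t₁, h1⟩ := hu
    obtain ⟨t₂, h2⟩ := hv
    obtain ⟨u0, a1, a2⟩ := RealEnd.pt_eq γ (inv_ne_zero (hpos c hc t₁).ne') h1.symm
    obtain ⟨v0, b1, b2⟩ := RealEnd.pt_eq γ (inv_ne_zero (hpos c hc t₂).ne') h2.symm
    rw [inv_inv] at a1 a2 b1 b2
    have h3 := hproj c hc t u⁻¹ v⁻¹ t₁ t₂ (fun h => huv (inv_injective h)) a1 a2 b1 b2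
    have h4 : u + v = 0 := by
      field_simp at h3
      linarith
    exact h4
  · filter_upwards [hFl] with q hq h0
    rw [← hq h0]
    simp only [div_inv_eq_mul, mul_comm]

/-- a relation near one point is a relation everywhere, and it can be taken real -/
theorem real_conic (γ : ConvexCurve) (hx : ∀ t, AnalyticAt ℝ γ.x t)
    (hy : ∀ t, AnalyticAt ℝ γ.y t) {t₀ : ℝ} {A B C D E F : ℂ}
    (hne : (A, B, C, D, E, F) ≠ (0, 0, 0, 0, 0, 0))
    (h : ∀ᶠ t : ℝ in 𝓝 t₀, A * (γ.x t : ℂ) ^ 2 + B * γ.x t * γ.y t + C * (γ.y t : ℂ) ^ 2 +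
      D * γ.x t + E * γ.y t + F = 0) :
    ∃ A' B' C' D' E' F' : ℝ, (A', B', C', D', E', F') ≠ (0, 0, 0, 0, 0, 0) ∧
      ∀ t, A' * γ.x t ^ 2 + B' * γ.x t * γ.y t + C' * γ.y t ^ 2 + D' * γ.x t + E' * γ.y t + F' = 0 := by
  have hre : ∀ t, A.re * γ.x t ^ 2 + B.re * γ.x t * γ.y t + C.re * γ.y t ^ 2 + D.re * γ.x t +
      E.re * γ.y t + F.re = 0 := by
    apply RealEnd.real_rel γ hx hy (t₀ := t₀)
    filter_upwards [h] with t ht
    have h1 := congrArg Complex.re ht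
    simp only [pow_two, Complex.add_re, Complex.mul_re, Complex.mul_im, Complex.ofReal_re,
      Complex.ofReal_im, Complex.zero_re, mul_zero, zero_mul, add_zero, sub_zero] at h1
    linear_combination h1
  have him : ∀ t, A.im * γ.x t ^ 2 + B.im * γ.x t * γ.y t + C.im * γ.y t ^ 2 + D.im * γ.x t +
      E.im * γ.y t + F.im = 0 := by
    apply RealEnd.real_rel γ hx hy (t₀ := t₀)
    filter_upwards [h] with t ht
    have h1 := congrArg Complex.im ht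
    simp only [pow_two, Complex.add_im, Complex.mul_re, Complex.mul_im, Complex.ofReal_re,
      Complex.ofReal_im, Complex.zero_im, mul_zero, zero_mul, add_zero, zero_add, sub_zero] at h1
    linear_combination h1
  by_cases h0 : (A.re, B.re, C.re, D.re, E.re, F.re) = (0, 0, 0, 0, 0, 0)
  · refine ⟨A.im, B.im, C.im, D.im, E.im, F.im, ?_, him⟩
    intro h1
    apply hne
    simp only [Prod.mk.injEq] at h0 h1 ⊢
    obtain ⟨a1, a2, a3, a4, a5, a6⟩ := h0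
    obtain ⟨b1, b2, b3, b4, b5, b6⟩ := h1
    exact ⟨Complex.ext a1 b1, Complex.ext a2 b2, Complex.ext a3 b3, Complex.ext a4 b4,
      Complex.ext a5 b5, Complex.ext a6 b6⟩
  · exact ⟨A.re, B.re, C.re, D.re, E.re, F.re, h0, hre⟩

end AJ

end Pool.Agent.MP_ae5b4e_an_ALG
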