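import Mathlib
import Pool.Agent.Lib.MP_ae5b4e_an_LAT.Cplx
import Pool.Agent.Lib.MP_ae5b4e_an_ALG.LocConic
import Pool.Agent.Lib.MP_ae5b4e_an_ALG.Ellipse
import Pool.Agent.Lib.MP_ae5b4e_an_ALG.Leaves
import Pool.Agent.Lib.MP_ae5b4e_an_ALG.RealEnd
import Pool.Agent.Lib.MP_ae5b4e_an_SMG.Outer

/-!
# MP_ae5b4e_an, algebraic tables: the theorem on outer billiards
-/

set_option autoImplicit false

noncomputable section

namespace Pool.Agent.MP_ae5b4e_an_ALG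

open Filter Topology Set Metric Complex Polynomial
open scoped Real
open Pool.Agent.MP_ae5b4e_an_FLEX

section AK
open Pool.Agent.MP_ae5b4e_an_hopf

namespace Final

/-- complexification of a real analytic function of one variable -/
theorem ext_one {f : ℝ → ℝ} {t₀ : ℝ} (hf : AnalyticAt ℝ f t₀) :
    ∃ F : ℂ → ℂ, AnalyticAt ℂ F t₀ ∧ ∀ᶠ t : ℝ in 𝓝 t₀, F t = f t := by
  have h1 : AnalyticAt ℝ (fun q : ℝ × ℝ => f q.1) (t₀, (0:ℝ)) :=
    AnalyticAt.fun_comp (g := f) (f := fun q : ℝ × ℝ => q.1) hf analyticAt_fst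
  obtain ⟨F, hF, hFr⟩ := Pool.Agent.MP_ae5b4e_an_Cplx.exists_extension h1
  refine ⟨fun t => F (t, 0), ?_, ?_⟩
  · have h2 : AnalyticAt ℂ (fun t : ℂ => ((t, 0) : ℂ × ℂ)) (t₀ : ℂ) :=
      analyticAt_id.prod analyticAt_const
    exact AnalyticAt.fun_comp (g := F) (f := fun t : ℂ => ((t, 0) : ℂ × ℂ)) (x := (t₀ : ℂ))
      (by simpa using hF) h2
  · have h3 : Tendsto (fun t : ℝ => ((t, 0) : ℝ × ℝ)) (𝓝 t₀) (𝓝 (t₀, 0)) := by
      have : ContinuousAt (fun t : ℝ => ((t, 0) : ℝ × ℝ)) t₀ := by fun_prop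
      exact this
    filter_upwards [h3.eventually hFr] with t ht
    simpa using ht

/-- an analytic function which vanishes at the real points vanishes -/
theorem zero_of_real {f : ℂ → ℂ} {t₀ : ℝ} (hf : AnalyticAt ℂ f t₀)
    (h : ∀ᶠ t : ℝ in 𝓝 t₀, f t = 0) : ∀ᶠ t in 𝓝 (t₀ : ℂ), f t = 0 := by
  refine hf.frequently_zero_iff_eventually_zero.1 ?_
  have h1 : Tendsto (fun t : ℝ => (t : ℂ)) (𝓝[≠] t₀) (𝓝[≠] (t₀ : ℂ)) := by
    refine tendsto_nhdsWithin_iff.2 ⟨?_, ?_⟩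
    · exact (Complex.continuous_ofReal.tendsto t₀).mono_left nhdsWithin_le_nhds
    · filter_upwards [self_mem_nhdsWithin] with t ht
      simpa using ht
  have h2 : ∀ᶠ t : ℝ in 𝓝[≠] t₀, f t = 0 := h.filter_mono nhdsWithin_le_nhds
  exact h1.frequently h2.frequently

theorem pt_ne {γ : ConvexCurve} {t t' u u' : ℝ} (h : γ.pt t u = γ.pt t' u') (hu : u ≠ 0) :
    u' ≠ 0 ∧ γ.x t + u⁻¹ * deriv γ.x t = γ.x t' + u'⁻¹ * deriv γ.x t' ∧
      γ.y t + u⁻¹ * deriv γ.y t = γ.y t' + u'⁻¹ * deriv γ.y t' := by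
  unfold ConvexCurve.pt at h
  rw [Projectivization.mk_eq_mk_iff'] at h
  obtain ⟨a, ha⟩ := h
  have h0 := congrFun ha 0
  have h1 := congrFun ha 1
  have h2 := congrFun ha 2
  simp only [ConvexCurve.hvec, Pi.smul_apply, smul_eq_mul, Matrix.cons_val_zero,
    Matrix.cons_val_one, Matrix.cons_val_two, Matrix.head_cons, Matrix.tail_cons] at h0 h1 h2
  have ha' : a ≠ 0 := by
    rintro rfl
    rw [zero_mul] at h2
    exact hu h2.symm
  have hu' : u' ≠ 0 := by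
    rintro rfl
    rw [mul_zero] at h2
    exact hu h2.symm
  refine ⟨hu', ?_, ?_⟩
  · have e : a = u / u' := by rw [← h2]; field_simp
    rw [e] at h0
    field_simp at h0 ⊢
    linear_combination -h0
  · have e : a = u / u' := by rw [← h2]; field_simp
    rw [e] at h1
    field_simp at h1 ⊢
    linear_combination -h1

end Final

open Final in
/-- **Outer billiards of algebraic tables.** -/
theorem outer (γ : ConvexCurve) (hx : ∀ t, AnalyticAt ℝ γ.x t) (hy : ∀ t, AnalyticAt ℝ γ.y t)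
    {P : ℝ[X][X]} (hP : P ≠ 0) (hrel : ∀ t, evalEval (γ.x t) (γ.y t) P = 0)
    (S : ℝ → ℝ → ℝ)
    (hsmooth : ContDiffOn ℝ 1 (fun q : ℝ × ℝ => S q.1 q.2) (Ioo 0 1 ×ˢ univ))
    (hpos : ∀ c ∈ Ioo (0:ℝ) 1, ∀ t, 0 < S c t)
    (hper : ∀ c ∈ Ioo (0:ℝ) 1, ∀ t, S c (t + γ.T) = S c t)
    (hsimple : ∀ c ∈ Ioo (0:ℝ) 1, ∀ t t',
      γ.x t + S c t * deriv γ.x t = γ.x t' + S c t' * deriv γ.x t' →
      γ.y t + S c t * deriv γ.y t = γ.y t' + S c t' * deriv γ.y t' → ∃ n : ℤ, t' = t + n * γ.T)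
    (hmono : ∀ c ∈ Ioo (0:ℝ) 1, ∀ t, 0 < deriv (fun r => S r t) c)
    (hlim : ∀ t, Tendsto (fun c => S c t) (𝓝[>] 0) (𝓝 0))
    (hproj : ∀ c ∈ Ioo (0:ℝ) 1, ∀ t r r' t₁ t₂, r ≠ r' →
      γ.x t + r * deriv γ.x t = γ.x t₁ + S c t₁ * deriv γ.x t₁ →
      γ.y t + r * deriv γ.y t = γ.y t₁ + S c t₁ * deriv γ.y t₁ →
      γ.x t + r' * deriv γ.x t = γ.x t₂ + S c t₂ * deriv γ.x t₂ →
      γ.y t + r' * deriv γ.y t = γ.y t₂ + S c t₂ * deriv γ.y t₂ → r + r' = 0) :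
    ∃ x₀ y₀ a b c : ℝ, 0 < a ∧ b ^ 2 < a * c ∧
      (∀ x y : ℝ, a * (x - x₀) ^ 2 + 2 * b * (x - x₀) * (y - y₀) + c * (y - y₀) ^ 2 = 1 ↔
        ∃ t, γ.x t = x ∧ γ.y t = y) ∧
      ∀ r ∈ Ioo (0:ℝ) 1, ∃ ρ : ℝ, 1 < ρ ∧ ∀ x y : ℝ,
        (a * (x - x₀) ^ 2 + 2 * b * (x - x₀) * (y - y₀) + c * (y - y₀) ^ 2 = ρ ↔
          ∃ t, γ.x t + S r t * deriv γ.x t = x ∧ γ.y t + S r t * deriv γ.y t = y) := by
  -- the foliation in the coordinate `u = 1 / s`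
  set U : ℝ → ℝ → ℝ := fun c t => (S c t)⁻¹ with hU
  have hO : IsOpen (Ioo (0:ℝ) 1 ×ˢ (univ : Set ℝ)) := isOpen_Ioo.prod isOpen_univ
  have hdiff : ∀ c ∈ Ioo (0:ℝ) 1, ∀ t, DifferentiableAt ℝ (fun r => S r t) c := by
    intro c hc t
    have h1 : DifferentiableAt ℝ (fun q : ℝ × ℝ => S q.1 q.2) (c, t) :=
      ((hsmooth.differentiableOn (by norm_num)) (c, t) ⟨hc, mem_univ _⟩).differentiableAt
        (hO.mem_nhds ⟨hc, mem_univ _⟩)
    have h2 : DifferentiableAt ℝ (fun r : ℝ => ((r, t) : ℝ × ℝ)) c := by fun_prop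
    exact DifferentiableAt.comp c (g := fun q : ℝ × ℝ => S q.1 q.2)
      (f := fun r : ℝ => ((r, t) : ℝ × ℝ)) h1 h2
  have hUsmooth : ContDiffOn ℝ 1 (fun q : ℝ × ℝ => U q.1 q.2) (Ioo 0 1 ×ˢ univ) :=
    hsmooth.inv fun q hq => (hpos q.1 hq.1 q.2).ne'
  have hUper : ∀ c ∈ Ioo (0:ℝ) 1, ∀ t, U c (t + γ.T) = U c t := fun c hc t => by
    simp only [hU, hper c hc t]
  have hUne : ∀ c ∈ Ioo (0:ℝ) 1, ∀ t, U c t ≠ 0 := fun c hc t =>
    inv_ne_zero (hpos c hc t).ne'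
  have hUsimple : ∀ c ∈ Ioo (0:ℝ) 1, ∀ t t', γ.pt t (U c t) = γ.pt t' (U c t') →
      ∃ n : ℤ, t' = t + n * γ.T := by
    intro c hc t t' h
    obtain ⟨-, h1, h2⟩ := pt_ne h (hUne c hc t)
    simp only [hU, inv_inv] at h1 h2
    exact hsimple c hc t t' h1 h2
  have hUmono : ∀ c ∈ Ioo (0:ℝ) 1, ∀ t, deriv (fun r => U r t) c < 0 := by
    intro c hc t
    have h1 : HasDerivAt (fun r => U r t) (-deriv (fun r => S r t) c / S c t ^ 2) c :=
      (hdiff c hc t).hasDerivAt.inv (hpos c hc t).ne'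
    rw [h1.deriv]
    have h2 := hmono c hc t
    have h3 := hpos c hc t
    exact div_neg_of_neg_of_pos (by linarith) (by positivity)
  have hUlim : ∀ t, Tendsto (fun c => U c t) (𝓝[>] 0) atTop := by
    intro t
    refine tendsto_inv_nhdsGT_zero.comp (tendsto_nhdsWithin_iff.2 ⟨hlim t, ?_⟩)
    filter_upwards [Ioo_mem_nhdsGT (show (0:ℝ) < 1 by norm_num)] with c hc
    exact hpos c hc t
  have hUproj : ∀ c ∈ Ioo (0:ℝ) 1, ∀ t u v, u ≠ v → γ.pt t u ∈ γ.leaf U c →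
      γ.pt t v ∈ γ.leaf U c → u + v = 0 := by
    rintro c hc t u v huv ⟨t₁, h1⟩ ⟨t₂, h2⟩
    obtain ⟨hu, e1, e2⟩ := pt_ne h1 (hUne c hc t₁)
    obtain ⟨hv, e3, e4⟩ := pt_ne h2 (hUne c hc t₂)
    simp only [hU, inv_inv] at e1 e2 e3 e4
    have h3 := hproj c hc t u⁻¹ v⁻¹ t₁ t₂ (fun h => huv (inv_injective h)) e1.symm e2.symm
      e3.symm e4.symm
    field_simp at h3
    linarith
  -- the first integral near one point
  obtain ⟨X, hX, hXr⟩ := ext_one (hx 0)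
  obtain ⟨Y, hY, hYr⟩ := ext_one (hy 0)
  have hgood : GoodG X Y (fun _ => 0) ((0:ℝ) : ℂ) :=
    Pool.Agent.MP_ae5b4e_an_SMG.good_outer hx hy hUsmooth hUper hUsimple hUmono hUlim hUproj hX hY hXr hYr
  -- the relation
  set PC : ℂ[X][X] := P.map (mapRingHom Complex.ofRealHom) with hPC
  have hPC0 : PC ≠ 0 := by
    rw [hPC, Ne, Polynomial.map_eq_zero_iff]
    · exact hP
    · exact Polynomial.map_injective _ Complex.ofReal_injective
  have hrelC : ∀ᶠ t in 𝓝 ((0:ℝ) : ℂ), evalEval (X t) (Y t) PC = 0 := by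
    refine zero_of_real (f := fun t => evalEval (X t) (Y t) PC) ?_ ?_
    · have h1 := Pool.Agent.MP_ae5b4e_an_ND.analyticAt_evalEval PC (X ((0:ℝ) : ℂ), Y ((0:ℝ) : ℂ))
      exact AnalyticAt.fun_comp (g := fun p : ℂ × ℂ => evalEval p.1 p.2 PC)
        (f := fun t : ℂ => (X t, Y t)) (x := ((0:ℝ) : ℂ)) h1 (hX.prod hY)
    · filter_upwards [hXr, hYr] with t h1 h2
      rw [h1, h2, hPC]
      have h3 := Polynomial.map_mapRingHom_evalEval Complex.ofRealHom P (γ.x t) (γ.y t)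
      simp only [Complex.ofRealHom_eq_coe] at h3
      rw [h3, hrel t, Complex.ofReal_zero]
  obtain ⟨A, B, C, D, E, F, hne, hcon⟩ := loc_conic hgood hPC0 hrelC
  have hcon' : ∀ᶠ t : ℝ in 𝓝 0, A * (γ.x t : ℂ) ^ 2 + B * γ.x t * γ.y t + C * (γ.y t : ℂ) ^ 2 +
      D * γ.x t + E * γ.y t + F = 0 := by
    have h1 : ∀ᶠ t : ℝ in 𝓝 0, A * X t ^ 2 + B * X t * Y t + C * Y t ^ 2 + D * X t + E * Y t +
        F = 0 := (Complex.continuous_ofReal.tendsto 0).eventually hcon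
    filter_upwards [h1, hXr, hYr] with t h2 h3 h4
    rw [h3, h4] at h2
    exact h2
  obtain ⟨A', B', C', D', E', F', hne', hcon''⟩ := real_conic γ hx hy hne hcon'
  obtain ⟨x₀, y₀, a, b, c, ha, hb, hγ, hon⟩ := ellipse_of_conic γ hne' hcon''
  refine ⟨x₀, y₀, a, b, c, ha, hb, fun x y => ⟨hon x y, ?_⟩, ?_⟩
  · rintro ⟨t, rfl, rfl⟩
    exact hγ t
  · intro r hr
    have hcont : Continuous (S r) := by
      have h1 : ContinuousOn (fun q : ℝ × ℝ => S q.1 q.2) (Ioo 0 1 ×ˢ univ) := hsmooth.continuousOn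
      have h2 : ContinuousOn (fun t : ℝ => S r t) univ :=
        h1.comp (f := fun t : ℝ => ((r, t) : ℝ × ℝ)) (by fun_prop)
          (fun t _ => ⟨hr, mem_univ _⟩)
      exact continuousOn_univ.1 h2
    exact leaf_of_ellipse γ ha hb hγ hon hcont (hpos r hr) (hper r hr) (hproj r hr)
end AK

end Pool.Agent.MP_ae5b4e_an_ALG
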