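import Mathlib
import Pool.Agent.Lib.MP_ae5b4e_an_ALG.DefsB

/-!
# MP_ae5b4e_an, algebraic tables: the homogeneous relation at a place
-/

noncomputable section

namespace Pool.Agent.MP_ae5b4e_an_ALG

open Filter Topology

namespace PlaceZet

theorem pow_ne_one_eventually {r : ℕ} (hr : 0 < r) :
    ∀ᶠ η in 𝓝[≠] (0:ℂ), (1 + η) ^ r ≠ 1 := by
  have hd : HasDerivAt (fun η : ℂ => (1 + η) ^ r) ((r : ℂ) * (1 + 0) ^ (r - 1) * 1) 0 := by
    have h1 : HasDerivAt (fun η : ℂ => 1 + η) 1 0 := (hasDerivAt_id (0:ℂ)).const_add 1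
    exact h1.pow r
  have hne : ((r : ℂ) * (1 + 0) ^ (r - 1) * 1) ≠ 0 := by
    simp
    omega
  have := hd.eventually_ne (c := 1) hne
  simpa using this

/-- the homogeneous `m` from the homogeneous numerator and denominator -/
theorem hom_m {a b : ℕ} (ha : 0 < a) (hab : a < b) {x0 y0 : ℂ} (hx0 : x0 ≠ 0) (hy0 : y0 ≠ 0)
    {m0 : ℂ → ℂ}
    (h : ∀ᶠ η in 𝓝 (0:ℂ),
      m0 η * (a * x0 * ((1 + η) ^ (b - 1) * (b * y0)) -
        b * y0 * ((1 + η) ^ (a - 1) * (a * x0))) =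
      ((1 + η) ^ a * x0 - x0) * ((1 + η) ^ (b - 1) * (b * y0)) -
        ((1 + η) ^ b * y0 - y0) * ((1 + η) ^ (a - 1) * (a * x0))) :
    ∀ᶠ η in 𝓝 (0:ℂ), (a : ℂ) * b * ((1 + η) ^ (b - a) - 1) * m0 η = Dh a b η := by
  have h1 : ∀ᶠ η in 𝓝 (0:ℂ), (1 + η : ℂ) ≠ 0 := by
    have hc : ContinuousAt (fun η : ℂ => 1 + η) 0 := by fun_prop
    exact hc.eventually_ne (by simp)
  filter_upwards [h, h1] with η hη hσ
  have hη' := hη
  obtain ⟨r, rfl⟩ : ∃ r, b = a + r := ⟨b - a, by omega⟩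
  obtain ⟨a', rfl⟩ : ∃ a', a = a' + 1 := ⟨a - 1, by omega⟩
  have e1 : a' + 1 + r - 1 = a' + r := by omega
  have e2 : a' + 1 + r - (a' + 1) = r := by omega
  have e3 : a' + 1 - 1 = a' := by omega
  rw [e1, e3] at hη'
  rw [Dh, e2]
  set s : ℂ := 1 + η with hs
  have hs' : s ^ a' ≠ 0 := pow_ne_zero _ hσ
  have key : x0 * y0 * s ^ a' * (((a' + 1 : ℕ) : ℂ) * ((a' + 1 + r : ℕ) : ℂ) * (s ^ r - 1) * m0 η) =
      x0 * y0 * s ^ a' * ((((a' + 1 + r : ℕ) : ℂ) - ((a' + 1 : ℕ) : ℂ)) * s ^ (a' + 1 + r) -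
        ((a' + 1 + r : ℕ) : ℂ) * s ^ r + ((a' + 1 : ℕ) : ℂ)) := by
    have e4 : s ^ (a' + r) = s ^ a' * s ^ r := pow_add _ _ _
    have e5 : s ^ (a' + 1) = s ^ a' * s := pow_succ _ _
    have e6 : s ^ (a' + 1 + r) = s ^ a' * s * s ^ r := by rw [pow_add, pow_succ]
    rw [e4, e5, e6] at hη'
    rw [e6]
    linear_combination hη'
  exact mul_left_cancel₀ (mul_ne_zero (mul_ne_zero hx0 hy0) hs') key

/-- `zet` by `m` -/
theorem zet_eq {a b : ℕ} (ha : 0 < a) (hab : a < b) {c : ℝ} {m0 : ℂ → ℂ} (h00 : m0 0 = 0)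
    (hm0 : ∀ᶠ η in 𝓝 (0:ℂ), (a : ℂ) * b * ((1 + η) ^ (b - a) - 1) * m0 η = Dh a b η) :
    ∀ᶠ η in 𝓝 (0:ℂ), zet a b c η = m0 η / (((c : ℂ) - a) * m0 η - 1) := by
  have h1 := pow_ne_one_eventually (r := b - a) (by omega)
  rw [eventually_nhdsWithin_iff] at h1
  filter_upwards [hm0, h1] with η hη hne
  obtain ⟨r, rfl⟩ : ∃ r, b = a + r := ⟨b - a, by omega⟩
  have e2 : a + r - a = r := by omega
  rw [e2] at hη hne
  by_cases h0 : η = 0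
  · subst h0
    simp [zet, Dh, h00, e2]
  · have hD : (a : ℂ) * ((a + r : ℕ) : ℂ) * ((1 + η) ^ r - 1) ≠ 0 := by
      refine mul_ne_zero (mul_ne_zero ?_ ?_) (sub_ne_zero.2 (hne h0))
      · exact_mod_cast ha.ne'
      · exact_mod_cast (by omega : a + r ≠ 0)
    have hden : (c : ℂ) * Dh a (a + r) η - a * (((a + r : ℕ) : ℂ) - a) * ((1 + η) ^ (a + r) - 1) =
        (a : ℂ) * ((a + r : ℕ) : ℂ) * ((1 + η) ^ r - 1) * (((c : ℂ) - a) * m0 η - 1) := by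
      have : ((c : ℂ) - a) * Dh a (a + r) η - (a : ℂ) * ((a + r : ℕ) : ℂ) * ((1 + η) ^ r - 1) =
          (c : ℂ) * Dh a (a + r) η - a * (((a + r : ℕ) : ℂ) - a) * ((1 + η) ^ (a + r) - 1) := by
        simp only [Dh, e2]
        push_cast
        ring
      rw [← this, ← hη]
      ring
    rw [zet, hden, ← hη, mul_div_mul_left _ _ hD]

end PlaceZet

/-- The last claim of `place_gen`. -/
theorem place_zet {a b : ℕ} (ha : 0 < a) (hab : a < b) {c : ℝ} {k : ℂ → ℂ} {m A : ℂ × ℂ → ℂ}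
    (hm : ContinuousAt m (0, 0)) (hm00 : m (0, 0) = 0)
    (hm0 : ∀ᶠ η in 𝓝 (0:ℂ), (a : ℂ) * b * ((1 + η) ^ (b - a) - 1) * m (0, η) = Dh a b η)
    (hA : ContinuousAt A (0, 0)) (hA0 : A (0, 0) = 0) (hk0 : k 0 = 2 * (c - a))
    (hrel : ∀ᶠ p in 𝓝 ((0, 0) : ℂ × ℂ), m (p.1, -A p) * (k p.1 * m p - 1) = m p) :
    ∀ᶠ η in 𝓝 (0:ℂ), zet a b c (-A (0, η)) = -zet a b c η := by
  have hz := PlaceZet.zet_eq ha hab (c := c) (m0 := fun η => m (0, η)) hm00 hm0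
  have hemb : Tendsto (fun η : ℂ => ((0, η) : ℂ × ℂ)) (𝓝 0) (𝓝 (0, 0)) := by
    have : Continuous (fun η : ℂ => ((0, η) : ℂ × ℂ)) := by fun_prop
    exact this.tendsto 0
  have hAt : Tendsto (fun η : ℂ => -A (0, η)) (𝓝 0) (𝓝 0) := by
    have h1 : Tendsto (fun η : ℂ => A (0, η)) (𝓝 0) (𝓝 0) := by
      have := hA.tendsto.comp hemb
      rwa [hA0] at this
    simpa using h1.neg
  have hmt : Tendsto (fun η : ℂ => m (0, η)) (𝓝 0) (𝓝 0) := by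
    have := hm.tendsto.comp hemb
    rwa [hm00] at this
  have hn1 : ∀ᶠ η in 𝓝 (0:ℂ), ((c : ℂ) - a) * m (0, η) - 1 ≠ 0 := by
    have : Tendsto (fun η : ℂ => ((c : ℂ) - a) * m (0, η) - 1) (𝓝 0)
        (𝓝 (((c : ℂ) - a) * 0 - 1)) := (hmt.const_mul _).sub_const 1
    exact this.eventually_ne (by simp)
  have hn2 : ∀ᶠ η in 𝓝 (0:ℂ), 2 * ((c : ℂ) - a) * m (0, η) - 1 ≠ 0 := by
    have : Tendsto (fun η : ℂ => 2 * ((c : ℂ) - a) * m (0, η) - 1) (𝓝 0)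
        (𝓝 (2 * ((c : ℂ) - a) * 0 - 1)) := (hmt.const_mul _).sub_const 1
    exact this.eventually_ne (by simp)
  filter_upwards [hz, hAt.eventually hz, hemb.eventually hrel, hn1, hn2] with η e1 e2 e3 h1 h2
  rw [e1, e2]
  rw [hk0] at e3
  set M := m (0, η) with hM
  set M' := m (0, -A (0, η)) with hM'
  set e : ℂ := (c : ℂ) - a with he
  have hM1 : M' = M / (2 * e * M - 1) := by
    rw [eq_div_iff h2]; exact e3
  have h3 : e * M' - 1 = (1 - e * M) / (2 * e * M - 1) := by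
    rw [hM1, eq_div_iff h2, sub_mul, mul_assoc, div_mul_cancel₀ _ h2]; ring
  have h4 : (1 - e * M) ≠ 0 := by
    intro h; apply h1; linear_combination -h
  rw [h3, hM1]
  have h5 : e * M - 1 ≠ 0 := h1
  rw [div_div_div_cancel_right₀ h2, ← div_neg, neg_sub]

end Pool.Agent.MP_ae5b4e_an_ALG
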