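import Mathlib
import Pool.Agent.Lib.MP_ae5b4e_an_ALG.Defs

/-!
# MP_ae5b4e_an, algebraic tables: the Fatou coordinate of the germ
-/

set_option autoImplicit false
noncomputable section
namespace Pool.Agent.MP_ae5b4e_an_ALG
open Filter Topology Set Metric Complex Polynomial
open scoped Real

namespace Time

/-! ### general lemmas -/

theorem div1 {f : ℂ → ℂ} (hf : AnalyticAt ℂ f 0) :
    ∃ g : ℂ → ℂ, AnalyticAt ℂ g 0 ∧ g 0 = deriv f 0 ∧ ∀ t, f t = f 0 + t * g t := by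
  refine ⟨dslope f 0, ?_, dslope_same f 0, fun t => ?_⟩
  · obtain ⟨p, hp⟩ := hf
    exact ⟨_, hp.has_fpower_series_dslope_fslope⟩
  · have h := sub_smul_dslope f 0 t
    rw [sub_zero, smul_eq_mul] at h
    rw [h]
    ring

/-- the quotient by the variable, with its first two Taylor coefficients -/
theorem div2 {f : ℂ → ℂ} (hf : AnalyticAt ℂ f 0) (hf0 : f 0 = 0) :
    ∃ g : ℂ → ℂ, AnalyticAt ℂ g 0 ∧ g 0 = deriv f 0 ∧ 2 * deriv g 0 = deriv (deriv f) 0 ∧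
      (∀ t, f t = t * g t) ∧ ∀ᶠ t in 𝓝 (0:ℂ), deriv f t = g t + t * deriv g t := by
  obtain ⟨g, hg, hg0, hfg⟩ := div1 hf
  have hfg' : ∀ t, f t = t * g t := fun t => by rw [hfg t, hf0, zero_add]
  have hd : ∀ᶠ t in 𝓝 (0:ℂ), deriv f t = g t + t * deriv g t := by
    filter_upwards [hg.eventually_analyticAt] with t ht
    have h1 : f = fun t => t * g t := funext hfg'
    have h2 : HasDerivAt (fun z => z * g z) (1 * g t + t * deriv g t) t :=
      (hasDerivAt_id t).mul ht.differentiableAt.hasDerivAt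
    rw [h1, h2.deriv, one_mul]
  refine ⟨g, hg, hg0, ?_, hfg', hd⟩
  have h3 : HasDerivAt (fun t => g t + t * deriv g t)
      (deriv g 0 + (1 * deriv g 0 + 0 * deriv (deriv g) 0)) 0 :=
    hg.differentiableAt.hasDerivAt.add
      ((hasDerivAt_id (0:ℂ)).mul hg.deriv.differentiableAt.hasDerivAt)
  have h4 : deriv (deriv f) 0 = deriv g 0 + (1 * deriv g 0 + 0 * deriv (deriv g) 0) := by
    rw [← h3.deriv]
    exact EventuallyEq.deriv_eq hd
  rw [h4]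
  ring

/-- two primitives with the same value at `0` agree near `0` -/
theorem eq_of_deriv {f g f' : ℂ → ℂ} (hf : ∀ᶠ z in 𝓝 (0:ℂ), HasDerivAt f (f' z) z)
    (hg : ∀ᶠ z in 𝓝 (0:ℂ), HasDerivAt g (f' z) z) (h0 : f 0 = g 0) :
    ∀ᶠ z in 𝓝 (0:ℂ), f z = g z := by
  obtain ⟨r, hr, h⟩ := Metric.eventually_nhds_iff_ball.1 (hf.and hg)
  filter_upwards [Metric.ball_mem_nhds 0 hr] with z hz
  have h1 : ∀ w ∈ ball (0:ℂ) r, HasDerivAt (fun w => f w - g w) 0 w := fun w hw => by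
    have := (h w hw).1.sub (h w hw).2
    rw [sub_self] at this
    exact this
  have := Metric.isOpen_ball.is_const_of_deriv_eq_zero (convex_ball (0:ℂ) r).isPreconnected
    (fun w hw => (h1 w hw).differentiableAt.differentiableWithinAt)
    (fun w hw => (h1 w hw).deriv) hz (mem_ball_self hr)
  have h2 : f z - g z = f 0 - g 0 := this
  linear_combination h2 + h0

theorem prim {f : ℂ → ℂ} (hf : AnalyticAt ℂ f 0) :
    ∃ F : ℂ → ℂ, AnalyticAt ℂ F 0 ∧ F 0 = 0 ∧ ∀ᶠ z in 𝓝 (0:ℂ), HasDerivAt F (f z) z := by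
  obtain ⟨r, hr, h⟩ := Metric.eventually_nhds_iff_ball.1 hf.eventually_analyticAt
  have h1 : DifferentiableOn ℂ f (ball 0 r) :=
    fun z hz => (h z hz).differentiableAt.differentiableWithinAt
  obtain ⟨F, hF0, hF⟩ := h1.isExactOn_ball.with_val_at 0 0
  refine ⟨F, ?_, hF0, ?_⟩
  · have h2 : DifferentiableOn ℂ F (ball 0 r) :=
      fun z hz => (hF z hz).differentiableAt.differentiableWithinAt
    exact h2.analyticAt (Metric.ball_mem_nhds 0 hr)
  · filter_upwards [Metric.ball_mem_nhds 0 hr] with z hz using hF z hz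

theorem local_inv {f : ℂ → ℂ} (hf : AnalyticAt ℂ f 0) (hf0 : f 0 = 0) (hf1 : deriv f 0 ≠ 0) :
    ∃ g : ℂ → ℂ, AnalyticAt ℂ g 0 ∧ g 0 = 0 ∧ deriv g 0 = (deriv f 0)⁻¹ ∧
      (∀ᶠ z in 𝓝 (0:ℂ), f (g z) = z) ∧ ∀ᶠ z in 𝓝 (0:ℂ), g (f z) = z := by
  have ha := hf.analyticAt_localInverse hf1
  have hl : ∀ᶠ w in 𝓝 (0:ℂ), hf.hasStrictDerivAt.localInverse _ _ _ hf1 (f w) = w :=
    hf.hasStrictDerivAt.eventually_left_inverse hf1
  have hr := hf.hasStrictDerivAt.eventually_right_inverse hf1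
  have hd := (hf.hasStrictDerivAt.to_localInverse hf1).hasDerivAt
  rw [hf0] at ha hr hd
  refine ⟨hf.hasStrictDerivAt.localInverse _ _ _ hf1, ha, ?_, hd.deriv, hr, hl⟩
  have := hl.self_of_nhds
  rw [hf0] at this
  exact this

/-- an identity between analytic germs holds at `0` if it holds near `0` -/
theorem ext_punct {f g : ℂ → ℂ} (hf : AnalyticAt ℂ f 0) (hg : AnalyticAt ℂ g 0)
    (h : ∀ᶠ z in 𝓝[≠] (0:ℂ), f z = g z) : ∀ᶠ z in 𝓝 (0:ℂ), f z = g z :=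
  (hf.frequently_eq_iff_eventually_eq hg).1 h.frequently

/-- a function which is analytic after an extension and has derivative zero is constant -/
theorem const_of_punct {K L : ℂ → ℂ} (hL : AnalyticAt ℂ L 0)
    (h : ∀ᶠ z in 𝓝[≠] (0:ℂ), K z = L z) (hd : ∀ᶠ z in 𝓝[≠] (0:ℂ), HasDerivAt K 0 z) :
    ∀ᶠ z in 𝓝[≠] (0:ℂ), K z = L 0 := by
  have h1 : ∀ᶠ z in 𝓝[≠] (0:ℂ), ∀ᶠ w in 𝓝 z, K w = L w := by
    have := eventually_eventually_nhdsWithin.2 h
    filter_upwards [this, self_mem_nhdsWithin] with z hz hz0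
    rwa [IsOpen.nhdsWithin_eq isOpen_compl_singleton hz0] at hz
  have h2 : ∀ᶠ z in 𝓝[≠] (0:ℂ), deriv L z = (fun _ : ℂ => (0:ℂ)) z := by
    filter_upwards [h1, hd] with z hz hdz
    have : L =ᶠ[𝓝 z] K := by filter_upwards [hz] with w hw using hw.symm
    rw [this.deriv_eq, hdz.deriv]
  have h3 := ext_punct hL.deriv analyticAt_const h2
  have h4 : ∀ᶠ z in 𝓝 (0:ℂ), HasDerivAt L 0 z := by
    filter_upwards [h3, hL.eventually_analyticAt] with z hz hLz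
    have := hLz.differentiableAt.hasDerivAt
    rw [hz] at this
    exact this
  have h5 : ∀ᶠ z in 𝓝 (0:ℂ), L z = (fun _ => L 0) z :=
    eq_of_deriv (f' := fun _ => 0) h4 (Eventually.of_forall fun z => hasDerivAt_const z (L 0)) rfl
  filter_upwards [h, nhdsWithin_le_nhds h5] with z hz h5z
  rw [hz, h5z]

/-! ### conjugation -/

theorem tendsto_conj0 : Tendsto (starRingEnd ℂ) (𝓝 (0:ℂ)) (𝓝 0) := by
  have := Complex.continuous_conj.tendsto (0:ℂ)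
  rwa [map_zero] at this

theorem tendsto_neg0 : Tendsto (fun z : ℂ => -z) (𝓝 (0:ℂ)) (𝓝 0) := by
  have := (continuous_neg (G := ℂ)).tendsto (0:ℂ)
  rwa [neg_zero] at this

theorem hasDerivAt_conj {f : ℂ → ℂ} {f' z : ℂ} (h : HasDerivAt f f' ((starRingEnd ℂ) z)) :
    HasDerivAt (fun w => (starRingEnd ℂ) (f ((starRingEnd ℂ) w))) ((starRingEnd ℂ) f') z := by
  have := h.conj_conj
  rw [Complex.conj_conj] at this
  exact this

theorem analyticAt_conj {f : ℂ → ℂ} (h : AnalyticAt ℂ f 0) :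
    AnalyticAt ℂ (fun w => (starRingEnd ℂ) (f ((starRingEnd ℂ) w))) 0 := by
  rw [Complex.analyticAt_iff_eventually_differentiableAt] at *
  filter_upwards [tendsto_conj0.eventually h] with z hz
  exact (hasDerivAt_conj hz.hasDerivAt).differentiableAt

/-! ### Step 1: the differential is real -/

theorem germ_zero {h β : ℂ → ℂ} {d : ℝ} (hd : 0 < d) (hh : AnalyticAt ℂ h 0)
    (hβ : AnalyticAt ℂ β 0) (hβ0 : β 0 = 0) (hβ1 : deriv β 0 = 1)
    (hβ2 : deriv (deriv β) 0 = 2 * d)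
    (he : ∀ᶠ z in 𝓝 (0:ℂ), h z = deriv β z * h (β z)) : ∀ᶠ z in 𝓝 (0:ℂ), h z = 0 := by
  by_contra hne
  obtain ⟨m, k, hk, hk0, hhk⟩ := hh.exists_eventuallyEq_pow_smul_nonzero_iff.2 hne
  obtain ⟨b, hb, hb0, hb1, hβb, -⟩ := div2 hβ hβ0
  have hkβ : AnalyticAt ℂ (fun z => k (β z)) 0 :=
    AnalyticAt.fun_comp_of_eq hk hβ hβ0
  have hβt : Tendsto β (𝓝 0) (𝓝 0) := by
    have := hβ.continuousAt.tendsto
    rwa [hβ0] at this
  have h1 : ∀ᶠ z in 𝓝[≠] (0:ℂ), k z = deriv β z * b z ^ m * k (β z) := by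
    filter_upwards [nhdsWithin_le_nhds hhk, nhdsWithin_le_nhds (hβt.eventually hhk),
      nhdsWithin_le_nhds he, self_mem_nhdsWithin] with z h2 h3 h4 h5
    rw [h2, h3] at h4
    simp only [sub_zero, smul_eq_mul] at h4
    have h6 : (β z) ^ m = z ^ m * b z ^ m := by rw [← mul_pow, ← hβb z]
    rw [h6] at h4
    exact mul_left_cancel₀ (pow_ne_zero m h5) (by linear_combination h4)
  have h2 := ext_punct hk ((hβ.deriv.mul (hb.pow m)).mul hkβ) h1
  have hk1 : HasDerivAt k (deriv k 0) (β 0) := by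
    rw [hβ0]
    exact hk.differentiableAt.hasDerivAt
  have h3 := (hβ.deriv.differentiableAt.hasDerivAt.mul
    (hb.differentiableAt.hasDerivAt.pow m)).mul (hk1.comp 0 hβ.differentiableAt.hasDerivAt)
  have h4 := EventuallyEq.deriv_eq h2
  have h5 := h3.deriv.symm.trans (h4.symm.trans rfl)
  simp only [Function.comp, hβ0, hb0, hβ1, hβ2, one_pow, mul_one, one_mul, Pi.mul_apply,
    Pi.pow_apply] at h5
  have h6 : deriv b 0 = d := by
    rw [hβ2] at hb1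
    exact mul_left_cancel₀ two_ne_zero hb1
  rw [h6] at h5
  have h7 : ((2 * d + m * d : ℝ) : ℂ) * k 0 = 0 := by
    push_cast
    linear_combination h5
  rcases mul_eq_zero.1 h7 with h8 | h8
  · have h9 : (2 * d + m * d : ℝ) = 0 := by exact_mod_cast h8
    have h10 : (0:ℝ) ≤ m * d := by positivity
    linarith
  · exact hk0 h8

/-- the Moebius involution -/
def tau (η : ℂ) : ℂ := -η / (1 + η)

theorem one_add_ne : ∀ᶠ η in 𝓝 (0:ℂ), 1 + η ≠ 0 := by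
  have : Tendsto (fun η : ℂ => 1 + η) (𝓝 0) (𝓝 (1 + 0)) := tendsto_const_nhds.add tendsto_id
  exact this.eventually_ne (by norm_num)

theorem tau_zero : tau 0 = 0 := by simp [tau]

theorem tau_analytic : AnalyticAt ℂ tau 0 :=
  analyticAt_id.neg.div (analyticAt_const.add analyticAt_id) (by simp)

theorem tau_deriv {η : ℂ} (h : 1 + η ≠ 0) : HasDerivAt tau (-1 / (1 + η) ^ 2) η := by
  have h1 : HasDerivAt tau (((-1) * (1 + η) - (-η) * 1) / (1 + η) ^ 2) η :=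
    (hasDerivAt_id η).neg.div ((hasDerivAt_id η).const_add 1) h
  convert h1 using 1
  ring

theorem tau_conj (η : ℂ) : tau ((starRingEnd ℂ) η) = (starRingEnd ℂ) (tau η) := by
  simp [tau]

theorem tendsto_tau : Tendsto tau (𝓝 0) (𝓝 0) := by
  have := tau_analytic.continuousAt.tendsto
  rwa [tau_zero] at this

theorem tendsto_punct {f : ℂ → ℂ} (hf : AnalyticAt ℂ f 0) (hf0 : f 0 = 0) (hf1 : deriv f 0 ≠ 0) :
    Tendsto f (𝓝[≠] 0) (𝓝[≠] 0) := by
  have := hf.differentiableAt.hasDerivAt.tendsto_nhdsNE hf1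
  rwa [hf0] at this

theorem tendsto_tau' : Tendsto tau (𝓝[≠] 0) (𝓝[≠] 0) := by
  refine tendsto_punct tau_analytic tau_zero ?_
  rw [(tau_deriv (η := 0) (by simp)).deriv]
  simp

theorem tendsto_conj0' : Tendsto (starRingEnd ℂ) (𝓝[≠] (0:ℂ)) (𝓝[≠] 0) := by
  refine tendsto_nhdsWithin_iff.2 ⟨tendsto_conj0.mono_left nhdsWithin_le_nhds, ?_⟩
  filter_upwards [self_mem_nhdsWithin] with z hz
  simpa using hz

theorem tendsto_neg0' : Tendsto (fun z : ℂ => -z) (𝓝[≠] (0:ℂ)) (𝓝[≠] 0) := by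
  refine tendsto_nhdsWithin_iff.2 ⟨tendsto_neg0.mono_left nhdsWithin_le_nhds, ?_⟩
  filter_upwards [self_mem_nhdsWithin] with z hz
  simpa using hz

/-- the differential has residue one -/
theorem g_form {Q : ℂ → ℂ} {d : ℝ} (hd : 0 < d) (hQ : AnalyticAt ℂ Q 0) (hQ0 : Q 0 = 0)
    (hQ1 : deriv Q 0 = 1 - d) :
    ∃ g0 : ℂ → ℂ, AnalyticAt ℂ g0 0 ∧
      ∀ᶠ η in 𝓝[≠] (0:ℂ), (d:ℂ) / (η - Q η) = 1 / η + g0 η := by
  have hdc : (d:ℂ) ≠ 0 := by exact_mod_cast hd.ne'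
  obtain ⟨q, hq, hq0, -, hfq, -⟩ := div2 (f := fun η => η - Q η) (analyticAt_id.sub hQ)
    (by simp [hQ0])
  have hq0' : q 0 = d := by
    have h1 : HasDerivAt (fun η => η - Q η) (1 - deriv Q 0) 0 :=
      (hasDerivAt_id (0:ℂ)).sub hQ.differentiableAt.hasDerivAt
    rw [hq0, h1.deriv, hQ1]
    ring
  have hq0n : q 0 ≠ 0 := by rw [hq0']; exact hdc
  have hN : AnalyticAt ℂ (fun η => (d:ℂ) / q η - 1) 0 :=
    (analyticAt_const.div hq hq0n).sub analyticAt_const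
  obtain ⟨g0, hg0, -, -, hNg, -⟩ := div2 hN (by simp only [hq0']; rw [div_self hdc, sub_self])
  refine ⟨g0, hg0, ?_⟩
  have hqn : ∀ᶠ η in 𝓝 (0:ℂ), q η ≠ 0 := hq.continuousAt.eventually_ne hq0n
  filter_upwards [nhdsWithin_le_nhds hqn, self_mem_nhdsWithin] with η h1 h2
  have h2' : η ≠ 0 := h2
  have h3 := hNg η
  rw [hfq η]
  have h4 : (d:ℂ) / q η = 1 + η * g0 η := by linear_combination h3
  have h5 : (d:ℂ) / (η * q η) = (1 / η) * (d / q η) := by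
    field_simp
  rw [h5, h4]
  field_simp

/-- the differential is real -/
theorem g_real {a g0 : ℂ → ℂ} {d : ℝ} (hd : 0 < d)
    (ha : AnalyticAt ℂ a 0) (ha0 : a 0 = 0) (ha1 : deriv a 0 = 1)
    (ha2 : deriv (deriv a) 0 = 2 * d - 2)
    (har : ∀ᶠ η in 𝓝 (0:ℂ), a ((starRingEnd ℂ) η) = (starRingEnd ℂ) (a η))
    (hg0 : AnalyticAt ℂ g0 0)
    (hg1 : ∀ᶠ η in 𝓝[≠] (0:ℂ), 1 / η + g0 η =
      d / (1 + η) - (1 / tau η + g0 (tau η)) / (1 + η) ^ 2)
    (hg2 : ∀ᶠ η in 𝓝[≠] (0:ℂ), 1 / η + g0 η = -deriv a η * (1 / (-(a η)) + g0 (-(a η)))) :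
    ∀ᶠ η in 𝓝 (0:ℂ), g0 ((starRingEnd ℂ) η) = (starRingEnd ℂ) (g0 η) := by
  set H : ℂ → ℂ := fun η => g0 η - (starRingEnd ℂ) (g0 ((starRingEnd ℂ) η)) with hH
  have hHa : AnalyticAt ℂ H 0 := hg0.sub (analyticAt_conj hg0)
  have hna : AnalyticAt ℂ (fun η => -(a η)) 0 := ha.neg
  have hna0 : -(a 0) = 0 := by rw [ha0, neg_zero]
  have hnad : HasDerivAt (fun η => -(a η)) (-1) 0 := by
    have := ha.differentiableAt.hasDerivAt.neg
    rw [ha1] at this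
    exact this
  have hta : Tendsto (fun η => -(a η)) (𝓝[≠] 0) (𝓝[≠] 0) :=
    tendsto_punct hna hna0 (by rw [hnad.deriv]; norm_num)
  have hA : ∀ᶠ η in 𝓝[≠] (0:ℂ), H η = -H (tau η) / (1 + η) ^ 2 := by
    filter_upwards [hg1, tendsto_conj0'.eventually hg1] with η h1 h2
    have h3 := congrArg (starRingEnd ℂ) h2
    simp only [tau_conj, map_add, map_sub, map_div₀, map_one, map_pow, Complex.conj_conj,
      Complex.conj_ofReal] at h3
    simp only [hH]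
    linear_combination h1 - h3
  have har' : ∀ᶠ η in 𝓝 (0:ℂ), deriv a ((starRingEnd ℂ) η) = (starRingEnd ℂ) (deriv a η) := by
    filter_upwards [har.eventually_nhds, tendsto_conj0.eventually har.eventually_nhds,
      ha.eventually_analyticAt, tendsto_conj0.eventually ha.eventually_analyticAt]
      with η h1 h2 h3 h4
    have h5 : HasDerivAt (fun w => (starRingEnd ℂ) (a ((starRingEnd ℂ) w)))
        ((starRingEnd ℂ) (deriv a ((starRingEnd ℂ) η))) η :=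
      hasDerivAt_conj h4.differentiableAt.hasDerivAt
    have h6 : (fun w => (starRingEnd ℂ) (a ((starRingEnd ℂ) w))) =ᶠ[𝓝 η] a := by
      filter_upwards [h1] with w hw
      rw [hw, Complex.conj_conj]
    have h7 := h5.deriv
    rw [h6.deriv_eq] at h7
    rw [h7, Complex.conj_conj]
  have hB : ∀ᶠ η in 𝓝[≠] (0:ℂ), H η = -deriv a η * H (-(a η)) := by
    filter_upwards [hg2, tendsto_conj0'.eventually hg2, nhdsWithin_le_nhds har,
      nhdsWithin_le_nhds har'] with η h1 h2 h4 h5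
    have h3 := congrArg (starRingEnd ℂ) h2
    rw [h4, h5] at h3
    simp only [map_add, map_mul, map_neg, map_div₀, map_one, Complex.conj_conj] at h3
    simp only [hH, map_neg]
    linear_combination h1 - h3
  have h1a : ∀ᶠ η in 𝓝 (0:ℂ), 1 + -(a η) ≠ 0 := by
    have : Tendsto (fun η => -(a η)) (𝓝 0) (𝓝 0) := by
      have := hna.continuousAt.tendsto
      rwa [hna0] at this
    exact this.eventually one_add_ne
  have hβa : AnalyticAt ℂ (fun η => tau (-(a η))) 0 :=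
    AnalyticAt.fun_comp_of_eq tau_analytic hna hna0
  have hβd : ∀ᶠ η in 𝓝 (0:ℂ), deriv (fun η => tau (-(a η))) η =
      -1 / (1 + -(a η)) ^ 2 * -deriv a η := by
    filter_upwards [h1a, ha.eventually_analyticAt] with η h1 h2
    exact ((tau_deriv h1).comp η h2.differentiableAt.hasDerivAt.neg).deriv
  have hβ2 : deriv (deriv (fun η => tau (-(a η)))) 0 = 2 * d := by
    rw [EventuallyEq.deriv_eq hβd]
    have h10 : (1 + -(a 0)) ^ 2 ≠ 0 := by rw [ha0]; norm_num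
    have h1 : HasDerivAt (fun η => -1 / (1 + -(a η)) ^ 2 * -deriv a η) _ 0 :=
      ((hasDerivAt_const (0:ℂ) (-1:ℂ)).div ((hnad.const_add 1).pow 2) h10).mul
        ha.deriv.differentiableAt.hasDerivAt.neg
    rw [h1.deriv]
    simp only [Pi.pow_apply, Pi.div_apply, ha0, ha1, ha2]
    norm_num
  have hC : ∀ᶠ η in 𝓝[≠] (0:ℂ), H η = deriv (fun η => tau (-(a η))) η * H (tau (-(a η))) := by
    filter_upwards [hB, hta.eventually hA, nhdsWithin_le_nhds hβd] with η h1 h2 h3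
    rw [h1, h2, h3]
    ring
  have hHβ : AnalyticAt ℂ (fun η => H (tau (-(a η)))) 0 :=
    AnalyticAt.fun_comp_of_eq hHa hβa (by simp [hna0, tau_zero])
  have hD := germ_zero hd hHa hβa (by simp [hna0, tau_zero])
    (by rw [hβd.self_of_nhds, ha0, ha1]; norm_num) hβ2 (ext_punct hHa (hβa.deriv.mul hHβ) hC)
  filter_upwards [tendsto_conj0.eventually hD] with η hη
  simp only [hH, Complex.conj_conj] at hη
  linear_combination hη

/-! ### Step 2: the coordinate `ζ` -/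

theorem coord1 {a g0 ζ : ℂ → ℂ} (ha : AnalyticAt ℂ a 0) (ha0 : a 0 = 0)
    (hg0 : AnalyticAt ℂ g0 0)
    (hg0r : ∀ᶠ η in 𝓝 (0:ℂ), g0 ((starRingEnd ℂ) η) = (starRingEnd ℂ) (g0 η))
    (hg2 : ∀ᶠ η in 𝓝[≠] (0:ℂ), 1 / η + g0 η = -deriv a η * (1 / (-(a η)) + g0 (-(a η))))
    (hζ : AnalyticAt ℂ ζ 0) (hζ0 : ζ 0 = 0) (hζ1 : deriv ζ 0 = -1 / 2)
    (hζr : ∀ᶠ η in 𝓝 (0:ℂ), ζ ((starRingEnd ℂ) η) = (starRingEnd ℂ) (ζ η))
    (hζa : ∀ᶠ η in 𝓝 (0:ℂ), ζ (-(a η)) = -ζ η) :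
    ∃ G : ℂ → ℂ, AnalyticAt ℂ G 0 ∧ (∀ᶠ z in 𝓝 (0:ℂ), G (-z) = -G z) ∧
      (∀ᶠ z in 𝓝 (0:ℂ), G ((starRingEnd ℂ) z) = (starRingEnd ℂ) (G z)) ∧
      ∀ᶠ η in 𝓝[≠] (0:ℂ), 1 / η + g0 η = (1 / ζ η + G (ζ η)) * deriv ζ η := by
  have hζ1n : deriv ζ 0 ≠ 0 := by rw [hζ1]; norm_num
  obtain ⟨χ, hχ, hχ0, hχ1, hζχ, hχζ⟩ := local_inv hζ hζ0 hζ1n
  have hχ1n : deriv χ 0 ≠ 0 := by rw [hχ1]; exact inv_ne_zero hζ1n
  obtain ⟨k, hk, hk0, -, hχk, hχd⟩ := div2 hχ hχ0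
  have hk0n : k 0 ≠ 0 := by rw [hk0]; exact hχ1n
  have hkn : ∀ᶠ z in 𝓝 (0:ℂ), k z ≠ 0 := hk.continuousAt.eventually_ne hk0n
  have hχt : Tendsto χ (𝓝 0) (𝓝 0) := by
    have := hχ.continuousAt.tendsto
    rwa [hχ0] at this
  have hχt' : Tendsto χ (𝓝[≠] 0) (𝓝[≠] 0) := tendsto_punct hχ hχ0 hχ1n
  have hζt : Tendsto ζ (𝓝 0) (𝓝 0) := by
    have := hζ.continuousAt.tendsto
    rwa [hζ0] at this
  have hζt' : Tendsto ζ (𝓝[≠] 0) (𝓝[≠] 0) := tendsto_punct hζ hζ0 hζ1n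
  have hat : Tendsto (fun η => -(a η)) (𝓝 0) (𝓝 0) := by
    have := ha.neg.continuousAt.tendsto
    simp only [Pi.neg_apply, ha0, neg_zero] at this
    exact this
  set G : ℂ → ℂ := fun z => deriv k z / k z + g0 (χ z) * deriv χ z with hG
  have hGa : AnalyticAt ℂ G 0 :=
    (hk.deriv.div hk hk0n).add ((AnalyticAt.fun_comp_of_eq hg0 hχ hχ0).mul hχ.deriv)
  have hGe : ∀ᶠ z in 𝓝[≠] (0:ℂ), 1 / z + G z = (1 / χ z + g0 (χ z)) * deriv χ z := by
    filter_upwards [nhdsWithin_le_nhds hkn, nhdsWithin_le_nhds hχd, self_mem_nhdsWithin]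
      with z h1 h2 h3
    have h3' : z ≠ 0 := h3
    simp only [hG]
    rw [h2, hχk z]
    field_simp
    ring
  have hχa : ∀ᶠ z in 𝓝 (0:ℂ), χ (-z) = -(a (χ z)) := by
    filter_upwards [hχt.eventually hζa, hζχ, (hat.comp hχt).eventually hχζ] with z h1 h2 h3
    rw [h2] at h1
    rw [← h1]
    exact h3
  have hχad : ∀ᶠ z in 𝓝 (0:ℂ), deriv χ (-z) = deriv a (χ z) * deriv χ z := by
    filter_upwards [hχa.eventually_nhds, hχ.eventually_analyticAt,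
      tendsto_neg0.eventually hχ.eventually_analyticAt,
      hχt.eventually ha.eventually_analyticAt] with z h1 h2 h3 h4
    have h5 : HasDerivAt (fun w => χ (-w)) (deriv χ (-z) * (-1)) z :=
      h3.differentiableAt.hasDerivAt.comp z (hasDerivAt_neg z)
    have h6 : HasDerivAt (fun w => -(a (χ w))) (-(deriv a (χ z) * deriv χ z)) z :=
      (h4.differentiableAt.hasDerivAt.comp z h2.differentiableAt.hasDerivAt).neg
    have h7 := EventuallyEq.deriv_eq h1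
    rw [h5.deriv, h6.deriv] at h7
    linear_combination -h7
  have hχr : ∀ᶠ z in 𝓝 (0:ℂ), χ ((starRingEnd ℂ) z) = (starRingEnd ℂ) (χ z) := by
    filter_upwards [hχt.eventually hζr, hζχ, (tendsto_conj0.comp hχt).eventually hχζ]
      with z h1 h2 h3
    rw [h2] at h1
    rw [← h1]
    exact h3
  have hχrd : ∀ᶠ z in 𝓝 (0:ℂ), deriv χ ((starRingEnd ℂ) z) = (starRingEnd ℂ) (deriv χ z) := by
    filter_upwards [hχr.eventually_nhds, tendsto_conj0.eventually hχ.eventually_analyticAt]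
      with z h1 h4
    have h5 : HasDerivAt (fun w => (starRingEnd ℂ) (χ ((starRingEnd ℂ) w)))
        ((starRingEnd ℂ) (deriv χ ((starRingEnd ℂ) z))) z :=
      hasDerivAt_conj h4.differentiableAt.hasDerivAt
    have h6 : (fun w => (starRingEnd ℂ) (χ ((starRingEnd ℂ) w))) =ᶠ[𝓝 z] χ := by
      filter_upwards [h1] with w hw
      rw [hw, Complex.conj_conj]
    have h7 := h5.deriv
    rw [h6.deriv_eq] at h7
    rw [h7, Complex.conj_conj]
  refine ⟨G, hGa, ?_, ?_, ?_⟩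
  · refine ext_punct (AnalyticAt.fun_comp_of_eq hGa analyticAt_id.neg (by simp)) hGa.neg ?_
    filter_upwards [hGe, tendsto_neg0'.eventually hGe, hχt'.eventually hg2,
      nhdsWithin_le_nhds hχa, nhdsWithin_le_nhds hχad] with z h1 h2 h3 h4 h5
    rw [h4, h5] at h2
    show G (-z) = -G z
    have h6 : 1 / -z = -(1 / z) := by rw [div_neg]
    linear_combination h2 - h6 + h1 + deriv χ z * h3
  · have h0 : ∀ᶠ z in 𝓝[≠] (0:ℂ), G z = (starRingEnd ℂ) (G ((starRingEnd ℂ) z)) := by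
      filter_upwards [hGe, tendsto_conj0'.eventually hGe, hχt'.eventually
        (nhdsWithin_le_nhds hg0r), nhdsWithin_le_nhds hχr, nhdsWithin_le_nhds hχrd]
        with z h1 h2 h3 h4 h5
      rw [h4, h5, h3] at h2
      have h6 := congrArg (starRingEnd ℂ) h2
      simp only [map_add, map_mul, map_div₀, map_one, Complex.conj_conj] at h6
      linear_combination h1 - h6
    have h1 := ext_punct hGa (analyticAt_conj hGa) h0
    filter_upwards [h1] with z hz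
    rw [hz, Complex.conj_conj]
  · have hcd : ∀ᶠ η in 𝓝 (0:ℂ), deriv χ (ζ η) * deriv ζ η = 1 := by
      filter_upwards [hχζ.eventually_nhds, hζ.eventually_analyticAt,
        hζt.eventually hχ.eventually_analyticAt] with η h1 h2 h3
      have h5 : HasDerivAt (fun w => χ (ζ w)) (deriv χ (ζ η) * deriv ζ η) η :=
        h3.differentiableAt.hasDerivAt.comp η h2.differentiableAt.hasDerivAt
      rw [← h5.deriv, EventuallyEq.deriv_eq h1]
      exact (hasDerivAt_id η).deriv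
    filter_upwards [hζt'.eventually hGe, nhdsWithin_le_nhds hχζ, nhdsWithin_le_nhds hcd]
      with η h1 h2 h3
    rw [h1, h2]
    linear_combination -(1 / η + g0 η) * h3

theorem coord2 {G : ℂ → ℂ} (hG : AnalyticAt ℂ G 0) (hodd : ∀ᶠ z in 𝓝 (0:ℂ), G (-z) = -G z)
    (hreal : ∀ᶠ z in 𝓝 (0:ℂ), G ((starRingEnd ℂ) z) = (starRingEnd ℂ) (G z)) :
    ∃ J B M : ℂ → ℂ, AnalyticAt ℂ J 0 ∧ AnalyticAt ℂ B 0 ∧ B 0 = 0 ∧
      (∀ᶠ z in 𝓝 (0:ℂ), HasDerivAt J (G z) z) ∧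
      (∀ᶠ z in 𝓝 (0:ℂ), HasDerivAt B (M z) z) ∧
      (∀ᶠ z in 𝓝 (0:ℂ), B (-z) = -B z) ∧
      (∀ᶠ z in 𝓝 (0:ℂ), B ((starRingEnd ℂ) z) = (starRingEnd ℂ) (B z)) ∧
      ∀ z, exp (-3 * J z) = 1 + z ^ 2 * M z := by
  obtain ⟨J, hJ, hJ0, hJd⟩ := prim hG
  have hG0 : G 0 = 0 := by
    have h1 := hodd.self_of_nhds
    rw [neg_zero] at h1
    have h2 : 2 * G 0 = 0 := by linear_combination h1
    exact (mul_eq_zero.1 h2).resolve_left two_ne_zero
  have hN : AnalyticAt ℂ (fun z => exp (-3 * J z) - 1) 0 :=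
    (analyticAt_const.mul hJ).cexp.sub analyticAt_const
  obtain ⟨m, hm, hm0, -, hNm, -⟩ := div2 hN (by simp [hJ0])
  have hm0' : m 0 = 0 := by
    have h1 : HasDerivAt (fun z => exp (-3 * J z) - 1) (exp (-3 * J 0) * (-3 * G 0)) 0 :=
      ((hJd.self_of_nhds.const_mul (-3)).cexp).sub_const 1
    rw [hm0, h1.deriv, hG0, mul_zero, mul_zero]
  obtain ⟨M, hM, -, -, hmM, -⟩ := div2 hm hm0'
  obtain ⟨B, hB, hB0, hBd⟩ := prim hM
  have hexp : ∀ z, exp (-3 * J z) = 1 + z ^ 2 * M z := fun z => by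
    have h1 := hNm z
    rw [hmM z] at h1
    linear_combination h1
  have hJe : ∀ᶠ z in 𝓝 (0:ℂ), J (-z) = J z := by
    refine eq_of_deriv (f' := G) ?_ hJd (by simp)
    filter_upwards [tendsto_neg0.eventually hJd, hodd] with z h1 h2
    have h3 : HasDerivAt (fun w => J (-w)) (G (-z) * (-1)) z := h1.comp z (hasDerivAt_neg z)
    rw [h2] at h3
    convert h3 using 1
    ring
  have hJr : ∀ᶠ z in 𝓝 (0:ℂ), (starRingEnd ℂ) (J ((starRingEnd ℂ) z)) = J z := by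
    refine eq_of_deriv (f' := G) ?_ hJd (by simp [hJ0])
    filter_upwards [tendsto_conj0.eventually hJd, hreal] with z h1 h2
    have h3 := hasDerivAt_conj h1
    rw [h2, Complex.conj_conj] at h3
    exact h3
  have hMe : ∀ᶠ z in 𝓝 (0:ℂ), M (-z) = M z := by
    refine ext_punct (AnalyticAt.fun_comp_of_eq hM analyticAt_id.neg (by simp)) hM ?_
    filter_upwards [nhdsWithin_le_nhds hJe, self_mem_nhdsWithin] with z h1 h2
    have h3 := hexp (-z)
    rw [h1, hexp z] at h3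
    exact mul_left_cancel₀ (pow_ne_zero 2 h2) (by linear_combination -h3)
  have hMr : ∀ᶠ z in 𝓝 (0:ℂ), (starRingEnd ℂ) (M ((starRingEnd ℂ) z)) = M z := by
    refine ext_punct (analyticAt_conj hM) hM ?_
    filter_upwards [nhdsWithin_le_nhds hJr, self_mem_nhdsWithin] with z h1 h2
    have h3 := congrArg (starRingEnd ℂ) (hexp ((starRingEnd ℂ) z))
    rw [← Complex.exp_conj] at h3
    simp only [map_add, map_mul, map_one, map_pow, map_neg, Complex.conj_conj, h1,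
      Complex.conj_ofNat] at h3
    rw [hexp z] at h3
    exact mul_left_cancel₀ (pow_ne_zero 2 h2) (by linear_combination -h3)
  refine ⟨J, B, M, hJ, hB, hB0, hJd, hBd, ?_, ?_, hexp⟩
  · refine eq_of_deriv (f' := fun z => -M z) ?_ ?_ (by simp [hB0])
    · filter_upwards [tendsto_neg0.eventually hBd, hMe] with z h1 h2
      have h3 : HasDerivAt (fun w => B (-w)) (M (-z) * (-1)) z := h1.comp z (hasDerivAt_neg z)
      rw [h2] at h3
      convert h3 using 1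
      ring
    · filter_upwards [hBd] with z h1 using h1.neg
  · have h0 : ∀ᶠ z in 𝓝 (0:ℂ), (starRingEnd ℂ) (B ((starRingEnd ℂ) z)) = B z := by
      refine eq_of_deriv (f' := M) ?_ hBd (by simp [hB0])
      filter_upwards [tendsto_conj0.eventually hBd, hMr] with z h1 h2
      have h3 := hasDerivAt_conj h1
      rw [h2] at h3
      exact h3
    filter_upwards [h0] with z hz
    rw [← hz, Complex.conj_conj]

/-! ### Step 3: the constant -/

theorem zeta_coeff {a ζ z1 : ℂ → ℂ} {d : ℝ}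
    (ha : AnalyticAt ℂ a 0) (ha0 : a 0 = 0) (ha1 : deriv a 0 = 1)
    (ha2 : deriv (deriv a) 0 = 2 * d - 2)
    (hζa : ∀ᶠ η in 𝓝 (0:ℂ), ζ (-(a η)) = -ζ η)
    (hz : AnalyticAt ℂ z1 0) (hz0 : z1 0 = -1 / 2) (hζz : ∀ η, ζ η = η * z1 η) :
    deriv z1 0 = (1 - d) / 4 := by
  obtain ⟨a1, ha1a, ha10, ha11, haa, -⟩ := div2 ha ha0
  have hna : AnalyticAt ℂ (fun η => -(a η)) 0 := ha.neg
  have hna0 : -(a 0) = 0 := by rw [ha0, neg_zero]
  have h1 : ∀ᶠ η in 𝓝[≠] (0:ℂ), a1 η * z1 (-(a η)) = z1 η := by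
    filter_upwards [nhdsWithin_le_nhds hζa, self_mem_nhdsWithin] with η h2 h3
    rw [hζz, hζz η] at h2
    have h4 : -(a η) * z1 (-(a η)) = -(η * (a1 η * z1 (-(a η)))) := by
      rw [← mul_assoc, ← haa η]; ring
    rw [h4] at h2
    exact mul_left_cancel₀ h3 (by linear_combination -h2)
  have h2 := ext_punct (ha1a.mul (AnalyticAt.fun_comp_of_eq hz hna hna0)) hz h1
  have hzd : HasDerivAt z1 (deriv z1 0) (-(a 0)) := by
    rw [hna0]
    exact hz.differentiableAt.hasDerivAt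
  have h3 := ha1a.differentiableAt.hasDerivAt.mul
    (hzd.comp 0 ha.differentiableAt.hasDerivAt.neg)
  have h4 := h3.deriv.symm.trans (EventuallyEq.deriv_eq h2)
  simp only [Function.comp, Pi.neg_apply, hna0, ha10, ha1, hz0] at h4
  rw [ha2] at ha11
  linear_combination (-1 / 2) * h4 - (1 / 8) * ha11

theorem w_deriv {J G ζ : ℂ → ℂ} {η : ℂ} (hJ : HasDerivAt J (G (ζ η)) (ζ η))
    (hζ : HasDerivAt ζ (deriv ζ η) η) (h0 : ζ η ≠ 0) :
    HasDerivAt (fun η => exp (-3 * J (ζ η)) / (ζ η) ^ 3)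
      (-3 * ((1 / ζ η + G (ζ η)) * deriv ζ η) * (exp (-3 * J (ζ η)) / (ζ η) ^ 3)) η := by
  have h1 : HasDerivAt (fun η => exp (-3 * J (ζ η)) / (ζ η) ^ 3) _ η :=
    (((hJ.comp η hζ).const_mul (-3)).cexp).div (hζ.pow 3) (pow_ne_zero 3 h0)
  convert h1 using 1
  simp only [Function.comp]
  field_simp
  push_cast
  ring

theorem w_tau {G J g0 ζ z1 : ℂ → ℂ} {d : ℝ} {n : ℕ} (hn : (n : ℝ) = 3 * d)
    (hg1 : ∀ᶠ η in 𝓝[≠] (0:ℂ), 1 / η + g0 η =
      d / (1 + η) - (1 / tau η + g0 (tau η)) / (1 + η) ^ 2)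
    (hζ : AnalyticAt ℂ ζ 0) (hζ0 : ζ 0 = 0) (hζ1 : deriv ζ 0 = -1 / 2)
    (hz : AnalyticAt ℂ z1 0) (hz0 : z1 0 = -1 / 2) (hζz : ∀ η, ζ η = η * z1 η)
    (hJ : AnalyticAt ℂ J 0) (hJd : ∀ᶠ z in 𝓝 (0:ℂ), HasDerivAt J (G z) z)
    (hgG : ∀ᶠ η in 𝓝[≠] (0:ℂ), 1 / η + g0 η = (1 / ζ η + G (ζ η)) * deriv ζ η) :
    ∀ᶠ η in 𝓝[≠] (0:ℂ), exp (-3 * J (ζ (tau η))) / (ζ (tau η)) ^ 3 =
      -(1 + η) ^ n * (exp (-3 * J (ζ η)) / (ζ η) ^ 3) := by
  have hζt : Tendsto ζ (𝓝 0) (𝓝 0) := by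
    have := hζ.continuousAt.tendsto
    rwa [hζ0] at this
  have hζt' : Tendsto ζ (𝓝[≠] 0) (𝓝[≠] 0) := tendsto_punct hζ hζ0 (by rw [hζ1]; norm_num)
  have hζn : ∀ᶠ η in 𝓝[≠] (0:ℂ), ζ η ≠ 0 := by
    filter_upwards [hζt'.eventually self_mem_nhdsWithin] with η h using h
  have hzt : AnalyticAt ℂ (fun η => z1 (tau η)) 0 :=
    AnalyticAt.fun_comp_of_eq hz tau_analytic tau_zero
  have hζτ : AnalyticAt ℂ (fun η => ζ (tau η)) 0 :=
    AnalyticAt.fun_comp_of_eq hζ tau_analytic tau_zero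
  have hz0n : z1 0 ≠ 0 := by rw [hz0]; norm_num
  have hzt0 : z1 (tau 0) ≠ 0 := by rw [tau_zero]; exact hz0n
  have hL : AnalyticAt ℂ (fun η => (-(1 + η) * z1 η / z1 (tau η)) ^ 3 *
      exp (-3 * J (ζ (tau η)) + 3 * J (ζ η)) / (1 + η) ^ n) 0 := by
    refine AnalyticAt.div (AnalyticAt.mul (AnalyticAt.pow ?_ 3) (AnalyticAt.cexp ?_)) ?_ (by simp)
    · exact (((analyticAt_const.add analyticAt_id).neg.mul hz)).div hzt hzt0
    · refine (analyticAt_const.mul ?_).add (analyticAt_const.mul ?_)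
      · exact AnalyticAt.fun_comp_of_eq hJ hζτ (by simp [tau_zero, hζ0])
      · exact AnalyticAt.fun_comp_of_eq hJ hζ hζ0
    · exact (analyticAt_const.add analyticAt_id).pow n
  have hz1n : ∀ᶠ η in 𝓝 (0:ℂ), z1 η ≠ 0 := hz.continuousAt.eventually_ne hz0n
  have hK := const_of_punct (K := fun η => exp (-3 * J (ζ (tau η))) / (ζ (tau η)) ^ 3 /
    ((1 + η) ^ n * (exp (-3 * J (ζ η)) / (ζ η) ^ 3))) hL ?_ ?_
  · filter_upwards [hK, nhdsWithin_le_nhds one_add_ne, hζn] with η h1 h2 h3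
    have h4 : (1 + η) ^ n * (exp (-3 * J (ζ η)) / (ζ η) ^ 3) ≠ 0 :=
      mul_ne_zero (pow_ne_zero n h2) (div_ne_zero (exp_ne_zero _) (pow_ne_zero 3 h3))
    have h5 := (div_eq_iff h4).1 h1
    rw [h5, tau_zero, hζ0]
    have h7 : (-(1 + 0) * z1 0 / z1 0 : ℂ) = -1 := by
      rw [mul_div_assoc, div_self hz0n]
      ring
    have h6 : -3 * J 0 + 3 * J 0 = 0 := by ring
    rw [h6, exp_zero, h7]
    simp only [add_zero, one_pow, mul_one, div_one]
    ring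
  · filter_upwards [nhdsWithin_le_nhds one_add_ne, nhdsWithin_le_nhds hz1n,
      nhdsWithin_le_nhds (tendsto_tau.eventually hz1n), self_mem_nhdsWithin] with η h1 h2 h3 h4
    have h4' : η ≠ 0 := h4
    have h5 : ζ (tau η) = -η / (1 + η) * z1 (tau η) := hζz (tau η)
    have h6 : exp (-3 * J (ζ (tau η)) + 3 * J (ζ η)) =
        exp (-3 * J (ζ (tau η))) / exp (-3 * J (ζ η)) := by
      rw [← exp_sub]
      congr 1
      ring
    rw [h6]
    generalize exp (-3 * J (ζ (tau η))) = e1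
    generalize he2 : exp (-3 * J (ζ η)) = e2
    have he2n : e2 ≠ 0 := by rw [← he2]; exact exp_ne_zero _
    rw [h5, hζz η]
    generalize z1 (tau η) = y at h3
    generalize z1 η = x at h2
    field_simp
  · filter_upwards [hg1, hgG, tendsto_tau'.eventually hgG, nhdsWithin_le_nhds one_add_ne,
      nhdsWithin_le_nhds (hζt.eventually hJd),
      nhdsWithin_le_nhds (tendsto_tau.eventually (hζt.eventually hJd)),
      hζn, tendsto_tau'.eventually hζn, nhdsWithin_le_nhds hζ.eventually_analyticAt,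
      nhdsWithin_le_nhds (tendsto_tau.eventually hζ.eventually_analyticAt)]
      with η h1 h2 h3 h4 h5 h6 h7 h8 h9 h10
    have hW1 := w_deriv h5 h9.differentiableAt.hasDerivAt h7
    have hW2 := w_deriv h6 h10.differentiableAt.hasDerivAt h8
    rw [← h2] at hW1
    rw [← h3] at hW2
    have hW3 := hW2.comp η (tau_deriv h4)
    have hp : HasDerivAt (fun η : ℂ => (1 + η) ^ n) ((n:ℂ) * (1 + η) ^ (n - 1) * 1) η :=
      ((hasDerivAt_id η).const_add 1).pow n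
    have h11 : (1 + η) ^ n * (exp (-3 * J (ζ η)) / (ζ η) ^ 3) ≠ 0 :=
      mul_ne_zero (pow_ne_zero n h4) (div_ne_zero (exp_ne_zero _) (pow_ne_zero 3 h7))
    have hnp : (n:ℂ) * (1 + η) ^ (n - 1) = 3 * d * (1 + η) ^ n / (1 + η) := by
      have hnc : (n:ℂ) = 3 * d := by
        have : ((n:ℝ):ℂ) = ((3 * d : ℝ) : ℂ) := by rw [hn]
        push_cast at this
        exact this
      rcases Nat.eq_zero_or_pos n with h0 | h0
      · rw [h0] at hnc ⊢
        simp only [Nat.cast_zero] at hnc ⊢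
        rw [← hnc]
        simp
      · rw [hnc]
        obtain ⟨m, rfl⟩ : ∃ m, n = m + 1 := ⟨n - 1, by omega⟩
        rw [Nat.add_sub_cancel, pow_succ]
        field_simp
    rw [mul_one, hnp] at hp
    have hK := hW3.div (hp.mul hW1) h11
    refine hK.congr_deriv ?_
    rw [div_eq_zero_iff]
    left
    simp only [Function.comp, Pi.mul_apply]
    generalize exp (-3 * J (ζ (tau η))) / (ζ (tau η)) ^ 3 = w1
    generalize exp (-3 * J (ζ η)) / (ζ η) ^ 3 = w2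
    rw [h1]
    field_simp
    ring

/-- the Fatou coordinate as a function of `ζ` -/
def T0 (d : ℝ) (B : ℂ → ℂ) (z : ℂ) : ℂ := (1 / z - B z) / (2 * d)

theorem T0_deriv {d : ℝ} {B M J : ℂ → ℂ} {z : ℂ} (hz : z ≠ 0) (hB : HasDerivAt B (M z) z)
    (hM : exp (-3 * J z) = 1 + z ^ 2 * M z) :
    HasDerivAt (T0 d B) (-(exp (-3 * J z) / z ^ 2) / (2 * d)) z := by
  have h1 : HasDerivAt (fun z : ℂ => 1 / z) ((0 * z - 1 * 1) / z ^ 2) z :=
    (hasDerivAt_const z (1:ℂ)).div (hasDerivAt_id z) hz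
  have h2 := (h1.sub hB).div_const (2 * (d:ℂ))
  refine HasDerivAt.congr_deriv (f := T0 d B) h2 ?_
  rw [hM]
  congr 1
  field_simp
  ring

theorem sum_const {a ζ z1 J B M : ℂ → ℂ} {d : ℝ} {n : ℕ} (hd : 0 < d)
    (ha : AnalyticAt ℂ a 0) (ha0 : a 0 = 0) (ha1 : deriv a 0 = 1)
    (ha2 : deriv (deriv a) 0 = 2 * d - 2)
    (hζa : ∀ᶠ η in 𝓝 (0:ℂ), ζ (-(a η)) = -ζ η)
    (hζ : AnalyticAt ℂ ζ 0) (hζ0 : ζ 0 = 0) (hζ1 : deriv ζ 0 = -1 / 2)
    (hz : AnalyticAt ℂ z1 0) (hz0 : z1 0 = -1 / 2) (hζz : ∀ η, ζ η = η * z1 η)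
    (hB : AnalyticAt ℂ B 0) (hB0 : B 0 = 0) (hBd : ∀ᶠ z in 𝓝 (0:ℂ), HasDerivAt B (M z) z)
    (hJB : ∀ z, exp (-3 * J z) = 1 + z ^ 2 * M z)
    (hW : ∀ᶠ η in 𝓝[≠] (0:ℂ), exp (-3 * J (ζ (tau η))) / (ζ (tau η)) ^ 3 =
      -(1 + η) ^ n * (exp (-3 * J (ζ η)) / (ζ η) ^ 3))
    (hID : ∀ᶠ η in 𝓝 (0:ℂ), (1 + η) ^ 2 * (deriv ζ η * ζ η) =
      -(1 + η) ^ n * (deriv ζ (tau η) * ζ (tau η))) :
    ∀ᶠ η in 𝓝[≠] (0:ℂ), T0 d B (ζ η) + T0 d B (ζ (tau η)) = 1 := by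
  have hζt : Tendsto ζ (𝓝 0) (𝓝 0) := by
    have := hζ.continuousAt.tendsto
    rwa [hζ0] at this
  have hζt' : Tendsto ζ (𝓝[≠] 0) (𝓝[≠] 0) := tendsto_punct hζ hζ0 (by rw [hζ1]; norm_num)
  have hζn : ∀ᶠ η in 𝓝[≠] (0:ℂ), ζ η ≠ 0 := by
    filter_upwards [hζt'.eventually self_mem_nhdsWithin] with η h using h
  have hzt : AnalyticAt ℂ (fun η => z1 (tau η)) 0 :=
    AnalyticAt.fun_comp_of_eq hz tau_analytic tau_zero
  have hζτ : AnalyticAt ℂ (fun η => ζ (tau η)) 0 :=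
    AnalyticAt.fun_comp_of_eq hζ tau_analytic tau_zero
  have hz0n : z1 0 ≠ 0 := by rw [hz0]; norm_num
  have hzt0 : z1 (tau 0) ≠ 0 := by rw [tau_zero]; exact hz0n
  have hz1n : ∀ᶠ η in 𝓝 (0:ℂ), z1 η ≠ 0 := hz.continuousAt.eventually_ne hz0n
  have hz1d := zeta_coeff ha ha0 ha1 ha2 hζa hz hz0 hζz
  have hdc : (d:ℂ) ≠ 0 := by exact_mod_cast hd.ne'
  have hN : AnalyticAt ℂ (fun η => 1 / z1 η - (1 + η) / z1 (tau η)) 0 :=
    (analyticAt_const.div hz hz0n).sub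
      ((analyticAt_const.add analyticAt_id).div hzt hzt0)
  obtain ⟨N1, hN1, hN10, -, hNN, -⟩ := div2 hN (by simp [tau_zero])
  have hN1v : N1 0 = 2 * d := by
    have h1 : HasDerivAt z1 ((1 - d) / 4) 0 := by
      have := hz.differentiableAt.hasDerivAt
      rwa [hz1d] at this
    have h1' : HasDerivAt z1 ((1 - d) / 4) (tau 0) := by rw [tau_zero]; exact h1
    have h2 : HasDerivAt (fun η => z1 (tau η)) ((1 - d) / 4 * (-1 / (1 + 0) ^ 2)) 0 :=
      h1'.comp 0 (tau_deriv (by simp))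
    have h3 : HasDerivAt (fun η => 1 / z1 η - (1 + η) / z1 (tau η)) _ 0 :=
      ((hasDerivAt_const (0:ℂ) (1:ℂ)).div h1 hz0n).sub
        (((hasDerivAt_id (0:ℂ)).const_add 1).div h2 hzt0)
    rw [hN10, h3.deriv]
    simp only [tau_zero, hz0]
    norm_num
    ring
  have hL : AnalyticAt ℂ (fun η => (N1 η - B (ζ η) - B (ζ (tau η))) / (2 * d)) 0 := by
    refine AnalyticAt.div ((hN1.sub ?_).sub ?_) analyticAt_const
      (mul_ne_zero two_ne_zero hdc)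
    · exact AnalyticAt.fun_comp_of_eq hB hζ hζ0
    · exact AnalyticAt.fun_comp_of_eq hB hζτ (by simp [tau_zero, hζ0])
  have hK := const_of_punct (K := fun η => T0 d B (ζ η) + T0 d B (ζ (tau η))) hL ?_ ?_
  · filter_upwards [hK] with η h1
    rw [h1, hN1v, tau_zero, hζ0, hB0, sub_zero, sub_zero]
    exact div_self (mul_ne_zero two_ne_zero hdc)
  · filter_upwards [nhdsWithin_le_nhds one_add_ne, nhdsWithin_le_nhds hz1n,
      nhdsWithin_le_nhds (tendsto_tau.eventually hz1n), self_mem_nhdsWithin] with η h1 h2 h3 h4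
    have h4' : η ≠ 0 := h4
    have h5 : 1 / ζ (tau η) = -(1 + η) / (η * z1 (tau η)) := by
      have : ζ (tau η) = -η / (1 + η) * z1 (tau η) := hζz (tau η)
      rw [this]
      field_simp
    have h6 : 1 / ζ η = 1 / (η * z1 η) := by rw [hζz η]
    have h7 : N1 η = (1 / z1 η - (1 + η) / z1 (tau η)) / η := by
      rw [hNN η, mul_div_cancel_left₀ _ h4']
    simp only [T0]
    rw [h5, h6, h7]
    generalize z1 (tau η) = y at h3
    generalize z1 η = x at h2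
    field_simp
    ring
  · filter_upwards [hW, nhdsWithin_le_nhds hID, nhdsWithin_le_nhds one_add_ne,
      nhdsWithin_le_nhds (hζt.eventually hBd),
      nhdsWithin_le_nhds (tendsto_tau.eventually (hζt.eventually hBd)),
      hζn, tendsto_tau'.eventually hζn, nhdsWithin_le_nhds hζ.eventually_analyticAt,
      nhdsWithin_le_nhds (tendsto_tau.eventually hζ.eventually_analyticAt)]
      with η h1 h2 h4 h5 h6 h7 h8 h9 h10
    have hT1 : HasDerivAt (fun η => T0 d B (ζ η)) _ η :=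
      (T0_deriv (d := d) h7 h5 (hJB (ζ η))).comp η h9.differentiableAt.hasDerivAt
    have hc : HasDerivAt (fun η => ζ (tau η)) (deriv ζ (tau η) * (-1 / (1 + η) ^ 2)) η :=
      h10.differentiableAt.hasDerivAt.comp η (tau_deriv h4)
    have hT3 : HasDerivAt (T0 d B)
        (-(exp (-3 * J (ζ (tau η))) / (ζ (tau η)) ^ 2) / (2 * d)) ((fun η => ζ (tau η)) η) :=
      T0_deriv (d := d) h8 h6 (hJB (ζ (tau η)))
    have hT2 := HasDerivAt.comp η hT3 hc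
    refine (hT1.add hT2).congr_deriv ?_
    have h11 : exp (-3 * J (ζ (tau η))) / (ζ (tau η)) ^ 2 =
        ζ (tau η) * (exp (-3 * J (ζ (tau η))) / (ζ (tau η)) ^ 3) := by
      field_simp
    have h12 : exp (-3 * J (ζ η)) / (ζ η) ^ 2 =
        ζ η * (exp (-3 * J (ζ η)) / (ζ η) ^ 3) := by
      field_simp
    rw [h11, h12, h1]
    generalize exp (-3 * J (ζ η)) / (ζ η) ^ 3 = w2
    have h13 : deriv ζ η * ζ η =
        -(1 + η) ^ n * (deriv ζ (tau η) * ζ (tau η)) / (1 + η) ^ 2 := by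
      rw [eq_div_iff (pow_ne_zero 2 h4), ← h2]
      ring
    have h14 : (-(ζ η * w2) / (2 * (d:ℂ)) * deriv ζ η) =
        -(deriv ζ η * ζ η) * w2 / (2 * d) := by ring
    rw [h14, h13]
    field_simp
    ring

/-! ### Step 5: the inverse -/

theorem time_inv {B : ℂ → ℂ} {d : ℝ} (hd : 0 < d) (hB : AnalyticAt ℂ B 0)
    (hBo : ∀ᶠ z in 𝓝 (0:ℂ), B (-z) = -B z)
    (hBr : ∀ᶠ z in 𝓝 (0:ℂ), B ((starRingEnd ℂ) z) = (starRingEnd ℂ) (B z)) :
    ∃ X : ℂ → ℂ, AnalyticAt ℂ X 0 ∧ X 0 = 0 ∧ deriv X 0 ≠ 0 ∧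
      (∀ᶠ w in 𝓝 (0:ℂ), X (-w) = -X w) ∧
      (∀ᶠ w in 𝓝 (0:ℂ), X ((starRingEnd ℂ) w) = (starRingEnd ℂ) (X w)) ∧
      Tendsto (fun w => 1 / X w - 2 * d / w) (𝓝[≠] 0) (𝓝 0) ∧
      (∀ᶠ z in 𝓝[≠] (0:ℂ), X (1 / T0 d B z) = z) ∧
      ∀ᶠ w in 𝓝[≠] (0:ℂ), T0 d B (X w) = 1 / w := by
  have hdc : (d:ℂ) ≠ 0 := by exact_mod_cast hd.ne'
  set F : ℂ → ℂ := fun z => 2 * d * z / (1 - z * B z) with hF
  have hD : AnalyticAt ℂ (fun z => 1 - z * B z) 0 :=
    analyticAt_const.sub (analyticAt_id.mul hB)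
  have hDn : ∀ᶠ z in 𝓝 (0:ℂ), 1 - z * B z ≠ 0 := by
    refine hD.continuousAt.eventually_ne ?_
    simp
  have hFa : AnalyticAt ℂ F 0 :=
    (analyticAt_const.mul analyticAt_id).div hD (by simp)
  have hF0 : F 0 = 0 := by simp [hF]
  have hFd : deriv F 0 = 2 * d := by
    have h1 : HasDerivAt F _ 0 := ((hasDerivAt_id (0:ℂ)).const_mul (2 * (d:ℂ))).div
      (((hasDerivAt_id (0:ℂ)).mul hB.differentiableAt.hasDerivAt).const_sub 1)
      (by simp)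
    rw [h1.deriv]
    simp
  have hFd' : deriv F 0 ≠ 0 := by rw [hFd]; exact mul_ne_zero two_ne_zero hdc
  have hFT : ∀ z : ℂ, z ≠ 0 → T0 d B z = 1 / F z := by
    intro z hz
    simp only [T0, hF]
    have h1 : 1 / z - B z = (1 - z * B z) / z := by field_simp
    rw [h1, div_div, one_div_div]
    congr 1
    ring
  obtain ⟨X, hX, hX0, hX1, hFX, hXF⟩ := local_inv hFa hF0 hFd'
  have hX1n : deriv X 0 ≠ 0 := by rw [hX1]; exact inv_ne_zero hFd'
  have hXt : Tendsto X (𝓝 0) (𝓝 0) := by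
    have := hX.continuousAt.tendsto
    rwa [hX0] at this
  have hXt' : Tendsto X (𝓝[≠] 0) (𝓝[≠] 0) := tendsto_punct hX hX0 hX1n
  have hXo : ∀ᶠ w in 𝓝 (0:ℂ), X (-w) = -X w := by
    have h0 : Tendsto (fun w => -X w) (𝓝 0) (𝓝 0) := tendsto_neg0.comp hXt
    filter_upwards [hXt.eventually hBo, hFX, h0.eventually hXF] with w h1 h2 h3
    have h5 : F (-X w) = -F (X w) := by
      simp only [hF]
      rw [h1]
      ring
    have h4 : F (-X w) = -w := by rw [h5, h2]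
    rw [← h4]
    exact h3
  have hXr : ∀ᶠ w in 𝓝 (0:ℂ), X ((starRingEnd ℂ) w) = (starRingEnd ℂ) (X w) := by
    have h0 : Tendsto (fun w => (starRingEnd ℂ) (X w)) (𝓝 0) (𝓝 0) := tendsto_conj0.comp hXt
    filter_upwards [hXt.eventually hBr, hFX, h0.eventually hXF] with w h1 h2 h3
    have h4 : F ((starRingEnd ℂ) (X w)) = (starRingEnd ℂ) w := by
      have h5 := congrArg (starRingEnd ℂ) h2
      rw [← h5]
      simp only [hF, h1]
      simp only [map_div₀, map_mul, map_sub, map_one, Complex.conj_ofReal, Complex.conj_ofNat]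
    rw [← h4]
    exact h3
  refine ⟨X, hX, hX0, hX1n, hXo, hXr, ?_, ?_, ?_⟩
  · obtain ⟨x1, hx1, hx10, -, hXx, -⟩ := div2 hX hX0
    have hx10n : x1 0 ≠ 0 := by rw [hx10]; exact hX1n
    have hxe : ∀ᶠ w in 𝓝 (0:ℂ), x1 (-w) = x1 w := by
      refine ext_punct (AnalyticAt.fun_comp_of_eq hx1 analyticAt_id.neg (by simp)) hx1 ?_
      filter_upwards [nhdsWithin_le_nhds hXo, self_mem_nhdsWithin] with w h1 h2
      rw [hXx, hXx w] at h1
      exact mul_left_cancel₀ h2 (by linear_combination -h1)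
    have hx1d : deriv x1 0 = 0 := by
      have h1 : HasDerivAt (fun w => x1 (-w)) (deriv x1 0 * (-1)) 0 := by
        have h2 : HasDerivAt x1 (deriv x1 0) (-0) := by
          rw [neg_zero]; exact hx1.differentiableAt.hasDerivAt
        exact h2.comp 0 (hasDerivAt_neg 0)
      have h3 := h1.deriv.symm.trans (EventuallyEq.deriv_eq hxe)
      have h4 : 2 * deriv x1 0 = 0 := by linear_combination -h3
      exact (mul_eq_zero.1 h4).resolve_left two_ne_zero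
    have hN : AnalyticAt ℂ (fun w => 1 / x1 w - 2 * d) 0 :=
      (analyticAt_const.div hx1 hx10n).sub analyticAt_const
    obtain ⟨e, he, he0, -, hNe, -⟩ := div2 hN (by
      simp only [hx10, hX1, hFd]
      simp)
    have he0' : e 0 = 0 := by
      have h1 : HasDerivAt (fun w => 1 / x1 w - 2 * (d:ℂ)) _ 0 :=
        ((hasDerivAt_const (0:ℂ) (1:ℂ)).div hx1.differentiableAt.hasDerivAt hx10n).sub_const
          (2 * (d:ℂ))
      rw [he0, h1.deriv, hx1d]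
      simp
    have het : Tendsto e (𝓝[≠] 0) (𝓝 0) := by
      have := he.continuousAt.tendsto
      rw [he0'] at this
      exact this.mono_left nhdsWithin_le_nhds
    refine het.congr' ?_
    filter_upwards [self_mem_nhdsWithin, nhdsWithin_le_nhds
      (hx1.continuousAt.eventually_ne hx10n)] with w h1 h2
    have h1' : w ≠ 0 := h1
    have h3 := hNe w
    rw [hXx w]
    have h4 : e w = (1 / x1 w - 2 * d) / w := by
      rw [h3, mul_div_cancel_left₀ _ h1']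
    rw [h4]
    field_simp
  · filter_upwards [nhdsWithin_le_nhds hXF, self_mem_nhdsWithin] with z h1 h2
    rw [hFT z h2, one_div_one_div, h1]
  · filter_upwards [nhdsWithin_le_nhds hFX, hXt'.eventually self_mem_nhdsWithin] with w h1 h2
    rw [hFT _ h2, h1]

theorem exists_R {P : ℂ → Prop} (h : ∀ᶠ w in 𝓝[≠] (0:ℂ), P w) :
    ∃ R > 0, ∀ t : ℂ, R < ‖t‖ → P t⁻¹ := by
  rw [eventually_nhdsWithin_iff] at h
  obtain ⟨r, hr, h1⟩ := Metric.eventually_nhds_iff_ball.1 h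
  refine ⟨r⁻¹, inv_pos.2 hr, fun t ht => ?_⟩
  have ht0 : 0 < ‖t‖ := (inv_pos.2 hr).trans ht
  refine h1 t⁻¹ ?_ ?_
  · rw [mem_ball_zero_iff, norm_inv]
    exact inv_lt_of_inv_lt₀ hr ht
  · exact inv_ne_zero (norm_pos_iff.1 ht0)

end Time

/-- The Fatou coordinate: from the two symmetries of `g dη` and the identity `hID` for the
projective coordinate `U = 1 / ζ`. -/
theorem germ_time {a Q ζ : ℂ → ℂ} {d : ℝ} {n : ℕ} (hd : 0 < d) (hn : (n : ℝ) = 3 * d)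
    (ha : AnalyticAt ℂ a 0) (ha0 : a 0 = 0) (ha1 : deriv a 0 = 1)
    (ha2 : deriv (deriv a) 0 = 2 * d - 2)
    (har : ∀ᶠ η in 𝓝 (0:ℂ), a ((starRingEnd ℂ) η) = (starRingEnd ℂ) (a η))
    (hQ : AnalyticAt ℂ Q 0) (hQ0 : Q 0 = 0) (hQ1 : deriv Q 0 = 1 - d)
    (hg1 : ∀ᶠ η in 𝓝[≠] (0:ℂ), η - Q η ≠ 0 ∧
      d / (η - Q η) = d / (1 + η) -
        d / (-η / (1 + η) - Q (-η / (1 + η))) / (1 + η) ^ 2)
    (hg2 : ∀ᶠ η in 𝓝[≠] (0:ℂ), (d : ℂ) / (η - Q η) = -deriv a η * (d / (-(a η) - Q (-(a η)))))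
    (hζ : AnalyticAt ℂ ζ 0) (hζ0 : ζ 0 = 0) (hζ1 : deriv ζ 0 = -1 / 2)
    (hζr : ∀ᶠ η in 𝓝 (0:ℂ), ζ ((starRingEnd ℂ) η) = (starRingEnd ℂ) (ζ η))
    (hζa : ∀ᶠ η in 𝓝 (0:ℂ), ζ (-(a η)) = -ζ η)
    (hID : ∀ᶠ η in 𝓝 (0:ℂ), (1 + η) ^ 2 * (deriv ζ η * ζ η) =
      -(1 + η) ^ n * (deriv ζ (-η / (1 + η)) * ζ (-η / (1 + η)))) {ρ : ℝ} (hρ : 0 < ρ) :
    ∃ R > 0, ∃ U : ℂ → ℂ, (∀ t : ℂ, R < ‖t‖ → DifferentiableAt ℂ U t ∧ U (-t) = -U t ∧
        U ((starRingEnd ℂ) t) = (starRingEnd ℂ) (U t) ∧ U t ≠ 0) ∧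
      Tendsto (fun t : ℂ => U t - 2 * d * t) (Bornology.cobounded ℂ) (𝓝 0) ∧
      ∀ t : ℂ, R < ‖t‖ → R < ‖1 - t‖ → ∃ η : ℂ, ‖η‖ < ρ ∧ η ≠ 0 ∧ ζ η = (U t)⁻¹ ∧
        ζ (-η / (1 + η)) = (U (1 - t))⁻¹ := by
  obtain ⟨g0, hg0, hgf⟩ := Time.g_form hd hQ hQ0 hQ1
  have hta : Tendsto (fun η => -(a η)) (𝓝[≠] 0) (𝓝[≠] 0) :=
    Time.tendsto_punct ha.neg (by simp [ha0]) (by
      have h1 : HasDerivAt (fun η => -(a η)) (-1) 0 := by
        have h2 := ha.differentiableAt.hasDerivAt.neg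
        rw [ha1] at h2
        exact h2
      rw [h1.deriv]
      norm_num)
  have hg1' : ∀ᶠ η in 𝓝[≠] (0:ℂ), 1 / η + g0 η =
      d / (1 + η) - (1 / Time.tau η + g0 (Time.tau η)) / (1 + η) ^ 2 := by
    filter_upwards [hg1, hgf, Time.tendsto_tau'.eventually hgf] with η h1 h2 h3
    rw [← h2, ← h3]
    exact h1.2
  have hg2' : ∀ᶠ η in 𝓝[≠] (0:ℂ),
      1 / η + g0 η = -deriv a η * (1 / (-(a η)) + g0 (-(a η))) := by
    filter_upwards [hg2, hgf, hta.eventually hgf] with η h1 h2 h3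
    rw [← h2, ← h3]
    exact h1
  have hg0r := Time.g_real hd ha ha0 ha1 ha2 har hg0 hg1' hg2'
  obtain ⟨G, hG, hGo, hGr, hgG⟩ := Time.coord1 ha ha0 hg0 hg0r hg2' hζ hζ0 hζ1 hζr hζa
  obtain ⟨J, B, M, hJ, hB, hB0, hJd, hBd, hBo, hBr, hJB⟩ := Time.coord2 hG hGo hGr
  obtain ⟨z1, hz, hz0, -, hζz, -⟩ := Time.div2 hζ hζ0
  rw [hζ1] at hz0
  have hW := Time.w_tau hn hg1' hζ hζ0 hζ1 hz hz0 hζz hJ hJd hgG
  have hS := Time.sum_const hd ha ha0 ha1 ha2 hζa hζ hζ0 hζ1 hz hz0 hζz hB hB0 hBd hJB hW hID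
  obtain ⟨X, hX, hX0, hX1, hXo, hXr, hXT, hXF, hFX⟩ := Time.time_inv hd hB hBo hBr
  have hζ1n : deriv ζ 0 ≠ 0 := by rw [hζ1]; norm_num
  obtain ⟨χ, hχ, hχ0, hχ1, hζχ, hχζ⟩ := Time.local_inv hζ hζ0 hζ1n
  have hχt' : Tendsto χ (𝓝[≠] 0) (𝓝[≠] 0) :=
    Time.tendsto_punct hχ hχ0 (by rw [hχ1]; exact inv_ne_zero hζ1n)
  have hXt' : Tendsto X (𝓝[≠] 0) (𝓝[≠] 0) := Time.tendsto_punct hX hX0 hX1
  have hζt' : Tendsto ζ (𝓝[≠] 0) (𝓝[≠] 0) := Time.tendsto_punct hζ hζ0 hζ1n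
  have hηt : Tendsto (fun w => χ (X w)) (𝓝[≠] 0) (𝓝[≠] 0) := hχt'.comp hXt'
  have hρe : ∀ᶠ η in 𝓝[≠] (0:ℂ), ‖η‖ < ρ := by
    filter_upwards [nhdsWithin_le_nhds (Metric.ball_mem_nhds (0:ℂ) hρ)] with η h
    simpa using h
  have hall : ∀ᶠ w in 𝓝[≠] (0:ℂ), w ≠ 0 ∧ DifferentiableAt ℂ X w ∧ X (-w) = -X w ∧
      X ((starRingEnd ℂ) w) = (starRingEnd ℂ) (X w) ∧ X w ≠ 0 ∧ ‖χ (X w)‖ < ρ ∧
      χ (X w) ≠ 0 ∧ ζ (χ (X w)) = X w ∧ ζ (Time.tau (χ (X w))) = X (1 / (1 - 1 / w)) := by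
    filter_upwards [self_mem_nhdsWithin, nhdsWithin_le_nhds hX.eventually_analyticAt,
      nhdsWithin_le_nhds hXo, nhdsWithin_le_nhds hXr, hXt'.eventually self_mem_nhdsWithin,
      hηt.eventually hρe, hηt.eventually self_mem_nhdsWithin,
      hXt'.eventually (nhdsWithin_le_nhds hζχ), hηt.eventually hS, hFX,
      (hζt'.comp (Time.tendsto_tau'.comp hηt)).eventually hXF]
      with w h1 h2 h3 h4 h5 h6 h7 h8 h9 h10 h11
    refine ⟨h1, h2.differentiableAt, h3, h4, h5, h6, h7, h8, ?_⟩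
    rw [h8, h10] at h9
    have h12 : Time.T0 d B (ζ (Time.tau (χ (X w)))) = 1 - 1 / w := by
      linear_combination h9
    simp only [Function.comp] at h11
    rw [h12] at h11
    exact h11.symm
  obtain ⟨R, hR, hRt⟩ := Time.exists_R hall
  refine ⟨R, hR, fun t => (X t⁻¹)⁻¹, ?_, ?_, ?_⟩
  · intro t ht
    obtain ⟨h1, h2, h3, h4, h5, -⟩ := hRt t ht
    have ht0 : t ≠ 0 := by
      intro h
      rw [h, inv_zero] at h1
      exact h1 rfl
    refine ⟨?_, ?_, ?_, inv_ne_zero h5⟩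
    · exact (h2.comp t (differentiableAt_inv ht0)).inv h5
    · show (X (-t)⁻¹)⁻¹ = -(X t⁻¹)⁻¹
      rw [inv_neg, h3, inv_neg]
    · show (X ((starRingEnd ℂ) t)⁻¹)⁻¹ = (starRingEnd ℂ) ((X t⁻¹)⁻¹)
      rw [← map_inv₀, h4, map_inv₀]
  · have h1 := hXT.comp (tendsto_inv₀_cobounded' (α := ℂ))
    refine h1.congr fun t => ?_
    simp only [Function.comp]
    rw [one_div, div_inv_eq_mul]
  · intro t ht _
    obtain ⟨-, -, -, -, -, h6, h7, h8, h9⟩ := hRt t ht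
    refine ⟨χ (X t⁻¹), h6, h7, ?_, ?_⟩
    · rw [inv_inv]; exact h8
    · rw [inv_inv, ← one_div, ← one_div]
      rw [one_div, one_div, inv_inv] at h9
      rw [one_div, one_div]
      exact h9
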